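import Pool.Agent.Lib_MP_1209e6_nt.PtsE
import Pool.Agent.Lib_MP_1209e6_kc.PairAlg
import Pool.Agent.Lib_MP_1209e6_k3.HomEq

/-! MP_1209e6_ag, line N: the germ of a flow tube, in all Banach algebras; points near `p` are
determined by their coordinates. -/

set_option autoImplicit false

open Filter Topology

namespace Pool.Agent.TubeN

open Pool.Agent.CampanaFlow Pool.Agent.CampanaB

variable {S : Type} [CommRing S] [Algebra ℂ S] {n : ℕ}

/-- Banach algebra valued points close to `p` are determined by their coordinates -/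
theorem eq_ptE (d : Fin n → Derivation ℂ S S) (y : Fin n → S)
    (hy : ∀ i j, d i (y j) = if i = j then 1 else 0) (G : Finset S)
    (hG : Algebra.adjoin ℂ (G : Set S) = ⊤) (p : S →ₐ[ℂ] ℂ)
    (hunr : ∀ f : S, ∃ h : S, p h ≠ 0 ∧ h * (f - algebraMap ℂ S (p f)) ∈
      Ideal.span (Set.range fun l => y l - algebraMap ℂ S (p (y l)))) :
    ∃ ε : ℝ, 0 < ε ∧ ∀ (W : Type) [NormedCommRing W] [NormedAlgebra ℂ W] [NormOneClass W]
      [CompleteSpace W] (χ : S →ₐ[ℂ] W) (a : Fin n → W),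
      (∀ g ∈ G, ‖χ g - algebraMap ℂ W (p g)‖ ≤ ε) → (∀ j, ‖a j‖ ≤ ε) →
      (∀ j, χ (y j) = algebraMap ℂ W (p (y j)) + a j) → ptE d p a = χ := by
  classical
  have hrange : Set.range (Subtype.val : {x // x ∈ G} → S) = (G : Set S) := by
    ext x; simp
  obtain ⟨ε₁, hε₁, H⟩ := Pool.Agent.K3Node.hom_eq (Subtype.val : {x // x ∈ G} → S)
    (by rw [hrange, hG]) y p (fun i => hunr i)
  obtain ⟨δ, hδ, M, L, hL, hpt⟩ := ptE_spec d G hG p
  obtain ⟨T, hT⟩ : ∃ T : ℝ, T = ∑ g ∈ G, L g := ⟨_, rfl⟩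
  have hT0 : 0 ≤ T := hT ▸ Finset.sum_nonneg fun g _ => hL g
  have hTle : ∀ g ∈ G, L g ≤ T := fun g hg => by
    rw [hT]
    exact Finset.single_le_sum (f := L) (fun g _ => hL g) hg
  refine ⟨min ε₁ (min δ (ε₁ / (T + 1))), by positivity, ?_⟩
  intro W _ _ _ _ χ a h1 h2 h3
  have hr : ∀ j, ‖a j‖ ≤ min δ (ε₁ / (T + 1)) := fun j => (h2 j).trans (min_le_right _ _)
  obtain ⟨h4, -, h6⟩ := hpt W a (min δ (ε₁ / (T + 1))) (min_le_left _ _) hr
  refine H W (ptE d p a) χ ?_ ?_ ?_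
  · intro i
    refine (h6 i.1).trans ?_
    have h7 := hTle i.1 i.2
    have h8 := hL i.1
    calc L i.1 * min δ (ε₁ / (T + 1)) ≤ (T + 1) * (ε₁ / (T + 1)) := by
          apply mul_le_mul (by linarith) (min_le_right _ _) (by positivity) (by positivity)
      _ = ε₁ := by field_simp
  · intro i
    exact (h1 i.1 i.2).trans (min_le_left _ _)
  · intro j
    rw [ptE_coord hy h4 j, h3 j]

section germ

variable {W : Type} [NormedCommRing W] [NormedAlgebra ℂ W]

open scoped Classical in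
/-- the flow of the point `ptE d p a` by `D` during the time `t` -/
noncomputable def flowPt (d : Fin n → Derivation ℂ S S) (D : Derivation ℂ S S) (p : S →ₐ[ℂ] ℂ)
    (a : Fin n → W) (t : W) : S →ₐ[ℂ] W :=
  if h : ∃ q' : S →ₐ[ℂ] W, IsFlowW D (ptE d p a) t q' then h.choose else ptE d p a

theorem flowPt_eq {d : Fin n → Derivation ℂ S S} {D : Derivation ℂ S S} {p : S →ₐ[ℂ] ℂ}
    {a : Fin n → W} {t : W} {q' : S →ₐ[ℂ] W} (h : IsFlowW D (ptE d p a) t q') :
    flowPt d D p a t = q' := by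
  have hex : ∃ q' : S →ₐ[ℂ] W, IsFlowW D (ptE d p a) t q' := ⟨q', h⟩
  have h1 : flowPt d D p a t = hex.choose := dif_pos hex
  rw [h1]
  exact hex.choose_spec.unique h

/-- the germ of the flow tube: coordinates of the flow of `ptE d p a` by `D` during the time `t`,
minus the coordinates of `ptE d p a` -/
noncomputable def flowGerm (d : Fin n → Derivation ℂ S S) (y : Fin n → S) (D : Derivation ℂ S S)
    (p : S →ₐ[ℂ] ℂ) (a : Fin n → W) (t : W) (i : Fin n) : W :=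
  flowPt d D p a t (y i) - ptE d p a (y i)

end germ

/-- **The flow germ**: existence of the flow, bound by the time, values. -/
theorem flowGerm_spec (d : Fin n → Derivation ℂ S S) (y : Fin n → S)
    (hy : ∀ i j, d i (y j) = if i = j then 1 else 0) (D : Derivation ℂ S S) (G : Finset S)
    (hG : Algebra.adjoin ℂ (G : Set S) = ⊤) (p : S →ₐ[ℂ] ℂ)
    (hunr : ∀ f : S, ∃ h : S, p h ≠ 0 ∧ h * (f - algebraMap ℂ S (p f)) ∈
      Ideal.span (Set.range fun l => y l - algebraMap ℂ S (p (y l)))) :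
    ∃ δ : ℝ, 0 < δ ∧ ∃ L : ℝ, 0 ≤ L ∧
      ∀ (W : Type) [NormedCommRing W] [NormedAlgebra ℂ W] [NormOneClass W] [CompleteSpace W]
        (a : Fin n → W) (t : W), (∀ i, ‖a i‖ ≤ δ) → ‖t‖ ≤ δ →
        PathW d (ptW W p) ((List.finRange n).map fun i => (i, a i)) (ptE d p a) ∧
        IsFlowW D (ptE d p a) t (flowPt d D p a t) ∧
        (∀ i, ‖flowGerm d y D p a t i‖ ≤ L * ‖t‖) ∧
        ptE d p (fun i => a i + flowGerm d y D p a t i) = flowPt d D p a t := by
  obtain ⟨ε, hε, Heq⟩ := eq_ptE d y hy G hG p hunr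
  obtain ⟨δ, hδ, M, L, hL, hpt⟩ := ptE_spec d G hG p
  obtain ⟨ρ, hρ, L', hL', hfl⟩ := unif_flowW (fun _ : Fin 1 => D) G hG M
  obtain ⟨T, hT⟩ : ∃ T : ℝ, T = ∑ g ∈ G, (L g + L' g) + ∑ i, L' (y i) := ⟨_, rfl⟩
  have hT1 : 0 ≤ ∑ g ∈ G, (L g + L' g) := Finset.sum_nonneg fun g _ => add_nonneg (hL g) (hL' g)
  have hT2 : 0 ≤ ∑ i, L' (y i) := Finset.sum_nonneg fun i _ => hL' _
  have hT0 : 0 ≤ T := by rw [hT]; linarith
  have hTle : ∀ g ∈ G, L g + L' g ≤ T := fun g hg => by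
    have := Finset.single_le_sum (f := fun g => L g + L' g)
      (fun g _ => add_nonneg (hL g) (hL' g)) hg
    rw [hT]
    linarith
  have hTy : ∀ i, L' (y i) ≤ T := fun i => by
    have := Finset.single_le_sum (f := fun i => L' (y i)) (fun i _ => hL' (y i)) (Finset.mem_univ i)
    rw [hT]
    linarith
  obtain ⟨δ', hδ'⟩ : ∃ δ' : ℝ, δ' = min (min δ ρ) (ε / (T + 1)) := ⟨_, rfl⟩
  have hδ'0 : 0 < δ' := by rw [hδ']; positivity
  have hδ'1 : δ' ≤ δ := by rw [hδ']; exact (min_le_left _ _).trans (min_le_left _ _)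
  have hδ'2 : δ' ≤ ρ := by rw [hδ']; exact (min_le_left _ _).trans (min_le_right _ _)
  have hδ'3 : (T + 1) * δ' ≤ ε := by
    have h1 : δ' ≤ ε / (T + 1) := by rw [hδ']; exact min_le_right _ _
    rw [le_div_iff₀ (by positivity)] at h1
    linarith [mul_comm δ' (T + 1)]
  refine ⟨δ', hδ'0, T, hT0, ?_⟩
  intro W _ _ _ _ a t ha ht
  obtain ⟨h1, h2, h3⟩ := hpt W a δ' hδ'1 ha
  obtain ⟨q', h4, h5, h6⟩ := hfl W (ptE d p a) h2 0 t (ht.trans hδ'2)
  have h7 : flowPt d D p a t = q' := flowPt_eq h4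
  have hg : ∀ i, ‖flowGerm d y D p a t i‖ ≤ T * ‖t‖ := by
    intro i
    unfold flowGerm
    rw [h7]
    exact (h6 _).trans (mul_le_mul_of_nonneg_right (hTy i) (norm_nonneg _))
  refine ⟨h1, h7 ▸ h4, hg, ?_⟩
  rw [h7]
  refine Heq W q' _ ?_ ?_ ?_
  · intro g hgG
    have e1 : q' g - algebraMap ℂ W (p g) =
        (q' g - ptE d p a g) + (ptE d p a g - algebraMap ℂ W (p g)) := by ring
    rw [e1]
    refine (norm_add_le _ _).trans ?_
    have e2 : ‖q' g - ptE d p a g‖ ≤ L' g * δ' :=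
      (h6 g).trans (mul_le_mul_of_nonneg_left ht (hL' g))
    have e3 := h3 g
    have e4 : (L g + L' g) * δ' ≤ T * δ' := mul_le_mul_of_nonneg_right (hTle g hgG) hδ'0.le
    nlinarith
  · intro j
    refine (norm_add_le _ _).trans ?_
    have e1 := ha j
    have e2 := (hg j).trans (mul_le_mul_of_nonneg_left ht hT0)
    nlinarith
  · intro j
    unfold flowGerm
    rw [h7, ← add_assoc, ← ptE_coord hy h1 j]
    ring

/-- naturality of the flow point and of the flow germ -/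
theorem flowPt_map {d : Fin n → Derivation ℂ S S} {D : Derivation ℂ S S} {p : S →ₐ[ℂ] ℂ}
    {W W' : Type} [NormedCommRing W] [NormedAlgebra ℂ W] [NormOneClass W] [CompleteSpace W]
    [NormedCommRing W'] [NormedAlgebra ℂ W'] [NormOneClass W'] [CompleteSpace W']
    (φ : W →ₐ[ℂ] W') (hφ : ∀ x, ‖φ x‖ ≤ ‖x‖) {a : Fin n → W} {t : W}
    (h : PathW d (ptW W p) ((List.finRange n).map fun i => (i, a i)) (ptE d p a))
    (h' : IsFlowW D (ptE d p a) t (flowPt d D p a t)) :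
    flowPt d D p (fun i => φ (a i)) (φ t) = φ.comp (flowPt d D p a t) := by
  apply flowPt_eq
  rw [ptE_map φ hφ h]
  exact h'.map φ hφ

theorem flowGerm_map {d : Fin n → Derivation ℂ S S} {y : Fin n → S} {D : Derivation ℂ S S}
    {p : S →ₐ[ℂ] ℂ}
    {W W' : Type} [NormedCommRing W] [NormedAlgebra ℂ W] [NormOneClass W] [CompleteSpace W]
    [NormedCommRing W'] [NormedAlgebra ℂ W'] [NormOneClass W'] [CompleteSpace W']
    (φ : W →ₐ[ℂ] W') (hφ : ∀ x, ‖φ x‖ ≤ ‖x‖) {a : Fin n → W} {t : W}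
    (h : PathW d (ptW W p) ((List.finRange n).map fun i => (i, a i)) (ptE d p a))
    (h' : IsFlowW D (ptE d p a) t (flowPt d D p a t)) (i : Fin n) :
    flowGerm d y D p (fun i => φ (a i)) (φ t) i = φ (flowGerm d y D p a t i) := by
  unfold flowGerm
  rw [flowPt_map φ hφ h h', ptE_map φ hφ h, map_sub]
  rfl

/-- Lipschitz bound, automatic (`lip_of_natural`) -/
theorem flowGerm_lip (d : Fin n → Derivation ℂ S S) (y : Fin n → S)
    (hy : ∀ i j, d i (y j) = if i = j then 1 else 0) (D : Derivation ℂ S S) (G : Finset S)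
    (hG : Algebra.adjoin ℂ (G : Set S) = ⊤) (p : S →ₐ[ℂ] ℂ)
    (hunr : ∀ f : S, ∃ h : S, p h ≠ 0 ∧ h * (f - algebraMap ℂ S (p f)) ∈
      Ideal.span (Set.range fun l => y l - algebraMap ℂ S (p (y l)))) :
    ∃ δ : ℝ, 0 < δ ∧ ∃ L : ℝ, 0 ≤ L ∧
      ∀ (W : Type) [NormedCommRing W] [NormedAlgebra ℂ W] [NormOneClass W] [CompleteSpace W]
        (a a' : Fin n → W) (t : W), (∀ i, ‖a i‖ ≤ δ) → (∀ i, ‖a' i‖ ≤ δ) → ‖t‖ ≤ δ →
        ∀ i, ‖flowGerm d y D p a t i - flowGerm d y D p a' t i‖ ≤ L * ‖t‖ * ‖a - a'‖ := by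
  obtain ⟨δ, hδ, L, hL, H⟩ := flowGerm_spec d y hy D G hG p hunr
  refine ⟨δ / 2, by positivity, L / (δ / 2), by positivity, ?_⟩
  intro W _ _ _ _ a a' t ha ha' ht i
  exact lip_of_natural (ι := Fin n) (κ := Fin n) (δ := δ / 2) (L := L) (by positivity)
    (fun E _ _ _ _ a t i => flowGerm d y D p a t i)
    (fun E E' _ _ _ _ _ _ _ _ φ hφ a t ha ht k => by
      obtain ⟨h1, h2, -, -⟩ := H E a t (fun i => (ha i).trans (by linarith)) (ht.trans (by linarith))
      exact flowGerm_map φ hφ h1 h2 k)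
    (fun E _ _ _ _ a t ha ht k =>
      (H E a t (fun i => (ha i).trans (by linarith)) (ht.trans (by linarith))).2.2.1 k)
    W a a' t ha ha' ht i

end Pool.Agent.TubeN
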