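import Pool.Agent.Lib_MP_1209e6_fl.F1
import Pool.Agent.Lib_MP_1209e6_fl.F3

/-!
# MP_1209e6_ag, line N: flows of points with values in a commutative Banach algebra

`bev D q t f = ∑ (1/n!) q (D^n f) t^n`, `q : S → A`, `t : A`.
-/

set_option autoImplicit false

open Filter Topology

namespace Pool.Agent.TubeN

open Pool.Agent.CampanaFlow

variable {S : Type} [CommRing S] [Algebra ℂ S]

section defs

variable {A : Type} [NormedCommRing A] [NormedAlgebra ℂ A]

/-- Taylor coefficients -/
noncomputable def bt (D : Derivation ℂ S S) (q : S → A) (f : S) (n : ℕ) : A :=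
  ((n.factorial : ℂ))⁻¹ • q (D^[n] f)

/-- `q ∘ exp (t D)` -/
noncomputable def bev (D : Derivation ℂ S S) (q : S → A) (t : A) (f : S) : A :=
  ∑' n, bt D q f n * t ^ n

/-- bounds for the words in the derivations `d` -/
def WB {ι : Type} (d : ι → Derivation ℂ S S) (q : S → A) (C : S → ℝ) (R : ℝ) : Prop :=
  ∀ (w : List ι) (f : S), ‖q (word d w f)‖ ≤ C f * w.length.factorial * R ^ w.length

/-- `q exp (t₁ D_{i₁}) …`, the head of the list is the last flow -/
noncomputable def bchain {ι : Type} (d : ι → Derivation ℂ S S) (q : S → A) : List (ι × A) → S → A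
  | [] => q
  | (i, t) :: l => bev (d i) (bchain d q l) t

end defs

section wb

variable {A : Type} [NormedCommRing A] [NormedAlgebra ℂ A] {ι : Type}
  {d : ι → Derivation ℂ S S} {q : S → A} {C : S → ℝ} {R : ℝ}

theorem iterate_word (d : ι → Derivation ℂ S S) (i : ι) (n : ℕ) (w : List ι) (f : S) :
    (d i)^[n] (word d w f) = word d (List.replicate n i ++ w) f := by
  induction n with
  | zero => rfl
  | succ n ih =>
    rw [Function.iterate_succ_apply', ih, List.replicate_succ]
    rfl

theorem WB.nonneg (h : WB d q C R) (f : S) : 0 ≤ C f := by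
  have h1 := h [] f
  simp only [List.length_nil, Nat.factorial_zero, Nat.cast_one, mul_one, pow_zero] at h1
  exact (norm_nonneg _).trans h1

variable [NormOneClass A]

/-- the terms of the series of the word `w` -/
theorem WB.term (h : WB d q C R) (hR : 0 ≤ R) (i : ι) (t : A) (w : List ι) (f : S) (n : ℕ) :
    ‖bt (d i) q (word d w f) n * t ^ n‖ ≤ (C f * w.length.factorial * R ^ w.length) *
      (((n + w.length).choose w.length : ℝ) * (R * ‖t‖) ^ n) := by
  have h1 := h (List.replicate n i ++ w) f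
  rw [← iterate_word, List.length_append, List.length_replicate] at h1
  have h0 := h.nonneg f
  have h2 : ‖bt (d i) q (word d w f) n‖ ≤ (n.factorial : ℝ)⁻¹ *
      (C f * (n + w.length).factorial * R ^ (n + w.length)) := by
    unfold bt
    rw [norm_smul, norm_inv, Complex.norm_natCast]
    exact mul_le_mul_of_nonneg_left h1 (by positivity)
  have h3 : ‖t ^ n‖ ≤ ‖t‖ ^ n := norm_pow_le t n
  have h4 : ((n + w.length).factorial : ℝ) =
      ((n + w.length).choose w.length : ℝ) * w.length.factorial * n.factorial := by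
    have := Nat.add_choose_mul_factorial_mul_factorial n w.length
    rw [← this]
    have h5 : (n + w.length).choose w.length = (n + w.length).choose n := by
      rw [Nat.choose_symm_add]
    push_cast
    rw [h5]
    ring
  calc ‖bt (d i) q (word d w f) n * t ^ n‖
      ≤ ‖bt (d i) q (word d w f) n‖ * ‖t ^ n‖ := norm_mul_le _ _
    _ ≤ ((n.factorial : ℝ)⁻¹ * (C f * (n + w.length).factorial * R ^ (n + w.length))) *
        ‖t‖ ^ n := mul_le_mul h2 h3 (norm_nonneg _) (by positivity)
    _ = (C f * w.length.factorial * R ^ w.length) *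
    (((n + w.length).choose w.length : ℝ) * (R * ‖t‖) ^ n) := by
        rw [h4, pow_add, mul_pow]
        have h6 : (n.factorial : ℝ) ≠ 0 := by positivity
        field_simp

theorem summable_choose (m : ℕ) {x : ℝ} (h0 : 0 ≤ x) (h1 : x ≤ 1 / 2) :
    Summable fun n : ℕ => ((n + m).choose m : ℝ) * x ^ n := by
  refine summable_choose_mul_geometric_of_norm_lt_one m ?_
  rw [Real.norm_of_nonneg h0]
  linarith

theorem tsum_choose_le (m : ℕ) {x : ℝ} (h0 : 0 ≤ x) (h1 : x ≤ 1 / 2) :
    ∑' n : ℕ, ((n + m).choose m : ℝ) * x ^ n ≤ 2 ^ (m + 1) := by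
  rw [tsum_choose_mul_geometric_of_norm_lt_one m (by
    rw [Real.norm_of_nonneg h0]
    linarith)]
  have h2 : (1 / 2 : ℝ) ^ (m + 1) ≤ (1 - x) ^ (m + 1) :=
    pow_le_pow_left₀ (by norm_num) (by linarith) _
  have h3 : (0 : ℝ) < (1 / 2 : ℝ) ^ (m + 1) := by positivity
  calc 1 / (1 - x) ^ (m + 1) ≤ 1 / (1 / 2 : ℝ) ^ (m + 1) := one_div_le_one_div_of_le h3 h2
    _ = 2 ^ (m + 1) := by rw [one_div, one_div, inv_pow, inv_inv]

theorem WB.summable (h : WB d q C R) (hR : 0 ≤ R) (i : ι) {t : A} (ht : R * ‖t‖ ≤ 1 / 2)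
    (w : List ι) (f : S) : Summable fun n => ‖bt (d i) q (word d w f) n * t ^ n‖ :=
  Summable.of_nonneg_of_le (fun _ => norm_nonneg _) (h.term hR i t w f)
    ((summable_choose w.length (mul_nonneg hR (norm_nonneg t)) ht).mul_left _)

theorem WB.summable_zero (h : WB d q C R) (hR : 0 ≤ R) (i : ι) {t : A} (ht : R * ‖t‖ ≤ 1 / 2)
    (f : S) : Summable fun n => ‖bt (d i) q f n * t ^ n‖ :=
  h.summable hR i ht [] f

/-- the word bounds of the flow -/
theorem WB.flow (h : WB d q C R) (hR : 0 ≤ R) (i : ι) {t : A} (ht : R * ‖t‖ ≤ 1 / 2) :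
    WB d (bev (d i) q t) (fun f => 2 * C f) (2 * R) := by
  intro w f
  have hx0 : 0 ≤ R * ‖t‖ := mul_nonneg hR (norm_nonneg t)
  have hs := summable_choose w.length hx0 ht
  have h0 := h.nonneg f
  refine (tsum_of_norm_bounded (hs.mul_left (C f * w.length.factorial * R ^ w.length)).hasSum
    (h.term hR i t w f)).trans ?_
  rw [tsum_mul_left]
  calc C f * w.length.factorial * R ^ w.length *
        ∑' n : ℕ, ((n + w.length).choose w.length : ℝ) * (R * ‖t‖) ^ n
      ≤ C f * w.length.factorial * R ^ w.length * 2 ^ (w.length + 1) :=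
        mul_le_mul_of_nonneg_left (tsum_choose_le _ hx0 ht) (by positivity)
    _ = 2 * C f * w.length.factorial * (2 * R) ^ w.length := by
        rw [mul_pow, pow_succ]
        ring

/-- the word bounds of a chain of flows -/
theorem WB.chain (h : WB d q C R) (hR : 0 ≤ R) (l : List (ι × A))
    (hl : ∀ x ∈ l, 2 ^ l.length * R * ‖x.2‖ ≤ 1 / 2) :
    WB d (bchain d q l) (fun f => 2 ^ l.length * C f) (2 ^ l.length * R) := by
  induction l with
  | nil =>
    intro w f
    simpa [bchain] using h w f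
  | cons x l ih =>
    obtain ⟨i, t⟩ := x
    have h2 : (2 : ℝ) ^ l.length ≤ 2 ^ (l.length + 1) :=
      pow_le_pow_right₀ (by norm_num) (Nat.le_succ _)
    have hmono : ∀ y : A, (2 : ℝ) ^ (l.length + 1) * R * ‖y‖ ≤ 1 / 2 →
        2 ^ l.length * R * ‖y‖ ≤ 1 / 2 := by
      intro y hy
      refine le_trans ?_ hy
      exact mul_le_mul_of_nonneg_right (mul_le_mul_of_nonneg_right h2 hR) (norm_nonneg _)
    have ih' := ih (fun y hy => hmono y.2 (hl y (List.mem_cons_of_mem _ hy)))
    have h3 := ih'.flow (by positivity) i (t := t) (hmono t (hl (i, t) (List.mem_cons_self)))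
    intro w f
    have h4 := h3 w f
    show ‖bev (d i) (bchain d q l) t (word d w f)‖ ≤ _
    refine h4.trans (le_of_eq ?_)
    rw [List.length_cons, pow_succ]
    ring

end wb

/-! ## The flow is a homomorphism -/

section hom

variable {A : Type} [NormedCommRing A] [NormedAlgebra ℂ A] {D : Derivation ℂ S S}
  {q : S →ₐ[ℂ] A} {t : A} {f g : S}

theorem bt_mul (n : ℕ) : bt D q (f * g) n =
    ∑ ij ∈ Finset.HasAntidiagonal.antidiagonal n, bt D q f ij.1 * bt D q g ij.2 := by
  unfold bt
  rw [iterate_leibniz, map_sum, Finset.smul_sum]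
  refine Finset.sum_congr rfl fun ij hij => ?_
  have hn : ij.1 + ij.2 = n := Finset.HasAntidiagonal.mem_antidiagonal.1 hij
  have h1 : ((n.choose ij.1 : ℕ) : ℂ) * (ij.1.factorial * ij.2.factorial) = n.factorial := by
    have h := Nat.add_choose_mul_factorial_mul_factorial ij.2 ij.1
    rw [add_comm ij.2 ij.1, hn] at h
    rw [← h]
    push_cast
    ring
  have h2 : ((ij.1.factorial : ℕ) : ℂ) ≠ 0 := by exact_mod_cast ij.1.factorial_ne_zero
  have h3 : ((ij.2.factorial : ℕ) : ℂ) ≠ 0 := by exact_mod_cast ij.2.factorial_ne_zero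
  have h4 : ((n.factorial : ℕ) : ℂ) ≠ 0 := by exact_mod_cast n.factorial_ne_zero
  rw [smul_mul_smul_comm]
  have h5 : q ((n.choose ij.1 : S) * (D^[ij.1] f * D^[ij.2] g)) =
      ((n.choose ij.1 : ℕ) : ℂ) • (q (D^[ij.1] f) * q (D^[ij.2] g)) := by
    rw [map_mul, map_mul, map_natCast, Algebra.smul_def, map_natCast]
  rw [h5, smul_smul]
  congr 1
  rw [← mul_inv, ← h1]
  have h6 : ((n.choose ij.1 : ℕ) : ℂ) ≠ 0 := by
    intro h7
    rw [h7, zero_mul] at h1
    exact h4 h1.symm
  field_simp

theorem bt_add (q : S →ₐ[ℂ] A) (n : ℕ) : bt D q (f + g) n = bt D q f n + bt D q g n := by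
  unfold bt
  rw [iterate_map_add, map_add, smul_add]

theorem iterate_const (h : D f = 0) {n : ℕ} (hn : n ≠ 0) : D^[n] f = 0 := by
  obtain ⟨m, rfl⟩ := Nat.exists_eq_succ_of_ne_zero hn
  rw [Function.iterate_succ_apply, h]
  clear hn
  induction m with
  | zero => rfl
  | succ m ih => rw [Function.iterate_succ_apply, map_zero, ih]

theorem bev_const (h : D f = 0) : bev D q t f = q f := by
  unfold bev
  rw [tsum_eq_single 0 (fun n hn => by
    unfold bt
    rw [iterate_const h hn, map_zero, smul_zero, zero_mul])]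
  simp [bt]

theorem bev_algebraMap (c : ℂ) : bev D q t (algebraMap ℂ S c) = algebraMap ℂ A c := by
  rw [bev_const (D.map_algebraMap c)]
  exact q.commutes c

variable [CompleteSpace A]

theorem bev_add (hf : Summable fun n => ‖bt D q f n * t ^ n‖)
    (hg : Summable fun n => ‖bt D q g n * t ^ n‖) :
    bev D q t (f + g) = bev D q t f + bev D q t g := by
  unfold bev
  rw [← hf.of_norm.tsum_add hg.of_norm]
  refine tsum_congr fun n => ?_
  rw [bt_add]
  ring

theorem bev_mul (hf : Summable fun n => ‖bt D q f n * t ^ n‖)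
    (hg : Summable fun n => ‖bt D q g n * t ^ n‖) :
    bev D q t (f * g) = bev D q t f * bev D q t g := by
  unfold bev
  rw [tsum_mul_tsum_eq_tsum_sum_antidiagonal_of_summable_norm hf hg]
  refine tsum_congr fun n => ?_
  rw [bt_mul, Finset.sum_mul]
  refine Finset.sum_congr rfl fun kl hkl => ?_
  rw [← Finset.HasAntidiagonal.mem_antidiagonal.1 hkl, pow_add]
  ring

/-- the flow as a homomorphism -/
theorem exists_bflow (h : ∀ f, Summable fun n => ‖bt D q f n * t ^ n‖) :
    ∃ q' : S →ₐ[ℂ] A, ∀ f, q' f = bev D q t f := by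
  have h1 : bev D q t 1 = 1 := by
    have h1 := bev_algebraMap (D := D) (q := q) (t := t) 1
    rwa [map_one, map_one] at h1
  have h0 : bev D q t 0 = 0 := by
    have h1 := bev_algebraMap (D := D) (q := q) (t := t) 0
    rwa [map_zero, map_zero] at h1
  let φ : S →+* A :=
    { toFun := bev D q t
      map_one' := h1
      map_mul' := fun f g => bev_mul (h f) (h g)
      map_zero' := h0
      map_add' := fun f g => bev_add (h f) (h g) }
  exact ⟨{ φ with commutes' := fun c => bev_algebraMap c }, fun f => rfl⟩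

variable {ι : Type} {d : ι → Derivation ℂ S S} {C : S → ℝ} {R : ℝ} [NormOneClass A]

/-- a chain of flows is a homomorphism -/
theorem exists_bchain (h : WB d q C R) (hR : 0 ≤ R) (l : List (ι × A))
    (hl : ∀ x ∈ l, 2 ^ l.length * R * ‖x.2‖ ≤ 1 / 2) :
    ∃ q' : S →ₐ[ℂ] A, ∀ f, q' f = bchain d q l f := by
  induction l with
  | nil => exact ⟨q, fun _ => rfl⟩
  | cons x l ih =>
    obtain ⟨i, t⟩ := x
    have h2 : (2 : ℝ) ^ l.length ≤ 2 ^ (l.length + 1) :=
      pow_le_pow_right₀ (by norm_num) (Nat.le_succ _)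
    have hmono : ∀ y : A, (2 : ℝ) ^ (l.length + 1) * R * ‖y‖ ≤ 1 / 2 →
        2 ^ l.length * R * ‖y‖ ≤ 1 / 2 := by
      intro y hy
      refine le_trans ?_ hy
      exact mul_le_mul_of_nonneg_right (mul_le_mul_of_nonneg_right h2 hR) (norm_nonneg _)
    have hl' : ∀ x ∈ l, 2 ^ l.length * R * ‖x.2‖ ≤ 1 / 2 :=
      fun y hy => hmono y.2 (hl y (List.mem_cons_of_mem _ hy))
    obtain ⟨q', hq'⟩ := ih hl'
    have h3 := h.chain hR l hl'
    have h4 : (bchain d q l) = q' := funext fun f => (hq' f).symm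
    rw [h4] at h3
    obtain ⟨q'', hq''⟩ := exists_bflow (D := d i) (q := q') (t := t)
      (h3.summable_zero (by positivity) i (hmono t (hl (i, t) (List.mem_cons_self))))
    refine ⟨q'', fun f => ?_⟩
    show q'' f = bev (d i) (bchain d q l) t f
    rw [h4]
    exact hq'' f

end hom

/-! ## Naturality -/

section nat

variable {A B : Type} [NormedCommRing A] [NormedAlgebra ℂ A] [NormedCommRing B]
  [NormedAlgebra ℂ B] {ι : Type} {d : ι → Derivation ℂ S S} {q : S → A} {C : S → ℝ} {R : ℝ}

theorem map_bt (h : A →ₐ[ℂ] B) (D : Derivation ℂ S S) (q : S → A) (f : S) (n : ℕ) :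
    h (bt D q f n) = bt D (fun f => h (q f)) f n := by
  unfold bt
  rw [map_smul]

theorem map_bev [CompleteSpace A] (h : A →ₐ[ℂ] B) (hc : Continuous h) (D : Derivation ℂ S S)
    (q : S → A) (t : A) (f : S) (hs : Summable fun n => ‖bt D q f n * t ^ n‖) :
    h (bev D q t f) = bev D (fun f => h (q f)) (h t) f := by
  unfold bev
  have h1 : HasSum (fun n => h (bt D q f n * t ^ n)) (h (∑' n, bt D q f n * t ^ n)) :=
    hs.of_norm.hasSum.map (h : A →+* B).toAddMonoidHom hc
  rw [← h1.tsum_eq]
  refine tsum_congr fun n => ?_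
  rw [map_mul, map_pow, map_bt]

theorem map_bchain [CompleteSpace A] [NormOneClass A] (h : A →ₐ[ℂ] B) (hc : Continuous h)
    (hw : WB d q C R) (hR : 0 ≤ R) (l : List (ι × A))
    (hl : ∀ x ∈ l, 2 ^ l.length * R * ‖x.2‖ ≤ 1 / 2) (f : S) :
    h (bchain d q l f) = bchain d (fun f => h (q f)) (l.map fun x => (x.1, h x.2)) f := by
  induction l generalizing f with
  | nil => rfl
  | cons x l ih =>
    obtain ⟨i, t⟩ := x
    have h2 : (2 : ℝ) ^ l.length ≤ 2 ^ (l.length + 1) :=
      pow_le_pow_right₀ (by norm_num) (Nat.le_succ _)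
    have hmono : ∀ y : A, (2 : ℝ) ^ (l.length + 1) * R * ‖y‖ ≤ 1 / 2 →
        2 ^ l.length * R * ‖y‖ ≤ 1 / 2 := by
      intro y hy
      refine le_trans ?_ hy
      exact mul_le_mul_of_nonneg_right (mul_le_mul_of_nonneg_right h2 hR) (norm_nonneg _)
    have hl' : ∀ x ∈ l, 2 ^ l.length * R * ‖x.2‖ ≤ 1 / 2 :=
      fun y hy => hmono y.2 (hl y (List.mem_cons_of_mem _ hy))
    have h3 := hw.chain hR l hl'
    have h4 := h3.summable_zero (by positivity) i (hmono t (hl (i, t) (List.mem_cons_self))) f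
    show h (bev (d i) (bchain d q l) t f) =
      bev (d i) (bchain d (fun f => h (q f)) (l.map fun x => (x.1, h x.2))) (h t) f
    rw [map_bev h hc _ _ _ _ h4]
    have h5 : (fun f => h (bchain d q l f)) =
        bchain d (fun f => h (q f)) (l.map fun x => (x.1, h x.2)) :=
      funext fun f => ih hl' f
    rw [h5]

end nat

end Pool.Agent.TubeN
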