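import Pool.Agent.Lib_MP_1209e6_nt.OpenFlow
import Pool.Agent.Lib_MP_1209e6_nt.BFlow

/-!
# MP_1209e6_ag, line N: the global property of flow tubes

`θ(a, t) = p exp (a₁ D₁) … exp (a_n D_n) exp (t D)`; for `a` small and analytic and `τ` analytic on an
open set `U`, each component of `U` meeting `‖τ‖ < δ`, the points `θ(a, τ)` of the ring `S'` of the
complete model extend to a curve over `U`.
-/

set_option autoImplicit false

open Filter Topology

namespace Pool.Agent.TubeN

open Pool.Agent.CampanaFlow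

variable {S : Type} [CommRing S] [Algebra ℂ S]

/-- restriction of a curve to a smaller ring -/
theorem IsCurve.restrict {T : Type} [CommRing T] [Algebra ℂ T] {U : Set ℂ}
    {γ : ℂ → S →ₐ[ℂ] ℂ} {B : Set ℂ} (h : IsCurve U γ B) (i : T →ₐ[ℂ] S) :
    IsCurve U (fun w => (γ w).comp i) B :=
  ⟨h.disc, fun f z hz hB => h.ana (i f) z hz hB, fun f z hz => h.mer (i f) z hz⟩

/-! ## Analytic families -/

/-- word bounds for constant families -/
theorem WB.const {A : Type} [NormedCommRing A] [NormedAlgebra ℂ A] [NormOneClass A] {ι : Type}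
    {d : ι → Derivation ℂ S S} {p : S → ℂ} {C : S → ℝ} {R : ℝ} (h : WB d p C R) :
    WB d (fun f => algebraMap ℂ A (p f)) C R := by
  intro w f
  show ‖algebraMap ℂ A (p (word d w f))‖ ≤ _
  rw [norm_algebraMap']
  exact h w f

section family

variable {ι : Type} {d : ι → Derivation ℂ S S} {C : S → ℝ} {R : ℝ}

/-- the flow of an analytic family of points during an analytic time -/
theorem ana_bev {U : Set ℂ} (hU : IsOpen U) {q : ℂ → S → ℂ} (hR : 0 ≤ R)
    (hw : ∀ z ∈ U, WB d (q z) C R)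
    (hq : ∀ f, ∀ z ∈ U, AnalyticAt ℂ (fun w => q w f) z) (i : ι) {τ : ℂ → ℂ}
    (hτ : ∀ z ∈ U, AnalyticAt ℂ τ z) (ht : ∀ z ∈ U, R * ‖τ z‖ ≤ 1 / 2) (f : S) :
    ∀ z ∈ U, AnalyticAt ℂ (fun w => bev (d i) (q w) (τ w) f) z := by
  intro z hz
  have hsum : Summable fun n : ℕ => C f * (1 / 2 : ℝ) ^ n :=
    (summable_geometric_of_lt_one (by norm_num) (by norm_num)).mul_left _
  have hd : DifferentiableOn ℂ (fun w => ∑' n : ℕ, bt (d i) (q w) f n * (τ w) ^ n) U := by
    refine Complex.differentiableOn_tsum_of_summable_norm hsum ?_ hU ?_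
    · intro n w hw'
      refine DifferentiableAt.differentiableWithinAt ?_
      have h5 : DifferentiableAt ℂ (fun w => ((n.factorial : ℂ))⁻¹ • q w ((d i)^[n] f)) w :=
        ((hq ((d i)^[n] f) w hw').differentiableAt).const_smul ((n.factorial : ℂ))⁻¹
      exact h5.mul ((hτ w hw').differentiableAt.pow n)
    · intro n w hw'
      have h1 := (hw w hw').term hR i (τ w) [] f n
      have h2 : (n + ([] : List ι).length).choose ([] : List ι).length = 1 := by simp
      have h0 := (hw w hw').nonneg f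
      rw [h2] at h1
      simp only [List.length_nil, Nat.factorial_zero, Nat.cast_one, mul_one, pow_zero,
        one_mul] at h1
      refine h1.trans (mul_le_mul_of_nonneg_left ?_ h0)
      exact pow_le_pow_left₀ (mul_nonneg hR (norm_nonneg _)) (ht w hw') n
  exact hd.analyticAt (hU.mem_nhds hz)

/-- a chain of flows during analytic times is an analytic family -/
theorem ana_bchain {U : Set ℂ} (hU : IsOpen U) {p : S → ℂ} (hR : 0 ≤ R) (hw : WB d p C R)
    (l : List ι) {a : ι → ℂ → ℂ} (ha : ∀ i ∈ l, ∀ z ∈ U, AnalyticAt ℂ (a i) z)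
    (ht : ∀ i ∈ l, ∀ z ∈ U, 2 ^ l.length * R * ‖a i z‖ ≤ 1 / 2) (f : S) :
    ∀ z ∈ U, AnalyticAt ℂ (fun w => bchain d p (l.map fun i => (i, a i w)) f) z := by
  induction l generalizing f with
  | nil =>
    intro z _
    exact analyticAt_const
  | cons i l ih =>
    have h2 : (2 : ℝ) ^ l.length ≤ 2 ^ (l.length + 1) :=
      pow_le_pow_right₀ (by norm_num) (Nat.le_succ _)
    have hmono : ∀ y : ℂ, (2 : ℝ) ^ (l.length + 1) * R * ‖y‖ ≤ 1 / 2 →
        2 ^ l.length * R * ‖y‖ ≤ 1 / 2 := by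
      intro y hy
      refine le_trans ?_ hy
      exact mul_le_mul_of_nonneg_right (mul_le_mul_of_nonneg_right h2 hR) (norm_nonneg _)
    have ht' : ∀ i ∈ l, ∀ z ∈ U, 2 ^ l.length * R * ‖a i z‖ ≤ 1 / 2 :=
      fun k hk z hz => hmono _ (ht k (List.mem_cons_of_mem _ hk) z hz)
    have ih' := fun f => ih (fun k hk => ha k (List.mem_cons_of_mem _ hk)) ht' f
    refine ana_bev hU (q := fun w => bchain d p (l.map fun i => (i, a i w)))
      (R := 2 ^ l.length * R) (C := fun f => 2 ^ l.length * C f) (by positivity) ?_ ih' i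
      (ha i List.mem_cons_self) (fun z hz => hmono _ (ht i List.mem_cons_self z hz)) f
    intro z hz
    have h3 := hw.chain hR (l.map fun i => (i, a i z)) (by
      intro x hx
      obtain ⟨k, hk, rfl⟩ := List.mem_map.1 hx
      rw [List.length_map]
      exact ht' k hk z hz)
    rwa [List.length_map] at h3

end family

/-! ## The global property -/

section glob

variable {ι : Type} {d : ι → Derivation ℂ S S} {C : S → ℝ} {R : ℝ}

/-- complex values: `bev` is the flow -/
theorem isFlow_of_bev {D : Derivation ℂ S S} {q q' : S →ₐ[ℂ] ℂ} {t : ℂ}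
    (hs : ∀ f, Summable fun n => ‖bt D q f n * t ^ n‖) (h : ∀ f, q' f = bev D q t f) :
    IsFlow D q t q' := by
  have htc : ∀ f n, bt D q f n = tc D q f n := by
    intro f n
    unfold bt tc
    rw [smul_eq_mul, div_eq_mul_inv, mul_comm]
  intro f
  refine ⟨?_, ?_⟩
  · unfold Conv
    refine (hs f).congr fun n => ?_
    rw [htc, norm_mul, norm_pow]
  · rw [h f]
    unfold bev ev
    exact tsum_congr fun n => by rw [htc]

/-- the derivation of the smaller ring -/
theorem iterate_restrict {T : Type} [CommRing T] [Algebra ℂ T] {D : Derivation ℂ S S}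
    {D' : Derivation ℂ T T} {i : T →ₐ[ℂ] S} (hi : ∀ x, D (i x) = i (D' x)) (n : ℕ) (x : T) :
    D^[n] (i x) = i (D'^[n] x) := by
  induction n with
  | zero => rfl
  | succ n ih => rw [Function.iterate_succ_apply', ih, hi, Function.iterate_succ_apply']

/-- the global property of the flow tube -/
theorem flow_glob {p : S →ₐ[ℂ] ℂ} (hw : WB d p C R) (hR : 0 ≤ R) (l : List ι) (j : ι)
    {T : Type} [CommRing T] [Algebra ℂ T] {D' : Derivation ℂ T T} (cd : ChartData D')
    (i : T →ₐ[ℂ] S) (hi : ∀ x, d j (i x) = i (D' x)) {δ : ℝ}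
    (hδ : 2 ^ l.length * R * δ ≤ 1 / 2) {U : Set ℂ} (hU : IsOpen U) {a : ι → ℂ → ℂ}
    (ha : ∀ k ∈ l, ∀ z ∈ U, AnalyticAt ℂ (a k) z) (haδ : ∀ k ∈ l, ∀ z ∈ U, ‖a k z‖ ≤ δ)
    {τ : ℂ → ℂ} (hτ : ∀ z ∈ U, AnalyticAt ℂ τ z)
    (hg : ∀ z ∈ U, ∃ w₀ ∈ connectedComponentIn U z, ‖τ w₀‖ < δ) :
    ∃ (γ' : ℂ → T →ₐ[ℂ] ℂ) (B' : Set ℂ), IsCurve U γ' B' ∧
      ∀ w ∈ U, ‖τ w‖ ≤ δ → w ∉ B' ∧
        ∀ x, γ' w x = bev (d j) (bchain d p (l.map fun k => (k, a k w))) (τ w) (i x) := by
  classical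
  have hle : ∀ y : ℂ, ‖y‖ ≤ δ → 2 ^ l.length * R * ‖y‖ ≤ 1 / 2 := fun y hy =>
    (mul_le_mul_of_nonneg_left hy (by positivity)).trans hδ
  have hlen : ∀ z, (l.map fun k => (k, a k z)).length = l.length := fun z => List.length_map _
  have hl : ∀ z ∈ U, ∀ x ∈ (l.map fun k => (k, a k z)),
      2 ^ (l.map fun k => (k, a k z)).length * R * ‖x.2‖ ≤ 1 / 2 := by
    intro z hz x hx
    obtain ⟨k, hk, rfl⟩ := List.mem_map.1 hx
    rw [hlen]
    exact hle _ (haδ k hk z hz)
  -- the family of points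
  have hex : ∀ z, ∃ q : S →ₐ[ℂ] ℂ, z ∈ U → ∀ f, q f = bchain d p (l.map fun k => (k, a k z)) f := by
    intro z
    by_cases hz : z ∈ U
    · obtain ⟨q, hq⟩ := exists_bchain hw hR _ (hl z hz)
      exact ⟨q, fun _ => hq⟩
    · exact ⟨p, fun h => absurd h hz⟩
  choose q hq using hex
  have hqfun : ∀ z ∈ U, (bchain d p (l.map fun k => (k, a k z))) = q z := fun z hz =>
    funext fun f => (hq z hz f).symm
  have hwq : ∀ z ∈ U, WB d (q z) (fun f => 2 ^ l.length * C f) (2 ^ l.length * R) := by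
    intro z hz
    have h3 := hw.chain hR _ (hl z hz)
    rw [hlen, hqfun z hz] at h3
    exact h3
  have hana : ∀ f, ∀ z ∈ U, AnalyticAt ℂ (fun w => q w f) z := by
    intro f z hz
    refine (ana_bchain hU hR hw l ha (fun k hk z hz => hle _ (haδ k hk z hz)) f z hz).congr ?_
    filter_upwards [hU.mem_nhds hz] with w hw'
    exact (hq w hw' f).symm
  have hcurve : IsCurve U (fun w => (q w).comp i) ∅ :=
    ⟨fun z _ => Eventually.of_forall fun w => Set.notMem_empty w,
      fun f z hz _ => hana (i f) z hz, fun f z hz => (hana (i f) z hz).meromorphicAt⟩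
  -- the flow of the restricted point
  have hflow : ∀ z ∈ U, ‖τ z‖ ≤ δ → ∃ q' : S →ₐ[ℂ] ℂ,
      (∀ f, q' f = bev (d j) (bchain d p (l.map fun k => (k, a k z))) (τ z) f) ∧
      IsFlow D' ((q z).comp i) (τ z) (q'.comp i) := by
    intro z hz ht
    have hs := fun f => (hwq z hz).summable_zero (by positivity) j (t := τ z) (hle _ ht) f
    obtain ⟨q', hq'⟩ := exists_bflow (D := d j) (q := q z) (t := τ z) hs
    refine ⟨q', fun f => by rw [hqfun z hz]; exact hq' f, ?_⟩
    refine isFlow_of_bev (fun x => ?_) (fun x => ?_)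
    · refine (hs (i x)).congr fun n => ?_
      unfold bt
      rw [iterate_restrict hi]
      rfl
    · show q' (i x) = _
      rw [hq' (i x)]
      unfold bev bt
      refine tsum_congr fun n => ?_
      rw [iterate_restrict hi]
      rfl
  -- the size is bounded
  have hsize : ∃ M : ℝ, ∀ z ∈ U, cd.size ((q z).comp i) ≤ M := by
    have hval : ∀ z ∈ U, ∀ f, ‖q z f‖ ≤ 2 ^ l.length * C f := by
      intro z hz f
      have h1 := (hwq z hz) [] f
      simpa [word] using h1
    refine ⟨(1 + cd.deg) * ∑ j, ∑ l', ∑ s ∈ (cd.P j l').support, ‖(cd.P j l').coeff s‖ *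
      ((∏ a, (2 ^ l.length * C (i (cd.c a))) ^ s (Sum.inl a)) * ∏ i, (2 : ℝ) ^ s (Sum.inr i)),
      fun z hz => ?_⟩
    unfold ChartData.size
    refine mul_le_mul_of_nonneg_left ?_ (by positivity)
    refine Finset.sum_le_sum fun j _ => Finset.sum_le_sum fun l' _ => Finset.sum_le_sum fun s _ => ?_
    refine mul_le_mul_of_nonneg_left ?_ (norm_nonneg _)
    refine mul_le_mul_of_nonneg_right ?_ (Finset.prod_nonneg fun _ _ => by positivity)
    refine Finset.prod_le_prod (fun _ _ => by positivity) fun a _ => ?_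
    exact pow_le_pow_left₀ (norm_nonneg _) (hval z hz _) _
  obtain ⟨M, hM⟩ := hsize
  obtain ⟨γ', B', h1, h2⟩ := CampanaK.flow_open cd hU hcurve τ hτ (by
      intro z hz
      have h3 := (hτ z hz).continuousAt.norm
      have h4 : ∀ᶠ w in 𝓝 z, ‖τ w‖ < ‖τ z‖ + 1 :=
        h3.eventually (gt_mem_nhds (by linarith : ‖τ z‖ < ‖τ z‖ + 1))
      refine ⟨(‖τ z‖ + 1) * M, ?_⟩
      filter_upwards [h4, hU.mem_nhds hz] with w hw1 hw2 _
      exact mul_le_mul hw1.le (hM w hw2) (cd.size_nonneg _) (by positivity)) (by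
      intro z hz
      obtain ⟨w₀, hw₀, hτw⟩ := hg z hz
      have hw₀U : w₀ ∈ U := connectedComponentIn_subset U z hw₀
      refine ⟨w₀, hw₀, Set.notMem_empty w₀, ?_⟩
      have h3 := (hτ w₀ hw₀U).continuousAt.norm
      filter_upwards [h3.eventually (gt_mem_nhds hτw), hU.mem_nhds hw₀U] with w hw1 hw2
      obtain ⟨q', -, hq'⟩ := hflow w hw2 hw1.le
      exact ⟨_, hq'⟩)
  refine ⟨γ', B', h1, fun w hw' ht => ?_⟩
  obtain ⟨q', hq'1, hq'2⟩ := hflow w hw' ht
  obtain ⟨h3, h4⟩ := h2 w hw' (Set.notMem_empty w) _ hq'2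
  refine ⟨h3, fun x => ?_⟩
  rw [h4]
  exact hq'1 (i x)

end glob

end Pool.Agent.TubeN
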