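import Pool.Agent.Lib_MP_1209e6_k3.Special
import Pool.Agent.Lib_MP_1209e6_k3.Galois
import Pool.Agent.Lib_MP_1209e6_fl.D8

/-!
# Line N of MP_1209e6_ag: the algebraic reduction

Finitely many covering families are put into one Galois extension `M` of `K`, together with all
conjugates; the common first integrals on `M` are the constants.
-/

set_option autoImplicit false

namespace Pool.Agent.CampanaNT

open Pool.Agent.Campana Pool.Agent.CampanaFlow Pool.Agent.CampanaK3

/-- common first integrals in a Galois extension, all conjugates of which are first integrals, are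
constant if the common first integrals in `K` are constant -/
theorem kernel_const {K M : Type} [Field K] [Field M] [Algebra ℂ K] [Algebra ℂ M] [Algebra K M]
    [IsScalarTower ℂ K M] [FiniteDimensional K M] [IsGalois K M] (T : Set (Derivation ℂ M M))
    (hT : ∀ u : K, (∀ D ∈ T, D (algebraMap K M u) = 0) → ∃ c : ℂ, u = algebraMap ℂ K c)
    (a : M) (h1 : ∀ D ∈ T, ∀ g : M ≃ₐ[K] M, D (g a) = 0) : ∃ c : ℂ, a = algebraMap ℂ M c := by
  classical
  let q : Polynomial M := ∏ g : M ≃ₐ[K] M, (Polynomial.X - Polynomial.C (g a))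
  have hq : q.Monic := Polynomial.monic_prod_of_monic _ _ fun g _ => Polynomial.monic_X_sub_C _
  have hqa : q.eval a = 0 := by
    rw [Polynomial.eval_prod]
    refine Finset.prod_eq_zero (Finset.mem_univ (1 : M ≃ₐ[K] M)) ?_
    simp
  let C : Subring M :=
    { carrier := {u | ∀ D ∈ T, D u = 0}
      mul_mem' := fun {u v} hu hv D hD => by
        rw [Derivation.leibniz, hu D hD, hv D hD, smul_zero, smul_zero, add_zero]
      one_mem' := fun D _ => Derivation.map_one_eq_zero D
      add_mem' := fun {u v} hu hv D hD => by rw [map_add, hu D hD, hv D hD, add_zero]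
      zero_mem' := fun D _ => map_zero D
      neg_mem' := fun {u} hu D hD => by rw [map_neg, hu D hD, neg_zero] }
  have hqC : q ∈ Polynomial.lifts C.subtype := by
    refine prod_mem fun g _ => ?_
    refine (Polynomial.mem_lifts _).2
      ⟨Polynomial.X - Polynomial.C ⟨g a, fun D hD => h1 D hD g⟩, ?_⟩
    rw [Polynomial.map_sub, Polynomial.map_X, Polynomial.map_C]
    rfl
  have hc1 : ∀ i, ∀ D ∈ T, D (q.coeff i) = 0 := by
    intro i
    obtain ⟨r, hr⟩ := (Polynomial.mem_lifts _).1 hqC
    rw [← hr, Polynomial.coeff_map]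
    exact (r.coeff i).2
  have hc2 : ∀ i, ∀ h : M ≃ₐ[K] M, h (q.coeff i) = q.coeff i := by
    intro i h
    have h7 : q.map (h : M →+* M) = q := by
      show Polynomial.map (h : M →+* M) (∏ g : M ≃ₐ[K] M, (Polynomial.X - Polynomial.C (g a))) = _
      rw [Polynomial.map_prod]
      refine Fintype.prod_equiv (Equiv.mulLeft h) _ _ fun g => ?_
      rw [Polynomial.map_sub, Polynomial.map_X, Polynomial.map_C]
      rfl
    conv_rhs => rw [← h7, Polynomial.coeff_map]
    rfl
  have hc3 : ∀ i, ∃ c : ℂ, q.coeff i = algebraMap ℂ M c := by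
    intro i
    obtain ⟨k, hk⟩ := (IsGalois.mem_range_algebraMap_iff_fixed (F := K) (E := M) (q.coeff i)).2 (hc2 i)
    obtain ⟨c, hc⟩ := hT k (fun D hD => by rw [hk]; exact hc1 i D hD)
    exact ⟨c, by rw [← hk, hc, ← IsScalarTower.algebraMap_apply]⟩
  have hint : IsIntegral ℂ a := by
    have h8 : q ∈ Polynomial.lifts (algebraMap ℂ M) := by
      rw [Polynomial.lifts_iff_coeff_lifts]
      intro i
      obtain ⟨c, hc⟩ := hc3 i
      exact ⟨c, hc.symm⟩
    obtain ⟨r, hr, -, hrm⟩ := Polynomial.lifts_and_natDegree_eq_and_monic h8 hq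
    refine ⟨r, hrm, ?_⟩
    rw [← Polynomial.eval_map, hr, hqa]
  have h9 : (minpoly ℂ a).degree = 1 :=
    IsAlgClosed.degree_eq_one_of_irreducible ℂ (minpoly.irreducible hint)
  obtain ⟨c, hc⟩ := minpoly.mem_range_of_degree_eq_one ℂ a h9
  exact ⟨c, hc.symm⟩

/-- a Galois extension which contains finitely many finite extensions -/
theorem exists_galois {K : Type} [Field K] [Algebra ℂ K] {r : ℕ} (L : Fin r → Type)
    [∀ i, Field (L i)] [∀ i, Algebra K (L i)] [∀ i, FiniteDimensional K (L i)] :
    ∃ (M : Type) (_ : Field M) (_ : Algebra ℂ M) (_ : Algebra K M) (_ : IsScalarTower ℂ K M)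
      (_ : FiniteDimensional K M) (_ : IsGalois K M), Nonempty (∀ i, L i →ₐ[K] M) := by
  classical
  have hK : CharZero K := charZero_of_injective_algebraMap (FaithfulSMul.algebraMap_injective ℂ K)
  let Ω := AlgebraicClosure K
  have hal : ∀ i, Algebra.IsAlgebraic K (L i) := fun i => Algebra.IsAlgebraic.of_finite K (L i)
  let φ : ∀ i, L i →ₐ[K] Ω := fun i => IsAlgClosed.lift
  have hf : ∀ i, FiniteDimensional K (φ i).fieldRange := fun i =>
    LinearMap.finiteDimensional_range (φ i).toLinearMap
  let F : IntermediateField K Ω := ⨆ i, (φ i).fieldRange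
  have hF : FiniteDimensional K F := IntermediateField.finiteDimensional_iSup_of_finite
  let M : IntermediateField K Ω := IntermediateField.normalClosure K F Ω
  have hfin : FiniteDimensional K M := normalClosure.is_finiteDimensional K F Ω
  have hnor : Normal K M := normalClosure.normal K F Ω
  have hgal : IsGalois K M := ⟨⟩
  have hFM : F ≤ M := IntermediateField.le_normalClosure F
  have hle : ∀ i, (φ i).fieldRange ≤ M := fun i =>
    (le_iSup (fun i => (φ i).fieldRange) i).trans hFM
  let a1 : Algebra ℂ M := ((algebraMap K M).comp (algebraMap ℂ K)).toAlgebra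
  have t1 : IsScalarTower ℂ K M := IsScalarTower.of_algebraMap_eq fun _ => rfl
  exact ⟨M, inferInstance, a1, inferInstance, t1, hfin, hgal,
    ⟨fun i => (IntermediateField.inclusion (hle i)).comp (φ i).rangeRestrict⟩⟩

/-- extension of a derivation along an embedding in a finite extension -/
theorem ext_along {K L M : Type} [Field K] [Algebra ℂ K] [Field L] [Algebra ℂ L] [Algebra K L]
    [IsScalarTower ℂ K L] [Field M] [Algebra ℂ M] [Algebra K M] [IsScalarTower ℂ K M]
    [FiniteDimensional K M] (j : L →ₐ[K] M) (D : Derivation ℂ L L) :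
    ∃ E : Derivation ℂ M M, ∀ f, E (j f) = j (D f) := by
  let _ : Algebra L M := j.toRingHom.toAlgebra
  have t1 : IsScalarTower K L M := IsScalarTower.of_algebraMap_eq fun u => (j.commutes u).symm
  have t2 : IsScalarTower ℂ L M := IsScalarTower.of_algebraMap_eq fun c => by
    rw [IsScalarTower.algebraMap_apply ℂ K L, IsScalarTower.algebraMap_apply ℂ K M]
    exact (j.commutes _).symm
  have : FiniteDimensional L M := FiniteDimensional.right K L M
  exact exists_extension D

/-- **The reduction.** Finitely many covering families of almost homogeneous varieties, such that a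
rational function algebraic over all the bases is constant, give a finite extension `M` of `K` with
finitely many embedded copies `j a` of the fields `L (i a)`, global fields `D a` of the models and
extensions `E a` of them to `M`, whose common first integrals on `M` are the constants. -/
theorem reduce_main {K : Type} [Field K] [Algebra ℂ K]
    (hfg : ∃ T : Finset K, IntermediateField.adjoin ℂ (T : Set K) = ⊤)
    {r : ℕ} (L : Fin r → Type) [∀ i, Field (L i)] [∀ i, Algebra ℂ (L i)] [∀ i, Algebra K (L i)]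
    [∀ i, IsScalarTower ℂ K (L i)] [∀ i, FiniteDimensional K (L i)]
    (k : ∀ i, IntermediateField ℂ (L i)) (N : Fin r → ℕ) (x : ∀ i, Fin (N i + 1) → L i)
    (h : ∀ i, AlmostHomogeneous (k i) (x i))
    (hc : ∀ u : K, (∀ i, IsAlgebraic (k i) (algebraMap K (L i) u)) →
      ∃ c : ℂ, u = algebraMap ℂ K c) :
    ∃ (M : Type) (_ : Field M) (_ : Algebra ℂ M) (_ : Algebra K M) (_ : IsScalarTower ℂ K M)
      (_ : FiniteDimensional K M) (s : ℕ) (i : Fin s → Fin r) (j : ∀ a, L (i a) →ₐ[ℂ] M)
      (D : ∀ a, Derivation ℂ (L (i a)) (L (i a))) (E : Fin s → Derivation ℂ M M),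
      (∀ a, ∀ u : K, j a (algebraMap K (L (i a)) u) = algebraMap K M u) ∧
      (∀ a, GlobalField (k (i a)) (x (i a)) (D a)) ∧
      (∀ a, ∀ f, E a (j a f) = j a (D a f)) ∧
      (∀ u : M, (∀ a, E a u = 0) → ∃ c : ℂ, u = algebraMap ℂ M c) := by
  classical
  have hess : Algebra.EssFiniteType ℂ K := IntermediateField.fg_top_iff.1 hfg
  have hfgL : ∀ i, ∃ T : Finset (L i), IntermediateField.adjoin ℂ (T : Set (L i)) = ⊤ := fun i => by
    have : Algebra.EssFiniteType ℂ (L i) := Algebra.EssFiniteType.comp ℂ K (L i)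
    exact IntermediateField.fg_top_iff.2 this
  -- finitely many global fields on each `L i`
  have hff : ∀ i, ∃ (m : ℕ) (D : Fin m → Derivation ℂ (L i) (L i)),
      (∀ a, GlobalField (k i) (x i) (D a)) ∧
        ∀ u, (∀ a, D a u = 0) → IsAlgebraic (k i) u := by
    intro i
    obtain ⟨m, D, hD, hDu⟩ := finite_fields (hfgL i) (fun _ : Fin 1 => k i) (fun _ => N i)
      (fun _ => x i) (fun _ => h i)
    exact ⟨m, D, fun a => (hD a).choose_spec, fun u hu => hDu u hu 0⟩
  choose m D hD hDu using hff
  obtain ⟨M, f1, f2, f3, f4, f5, f6, ⟨j⟩⟩ := exists_galois (K := K) L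
  have hE : ∀ i, ∀ a : Fin (m i), ∃ E : Derivation ℂ M M, ∀ f, E (j i f) = j i (D i a f) :=
    fun i a => ext_along (j i) (D i a)
  choose E hE using hE
  let ι : Type := (Σ i : Fin r, Fin (m i)) × (M ≃ₐ[K] M)
  let e : Fin (Fintype.card ι) ≃ ι := (Fintype.equivFin ι).symm
  let jj : ∀ b : ι, L b.1.1 →ₐ[ℂ] M := fun b =>
    ((b.2.toAlgHom.comp (j b.1.1)).restrictScalars ℂ : L b.1.1 →ₐ[ℂ] M)
  have hjj : ∀ (b : ι) (f : L b.1.1), jj b f = b.2 (j b.1.1 f) := fun b f => rfl
  refine ⟨M, f1, f2, f3, f4, f5, Fintype.card ι, fun a => (e a).1.1, fun a => jj (e a),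
    fun a => D (e a).1.1 (e a).1.2,
    fun a => conj ((e a).2.restrictScalars ℂ) (E (e a).1.1 (e a).1.2), ?_, ?_, ?_, ?_⟩
  · intro a u
    rw [hjj, AlgHom.commutes, AlgEquiv.commutes]
  · intro a
    exact hD _ _
  · intro a f
    rw [hjj, hjj, conj_apply]
    have h5 : ((e a).2.restrictScalars ℂ).symm ((e a).2 (j (e a).1.1 f)) = j (e a).1.1 f :=
      ((e a).2.restrictScalars ℂ).symm_apply_apply _
    rw [h5, hE]
    rfl
  · intro u hu
    refine kernel_const (K := K) {F : Derivation ℂ M M | ∃ i, ∃ a : Fin (m i), F = E i a} ?_ u ?_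
    · intro v hv
      refine hc v fun i => hDu i _ fun a => ?_
      have h1 := hv (E i a) ⟨i, a, rfl⟩
      have h2 : algebraMap K M v = j i (algebraMap K (L i) v) := ((j i).commutes v).symm
      rw [h2, hE] at h1
      exact (map_eq_zero _).1 h1
    · rintro F ⟨i, a, rfl⟩ g
      have h0 : ∀ b : ι, conj (b.2.restrictScalars ℂ) (E b.1.1 b.1.2) u = 0 := fun b => by
        obtain ⟨c, rfl⟩ := e.surjective b
        exact hu c
      have h1 := h0 (⟨i, a⟩, g.symm)
      rw [conj_apply] at h1
      have h2 : (g.symm.restrictScalars ℂ).symm u = g u := rfl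
      rw [h2] at h1
      exact (map_eq_zero_iff _ (g.symm.restrictScalars ℂ).injective).1 h1

end Pool.Agent.CampanaNT
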