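import Pool.Agent.Lib_MP_1209e6_k3.Special
import Pool.Agent.Lib_MP_1209e6_nt.Reduce
import Pool.Agent.Lib_MP_1209e6_fl.Main

/-!
# Line N of MP_1209e6_ag: the end

`DenseCurve` is the analytic theorem (line N: induction on tubes; line S: chain of strips).
-/

set_option autoImplicit false

open Pool.Agent.Campana Pool.Agent.CampanaFlow

namespace Pool.Agent.CampanaNT

/-- the data of the analytic theorem -/
structure TubeSetup (n s : ℕ) where
  R : Type
  S : Type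
  SL : Fin s → Type
  [cR : CommRing R]
  [dR : IsDomain R]
  [aR : Algebra ℂ R]
  [fR : Algebra.FiniteType ℂ R]
  [cS : CommRing S]
  [dS : IsDomain S]
  [aS : Algebra ℂ S]
  [fS : Algebra.FiniteType ℂ S]
  [cL : ∀ a, CommRing (SL a)]
  [dL : ∀ a, IsDomain (SL a)]
  [aL : ∀ a, Algebra ℂ (SL a)]
  [fL : ∀ a, Algebra.FiniteType ℂ (SL a)]
  rho : R →ₐ[ℂ] S
  rhoL : ∀ a, R →ₐ[ℂ] SL a
  sig : ∀ a, SL a →ₐ[ℂ] S
  comp : ∀ a f, sig a (rhoL a f) = rho f
  rho_inj : Function.Injective rho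
  sig_inj : ∀ a, Function.Injective (sig a)
  d : ∀ a, Derivation ℂ (SL a) (SL a)
  e : Fin s → Derivation ℂ S S
  sig_d : ∀ a f, sig a (d a f) = e a (sig a f)
  cd : ∀ a, ChartData (d a)
  int : rho.IsIntegral
  y : Fin n → R
  del : Fin n → Derivation ℂ S S
  del_y : ∀ i l, del i (rho (y l)) = if i = l then 1 else 0
  p : S →ₐ[ℂ] ℂ
  general : ∀ f : S, f ≠ 0 → ∃ w : List (Fin s), p (word e w f) ≠ 0
  unram : ∀ f : S, ∃ h : S, p h ≠ 0 ∧
    h * (f - algebraMap ℂ S (p f)) ∈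
      Ideal.span (Set.range fun l => rho (y l) - algebraMap ℂ S (p (rho (y l))))

attribute [instance] TubeSetup.cR TubeSetup.dR TubeSetup.aR TubeSetup.fR TubeSetup.cS TubeSetup.dS
  TubeSetup.aS TubeSetup.fS TubeSetup.cL TubeSetup.dL TubeSetup.aL TubeSetup.fL

end Pool.Agent.CampanaNT
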