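import Pool.Agent.Lib_MP_1209e6_nt.Setup
import Pool.Agent.Lib_MP_1209e6_nf.Final

/-!
# Line N of MP_1209e6_ag: the analytic theorem
-/

set_option autoImplicit false

open Filter Topology Pool.Agent.Campana Pool.Agent.CampanaFlow

namespace Pool.Agent.CampanaNT

/-- the analytic theorem (`Pool.Agent.NF.dense_curve`) -/
theorem dense_curve {n s : ℕ} (T : TubeSetup n s) :
    ∃ (γ : ℂ → T.R →ₐ[ℂ] ℂ) (B : Set ℂ), IsCurve Set.univ γ B ∧
      ∀ f : T.R, (∀ z, z ∉ B → γ z f = 0) → f = 0 :=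
  Pool.Agent.NF.dense_curve T

end Pool.Agent.CampanaNT
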