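import Pool.Agent.Lib_MP_1209e6_nt.SetupOf
import Pool.Agent.Lib_MP_1209e6_nt.DenseCurve

/-!
# Lines N and S of MP_1209e6_ag: the end
-/

set_option autoImplicit false

open Filter Topology Pool.Agent.Campana Pool.Agent.CampanaFlow

namespace Pool.Agent.CampanaNT

/-- the Brody half -/
theorem brody_covers {n : ℕ} (P : Ideal (MvPolynomial (Fin (n + 1)) ℂ)) [P.IsPrime]
    (hP : IsVariety P) {r : ℕ} (L : Fin r → Type) [∀ i, Field (L i)] [∀ i, Algebra ℂ (L i)]
    [∀ i, Algebra (FunField P) (L i)] [∀ i, IsScalarTower ℂ (FunField P) (L i)]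
    [∀ i, FiniteDimensional (FunField P) (L i)] (k : ∀ i, IntermediateField ℂ (L i))
    (N : Fin r → ℕ) (x : ∀ i, Fin (N i + 1) → L i) (h : ∀ i, AlmostHomogeneous (k i) (x i))
    (hc : ∀ u : FunField P, (∀ i, IsAlgebraic (k i) (algebraMap (FunField P) (L i) u)) →
      ∃ c : ℂ, u = algebraMap ℂ (FunField P) c) : BrodySpecial P := by
  classical
  obtain ⟨M, f1, f2, f3, f4, f5, s, i, j, D, E, hj, hD, hE, hker⟩ :=
    reduce_main (funField_fg P) L k N x h hc
  obtain ⟨l₀, hl₀⟩ := hP.2.2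
  obtain ⟨m, T, R, hT, ⟨φ⟩⟩ := exists_setup (funField_fg P) (fun a => L (i a)) j hj D E
    (fun a => ⟨k (i a), N (i a), x (i a), (h (i a)).ne_zero, (h (i a)).gen, hD a⟩) hE hker
    (Finset.univ.image fun l => ratio P l l₀)
  obtain ⟨γ, B, hγ, hdense⟩ := dense_curve T
  refine brody_of_curve P hP l₀ hl₀ R (fun l => hT ?_) (fun z => (γ z).comp (φ : R →ₐ[ℂ] T.R)) B
    ⟨hγ.disc, fun f z hz hzB => hγ.ana (φ f) z hz hzB, fun f z hz => hγ.mer (φ f) z hz⟩
    fun f hf => ?_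
  · simp
  · exact (map_eq_zero_iff φ φ.injective).1 (hdense (φ f) fun z hz => hf z hz)

end Pool.Agent.CampanaNT
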