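import Mathlib

/-!
# MP_1209e6_ag, line N: natural maps on commutative Banach algebras are analytic

A map `g_E : E^ι → E`, defined for all commutative Banach algebras `E` and natural for contractive
homomorphisms, is analytic for `E = ℂ` along analytic families: take for `E` the disc algebra.
-/

set_option autoImplicit false

open Filter Topology

namespace Pool.Agent.TubeN

/-- extension by zero of a function on the closed disc -/
noncomputable def discExt {z₀ : ℂ} {r : ℝ} (f : C(Metric.closedBall z₀ r, ℂ)) (z : ℂ) : ℂ :=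
  open Classical in if h : z ∈ Metric.closedBall z₀ r then f ⟨z, h⟩ else 0

theorem discExt_apply {z₀ : ℂ} {r : ℝ} (f : C(Metric.closedBall z₀ r, ℂ)) {z : ℂ}
    (h : z ∈ Metric.closedBall z₀ r) : discExt f z = f ⟨z, h⟩ := dif_pos h

/-- the disc algebra -/
noncomputable def discAlg (z₀ : ℂ) (r : ℝ) : Subalgebra ℂ C(Metric.closedBall z₀ r, ℂ) where
  carrier := {f | DifferentiableOn ℂ (discExt f) (Metric.ball z₀ r)}
  mul_mem' := by
    intro f g hf hg
    refine (DifferentiableOn.mul hf hg).congr fun z hz => ?_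
    have h := Metric.ball_subset_closedBall hz
    show discExt (f * g) z = discExt f z * discExt g z
    rw [discExt_apply _ h, discExt_apply _ h, discExt_apply _ h]
    rfl
  add_mem' := by
    intro f g hf hg
    refine (DifferentiableOn.add hf hg).congr fun z hz => ?_
    have h := Metric.ball_subset_closedBall hz
    show discExt (f + g) z = discExt f z + discExt g z
    rw [discExt_apply _ h, discExt_apply _ h, discExt_apply _ h]
    rfl
  algebraMap_mem' := by
    intro c
    refine (differentiableOn_const c).congr fun z hz => ?_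
    have h := Metric.ball_subset_closedBall hz
    rw [discExt_apply _ h]
    rfl

instance discCompact (z₀ : ℂ) (r : ℝ) : CompactSpace (Metric.closedBall z₀ r) :=
  isCompact_iff_compactSpace.1 (isCompact_closedBall z₀ r)

theorem isClosed_discAlg (z₀ : ℂ) (r : ℝ) :
    IsClosed (discAlg z₀ r : Set C(Metric.closedBall z₀ r, ℂ)) := by
  refine isClosed_of_closure_subset fun f hf => ?_
  obtain ⟨u, hu, hlim⟩ := mem_closure_iff_seq_limit.1 hf
  have h1 : TendstoUniformly (fun n => (u n : Metric.closedBall z₀ r → ℂ)) f atTop :=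
    ContinuousMap.tendsto_iff_tendstoUniformly.1 hlim
  have h2 : TendstoLocallyUniformlyOn (fun n => discExt (u n)) (discExt f) atTop
      (Metric.ball z₀ r) := by
    refine TendstoUniformlyOn.tendstoLocallyUniformlyOn ?_
    rw [Metric.tendstoUniformlyOn_iff]
    rw [Metric.tendstoUniformly_iff] at h1
    intro ε hε
    filter_upwards [h1 ε hε] with n hn z hz
    have h := Metric.ball_subset_closedBall hz
    rw [discExt_apply _ h, discExt_apply _ h]
    exact hn ⟨z, h⟩
  exact h2.differentiableOn (Eventually.of_forall fun n => hu n) Metric.isOpen_ball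

/-- the disc algebra as a Banach algebra -/
abbrev Disc (z₀ : ℂ) (r : ℝ) : Type := discAlg z₀ r

instance discComplete (z₀ : ℂ) (r : ℝ) : CompleteSpace (Disc z₀ r) :=
  (isClosed_discAlg z₀ r).completeSpace_coe

theorem disc_norm_one (z₀ : ℂ) {r : ℝ} (hr : 0 < r) : ‖(1 : Disc z₀ r)‖ = 1 := by
  haveI : Nonempty (Metric.closedBall z₀ r) := ⟨⟨z₀, Metric.mem_closedBall_self hr.le⟩⟩
  show ‖((1 : Disc z₀ r) : C(Metric.closedBall z₀ r, ℂ))‖ = 1
  exact norm_one

/-- evaluation -/
noncomputable def discEv {z₀ : ℂ} {r : ℝ} (z : Metric.closedBall z₀ r) : Disc z₀ r →ₐ[ℂ] ℂ :=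
  AlgHom.ofLinearMap
    { toFun := fun f => f.1 z
      map_add' := fun _ _ => rfl
      map_smul' := fun _ _ => rfl } rfl (fun _ _ => rfl)

theorem discEv_apply {z₀ : ℂ} {r : ℝ} (z : Metric.closedBall z₀ r) (f : Disc z₀ r) :
    discEv z f = f.1 z := rfl

theorem norm_discEv_le {z₀ : ℂ} {r : ℝ} (z : Metric.closedBall z₀ r) (f : Disc z₀ r) :
    ‖discEv z f‖ ≤ ‖f‖ := ContinuousMap.norm_coe_le_norm f.1 z

/-- natural maps are analytic along analytic families -/
theorem analyticAt_of_natural {ι : Type} [Finite ι]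
    (g : ∀ (E : Type) [NormedCommRing E] [NormedAlgebra ℂ E] [NormOneClass E] [CompleteSpace E],
      (ι → E) → E) (δ : ι → ℝ)
    (hnat : ∀ (E : Type) [NormedCommRing E] [NormedAlgebra ℂ E] [NormOneClass E] [CompleteSpace E]
      (φ : E →ₐ[ℂ] ℂ), (∀ x, ‖φ x‖ ≤ ‖x‖) → ∀ a : ι → E, (∀ i, ‖a i‖ ≤ δ i) →
        φ (g E a) = g ℂ fun i => φ (a i))
    {z₀ : ℂ} {a : ι → ℂ → ℂ} (ha : ∀ i, AnalyticAt ℂ (a i) z₀)
    (haδ : ∀ i, ∀ᶠ z in 𝓝 z₀, ‖a i z‖ ≤ δ i) :
    AnalyticAt ℂ (fun z => g ℂ fun i => a i z) z₀ := by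
  have h1 : ∀ᶠ z in 𝓝 z₀, ∀ i, AnalyticAt ℂ (a i) z ∧ ‖a i z‖ ≤ δ i := by
    rw [eventually_all]
    exact fun i => (ha i).eventually_analyticAt.and (haδ i)
  obtain ⟨r', hr', hball⟩ := Metric.eventually_nhds_iff_ball.1 h1
  obtain ⟨r, hr, hrr⟩ : ∃ r, 0 < r ∧ r < r' := ⟨r' / 2, by linarith, by linarith⟩
  have hsub : ∀ z ∈ Metric.closedBall z₀ r, ∀ i, AnalyticAt ℂ (a i) z ∧ ‖a i z‖ ≤ δ i :=
    fun z hz => hball z (Metric.closedBall_subset_ball hrr hz)
  haveI : NormOneClass (Disc z₀ r) := ⟨disc_norm_one z₀ hr⟩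
  let A : ι → Disc z₀ r := fun i => ⟨⟨fun z => a i z.1, by
      rw [continuous_iff_continuousAt]
      intro z
      exact ((hsub z.1 z.2 i).1.continuousAt).comp continuous_subtype_val.continuousAt⟩, by
      show DifferentiableOn ℂ _ (Metric.ball z₀ r)
      have h2 : DifferentiableOn ℂ (a i) (Metric.ball z₀ r) := fun z hz =>
        ((hsub z (Metric.ball_subset_closedBall hz) i).1.differentiableAt).differentiableWithinAt
      refine h2.congr fun z hz => ?_
      rw [discExt_apply _ (Metric.ball_subset_closedBall hz)]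
      rfl⟩
  have hA : ∀ i, ‖A i‖ ≤ δ i := by
    intro i
    haveI : Nonempty (Metric.closedBall z₀ r) := ⟨⟨z₀, Metric.mem_closedBall_self hr.le⟩⟩
    refine (ContinuousMap.norm_le_of_nonempty _).2 fun z => ?_
    exact (hsub z.1 z.2 i).2
  have h3 : DifferentiableOn ℂ (fun z => g ℂ fun i => a i z) (Metric.ball z₀ r) := by
    have h4 : DifferentiableOn ℂ (discExt (g (Disc z₀ r) A).1) (Metric.ball z₀ r) :=
      (g (Disc z₀ r) A).2
    refine h4.congr fun z hz => ?_
    have hz' := Metric.ball_subset_closedBall hz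
    rw [discExt_apply _ hz']
    have h5 := hnat (Disc z₀ r) (discEv ⟨z, hz'⟩) (norm_discEv_le _) A hA
    rw [discEv_apply] at h5
    exact h5.symm
  exact h3.analyticAt (Metric.ball_mem_nhds z₀ hr)

end Pool.Agent.TubeN
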