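import Pool.Agent.Lib_MP_1209e6_nt.OpenFlow

/-!
# MP_1209e6_ag, line N: the topological part of the lifting property of a glued tube

`U` is a connected open set, `h` a continuous real function on `U` (the real part of the time), the
curve is known on the connected open sets where `h > -c` resp. `h < c` and equals `P` where
`-c < h < c`; both pieces are glued.
-/

set_option autoImplicit false

open Filter Topology Pool.Agent.CampanaFlow Pool.Agent.CampanaK

namespace Pool.Agent.NTGlob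

variable {R : Type} [CommRing R] [Algebra ℂ R]

/-- a component of the part `h > a` of a connected open set contains a point with `h < b`, as soon as
the whole set contains a point with `h < b`, where `a < b` -/
theorem comp_point {U : Set ℂ} (hc : IsPreconnected U) {h : ℂ → ℝ}
    (hh : ContinuousOn h U) {a b : ℝ} (hab : a < b) {x₀ : ℂ} (hx₀ : x₀ ∈ U) (h0 : h x₀ < b)
    (hU : IsOpen {x | x ∈ U ∧ a < h x}) {z : ℂ} (hz : z ∈ {x | x ∈ U ∧ a < h x}) :
    ∃ x ∈ connectedComponentIn {x | x ∈ U ∧ a < h x} z, h x < b := by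
  by_contra hcon
  push Not at hcon
  set V := connectedComponentIn {x | x ∈ U ∧ a < h x} z with hV
  have hVo : IsOpen V := hU.connectedComponentIn
  have hVU : V ⊆ {x | x ∈ U ∧ a < h x} := connectedComponentIn_subset _ _
  have hzV : z ∈ V := mem_connectedComponentIn hz
  -- `V` is closed in `U`
  have hcl : ∀ x ∈ U, x ∈ closure V → x ∈ V := by
    intro x hx hxc
    have h1 : b ≤ h x := by
      by_contra hlt
      push Not at hlt
      have h2 := (hh x hx).eventually (gt_mem_nhds hlt)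
      have h3 : ∀ᶠ y in 𝓝[U] x, y ∉ V := by
        filter_upwards [h2] with y hy hyV
        exact absurd (hcon y hyV) (not_le.2 hy)
      have h4 : x ∈ closure V := hxc
      rw [mem_closure_iff_nhdsWithin_neBot] at h4
      have h5 : 𝓝[V] x ≤ 𝓝[U] x := nhdsWithin_mono _ fun y hy => (hVU hy).1
      have h6 : ∀ᶠ y in 𝓝[V] x, y ∉ V := h5 h3
      have h7 : ∀ᶠ y in 𝓝[V] x, y ∈ V := self_mem_nhdsWithin
      obtain ⟨y, hy1, hy2⟩ := (h6.and h7).exists
      exact hy1 hy2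
    have hxU1 : x ∈ {x | x ∈ U ∧ a < h x} := ⟨hx, lt_of_lt_of_le hab h1⟩
    have h2 : IsPreconnected (insert x V) :=
      isPreconnected_connectedComponentIn.subset_closure (Set.subset_insert _ _)
        (Set.insert_subset hxc subset_closure)
    have h3 : insert x V ⊆ {x | x ∈ U ∧ a < h x} := Set.insert_subset hxU1 hVU
    have h4 := h2.subset_connectedComponentIn (Set.mem_insert_of_mem _ hzV) h3
    exact h4 (Set.mem_insert _ _)
  have hUV : U ⊆ V := by
    intro y hy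
    by_contra hyV
    obtain ⟨x, hx, hx1, hx2⟩ := hc V (closure V)ᶜ hVo isClosed_closure.isOpen_compl
      (fun x hx => by
        by_cases h1 : x ∈ closure V
        · exact Or.inl (hcl x hx h1)
        · exact Or.inr h1) ⟨z, (hVU hzV).1, hzV⟩ ⟨y, hy, fun h1 => hyV (hcl y hy h1)⟩
    exact hx2 (subset_closure hx1)
  exact absurd (hcon x₀ (hUV hx₀)) (not_le.2 h0)

/-- the lifting property of a glued tube, topological form -/
theorem glue_half {U : Set ℂ} (hU : IsOpen U) (hc : IsPreconnected U) {h : ℂ → ℝ}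
    (hh : ContinuousOn h U) {c : ℝ} (hc0 : 0 < c) {x₀ : ℂ} (hx₀ : x₀ ∈ U) (h1 : -c < h x₀)
    (h2 : h x₀ < c) (P : ℂ → R →ₐ[ℂ] ℂ)
    (H1 : ∀ V : Set ℂ, IsOpen V → IsPreconnected V → V ⊆ U → (∀ x ∈ V, -c < h x) →
      (∃ x ∈ V, h x < c) → ∃ (γ : ℂ → R →ₐ[ℂ] ℂ) (B : Set ℂ), IsCurve V γ B ∧
        ∀ x ∈ V, h x < c → x ∉ B ∧ γ x = P x)
    (H2 : ∀ V : Set ℂ, IsOpen V → IsPreconnected V → V ⊆ U → (∀ x ∈ V, h x < c) →
      (∃ x ∈ V, -c < h x) → ∃ (γ : ℂ → R →ₐ[ℂ] ℂ) (B : Set ℂ), IsCurve V γ B ∧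
        ∀ x ∈ V, -c < h x → x ∉ B ∧ γ x = P x) :
    ∃ (γ : ℂ → R →ₐ[ℂ] ℂ) (B : Set ℂ), IsCurve U γ B ∧
      ∀ x ∈ U, -c < h x → h x < c → x ∉ B ∧ γ x = P x := by
  have hO1 : IsOpen {x | x ∈ U ∧ -c < h x} := by
    have := hh.isOpen_inter_preimage hU (isOpen_Ioi (a := -c))
    exact this
  have hO2' : IsOpen {x | x ∈ U ∧ h x < c} := by
    have := hh.isOpen_inter_preimage hU (isOpen_Iio (a := c))
    exact this
  have hO2 : IsOpen {x | x ∈ U ∧ -c < -(h x)} := by
    have e : {x | x ∈ U ∧ -c < -(h x)} = {x | x ∈ U ∧ h x < c} := by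
      ext x; simp
    rw [e]; exact hO2'
  have hcc : -c < c := by linarith
  obtain ⟨γ1, B1, hγ1, hP1⟩ := glue_comp hO1 (P x₀) (fun x q => h x < c ∧ q = P x) (by
    intro z hz
    obtain ⟨x, hx, hxc⟩ := comp_point hc hh hcc hx₀ h2 hO1 hz
    have hsub : connectedComponentIn {x | x ∈ U ∧ -c < h x} z ⊆ {x | x ∈ U ∧ -c < h x} :=
      connectedComponentIn_subset _ _
    obtain ⟨γ, B, h3, h4⟩ := H1 _ hO1.connectedComponentIn isPreconnected_connectedComponentIn
      (fun y hy => (hsub hy).1) (fun y hy => (hsub hy).2) ⟨x, hx, hxc⟩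
    refine ⟨γ, B, h3, ?_⟩
    rintro y hy q ⟨hq, rfl⟩
    exact h4 y hy hq)
  obtain ⟨γ2, B2, hγ2, hP2⟩ := glue_comp hO2 (P x₀) (fun x q => -c < h x ∧ q = P x) (by
    intro z hz
    obtain ⟨x, hx, hxc⟩ := comp_point (h := fun x => -(h x)) hc hh.neg hcc hx₀ (by linarith)
      hO2 hz
    have hsub : connectedComponentIn {x | x ∈ U ∧ -c < -(h x)} z ⊆ {x | x ∈ U ∧ -c < -(h x)} :=
      connectedComponentIn_subset _ _
    obtain ⟨γ, B, h3, h4⟩ := H2 _ hO2.connectedComponentIn isPreconnected_connectedComponentIn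
      (fun y hy => (hsub hy).1) (fun y hy => neg_lt_neg_iff.1 (hsub hy).2)
      ⟨x, hx, by linarith⟩
    refine ⟨γ, B, h3, ?_⟩
    rintro y hy q ⟨hq, rfl⟩
    exact h4 y hy hq)
  let UU : Bool → Set ℂ := fun i => bif i then {x | x ∈ U ∧ -c < h x} else {x | x ∈ U ∧ -c < -(h x)}
  let GG : Bool → ℂ → R →ₐ[ℂ] ℂ := fun i => bif i then γ1 else γ2
  let BB : Bool → Set ℂ := fun i => bif i then B1 else B2
  obtain ⟨γ, B, hγ, hg⟩ := glue_family UU (by rintro (_ | _); exacts [hO2, hO1]) GG BB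
    (by rintro (_ | _); exacts [hγ2, hγ1]) (P x₀) (by
      have key : ∀ z, z ∈ {x | x ∈ U ∧ -c < h x} → z ∈ {x | x ∈ U ∧ -c < -(h x)} → γ1 z = γ2 z := by
        intro z hz1 hz2
        have e1 := (hP1 z hz1 (P z) ⟨by linarith [hz2.2], rfl⟩).2
        have e2 := (hP2 z hz2 (P z) ⟨hz1.2, rfl⟩).2
        rw [e1, e2]
      rintro (_ | _) (_ | _) z hz1 hz2 - -
      · rfl
      · exact (key z hz2 hz1).symm
      · exact key z hz1 hz2
      · rfl)
  have hUn : (⋃ i, UU i) = U := by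
    ext x
    constructor
    · intro hx
      obtain ⟨i, hi⟩ := Set.mem_iUnion.1 hx
      rcases i with _ | _
      · exact hi.1
      · exact hi.1
    · intro hx
      by_cases h3 : -c < h x
      · exact Set.mem_iUnion.2 ⟨true, hx, h3⟩
      · refine Set.mem_iUnion.2 ⟨false, hx, ?_⟩
        push Not at h3
        show -c < -(h x)
        linarith
  rw [hUn] at hγ
  refine ⟨γ, B, hγ, fun x hx h3 h4 => ?_⟩
  obtain ⟨h5, h6⟩ := hP1 x ⟨hx, h3⟩ (P x) ⟨h4, rfl⟩
  obtain ⟨h7, h8⟩ := hg true x ⟨hx, h3⟩ h5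
  exact ⟨h7, h8.trans h6⟩

end Pool.Agent.NTGlob
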