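import Pool.Agent.Lib_MP_1209e6_fl.D4

/-! MP_1209e6_ag, line N, stability (helper18): the largest `D`-stable ideal inside a prime is prime;
a prime `P` of `S` above `p` is `D`-stable as soon as there is a `D`-stable ideal `J ≤ P` with `J ∩ R ≥ P ∩ R` and
primes of `S` over `R` are incomparable. -/

set_option autoImplicit false

namespace Pool.Agent.CampanaFlow

variable {S : Type} [CommRing S] [Algebra ℂ S]

/-- the functions all of whose derivatives `D^n f` are in `P` -/
noncomputable def stabCore (D : Derivation ℂ S S) (P : Ideal S) : Ideal S :=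
  RingHom.ker (D4_T D (Ideal.Quotient.mkₐ ℂ P)).toRingHom

theorem mem_stabCore (D : Derivation ℂ S S) (P : Ideal S) (f : S) :
    f ∈ stabCore D P ↔ ∀ n, D^[n] f ∈ P := by
  unfold stabCore
  rw [RingHom.mem_ker]
  show D4_T D (Ideal.Quotient.mkₐ ℂ P) f = 0 ↔ _
  rw [D4_T_eq_zero]
  refine forall_congr' fun n => ?_
  rw [Ideal.Quotient.mkₐ_eq_mk, Ideal.Quotient.eq_zero_iff_mem]

theorem stabCore_prime (D : Derivation ℂ S S) (P : Ideal S) [P.IsPrime] : (stabCore D P).IsPrime :=
  RingHom.ker_isPrime _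

theorem stabCore_le (D : Derivation ℂ S S) (P : Ideal S) : stabCore D P ≤ P :=
  fun f hf => (mem_stabCore D P f).1 hf 0

theorem stabCore_stable (D : Derivation ℂ S S) (P : Ideal S) {f : S} (hf : f ∈ stabCore D P) :
    D f ∈ stabCore D P := by
  rw [mem_stabCore] at hf ⊢
  intro n
  have h := hf (n + 1)
  rwa [Function.iterate_succ_apply] at h

theorem le_stabCore (D : Derivation ℂ S S) {J P : Ideal S} (hJ : ∀ f ∈ J, D f ∈ J) (hJP : J ≤ P) :
    J ≤ stabCore D P := by
  intro f hf
  rw [mem_stabCore]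
  intro n
  refine hJP ?_
  induction n with
  | zero => exact hf
  | succ n ih => rw [Function.iterate_succ_apply']; exact hJ _ ih

/-- minimal primes over a `D`-stable ideal are `D`-stable -/
theorem minimalPrimes_stable (D : Derivation ℂ S S) {J P : Ideal S} (hJ : ∀ f ∈ J, D f ∈ J)
    (hP : P ∈ J.minimalPrimes) : ∀ f ∈ P, D f ∈ P := by
  haveI := hP.1.1
  have h1 : P ≤ stabCore D P :=
    hP.2 ⟨stabCore_prime D P, le_stabCore D hJ hP.1.2⟩ (stabCore_le D P)
  intro f hf
  exact stabCore_le D P (stabCore_stable D P (h1 hf))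

/-- the stability step: `J` a `D`-stable ideal below the prime `P` with the same trace on `R` -/
theorem stable_of_trace {R : Type} [CommRing R] (i : R →+* S) (D : Derivation ℂ S S)
    (hinc : ∀ Q P : Ideal S, Q.IsPrime → P.IsPrime → Q ≤ P → P.comap i ≤ Q.comap i → Q = P)
    {J P : Ideal S} (hP : P.IsPrime) (hJ : ∀ f ∈ J, D f ∈ J) (hJP : J ≤ P)
    (htr : P.comap i ≤ J.comap i) : ∀ f ∈ P, D f ∈ P := by
  have h1 : stabCore D P = P := by
    haveI := hP
    refine hinc _ _ (stabCore_prime D P) hP (stabCore_le D P) ?_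
    exact htr.trans (Ideal.comap_mono (le_stabCore D hJ hJP))
  intro f hf
  rw [← h1] at hf ⊢
  exact stabCore_stable D P hf

/-- the intersection of `D`-stable ideals is `D`-stable -/
theorem iInf_stable {ι : Sort*} (D : Derivation ℂ S S) (J : ι → Ideal S)
    (hJ : ∀ i, ∀ f ∈ J i, D f ∈ J i) : ∀ f ∈ ⨅ i, J i, D f ∈ ⨅ i, J i := by
  intro f hf
  rw [Ideal.mem_iInf] at hf ⊢
  exact fun i => hJ i f (hf i)

/-- primes over an integral extension are incomparable -/
theorem incomparable_of_integral {R : Type} [CommRing R] (i : R →+* S) (hi : i.IsIntegral)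
    (Q P : Ideal S) (hQ : Q.IsPrime) (_hP : P.IsPrime) (hQP : Q ≤ P) (htr : P.comap i ≤ Q.comap i) :
    Q = P := by
  by_contra hne
  letI := i.toAlgebra
  haveI : Algebra.IsIntegral R S := ⟨hi⟩
  haveI := hQ
  obtain ⟨x, hxP, hxQ⟩ := Set.not_subset.1 (fun h => hne (le_antisymm hQP h) : ¬ ((P : Set S) ⊆ Q))
  have h2 : Q.comap (algebraMap R S) < P.comap (algebraMap R S) :=
    Ideal.comap_lt_comap_of_integral_mem_sdiff hQP ⟨hxP, hxQ⟩ (hi x)
  exact absurd htr (not_le_of_gt h2)

end Pool.Agent.CampanaFlow
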