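import Mathlib
import Pool.Agent.Lib_MP_1858fb_w.Wiener

/-!
# Weighted l^1 algebras of Laurent series with coefficients in a commutative Banach algebra
-/

open scoped BigOperators
noncomputable section
namespace Pool.Agent.NTW

set_option linter.unusedSectionVars false

open Pool.Agent.Lib_MP_1858fb_w (Wt)

/-- The weighted l^1 space of two sided sequences with entries in `E`. The element stored at
`k` is the coefficient times the weight. -/
@[nolint unusedArguments]
def WE (E : Type*) [NormedCommRing E] (_ω : Wt) : Type _ := lp (fun _ : ℤ => E) 1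

variable {E : Type*} [NormedCommRing E] [NormedAlgebra ℂ E] {ω : Wt}

instance : NormedAddCommGroup (WE E ω) :=
  inferInstanceAs (NormedAddCommGroup (lp (fun _ : ℤ => E) 1))
instance : NormedSpace ℂ (WE E ω) :=
  inferInstanceAs (NormedSpace ℂ (lp (fun _ : ℤ => E) 1))
instance [CompleteSpace E] : CompleteSpace (WE E ω) :=
  inferInstanceAs (CompleteSpace (lp (fun _ : ℤ => E) 1))

namespace WE

/-- the coefficient at `k`. -/
def co (f : WE E ω) (k : ℤ) : E := ((ω.w k : ℂ))⁻¹ • (f : lp (fun _ : ℤ => E) 1).1 k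

theorem w_ne (ω : Wt) (k : ℤ) : (ω.w k : ℂ) ≠ 0 := by
  exact_mod_cast (ω.pos k).ne'

theorem norm_w (ω : Wt) (k : ℤ) : ‖(ω.w k : ℂ)‖ = ω.w k := by
  rw [Complex.norm_real, Real.norm_of_nonneg (ω.pos k).le]

theorem co_norm (f : WE E ω) (k : ℤ) :
    ‖f.co k‖ * ω.w k = ‖(f : lp (fun _ : ℤ => E) 1).1 k‖ := by
  unfold co
  rw [norm_smul, norm_inv, norm_w, mul_comm, ← mul_assoc, mul_inv_cancel₀ (ω.pos k).ne', one_mul]

theorem summ (f : WE E ω) : Summable fun k => ‖f.co k‖ * ω.w k := by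
  have h := (lp.memℓp (f : lp (fun _ : ℤ => E) 1)).summable (by norm_num)
  refine h.congr fun k => ?_
  rw [co_norm]
  simp

theorem norm_eq (f : WE E ω) : ‖f‖ = ∑' k, ‖f.co k‖ * ω.w k := by
  have h := lp.norm_eq_tsum_rpow (p := 1) (by norm_num) (f : lp (fun _ : ℤ => E) 1)
  simp only [ENNReal.toReal_one, Real.rpow_one, div_one] at h
  refine Eq.trans h ?_
  refine tsum_congr fun k => ?_
  rw [co_norm]

theorem ext {f g : WE E ω} (h : ∀ k, f.co k = g.co k) : f = g := by
  apply lp.ext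
  funext k
  have := h k
  unfold co at this
  exact smul_right_injective E (inv_ne_zero (w_ne ω k)) this

/-- The element with given coefficients. -/
def ofSeq (a : ℤ → E) (h : Summable fun k => ‖a k‖ * ω.w k) : WE E ω :=
  (⟨fun k => (ω.w k : ℂ) • a k, by
    apply memℓp_gen
    refine h.congr fun k => ?_
    rw [norm_smul, norm_w]
    simp [mul_comm]⟩ : lp (fun _ : ℤ => E) 1)

@[simp] theorem co_ofSeq (a : ℤ → E) (h : Summable fun k => ‖a k‖ * ω.w k) (k : ℤ) :
    (ofSeq a h).co k = a k := by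
  show ((ω.w k : ℂ))⁻¹ • ((ω.w k : ℂ) • a k) = a k
  rw [smul_smul, inv_mul_cancel₀ (w_ne ω k), one_smul]

@[simp] theorem co_add (f g : WE E ω) (k : ℤ) : (f + g).co k = f.co k + g.co k := by
  show _ • ((f : lp (fun _ : ℤ => E) 1) + (g : lp (fun _ : ℤ => E) 1)).1 k = _
  unfold co
  rw [← smul_add]
  rfl

@[simp] theorem co_sub (f g : WE E ω) (k : ℤ) : (f - g).co k = f.co k - g.co k := by
  show _ • ((f : lp (fun _ : ℤ => E) 1) - (g : lp (fun _ : ℤ => E) 1)).1 k = _
  unfold co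
  rw [← smul_sub]
  rfl

@[simp] theorem co_neg (f : WE E ω) (k : ℤ) : (-f).co k = - f.co k := by
  show _ • (-(f : lp (fun _ : ℤ => E) 1)).1 k = _
  unfold co
  rw [← smul_neg]
  rfl

@[simp] theorem co_zero (k : ℤ) : (0 : WE E ω).co k = 0 := by
  show _ • (0 : lp (fun _ : ℤ => E) 1).1 k = _
  exact smul_zero _

@[simp] theorem co_smul (c : ℂ) (f : WE E ω) (k : ℤ) : (c • f).co k = c • f.co k := by
  show _ • (c • (f : lp (fun _ : ℤ => E) 1)).1 k = _
  unfold co
  rw [smul_comm c]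
  rfl

theorem norm_co_le (f : WE E ω) (k : ℤ) : ‖f.co k‖ * ω.w k ≤ ‖f‖ := by
  rw [norm_eq]
  exact f.summ.le_tsum k (fun j _ => mul_nonneg (norm_nonneg _) (ω.pos j).le)

theorem norm_le_of {f : WE E ω} {C : ℝ} (h : ∑' k, ‖f.co k‖ * ω.w k ≤ C) : ‖f‖ ≤ C := by
  rw [norm_eq]; exact h

/-! ### Multiplication -/

theorem summ_prod (f g : WE E ω) :
    Summable fun p : ℤ × ℤ => (‖f.co p.1‖ * ω.w p.1) * (‖g.co p.2‖ * ω.w p.2) :=
  f.summ.mul_of_nonneg g.summ (fun j => mul_nonneg (norm_nonneg _) (ω.pos j).le)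
    (fun j => mul_nonneg (norm_nonneg _) (ω.pos j).le)

/-- shear of the plane. -/
def shear : ℤ × ℤ ≃ ℤ × ℤ where
  toFun p := (p.2, p.1 - p.2)
  invFun p := (p.1 + p.2, p.1)
  left_inv p := by ext <;> simp
  right_inv p := by ext <;> simp

theorem conv_bound (f g : WE E ω) (n i : ℤ) : ‖f.co i * g.co (n - i)‖ * ω.w n ≤
    (‖f.co i‖ * ω.w i) * (‖g.co (n - i)‖ * ω.w (n - i)) := by
  have h3 : ω.w n ≤ ω.w i * ω.w (n - i) := by
    have := ω.sub i (n - i)
    rwa [add_sub_cancel] at this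
  calc ‖f.co i * g.co (n - i)‖ * ω.w n
      ≤ (‖f.co i‖ * ‖g.co (n - i)‖) * (ω.w i * ω.w (n - i)) :=
        mul_le_mul (norm_mul_le _ _) h3 (ω.pos _).le (by positivity)
    _ = _ := by ring

theorem summ_conv (f g : WE E ω) :
    Summable fun p : ℤ × ℤ => ‖f.co p.2 * g.co (p.1 - p.2)‖ * ω.w p.1 := by
  have h := (Equiv.summable_iff shear).2 (summ_prod f g)
  exact Summable.of_nonneg_of_le (fun p => mul_nonneg (norm_nonneg _) (ω.pos _).le)
    (fun p => conv_bound f g p.1 p.2) h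

theorem summ_conv' (f g : WE E ω) (n : ℤ) :
    Summable fun i => ‖f.co i * g.co (n - i)‖ := by
  have h := (summ_conv f g).prod_factor n
  have h2 := h.mul_right (ω.w n)⁻¹
  refine h2.congr fun i => ?_
  rw [mul_assoc, mul_inv_cancel₀ (ω.pos n).ne', mul_one]

variable [CompleteSpace E]

/-- coefficients of the product. -/
def conv (f g : WE E ω) (n : ℤ) : E := ∑' i, f.co i * g.co (n - i)

theorem norm_conv_le (f g : WE E ω) (n : ℤ) :
    ‖conv f g n‖ * ω.w n ≤ ∑' i, ‖f.co i * g.co (n - i)‖ * ω.w n := by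
  rw [tsum_mul_right]
  exact mul_le_mul_of_nonneg_right (norm_tsum_le_tsum_norm (summ_conv' f g n)) (ω.pos n).le

theorem summ_mul (f g : WE E ω) : Summable fun n => ‖conv f g n‖ * ω.w n :=
  Summable.of_nonneg_of_le (fun n => mul_nonneg (norm_nonneg _) (ω.pos _).le)
    (norm_conv_le f g) (summ_conv f g).prod

instance : Mul (WE E ω) := ⟨fun f g => ofSeq (conv f g) (summ_mul f g)⟩

theorem co_mul (f g : WE E ω) (n : ℤ) : (f * g).co n = ∑' i, f.co i * g.co (n - i) :=
  co_ofSeq _ _ _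

theorem norm_mul_le' (f g : WE E ω) : ‖f * g‖ ≤ ‖f‖ * ‖g‖ := by
  have h1 : ‖f * g‖ ≤ ∑' n, ∑' i, ‖f.co i * g.co (n - i)‖ * ω.w n := by
    rw [norm_eq]
    refine (f * g).summ.tsum_le_tsum (fun n => ?_) (summ_conv f g).prod
    rw [co_mul]
    exact norm_conv_le f g n
  refine h1.trans ?_
  have h4 := Equiv.tsum_eq shear
    (fun p : ℤ × ℤ => (‖f.co p.1‖ * ω.w p.1) * (‖g.co p.2‖ * ω.w p.2))
  rw [← Summable.tsum_prod (summ_conv f g), norm_eq f, norm_eq g,
    f.summ.tsum_mul_tsum g.summ (summ_prod f g), ← h4]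
  exact (summ_conv f g).tsum_le_tsum (fun p => conv_bound f g p.1 p.2)
    ((Equiv.summable_iff shear).2 (summ_prod f g))

theorem summ_conv1 (f g : WE E ω) (n : ℤ) : Summable fun i => f.co i * g.co (n - i) :=
  (summ_conv' f g n).of_norm

theorem mul_comm' (f g : WE E ω) : f * g = g * f := by
  apply ext
  intro n
  rw [co_mul, co_mul, ← Equiv.tsum_eq (Equiv.subLeft n)]
  refine tsum_congr fun i => ?_
  simp only [Equiv.subLeft_apply, sub_sub_cancel]
  ring

theorem add_mul' (f g h : WE E ω) : (f + g) * h = f * h + g * h := by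
  apply ext
  intro n
  rw [co_add, co_mul, co_mul, co_mul, ← (summ_conv1 f h n).tsum_add (summ_conv1 g h n)]
  refine tsum_congr fun i => ?_
  rw [co_add]; ring

theorem smul_mul' (c : ℂ) (f h : WE E ω) : (c • f) * h = c • (f * h) := by
  apply ext
  intro n
  rw [co_smul, co_mul, co_mul, ← (summ_conv1 f h n).tsum_const_smul c]
  refine tsum_congr fun i => ?_
  rw [co_smul, smul_mul_assoc]

/-- a monomial. -/
def mono (ω : Wt) (k : ℤ) (c : E) : WE E ω :=
  ofSeq (Pi.single k c) (by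
    refine summable_of_ne_finset_zero (s := {k}) fun j hj => ?_
    rw [Finset.mem_singleton] at hj
    rw [Pi.single_eq_of_ne hj, norm_zero, zero_mul])

omit [CompleteSpace E] in
theorem co_mono (k : ℤ) (c : E) (j : ℤ) : (mono ω k c).co j = if j = k then c else 0 := by
  unfold mono
  rw [co_ofSeq, Pi.single_apply]

omit [CompleteSpace E] in
theorem norm_mono (k : ℤ) (c : E) : ‖mono ω k c‖ = ‖c‖ * ω.w k := by
  rw [norm_eq, tsum_eq_single k]
  · rw [co_mono, if_pos rfl]
  · intro j hj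
    rw [co_mono, if_neg hj, norm_zero, zero_mul]

instance : One (WE E ω) := ⟨mono ω 0 1⟩

theorem one_def : (1 : WE E ω) = mono ω 0 1 := rfl

theorem co_one (k : ℤ) : (1 : WE E ω).co k = if k = 0 then 1 else 0 := co_mono 0 1 k

theorem co_mono_mul (k : ℤ) (c : E) (f : WE E ω) (n : ℤ) :
    (mono ω k c * f).co n = c * f.co (n - k) := by
  rw [co_mul, tsum_eq_single k]
  · rw [co_mono, if_pos rfl]
  · intro j hj
    rw [co_mono, if_neg hj, zero_mul]

theorem one_mul' (f : WE E ω) : 1 * f = f := by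
  apply ext
  intro n
  rw [one_def, co_mono_mul, one_mul, sub_zero]

theorem mul_assoc' (f g h : WE E ω) : f * g * h = f * (g * h) := by
  apply ext
  intro n
  have hs : Summable fun p : ℤ × ℤ => f.co p.1 * g.co p.2 * h.co (n - p.1 - p.2) := by
    apply Summable.of_norm
    refine Summable.of_nonneg_of_le (fun p => norm_nonneg _) (fun p => ?_)
      ((summ_prod f g).mul_left (‖h‖ / ω.w n))
    have h1 := norm_co_le h (n - p.1 - p.2)
    have h2 : ω.w n ≤ ω.w p.1 * ω.w p.2 * ω.w (n - p.1 - p.2) := by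
      have e1 := ω.sub (p.1 + p.2) (n - p.1 - p.2)
      have e2 : p.1 + p.2 + (n - p.1 - p.2) = n := by ring
      rw [e2] at e1
      exact e1.trans (mul_le_mul_of_nonneg_right (ω.sub _ _) (ω.pos _).le)
    have h0 : ‖f.co p.1 * g.co p.2 * h.co (n - p.1 - p.2)‖ ≤
        ‖f.co p.1‖ * ‖g.co p.2‖ * ‖h.co (n - p.1 - p.2)‖ :=
      (norm_mul_le _ _).trans (mul_le_mul_of_nonneg_right (norm_mul_le _ _) (norm_nonneg _))
    refine h0.trans ?_
    rw [div_mul_eq_mul_div, le_div_iff₀ (ω.pos n)]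
    calc ‖f.co p.1‖ * ‖g.co p.2‖ * ‖h.co (n - p.1 - p.2)‖ * ω.w n
        ≤ ‖f.co p.1‖ * ‖g.co p.2‖ * ‖h.co (n - p.1 - p.2)‖ *
          (ω.w p.1 * ω.w p.2 * ω.w (n - p.1 - p.2)) :=
          mul_le_mul_of_nonneg_left h2 (by positivity)
      _ = (‖h.co (n - p.1 - p.2)‖ * ω.w (n - p.1 - p.2)) *
          ((‖f.co p.1‖ * ω.w p.1) * (‖g.co p.2‖ * ω.w p.2)) := by ring
      _ ≤ ‖h‖ * ((‖f.co p.1‖ * ω.w p.1) * (‖g.co p.2‖ * ω.w p.2)) :=
          mul_le_mul_of_nonneg_right h1
            (mul_nonneg (mul_nonneg (norm_nonneg _) (ω.pos _).le)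
              (mul_nonneg (norm_nonneg _) (ω.pos _).le))
  have hs2 := (Equiv.summable_iff shear).2 hs
  have e1 : (f * g * h).co n =
      ∑' p : ℤ × ℤ, f.co p.1 * g.co p.2 * h.co (n - p.1 - p.2) := by
    rw [← Equiv.tsum_eq shear]
    refine Eq.trans ?_ (Summable.tsum_prod hs2).symm
    rw [co_mul]
    refine tsum_congr fun i => ?_
    rw [co_mul, ← (summ_conv1 f g i).tsum_mul_right]
    refine tsum_congr fun j => ?_
    show f.co j * g.co (i - j) * h.co (n - i) = f.co j * g.co (i - j) * h.co (n - j - (i - j))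
    congr 2
    ring
  have e2 : (f * (g * h)).co n =
      ∑' p : ℤ × ℤ, f.co p.1 * g.co p.2 * h.co (n - p.1 - p.2) := by
    rw [Summable.tsum_prod hs, co_mul]
    refine tsum_congr fun i => ?_
    rw [co_mul, ← (summ_conv1 g h (n - i)).tsum_mul_left]
    refine tsum_congr fun j => ?_
    ring
  rw [e1, e2]

instance : CommRing (WE E ω) :=
  { (inferInstance : AddCommGroup (WE E ω)) with
    mul := (· * ·)
    one := 1
    mul_assoc := mul_assoc'
    one_mul := one_mul'
    mul_one := fun f => by rw [mul_comm', one_mul']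
    left_distrib := fun f g h => by rw [mul_comm' f, add_mul', mul_comm' g, mul_comm' h]
    right_distrib := add_mul'
    mul_comm := mul_comm'
    zero_mul := fun f => by
      apply ext; intro n; rw [co_mul]; simp
    mul_zero := fun f => by
      apply ext; intro n; rw [co_mul]; simp }

instance : NormedCommRing (WE E ω) :=
  { (inferInstance : NormedAddCommGroup (WE E ω)), (inferInstance : CommRing (WE E ω)) with
    norm_mul_le := norm_mul_le' }

instance : Algebra ℂ (WE E ω) :=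
  Algebra.ofModule smul_mul' (fun c f g => by
    rw [mul_comm' f, smul_mul', mul_comm' g])

instance : NormedAlgebra ℂ (WE E ω) :=
  { (inferInstance : Algebra ℂ (WE E ω)) with
    norm_smul_le := fun c f => norm_smul_le c f }

instance [NormOneClass E] : NormOneClass (WE E ω) := ⟨by
  rw [one_def, norm_mono, norm_one, ω.zero, one_mul]⟩

/-! ### Supports and projections -/

theorem continuous_co (k : ℤ) : Continuous fun f : WE E ω => f.co k := by
  have h : LipschitzWith (Real.toNNReal (ω.w k)⁻¹) fun f : WE E ω => f.co k := by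
    refine LipschitzWith.of_dist_le_mul fun f g => ?_
    rw [dist_eq_norm, dist_eq_norm, Real.coe_toNNReal _ (inv_nonneg.2 (ω.pos k).le),
      inv_mul_eq_div, le_div_iff₀ (ω.pos k), ← co_sub]
    exact norm_co_le _ _
  exact h.continuous

theorem summ_ind (S : Set ℤ) (f : WE E ω) :
    Summable fun k => ‖S.indicator f.co k‖ * ω.w k := by
  refine Summable.of_nonneg_of_le (fun k => mul_nonneg (norm_nonneg _) (ω.pos k).le)
    (fun k => ?_) f.summ
  by_cases hk : k ∈ S
  · rw [Set.indicator_of_mem hk]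
  · rw [Set.indicator_of_notMem hk, norm_zero, zero_mul]
    exact mul_nonneg (norm_nonneg _) (ω.pos k).le

/-- The part of `f` with exponents in `S`. -/
def proj (S : Set ℤ) : WE E ω →L[ℂ] WE E ω :=
  LinearMap.mkContinuous
    { toFun := fun f => ofSeq (S.indicator f.co) (summ_ind S f)
      map_add' := fun f g => by
        apply ext; intro k
        rw [co_ofSeq, co_add, co_ofSeq, co_ofSeq]
        by_cases hk : k ∈ S
        · simp [Set.indicator_of_mem hk]
        · simp [Set.indicator_of_notMem hk]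
      map_smul' := fun c f => by
        apply ext; intro k
        rw [co_ofSeq, RingHom.id_apply, co_smul, co_ofSeq]
        by_cases hk : k ∈ S
        · simp [Set.indicator_of_mem hk]
        · simp [Set.indicator_of_notMem hk] } 1 (fun f => by
    rw [one_mul, norm_eq, norm_eq]
    refine Summable.tsum_le_tsum (fun k => ?_) (WE.summ _) f.summ
    show ‖(ofSeq (S.indicator f.co) (summ_ind S f)).co k‖ * _ ≤ _
    rw [co_ofSeq]
    by_cases hk : k ∈ S
    · rw [Set.indicator_of_mem hk]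
    · rw [Set.indicator_of_notMem hk, norm_zero, zero_mul]
      exact mul_nonneg (norm_nonneg _) (ω.pos k).le)

theorem co_proj (S : Set ℤ) (f : WE E ω) (k : ℤ) : (proj S f).co k = S.indicator f.co k :=
  co_ofSeq _ (summ_ind S f) _

theorem co_proj_mem {S : Set ℤ} (f : WE E ω) {k : ℤ} (hk : k ∈ S) :
    (proj S f).co k = f.co k := by rw [co_proj, Set.indicator_of_mem hk]

theorem co_proj_notMem {S : Set ℤ} (f : WE E ω) {k : ℤ} (hk : k ∉ S) :
    (proj S f).co k = 0 := by rw [co_proj, Set.indicator_of_notMem hk]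

theorem norm_proj_le (S : Set ℤ) (f : WE E ω) : ‖proj S f‖ ≤ ‖f‖ := by
  have h2 := (proj (E := E) (ω := ω) S).le_of_opNorm_le
    (LinearMap.mkContinuous_norm_le _ zero_le_one _) f
  rwa [one_mul] at h2

theorem proj_add_compl (S : Set ℤ) (f : WE E ω) : proj S f + proj Sᶜ f = f := by
  apply ext
  intro k
  rw [co_add, co_proj, co_proj]
  by_cases hk : k ∈ S
  · rw [Set.indicator_of_mem hk, Set.indicator_of_notMem (fun h : k ∈ Sᶜ => h hk), add_zero]
  · rw [Set.indicator_of_notMem hk, Set.indicator_of_mem (by exact hk), zero_add]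

/-- all exponents of `f` lie in `S`. -/
def Supp (S : Set ℤ) (f : WE E ω) : Prop := ∀ k, k ∉ S → f.co k = 0

theorem supp_univ (f : WE E ω) : Supp Set.univ f := fun k hk => absurd (Set.mem_univ k) hk

theorem Supp.add {S : Set ℤ} {f g : WE E ω} (hf : Supp S f) (hg : Supp S g) :
    Supp S (f + g) :=
  fun k hk => by rw [co_add, hf k hk, hg k hk, add_zero]

theorem Supp.sub {S : Set ℤ} {f g : WE E ω} (hf : Supp S f) (hg : Supp S g) :
    Supp S (f - g) :=
  fun k hk => by rw [co_sub, hf k hk, hg k hk, sub_zero]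

theorem supp_proj (S : Set ℤ) (f : WE E ω) : Supp S (proj S f) := fun _ hk =>
  co_proj_notMem f hk

theorem supp_mono {S : Set ℤ} {k : ℤ} (hk : k ∈ S) (c : E) : Supp S (mono ω k c) := by
  intro j hj
  rw [co_mono, if_neg]
  rintro rfl
  exact hj hk

theorem Supp.mul {S T U : Set ℤ} (h : ∀ i ∈ S, ∀ j ∈ T, i + j ∈ U) {f g : WE E ω}
    (hf : Supp S f) (hg : Supp T g) : Supp U (f * g) := by
  intro n hn
  rw [co_mul]
  have : ∀ i, f.co i * g.co (n - i) = 0 := by
    intro i
    by_cases hi : i ∈ S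
    · by_cases hj : n - i ∈ T
      · exact absurd (by simpa using h i hi (n - i) hj) hn
      · rw [hg _ hj, mul_zero]
    · rw [hf _ hi, zero_mul]
  simp only [this, tsum_zero]

/-! ### Evaluation at a unit -/

theorem summ_val {S : Set ℤ} {t : Eˣ} (hb : ∀ i ∈ S, ‖((t ^ i : Eˣ) : E)‖ ≤ ω.w i)
    {f : WE E ω} (hf : Supp S f) : Summable fun k => ‖f.co k * ((t ^ k : Eˣ) : E)‖ := by
  refine Summable.of_nonneg_of_le (fun k => norm_nonneg _) (fun k => ?_) f.summ
  by_cases hk : k ∈ S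
  · exact (norm_mul_le _ _).trans (mul_le_mul_of_nonneg_left (hb k hk) (norm_nonneg _))
  · rw [hf k hk, zero_mul, norm_zero, zero_mul]

/-- The value at the unit `t`. -/
def val (t : Eˣ) (f : WE E ω) : E := ∑' k, f.co k * ((t ^ k : Eˣ) : E)

theorem norm_val_le {S : Set ℤ} {t : Eˣ} (hb : ∀ i ∈ S, ‖((t ^ i : Eˣ) : E)‖ ≤ ω.w i)
    {f : WE E ω} (hf : Supp S f) : ‖val t f‖ ≤ ‖f‖ := by
  refine (norm_tsum_le_tsum_norm (summ_val hb hf)).trans ?_
  rw [norm_eq]
  refine (summ_val hb hf).tsum_le_tsum (fun k => ?_) f.summ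
  by_cases hk : k ∈ S
  · exact (norm_mul_le _ _).trans (mul_le_mul_of_nonneg_left (hb k hk) (norm_nonneg _))
  · rw [hf k hk, zero_mul, norm_zero, zero_mul]

theorem val_add {S : Set ℤ} {t : Eˣ} (hb : ∀ i ∈ S, ‖((t ^ i : Eˣ) : E)‖ ≤ ω.w i)
    {f g : WE E ω} (hf : Supp S f) (hg : Supp S g) : val t (f + g) = val t f + val t g := by
  unfold val
  rw [← (summ_val hb hf).of_norm.tsum_add (summ_val hb hg).of_norm]
  refine tsum_congr fun k => ?_
  rw [co_add]; ring

theorem val_sub {S : Set ℤ} {t : Eˣ} (hb : ∀ i ∈ S, ‖((t ^ i : Eˣ) : E)‖ ≤ ω.w i)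
    {f g : WE E ω} (hf : Supp S f) (hg : Supp S g) : val t (f - g) = val t f - val t g := by
  unfold val
  rw [← (summ_val hb hf).of_norm.tsum_sub (summ_val hb hg).of_norm]
  refine tsum_congr fun k => ?_
  rw [co_sub]; ring

theorem val_mono (t : Eˣ) (k : ℤ) (c : E) :
    val t (mono ω k c) = c * ((t ^ k : Eˣ) : E) := by
  unfold val
  rw [tsum_eq_single k]
  · rw [co_mono, if_pos rfl]
  · intro j hj
    rw [co_mono, if_neg hj, zero_mul]

theorem val_one (t : Eˣ) : val t (1 : WE E ω) = 1 := by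
  rw [one_def, val_mono]; simp

theorem val_mul {S : Set ℤ} {t : Eˣ} (hb : ∀ i ∈ S, ‖((t ^ i : Eˣ) : E)‖ ≤ ω.w i)
    {f g : WE E ω} (hf : Supp S f) (hg : Supp S g) : val t (f * g) = val t f * val t g := by
  have h1 := tsum_mul_tsum_of_summable_norm (f := fun k : ℤ => f.co k * ((t ^ k : Eˣ) : E))
    (g := fun k : ℤ => g.co k * ((t ^ k : Eˣ) : E)) (summ_val hb hf) (summ_val hb hg)
  have h2 : Summable fun p : ℤ × ℤ =>
      (f.co p.1 * ((t ^ p.1 : Eˣ) : E)) * (g.co p.2 * ((t ^ p.2 : Eˣ) : E)) :=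
    summable_mul_of_summable_norm (f := fun k : ℤ => f.co k * ((t ^ k : Eˣ) : E))
      (g := fun k : ℤ => g.co k * ((t ^ k : Eˣ) : E)) (summ_val hb hf) (summ_val hb hg)
  have h3 := (Equiv.summable_iff shear).2 h2
  unfold val
  have h4 := Equiv.tsum_eq shear
    (fun p : ℤ × ℤ => (f.co p.1 * ((t ^ p.1 : Eˣ) : E)) * (g.co p.2 * ((t ^ p.2 : Eˣ) : E)))
  rw [h1, ← h4]
  refine Eq.trans ?_ (Summable.tsum_prod h3).symm
  refine tsum_congr fun n => ?_
  rw [co_mul, ← (summ_conv1 f g n).tsum_mul_right]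
  refine tsum_congr fun i => ?_
  show f.co i * g.co (n - i) * ((t ^ n : Eˣ) : E) =
    f.co i * ((t ^ i : Eˣ) : E) * (g.co (n - i) * ((t ^ (n - i) : Eˣ) : E))
  have : t ^ n = t ^ i * t ^ (n - i) := by rw [← zpow_add, add_sub_cancel]
  rw [this, Units.val_mul]
  ring

/-- Evaluation at a unit as an algebra homomorphism. -/
def ev (t : Eˣ) (ht : ∀ k : ℤ, ‖((t ^ k : Eˣ) : E)‖ ≤ ω.w k) : WE E ω →ₐ[ℂ] E :=
  AlgHom.ofLinearMap
    { toFun := val t
      map_add' := fun f g => val_add (S := Set.univ) (fun i _ => ht i) (supp_univ f) (supp_univ g)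
      map_smul' := fun c f => by
        show val t (c • f) = c • val t f
        unfold val
        rw [← (summ_val (S := Set.univ) (fun i _ => ht i) (supp_univ f)).of_norm.tsum_const_smul c]
        refine tsum_congr fun k => ?_
        rw [co_smul, smul_mul_assoc] }
    (val_one t)
    (fun f g => val_mul (S := Set.univ) (fun i _ => ht i) (supp_univ f) (supp_univ g))

theorem ev_apply (t : Eˣ) (ht : ∀ k : ℤ, ‖((t ^ k : Eˣ) : E)‖ ≤ ω.w k) (f : WE E ω) :
    ev t ht f = val t f := rfl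

theorem norm_ev_le (t : Eˣ) (ht : ∀ k : ℤ, ‖((t ^ k : Eˣ) : E)‖ ≤ ω.w k) (f : WE E ω) :
    ‖ev t ht f‖ ≤ ‖f‖ := norm_val_le (S := Set.univ) (fun i _ => ht i) (supp_univ f)

end WE

end Pool.Agent.NTW
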