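import Mathlib
import Pool.Agent.Lib_MP_1209e6_nt.WE

/-!
# Laurent series with coefficients in a Banach algebra: constants, functoriality
-/

open scoped BigOperators
noncomputable section
namespace Pool.Agent.NTW

set_option linter.unusedSectionVars false

open Pool.Agent.Lib_MP_1858fb_w (Wt)

variable {E : Type*} [NormedCommRing E] [NormedAlgebra ℂ E] [CompleteSpace E] {ω : Wt}
variable {E' : Type*} [NormedCommRing E'] [NormedAlgebra ℂ E'] [CompleteSpace E']

namespace WE

theorem mono_add (k : ℤ) (c d : E) : mono ω k (c + d) = mono ω k c + mono ω k d := by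
  apply ext; intro j
  rw [co_add, co_mono, co_mono, co_mono]
  split_ifs <;> simp

theorem mono_smul (k : ℤ) (r : ℂ) (c : E) : mono ω k (r • c) = r • mono ω k c := by
  apply ext; intro j
  rw [co_smul, co_mono, co_mono]
  split_ifs <;> simp

theorem mono_mul (k l : ℤ) (c d : E) : mono ω k c * mono ω l d = mono ω (k + l) (c * d) := by
  apply ext; intro j
  rw [co_mono_mul, co_mono, co_mono]
  by_cases h : j = k + l
  · rw [if_pos h, if_pos (by omega)]
  · rw [if_neg h, if_neg (by omega), mul_zero]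

/-- constants. -/
def cst (ω : Wt) : E →ₐ[ℂ] WE E ω :=
  AlgHom.ofLinearMap
    { toFun := fun c => mono ω 0 c
      map_add' := mono_add 0
      map_smul' := fun r c => mono_smul 0 r c }
    rfl
    (fun c d => by
      show mono ω 0 (c * d) = mono ω 0 c * mono ω 0 d
      rw [mono_mul, add_zero])

theorem cst_apply (c : E) : cst ω c = mono ω 0 c := rfl

theorem norm_cst (c : E) : ‖cst ω c‖ = ‖c‖ := by
  rw [cst_apply, norm_mono, ω.zero, mul_one]

theorem co_cst (c : E) (k : ℤ) : (cst ω c).co k = if k = 0 then c else 0 := co_mono 0 c k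

theorem co_cst_mul (c : E) (f : WE E ω) (k : ℤ) : (cst ω c * f).co k = c * f.co k := by
  rw [cst_apply, co_mono_mul, sub_zero]

theorem val_cst (t : Eˣ) (c : E) : val t (cst ω c) = c := by
  rw [cst_apply, val_mono]; simp

/-- the variable and its powers, as units. -/
def zt (E : Type*) [NormedCommRing E] [NormedAlgebra ℂ E] [CompleteSpace E] (ω : Wt) :
    (WE E ω)ˣ where
  val := mono ω 1 1
  inv := mono ω (-1) 1
  val_inv := by rw [mono_mul]; simp [one_def]
  inv_val := by rw [mono_mul]; simp [one_def]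

theorem zt_zpow (k : ℤ) : ((zt E ω ^ k : (WE E ω)ˣ) : WE E ω) = mono ω k 1 := by
  have hn : ∀ n : ℕ, ((zt E ω ^ n : (WE E ω)ˣ) : WE E ω) = mono ω n 1 := by
    intro n
    induction n with
    | zero => simp [one_def]
    | succ n ih =>
      rw [pow_succ, Units.val_mul, ih]
      show mono ω n 1 * mono ω 1 1 = _
      rw [mono_mul]; simp
  rcases Int.eq_nat_or_neg k with ⟨n, rfl | rfl⟩
  · rw [zpow_natCast, hn]
  · rw [zpow_neg, zpow_natCast]
    apply (Units.mul_right_inj (zt E ω ^ n)).1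
    rw [Units.mul_inv, hn, mono_mul]
    simp [one_def]

/-! ### Functoriality -/

/-- a bounded homomorphism of coefficients -/
structure Ctr (φ : E →ₐ[ℂ] E') : Prop where
  le : ∀ x, ‖φ x‖ ≤ ‖x‖

theorem Ctr.cont {φ : E →ₐ[ℂ] E'} (h : Ctr φ) : Continuous φ := by
  have : LipschitzWith 1 φ := by
    refine LipschitzWith.of_dist_le_mul fun x y => ?_
    rw [dist_eq_norm, dist_eq_norm, NNReal.coe_one, one_mul, ← map_sub]
    exact h.le _
  exact this.continuous

theorem summ_map {φ : E →ₐ[ℂ] E'} (h : Ctr φ) (f : WE E ω) :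
    Summable fun k => ‖φ (f.co k)‖ * ω.w k :=
  Summable.of_nonneg_of_le (fun k => mul_nonneg (norm_nonneg _) (ω.pos k).le)
    (fun k => mul_le_mul_of_nonneg_right (h.le _) (ω.pos k).le) f.summ

/-- the map induced by a homomorphism of the coefficients. -/
def map {φ : E →ₐ[ℂ] E'} (h : Ctr φ) : WE E ω →ₐ[ℂ] WE E' ω :=
  AlgHom.ofLinearMap
    { toFun := fun f => ofSeq (fun k => φ (f.co k)) (summ_map h f)
      map_add' := fun f g => by
        apply ext; intro k
        rw [co_ofSeq, co_add, co_add, co_ofSeq, co_ofSeq, map_add]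
      map_smul' := fun c f => by
        apply ext; intro k
        rw [co_ofSeq, RingHom.id_apply, co_smul, co_smul, co_ofSeq, map_smul] }
    (by
      apply ext; intro k
      show (ofSeq (fun k => φ ((1 : WE E ω).co k)) (summ_map h 1)).co k = _
      rw [co_ofSeq, co_one, co_one]
      split_ifs <;> simp)
    (fun f g => by
      apply ext; intro k
      show (ofSeq (fun k => φ ((f * g).co k)) (summ_map h (f * g))).co k =
        (ofSeq (fun k => φ (f.co k)) (summ_map h f) *
          ofSeq (fun k => φ (g.co k)) (summ_map h g)).co k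
      rw [co_ofSeq, co_mul, co_mul]
      have h1 := (summ_conv1 f g k).hasSum.map φ h.cont
      rw [← h1.tsum_eq]
      refine tsum_congr fun i => ?_
      rw [co_ofSeq, co_ofSeq, Function.comp_apply, map_mul])

theorem co_map {φ : E →ₐ[ℂ] E'} (h : Ctr φ) (f : WE E ω) (k : ℤ) :
    (map h f).co k = φ (f.co k) := co_ofSeq _ (summ_map h f) k

theorem norm_map_le {φ : E →ₐ[ℂ] E'} (h : Ctr φ) (f : WE E ω) : ‖map h f‖ ≤ ‖f‖ := by
  rw [norm_eq, norm_eq]
  refine (WE.summ _).tsum_le_tsum (fun k => ?_) f.summ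
  rw [co_map]
  exact mul_le_mul_of_nonneg_right (h.le _) (ω.pos k).le

theorem ctr_map {φ : E →ₐ[ℂ] E'} (h : Ctr φ) : Ctr (map (ω := ω) h) := ⟨norm_map_le h⟩

theorem ctr_cst : Ctr (cst (E := E) ω) := ⟨fun x => (norm_cst x).le⟩

theorem ctr_ev (t : Eˣ) (ht : ∀ k : ℤ, ‖((t ^ k : Eˣ) : E)‖ ≤ ω.w k) :
    Ctr (ev (ω := ω) t ht) := ⟨norm_ev_le t ht⟩

theorem map_mono {φ : E →ₐ[ℂ] E'} (h : Ctr φ) (k : ℤ) (c : E) :
    map h (mono ω k c) = mono ω k (φ c) := by
  apply ext; intro j
  rw [co_map, co_mono, co_mono]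
  split_ifs <;> simp

theorem map_cst {φ : E →ₐ[ℂ] E'} (h : Ctr φ) (c : E) :
    map h (cst ω c) = cst ω (φ c) := map_mono h 0 c

theorem map_proj {φ : E →ₐ[ℂ] E'} (h : Ctr φ) (S : Set ℤ) (f : WE E ω) :
    map h (proj S f) = proj S (map h f) := by
  apply ext; intro j
  rw [co_map]
  by_cases hj : j ∈ S
  · rw [co_proj_mem _ hj, co_proj_mem _ hj, co_map]
  · rw [co_proj_notMem _ hj, co_proj_notMem _ hj, map_zero]

theorem supp_map {φ : E →ₐ[ℂ] E'} (h : Ctr φ) {S : Set ℤ} {f : WE E ω} (hf : Supp S f) :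
    Supp S (map h f) := fun k hk => by rw [co_map, hf k hk, map_zero]

/-- evaluation is natural. -/
theorem val_map {φ : E →ₐ[ℂ] E'} (h : Ctr φ) {S : Set ℤ} {t : Eˣ}
    (hb : ∀ i ∈ S, ‖((t ^ i : Eˣ) : E)‖ ≤ ω.w i) {f : WE E ω} (hf : Supp S f) :
    val (Units.map (φ : E →* E') t) (map h f) = φ (val t f) := by
  unfold val
  have h1 := (summ_val hb hf).of_norm.hasSum.map φ h.cont
  rw [← h1.tsum_eq]
  refine tsum_congr fun k => ?_
  rw [co_map, Function.comp_apply, map_mul, ← map_zpow]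
  rfl

end WE

end Pool.Agent.NTW
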