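import Mathlib
import Pool.Agent.Lib_MP_1209e6_nt.WE2

/-!
# The node equation in the algebra of Laurent series: fixed point, uniqueness, naturality
-/

set_option autoImplicit false

open scoped BigOperators
noncomputable section
namespace Pool.Agent.NTW

set_option linter.unusedSectionVars false

open Pool.Agent.Lib_MP_1858fb_w (Wt)

/-- A contraction of a closed ball has a unique fixed point. -/
theorem exists_fixed {V : Type*} [NormedAddCommGroup V] [CompleteSpace V] (F : V → V) (ρ : ℝ)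
    (hρ : 0 ≤ ρ) (hm : ∀ r, ‖r‖ ≤ ρ → ‖F r‖ ≤ ρ)
    (hl : ∀ r r', ‖r‖ ≤ ρ → ‖r'‖ ≤ ρ → ‖F r - F r'‖ ≤ 1 / 2 * ‖r - r'‖) :
    ∃ r, ‖r‖ ≤ ρ ∧ F r = r ∧ ∀ r', ‖r'‖ ≤ ρ → F r' = r' → r' = r := by
  have hs : IsComplete (Metric.closedBall (0 : V) ρ) := Metric.isClosed_closedBall.isComplete
  have hmaps : Set.MapsTo F (Metric.closedBall (0 : V) ρ) (Metric.closedBall (0 : V) ρ) := by
    intro r hr
    rw [mem_closedBall_zero_iff] at hr ⊢
    exact hm r hr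
  have hc : ContractingWith (1 / 2 : NNReal)
      (hmaps.restrict F (Metric.closedBall (0 : V) ρ) (Metric.closedBall (0 : V) ρ)) := by
    refine ⟨?_, ?_⟩
    · rw [← NNReal.coe_lt_coe]
      norm_num
    · refine LipschitzWith.of_dist_le_mul fun x y => ?_
      have hx := mem_closedBall_zero_iff.1 x.2
      have hy := mem_closedBall_zero_iff.1 y.2
      rw [Subtype.dist_eq, Subtype.dist_eq, dist_eq_norm, dist_eq_norm]
      have := hl x y hx hy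
      simpa using this
  obtain ⟨r, hr, hfix, -⟩ := hc.exists_fixedPoint' hs hmaps
    (x := 0) (Metric.mem_closedBall_self hρ) (edist_ne_top _ _)
  have hr' := mem_closedBall_zero_iff.1 hr
  refine ⟨r, hr', hfix, fun r' hr2 h2 => ?_⟩
  have h3 := hl r' r hr2 hr'
  rw [h2, hfix] at h3
  have h4 : ‖r' - r‖ = 0 := by
    have := norm_nonneg (r' - r)
    linarith
  exact sub_eq_zero.1 (norm_eq_zero.1 h4)

variable {E : Type*} [NormedCommRing E] [NormedAlgebra ℂ E] [CompleteSpace E] {ω : Wt} {n : ℕ}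
variable {E' : Type*} [NormedCommRing E'] [NormedAlgebra ℂ E'] [CompleteSpace E']

/-- negative exponents -/
def Sn : Set ℤ := {k | k < 0}
/-- nonnegative exponents -/
def Sp : Set ℤ := {k | 0 ≤ k}

theorem Sn_compl : Snᶜ = Sp := by
  ext k
  simp [Sn, Sp]

/-- the value at `1` of the negative part -/
def neg1 (f : WE E ω) : E := WE.val 1 (WE.proj Sn f)

/-- the starting points of the outer tube -/
def aOf (c : Fin n → E) (r : Fin n → WE E ω) (i : Fin n) : WE E ω :=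
  WE.cst ω (c i - neg1 (r i)) + WE.proj Sn (r i)

/-- the starting points of the inner tube -/
def bOf (c : Fin n → E) (r : Fin n → WE E ω) (i : Fin n) : WE E ω :=
  WE.cst ω (c i - neg1 (r i)) - WE.proj Sp (r i)

theorem proj_Sn_add_Sp (f : WE E ω) : WE.proj Sn f + WE.proj Sp f = f := by
  rw [← Sn_compl]
  exact WE.proj_add_compl Sn f

theorem aOf_sub_bOf (c : Fin n → E) (r : Fin n → WE E ω) (i : Fin n) :
    aOf c r i - bOf c r i = r i := by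
  unfold aOf bOf
  have := proj_Sn_add_Sp (r i)
  calc _ = WE.proj Sn (r i) + WE.proj Sp (r i) := by ring
    _ = r i := this

section bounds

variable [NormOneClass E] (hω : ∀ k, 1 ≤ ω.w k)

include hω

theorem one_le_w (k : ℤ) : ‖(((1 : Eˣ) ^ k : Eˣ) : E)‖ ≤ ω.w k := by
  rw [one_zpow, Units.val_one, norm_one]
  exact hω k

theorem norm_neg1_le (f : WE E ω) : ‖neg1 f‖ ≤ ‖f‖ := by
  unfold neg1
  refine (WE.norm_val_le (S := Set.univ) (fun k _ => one_le_w hω k) (WE.supp_univ _)).trans ?_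
  exact WE.norm_proj_le Sn f

theorem neg1_sub (f g : WE E ω) : neg1 (f - g) = neg1 f - neg1 g := by
  unfold neg1
  rw [map_sub]
  exact WE.val_sub (S := Set.univ) (fun k _ => one_le_w hω k) (WE.supp_univ _) (WE.supp_univ _)

theorem aOf_sub (c c' : Fin n → E) (r r' : Fin n → WE E ω) :
    aOf c r - aOf c' r' = aOf (c - c') (r - r') := by
  funext i
  show aOf c r i - aOf c' r' i = aOf (c - c') (r - r') i
  unfold aOf
  rw [Pi.sub_apply, Pi.sub_apply, neg1_sub hω, map_sub (WE.proj Sn)]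
  simp only [map_sub]
  ring

theorem bOf_sub (c c' : Fin n → E) (r r' : Fin n → WE E ω) :
    bOf c r - bOf c' r' = bOf (c - c') (r - r') := by
  funext i
  show bOf c r i - bOf c' r' i = bOf (c - c') (r - r') i
  unfold bOf
  rw [Pi.sub_apply, Pi.sub_apply, neg1_sub hω, map_sub (WE.proj Sp)]
  simp only [map_sub]
  ring

theorem norm_aOf_le (c : Fin n → E) (r : Fin n → WE E ω) : ‖aOf c r‖ ≤ ‖c‖ + 2 * ‖r‖ := by
  refine (pi_norm_le_iff_of_nonneg (by positivity)).2 fun i => ?_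
  unfold aOf
  have h1 : ‖c i‖ ≤ ‖c‖ := norm_le_pi_norm c i
  have h2 : ‖r i‖ ≤ ‖r‖ := norm_le_pi_norm r i
  have h3 := norm_neg1_le hω (r i)
  have h4 := WE.norm_proj_le Sn (r i)
  calc ‖WE.cst ω (c i - neg1 (r i)) + WE.proj Sn (r i)‖
      ≤ ‖WE.cst ω (c i - neg1 (r i))‖ + ‖WE.proj Sn (r i)‖ := norm_add_le _ _
    _ ≤ (‖c i‖ + ‖neg1 (r i)‖) + ‖WE.proj Sn (r i)‖ := by
        rw [WE.norm_cst]
        gcongr
        exact norm_sub_le _ _
    _ ≤ ‖c‖ + 2 * ‖r‖ := by linarith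

theorem norm_bOf_le (c : Fin n → E) (r : Fin n → WE E ω) : ‖bOf c r‖ ≤ ‖c‖ + 2 * ‖r‖ := by
  refine (pi_norm_le_iff_of_nonneg (by positivity)).2 fun i => ?_
  unfold bOf
  have h1 : ‖c i‖ ≤ ‖c‖ := norm_le_pi_norm c i
  have h2 : ‖r i‖ ≤ ‖r‖ := norm_le_pi_norm r i
  have h3 := norm_neg1_le hω (r i)
  have h4 := WE.norm_proj_le Sp (r i)
  calc ‖WE.cst ω (c i - neg1 (r i)) - WE.proj Sp (r i)‖
      ≤ ‖WE.cst ω (c i - neg1 (r i))‖ + ‖WE.proj Sp (r i)‖ := norm_sub_le _ _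
    _ ≤ (‖c i‖ + ‖neg1 (r i)‖) + ‖WE.proj Sp (r i)‖ := by
        rw [WE.norm_cst]
        gcongr
        exact norm_sub_le _ _
    _ ≤ ‖c‖ + 2 * ‖r‖ := by linarith

/-- the node equation -/
theorem solve {δ ε : ℝ} (hδ : 0 ≤ δ) (hε0 : 0 ≤ ε) (hε : ε ≤ 1 / 8)
    (G1 G2 : (Fin n → WE E ω) → (Fin n → WE E ω))
    (hb1 : ∀ a, ‖a‖ ≤ δ → ‖G1 a‖ ≤ ε * δ) (hb2 : ∀ a, ‖a‖ ≤ δ → ‖G2 a‖ ≤ ε * δ)
    (hl1 : ∀ a a', ‖a‖ ≤ δ → ‖a'‖ ≤ δ → ‖G1 a - G1 a'‖ ≤ ε * ‖a - a'‖)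
    (hl2 : ∀ a a', ‖a‖ ≤ δ → ‖a'‖ ≤ δ → ‖G2 a - G2 a'‖ ≤ ε * ‖a - a'‖)
    (c : Fin n → E) (hc : ‖c‖ ≤ δ / 2) :
    ∃ r : Fin n → WE E ω, ‖r‖ ≤ 2 * ε * δ ∧ G2 (bOf c r) - G1 (aOf c r) = r ∧
      ∀ r', ‖r'‖ ≤ 2 * ε * δ → G2 (bOf c r') - G1 (aOf c r') = r' → r' = r := by
  have hball : ∀ r : Fin n → WE E ω, ‖r‖ ≤ 2 * ε * δ → ‖c‖ + 2 * ‖r‖ ≤ δ := by
    intro r hr
    nlinarith
  refine exists_fixed (fun r => G2 (bOf c r) - G1 (aOf c r)) (2 * ε * δ) (by positivity) ?_ ?_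
  · intro r hr
    have ha : ‖aOf c r‖ ≤ δ := (norm_aOf_le hω c r).trans (hball r hr)
    have hb : ‖bOf c r‖ ≤ δ := (norm_bOf_le hω c r).trans (hball r hr)
    calc ‖G2 (bOf c r) - G1 (aOf c r)‖ ≤ ‖G2 (bOf c r)‖ + ‖G1 (aOf c r)‖ := norm_sub_le _ _
      _ ≤ ε * δ + ε * δ := add_le_add (hb2 _ hb) (hb1 _ ha)
      _ = 2 * ε * δ := by ring
  · intro r r' hr hr'
    have ha : ‖aOf c r‖ ≤ δ := (norm_aOf_le hω c r).trans (hball r hr)
    have hb : ‖bOf c r‖ ≤ δ := (norm_bOf_le hω c r).trans (hball r hr)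
    have ha' : ‖aOf c r'‖ ≤ δ := (norm_aOf_le hω c r').trans (hball r' hr')
    have hb' : ‖bOf c r'‖ ≤ δ := (norm_bOf_le hω c r').trans (hball r' hr')
    have h1 : ‖aOf c r - aOf c r'‖ ≤ 2 * ‖r - r'‖ := by
      rw [aOf_sub hω]
      refine (norm_aOf_le hω _ _).trans ?_
      rw [sub_self, norm_zero, zero_add]
    have h2 : ‖bOf c r - bOf c r'‖ ≤ 2 * ‖r - r'‖ := by
      rw [bOf_sub hω]
      refine (norm_bOf_le hω _ _).trans ?_
      rw [sub_self, norm_zero, zero_add]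
    have h3 := hl1 _ _ ha ha'
    have h4 := hl2 _ _ hb hb'
    have h5 : ‖(G2 (bOf c r) - G1 (aOf c r)) - (G2 (bOf c r') - G1 (aOf c r'))‖ ≤
        ‖G2 (bOf c r) - G2 (bOf c r')‖ + ‖G1 (aOf c r) - G1 (aOf c r')‖ := by
      refine le_trans (le_of_eq ?_) (norm_sub_le _ _)
      congr 1
      abel
    have h6 : 0 ≤ ‖r - r'‖ := norm_nonneg _
    show ‖(G2 (bOf c r) - G1 (aOf c r)) - (G2 (bOf c r') - G1 (aOf c r'))‖ ≤ 1 / 2 * ‖r - r'‖
    nlinarith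

end bounds

/-- naturality of the splitting -/
theorem neg1_map [NormOneClass E] (hω : ∀ k, 1 ≤ ω.w k) {φ : E →ₐ[ℂ] E'} (h : WE.Ctr φ)
    (f : WE E ω) : neg1 (WE.map h f) = φ (neg1 f) := by
  unfold neg1
  rw [← WE.map_proj]
  have := WE.val_map h (S := Set.univ) (t := 1) (fun k _ => one_le_w hω k) (f := WE.proj Sn f)
    (WE.supp_univ _)
  rw [map_one] at this
  exact this

theorem aOf_map [NormOneClass E] (hω : ∀ k, 1 ≤ ω.w k) {φ : E →ₐ[ℂ] E'} (h : WE.Ctr φ)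
    (c : Fin n → E) (r : Fin n → WE E ω) (i : Fin n) :
    WE.map h (aOf c r i) = aOf (fun j => φ (c j)) (fun j => WE.map h (r j)) i := by
  unfold aOf
  rw [map_add, WE.map_cst, map_sub, WE.map_proj, neg1_map hω h]

theorem bOf_map [NormOneClass E] (hω : ∀ k, 1 ≤ ω.w k) {φ : E →ₐ[ℂ] E'} (h : WE.Ctr φ)
    (c : Fin n → E) (r : Fin n → WE E ω) (i : Fin n) :
    WE.map h (bOf c r i) = bOf (fun j => φ (c j)) (fun j => WE.map h (r j)) i := by
  unfold bOf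
  rw [map_sub, WE.map_cst, map_sub, WE.map_proj, neg1_map hω h]

end Pool.Agent.NTW
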