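import Mathlib
import Pool.Agent.Lib_MP_1209e6_nt.WE2

/-!
# The disc algebra
-/

open scoped BigOperators Topology
open Filter
noncomputable section
namespace Pool.Agent.NTW

set_option linter.unusedSectionVars false

open scoped Classical in
/-- extension by zero -/
def xt {x : ℂ} {r : ℝ} (f : C(Metric.closedBall x r, ℂ)) (z : ℂ) : ℂ :=
  if h : z ∈ Metric.closedBall x r then f ⟨z, h⟩ else 0

theorem xt_mem {x : ℂ} {r : ℝ} (f : C(Metric.closedBall x r, ℂ)) {z : ℂ}
    (h : z ∈ Metric.closedBall x r) : xt f z = f ⟨z, h⟩ := dif_pos h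

theorem xt_add {x : ℂ} {r : ℝ} (f g : C(Metric.closedBall x r, ℂ)) (z : ℂ) :
    xt (f + g) z = xt f z + xt g z := by
  unfold xt; split_ifs <;> simp

theorem xt_mul {x : ℂ} {r : ℝ} (f g : C(Metric.closedBall x r, ℂ)) (z : ℂ) :
    xt (f * g) z = xt f z * xt g z := by
  unfold xt; split_ifs <;> simp

/-- The disc algebra: continuous on the closed ball, holomorphic inside. -/
def DA (x : ℂ) (r : ℝ) : Subalgebra ℂ C(Metric.closedBall x r, ℂ) where
  carrier := {f | DifferentiableOn ℂ (xt f) (Metric.ball x r)}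
  mul_mem' {f g} hf hg := by
    have : xt (f * g) = fun z => xt f z * xt g z := funext (xt_mul f g)
    show DifferentiableOn ℂ (xt (f * g)) _
    rw [this]
    exact hf.mul hg
  add_mem' {f g} hf hg := by
    have : xt (f + g) = fun z => xt f z + xt g z := funext (xt_add f g)
    show DifferentiableOn ℂ (xt (f + g)) _
    rw [this]
    exact hf.add hg
  algebraMap_mem' c := by
    show DifferentiableOn ℂ (xt _) _
    refine (differentiableOn_const c).congr fun z hz => ?_
    rw [xt_mem _ (Metric.ball_subset_closedBall hz)]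
    rfl

theorem DA_closed (x : ℂ) (r : ℝ) : IsClosed (DA x r : Set C(Metric.closedBall x r, ℂ)) := by
  rw [← isSeqClosed_iff_isClosed]
  intro F f hF hf
  show DifferentiableOn ℂ (xt f) (Metric.ball x r)
  have h1 : TendstoUniformly (fun n => xt (F n)) (xt f) atTop := by
    rw [Metric.tendstoUniformly_iff]
    intro ε hε
    filter_upwards [(Metric.tendsto_nhds.1 hf) ε hε] with n hn z
    unfold xt
    split_ifs with h
    · rw [dist_comm]
      exact (ContinuousMap.dist_apply_le_dist _).trans_lt hn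
    · simpa using hε
  exact (h1.tendstoUniformlyOn.tendstoLocallyUniformlyOn).differentiableOn
    (Eventually.of_forall fun n => hF n) Metric.isOpen_ball

instance (x : ℂ) (r : ℝ) : CompleteSpace (DA x r) := (DA_closed x r).completeSpace_coe

instance (x : ℂ) (r : ℝ) [Fact (0 ≤ r)] : Nonempty (Metric.closedBall x r) :=
  ⟨⟨x, Metric.mem_closedBall_self Fact.out⟩⟩

instance (x : ℂ) (r : ℝ) [Fact (0 ≤ r)] : NormOneClass C(Metric.closedBall x r, ℂ) :=
  ⟨by
    have h : ‖(1 : C(Metric.closedBall x r, ℂ))‖ = 1 := by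
      apply le_antisymm
      · rw [ContinuousMap.norm_le _ zero_le_one]
        intro z; simp
      · have := ContinuousMap.norm_coe_le_norm (1 : C(Metric.closedBall x r, ℂ))
          ⟨x, Metric.mem_closedBall_self Fact.out⟩
        simpa using this
    exact h⟩

instance (x : ℂ) (r : ℝ) [Fact (0 ≤ r)] : NormOneClass (DA x r) :=
  ⟨by
    show ‖((1 : DA x r) : C(Metric.closedBall x r, ℂ))‖ = 1
    rw [OneMemClass.coe_one, norm_one]⟩

/-- evaluation at a point of the closed ball -/
def dev {x : ℂ} {r : ℝ} (z : Metric.closedBall x r) : DA x r →ₐ[ℂ] ℂ where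
  toFun f := f.1 z
  map_one' := rfl
  map_mul' _ _ := rfl
  map_zero' := rfl
  map_add' _ _ := rfl
  commutes' _ := rfl

theorem dev_apply {x : ℂ} {r : ℝ} (z : Metric.closedBall x r) (f : DA x r) :
    dev z f = f.1 z := rfl

theorem ctr_dev {x : ℂ} {r : ℝ} (z : Metric.closedBall x r) : WE.Ctr (dev z) :=
  ⟨fun f => ContinuousMap.norm_coe_le_norm f.1 z⟩

/-- elements of the disc algebra are analytic inside -/
theorem DA_analytic {x : ℂ} {r : ℝ} (f : DA x r) {z : ℂ} (hz : z ∈ Metric.ball x r) :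
    AnalyticAt ℂ (xt f.1) z :=
  (show DifferentiableOn ℂ (xt f.1) (Metric.ball x r) from f.2).analyticAt
    (Metric.isOpen_ball.mem_nhds hz)

theorem xt_eq_dev {x : ℂ} {r : ℝ} (f : DA x r) {z : ℂ} (hz : z ∈ Metric.closedBall x r) :
    xt f.1 z = dev ⟨z, hz⟩ f := xt_mem _ hz

/-- the restriction of a function which is analytic on the closed ball -/
def toDA {x : ℂ} {r : ℝ} (g : ℂ → ℂ) (hg : DifferentiableOn ℂ g (Metric.closedBall x r)) :
    DA x r :=
  ⟨⟨fun z => g z, (continuousOn_iff_continuous_domRestrict.1 hg.continuousOn)⟩, by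
    show DifferentiableOn ℂ (xt _) _
    refine (hg.mono Metric.ball_subset_closedBall).congr fun z hz => ?_
    rw [xt_mem _ (Metric.ball_subset_closedBall hz)]
    rfl⟩

theorem dev_toDA {x : ℂ} {r : ℝ} (g : ℂ → ℂ) (hg : DifferentiableOn ℂ g (Metric.closedBall x r))
    (z : Metric.closedBall x r) : dev z (toDA g hg) = g z := rfl

theorem norm_toDA_le {x : ℂ} {r : ℝ} (g : ℂ → ℂ)
    (hg : DifferentiableOn ℂ g (Metric.closedBall x r)) {C : ℝ} (hC : 0 ≤ C)
    (hb : ∀ z ∈ Metric.closedBall x r, ‖g z‖ ≤ C) : ‖toDA g hg‖ ≤ C := by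
  show ‖(toDA g hg).1‖ ≤ C
  rw [ContinuousMap.norm_le _ hC]
  intro z
  exact hb z.1 z.2

/-- Finitely many functions analytic at `x` are in a common disc algebra, with norms close to the
values at `x`. -/
theorem exists_disc {ι : Type*} [Finite ι] (g : ι → ℂ → ℂ) (x : ℂ)
    (hg : ∀ i, AnalyticAt ℂ (g i) x) {C : ι → ℝ} (hC : ∀ i, ‖g i x‖ < C i) {U : Set ℂ}
    (hU : U ∈ 𝓝 x) :
    ∃ r : ℝ, 0 < r ∧ Metric.closedBall x r ⊆ U ∧ ∀ i,
      DifferentiableOn ℂ (g i) (Metric.closedBall x r) ∧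
      ∀ z ∈ Metric.closedBall x r, ‖g i z‖ ≤ C i := by
  have h1 : ∀ i, ∀ᶠ z in 𝓝 x, DifferentiableAt ℂ (g i) z ∧ ‖g i z‖ ≤ C i := by
    intro i
    have e1 : ∀ᶠ z in 𝓝 x, AnalyticAt ℂ (g i) z := (hg i).eventually_analyticAt
    have e2 : ∀ᶠ z in 𝓝 x, ‖g i z‖ < C i :=
      (hg i).continuousAt.norm.eventually_lt continuousAt_const (hC i)
    filter_upwards [e1, e2] with z h h'
    exact ⟨h.differentiableAt, h'.le⟩
  have h2 := (Filter.eventually_all.2 h1).and hU
  obtain ⟨ε, hε, hb⟩ := Metric.eventually_nhds_iff_ball.1 h2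
  have hsub : Metric.closedBall x (ε / 2) ⊆ Metric.ball x ε :=
    Metric.closedBall_subset_ball (by linarith)
  refine ⟨ε / 2, by linarith, fun z hz => (hb z (hsub hz)).2, fun i => ⟨fun z hz => ?_, fun z hz => ?_⟩⟩
  · exact ((hb z (hsub hz)).1 i).1.differentiableWithinAt
  · exact ((hb z (hsub hz)).1 i).2

end Pool.Agent.NTW
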