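import Mathlib
import Pool.Agent.Lib_MP_1209e6_nt.WE2

/-!
# Evaluation of Laurent series at `exp w`
-/

open scoped BigOperators Nat
noncomputable section
namespace Pool.Agent.NTW

set_option linter.unusedSectionVars false

open Pool.Agent.Lib_MP_1858fb_w (Wt)

variable {E : Type*} [NormedCommRing E] [NormedAlgebra ℂ E] [CompleteSpace E] {ω : Wt}
variable {E' : Type*} [NormedCommRing E'] [NormedAlgebra ℂ E'] [CompleteSpace E']

/-- the exponential in `E` -/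
def ex (x : E) : E := NormedSpace.exp x

theorem ex_add (x y : E) : ex (x + y) = ex x * ex y := by
  letI : NormedAlgebra ℚ E := NormedAlgebra.restrictScalars ℚ ℂ E
  exact NormedSpace.exp_add

theorem ex_zero : ex (0 : E) = 1 := NormedSpace.exp_zero

theorem map_ex {θ : E →ₐ[ℂ] E'} (h : Continuous θ) (x : E) : θ (ex x) = ex (θ x) := by
  letI : NormedAlgebra ℚ E := NormedAlgebra.restrictScalars ℚ ℂ E
  letI : NormedAlgebra ℚ E' := NormedAlgebra.restrictScalars ℚ ℂ E'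
  exact NormedSpace.map_exp θ h x

theorem ex_complex (x : ℂ) : ex x = Complex.exp x := by
  unfold ex
  rw [Complex.exp_eq_exp_ℂ]

theorem hasSum_ex (x : E) : HasSum (fun n : ℕ => (n !⁻¹ : ℂ) • x ^ n) (ex x) :=
  NormedSpace.exp_series_hasSum_exp' x

theorem norm_ex_sub_one (x : E) : ‖ex x - 1‖ ≤ ‖x‖ * Real.exp ‖x‖ := by
  have h1 := (hasSum_nat_add_iff' 1).2 (hasSum_ex x)
  simp only [Finset.range_one, Finset.sum_singleton, Nat.factorial_zero, Nat.cast_one, inv_one,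
    pow_zero, one_smul] at h1
  have h2 : Summable fun n : ℕ => ‖x‖ * (‖x‖ ^ n / n !) :=
    (Real.summable_pow_div_factorial ‖x‖).mul_left _
  have h3 : ∀ n : ℕ, ‖((n + 1) !⁻¹ : ℂ) • x ^ (n + 1)‖ ≤ ‖x‖ * (‖x‖ ^ n / n !) := by
    intro n
    rw [norm_smul]
    have e1 : ‖((((n + 1) ! : ℕ) : ℂ))⁻¹‖ = (((n + 1) ! : ℕ) : ℝ)⁻¹ := by
      rw [norm_inv, Complex.norm_natCast]
    have e2 : ‖x ^ (n + 1)‖ ≤ ‖x‖ ^ (n + 1) := norm_pow_le' x (Nat.succ_pos n)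
    have e3 : (((n + 1) ! : ℕ) : ℝ)⁻¹ ≤ ((n ! : ℕ) : ℝ)⁻¹ := by
      apply inv_anti₀ (by positivity)
      exact_mod_cast Nat.factorial_le (Nat.le_succ n)
    calc ‖((((n + 1) ! : ℕ) : ℂ))⁻¹‖ * ‖x ^ (n + 1)‖
        ≤ ((n ! : ℕ) : ℝ)⁻¹ * ‖x‖ ^ (n + 1) := by
          rw [e1]
          exact mul_le_mul e3 e2 (norm_nonneg _) (by positivity)
      _ = ‖x‖ * (‖x‖ ^ n / n !) := by rw [pow_succ]; ring
  have h4 : ‖ex x - 1‖ ≤ ∑' n : ℕ, ‖x‖ * (‖x‖ ^ n / n !) :=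
    h1.norm_le_of_bounded h2.hasSum h3
  refine h4.trans (le_of_eq ?_)
  rw [tsum_mul_left, Real.exp_eq_exp_ℝ, NormedSpace.exp_eq_tsum_div]

theorem norm_ex_le [NormOneClass E] (x : E) : ‖ex x‖ ≤ Real.exp ‖x‖ := by
  have h1 := hasSum_ex x
  have h2 : Summable fun n : ℕ => ‖x‖ ^ n / n ! := Real.summable_pow_div_factorial ‖x‖
  have h3 : ∀ n : ℕ, ‖((n !⁻¹ : ℂ)) • x ^ n‖ ≤ ‖x‖ ^ n / n ! := by
    intro n
    rw [norm_smul, norm_inv, Complex.norm_natCast, inv_mul_eq_div]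
    exact div_le_div_of_nonneg_right (norm_pow_le x n) (by positivity)
  have h4 : ‖ex x‖ ≤ ∑' n : ℕ, ‖x‖ ^ n / n ! := h1.norm_le_of_bounded h2.hasSum h3
  refine h4.trans (le_of_eq ?_)
  rw [Real.exp_eq_exp_ℝ, NormedSpace.exp_eq_tsum_div]

/-- the unit `exp w`. -/
def eU (w : E) : Eˣ where
  val := ex w
  inv := ex (-w)
  val_inv := by rw [← ex_add, add_neg_cancel, ex_zero]
  inv_val := by rw [← ex_add, neg_add_cancel, ex_zero]

theorem coe_eU (w : E) : ((eU w : Eˣ) : E) = ex w := rfl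

theorem eU_zero : eU (0 : E) = 1 := Units.ext ex_zero

theorem eU_add (v w : E) : eU (v + w) = eU v * eU w := Units.ext (ex_add v w)

theorem eU_neg (w : E) : eU (-w) = (eU w)⁻¹ := by
  rw [eq_inv_iff_mul_eq_one, ← eU_add, neg_add_cancel, eU_zero]

theorem eU_nsmul (n : ℕ) (w : E) : eU (n • w) = eU w ^ n := by
  induction n with
  | zero => rw [zero_smul, eU_zero, pow_zero]
  | succ n ih => rw [succ_nsmul, eU_add, ih, pow_succ]

theorem eU_zsmul (k : ℤ) (w : E) : eU (k • w) = eU w ^ k := by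
  rcases Int.eq_nat_or_neg k with ⟨n, rfl | rfl⟩
  · rw [natCast_zsmul, zpow_natCast, eU_nsmul]
  · rw [neg_smul, natCast_zsmul, eU_neg, eU_nsmul, zpow_neg, zpow_natCast]

theorem map_eU {θ : E →ₐ[ℂ] E'} (h : WE.Ctr θ) (w : E) :
    Units.map (θ : E →* E') (eU w) = eU (θ w) := Units.ext (map_ex h.cont w)

theorem norm_zsmul_le' (k : ℤ) (w : E) : ‖k • w‖ ≤ k.natAbs * ‖w‖ := by
  have h : ‖k • w‖ = ‖((k : ℤ) : ℂ) • w‖ := by rw [Int.cast_smul_eq_zsmul]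
  rw [h, norm_smul, Complex.norm_intCast, ← Int.cast_abs, ← Int.natCast_natAbs]
  simp

/-- bound of the powers of `exp w`. -/
theorem norm_eU_zpow_le [NormOneClass E] (w : E) (k : ℤ) :
    ‖((eU w ^ k : Eˣ) : E)‖ ≤ Real.exp (k.natAbs * ‖w‖) := by
  rw [← eU_zsmul, coe_eU]
  exact (norm_ex_le _).trans (Real.exp_le_exp.2 (norm_zsmul_le' k w))

theorem norm_eU_zpow_sub_le [NormOneClass E] (v w : E) (k : ℤ) :
    ‖((eU v ^ k : Eˣ) : E) - ((eU w ^ k : Eˣ) : E)‖ ≤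
      k.natAbs * ‖v - w‖ * Real.exp (k.natAbs * (‖v - w‖ + ‖w‖)) := by
  have e1 : eU v ^ k = eU w ^ k * eU (k • (v - w)) := by
    rw [← eU_zsmul, ← eU_zsmul, ← eU_add, ← smul_add, add_sub_cancel]
  have e2 : ((eU v ^ k : Eˣ) : E) - ((eU w ^ k : Eˣ) : E) =
      ((eU w ^ k : Eˣ) : E) * (ex (k • (v - w)) - 1) := by
    rw [e1, Units.val_mul, coe_eU, mul_sub, mul_one]
  rw [e2]
  refine (norm_mul_le _ _).trans ?_
  have e3 := norm_eU_zpow_le w k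
  have e4 := norm_ex_sub_one (k • (v - w))
  have e5 := norm_zsmul_le' k (v - w)
  have e6 : ‖ex (k • (v - w)) - 1‖ ≤ (k.natAbs * ‖v - w‖) * Real.exp (k.natAbs * ‖v - w‖) :=
    e4.trans (mul_le_mul e5 (Real.exp_le_exp.2 e5) (Real.exp_pos _).le (by positivity))
  calc ‖((eU w ^ k : Eˣ) : E)‖ * ‖ex (k • (v - w)) - 1‖
      ≤ Real.exp (k.natAbs * ‖w‖) * ((k.natAbs * ‖v - w‖) * Real.exp (k.natAbs * ‖v - w‖)) :=
        mul_le_mul e3 e6 (norm_nonneg _) (Real.exp_pos _).le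
    _ = _ := by rw [mul_add, Real.exp_add]; ring

theorem exp_pow_bound (n : ℕ) {x : ℝ} (hx : x ≤ 3 / 16) :
    Real.exp (n * x) ≤ (5 / 4 : ℝ) ^ n := by
  have h1 : Real.exp x ≤ 5 / 4 := by
    have h2 : Real.exp x ≤ Real.exp (3 / 16) := Real.exp_le_exp.2 hx
    have h3 : Real.exp (-(3 / 16 : ℝ)) ≥ 1 - 3 / 16 := by
      have := Real.add_one_le_exp (-(3 / 16 : ℝ))
      linarith
    have h4 : Real.exp (3 / 16 : ℝ) * Real.exp (-(3 / 16 : ℝ)) = 1 := by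
      rw [← Real.exp_add]; simp
    have h5 := Real.exp_pos (3 / 16 : ℝ)
    nlinarith
  rw [Real.exp_nat_mul]
  exact pow_le_pow_left₀ (Real.exp_pos _).le h1 n

theorem nat_pow_bound (n : ℕ) : (n : ℝ) * (5 / 4 : ℝ) ^ n ≤ 2 * 2 ^ n := by
  have h1 : 1 + (n : ℝ) * (3 / 5) ≤ (1 + 3 / 5 : ℝ) ^ n :=
    one_add_mul_le_pow (by norm_num) n
  have h2 : (2 : ℝ) ^ n = (5 / 4 : ℝ) ^ n * (1 + 3 / 5 : ℝ) ^ n := by
    rw [← mul_pow]; norm_num
  have h3 : (0 : ℝ) < (5 / 4 : ℝ) ^ n := by positivity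
  have h4 : (0 : ℝ) ≤ n := Nat.cast_nonneg n
  rw [h2]
  nlinarith [mul_le_mul_of_nonneg_left h1 h3.le]

namespace WE

/-- small `w`: the powers of `exp w` are bounded by the weight. -/
theorem eU_weight [NormOneClass E] (hω : ∀ k : ℤ, (2 : ℝ) ^ k.natAbs ≤ ω.w k) {w : E}
    (hw : ‖w‖ ≤ 3 / 16) (k : ℤ) : ‖((eU w ^ k : Eˣ) : E)‖ ≤ ω.w k := by
  refine (norm_eU_zpow_le w k).trans ((exp_pow_bound k.natAbs hw).trans ?_)
  exact (pow_le_pow_left₀ (by norm_num) (by norm_num) _).trans (hω k)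

/-- Lipschitz dependence of the value on the point. -/
theorem val_eU_sub_le [NormOneClass E] (hω : ∀ k : ℤ, (2 : ℝ) ^ k.natAbs ≤ ω.w k) {v w : E}
    (hv : ‖v‖ ≤ 1 / 16) (hw : ‖w‖ ≤ 1 / 16) (f : WE E ω) :
    ‖val (eU v) f - val (eU w) f‖ ≤ 2 * ‖v - w‖ * ‖f‖ := by
  have hbv := eU_weight hω (hv.trans (by norm_num))
  have hbw := eU_weight hω (hw.trans (by norm_num))
  have s1 := (summ_val (S := Set.univ) (fun i _ => hbv i) (supp_univ f)).of_norm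
  have s2 := (summ_val (S := Set.univ) (fun i _ => hbw i) (supp_univ f)).of_norm
  have e1 : val (eU v) f - val (eU w) f =
      ∑' k, f.co k * (((eU v ^ k : Eˣ) : E) - ((eU w ^ k : Eˣ) : E)) := by
    unfold val
    rw [← s1.tsum_sub s2]
    refine tsum_congr fun k => ?_
    ring
  have hb : ∀ k : ℤ, ‖f.co k * (((eU v ^ k : Eˣ) : E) - ((eU w ^ k : Eˣ) : E))‖ ≤
      (2 * ‖v - w‖) * (‖f.co k‖ * ω.w k) := by
    intro k
    have hvw : ‖v - w‖ ≤ 1 / 8 := (norm_sub_le _ _).trans (by linarith)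
    have h1 := norm_eU_zpow_sub_le v w k
    have h2 := exp_pow_bound k.natAbs (x := ‖v - w‖ + ‖w‖) (by linarith)
    have h3 := nat_pow_bound k.natAbs
    have h4 : (k.natAbs : ℝ) * ‖v - w‖ * Real.exp (k.natAbs * (‖v - w‖ + ‖w‖)) ≤
        2 * ‖v - w‖ * ω.w k := by
      calc (k.natAbs : ℝ) * ‖v - w‖ * Real.exp (k.natAbs * (‖v - w‖ + ‖w‖))
          ≤ (k.natAbs : ℝ) * ‖v - w‖ * (5 / 4 : ℝ) ^ k.natAbs :=
            mul_le_mul_of_nonneg_left h2 (by positivity)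
        _ = ‖v - w‖ * ((k.natAbs : ℝ) * (5 / 4 : ℝ) ^ k.natAbs) := by ring
        _ ≤ ‖v - w‖ * (2 * 2 ^ k.natAbs) := mul_le_mul_of_nonneg_left h3 (norm_nonneg _)
        _ ≤ ‖v - w‖ * (2 * ω.w k) := by
            apply mul_le_mul_of_nonneg_left _ (norm_nonneg _)
            linarith [hω k]
        _ = _ := by ring
    calc ‖f.co k * (((eU v ^ k : Eˣ) : E) - ((eU w ^ k : Eˣ) : E))‖
        ≤ ‖f.co k‖ * ‖((eU v ^ k : Eˣ) : E) - ((eU w ^ k : Eˣ) : E)‖ := norm_mul_le _ _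
      _ ≤ ‖f.co k‖ * (2 * ‖v - w‖ * ω.w k) :=
          mul_le_mul_of_nonneg_left (h1.trans h4) (norm_nonneg _)
      _ = _ := by ring
  rw [e1]
  refine (tsum_of_norm_bounded (f.summ.mul_left (2 * ‖v - w‖)).hasSum hb).trans (le_of_eq ?_)
  rw [tsum_mul_left, ← norm_eq]

/-- `exp ζ` in the algebra of Laurent series. -/
theorem val_ex (t : Eˣ) (ht : ∀ k : ℤ, ‖((t ^ k : Eˣ) : E)‖ ≤ ω.w k) (f : WE E ω) :
    val t (ex f) = ex (val t f) := map_ex (ctr_ev t ht).cont f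

theorem val_zt (t : Eˣ) : val t ((zt E ω : (WE E ω)ˣ) : WE E ω) = (t : E) := by
  show val t (mono ω 1 1) = _
  rw [val_mono]; simp

theorem val_zt_inv (t : Eˣ) : val t (((zt E ω)⁻¹ : (WE E ω)ˣ) : WE E ω) = ((t⁻¹ : Eˣ) : E) := by
  show val t (mono ω (-1) 1) = _
  rw [val_mono]; simp

end WE

end Pool.Agent.NTW
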