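import Mathlib
import Pool.Agent.Lib_MP_1209e6_nt.WE3
import Pool.Agent.Lib_MP_1209e6_nt.Disc

/-!
# One sided values of Laurent series
-/

open scoped BigOperators Topology
open Filter
noncomputable section
namespace Pool.Agent.NTW

set_option linter.unusedSectionVars false

open Pool.Agent.Lib_MP_1858fb_w (Wt)

variable {E : Type*} [NormedCommRing E] [NormedAlgebra ℂ E] [CompleteSpace E] {ω : Wt}
variable {E' : Type*} [NormedCommRing E'] [NormedAlgebra ℂ E'] [CompleteSpace E']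

/-- the weight `2 ^ |k|` -/
def w2 : Wt where
  w k := (2 : ℝ) ^ k.natAbs
  pos k := by positivity
  zero := by simp
  sub i j := by
    rw [← pow_add]
    exact pow_le_pow_right₀ (by norm_num) (Int.natAbs_add_le i j)

theorem w2_apply (k : ℤ) : w2.w k = (2 : ℝ) ^ k.natAbs := rfl

namespace WE

/-- value of the part with exponents `≥ 0` -/
def vpos (u : E) (f : WE E ω) : E := ∑' n : ℕ, f.co n * u ^ n

/-- value of the part with exponents `≤ 0` at `v` instead of `1/ζ` -/
def vneg (v : E) (f : WE E ω) : E := ∑' n : ℕ, f.co (-n) * v ^ n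

/-- the powers of `u` are bounded by the weight -/
def Bd (ω : Wt) (u : E) : Prop := ∀ n : ℕ, ‖u ^ n‖ ≤ ω.w n ∧ ‖u ^ n‖ ≤ ω.w (-n)

theorem bd_of_norm_le [NormOneClass E] (hω : ∀ k : ℤ, (2 : ℝ) ^ k.natAbs ≤ ω.w k) {u : E}
    (hu : ‖u‖ ≤ 2) : Bd ω u := by
  intro n
  have h1 : ‖u ^ n‖ ≤ 2 ^ n := (norm_pow_le u n).trans (pow_le_pow_left₀ (norm_nonneg _) hu n)
  have h2 := hω n
  have h3 := hω (-n)
  simp only [Int.natAbs_natCast, Int.natAbs_neg] at h2 h3
  exact ⟨h1.trans h2, h1.trans h3⟩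

theorem bd_of_norm_le' [NormOneClass E] {u : E} (hu : ‖u‖ ≤ 2) : Bd w2 u :=
  bd_of_norm_le (fun _ => le_rfl) hu

theorem Bd.map {u : E} (hu : Bd ω u) {φ : E →ₐ[ℂ] E'} (h : Ctr φ) : Bd ω (φ u) := fun n => by
  rw [← map_pow]
  exact ⟨(h.le _).trans (hu n).1, (h.le _).trans (hu n).2⟩

theorem summ_nat (f : WE E ω) : Summable fun n : ℕ => ‖f.co n‖ * ω.w n :=
  f.summ.comp_injective Nat.cast_injective

theorem summ_nat' (f : WE E ω) : Summable fun n : ℕ => ‖f.co (-n)‖ * ω.w (-n) :=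
  f.summ.comp_injective (i := fun n : ℕ => (-(n : ℤ))) (fun a b h => by
    have : (a : ℤ) = b := neg_injective h
    exact_mod_cast this)

theorem tsum_nat_le (f : WE E ω) : ∑' n : ℕ, ‖f.co n‖ * ω.w n ≤ ‖f‖ := by
  rw [norm_eq]
  exact (summ_nat f).tsum_le_tsum_of_inj (fun n : ℕ => (n : ℤ)) Nat.cast_injective
    (fun c _ => mul_nonneg (norm_nonneg _) (ω.pos c).le) (fun n => le_rfl) f.summ

theorem tsum_nat_le' (f : WE E ω) : ∑' n : ℕ, ‖f.co (-n)‖ * ω.w (-n) ≤ ‖f‖ := by
  rw [norm_eq]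
  exact (summ_nat' f).tsum_le_tsum_of_inj (fun n : ℕ => (-(n : ℤ)))
    (fun a b h => by
      have : (a : ℤ) = b := neg_injective h
      exact_mod_cast this)
    (fun c _ => mul_nonneg (norm_nonneg _) (ω.pos c).le) (fun n => le_rfl) f.summ

theorem summ_vpos {u : E} (hu : Bd ω u) (f : WE E ω) :
    Summable fun n : ℕ => ‖f.co n * u ^ n‖ :=
  Summable.of_nonneg_of_le (fun _ => norm_nonneg _)
    (fun n => (norm_mul_le _ _).trans (mul_le_mul_of_nonneg_left (hu n).1 (norm_nonneg _)))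
    (summ_nat f)

theorem summ_vneg {u : E} (hu : Bd ω u) (f : WE E ω) :
    Summable fun n : ℕ => ‖f.co (-n) * u ^ n‖ :=
  Summable.of_nonneg_of_le (fun _ => norm_nonneg _)
    (fun n => (norm_mul_le _ _).trans (mul_le_mul_of_nonneg_left (hu n).2 (norm_nonneg _)))
    (summ_nat' f)

theorem norm_vpos_le {u : E} (hu : Bd ω u) (f : WE E ω) : ‖vpos u f‖ ≤ ‖f‖ := by
  refine (norm_tsum_le_tsum_norm (summ_vpos hu f)).trans (le_trans ?_ (tsum_nat_le f))
  exact (summ_vpos hu f).tsum_le_tsum (fun n => (norm_mul_le _ _).trans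
    (mul_le_mul_of_nonneg_left (hu n).1 (norm_nonneg _))) (summ_nat f)

theorem norm_vneg_le {u : E} (hu : Bd ω u) (f : WE E ω) : ‖vneg u f‖ ≤ ‖f‖ := by
  refine (norm_tsum_le_tsum_norm (summ_vneg hu f)).trans (le_trans ?_ (tsum_nat_le' f))
  exact (summ_vneg hu f).tsum_le_tsum (fun n => (norm_mul_le _ _).trans
    (mul_le_mul_of_nonneg_left (hu n).2 (norm_nonneg _))) (summ_nat' f)

theorem vpos_add {u : E} (hu : Bd ω u) (f g : WE E ω) :
    vpos u (f + g) = vpos u f + vpos u g := by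
  unfold vpos
  rw [← (summ_vpos hu f).of_norm.tsum_add (summ_vpos hu g).of_norm]
  refine tsum_congr fun n => ?_
  rw [co_add]; ring

theorem vneg_add {u : E} (hu : Bd ω u) (f g : WE E ω) :
    vneg u (f + g) = vneg u f + vneg u g := by
  unfold vneg
  rw [← (summ_vneg hu f).of_norm.tsum_add (summ_vneg hu g).of_norm]
  refine tsum_congr fun n => ?_
  rw [co_add]; ring

theorem vpos_sub {u : E} (hu : Bd ω u) (f g : WE E ω) :
    vpos u (f - g) = vpos u f - vpos u g := by
  unfold vpos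
  rw [← (summ_vpos hu f).of_norm.tsum_sub (summ_vpos hu g).of_norm]
  refine tsum_congr fun n => ?_
  rw [co_sub]; ring

theorem vneg_sub {u : E} (hu : Bd ω u) (f g : WE E ω) :
    vneg u (f - g) = vneg u f - vneg u g := by
  unfold vneg
  rw [← (summ_vneg hu f).of_norm.tsum_sub (summ_vneg hu g).of_norm]
  refine tsum_congr fun n => ?_
  rw [co_sub]; ring

theorem vpos_cst (u c : E) : vpos u (cst ω c) = c := by
  unfold vpos
  rw [tsum_eq_single 0]
  · simp [co_cst]
  · intro n hn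
    rw [co_cst, if_neg (by exact_mod_cast hn), zero_mul]

theorem vneg_cst (u c : E) : vneg u (cst ω c) = c := by
  unfold vneg
  rw [tsum_eq_single 0]
  · simp [co_cst]
  · intro n hn
    have : (-(n : ℤ)) ≠ 0 := by
      simpa using hn
    rw [co_cst, if_neg this, zero_mul]

theorem vpos_zero (f : WE E ω) : vpos 0 f = f.co 0 := by
  unfold vpos
  rw [tsum_eq_single 0]
  · simp
  · intro n hn
    rw [zero_pow hn, mul_zero]

theorem vneg_zero (f : WE E ω) : vneg 0 f = f.co 0 := by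
  unfold vneg
  rw [tsum_eq_single 0]
  · simp
  · intro n hn
    rw [zero_pow hn, mul_zero]

/-- naturality -/
theorem vpos_map {φ : E →ₐ[ℂ] E'} (h : Ctr φ) {u : E} (hu : Bd ω u) (f : WE E ω) :
    vpos (φ u) (map h f) = φ (vpos u f) := by
  unfold vpos
  have h1 := (summ_vpos hu f).of_norm.hasSum.map φ h.cont
  rw [← h1.tsum_eq]
  refine tsum_congr fun k => ?_
  rw [co_map, Function.comp_apply, map_mul, map_pow]

theorem vneg_map {φ : E →ₐ[ℂ] E'} (h : Ctr φ) {u : E} (hu : Bd ω u) (f : WE E ω) :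
    vneg (φ u) (map h f) = φ (vneg u f) := by
  unfold vneg
  have h1 := (summ_vneg hu f).of_norm.hasSum.map φ h.cont
  rw [← h1.tsum_eq]
  refine tsum_congr fun k => ?_
  rw [co_map, Function.comp_apply, map_mul, map_pow]

/-- a series with exponents `≥ 0`: the value at a unit -/
theorem vpos_eq_val {f : WE E ω} (hf : Supp {k | 0 ≤ k} f) (t : Eˣ) :
    vpos (t : E) f = val t f := by
  unfold vpos val
  have hinj : Function.Injective (fun n : ℕ => (n : ℤ)) := Nat.cast_injective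
  rw [← hinj.tsum_eq (f := fun k : ℤ => f.co k * ((t ^ k : Eˣ) : E))]
  · refine tsum_congr fun n => ?_
    simp
  · intro k hk
    have h0 : 0 ≤ k := by
      by_contra h
      apply hk
      show f.co k * _ = 0
      rw [hf k (by simpa using h), zero_mul]
    obtain ⟨n, rfl⟩ := Int.eq_ofNat_of_zero_le h0
    exact ⟨n, rfl⟩

/-- a series with exponents `≤ 0`: the value at a unit -/
theorem vneg_eq_val {f : WE E ω} (hf : Supp {k | k ≤ 0} f) (t : Eˣ) :
    vneg ((t⁻¹ : Eˣ) : E) f = val t f := by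
  unfold vneg val
  have hinj : Function.Injective (fun n : ℕ => (-(n : ℤ))) := fun a b h => by
    have : (a : ℤ) = b := neg_injective h
    exact_mod_cast this
  rw [← hinj.tsum_eq (f := fun k : ℤ => f.co k * ((t ^ k : Eˣ) : E))]
  · refine tsum_congr fun n => ?_
    simp [zpow_neg]
  · intro k hk
    have h0 : k ≤ 0 := by
      by_contra h
      apply hk
      show f.co k * _ = 0
      rw [hf k (by simpa using h), zero_mul]
    obtain ⟨n, hn⟩ := Int.eq_ofNat_of_zero_le (neg_nonneg.2 h0)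
    exact ⟨n, by
      show -(n : ℤ) = k
      have : -k = (n : ℤ) := hn
      omega⟩

/-! ### Holomorphy for complex coefficients -/

theorem ctr_ofId {E : Type*} [NormedCommRing E] [NormedAlgebra ℂ E] [CompleteSpace E]
    [NormOneClass E] : Ctr (Algebra.ofId ℂ E) := ⟨fun c => by
  show ‖algebraMap ℂ E c‖ ≤ ‖c‖
  rw [norm_algebraMap']⟩

end WE

end Pool.Agent.NTW
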