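import Mathlib
import Pool.Agent.Lib_MP_1209e6_nt.Solve0
import Pool.Agent.Lib_MP_1209e6_nt.WE4
import Pool.Agent.Lib_MP_1209e6_nt.NatAna

/-!
# Values of the two sides of the node equation
-/

set_option autoImplicit false

open scoped BigOperators Topology
open Filter
noncomputable section
namespace Pool.Agent.NTW

set_option linter.unusedSectionVars false

open Pool.Agent.Lib_MP_1858fb_w (Wt)

variable {E : Type*} [NormedCommRing E] [NormedAlgebra ℂ E] [CompleteSpace E] {ω : Wt} {n : ℕ}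
variable {E' : Type*} [NormedCommRing E'] [NormedAlgebra ℂ E'] [CompleteSpace E']

theorem supp_aOf (c : Fin n → E) (r : Fin n → WE E ω) (i : Fin n) :
    WE.Supp {k | k ≤ 0} (aOf c r i) := by
  intro k hk
  have hk' : 0 < k := by simpa using hk
  unfold aOf
  rw [WE.co_add, WE.co_cst, if_neg (by omega), WE.co_proj_notMem (S := Sn), add_zero]
  simp only [Sn, Set.mem_setOf_eq]
  omega

theorem supp_bOf (c : Fin n → E) (r : Fin n → WE E ω) (i : Fin n) :
    WE.Supp {k | 0 ≤ k} (bOf c r i) := by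
  intro k hk
  have hk' : k < 0 := by simpa using hk
  unfold bOf
  rw [WE.co_sub, WE.co_cst, if_neg (by omega), WE.co_proj_notMem (S := Sp), sub_zero]
  simp only [Sp, Set.mem_setOf_eq]
  omega

/-- the starting points of the outer tube at `v = 1/ζ` -/
def aV (v : E) (c : Fin n → E) (r : Fin n → WE E ω) (i : Fin n) : E := WE.vneg v (aOf c r i)

/-- the starting points of the inner tube at `u = ζ` -/
def bV (u : E) (c : Fin n → E) (r : Fin n → WE E ω) (i : Fin n) : E := WE.vpos u (bOf c r i)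

theorem aV_inv (t : Eˣ) (c : Fin n → E) (r : Fin n → WE E ω) (i : Fin n) :
    aV ((t⁻¹ : Eˣ) : E) c r i = WE.val t (aOf c r i) := WE.vneg_eq_val (supp_aOf c r i) t

theorem bV_unit (t : Eˣ) (c : Fin n → E) (r : Fin n → WE E ω) (i : Fin n) :
    bV (t : E) c r i = WE.val t (bOf c r i) := WE.vpos_eq_val (supp_bOf c r i) t

theorem val_aOf_one [NormOneClass E] (hω : ∀ k, 1 ≤ ω.w k) (c : Fin n → E)
    (r : Fin n → WE E ω) (i : Fin n) : WE.val 1 (aOf c r i) = c i := by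
  unfold aOf
  rw [WE.val_add (S := Set.univ) (fun k _ => one_le_w hω k) (WE.supp_univ _) (WE.supp_univ _),
    WE.val_cst]
  show c i - neg1 (r i) + neg1 (r i) = c i
  ring

theorem val_sub_aOf_bOf {t : Eˣ} (ht : ∀ k : ℤ, ‖((t ^ k : Eˣ) : E)‖ ≤ ω.w k)
    (c : Fin n → E) (r : Fin n → WE E ω) (i : Fin n) :
    WE.val t (aOf c r i) - WE.val t (bOf c r i) = WE.val t (r i) := by
  rw [← WE.val_sub (S := Set.univ) (fun k _ => ht k) (WE.supp_univ _) (WE.supp_univ _),
    aOf_sub_bOf]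

theorem norm_aV_le [NormOneClass E] (hω : ∀ k, 1 ≤ ω.w k) {v : E} (hv : WE.Bd ω v)
    (c : Fin n → E) (r : Fin n → WE E ω) (i : Fin n) : ‖aV v c r i‖ ≤ ‖c‖ + 2 * ‖r‖ :=
  (WE.norm_vneg_le hv _).trans ((norm_le_pi_norm (aOf c r) i).trans (norm_aOf_le hω c r))

theorem norm_bV_le [NormOneClass E] (hω : ∀ k, 1 ≤ ω.w k) {u : E} (hu : WE.Bd ω u)
    (c : Fin n → E) (r : Fin n → WE E ω) (i : Fin n) : ‖bV u c r i‖ ≤ ‖c‖ + 2 * ‖r‖ :=
  (WE.norm_vpos_le hu _).trans ((norm_le_pi_norm (bOf c r) i).trans (norm_bOf_le hω c r))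

theorem aV_map [NormOneClass E] (hω : ∀ k, 1 ≤ ω.w k) {φ : E →ₐ[ℂ] E'} (h : WE.Ctr φ) {v : E}
    (hv : WE.Bd ω v) (c : Fin n → E) (r : Fin n → WE E ω) (i : Fin n) :
    φ (aV v c r i) = aV (φ v) (fun j => φ (c j)) (fun j => WE.map h (r j)) i := by
  unfold aV
  rw [← aOf_map hω h, WE.vneg_map h hv]

theorem bV_map [NormOneClass E] (hω : ∀ k, 1 ≤ ω.w k) {φ : E →ₐ[ℂ] E'} (h : WE.Ctr φ) {u : E}
    (hu : WE.Bd ω u) (c : Fin n → E) (r : Fin n → WE E ω) (i : Fin n) :
    φ (bV u c r i) = bV (φ u) (fun j => φ (c j)) (fun j => WE.map h (r j)) i := by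
  unfold bV
  rw [← bOf_map hω h, WE.vpos_map h hu]

/-- A solution of the node equation for all Banach algebras, natural for characters. -/
structure NatSol (n : ℕ) (ω : Wt) (δ : ℝ)
    (R : ∀ (E : Type) [NormedCommRing E] [NormedAlgebra ℂ E] [NormOneClass E] [CompleteSpace E],
      (Fin n → E) → Fin n → WE E ω) : Prop where
  nat : ∀ (E : Type) [NormedCommRing E] [NormedAlgebra ℂ E] [NormOneClass E] [CompleteSpace E]
    (φ : E →ₐ[ℂ] ℂ) (h : WE.Ctr φ) (c : Fin n → E), (∀ i, ‖c i‖ ≤ δ) →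
      (fun j => WE.map h (R E c j)) = R ℂ fun j => φ (c j)

/-- analyticity of the outer starting points -/
theorem aV_analytic {δ : ℝ} (hω : ∀ k : ℤ, (2 : ℝ) ^ k.natAbs ≤ ω.w k)
    {R : ∀ (E : Type) [NormedCommRing E] [NormedAlgebra ℂ E] [NormOneClass E] [CompleteSpace E],
      (Fin n → E) → Fin n → WE E ω} (hR : NatSol n ω δ R) {z₀ : ℂ} {c : ℂ → Fin n → ℂ}
    {v : ℂ → ℂ} (hc : ∀ i, AnalyticAt ℂ (fun z => c z i) z₀) (hv : AnalyticAt ℂ v z₀)
    (hcδ : ∀ i, ∀ᶠ z in 𝓝 z₀, ‖c z i‖ ≤ δ) (hv2 : ∀ᶠ z in 𝓝 z₀, ‖v z‖ ≤ 2) (i : Fin n) :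
    AnalyticAt ℂ (fun z => aV (v z) (c z) (R ℂ (c z)) i) z₀ := by
  have h1 : ∀ k, 1 ≤ ω.w k := fun k => (one_le_pow₀ (by norm_num)).trans (hω k)
  have := Pool.Agent.TubeN.analyticAt_of_natural (ι := Option (Fin n))
    (fun E _ _ _ _ a => aV (a none) (fun j => a (some j)) (R E fun j => a (some j)) i)
    (fun o => o.elim 2 fun _ => δ)
    (fun E _ _ _ _ φ hφ a ha => by
      have hv' : WE.Bd ω (a none) := WE.bd_of_norm_le hω (ha none)
      have h : WE.Ctr φ := ⟨hφ⟩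
      show φ (aV (a none) (fun j => a (some j)) (R E fun j => a (some j)) i) =
        aV (φ (a none)) (fun j => φ (a (some j))) (R ℂ fun j => φ (a (some j))) i
      rw [aV_map h1 h hv', hR.nat E φ h _ fun j => ha (some j)])
    (z₀ := z₀) (a := fun o z => o.elim (v z) fun j => c z j)
    (fun o => by cases o with
      | none => exact hv
      | some j => exact hc j)
    (fun o => by cases o with
      | none => exact hv2
      | some j => exact hcδ j)
  exact this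

/-- analyticity of the inner starting points -/
theorem bV_analytic {δ : ℝ} (hω : ∀ k : ℤ, (2 : ℝ) ^ k.natAbs ≤ ω.w k)
    {R : ∀ (E : Type) [NormedCommRing E] [NormedAlgebra ℂ E] [NormOneClass E] [CompleteSpace E],
      (Fin n → E) → Fin n → WE E ω} (hR : NatSol n ω δ R) {z₀ : ℂ} {c : ℂ → Fin n → ℂ}
    {u : ℂ → ℂ} (hc : ∀ i, AnalyticAt ℂ (fun z => c z i) z₀) (hu : AnalyticAt ℂ u z₀)
    (hcδ : ∀ i, ∀ᶠ z in 𝓝 z₀, ‖c z i‖ ≤ δ) (hu2 : ∀ᶠ z in 𝓝 z₀, ‖u z‖ ≤ 2) (i : Fin n) :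
    AnalyticAt ℂ (fun z => bV (u z) (c z) (R ℂ (c z)) i) z₀ := by
  have h1 : ∀ k, 1 ≤ ω.w k := fun k => (one_le_pow₀ (by norm_num)).trans (hω k)
  have := Pool.Agent.TubeN.analyticAt_of_natural (ι := Option (Fin n))
    (fun E _ _ _ _ a => bV (a none) (fun j => a (some j)) (R E fun j => a (some j)) i)
    (fun o => o.elim 2 fun _ => δ)
    (fun E _ _ _ _ φ hφ a ha => by
      have hv' : WE.Bd ω (a none) := WE.bd_of_norm_le hω (ha none)
      have h : WE.Ctr φ := ⟨hφ⟩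
      show φ (bV (a none) (fun j => a (some j)) (R E fun j => a (some j)) i) =
        bV (φ (a none)) (fun j => φ (a (some j))) (R ℂ fun j => φ (a (some j))) i
      rw [bV_map h1 h hv', hR.nat E φ h _ fun j => ha (some j)])
    (z₀ := z₀) (a := fun o z => o.elim (u z) fun j => c z j)
    (fun o => by cases o with
      | none => exact hu
      | some j => exact hc j)
    (fun o => by cases o with
      | none => exact hu2
      | some j => exact hcδ j)
  exact this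

end Pool.Agent.NTW
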