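import Mathlib
import Pool.Agent.Lib_MP_1209e6_nt.Values

/-!
# MP_1209e6_ag, line N: the germ of the glued tube

A germ is a family of maps `g_E : E ^ n × E → E ^ n`, one for each commutative Banach algebra `E`,
natural under contractive homomorphisms and with `|g (a, t)| ≤ L |t|`. Two germs `g₁`, `g₂` are
glued: `r = g₂ (b, τ₂) - g₁ (a, τ₁)` in the algebra of Laurent series, `a`, `b` the two parts
of `r` normalised at `ζ = 1`, and the new germ is the value at `ζ = exp w` of `a + g₁ (a, τ₁)`.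
-/

set_option autoImplicit false

open scoped BigOperators Topology
open Filter
noncomputable section
namespace Pool.Agent.NTW

set_option linter.unusedSectionVars false

open Pool.Agent.Lib_MP_1858fb_w (Wt)

/-- a family of maps on all commutative Banach algebras -/
abbrev Fam (n : ℕ) : Type 1 :=
  ∀ (E : Type) [NormedCommRing E] [NormedAlgebra ℂ E] [NormOneClass E] [CompleteSpace E],
    (Fin n → E) → E → Fin n → E

/-- natural and small; Lipschitz in the starting point -/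
structure IsGerm {n : ℕ} (g : Fam n) (δ L : ℝ) : Prop where
  nat : ∀ (E E' : Type) [NormedCommRing E] [NormedAlgebra ℂ E] [NormOneClass E] [CompleteSpace E]
    [NormedCommRing E'] [NormedAlgebra ℂ E'] [NormOneClass E'] [CompleteSpace E']
    (φ : E →ₐ[ℂ] E'), (∀ x, ‖φ x‖ ≤ ‖x‖) → ∀ (a : Fin n → E) (t : E), ‖a‖ ≤ δ → ‖t‖ ≤ δ →
      ∀ i, g E' (fun j => φ (a j)) (φ t) i = φ (g E a t i)
  bd : ∀ (E : Type) [NormedCommRing E] [NormedAlgebra ℂ E] [NormOneClass E] [CompleteSpace E]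
    (a : Fin n → E) (t : E), ‖a‖ ≤ δ → ‖t‖ ≤ δ → ‖g E a t‖ ≤ L * ‖t‖
  lip : ∀ (E : Type) [NormedCommRing E] [NormedAlgebra ℂ E] [NormOneClass E] [CompleteSpace E]
    (a a' : Fin n → E) (t : E), ‖a‖ ≤ δ → ‖a'‖ ≤ δ → ‖t‖ ≤ δ →
      ‖g E a t - g E a' t‖ ≤ L * ‖t‖ * ‖a - a'‖

/-! ### the two times -/

section times

variable {E : Type*} [NormedCommRing E] [NormedAlgebra ℂ E] [CompleteSpace E] {ω : Wt}
variable {E' : Type*} [NormedCommRing E'] [NormedAlgebra ℂ E'] [CompleteSpace E']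

/-- `η (e ^ x - e)` -/
def tm (η : ℂ) (x : E) : E := η • (ex x - algebraMap ℂ E (Complex.exp 1))

theorem map_tm {φ : E →ₐ[ℂ] E'} (h : WE.Ctr φ) (η : ℂ) (x : E) : φ (tm η x) = tm η (φ x) := by
  unfold tm
  rw [map_smul, map_sub, map_ex h.cont, AlgHom.commutes]

theorem tm_one (η : ℂ) : tm η (1 : E) = 0 := by
  have h : ex (1 : E) = algebraMap ℂ E (Complex.exp 1) := by
    have h1 := map_ex (E := ℂ) (E' := E) (θ := Algebra.ofId ℂ E)
      (continuous_algebraMap ℂ E) (1 : ℂ)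
    rw [map_one, ex_complex] at h1
    exact h1.symm
  unfold tm
  rw [h, sub_self, smul_zero]

theorem norm_tm_le [NormOneClass E] (η : ℂ) (x : E) (hx : ‖x‖ ≤ 2) : ‖tm η x‖ ≤ 11 * ‖η‖ := by
  have h1 : Real.exp 1 ≤ 2.72 := (Real.exp_one_lt_d9.le.trans (by norm_num))
  have h2 : Real.exp 2 ≤ 7.4 := by
    have : Real.exp 2 = Real.exp 1 * Real.exp 1 := by rw [← Real.exp_add]; norm_num
    rw [this]
    nlinarith [Real.exp_pos 1]
  have h3 : ‖ex x‖ ≤ 7.4 := (norm_ex_le x).trans ((Real.exp_le_exp.2 hx).trans h2)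
  have h4 : ‖algebraMap ℂ E (Complex.exp 1)‖ ≤ 2.72 := by
    rw [norm_algebraMap', Complex.norm_exp]
    simpa using h1
  unfold tm
  rw [norm_smul]
  calc ‖η‖ * ‖ex x - algebraMap ℂ E (Complex.exp 1)‖ ≤ ‖η‖ * (7.4 + 2.72) :=
        mul_le_mul_of_nonneg_left ((norm_sub_le _ _).trans (add_le_add h3 h4)) (norm_nonneg _)
    _ ≤ 11 * ‖η‖ := by nlinarith [norm_nonneg η]

/-- `τ₁ = η (e ^ ζ - e)` -/
def tau1 (E : Type*) [NormedCommRing E] [NormedAlgebra ℂ E] [CompleteSpace E] (ω : Wt) (η : ℂ) :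
    WE E ω := tm η ((WE.zt E ω : (WE E ω)ˣ) : WE E ω)

/-- `τ₂ = η (e ^ (1 / ζ) - e)` -/
def tau2 (E : Type*) [NormedCommRing E] [NormedAlgebra ℂ E] [CompleteSpace E] (ω : Wt) (η : ℂ) :
    WE E ω := tm η (((WE.zt E ω)⁻¹ : (WE E ω)ˣ) : WE E ω)

theorem map_tau1 {φ : E →ₐ[ℂ] E'} (h : WE.Ctr φ) (η : ℂ) :
    WE.map h (tau1 E ω η) = tau1 E' ω η := by
  unfold tau1
  rw [map_tm (WE.ctr_map h)]
  congr 1
  show WE.map h (WE.mono ω 1 1) = WE.mono ω 1 1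
  rw [WE.map_mono, map_one]

theorem map_tau2 {φ : E →ₐ[ℂ] E'} (h : WE.Ctr φ) (η : ℂ) :
    WE.map h (tau2 E ω η) = tau2 E' ω η := by
  unfold tau2
  rw [map_tm (WE.ctr_map h)]
  congr 1
  show WE.map h (WE.mono ω (-1) 1) = WE.mono ω (-1) 1
  rw [WE.map_mono, map_one]

theorem val_tau1 (t : Eˣ) (ht : ∀ k : ℤ, ‖((t ^ k : Eˣ) : E)‖ ≤ ω.w k) (η : ℂ) :
    WE.val t (tau1 E ω η) = tm η (t : E) := by
  unfold tau1
  have h := map_tm (WE.ctr_ev t ht) η ((WE.zt E ω : (WE E ω)ˣ) : WE E ω)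
  rw [WE.ev_apply, WE.ev_apply, WE.val_zt] at h
  exact h

theorem val_tau2 (t : Eˣ) (ht : ∀ k : ℤ, ‖((t ^ k : Eˣ) : E)‖ ≤ ω.w k) (η : ℂ) :
    WE.val t (tau2 E ω η) = tm η ((t⁻¹ : Eˣ) : E) := by
  unfold tau2
  have h := map_tm (WE.ctr_ev t ht) η (((WE.zt E ω)⁻¹ : (WE E ω)ˣ) : WE E ω)
  rw [WE.ev_apply, WE.ev_apply, WE.val_zt_inv] at h
  exact h

theorem norm_tau1_le [NormOneClass E] (η : ℂ) : ‖tau1 E w2 η‖ ≤ 11 * ‖η‖ := by
  refine norm_tm_le η _ ?_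
  show ‖WE.mono w2 1 (1 : E)‖ ≤ 2
  rw [WE.norm_mono, norm_one, w2_apply]
  norm_num

theorem norm_tau2_le [NormOneClass E] (η : ℂ) : ‖tau2 E w2 η‖ ≤ 11 * ‖η‖ := by
  refine norm_tm_le η _ ?_
  show ‖WE.mono w2 (-1) (1 : E)‖ ≤ 2
  rw [WE.norm_mono, norm_one, w2_apply]
  norm_num

end times

theorem one_le_w2 (k : ℤ) : (1 : ℝ) ≤ w2.w k := by
  rw [w2_apply]
  exact one_le_pow₀ (by norm_num)

/-! ### the node equation for germs -/

section node

variable {n : ℕ}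

/-- the two germs can be glued -/
structure Gl {n : ℕ} (g1 g2 : Fam n) (δ L : ℝ) (η : ℂ) : Prop where
  pos : 0 < δ
  posL : 0 ≤ L
  germ1 : IsGerm g1 δ L
  germ2 : IsGerm g2 δ L
  small : 11 * ‖η‖ ≤ δ
  contr : L * (11 * ‖η‖) ≤ 1 / 8
  contr' : L * (11 * ‖η‖) ≤ 1 / 8 * δ

/-- the equation for `r` -/
def NodeEq (g1 g2 : Fam n) (δ : ℝ) (η : ℂ) (E : Type) [NormedCommRing E] [NormedAlgebra ℂ E]
    [NormOneClass E] [CompleteSpace E] (c : Fin n → E) (r : Fin n → WE E w2) : Prop :=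
  ‖r‖ ≤ δ / 4 ∧ g2 (WE E w2) (bOf c r) (tau2 E w2 η) - g1 (WE E w2) (aOf c r) (tau1 E w2 η) = r

variable {g1 g2 : Fam n} {δ L : ℝ} {η : ℂ}

theorem Gl.exists_eq (G : Gl g1 g2 δ L η) (E : Type) [NormedCommRing E] [NormedAlgebra ℂ E]
    [NormOneClass E] [CompleteSpace E] (c : Fin n → E) (hc : ‖c‖ ≤ δ / 2) :
    ∃ r : Fin n → WE E w2, NodeEq g1 g2 δ η E c r ∧ ∀ r', NodeEq g1 g2 δ η E c r' → r' = r := by
  have hδ := G.pos
  have hL := G.posL
  have ht1 : ‖tau1 E w2 η‖ ≤ δ := (norm_tau1_le η).trans G.small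
  have ht2 : ‖tau2 E w2 η‖ ≤ δ := (norm_tau2_le η).trans G.small
  have h1 : L * ‖tau1 E w2 η‖ ≤ L * (11 * ‖η‖) :=
    mul_le_mul_of_nonneg_left (norm_tau1_le η) hL
  have h2 : L * ‖tau2 E w2 η‖ ≤ L * (11 * ‖η‖) :=
    mul_le_mul_of_nonneg_left (norm_tau2_le η) hL
  have e : 2 * (1 / 8 : ℝ) * δ = δ / 4 := by ring
  have := solve (ω := w2) one_le_w2 (δ := δ) (ε := 1 / 8) hδ.le (by norm_num) le_rfl
    (fun a => g1 (WE E w2) a (tau1 E w2 η)) (fun b => g2 (WE E w2) b (tau2 E w2 η))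
    (fun a ha => (G.germ1.bd _ a _ ha ht1).trans (h1.trans G.contr'))
    (fun a ha => (G.germ2.bd _ a _ ha ht2).trans (h2.trans G.contr'))
    (fun a a' ha ha' => (G.germ1.lip _ a a' _ ha ha' ht1).trans
      (mul_le_mul_of_nonneg_right (h1.trans G.contr) (norm_nonneg _)))
    (fun a a' ha ha' => (G.germ2.lip _ a a' _ ha ha' ht2).trans
      (mul_le_mul_of_nonneg_right (h2.trans G.contr) (norm_nonneg _))) c hc
  rw [e] at this
  obtain ⟨r, hr1, hr2, hr3⟩ := this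
  exact ⟨r, ⟨hr1, hr2⟩, fun r' h => hr3 r' h.1 h.2⟩

/-- the solution (`0` if there is none) -/
def solR (g1 g2 : Fam n) (δ : ℝ) (η : ℂ) (E : Type) [NormedCommRing E] [NormedAlgebra ℂ E]
    [NormOneClass E] [CompleteSpace E] (c : Fin n → E) : Fin n → WE E w2 :=
  open Classical in if h : ∃ r, NodeEq g1 g2 δ η E c r then h.choose else 0

theorem Gl.solR_eq (G : Gl g1 g2 δ L η) {E : Type} [NormedCommRing E] [NormedAlgebra ℂ E]
    [NormOneClass E] [CompleteSpace E] {c : Fin n → E} (hc : ‖c‖ ≤ δ / 2) :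
    NodeEq g1 g2 δ η E c (solR g1 g2 δ η E c) := by
  obtain ⟨r, hr, -⟩ := G.exists_eq E c hc
  have h : ∃ r, NodeEq g1 g2 δ η E c r := ⟨r, hr⟩
  unfold solR
  rw [dif_pos h]
  exact h.choose_spec

theorem Gl.solR_unique (G : Gl g1 g2 δ L η) {E : Type} [NormedCommRing E] [NormedAlgebra ℂ E]
    [NormOneClass E] [CompleteSpace E] {c : Fin n → E} (hc : ‖c‖ ≤ δ / 2) {r : Fin n → WE E w2}
    (hr : NodeEq g1 g2 δ η E c r) : r = solR g1 g2 δ η E c := by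
  obtain ⟨r0, -, h0⟩ := G.exists_eq E c hc
  rw [h0 r hr, h0 _ (G.solR_eq hc)]

theorem Gl.norm_aOf (G : Gl g1 g2 δ L η) {E : Type} [NormedCommRing E] [NormedAlgebra ℂ E]
    [NormOneClass E] [CompleteSpace E] {c : Fin n → E} (hc : ‖c‖ ≤ δ / 2) :
    ‖aOf c (solR g1 g2 δ η E c)‖ ≤ δ := by
  have h := (G.solR_eq hc).1
  exact (norm_aOf_le one_le_w2 _ _).trans (by linarith)

theorem Gl.norm_bOf (G : Gl g1 g2 δ L η) {E : Type} [NormedCommRing E] [NormedAlgebra ℂ E]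
    [NormOneClass E] [CompleteSpace E] {c : Fin n → E} (hc : ‖c‖ ≤ δ / 2) :
    ‖bOf c (solR g1 g2 δ η E c)‖ ≤ δ := by
  have h := (G.solR_eq hc).1
  exact (norm_bOf_le one_le_w2 _ _).trans (by linarith)

/-- the solution is natural -/
theorem Gl.solR_map (G : Gl g1 g2 δ L η) {E E' : Type} [NormedCommRing E] [NormedAlgebra ℂ E]
    [NormOneClass E] [CompleteSpace E] [NormedCommRing E'] [NormedAlgebra ℂ E'] [NormOneClass E']
    [CompleteSpace E'] {φ : E →ₐ[ℂ] E'} (h : WE.Ctr φ) {c : Fin n → E} (hc : ‖c‖ ≤ δ / 2) :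
    (fun j => WE.map h (solR g1 g2 δ η E c j)) = solR g1 g2 δ η E' fun j => φ (c j) := by
  have hδ := G.pos
  have hcj : ∀ j, ‖c j‖ ≤ δ / 2 := fun j => (norm_le_pi_norm c j).trans hc
  have hc' : ‖fun j => φ (c j)‖ ≤ δ / 2 :=
    (pi_norm_le_iff_of_nonneg (by linarith)).2 fun j => (h.le _).trans (hcj j)
  apply G.solR_unique hc'
  obtain ⟨h1, h2⟩ := G.solR_eq hc
  refine ⟨(pi_norm_le_iff_of_nonneg (by linarith)).2 fun j =>
    (WE.norm_map_le h _).trans ((norm_le_pi_norm _ j).trans h1), ?_⟩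
  have ht1 : ‖tau1 E w2 η‖ ≤ δ := (norm_tau1_le η).trans G.small
  have ht2 : ‖tau2 E w2 η‖ ≤ δ := (norm_tau2_le η).trans G.small
  set r := solR g1 g2 δ η E c with hr
  have ha : (fun j => WE.map h (aOf c r j)) =
      aOf (fun j => φ (c j)) (fun j => WE.map h (r j)) := funext fun j => aOf_map one_le_w2 h c r j
  have hb : (fun j => WE.map h (bOf c r j)) =
      bOf (fun j => φ (c j)) (fun j => WE.map h (r j)) := funext fun j => bOf_map one_le_w2 h c r j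
  have hn1 := G.germ1.nat (WE E w2) (WE E' w2) (WE.map h) (WE.norm_map_le h) (aOf c r)
    (tau1 E w2 η) (G.norm_aOf hc) ht1
  have hn2 := G.germ2.nat (WE E w2) (WE E' w2) (WE.map h) (WE.norm_map_le h) (bOf c r)
    (tau2 E w2 η) (G.norm_bOf hc) ht2
  rw [ha, map_tau1] at hn1
  rw [hb, map_tau2] at hn2
  funext j
  rw [Pi.sub_apply, hn1, hn2, ← map_sub, ← Pi.sub_apply, h2]

/-- the solution in the form needed by `aV_analytic`, `bV_analytic` -/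
theorem Gl.natSol (G : Gl g1 g2 δ L η) :
    NatSol n w2 (δ / 2) fun E _ _ _ _ c => solR g1 g2 δ η E c :=
  ⟨fun E _ _ _ _ φ h c hc => G.solR_map h
    ((pi_norm_le_iff_of_nonneg (by linarith [G.pos])).2 hc)⟩

/-- `Y = a + g₁ (a, τ₁)` -/
def YOf (g1 g2 : Fam n) (δ : ℝ) (η : ℂ) (E : Type) [NormedCommRing E] [NormedAlgebra ℂ E]
    [NormOneClass E] [CompleteSpace E] (c : Fin n → E) : Fin n → WE E w2 := fun i =>
  aOf c (solR g1 g2 δ η E c) i + g1 (WE E w2) (aOf c (solR g1 g2 δ η E c)) (tau1 E w2 η) i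

theorem Gl.YOf_eq (G : Gl g1 g2 δ L η) {E : Type} [NormedCommRing E] [NormedAlgebra ℂ E]
    [NormOneClass E] [CompleteSpace E] {c : Fin n → E} (hc : ‖c‖ ≤ δ / 2) (i : Fin n) :
    YOf g1 g2 δ η E c i = bOf c (solR g1 g2 δ η E c) i +
      g2 (WE E w2) (bOf c (solR g1 g2 δ η E c)) (tau2 E w2 η) i := by
  have h1 := congrFun (G.solR_eq hc).2 i
  rw [Pi.sub_apply] at h1
  have h2 := aOf_sub_bOf c (solR g1 g2 δ η E c) i
  unfold YOf
  rw [← h1] at h2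
  linear_combination h2

theorem Gl.norm_YOf (G : Gl g1 g2 δ L η) {E : Type} [NormedCommRing E] [NormedAlgebra ℂ E]
    [NormOneClass E] [CompleteSpace E] {c : Fin n → E} (hc : ‖c‖ ≤ δ / 2) (i : Fin n) :
    ‖YOf g1 g2 δ η E c i‖ ≤ 2 * δ := by
  have hδ := G.pos
  have ht1 : ‖tau1 E w2 η‖ ≤ δ := (norm_tau1_le η).trans G.small
  have h1 : L * ‖tau1 E w2 η‖ ≤ L * (11 * ‖η‖) :=
    mul_le_mul_of_nonneg_left (norm_tau1_le η) G.posL
  have h2 := (norm_le_pi_norm (aOf c (solR g1 g2 δ η E c)) i).trans (G.norm_aOf hc)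
  have h3 := (norm_le_pi_norm _ i).trans (G.germ1.bd _ _ _ (G.norm_aOf hc) ht1)
  have h4 := G.contr'
  refine (norm_add_le _ _).trans ?_
  linarith

theorem Gl.YOf_map (G : Gl g1 g2 δ L η) {E E' : Type} [NormedCommRing E] [NormedAlgebra ℂ E]
    [NormOneClass E] [CompleteSpace E] [NormedCommRing E'] [NormedAlgebra ℂ E'] [NormOneClass E']
    [CompleteSpace E'] {φ : E →ₐ[ℂ] E'} (h : WE.Ctr φ) {c : Fin n → E} (hc : ‖c‖ ≤ δ / 2)
    (i : Fin n) :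
    WE.map h (YOf g1 g2 δ η E c i) = YOf g1 g2 δ η E' (fun j => φ (c j)) i := by
  have ht1 : ‖tau1 E w2 η‖ ≤ δ := (norm_tau1_le η).trans G.small
  have hn1 := G.germ1.nat (WE E w2) (WE E' w2) (WE.map h) (WE.norm_map_le h)
    (aOf c (solR g1 g2 δ η E c)) (tau1 E w2 η) (G.norm_aOf hc) ht1 i
  have ha : (fun j => WE.map h (aOf c (solR g1 g2 δ η E c) j)) =
      aOf (fun j => φ (c j)) (solR g1 g2 δ η E' fun j => φ (c j)) := by
    rw [← G.solR_map h hc]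
    exact funext fun j => aOf_map one_le_w2 h c _ j
  rw [ha, map_tau1] at hn1
  unfold YOf
  rw [hn1, map_add]
  congr 1
  exact congrFun ha i

/-- values of the curve on the outer side -/
theorem Gl.val_YOf_a (G : Gl g1 g2 δ L η) {E : Type} [NormedCommRing E] [NormedAlgebra ℂ E]
    [NormOneClass E] [CompleteSpace E] {c : Fin n → E} (hc : ‖c‖ ≤ δ / 2) {t : Eˣ}
    (ht : ∀ k : ℤ, ‖((t ^ k : Eˣ) : E)‖ ≤ w2.w k) (i : Fin n) :
    WE.val t (YOf g1 g2 δ η E c i) = aV ((t⁻¹ : Eˣ) : E) c (solR g1 g2 δ η E c) i +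
      g1 E (aV ((t⁻¹ : Eˣ) : E) c (solR g1 g2 δ η E c)) (tm η (t : E)) i := by
  have ht1 : ‖tau1 E w2 η‖ ≤ δ := (norm_tau1_le η).trans G.small
  have hn1 := G.germ1.nat (WE E w2) E (WE.ev t ht) (WE.norm_ev_le t ht)
    (aOf c (solR g1 g2 δ η E c)) (tau1 E w2 η) (G.norm_aOf hc) ht1 i
  have ha : (fun j => WE.ev t ht (aOf c (solR g1 g2 δ η E c) j)) =
      aV ((t⁻¹ : Eˣ) : E) c (solR g1 g2 δ η E c) :=
    funext fun j => (aV_inv t c _ j).symm
  rw [ha, WE.ev_apply, WE.ev_apply, val_tau1 t ht] at hn1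
  rw [hn1, aV_inv]
  unfold YOf
  exact WE.val_add (S := Set.univ) (fun k _ => ht k) (WE.supp_univ _) (WE.supp_univ _)

/-- values of the curve on the inner side -/
theorem Gl.val_YOf_b (G : Gl g1 g2 δ L η) {E : Type} [NormedCommRing E] [NormedAlgebra ℂ E]
    [NormOneClass E] [CompleteSpace E] {c : Fin n → E} (hc : ‖c‖ ≤ δ / 2) {t : Eˣ}
    (ht : ∀ k : ℤ, ‖((t ^ k : Eˣ) : E)‖ ≤ w2.w k) (i : Fin n) :
    WE.val t (YOf g1 g2 δ η E c i) = bV (t : E) c (solR g1 g2 δ η E c) i +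
      g2 E (bV (t : E) c (solR g1 g2 δ η E c)) (tm η ((t⁻¹ : Eˣ) : E)) i := by
  have ht2 : ‖tau2 E w2 η‖ ≤ δ := (norm_tau2_le η).trans G.small
  have hn2 := G.germ2.nat (WE E w2) E (WE.ev t ht) (WE.norm_ev_le t ht)
    (bOf c (solR g1 g2 δ η E c)) (tau2 E w2 η) (G.norm_bOf hc) ht2 i
  have hb : (fun j => WE.ev t ht (bOf c (solR g1 g2 δ η E c) j)) =
      bV (t : E) c (solR g1 g2 δ η E c) :=
    funext fun j => (bV_unit t c _ j).symm
  rw [hb, WE.ev_apply, WE.ev_apply, val_tau2 t ht] at hn2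
  rw [hn2, bV_unit, G.YOf_eq hc]
  exact WE.val_add (S := Set.univ) (fun k _ => ht k) (WE.supp_univ _) (WE.supp_univ _)

theorem Gl.val_YOf_one (G : Gl g1 g2 δ L η) {E : Type} [NormedCommRing E] [NormedAlgebra ℂ E]
    [NormOneClass E] [CompleteSpace E] {c : Fin n → E} (hc : ‖c‖ ≤ δ / 2) (i : Fin n) :
    WE.val 1 (YOf g1 g2 δ η E c i) = c i := by
  have ht : ∀ k : ℤ, ‖(((1 : Eˣ) ^ k : Eˣ) : E)‖ ≤ w2.w k := one_le_w one_le_w2
  rw [G.val_YOf_a hc ht i, aV_inv, val_aOf_one one_le_w2]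
  have ha : aV (((1 : Eˣ)⁻¹ : Eˣ) : E) c (solR g1 g2 δ η E c) = c :=
    funext fun j => (aV_inv 1 c _ j).trans (val_aOf_one one_le_w2 _ _ _)
  rw [ha, Units.val_one, tm_one]
  have h1 := G.germ1.bd E c 0 (hc.trans (by linarith [G.pos])) (by rw [norm_zero]; exact G.pos.le)
  rw [norm_zero, mul_zero] at h1
  have h2 : g1 E c 0 = 0 := norm_le_zero_iff.1 h1
  rw [h2, Pi.zero_apply, add_zero]

/-- the germ of the glued tube -/
def gl (g1 g2 : Fam n) (δ : ℝ) (η : ℂ) : Fam n := fun E _ _ _ _ c w i =>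
  WE.val (eU w) (YOf g1 g2 δ η E c i) - c i

theorem gl_apply (g1 g2 : Fam n) (δ : ℝ) (η : ℂ) (E : Type) [NormedCommRing E]
    [NormedAlgebra ℂ E] [NormOneClass E] [CompleteSpace E] (c : Fin n → E) (w : E) (i : Fin n) :
    c i + gl g1 g2 δ η E c w i = WE.val (eU w) (YOf g1 g2 δ η E c i) := by
  unfold gl
  ring

/-- the germ of the glued tube is natural and small -/
theorem Gl.nat_bd (G : Gl g1 g2 δ L η) {δ' : ℝ} (h1 : δ' ≤ δ / 2) (h2 : δ' ≤ 1 / 16) :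
    (∀ (E E' : Type) [NormedCommRing E] [NormedAlgebra ℂ E] [NormOneClass E] [CompleteSpace E]
      [NormedCommRing E'] [NormedAlgebra ℂ E'] [NormOneClass E'] [CompleteSpace E']
      (φ : E →ₐ[ℂ] E'), (∀ x, ‖φ x‖ ≤ ‖x‖) → ∀ (a : Fin n → E) (t : E), ‖a‖ ≤ δ' → ‖t‖ ≤ δ' →
        ∀ i, gl g1 g2 δ η E' (fun j => φ (a j)) (φ t) i = φ (gl g1 g2 δ η E a t i)) ∧
    (∀ (E : Type) [NormedCommRing E] [NormedAlgebra ℂ E] [NormOneClass E] [CompleteSpace E]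
      (a : Fin n → E) (t : E), ‖a‖ ≤ δ' → ‖t‖ ≤ δ' → ‖gl g1 g2 δ η E a t‖ ≤ 4 * δ * ‖t‖) := by
  have hδ := G.pos
  refine ⟨?_, ?_⟩
  · intro E E' _ _ _ _ _ _ _ _ φ hφ a t ha ht i
    have h : WE.Ctr φ := ⟨hφ⟩
    have hw := WE.eU_weight (ω := w2) (fun k => le_of_eq (w2_apply k).symm) (w := t)
      (ht.trans (h2.trans (by norm_num)))
    unfold gl
    rw [← G.YOf_map h (ha.trans h1), ← map_eU h, WE.val_map h (S := Set.univ) (fun k _ => hw k)
      (WE.supp_univ _), map_sub]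
  · intro E _ _ _ _ a t ha ht
    refine (pi_norm_le_iff_of_nonneg (by positivity)).2 fun i => ?_
    have h3 := WE.val_eU_sub_le (ω := w2) (fun k => le_of_eq (w2_apply k).symm) (v := t) (w := 0)
      (ht.trans h2) (by rw [norm_zero]; norm_num) (YOf g1 g2 δ η E a i)
    rw [eU_zero, G.val_YOf_one (ha.trans h1), sub_zero] at h3
    have h4 := G.norm_YOf (ha.trans h1) i
    refine h3.trans ?_
    nlinarith [norm_nonneg t]

end node

end Pool.Agent.NTW
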