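import Pool.Agent.Lib_MP_1209e6_kc.U0

/-! TRACE (auxiliary part, no germs): identity theorem for curves of points on the outer region
`1/2 < ‖ζ‖`, the points `ζ_k = log (e + t/η) + 2 π i k`, and the one variable identity theorem. -/

set_option autoImplicit false

open Filter Topology Pool.Agent.CampanaFlow Pool.Agent.CampanaK

namespace Pool.Agent.TubeN

variable {R : Type} [CommRing R] [Algebra ℂ R]

/-- Identity theorem for the values of `f` along a curve of points. -/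
theorem tr_ident {U : Set ℂ} (hU : IsOpen U) (hUc : IsPreconnected U) {γ : ℂ → R →ₐ[ℂ] ℂ}
    {B : Set ℂ} (hγ : IsCurve U γ B) (f : R) {w₀ : ℂ} (hw₀ : w₀ ∈ U) (hw₀B : w₀ ∉ B)
    (h : ∃ᶠ w in 𝓝[≠] w₀, γ w f = 0) : ∀ w ∈ U, w ∉ B → γ w f = 0 := by
  have hpre : IsPreconnected (U \ B) := preconnU hU hUc B hγ.disc
  have han : AnalyticOnNhd ℂ (fun w => γ w f) (U \ B) := fun w hw => hγ.ana f w hw.1 hw.2
  intro w hw hwB
  exact han.eqOn_zero_of_preconnected_of_frequently_eq_zero hpre ⟨hw₀, hw₀B⟩ h ⟨hw, hwB⟩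

/-- The outer region is preconnected. -/
theorem tr_outer_preconn (r : ℝ) (hr : 0 < r) : IsPreconnected {ζ : ℂ | r < ‖ζ‖} := by
  have h1 : {ζ : ℂ | r < ‖ζ‖} = Complex.exp '' {w : ℂ | Real.log r < w.re} := by
    ext ζ
    simp only [Set.mem_ofPred_eq, Set.mem_image]
    constructor
    · intro h
      have hζ : ζ ≠ 0 := by
        intro h0
        rw [h0, norm_zero] at h
        linarith
      refine ⟨Complex.log ζ, ?_, Complex.exp_log hζ⟩
      rw [Complex.log_re]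
      exact Real.log_lt_log hr h
    · rintro ⟨w, hw, rfl⟩
      rw [Complex.norm_exp, ← Real.exp_log hr]
      exact Real.exp_lt_exp.2 hw
  rw [h1]
  refine IsPreconnected.image ?_ _ Complex.continuous_exp.continuousOn
  exact (convex_halfSpace_re_gt _).isPreconnected

/-- The inner region without the origin is preconnected. -/
theorem tr_inner_preconn (r : ℝ) (hr : 0 < r) : IsPreconnected {ζ : ℂ | ζ ≠ 0 ∧ ‖ζ‖ < r} := by
  have h1 : {ζ : ℂ | ζ ≠ 0 ∧ ‖ζ‖ < r} = Complex.exp '' {w : ℂ | w.re < Real.log r} := by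
    ext ζ
    simp only [Set.mem_ofPred_eq, Set.mem_image]
    constructor
    · rintro ⟨hζ, h⟩
      refine ⟨Complex.log ζ, ?_, Complex.exp_log hζ⟩
      rw [Complex.log_re]
      exact Real.log_lt_log (norm_pos_iff.2 hζ) h
    · rintro ⟨w, hw, rfl⟩
      refine ⟨Complex.exp_ne_zero _, ?_⟩
      rw [Complex.norm_exp, ← Real.exp_log hr]
      exact Real.exp_lt_exp.2 hw
  rw [h1]
  refine IsPreconnected.image ?_ _ Complex.continuous_exp.continuousOn
  exact (convex_halfSpace_re_lt _).isPreconnected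

/-- The points `ζ_k` with `η (e^{ζ_k} - e) = t` exactly. -/
theorem tr_zeta {η t : ℂ} (hη : η ≠ 0) (ht : Complex.exp 1 + t / η ≠ 0) (r : ℝ) :
    ∃ z : ℕ → ℂ, (∀ k, r < ‖z k‖) ∧ (∀ k, z k ≠ 0) ∧
      (∀ k, η * (Complex.exp (z k) - Complex.exp 1) = t) ∧ Tendsto (fun k => (z k)⁻¹) atTop (𝓝 0) := by
  obtain ⟨l, hl⟩ : ∃ l : ℂ, l = Complex.log (Complex.exp 1 + t / η) := ⟨_, rfl⟩
  have hexp : ∀ k : ℕ, Complex.exp (l + k * (2 * Real.pi * Complex.I)) = Complex.exp 1 + t / η := by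
    intro k
    rw [Complex.exp_add, hl, Complex.exp_log ht, Complex.exp_nat_mul_two_pi_mul_I, mul_one]
  have htend : Tendsto (fun k : ℕ => ‖l + k * (2 * Real.pi * Complex.I)‖) atTop atTop := by
    have h1 : ∀ k : ℕ, (k : ℝ) - ‖l‖ ≤ ‖l + k * (2 * Real.pi * Complex.I)‖ := by
      intro k
      have h2 : ‖(k : ℂ) * (2 * Real.pi * Complex.I)‖ = k * (2 * Real.pi) := by
        rw [norm_mul, norm_mul, norm_mul, Complex.norm_I, Complex.norm_natCast, Complex.norm_real,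
          Real.norm_of_nonneg Real.pi_pos.le]
        simp
      have h3 : ‖(k : ℂ) * (2 * Real.pi * Complex.I)‖ - ‖l‖ ≤ ‖l + k * (2 * Real.pi * Complex.I)‖ := by
        rw [add_comm]
        exact norm_sub_le_norm_add _ _
      rw [h2] at h3
      have h4 : (k : ℝ) ≤ k * (2 * Real.pi) := by
        have := Real.pi_gt_three
        have hk : (0 : ℝ) ≤ k := Nat.cast_nonneg k
        nlinarith
      linarith
    refine tendsto_atTop_mono h1 ?_
    exact tendsto_atTop_add_const_right _ _ tendsto_natCast_atTop_atTop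
  obtain ⟨N, hN⟩ := (tendsto_atTop.1 htend (max r 0 + 1)).exists_forall_of_atTop
  refine ⟨fun k => l + (k + N : ℕ) * (2 * Real.pi * Complex.I), fun k => ?_, fun k => ?_, fun k => ?_, ?_⟩
  · have := hN (k + N) (Nat.le_add_left _ _)
    have h5 := le_max_left r 0
    linarith
  · have := hN (k + N) (Nat.le_add_left _ _)
    have h5 := le_max_right r 0
    intro h0
    have h0' : l + (k + N : ℕ) * (2 * Real.pi * Complex.I) = 0 := h0
    rw [h0', norm_zero] at this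
    linarith
  · rw [hexp]
    field_simp
    ring
  · have h6 : Tendsto (fun k : ℕ => l + k * (2 * Real.pi * Complex.I)) atTop (Bornology.cobounded ℂ) :=
      tendsto_norm_atTop_iff_cobounded.1 htend
    have h7 := tendsto_inv₀_cobounded.comp h6
    exact h7.comp (tendsto_add_atTop_nat N)

/-- One variable identity theorem on a disc. -/
theorem tr_disc {h : ℂ → ℂ} {r : ℝ} (hr : 0 < r) (han : AnalyticOnNhd ℂ h (Metric.ball 0 r))
    (s : ℕ → ℂ) (hs0 : ∀ k, s k ≠ 0) (hs : Tendsto s atTop (𝓝 0)) (hz : ∀ k, h (s k) = 0) :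
    ∀ x ∈ Metric.ball (0 : ℂ) r, h x = 0 := by
  have hpre : IsPreconnected (Metric.ball (0 : ℂ) r) := (convex_ball 0 r).isPreconnected
  have h1 : Tendsto s atTop (𝓝[≠] 0) :=
    tendsto_nhdsWithin_iff.2 ⟨hs, Eventually.of_forall hs0⟩
  have h2 : ∃ᶠ x in 𝓝[≠] (0 : ℂ), h x = 0 := by
    have h3 : ∃ᶠ k in atTop, h (s k) = 0 := Frequently.of_forall hz
    exact h1.frequently h3
  intro x hx
  exact han.eqOn_zero_of_preconnected_of_frequently_eq_zero hpre (Metric.mem_ball_self hr) h2 hx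

/-- The trace: a function which vanishes on a small piece of the glued curve vanishes on all tubes
`s ↦ Ψ s t`. -/
theorem tr_trace {γ : ℂ → R →ₐ[ℂ] ℂ} {B : Set ℂ} (hγ : IsCurve {ζ : ℂ | 1 / 2 < ‖ζ‖} γ B) (f : R)
    {η : ℂ} (hη : η ≠ 0) {δ : ℝ} (Ψ : ℂ → ℂ → ℂ)
    (hΨ : ∀ t : ℂ, ‖t‖ < δ → AnalyticOnNhd ℂ (fun s => Ψ s t) (Metric.ball 0 2))
    (hγΨ : ∀ ζ : ℂ, 1 / 2 < ‖ζ‖ → ‖η * (Complex.exp ζ - Complex.exp 1)‖ < δ →
      ζ ∉ B ∧ γ ζ f = Ψ ζ⁻¹ (η * (Complex.exp ζ - Complex.exp 1)))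
    {ζ₀ : ℂ} (hζ₀ : 1 / 2 < ‖ζ₀‖) (hζ₀B : ζ₀ ∉ B) (h0 : ∃ᶠ ζ in 𝓝[≠] ζ₀, γ ζ f = 0) :
    ∀ t : ℂ, ‖t‖ < δ → Complex.exp 1 + t / η ≠ 0 → ∀ s : ℂ, ‖s‖ < 2 → Ψ s t = 0 := by
  intro t ht hte s hs
  have hopen : IsOpen {ζ : ℂ | 1 / 2 < ‖ζ‖} := isOpen_lt continuous_const continuous_norm
  have hall := tr_ident hopen (tr_outer_preconn (1 / 2) (by norm_num)) hγ f hζ₀ hζ₀B h0
  obtain ⟨z, hz1, hz2, hz3, hz4⟩ := tr_zeta hη hte (1 / 2)
  refine tr_disc (r := 2) (by norm_num) (hΨ t ht) (fun k => (z k)⁻¹) (fun k => inv_ne_zero (hz2 k))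
    hz4 (fun k => ?_) s (by simpa using hs)
  have h1 := hγΨ (z k) (hz1 k) (by rw [hz3]; exact ht)
  rw [hz3] at h1
  rw [← h1.2]
  exact hall (z k) (hz1 k) h1.1

end Pool.Agent.TubeN
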