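import Pool.Agent.Lib_MP_1209e6_nt.Tube

/-!
# `MP_1209e6_ag`, line N: power series in `b`, Laurent series in `ζ`

The algebra `AA n N` (radius `rad N` for `b`, `1/2 ≤ |ζ| ≤ 2`), its evaluations in Banach algebras,
the one sided evaluations, the projections normalised at `ζ = 1`.
-/

set_option autoImplicit false

open Filter Topology
open Pool.Agent.CampanaFlow

noncomputable section

namespace Pool.Agent.TubeN

/-- exponents of series in `b` (power series) and `ζ` (Laurent series) -/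
abbrev GA (n : ℕ) : Type := (Fin n → ℕ) × ℤ

/-- the weight `rad N ^ |ν| 2 ^ |k|` -/
def wA (n N : ℕ) : Wgt (GA n) where
  w g := rad N ^ (∑ i, g.1 i) * 2 ^ g.2.natAbs
  pos g := mul_pos (pow_pos (rad_pos N) _) (by positivity)
  zero := by simp
  add a b := by
    have h1 : (2 : ℝ) ^ (a.2 + b.2).natAbs ≤ 2 ^ a.2.natAbs * 2 ^ b.2.natAbs := by
      rw [← pow_add]
      exact pow_le_pow_right₀ (by norm_num) (Int.natAbs_add_le _ _)
    have h2 : rad N ^ (∑ i, (a + b).1 i) = rad N ^ (∑ i, a.1 i) * rad N ^ (∑ i, b.1 i) := by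
      rw [← pow_add]
      congr 1
      simp only [Prod.fst_add, Pi.add_apply, Finset.sum_add_distrib]
    have h3 := pow_pos (rad_pos N) (∑ i, a.1 i)
    have h4 := pow_pos (rad_pos N) (∑ i, b.1 i)
    rw [h2]
    calc rad N ^ (∑ i, a.1 i) * rad N ^ (∑ i, b.1 i) * 2 ^ (a + b).2.natAbs
        ≤ rad N ^ (∑ i, a.1 i) * rad N ^ (∑ i, b.1 i) * (2 ^ a.2.natAbs * 2 ^ b.2.natAbs) :=
          mul_le_mul_of_nonneg_left h1 (by positivity)
      _ = _ := by ring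

abbrev AA (n N : ℕ) : Type := L1 (wA n N)

/-- the monomial `b^ν z^k` -/
def mnA {B : Type} [CommRing B] {n : ℕ} (b : Fin n → B) (z : Bˣ) (g : GA n) : B :=
  (∏ i, b i ^ g.1 i) * ((z ^ g.2 : Bˣ) : B)

theorem mnA_zero {B : Type} [CommRing B] {n : ℕ} (b : Fin n → B) (z : Bˣ) : mnA b z 0 = 1 := by
  simp [mnA]

theorem mnA_add {B : Type} [CommRing B] {n : ℕ} (b : Fin n → B) (z : Bˣ) (g g' : GA n) :
    mnA b z (g + g') = mnA b z g * mnA b z g' := by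
  unfold mnA
  simp only [Prod.fst_add, Prod.snd_add, Pi.add_apply, pow_add, Finset.prod_mul_distrib, zpow_add,
    Units.val_mul]
  ring

theorem norm_zpow_le {B : Type} [NormedCommRing B] [NormOneClass B] {z : Bˣ}
    (hz : ‖(z : B)‖ ≤ 2) (hz' : ‖((z⁻¹ : Bˣ) : B)‖ ≤ 2) (k : ℤ) :
    ‖((z ^ k : Bˣ) : B)‖ ≤ 2 ^ k.natAbs := by
  rcases Int.natAbs_eq k with h | h
  · rw [h, zpow_natCast, Units.val_pow_eq_pow_val, Int.natAbs_natCast]
    exact (norm_pow_le _ _).trans (pow_le_pow_left₀ (norm_nonneg _) hz _)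
  · rw [h, zpow_neg, zpow_natCast, ← inv_pow, Units.val_pow_eq_pow_val, Int.natAbs_neg,
      Int.natAbs_natCast]
    exact (norm_pow_le _ _).trans (pow_le_pow_left₀ (norm_nonneg _) hz' _)

theorem norm_mnA_le {B : Type} [NormedCommRing B] [NormOneClass B] {n N : ℕ} {b : Fin n → B}
    {z : Bˣ} (hb : ∀ i, ‖b i‖ ≤ rad N) (hz : ‖(z : B)‖ ≤ 2) (hz' : ‖((z⁻¹ : Bˣ) : B)‖ ≤ 2)
    (g : GA n) : ‖mnA b z g‖ ≤ (wA n N).w g := by
  unfold mnA
  refine (norm_mul_le _ _).trans ?_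
  show _ ≤ rad N ^ (∑ i, g.1 i) * 2 ^ g.2.natAbs
  refine mul_le_mul ?_ (norm_zpow_le hz hz' _) (norm_nonneg _) (pow_nonneg (rad_pos N).le _)
  rw [← Finset.prod_pow_eq_pow_sum]
  refine (Finset.norm_prod_le _ _).trans ?_
  refine Finset.prod_le_prod (fun j _ => norm_nonneg _) fun j _ => ?_
  exact (norm_pow_le _ _).trans (pow_le_pow_left₀ (norm_nonneg _) (hb j) _)


section eval

variable {B : Type} [NormedCommRing B] [NormedAlgebra ℂ B] [NormOneClass B] [CompleteSpace B]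
  {n N : ℕ}

/-- evaluation in a Banach algebra -/
def evA (b : Fin n → B) (z : Bˣ) (hb : ∀ i, ‖b i‖ ≤ rad N) (hz : ‖(z : B)‖ ≤ 2)
    (hz' : ‖((z⁻¹ : Bˣ) : B)‖ ≤ 2) : AA n N →ₐ[ℂ] B :=
  L1.hom (mnA b z) (mnA_zero b z) (mnA_add b z) (norm_mnA_le hb hz hz')

theorem evA_apply (b : Fin n → B) (z : Bˣ) (hb : ∀ i, ‖b i‖ ≤ rad N) (hz : ‖(z : B)‖ ≤ 2)
    (hz' : ‖((z⁻¹ : Bˣ) : B)‖ ≤ 2) (f : AA n N) :
    evA b z hb hz hz' f = ∑' g, f.co g • mnA b z g := rfl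

theorem evA_mono (b : Fin n → B) (z : Bˣ) (hb : ∀ i, ‖b i‖ ≤ rad N) (hz : ‖(z : B)‖ ≤ 2)
    (hz' : ‖((z⁻¹ : Bˣ) : B)‖ ≤ 2) (g : GA n) (c : ℂ) :
    evA b z hb hz hz' (L1.mono _ g c) = c • mnA b z g := L1.hom_mono _ _ _ _ g c

theorem evA_cont (b : Fin n → B) (z : Bˣ) (hb : ∀ i, ‖b i‖ ≤ rad N) (hz : ‖(z : B)‖ ≤ 2)
    (hz' : ‖((z⁻¹ : Bˣ) : B)‖ ≤ 2) : Continuous (evA b z hb hz hz' : AA n N → B) :=
  L1.hom_continuous _ _ _ _

theorem norm_evA_le (b : Fin n → B) (z : Bˣ) (hb : ∀ i, ‖b i‖ ≤ rad N) (hz : ‖(z : B)‖ ≤ 2)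
    (hz' : ‖((z⁻¹ : Bˣ) : B)‖ ≤ 2) (f : AA n N) : ‖evA b z hb hz hz' f‖ ≤ ‖f‖ :=
  L1.norm_hom_le _ _ _ _ f

theorem evA_ext {b : Fin n → B} {z : Bˣ} {hb : ∀ i, ‖b i‖ ≤ rad N} {hz : ‖(z : B)‖ ≤ 2}
    {hz' : ‖((z⁻¹ : Bˣ) : B)‖ ≤ 2} {φ : AA n N →ₐ[ℂ] B} (hφ : Continuous φ)
    (h : ∀ g, φ (L1.mono _ g 1) = mnA b z g) : φ = evA b z hb hz hz' := by
  refine L1.hom_ext hφ (evA_cont b z hb hz hz') fun g => ?_
  rw [h, evA_mono, one_smul]

end eval

section proj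

variable {n N : ℕ}

/-- negative powers of `ζ` -/
def negS (n : ℕ) : Set (GA n) := {g | g.2 < 0}

/-- the value at `ζ = 1` -/
def atOne (n N : ℕ) : AA n N →L[ℂ] AA n N :=
  L1.lin (fun g => L1.mono _ (g.1, 0) 1) 1 (by
    intro g
    rw [L1.norm_mono, norm_one, one_mul, one_mul]
    show rad N ^ (∑ i, g.1 i) * 2 ^ (0 : ℤ).natAbs ≤ rad N ^ (∑ i, g.1 i) * 2 ^ g.2.natAbs
    refine mul_le_mul_of_nonneg_left ?_ (pow_nonneg (rad_pos N).le _)
    exact pow_le_pow_right₀ (by norm_num) (by simp))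

theorem atOne_mono (g : GA n) : atOne n N (L1.mono _ g 1) = L1.mono _ (g.1, 0) 1 := by
  unfold atOne
  rw [L1.lin_mono, one_smul]

theorem norm_atOne_le (f : AA n N) : ‖atOne n N f‖ ≤ ‖f‖ := by
  have := L1.norm_lin_apply_le (ω := wA n N) (φ := fun g => L1.mono (wA n N) (g.1, 0) 1) (C := 1)
    (by
      intro g
      rw [L1.norm_mono, norm_one, one_mul, one_mul]
      show rad N ^ (∑ i, g.1 i) * 2 ^ (0 : ℤ).natAbs ≤ rad N ^ (∑ i, g.1 i) * 2 ^ g.2.natAbs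
      refine mul_le_mul_of_nonneg_left ?_ (pow_nonneg (rad_pos N).le _)
      exact pow_le_pow_right₀ (by norm_num) (by simp)) f
  rwa [one_mul] at this

theorem supp_atOne (f : AA n N) : L1.Supp {g : GA n | g.2 = 0} (atOne n N f) := by
  intro g hg
  have h : (L1.coL (wA n N) g).comp (atOne n N) = 0 := by
    refine L1.ext1 fun j => ?_
    rw [ContinuousLinearMap.comp_apply, atOne_mono, L1.coL_apply, zero_apply]
    refine L1.co_mono_ne (fun e => hg ?_) _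
    rw [e]
    rfl
  have h2 := congrArg (fun A : AA n N →L[ℂ] ℂ => A f) h
  exact h2

/-- the negative part, normalised at `ζ = 1` -/
def Pm (n N : ℕ) : AA n N →L[ℂ] AA n N :=
  L1.proj (wA n N) (negS n) - (atOne n N).comp (L1.proj (wA n N) (negS n))

/-- the complementary projection -/
def Pp (n N : ℕ) : AA n N →L[ℂ] AA n N := ContinuousLinearMap.id ℂ _ - Pm n N

theorem Pm_apply (f : AA n N) :
    Pm n N f = L1.proj (wA n N) (negS n) f - atOne n N (L1.proj (wA n N) (negS n) f) := rfl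

theorem Pp_apply (f : AA n N) : Pp n N f = f - Pm n N f := rfl

theorem norm_Pm_le (f : AA n N) : ‖Pm n N f‖ ≤ 2 * ‖f‖ := by
  rw [Pm_apply]
  refine (norm_sub_le _ _).trans ?_
  have h1 := L1.norm_proj_le (ω := wA n N) (negS n) f
  have h2 := (norm_atOne_le (L1.proj (wA n N) (negS n) f)).trans h1
  linarith

theorem norm_Pp_le (f : AA n N) : ‖Pp n N f‖ ≤ 3 * ‖f‖ := by
  rw [Pp_apply]
  refine (norm_sub_le _ _).trans ?_
  have h1 := norm_Pm_le f
  linarith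

theorem supp_Pm (f : AA n N) : L1.Supp {g : GA n | g.2 ≤ 0} (Pm n N f) := by
  rw [Pm_apply]
  refine L1.Supp.sub ?_ ?_
  · refine (L1.supp_proj (negS n) f).mono_set ?_
    intro g hg
    have h : g.2 < 0 := hg
    exact h.le
  · refine (supp_atOne _).mono_set ?_
    intro g hg
    have h : g.2 = 0 := hg
    exact h.le

theorem supp_Pp (f : AA n N) : L1.Supp {g : GA n | 0 ≤ g.2} (Pp n N f) := by
  have e : Pp n N f = L1.proj (wA n N) (negS n)ᶜ f +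
      atOne n N (L1.proj (wA n N) (negS n) f) := by
    have h := L1.proj_add_compl (ω := wA n N) (negS n) f
    rw [Pp_apply, Pm_apply]
    nth_rewrite 1 [← h]
    abel
  rw [e]
  refine L1.Supp.add ?_ ?_
  · refine (L1.supp_proj (negS n)ᶜ f).mono_set ?_
    intro g hg
    have h : ¬ (g.2 < 0) := hg
    exact not_lt.1 h
  · refine (supp_atOne _).mono_set ?_
    intro g hg
    have h : g.2 = 0 := hg
    exact h.ge

/-- the normalisation -/
theorem evA_one_Pm {B : Type} [NormedCommRing B] [NormedAlgebra ℂ B] [NormOneClass B]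
    [CompleteSpace B] (b : Fin n → B) (hb : ∀ i, ‖b i‖ ≤ rad N) (hz : ‖((1 : Bˣ) : B)‖ ≤ 2)
    (hz' : ‖(((1 : Bˣ)⁻¹ : Bˣ) : B)‖ ≤ 2) (f : AA n N) :
    evA b 1 hb hz hz' (Pm n N f) = 0 := by
  let e : AA n N →L[ℂ] B := ⟨(evA b 1 hb hz hz').toLinearMap, evA_cont b 1 hb hz hz'⟩
  have h : e.comp (atOne n N) = e := by
    refine L1.ext1 fun g => ?_
    rw [ContinuousLinearMap.comp_apply, atOne_mono]
    show evA b 1 hb hz hz' _ = evA b 1 hb hz hz' _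
    rw [evA_mono, evA_mono]
    simp [mnA]
  have h2 := congrArg (fun A : AA n N →L[ℂ] B => A (L1.proj (wA n N) (negS n) f)) h
  have h3 : evA b 1 hb hz hz' (atOne n N (L1.proj (wA n N) (negS n) f)) =
      evA b 1 hb hz hz' (L1.proj (wA n N) (negS n) f) := h2
  rw [Pm_apply, map_sub, h3, sub_self]

end proj

section one_sided

variable {n N : ℕ}

theorem rad_ne (N : ℕ) : ((rad N : ℝ) : ℂ) ≠ 0 := by
  exact_mod_cast (rad_pos N).ne'

open scoped Classical in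
/-- the part in `S` (exponents of one sign) as a power series in `b` and `w = rad N / 2 * u` -/
def Jt (n N : ℕ) (S : Set (GA n)) : AA n N →L[ℂ] PS n N :=
  L1.lin (fun g => if g ∈ S then
    L1.mono (wP n N) (g.1, g.2.natAbs) ((2 / (rad N : ℂ)) ^ g.2.natAbs) else 0) 1 (by
    intro g
    rw [one_mul]
    split_ifs
    · rw [L1.norm_mono, norm_pow, norm_div, Complex.norm_real, Real.norm_of_nonneg (rad_pos N).le]
      show (‖(2 : ℂ)‖ / rad N) ^ g.2.natAbs * rad N ^ ((∑ i, g.1 i) + g.2.natAbs) ≤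
        rad N ^ (∑ i, g.1 i) * 2 ^ g.2.natAbs
      rw [div_pow, pow_add]
      have h := pow_pos (rad_pos N) g.2.natAbs
      have h2 : ‖(2 : ℂ)‖ = 2 := by simp
      rw [h2]
      refine le_of_eq ?_
      field_simp
    · rw [norm_zero]
      exact ((wA n N).pos g).le)

theorem norm_Jt_le (S : Set (GA n)) (f : AA n N) : ‖Jt n N S f‖ ≤ ‖f‖ := by
  unfold Jt
  refine (L1.norm_lin_apply_le _ f).trans ?_
  rw [one_mul]

theorem norm_mn_le {B : Type} [NormedCommRing B] [NormOneClass B] {b : Fin n → B} {w : B}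
    (hb : ∀ i, ‖b i‖ ≤ rad N) (hw : ‖w‖ ≤ rad N) (g : Gam n) : ‖mn b w g‖ ≤ (wP n N).w g := by
  unfold mn
  refine (norm_mul_le _ _).trans ?_
  show _ ≤ rad N ^ ((∑ i, g.1 i) + g.2)
  rw [pow_add]
  refine mul_le_mul ?_ ((norm_pow_le _ _).trans (pow_le_pow_left₀ (norm_nonneg _) hw _))
    (norm_nonneg _) (pow_nonneg (rad_pos N).le _)
  rw [← Finset.prod_pow_eq_pow_sum]
  refine (Finset.norm_prod_le _ _).trans ?_
  refine Finset.prod_le_prod (fun j _ => norm_nonneg _) fun j _ => ?_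
  exact (norm_pow_le _ _).trans (pow_le_pow_left₀ (norm_nonneg _) (hb j) _)

/-- evaluation of the one sided series -/
theorem evB_Jt (S : Set (GA n)) (b : Fin n → ℂ) (u : ℂ) (t : ℂˣ)
    (hb : ∀ i, ‖b i‖ ≤ rad N) (hu : ‖u‖ ≤ 2) (hz : ‖(t : ℂ)‖ ≤ 2) (hz' : ‖((t⁻¹ : ℂˣ) : ℂ)‖ ≤ 2)
    (hS : ∀ g ∈ S, ((t ^ g.2 : ℂˣ) : ℂ) = u ^ g.2.natAbs) (f : AA n N)
    (hf : L1.Supp S f) :
    evB b ((rad N : ℂ) / 2 * u) (Jt n N S f) = evA b t hb hz hz' f := by
  classical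
  have hw : ‖(rad N : ℂ) / 2 * u‖ ≤ rad N := by
    rw [norm_mul, norm_div, Complex.norm_real, Real.norm_of_nonneg (rad_pos N).le]
    have h2 : ‖(2 : ℂ)‖ = 2 := by simp
    rw [h2]
    have := rad_pos N
    nlinarith
  have hb1 : ∀ g, ‖mn b ((rad N : ℂ) / 2 * u) g‖ ≤ 1 * (wP n N).w g := fun g => by
    rw [one_mul]; exact norm_mn_le hb hw g
  let e1 : AA n N →L[ℂ] ℂ := (L1.lin (mn b ((rad N : ℂ) / 2 * u)) 1 hb1).comp (Jt n N S)
  let e2 : AA n N →L[ℂ] ℂ :=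
    (⟨(evA b t hb hz hz').toLinearMap, evA_cont b t hb hz hz'⟩ : AA n N →L[ℂ] ℂ).comp
      (L1.proj (wA n N) S)
  have h : e1 = e2 := by
    refine L1.ext1 fun g => ?_
    show L1.lin (mn b ((rad N : ℂ) / 2 * u)) 1 hb1 (Jt n N S (L1.mono _ g 1)) =
      evA b t hb hz hz' (L1.proj (wA n N) S (L1.mono _ g 1))
    unfold Jt L1.proj
    rw [L1.lin_mono, L1.lin_mono, one_smul, one_smul]
    split_ifs with hg
    · rw [L1.lin_mono, evA_mono, one_smul, mn, mnA, hS g hg, smul_eq_mul, mul_pow]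
      have h3 := rad_ne N
      have h4 : (2 / (rad N : ℂ)) ^ g.2.natAbs * ((rad N : ℂ) / 2) ^ g.2.natAbs = 1 := by
        rw [← mul_pow]
        have : (2 / (rad N : ℂ)) * ((rad N : ℂ) / 2) = 1 := by field_simp
        rw [this, one_pow]
      calc (2 / (rad N : ℂ)) ^ g.2.natAbs *
            ((∏ i, b i ^ g.1 i) * (((rad N : ℂ) / 2) ^ g.2.natAbs * u ^ g.2.natAbs))
          = ((2 / (rad N : ℂ)) ^ g.2.natAbs * ((rad N : ℂ) / 2) ^ g.2.natAbs) *
            ((∏ i, b i ^ g.1 i) * u ^ g.2.natAbs) := by ring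
        _ = _ := by rw [h4, one_mul]
    · rw [map_zero, map_zero]
  have h2 := congrArg (fun A : AA n N →L[ℂ] ℂ => A f) h
  have h3 : L1.lin (mn b ((rad N : ℂ) / 2 * u)) 1 hb1 (Jt n N S f) =
      evA b t hb hz hz' (L1.proj (wA n N) S f) := h2
  rw [L1.proj_of_supp hf] at h3
  rw [← h3]
  rfl

end one_sided

end Pool.Agent.TubeN
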