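import Pool.Agent.Lib_MP_1209e6_nt.Tube
import Pool.Agent.Lib_MP_1209e6_nt.WE3

/-! The algebra of Laurent series with parameters: evaluation, splitting, exponential. -/

set_option autoImplicit false
set_option linter.unusedSectionVars false
set_option linter.unusedVariables false
set_option linter.unusedSimpArgs false
set_option linter.deprecated false

open Filter Topology

noncomputable section

namespace Pool.Agent.TubeN

/-- exponents: power series in `b`, Laurent series in `ζ` -/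
abbrev Lam (n : ℕ) : Type := (Fin n → ℕ) × ℤ

/-- the weight `rad N ^ |ν| * 2 ^ |k|` -/
def wA (n N : ℕ) : Wgt (Lam n) where
  w g := rad N ^ (∑ i, g.1 i) * 2 ^ g.2.natAbs
  pos g := mul_pos (pow_pos (rad_pos N) _) (by positivity)
  zero := by simp
  add a b := by
    have h1 : rad N ^ (∑ i, (a + b).1 i) = rad N ^ (∑ i, a.1 i) * rad N ^ (∑ i, b.1 i) := by
      rw [← pow_add]
      congr 1
      simp only [Prod.fst_add, Pi.add_apply, Finset.sum_add_distrib]
    have h2 : (2 : ℝ) ^ (a + b).2.natAbs ≤ 2 ^ a.2.natAbs * 2 ^ b.2.natAbs := by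
      rw [← pow_add]
      exact pow_le_pow_right₀ (by norm_num) (Int.natAbs_add_le _ _)
    have h3 := (rad_pos N).le
    rw [h1]
    calc rad N ^ (∑ i, a.1 i) * rad N ^ (∑ i, b.1 i) * 2 ^ (a + b).2.natAbs
        ≤ rad N ^ (∑ i, a.1 i) * rad N ^ (∑ i, b.1 i) * (2 ^ a.2.natAbs * 2 ^ b.2.natAbs) := by
          gcongr
      _ = _ := by ring

/-- power series in `b`, Laurent series in `ζ` on the annulus `1/2 ≤ |ζ| ≤ 2` -/
abbrev AZ (n N : ℕ) : Type := L1 (wA n N)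

/-- the variable `b_i` -/
def Xa (n N : ℕ) (i : Fin n) : AZ n N := L1.mono _ (Pi.single i 1, 0) 1

/-- the variable `ζ` -/
def Za (n N : ℕ) : AZ n N := L1.mono _ (0, 1) 1

/-- the variable `ζ⁻¹` -/
def Za' (n N : ℕ) : AZ n N := L1.mono _ (0, -1) 1

/-- the function `η (exp z - e)` in a Banach algebra -/
def tauB {B : Type} [NormedCommRing B] [NormedAlgebra ℂ B] (η : ℂ) (z : B) : B :=
  η • (NormedSpace.exp z - NormedSpace.exp 1)


section aux

variable {B : Type} [NormedCommRing B] [NormedAlgebra ℂ B] [CompleteSpace B] [NormOneClass B]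

theorem mnB_zero {n : ℕ} (b : Fin n → B) (w : B) : mn b w (0 : Gam n) = 1 := by
  simp [mn]

theorem mnB_add {n : ℕ} (b : Fin n → B) (w : B) (g h : Gam n) :
    mn b w (g + h) = mn b w g * mn b w h := by
  unfold mn
  simp only [Prod.fst_add, Prod.snd_add, Pi.add_apply, pow_add, Finset.prod_mul_distrib]
  ring

theorem norm_prod_pow_le {n : ℕ} {r : ℝ} {b : Fin n → B} (hb : ∀ i, ‖b i‖ ≤ r) (hr : 0 ≤ r)
    (ν : Fin n → ℕ) : ‖∏ i, b i ^ ν i‖ ≤ r ^ ∑ i, ν i := by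
  refine (Finset.norm_prod_le _ _).trans ?_
  rw [← Finset.prod_pow_eq_pow_sum]
  refine Finset.prod_le_prod (fun i _ => norm_nonneg _) fun i _ => ?_
  exact (norm_pow_le _ _).trans (pow_le_pow_left₀ (norm_nonneg _) (hb i) _)

theorem norm_mnB_le {n N : ℕ} {b : Fin n → B} {w : B} (hb : ∀ i, ‖b i‖ ≤ rad N)
    (hw : ‖w‖ ≤ rad N) (g : Gam n) : ‖mn b w g‖ ≤ (wP n N).w g := by
  show ‖(∏ i, b i ^ g.1 i) * w ^ g.2‖ ≤ rad N ^ ((∑ i, g.1 i) + g.2)
  have h0 := (rad_pos N).le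
  rw [pow_add]
  refine (norm_mul_le _ _).trans ?_
  refine mul_le_mul (norm_prod_pow_le hb h0 _) ?_ (norm_nonneg _) (by positivity)
  exact (norm_pow_le _ _).trans (pow_le_pow_left₀ (norm_nonneg _) hw _)

/-- evaluation in a Banach algebra as a homomorphism -/
def evhB {n N : ℕ} (b : Fin n → B) (w : B) (hb : ∀ i, ‖b i‖ ≤ rad N) (hw : ‖w‖ ≤ rad N) :
    PS n N →ₐ[ℂ] B :=
  L1.hom (mn b w) (mnB_zero b w) (mnB_add b w) (norm_mnB_le hb hw)

theorem evhB_apply {n N : ℕ} (b : Fin n → B) (w : B) (hb : ∀ i, ‖b i‖ ≤ rad N)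
    (hw : ‖w‖ ≤ rad N) (f : PS n N) : evhB b w hb hw f = evB b w f := rfl

theorem evhB_cont {n N : ℕ} (b : Fin n → B) (w : B) (hb : ∀ i, ‖b i‖ ≤ rad N)
    (hw : ‖w‖ ≤ rad N) : Continuous (evhB (N := N) b w hb hw) :=
  L1.hom_continuous _ _ _ _

/-- evaluation as a continuous linear map -/
def evL {n N : ℕ} (b : Fin n → B) (w : B) (hb : ∀ i, ‖b i‖ ≤ rad N) (hw : ‖w‖ ≤ rad N) :
    PS n N →L[ℂ] B :=
  ⟨(evhB b w hb hw).toLinearMap, evhB_cont b w hb hw⟩

theorem evL_apply {n N : ℕ} (b : Fin n → B) (w : B) (hb : ∀ i, ‖b i‖ ≤ rad N)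
    (hw : ‖w‖ ≤ rad N) (f : PS n N) : evL b w hb hw f = evB b w f := rfl

theorem evB_mono {n N : ℕ} (b : Fin n → B) (w : B) (g : Gam n) (c : ℂ) :
    evB b w (L1.mono (wP n N) g c) = c • mn b w g := by
  unfold evB
  rw [tsum_eq_single g, L1.co_mono_self]
  intro j hj
  rw [L1.co_mono_ne hj, zero_smul]

end aux

/-- powers of a monomial in an algebra `L1` -/
theorem mono_pow {G : Type} [AddCommMonoid G] {ω : Wgt G} (g : G) (c : ℂ) (k : ℕ) :
    (L1.mono ω g c) ^ k = L1.mono ω (k • g) (c ^ k) := by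
  induction k with
  | zero => rw [pow_zero, zero_smul, pow_zero]; rfl
  | succ k ih => rw [pow_succ, ih, L1.mono_mul_mono, succ_nsmul, pow_succ]

theorem prod_mono {G : Type} [AddCommMonoid G] {ω : Wgt G} {ι : Type} (s : Finset ι) (g : ι → G) :
    ∏ i ∈ s, L1.mono ω (g i) 1 = L1.mono ω (∑ i ∈ s, g i) 1 := by
  classical
  induction s using Finset.induction_on with
  | empty => rw [Finset.prod_empty, Finset.sum_empty]; rfl
  | insert a s ha ih =>
    rw [Finset.prod_insert ha, Finset.sum_insert ha, ih, L1.mono_mul_mono, one_mul]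

theorem sum_single_smul {n : ℕ} (ν : Fin n → ℕ) :
    ∑ i, ν i • (Pi.single i 1 : Fin n → ℕ) = ν := by
  funext j
  rw [Finset.sum_apply]
  simp [Pi.single_apply]

theorem prod_Xv {n N : ℕ} (ν : Fin n → ℕ) : ∏ i, Xv n N i ^ ν i = L1.mono _ (ν, 0) 1 := by
  unfold Xv
  simp only [mono_pow, one_pow]
  rw [prod_mono]
  congr 1
  refine Prod.ext ?_ ?_
  · rw [Prod.fst_sum]
    exact sum_single_smul ν
  · rw [Prod.snd_sum]
    simp

theorem prod_Xa {n N : ℕ} (ν : Fin n → ℕ) : ∏ i, Xa n N i ^ ν i = L1.mono _ (ν, 0) 1 := by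
  unfold Xa
  simp only [mono_pow, one_pow]
  rw [prod_mono]
  congr 1
  refine Prod.ext ?_ ?_
  · rw [Prod.fst_sum]
    exact sum_single_smul ν
  · rw [Prod.snd_sum]
    simp

namespace AZS

section

variable {B B' : Type} [NormedCommRing B] [NormedAlgebra ℂ B] [CompleteSpace B] [NormOneClass B]
  [NormedCommRing B'] [NormedAlgebra ℂ B'] [CompleteSpace B'] [NormOneClass B']

theorem az_basic (n N : ℕ) : (∀ i, ‖Xa n N i‖ = rad N) ∧ ‖Za n N‖ = 2 ∧ ‖Za' n N‖ = 2 ∧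
    Za n N * Za' n N = 1 := by
  refine ⟨fun i => ?_, ?_, ?_, ?_⟩
  · unfold Xa
    rw [L1.norm_mono, norm_one, one_mul]
    show rad N ^ (∑ j, (Pi.single i 1 : Fin n → ℕ) j) * 2 ^ (0 : ℤ).natAbs = rad N
    simp
  · unfold Za
    rw [L1.norm_mono, norm_one, one_mul]
    show rad N ^ (∑ j, (0 : Fin n → ℕ) j) * 2 ^ (1 : ℤ).natAbs = 2
    simp
  · unfold Za'
    rw [L1.norm_mono, norm_one, one_mul]
    show rad N ^ (∑ j, (0 : Fin n → ℕ) j) * 2 ^ (-1 : ℤ).natAbs = 2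
    simp
  · unfold Za Za'
    rw [L1.mono_mul_mono, one_mul]
    show L1.mono _ _ 1 = L1.mono _ 0 1
    congr 1

theorem norm_zpow_le {u : Bˣ} (hz : ‖(u : B)‖ ≤ 2) (hz' : ‖((u⁻¹ : Bˣ) : B)‖ ≤ 2) (k : ℤ) :
    ‖((u ^ k : Bˣ) : B)‖ ≤ 2 ^ k.natAbs := by
  rcases Int.eq_nat_or_neg k with ⟨m, rfl | rfl⟩
  · rw [zpow_natCast, Units.val_pow_eq_pow_val, Int.natAbs_natCast]
    exact (norm_pow_le _ _).trans (pow_le_pow_left₀ (norm_nonneg _) hz _)
  · rw [zpow_neg, zpow_natCast, ← inv_pow, Units.val_pow_eq_pow_val, Int.natAbs_neg,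
      Int.natAbs_natCast]
    exact (norm_pow_le _ _).trans (pow_le_pow_left₀ (norm_nonneg _) hz' _)

theorem az_eval (n N : ℕ) (b : Fin n → B) (z z' : B) (hb : ∀ i, ‖b i‖ ≤ rad N) (hz : ‖z‖ ≤ 2)
    (hz' : ‖z'‖ ≤ 2) (h : z * z' = 1) : ∃ e : AZ n N →ₐ[ℂ] B, Continuous e ∧
      (∀ f, ‖e f‖ ≤ ‖f‖) ∧ (∀ i, e (Xa n N i) = b i) ∧ e (Za n N) = z ∧ e (Za' n N) = z' := by
  let u : Bˣ := ⟨z, z', h, by rw [mul_comm]; exact h⟩
  let φ : Lam n → B := fun g => (∏ i, b i ^ g.1 i) * ((u ^ g.2 : Bˣ) : B)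
  have h0 : φ 0 = 1 := by simp [φ]
  have ha : ∀ g g', φ (g + g') = φ g * φ g' := by
    intro g g'
    simp only [φ, Prod.fst_add, Prod.snd_add, Pi.add_apply, pow_add, Finset.prod_mul_distrib,
      zpow_add, Units.val_mul]
    ring
  have hn : ∀ g, ‖φ g‖ ≤ (wA n N).w g := by
    intro g
    refine (norm_mul_le _ _).trans ?_
    exact mul_le_mul (norm_prod_pow_le hb (rad_pos N).le _) (norm_zpow_le hz hz' _)
      (norm_nonneg _) (pow_nonneg (rad_pos N).le _)
  refine ⟨L1.hom φ h0 ha hn, L1.hom_continuous _ _ _ _, L1.norm_hom_le _ _ _ _, fun i => ?_, ?_, ?_⟩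
  · unfold Xa
    rw [L1.hom_mono, one_smul]
    simp only [φ, zpow_zero, Units.val_one, mul_one]
    rw [Finset.prod_eq_single i]
    · simp
    · intro j _ hj
      simp [Pi.single_apply, hj]
    · intro hi
      exact absurd (Finset.mem_univ i) hi
  · unfold Za
    rw [L1.hom_mono, one_smul]
    simp [φ, u]
  · unfold Za'
    rw [L1.hom_mono, one_smul]
    simp only [φ, Pi.zero_apply, pow_zero, Finset.prod_const_one, one_mul, zpow_neg_one]
    rfl

theorem map_evB {n N : ℕ} (φ : B →ₐ[ℂ] B') (hφ : Continuous φ) (b : Fin n → B) (w : B)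
    (hb : ∀ i, ‖b i‖ ≤ rad N) (hw : ‖w‖ ≤ rad N) (f : PS n N) :
    φ (evB b w f) = evB (fun i => φ (b i)) (φ w) f := by
  have hs : Summable fun g => f.co g • mn b w g := (L1.summ_hom (norm_mnB_le hb hw) f).of_norm
  have h1 := hs.hasSum.map φ hφ
  unfold evB
  rw [← h1.tsum_eq]
  refine tsum_congr fun g => ?_
  rw [Function.comp_apply, map_smul]
  congr 1
  unfold mn
  rw [map_mul, map_prod, map_pow]
  simp only [map_pow]

theorem evB_zero {n N : ℕ} (f : PS n N) :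
    evB (fun _ : Fin n => (0 : B)) (0 : B) f = algebraMap ℂ B (f.co 0) := by
  unfold evB
  rw [tsum_eq_single (0 : Gam n), mnB_zero, Algebra.algebraMap_eq_smul_one]
  intro g hg
  have h : mn (fun _ : Fin n => (0 : B)) (0 : B) g = 0 := by
    unfold mn
    by_cases h2 : g.2 = 0
    · have h1 : g.1 ≠ 0 := fun h1 => hg (Prod.ext h1 h2)
      obtain ⟨i, hi⟩ := Function.ne_iff.1 h1
      rw [Finset.prod_eq_zero (Finset.mem_univ i) (zero_pow hi), zero_mul]
    · rw [zero_pow h2, mul_zero]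
  rw [h, smul_zero]

theorem exp_two_add : Real.exp 2 + Real.exp 1 ≤ 11 := by
  have h1 : Real.exp 1 < 2.7182818286 := Real.exp_one_lt_d9
  have h2 : Real.exp 2 = Real.exp 1 * Real.exp 1 := by
    rw [← Real.exp_add]; norm_num
  have h3 := Real.exp_pos 1
  rw [h2]
  nlinarith

theorem norm_tauB_le (η : ℂ) (z : B) (hz : ‖z‖ ≤ 2) : ‖tauB η z‖ ≤ 11 * ‖η‖ := by
  unfold tauB
  rw [norm_smul, mul_comm]
  refine mul_le_mul_of_nonneg_right ?_ (norm_nonneg _)
  have h1 : ‖NormedSpace.exp z‖ ≤ Real.exp ‖z‖ := Pool.Agent.NTW.norm_ex_le z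
  have h2 : ‖NormedSpace.exp (1 : B)‖ ≤ Real.exp ‖(1 : B)‖ := Pool.Agent.NTW.norm_ex_le 1
  rw [norm_one] at h2
  have h3 := Real.exp_le_exp.2 hz
  have h4 := exp_two_add
  exact (norm_sub_le _ _).trans (by linarith)

theorem map_tauB (φ : B →ₐ[ℂ] B') (hφ : Continuous φ) (η : ℂ) (z : B) :
    φ (tauB η z) = tauB η (φ z) := by
  unfold tauB
  have h1 : φ (NormedSpace.exp z) = NormedSpace.exp (φ z) := Pool.Agent.NTW.map_ex hφ z
  have h2 : φ (NormedSpace.exp (1 : B)) = NormedSpace.exp (φ 1) := Pool.Agent.NTW.map_ex hφ 1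
  rw [map_smul, map_sub, h1, h2, map_one]

theorem tauB_eq (η ζ : ℂ) : tauB η ζ = tau η ζ := by
  unfold tauB tau
  rw [smul_eq_mul, ← Complex.exp_eq_exp_ℂ]

theorem norm_Wv (n N : ℕ) : ‖Wv n N‖ = rad N := by
  unfold Wv
  rw [L1.norm_mono, norm_one, one_mul]
  show rad N ^ ((∑ j, (0 : Fin n → ℕ) j) + 1) = rad N
  simp

theorem norm_Xv (n N : ℕ) (i : Fin n) : ‖Xv n N i‖ = rad N := by
  unfold Xv
  rw [L1.norm_mono, norm_one, one_mul]
  show rad N ^ ((∑ j, (Pi.single i 1 : Fin n → ℕ) j) + 0) = rad N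
  simp

theorem exp_rad_le {N : ℕ} (hN : 1 ≤ N) : Real.exp (rad N) ≤ 2 := by
  have h1 : rad N ≤ 1 / 2 := by
    unfold rad
    have : (1 : ℝ) ≤ N := by exact_mod_cast hN
    exact one_div_le_one_div_of_le (by norm_num) (by linarith)
  have h2 : Real.exp (rad N) ≤ Real.exp (Real.log 2) := by
    apply Real.exp_le_exp.2
    have := Real.log_two_gt_d9
    linarith
  rwa [Real.exp_log (by norm_num)] at h2

theorem ps_exp (n N : ℕ) (hN : 1 ≤ N) : ‖NormedSpace.exp (Wv n N)‖ ≤ 2 ∧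
    ‖NormedSpace.exp (-Wv n N)‖ ≤ 2 ∧
    NormedSpace.exp (Wv n N) * NormedSpace.exp (-Wv n N) = 1 := by
  have h1 : ‖NormedSpace.exp (Wv n N)‖ ≤ Real.exp ‖Wv n N‖ := Pool.Agent.NTW.norm_ex_le _
  have h2 : ‖NormedSpace.exp (-Wv n N)‖ ≤ Real.exp ‖-Wv n N‖ := Pool.Agent.NTW.norm_ex_le _
  rw [norm_neg] at h2
  rw [norm_Wv] at h1 h2
  refine ⟨h1.trans (exp_rad_le hN), h2.trans (exp_rad_le hN), ?_⟩
  have h3 : NormedSpace.exp (Wv n N + -Wv n N) =
      NormedSpace.exp (Wv n N) * NormedSpace.exp (-Wv n N) := Pool.Agent.NTW.ex_add _ _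
  rw [← h3, add_neg_cancel]
  exact NormedSpace.exp_zero

/-! ### divisibility by `w` -/

/-- `w^k ↦ w^(k-1)`, `1 ↦ 0` -/
def shiftW (n N : ℕ) : PS n N →L[ℂ] PS n N :=
  L1.lin (fun g : Gam n => if g.2 = 0 then 0 else L1.mono (wP n N) (g.1, g.2 - 1) 1)
    (1 / rad N) fun g => by
      split_ifs with h
      · rw [norm_zero]
        have := rad_pos N
        have h2 := (wP n N).pos g
        positivity
      · rw [L1.norm_mono, norm_one, one_mul]
        show rad N ^ ((∑ i, g.1 i) + (g.2 - 1)) ≤ 1 / rad N * rad N ^ ((∑ i, g.1 i) + g.2)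
        have h3 : (∑ i, g.1 i) + g.2 = ((∑ i, g.1 i) + (g.2 - 1)) + 1 := by omega
        rw [h3, pow_succ]
        have h4 := (rad_pos N).ne'
        apply le_of_eq
        field_simp

theorem ps_div' {n N : ℕ} (f : PS n N) (h : evB (Xv n N) (0 : PS n N) f = 0) :
    ∃ g : PS n N, f = Wv n N * g := by
  classical
  refine ⟨shiftW n N f, ?_⟩
  have h0 : ‖(0 : PS n N)‖ ≤ rad N := by rw [norm_zero]; exact (rad_pos N).le
  have hX : ∀ i, ‖Xv n N i‖ ≤ rad N := fun i => (norm_Xv n N i).le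
  have key : ContinuousLinearMap.id ℂ (PS n N) =
      (L1.mulL (wP n N) (Wv n N)).comp (shiftW n N) + evL (Xv n N) (0 : PS n N) hX h0 := by
    refine L1.ext1 fun g => ?_
    rw [ContinuousLinearMap.id_apply, ContinuousLinearMap.add_apply,
      ContinuousLinearMap.comp_apply, evL_apply, evB_mono, one_smul]
    unfold shiftW
    rw [L1.lin_mono, one_smul]
    unfold mn
    rw [prod_Xv]
    by_cases hg : g.2 = 0
    · rw [if_pos hg, map_zero, zero_add, hg, pow_zero, mul_one]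
      congr 1
      exact Prod.ext rfl hg
    · rw [if_neg hg, zero_pow hg, mul_zero, add_zero, ← L1.mul_def]
      unfold Wv
      rw [L1.mono_mul_mono, one_mul]
      congr 1
      refine Prod.ext ?_ ?_
      · simp
      · show g.2 = 1 + (g.2 - 1)
        omega
  have h1 := congrArg (fun T : PS n N →L[ℂ] PS n N => T f) key
  simp only [ContinuousLinearMap.id_apply, ContinuousLinearMap.add_apply,
    ContinuousLinearMap.comp_apply, evL_apply] at h1
  rw [h, add_zero, ← L1.mul_def] at h1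
  exact h1

/-! ### splitting -/

/-- the negative part, normalised at `ζ = 1` -/
def Jm (n N : ℕ) : AZ n N →L[ℂ] PS n N :=
  L1.lin (fun g : Lam n => if g.2 < 0 then
      ((2 / rad N : ℝ) : ℂ) ^ g.2.natAbs • L1.mono (wP n N) (g.1, g.2.natAbs) 1 -
        L1.mono (wP n N) (g.1, 0) 1 else 0) 2 fun g => by
    have hr := rad_pos N
    have hA : (0 : ℝ) ≤ rad N ^ ∑ i, g.1 i := pow_nonneg hr.le _
    split_ifs with h
    · refine (norm_sub_le _ _).trans ?_
      rw [norm_smul, L1.norm_mono, L1.norm_mono, norm_one, one_mul, one_mul, norm_pow,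
        Complex.norm_real, Real.norm_of_nonneg (by positivity)]
      show (2 / rad N) ^ g.2.natAbs * rad N ^ ((∑ i, g.1 i) + g.2.natAbs) +
        rad N ^ ((∑ i, g.1 i) + 0) ≤ 2 * (rad N ^ (∑ i, g.1 i) * 2 ^ g.2.natAbs)
      have h1 : (2 / rad N) ^ g.2.natAbs * rad N ^ ((∑ i, g.1 i) + g.2.natAbs) =
          rad N ^ (∑ i, g.1 i) * 2 ^ g.2.natAbs := by
        rw [pow_add, div_pow]
        field_simp
      have h2 : (1 : ℝ) ≤ 2 ^ g.2.natAbs := one_le_pow₀ (by norm_num)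
      rw [h1, add_zero]
      nlinarith
    · rw [norm_zero]
      have := (wA n N).pos g
      positivity

/-- the nonnegative part, with the value at `ζ = 1` of the negative part added -/
def Jp (n N : ℕ) : AZ n N →L[ℂ] PS n N :=
  L1.lin (fun g : Lam n => if g.2 < 0 then L1.mono (wP n N) (g.1, 0) 1 else
      ((2 / rad N : ℝ) : ℂ) ^ g.2.natAbs • L1.mono (wP n N) (g.1, g.2.natAbs) 1) 1 fun g => by
    have hr := rad_pos N
    have hA : (0 : ℝ) ≤ rad N ^ ∑ i, g.1 i := pow_nonneg hr.le _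
    have h2 : (1 : ℝ) ≤ 2 ^ g.2.natAbs := one_le_pow₀ (by norm_num)
    split_ifs with h
    · rw [L1.norm_mono, norm_one, one_mul]
      show rad N ^ ((∑ i, g.1 i) + 0) ≤ 1 * (rad N ^ (∑ i, g.1 i) * 2 ^ g.2.natAbs)
      rw [add_zero]
      nlinarith
    · rw [norm_smul, L1.norm_mono, norm_one, one_mul, norm_pow,
        Complex.norm_real, Real.norm_of_nonneg (by positivity)]
      show (2 / rad N) ^ g.2.natAbs * rad N ^ ((∑ i, g.1 i) + g.2.natAbs) ≤
        1 * (rad N ^ (∑ i, g.1 i) * 2 ^ g.2.natAbs)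
      apply le_of_eq
      rw [pow_add, div_pow]
      field_simp

theorem half_norm {B : Type} [NormedCommRing B] [NormedAlgebra ℂ B] {N : ℕ} {z : B}
    (hz : ‖z‖ ≤ 2) : ‖((rad N / 2 : ℝ) : ℂ) • z‖ ≤ rad N := by
  have hr := rad_pos N
  rw [norm_smul, Complex.norm_real, Real.norm_of_nonneg (by positivity)]
  nlinarith

theorem mn_half_Za' {n N : ℕ} (ν : Fin n → ℕ) (k : ℕ) :
    mn (Xa n N) (((rad N / 2 : ℝ) : ℂ) • Za' n N) (ν, k) =
      ((rad N / 2 : ℝ) : ℂ) ^ k • L1.mono (wA n N) (ν, -(k : ℤ)) 1 := by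
  unfold mn
  rw [prod_Xa]
  show L1.mono _ (ν, 0) 1 * (((rad N / 2 : ℝ) : ℂ) • Za' n N) ^ k = _
  rw [smul_pow]
  unfold Za'
  rw [mono_pow, one_pow, mul_smul_comm, L1.mono_mul_mono, one_mul]
  congr 2
  refine Prod.ext ?_ ?_
  · simp
  · simp

theorem mn_half_Za {n N : ℕ} (ν : Fin n → ℕ) (k : ℕ) :
    mn (Xa n N) (((rad N / 2 : ℝ) : ℂ) • Za n N) (ν, k) =
      ((rad N / 2 : ℝ) : ℂ) ^ k • L1.mono (wA n N) (ν, (k : ℤ)) 1 := by
  unfold mn
  rw [prod_Xa]
  show L1.mono _ (ν, 0) 1 * (((rad N / 2 : ℝ) : ℂ) • Za n N) ^ k = _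
  rw [smul_pow]
  unfold Za
  rw [mono_pow, one_pow, mul_smul_comm, L1.mono_mul_mono, one_mul]
  congr 2
  refine Prod.ext ?_ ?_
  · simp
  · simp

theorem mn_half_one {n N : ℕ} (ν : Fin n → ℕ) (k : ℕ) :
    mn (Xv n N) (((rad N / 2 : ℝ) : ℂ) • (1 : PS n N)) (ν, k) =
      ((rad N / 2 : ℝ) : ℂ) ^ k • L1.mono (wP n N) (ν, 0) 1 := by
  unfold mn
  rw [prod_Xv]
  show L1.mono _ (ν, 0) 1 * (((rad N / 2 : ℝ) : ℂ) • (1 : PS n N)) ^ k = _
  rw [smul_pow, one_pow, mul_smul_comm, mul_one]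

theorem pow_cancel (N k : ℕ) :
    ((2 / rad N : ℝ) : ℂ) ^ k * ((rad N / 2 : ℝ) : ℂ) ^ k = 1 := by
  rw [← mul_pow, ← Complex.ofReal_mul]
  have h : 2 / rad N * (rad N / 2) = 1 := by
    have := (rad_pos N).ne'
    field_simp
  rw [h, Complex.ofReal_one, one_pow]

theorem az_split (n N : ℕ) : ∃ Jm Jp : AZ n N →L[ℂ] PS n N, (∀ q, ‖Jm q‖ ≤ 2 * ‖q‖) ∧
    (∀ q, ‖Jp q‖ ≤ ‖q‖) ∧
    (∀ q, evB (Xa n N) (((rad N / 2 : ℝ) : ℂ) • Za' n N) (Jm q) +
      evB (Xa n N) (((rad N / 2 : ℝ) : ℂ) • Za n N) (Jp q) = q) ∧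
    (∀ q, evB (Xv n N) (((rad N / 2 : ℝ) : ℂ) • (1 : PS n N)) (Jm q) = 0) := by
  obtain ⟨hX, hZ, hZ', -⟩ := az_basic n N
  refine ⟨Jm n N, Jp n N, fun q => L1.norm_lin_apply_le _ q, fun q => ?_, fun q => ?_,
    fun q => ?_⟩
  · refine (L1.norm_lin_apply_le _ q).trans ?_
    rw [one_mul]
  · have key : (evL (N := N) (Xa n N) (((rad N / 2 : ℝ) : ℂ) • Za' n N) (fun i => (hX i).le)
          (half_norm hZ'.le)).comp (Jm n N) +
        (evL (N := N) (Xa n N) (((rad N / 2 : ℝ) : ℂ) • Za n N) (fun i => (hX i).le)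
          (half_norm hZ.le)).comp (Jp n N) = ContinuousLinearMap.id ℂ (AZ n N) := by
      refine L1.ext1 fun g => ?_
      rw [ContinuousLinearMap.add_apply, ContinuousLinearMap.comp_apply,
        ContinuousLinearMap.comp_apply, ContinuousLinearMap.id_apply]
      unfold Jm Jp
      rw [L1.lin_mono, L1.lin_mono, one_smul, one_smul]
      by_cases hg : g.2 < 0
      · rw [if_pos hg, if_pos hg, map_sub, map_smul, evL_apply, evL_apply, evL_apply, evB_mono,
          evB_mono, evB_mono, one_smul, one_smul, one_smul, mn_half_Za', mn_half_Za',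
          mn_half_Za, smul_smul, pow_cancel, one_smul, pow_zero, one_smul, one_smul]
        have e1 : (g.1, -((g.2.natAbs : ℕ) : ℤ)) = g := by
          refine Prod.ext rfl ?_
          show -((g.2.natAbs : ℕ) : ℤ) = g.2
          omega
        rw [e1]
        simp
      · rw [if_neg hg, if_neg hg, map_zero, zero_add, map_smul, evL_apply, evB_mono, one_smul,
          mn_half_Za, smul_smul, pow_cancel, one_smul]
        congr 1
        refine Prod.ext rfl ?_
        show ((g.2.natAbs : ℕ) : ℤ) = g.2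
        omega
    exact congrArg (fun T : AZ n N →L[ℂ] AZ n N => T q) key
  · have h1 : ‖(1 : PS n N)‖ ≤ 2 := by rw [norm_one]; norm_num
    have key : (evL (N := N) (Xv n N) (((rad N / 2 : ℝ) : ℂ) • (1 : PS n N))
        (fun i => (norm_Xv n N i).le) (half_norm h1)).comp (Jm n N) = 0 := by
      refine L1.ext1 fun g => ?_
      rw [ContinuousLinearMap.comp_apply, ContinuousLinearMap.zero_apply]
      unfold Jm
      rw [L1.lin_mono, one_smul]
      by_cases hg : g.2 < 0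
      · rw [if_pos hg, map_sub, map_smul, evL_apply, evL_apply, evB_mono, evB_mono, one_smul,
          one_smul, mn_half_one, mn_half_one, smul_smul, pow_cancel, one_smul, pow_zero, one_smul,
          sub_self]
      · rw [if_neg hg, map_zero]
    exact congrArg (fun T : AZ n N →L[ℂ] PS n N => T q) key

end

end AZS

end Pool.Agent.TubeN
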