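import Pool.Agent.Lib_MP_1209e6_nt.Tube

/-! Statements for the gluing data (proofs in AZ.lean, helper29). -/

set_option autoImplicit false

open Filter Topology

noncomputable section

namespace Pool.Agent.TubeN

/-- exponents: power series in `b`, Laurent series in `ζ` -/
abbrev Lam (n : ℕ) : Type := (Fin n → ℕ) × ℤ

/-- the weight `rad N ^ |ν| * 2 ^ |k|` -/
def wA (n N : ℕ) : Wgt (Lam n) where
  w g := rad N ^ (∑ i, g.1 i) * 2 ^ g.2.natAbs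
  pos g := mul_pos (pow_pos (rad_pos N) _) (by positivity)
  zero := by simp
  add a b := by
    have h1 : rad N ^ (∑ i, (a + b).1 i) = rad N ^ (∑ i, a.1 i) * rad N ^ (∑ i, b.1 i) := by
      rw [← pow_add]
      congr 1
      simp only [Prod.fst_add, Pi.add_apply, Finset.sum_add_distrib]
    have h2 : (2 : ℝ) ^ (a + b).2.natAbs ≤ 2 ^ a.2.natAbs * 2 ^ b.2.natAbs := by
      rw [← pow_add]
      exact pow_le_pow_right₀ (by norm_num) (Int.natAbs_add_le _ _)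
    have h3 := (rad_pos N).le
    rw [h1]
    calc rad N ^ (∑ i, a.1 i) * rad N ^ (∑ i, b.1 i) * 2 ^ (a + b).2.natAbs
        ≤ rad N ^ (∑ i, a.1 i) * rad N ^ (∑ i, b.1 i) * (2 ^ a.2.natAbs * 2 ^ b.2.natAbs) := by
          gcongr
      _ = _ := by ring

/-- power series in `b`, Laurent series in `ζ` on the annulus `1/2 ≤ |ζ| ≤ 2` -/
abbrev AZ (n N : ℕ) : Type := L1 (wA n N)

/-- the variable `b_i` -/
def Xa (n N : ℕ) (i : Fin n) : AZ n N := L1.mono _ (Pi.single i 1, 0) 1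

/-- the variable `ζ` -/
def Za (n N : ℕ) : AZ n N := L1.mono _ (0, 1) 1

/-- the variable `ζ⁻¹` -/
def Za' (n N : ℕ) : AZ n N := L1.mono _ (0, -1) 1

/-- the function `η (exp z - e)` in a Banach algebra -/
def tauB {B : Type} [NormedCommRing B] [NormedAlgebra ℂ B] (η : ℂ) (z : B) : B :=
  η • (NormedSpace.exp z - NormedSpace.exp 1)

namespace AZS

section

variable {B B' : Type} [NormedCommRing B] [NormedAlgebra ℂ B] [CompleteSpace B] [NormOneClass B]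
  [NormedCommRing B'] [NormedAlgebra ℂ B'] [CompleteSpace B'] [NormOneClass B']

theorem az_basic (n N : ℕ) : (∀ i, ‖Xa n N i‖ = rad N) ∧ ‖Za n N‖ = 2 ∧ ‖Za' n N‖ = 2 ∧
    Za n N * Za' n N = 1 := sorry

theorem az_eval (n N : ℕ) (b : Fin n → B) (z z' : B) (hb : ∀ i, ‖b i‖ ≤ rad N) (hz : ‖z‖ ≤ 2)
    (hz' : ‖z'‖ ≤ 2) (h : z * z' = 1) : ∃ e : AZ n N →ₐ[ℂ] B, Continuous e ∧
      (∀ f, ‖e f‖ ≤ ‖f‖) ∧ (∀ i, e (Xa n N i) = b i) ∧ e (Za n N) = z ∧ e (Za' n N) = z' := sorry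

/-- splitting of a Laurent series; the negative part is normalised to vanish at `ζ = 1` -/
theorem az_split (n N : ℕ) : ∃ Jm Jp : AZ n N →L[ℂ] PS n N, (∀ q, ‖Jm q‖ ≤ 2 * ‖q‖) ∧
    (∀ q, ‖Jp q‖ ≤ ‖q‖) ∧
    (∀ q, evB (Xa n N) (((rad N / 2 : ℝ) : ℂ) • Za' n N) (Jm q) +
      evB (Xa n N) (((rad N / 2 : ℝ) : ℂ) • Za n N) (Jp q) = q) ∧
    (∀ q, evB (Xv n N) (((rad N / 2 : ℝ) : ℂ) • (1 : PS n N)) (Jm q) = 0) := sorry

theorem map_evB {n N : ℕ} (φ : B →ₐ[ℂ] B') (hφ : Continuous φ) (b : Fin n → B) (w : B)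
    (hb : ∀ i, ‖b i‖ ≤ rad N) (hw : ‖w‖ ≤ rad N) (f : PS n N) :
    φ (evB b w f) = evB (fun i => φ (b i)) (φ w) f := sorry

theorem evB_zero {n N : ℕ} (f : PS n N) :
    evB (fun _ : Fin n => (0 : B)) (0 : B) f = algebraMap ℂ B (f.co 0) := sorry

theorem norm_tauB_le (η : ℂ) (z : B) (hz : ‖z‖ ≤ 2) : ‖tauB η z‖ ≤ 11 * ‖η‖ := sorry

theorem map_tauB (φ : B →ₐ[ℂ] B') (hφ : Continuous φ) (η : ℂ) (z : B) :
    φ (tauB η z) = tauB η (φ z) := sorry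

theorem tauB_eq (η ζ : ℂ) : tauB η ζ = tau η ζ := sorry

theorem ps_exp (n N : ℕ) (hN : 1 ≤ N) : ‖NormedSpace.exp (Wv n N)‖ ≤ 2 ∧
    ‖NormedSpace.exp (-Wv n N)‖ ≤ 2 ∧ NormedSpace.exp (Wv n N) * NormedSpace.exp (-Wv n N) = 1 :=
  sorry

/-- a series which vanishes at `w = 0` is divisible by `w` -/
theorem ps_div' {n N : ℕ} (f : PS n N) (h : evB (Xv n N) (0 : PS n N) f = 0) :
    ∃ g : PS n N, f = Wv n N * g := sorry

end

end AZS

end Pool.Agent.TubeN
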