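import Pool.Agent.Lib_MP_1209e6_nt.StabSide

/-! Line N, STAB-GLUE: the glued tube is good for all derivations good for one of the two tubes. -/

set_option autoImplicit false

open Filter Topology
open Pool.Agent.CampanaFlow

noncomputable section

namespace Pool.Agent.TubeN

variable {S R : Type} [CommRing S] [Algebra ℂ S] [CommRing R] [Algebra ℂ R]

theorem sg_exp {w : ℂ} (hw : ‖w‖ < 1 / 2) : ‖Complex.exp w‖ < 2 := by
  rw [Complex.norm_exp]
  have h1 : w.re ≤ ‖w‖ := Complex.re_le_norm w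
  have h2 : Real.exp w.re ≤ Real.exp (1 / 2) := Real.exp_le_exp.2 (h1.trans hw.le)
  have h3 : Real.exp (1 / 2) < 2 := by
    have h4 : Real.exp (1 / 2) * Real.exp (1 / 2) < 2 * 2 := by
      rw [← Real.exp_add]
      have h5 := Real.exp_one_lt_d9
      norm_num
      linarith
    exact lt_of_mul_self_lt_mul_self₀ (by norm_num) h4
  linarith

theorem sg_rad {N : ℕ} (h : 1 ≤ N) : rad N ≤ 1 / 2 := by
  unfold rad
  have h1 : (1 : ℝ) ≤ (N : ℝ) := by exact_mod_cast h
  rw [div_le_div_iff₀ (by positivity) (by norm_num)]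
  linarith

/-- STAB-GLUE (from STAB-SIDE applied to both sides; on the side of `T₂` replace `w` by `-w`) -/
theorem stab_glue {n N₁ N₂ N : ℕ} {ρ : R →ₐ[ℂ] S} {y : Fin n → S} {m : S →ₐ[ℂ] ℂ}
    {T₁ : Tube n N₁ ρ y m} {T₂ : Tube n N₂ ρ y m} (G : GlueData T₁ T₂ N) (hinc : Incomp ρ)
    (D : Derivation ℂ S S) (hD : GoodFor T₁.Φ D ∨ GoodFor T₂.Φ D) : GoodFor G.Φ D := by
  have hr : rad N ≤ 1 / 2 := sg_rad G.one_le
  have hcb : ∀ (b : Fin n → ℂ) (u : ℂ) (i : Fin n), AnalyticAt ℂ (fun _ : ℂ => b i) u :=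
    fun b u i => analyticAt_const
  rcases hD with hD | hD
  · intro b hb f hf w hw
    rw [G.value b w hb hw]
    refine stab_side T₁ hinc G.η G.hη (fun u => G.σ₁ b u) (fun u hu i => ⟨?_, ?_⟩) G.time₁ D hD
      (rad N) (rad_pos N) hr f (fun w hw => ?_) w hw
    · exact G.ana₁ u (fun _ => b) (fun t => t) (fun i => hcb b u i) analyticAt_id hb hu i
    · exact G.small₁ b u hb hu i
    · rw [← G.value b w hb hw]
      exact hf w hw
  · -- the value in terms of the second tube
    have hval : ∀ (b : Fin n → ℂ) (w : ℂ), (∀ i, ‖b i‖ < rad N) → ‖w‖ < rad N → ∀ f : S,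
        evB b (-w) (G.Φ f) =
          evB (G.σ₂ b (Complex.exp (-w))) (tau G.η (Complex.exp w)) (T₂.Φ f) := by
      intro b w hb hw f
      have hw' : ‖-w‖ < rad N := by rwa [norm_neg]
      have hi : (Complex.exp (-w))⁻¹ = Complex.exp w := by
        rw [Complex.exp_neg, inv_inv]
      have h1 := G.value b (-w) hb hw' f
      have hne : Complex.exp (-w) ≠ 0 := Complex.exp_ne_zero _
      have hA : ‖Complex.exp (-w)‖ < 2 := sg_exp (lt_of_lt_of_le hw' hr)
      have hB : ‖(Complex.exp (-w))⁻¹‖ < 2 := by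
        rw [hi]
        exact sg_exp (lt_of_lt_of_le hw hr)
      have h2 : evB (G.σ₁ b (Complex.exp (-w))⁻¹) (tau G.η (Complex.exp (-w))) (T₁.Φ f) =
          evB (G.σ₂ b (Complex.exp (-w))) (tau G.η (Complex.exp (-w))⁻¹) (T₂.Φ f) := by
        apply G.agree <;> assumption
      rw [hi] at h2
      rw [h1, neg_neg, h2]
    intro b hb f hf w hw
    have hw' : ‖-w‖ < rad N := by rwa [norm_neg]
    have h0 := hval b (-w) hb hw' (D f)
    rw [neg_neg] at h0
    rw [h0]
    have h3 := stab_side T₂ hinc G.η G.hη (fun u => G.σ₂ b u) (fun u hu i => ⟨?_, ?_⟩) G.time₂ D hD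
      (rad N) (rad_pos N) hr f (fun w hw => ?_) (-w) hw'
    · rw [neg_neg] at h3
      exact h3
    · exact G.ana₂ u (fun _ => b) (fun t => t) (fun i => hcb b u i) analyticAt_id hb hu i
    · exact G.small₂ b u hb hu i
    · rw [← hval b w hb hw]
      exact hf (-w) (by rwa [norm_neg])

end Pool.Agent.TubeN
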