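import Pool.Agent.Lib_MP_1209e6_nt.GlueTube
import Pool.Agent.Lib_MP_1209e6_nt.StabGlue

/-! Line N, INDUCTION: one tube good for all derivations (the gluing data of two tubes as a
hypothesis). -/

set_option autoImplicit false

open Filter Topology
open Pool.Agent.CampanaFlow

noncomputable section

namespace Pool.Agent.TubeN

variable {S R : Type} [CommRing S] [Algebra ℂ S] [CommRing R] [Algebra ℂ R]

/-- INDUCTION, with GLUE-DATA as a hypothesis -/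
theorem all_tube_of {ρ : R →ₐ[ℂ] S} {n : ℕ} {y : Fin n → S} {m : S →ₐ[ℂ] ℂ} (hinc : Incomp ρ)
    (hglue : ∀ {N₁ N₂ : ℕ} (T₁ : Tube n N₁ ρ y m) (T₂ : Tube n N₂ ρ y m),
      ∃ N, Nonempty (GlueData T₁ T₂ N))
    {s : ℕ} (hs : 0 < s) (D : Fin s → Derivation ℂ S S)
    (h : ∀ a, ∃ (N : ℕ) (T : Tube n N ρ y m), GoodFor T.Φ (D a)) :
    ∃ (N : ℕ) (T : Tube n N ρ y m), ∀ a, GoodFor T.Φ (D a) := by
  have key : ∀ k : ℕ, k < s → ∃ (N : ℕ) (T : Tube n N ρ y m),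
      ∀ a : Fin s, (a : ℕ) ≤ k → GoodFor T.Φ (D a) := by
    intro k
    induction k with
    | zero =>
      intro _
      obtain ⟨N, T, hT⟩ := h ⟨0, hs⟩
      refine ⟨N, T, fun a ha => ?_⟩
      have e : a = ⟨0, hs⟩ := Fin.ext (Nat.le_zero.1 ha)
      rw [e]
      exact hT
    | succ k ih =>
      intro hk
      obtain ⟨N₁, T₁, hT₁⟩ := ih (Nat.lt_of_succ_lt hk)
      obtain ⟨N₂, T₂, hT₂⟩ := h ⟨k + 1, hk⟩
      obtain ⟨N, ⟨G⟩⟩ := hglue T₁ T₂
      obtain ⟨T, hT⟩ := glue_tube G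
      refine ⟨N, T, fun a ha => ?_⟩
      rw [hT]
      rcases Nat.lt_or_ge (a : ℕ) (k + 1) with h1 | h1
      · exact stab_glue G hinc (D a) (Or.inl (hT₁ a (Nat.le_of_lt_succ h1)))
      · have e : a = ⟨k + 1, hk⟩ := Fin.ext (le_antisymm ha h1)
        rw [e]
        exact stab_glue G hinc _ (Or.inr hT₂)
  obtain ⟨N, T, hT⟩ := key (s - 1) (Nat.sub_lt hs one_pos)
  exact ⟨N, T, fun a => hT a (Nat.le_sub_one_of_lt a.2)⟩

end Pool.Agent.TubeN
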