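import Mathlib

/-!
# MP_1209e6_ag, line N: components of the two sides of the annulus

A connected open set `U` with a point in the annulus: every component of each of the two sides
`{r < ‖ζ‖}`, `{‖ζ‖ < r'}` of `U` meets the annulus.
-/

set_option autoImplicit false

open Filter Topology

namespace Pool.Agent.TubeN

/-- a component of an open subset `U₁` of the preconnected open set `U`, which does not accumulate
at `U \ U₁`, is equal to `U` -/
theorem component_eq {U U₁ : Set ℂ} (hc : IsPreconnected U) (hU₁ : IsOpen U₁)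
    (hsub : U₁ ⊆ U) {z : ℂ} (hz : z ∈ U₁)
    (hcl : ∀ x ∈ U, x ∈ closure (connectedComponentIn U₁ z) → x ∈ U₁) :
    connectedComponentIn U₁ z = U := by
  have h1 : connectedComponentIn U₁ z ⊆ U₁ := connectedComponentIn_subset U₁ z
  refine Set.Subset.antisymm (h1.trans hsub) ?_
  refine hc.subset_left_of_subset_union (v := (closure (connectedComponentIn U₁ z))ᶜ)
    hU₁.connectedComponentIn isClosed_closure.isOpen_compl ?_ ?_ ?_
  · rw [Set.disjoint_left]
    intro x hx hx'
    exact hx' (subset_closure hx)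
  · intro x hx
    by_cases hx' : x ∈ closure (connectedComponentIn U₁ z)
    · left
      have hx1 : x ∈ U₁ := hcl x hx hx'
      -- the component of `x` is open and meets the component of `z`
      have hop : IsOpen (connectedComponentIn U₁ x) := hU₁.connectedComponentIn
      obtain ⟨y, hy1, hy2⟩ := mem_closure_iff.1 hx' _ hop (mem_connectedComponentIn hx1)
      rw [connectedComponentIn_eq hy2, ← connectedComponentIn_eq hy1]
      exact mem_connectedComponentIn hx1
    · exact Or.inr hx'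
  · exact ⟨z, hsub hz, mem_connectedComponentIn hz⟩

/-- outer side: every component of `{u ∈ U | r < ‖ζ u‖}` contains a point with `‖ζ u‖ < r'` -/
theorem exists_outer {U : Set ℂ} (hU : IsOpen U) (hc : IsPreconnected U) {ζ : ℂ → ℂ}
    (hζ : ContinuousOn ζ U) {r r' : ℝ} (hr : r < r') {u₀ : ℂ} (hu₀ : u₀ ∈ U)
    (h2 : ‖ζ u₀‖ < r') {z : ℂ} (hz : z ∈ U) (hzr : r < ‖ζ z‖) :
    ∃ u ∈ connectedComponentIn {u | u ∈ U ∧ r < ‖ζ u‖} z, ‖ζ u‖ < r' := by
  by_contra hcon
  push Not at hcon
  have hop : IsOpen {u | u ∈ U ∧ r < ‖ζ u‖} := by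
    have := hζ.norm.isOpen_inter_preimage hU (isOpen_Ioi (a := r))
    exact this
  have hz' : z ∈ {u | u ∈ U ∧ r < ‖ζ u‖} := ⟨hz, hzr⟩
  have heq : connectedComponentIn {u | u ∈ U ∧ r < ‖ζ u‖} z = U := by
    refine component_eq hc hop (fun u hu => hu.1) hz' ?_
    intro x hxU hx
    refine ⟨hxU, ?_⟩
    have h3 : r' ≤ ‖ζ x‖ := by
      by_contra h4
      push Not at h4
      have h5 : {u | ‖ζ u‖ < r'} ∈ 𝓝 x := by
        have := (hζ.continuousAt (hU.mem_nhds hxU)).norm
        exact this.eventually_lt_const h4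
      obtain ⟨y, hy1, hy2⟩ := mem_closure_iff_nhds.1 hx _ h5
      exact absurd hy1 (not_lt.2 (hcon y hy2))
    exact hr.trans_le h3
  have h6 := hcon u₀ (by rw [heq]; exact hu₀)
  exact absurd h2 (not_lt.2 h6)

/-- inner side: every component of `{u ∈ U | ‖ζ u‖ < r'}` contains a point with `r < ‖ζ u‖` -/
theorem exists_inner {U : Set ℂ} (hU : IsOpen U) (hc : IsPreconnected U) {ζ : ℂ → ℂ}
    (hζ : ContinuousOn ζ U) {r r' : ℝ} (hr : r < r') {u₀ : ℂ} (hu₀ : u₀ ∈ U)
    (h2 : r < ‖ζ u₀‖) {z : ℂ} (hz : z ∈ U) (hzr : ‖ζ z‖ < r') :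
    ∃ u ∈ connectedComponentIn {u | u ∈ U ∧ ‖ζ u‖ < r'} z, r < ‖ζ u‖ := by
  by_contra hcon
  push Not at hcon
  have hop : IsOpen {u | u ∈ U ∧ ‖ζ u‖ < r'} := by
    have := hζ.norm.isOpen_inter_preimage hU (isOpen_Iio (a := r'))
    exact this
  have hz' : z ∈ {u | u ∈ U ∧ ‖ζ u‖ < r'} := ⟨hz, hzr⟩
  have heq : connectedComponentIn {u | u ∈ U ∧ ‖ζ u‖ < r'} z = U := by
    refine component_eq hc hop (fun u hu => hu.1) hz' ?_
    intro x hxU hx
    refine ⟨hxU, ?_⟩
    have h3 : ‖ζ x‖ ≤ r := by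
      by_contra h4
      push Not at h4
      have h5 : {u | r < ‖ζ u‖} ∈ 𝓝 x := by
        have := (hζ.continuousAt (hU.mem_nhds hxU)).norm
        exact this.eventually_const_lt h4
      obtain ⟨y, hy1, hy2⟩ := mem_closure_iff_nhds.1 hx _ h5
      exact absurd hy1 (not_lt.2 (hcon y hy2))
    exact h3.trans_lt hr
  have h6 := hcon u₀ (by rw [heq]; exact hu₀)
  exact absurd h2 (not_lt.2 h6)

end Pool.Agent.TubeN
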