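import Pool.Agent.Lib_MP_1209e6_k3.Special
import Pool.Agent.Lib_MP_1209e6_nt.End

/-!
# Campana's conjecture for varieties with covering families of almost homogeneous varieties

Let `X` be a complex projective variety. A covering family of almost homogeneous varieties of `X` is a
generically finite dominant rational map `V ⇢ X` together with a dominant rational map `V ⇢ B` whose generic
fibre is birational to a projective variety over `k = ℂ(B)` whose global vector fields generate the tangent
space at the generic point (curves of genus at most one, torsors under abelian varieties, quadrics, flag
varieties, toric varieties, …). In terms of fields: `L = ℂ(V)` is a finite extension of `K = ℂ(X)`, `k ⊆ L`.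
The images of the fibres in `X` may be singular, they may intersect each other, and `X` need not have any
fibration.

Theorem. If `X` has finitely many such covering families `(L_i, k_i)` and each rational function on `X` which
is algebraic over all the fields `k_i` is constant, then `X` is special and `X` is Brody-special.

The case `L_i = K` is that of transverse fibrations.

The definitions `IsVariety`, `SpecialField`, `BrodySpecial` are in `Pool.Agent.Lib_MP_1209e6_ag.Defs`, the
definitions `Chart`, `GlobalField`, `AlmostHomogeneous` are in `Pool.Agent.Lib_MP_1209e6_fl.Defs`.

Sketch of the proof. Special: a rational form on `X` and the regular sections of the powers of the rank one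
sheaf which it generates are pulled back to `L_i`; there the form is contracted with global vector fields
and with lifts of derivations of `k_i` which preserve a given place, so the quotients of regular sections are
algebraic over `k_i` for all `i`, hence constant.

Brody-special: let `M` be a Galois extension of `K` containing all `L_i` and `D_1, …, D_m` the extensions to
`M` of all conjugates of finitely many global vector fields; their common kernel is `ℂ`. At a very general
point `p` each `D_j` gives a tube: a germ `(a, t) ↦ g (a, t)` of maps (`a` = starting point near `p`, `t` =
time), which extends to all times `t` as meromorphic curves in `X`, because the fibres are projective. Two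
tubes are glued: on the annulus `1/2 < |ζ| < 2` one solves, in a Wiener algebra of Laurent series,
`a (ζ) + g_1 (a (ζ), η (exp ζ - e)) = b (ζ) + g_2 (b (ζ), η (exp (1/ζ) - e))` with `a` holomorphic on
`|ζ| > 1/2` (infinity included) and `b` holomorphic on `|ζ| < 2`, by a contraction; `w ↦ ζ = exp w` gives
a new tube. If a function vanishes on a curve of the new tube it vanishes, since the times take each small
value `t` at points `ζ_k → ∞` (and `ζ_k → 0`), on all curves of the old tubes which it meets; therefore the
ideal of a curve of the new tube is stable under the derivations of both tubes (primes over a stable prime
in an integral extension are stable). After finitely many gluings the ideal of the entire curve through `p`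
is stable under all `D_j`, so it is zero, as `p` is very general.
-/

set_option autoImplicit false

open Pool.Agent.Campana Pool.Agent.CampanaFlow

namespace Pool.Agent.Results.MP_1209e6_ag.CoveringFamilies

/-- The function field of the projective variety with homogeneous prime ideal `P`: the field
generated by the quotients `x_i / x_j` in the fraction field of the coordinate ring. -/
noncomputable abbrev functionField {n : ℕ} (P : Ideal (MvPolynomial (Fin (n + 1)) ℂ)) [P.IsPrime] :
    IntermediateField ℂ (FractionRing (MvPolynomial (Fin (n + 1)) ℂ ⧸ P)) :=
  IntermediateField.adjoin ℂ
    (Set.range fun ij : Fin (n + 1) × Fin (n + 1) => coord P ij.1 / coord P ij.2)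

/-- A covering family of almost homogeneous varieties of the variety with function field `K`: a finite
extension `L` of `K` which is the function field of an almost homogeneous projective variety over the
subfield `k`, with generic point `[x_0 : … : x_N]`. -/
structure CoveringFamily (K : Type) [Field K] [Algebra ℂ K] where
  /-- the function field of the total space of the family -/
  L : Type
  [field : Field L]
  [algebraComplex : Algebra ℂ L]
  [algebra : Algebra K L]
  [tower : IsScalarTower ℂ K L]
  [finite : FiniteDimensional K L]
  /-- the function field of the base of the family -/
  k : IntermediateField ℂ L
  /-- the dimension of the projective space -/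
  N : ℕ
  /-- the homogeneous coordinates of the generic point of the generic member -/
  x : Fin (N + 1) → L
  almostHomogeneous : AlmostHomogeneous k x

attribute [instance] CoveringFamily.field CoveringFamily.algebraComplex CoveringFamily.algebra
  CoveringFamily.tower CoveringFamily.finite

/-- The rational function `u` of the variety is algebraic over the field `k` of the covering family, that is
constant on the general members of the family. -/
def CoveringFamily.IsBasic {K : Type} [Field K] [Algebra ℂ K] (F : CoveringFamily K) (u : K) : Prop :=
  IsAlgebraic F.k (algebraMap K F.L u)

/-- The families have no common non-constant rational function: each `u` in `K` which is algebraic over the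
fields `k` of all the families is constant. -/
def NoCommonFunction {K : Type} [Field K] [Algebra ℂ K] {r : ℕ} (F : Fin r → CoveringFamily K) : Prop :=
  ∀ u : K, (∀ i, (F i).IsBasic u) → ∃ c : ℂ, u = algebraMap ℂ K c

/-- A projective variety with finitely many covering families of almost homogeneous varieties which have no
common non-constant rational function is special and Brody-special. -/
theorem result (n : ℕ) (P : Ideal (MvPolynomial (Fin (n + 1)) ℂ)) [P.IsPrime] (hP : IsVariety P)
    (r : ℕ) (F : Fin r → CoveringFamily (functionField P)) (h : NoCommonFunction F) :
    SpecialField (functionField P) ∧ BrodySpecial P :=
  ⟨Pool.Agent.K3.special_covers (K := FunField P) (funField_fg P) (fun i => (F i).L)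
      (fun i => (F i).k) (fun i => (F i).N) (fun i => (F i).x)
      (fun i => (F i).almostHomogeneous) h,
    Pool.Agent.CampanaNT.brody_covers P hP (fun i => (F i).L)
      (fun i => (F i).k) (fun i => (F i).N) (fun i => (F i).x)
      (fun i => (F i).almostHomogeneous) h⟩

end Pool.Agent.Results.MP_1209e6_ag.CoveringFamilies
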