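import Pool.Agent.Lib_MP_1209e6_kc.BGrow

/-!
# Families of points with values in a Banach algebra (MP_1209e6_ag, line N)

Uniform existence of flows of Banach algebra valued points, compositions of flows, coordinates,
holomorphic dependence.
-/

set_option autoImplicit false

open Filter Topology Pool.Agent.CampanaFlow Pool.Agent.CampanaB

namespace Pool.Agent.TubeN

variable {S : Type} [CommRing S] [Algebra ℂ S]

theorem word_replicate {ι : Type} (d : ι → Derivation ℂ S S) (i : ι) (n : ℕ) (f : S) :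
    word d (List.replicate n i) f = (d i)^[n] f := by
  induction n with
  | zero => rfl
  | succ n ih =>
    rw [Function.iterate_succ_apply', ← ih]
    rfl

/-- Taylor coefficients: geometric bound, uniform over bounded Banach algebra valued points -/
theorem unif_tcW {ι : Type} [Finite ι] (d : ι → Derivation ℂ S S) (G : Finset S)
    (hG : Algebra.adjoin ℂ (G : Set S) = ⊤) (M : ℝ) :
    ∃ K : ℝ, 0 < K ∧ ∃ C : S → ℝ, (∀ f, 0 ≤ C f) ∧
      ∀ (W : Type) [NormedCommRing W] [NormedAlgebra ℂ W] [NormOneClass W] (q : S →ₐ[ℂ] W),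
        (∀ g ∈ G, ‖q g‖ ≤ M) → ∀ (i : ι) (f : S) (n : ℕ), ‖tcW (d i) q f n‖ ≤ C f * K ^ n := by
  obtain ⟨K, hK, h⟩ := unif_grow d G hG M
  choose C hC h using h
  refine ⟨K, hK, C, hC, ?_⟩
  intro W _ _ _ q hq i f n
  have h1 := h f W q hq (List.replicate n i)
  rw [word_replicate, List.length_replicate] at h1
  have hf : (0 : ℝ) < n.factorial := by positivity
  unfold tcW
  rw [norm_smul, norm_inv, Complex.norm_natCast, inv_mul_le_iff₀ hf]
  calc ‖q ((d i)^[n] f)‖ ≤ C f * n.factorial * K ^ n := h1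
    _ = n.factorial * (C f * K ^ n) := by ring

/-- Uniform flows of Banach algebra valued points. -/
theorem unif_flowW {ι : Type} [Finite ι] (d : ι → Derivation ℂ S S) (G : Finset S)
    (hG : Algebra.adjoin ℂ (G : Set S) = ⊤) (M : ℝ) :
    ∃ ρ : ℝ, 0 < ρ ∧ ∃ L : S → ℝ, (∀ f, 0 ≤ L f) ∧
      ∀ (W : Type) [NormedCommRing W] [NormedAlgebra ℂ W] [NormOneClass W] [CompleteSpace W]
        (q : S →ₐ[ℂ] W), (∀ g ∈ G, ‖q g‖ ≤ M) → ∀ (i : ι) (t : W), ‖t‖ ≤ ρ →
        ∃ q' : S →ₐ[ℂ] W, IsFlowW (d i) q t q' ∧ (∀ g ∈ G, ‖q' g‖ ≤ M + 1) ∧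
          ∀ f, ‖q' f - q f‖ ≤ L f * ‖t‖ := by
  obtain ⟨K, hK, C, hC, h⟩ := unif_tcW d G hG M
  obtain ⟨T, hT⟩ : ∃ T : ℝ, T = ∑ g ∈ G, 2 * C g * K := ⟨_, rfl⟩
  have hT0 : 0 ≤ T := hT ▸ Finset.sum_nonneg fun g _ => by have := hC g; positivity
  refine ⟨min (1 / (2 * K)) (1 / (1 + T)), by positivity, fun f => 2 * C f * K,
    fun f => by have := hC f; positivity, ?_⟩
  intro W _ _ _ _ q hq i t ht
  have ht1 : K * ‖t‖ ≤ 1 / 2 := by
    have h1 : ‖t‖ ≤ 1 / (2 * K) := ht.trans (min_le_left _ _)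
    rw [le_div_iff₀ (by positivity)] at h1
    linarith
  have ht2 : T * ‖t‖ ≤ 1 := by
    have h1 : ‖t‖ ≤ 1 / (1 + T) := ht.trans (min_le_right _ _)
    rw [le_div_iff₀ (by positivity)] at h1
    have := norm_nonneg t
    nlinarith
  have hx0 : 0 ≤ K * ‖t‖ := by positivity
  have hterm : ∀ f n, ‖tcW (d i) q f n‖ * ‖t‖ ^ n ≤ C f * (K * ‖t‖) ^ n := by
    intro f n
    calc ‖tcW (d i) q f n‖ * ‖t‖ ^ n ≤ C f * K ^ n * ‖t‖ ^ n :=
          mul_le_mul_of_nonneg_right (h W q hq i f n) (by positivity)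
      _ = C f * (K * ‖t‖) ^ n := by rw [mul_pow]; ring
  have hgeo : ∀ f, Summable fun n : ℕ => C f * (K * ‖t‖) ^ n := fun f =>
    (summable_geometric_of_lt_one hx0 (by linarith)).mul_left _
  have hconv : ∀ f, ConvW (d i) q t f := fun f =>
    Summable.of_nonneg_of_le (fun n => by positivity) (hterm f) (hgeo f)
  obtain ⟨q', hq'⟩ := exists_isFlowW hconv
  have hdiff : ∀ f, ‖q' f - q f‖ ≤ 2 * C f * K * ‖t‖ := by
    intro f
    rw [(hq' f).2]
    have hs : Summable fun n : ℕ => tcW (d i) q f n * t ^ n := (summ_norm (hconv f)).of_norm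
    have hev : evW (d i) q t f - q f = ∑' n : ℕ, tcW (d i) q f (n + 1) * t ^ (n + 1) := by
      unfold evW
      rw [hs.tsum_eq_zero_add, tcW_zero, pow_zero, mul_one]
      ring
    rw [hev]
    have hs1 : Summable fun n : ℕ => C f * (K * ‖t‖) ^ (n + 1) :=
      (summable_nat_add_iff 1).2 (hgeo f)
    have htail : ‖∑' n : ℕ, tcW (d i) q f (n + 1) * t ^ (n + 1)‖ ≤
        ∑' n : ℕ, C f * (K * ‖t‖) ^ (n + 1) := by
      refine tsum_of_norm_bounded hs1.hasSum fun n => ?_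
      exact (norm_term_le _).trans (hterm f (n + 1))
    have hg : ∑' n : ℕ, C f * (K * ‖t‖) ^ (n + 1) = C f * (K * ‖t‖) * (1 - K * ‖t‖)⁻¹ := by
      rw [← tsum_geometric_of_lt_one hx0 (by linarith), ← tsum_mul_left]
      refine tsum_congr fun n => ?_
      rw [pow_succ]; ring
    refine htail.trans ?_
    rw [hg]
    have h1 : (1 - K * ‖t‖)⁻¹ ≤ 2 := by
      rw [inv_le_comm₀ (by linarith) (by norm_num)]
      linarith
    calc C f * (K * ‖t‖) * (1 - K * ‖t‖)⁻¹ ≤ C f * (K * ‖t‖) * 2 :=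
          mul_le_mul_of_nonneg_left h1 (mul_nonneg (hC f) hx0)
      _ = 2 * C f * K * ‖t‖ := by ring
  refine ⟨q', hq', fun g hg => ?_, hdiff⟩
  have h1 : 2 * C g * K ≤ T := by
    rw [hT]
    exact Finset.single_le_sum (f := fun g => 2 * C g * K)
      (fun g _ => by have := hC g; positivity) hg
  have h2 : ‖q' g - q g‖ ≤ 1 := by
    refine (hdiff g).trans ((mul_le_mul_of_nonneg_right h1 (norm_nonneg t)).trans ht2)
  calc ‖q' g‖ = ‖q g + (q' g - q g)‖ := by congr 1; ring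
    _ ≤ ‖q g‖ + ‖q' g - q g‖ := norm_add_le _ _
    _ ≤ M + 1 := add_le_add (hq g hg) h2

section path

variable {ι : Type} {W : Type} [NormedCommRing W] [NormedAlgebra ℂ W]

/-- `q'` is obtained from `q` by following the flows in the list (the head is the last one) -/
def PathW (d : ι → Derivation ℂ S S) (q : S →ₐ[ℂ] W) : List (ι × W) → (S →ₐ[ℂ] W) → Prop
  | [], q' => q' = q
  | x :: l, q' => ∃ q₁, PathW d q l q₁ ∧ IsFlowW (d x.1) q₁ x.2 q'

theorem PathW.unique {d : ι → Derivation ℂ S S} {q : S →ₐ[ℂ] W} {l : List (ι × W)}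
    {q' q'' : S →ₐ[ℂ] W} (h : PathW d q l q') (h' : PathW d q l q'') : q' = q'' := by
  induction l generalizing q' q'' with
  | nil =>
    have h1 : q' = q := h
    have h2 : q'' = q := h'
    rw [h1, h2]
  | cons x l ih =>
    obtain ⟨q1, h1, h2⟩ := h
    obtain ⟨q2, h3, h4⟩ := h'
    have h5 := ih h1 h3
    subst h5
    ext f
    rw [(h2 f).2, (h4 f).2]

/-- functoriality -/
theorem PathW.map [NormOneClass W] [CompleteSpace W] {W' : Type} [NormedCommRing W']
    [NormedAlgebra ℂ W'] [NormOneClass W'] [CompleteSpace W'] (φ : W →ₐ[ℂ] W')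
    (hφ : ∀ x, ‖φ x‖ ≤ ‖x‖) {d : ι → Derivation ℂ S S} {q : S →ₐ[ℂ] W} {l : List (ι × W)}
    {q' : S →ₐ[ℂ] W} (h : PathW d q l q') :
    PathW d (φ.comp q) (l.map fun x => (x.1, φ x.2)) (φ.comp q') := by
  induction l generalizing q' with
  | nil =>
    have h1 : q' = q := h
    show φ.comp q' = φ.comp q
    rw [h1]
  | cons x l ih =>
    obtain ⟨q1, h1, h2⟩ := h
    exact ⟨φ.comp q1, ih h1, h2.map φ hφ⟩

/-- the values at coordinates: `d i (y j) = δ_ij` -/
theorem flowW_coord [DecidableEq ι] {d : ι → Derivation ℂ S S} {y : ι → S}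
    (hy : ∀ i j, d i (y j) = if i = j then 1 else 0) {q q' : S →ₐ[ℂ] W} {i : ι} {t : W}
    (h : IsFlowW (d i) q t q') (j : ι) : q' (y j) = q (y j) + if i = j then t else 0 := by
  rw [(h (y j)).2]
  have h0 : ∀ n, (d i)^[n] (0 : S) = 0 := by
    intro n
    induction n with
    | zero => rfl
    | succ n ih => rw [Function.iterate_succ_apply, map_zero, ih]
  have h1 : ∀ n, (d i)^[n] (1 : S) = if n = 0 then 1 else 0 := by
    intro n
    cases n with
    | zero => rfl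
    | succ n => rw [Function.iterate_succ_apply, Derivation.map_one_eq_zero, h0, if_neg (by simp)]
  have h2 : ∀ n, n ≠ 0 → n ≠ 1 → tcW (d i) q (y j) n * t ^ n = 0 := by
    intro n hn0 hn1
    obtain ⟨m, rfl⟩ : ∃ m, n = m + 2 := ⟨n - 2, by omega⟩
    unfold tcW
    rw [Function.iterate_succ_apply, hy]
    split_ifs with hij
    · rw [h1, if_neg (by omega), map_zero, smul_zero, zero_mul]
    · rw [h0, map_zero, smul_zero, zero_mul]
  unfold evW
  rw [tsum_eq_sum (s := {0, 1}) (fun n hn => by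
    simp only [Finset.mem_insert, Finset.mem_singleton, not_or] at hn
    exact h2 n hn.1 hn.2), Finset.sum_pair (by norm_num), tcW_zero, pow_zero, mul_one, pow_one]
  congr 1
  unfold tcW
  rw [Function.iterate_one, hy]
  split_ifs with hij
  · rw [map_one]
    simp
  · rw [map_zero, smul_zero, zero_mul]

theorem pathW_coord [DecidableEq ι] {d : ι → Derivation ℂ S S} {y : ι → S}
    (hy : ∀ i j, d i (y j) = if i = j then 1 else 0) {q : S →ₐ[ℂ] W} {l : List (ι × W)}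
    {q' : S →ₐ[ℂ] W} (h : PathW d q l q') (j : ι) :
    q' (y j) = q (y j) + (l.map fun x => if x.1 = j then x.2 else 0).sum := by
  induction l generalizing q' with
  | nil =>
    have h1 : q' = q := h
    rw [h1]
    simp
  | cons x l ih =>
    obtain ⟨q1, h1, h2⟩ := h
    rw [flowW_coord hy h2 j, ih h1, List.map_cons, List.sum_cons]
    ring

theorem sum_coord [DecidableEq ι] [Fintype ι] (a : ι → W) (j : ι) {l : List ι} (hl : l.Nodup)
    (hj : j ∈ l) : (((l.map fun i => (i, a i)) : List (ι × W)).map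
      fun x => if x.1 = j then x.2 else 0).sum = a j := by
  rw [List.map_map]
  have h1 : ((fun x : ι × W => if x.1 = j then x.2 else 0) ∘ fun i => (i, a i)) =
      fun i => if i = j then a i else 0 := rfl
  rw [h1]
  induction l with
  | nil => exact absurd hj (List.not_mem_nil)
  | cons b l ih =>
    rw [List.map_cons, List.sum_cons]
    have hb := List.nodup_cons.1 hl
    by_cases hbj : b = j
    · subst hbj
      rw [if_pos rfl]
      have h2 : (l.map fun i => if i = b then a i else 0).sum = 0 := by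
        apply List.sum_eq_zero
        intro x hx
        obtain ⟨i, hi, rfl⟩ := List.mem_map.1 hx
        rw [if_neg]
        rintro rfl
        exact hb.1 hi
      rw [h2, add_zero]
    · rw [if_neg hbj, zero_add]
      refine ih hb.2 ?_
      rcases List.mem_cons.1 hj with h | h
      · exact absurd h.symm hbj
      · exact h

end path

/-- existence and bounds of compositions of flows -/
theorem unif_pathW {ι : Type} [Finite ι] (d : ι → Derivation ℂ S S) (G : Finset S)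
    (hG : Algebra.adjoin ℂ (G : Set S) = ⊤) (M : ℝ) (N : ℕ) :
    ∃ ρ : ℝ, 0 < ρ ∧ ∃ L : S → ℝ, (∀ f, 0 ≤ L f) ∧
      ∀ (W : Type) [NormedCommRing W] [NormedAlgebra ℂ W] [NormOneClass W] [CompleteSpace W]
        (q : S →ₐ[ℂ] W), (∀ g ∈ G, ‖q g‖ ≤ M) → ∀ (l : List (ι × W)), l.length = N →
        ∀ r ≤ ρ, (∀ x ∈ l, ‖x.2‖ ≤ r) →
        ∃ q' : S →ₐ[ℂ] W, PathW d q l q' ∧ (∀ g ∈ G, ‖q' g‖ ≤ M + N) ∧
          ∀ f, ‖q' f - q f‖ ≤ L f * r := by
  induction N with
  | zero =>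
    refine ⟨1, one_pos, fun _ => 0, fun _ => le_rfl, ?_⟩
    intro W _ _ _ _ q hq l hl r _ _
    rw [List.length_eq_zero_iff] at hl
    subst hl
    refine ⟨q, rfl, fun g hg => ?_, fun f => ?_⟩
    · simpa using hq g hg
    · simp
  | succ N ih =>
    obtain ⟨ρ₁, hρ₁, L₁, hL₁, h1⟩ := ih
    obtain ⟨ρ₂, hρ₂, L₂, hL₂, h2⟩ := unif_flowW d G hG (M + N)
    refine ⟨min ρ₁ ρ₂, lt_min hρ₁ hρ₂, fun f => L₁ f + L₂ f, fun f => add_nonneg (hL₁ f) (hL₂ f), ?_⟩
    intro W _ _ _ _ q hq l hl r hr hlr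
    obtain ⟨x, l, rfl⟩ : ∃ x l', l = x :: l' := by
      cases l with
      | nil => simp at hl
      | cons x l => exact ⟨x, l, rfl⟩
    rw [List.length_cons] at hl
    obtain ⟨q₁, hq₁, hb₁, hd₁⟩ := h1 W q hq l (by omega) r (hr.trans (min_le_left _ _))
      (fun y hy => hlr y (List.mem_cons_of_mem _ hy))
    have hx : ‖x.2‖ ≤ r := hlr x List.mem_cons_self
    obtain ⟨q₂, hq₂, hb₂, hd₂⟩ := h2 W q₁ hb₁ x.1 x.2 (hx.trans (hr.trans (min_le_right _ _)))
    refine ⟨q₂, ⟨q₁, hq₁, hq₂⟩, fun g hg => ?_, fun f => ?_⟩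
    · have := hb₂ g hg
      push_cast
      linarith
    · calc ‖q₂ f - q f‖ = ‖(q₂ f - q₁ f) + (q₁ f - q f)‖ := by congr 1; ring
        _ ≤ ‖q₂ f - q₁ f‖ + ‖q₁ f - q f‖ := norm_add_le _ _
        _ ≤ L₂ f * r + L₁ f * r := by
            refine add_le_add ((hd₂ f).trans ?_) (hd₁ f)
            exact mul_le_mul_of_nonneg_left hx (hL₂ f)
        _ = (L₁ f + L₂ f) * r := by ring

/-- the flow of a bounded holomorphic family of points is holomorphic -/
theorem unif_ana {ι : Type} [Finite ι] (d : ι → Derivation ℂ S S) (G : Finset S)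
    (hG : Algebra.adjoin ℂ (G : Set S) = ⊤) (M : ℝ) :
    ∃ ρ : ℝ, 0 < ρ ∧ ∀ U : Set ℂ, IsOpen U → ∀ (γ γ' : ℂ → S →ₐ[ℂ] ℂ) (τ : ℂ → ℂ) (i : ι),
      (∀ f, ∀ w ∈ U, AnalyticAt ℂ (fun w => γ w f) w) → (∀ w ∈ U, ∀ g ∈ G, ‖γ w g‖ ≤ M) →
      (∀ w ∈ U, AnalyticAt ℂ τ w) → (∀ w ∈ U, ‖τ w‖ ≤ ρ) →
      (∀ w ∈ U, IsFlowW (d i) (γ w) (τ w) (γ' w)) →
      ∀ f, ∀ w ∈ U, AnalyticAt ℂ (fun w => γ' w f) w := by
  obtain ⟨K, hK, C, hC, h⟩ := unif_tcW d G hG M
  refine ⟨1 / (2 * K), by positivity, ?_⟩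
  intro U hU γ γ' τ i hγ hM hτ hρ hfl f w hw
  have hdiff : DifferentiableOn ℂ (fun w => ∑' n, tcW (d i) (γ w) f n * τ w ^ n) U := by
    refine Complex.differentiableOn_tsum_of_summable_norm (u := fun n => C f * (1 / 2) ^ n)
      ((summable_geometric_of_lt_one (by norm_num) (by norm_num)).mul_left _) ?_ hU ?_
    · intro n w hw
      have h1 : AnalyticAt ℂ (fun w => tcW (d i) (γ w) f n) w := by
        unfold tcW
        simp only [smul_eq_mul]
        exact analyticAt_const.mul (hγ _ w hw)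
      exact (h1.mul ((hτ w hw).pow n)).differentiableAt.differentiableWithinAt
    · intro n w hw
      have h1 := h ℂ (γ w) (hM w hw) i f n
      have h2 : K * ‖τ w‖ ≤ 1 / 2 := by
        have h3 := hρ w hw
        rw [le_div_iff₀ (by positivity)] at h3
        linarith
      rw [norm_mul, norm_pow]
      calc ‖tcW (d i) (γ w) f n‖ * ‖τ w‖ ^ n ≤ C f * K ^ n * ‖τ w‖ ^ n :=
            mul_le_mul_of_nonneg_right h1 (by positivity)
        _ = C f * (K * ‖τ w‖) ^ n := by rw [mul_pow]; ring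
        _ ≤ C f * (1 / 2) ^ n := by
            refine mul_le_mul_of_nonneg_left ?_ (hC f)
            exact pow_le_pow_left₀ (by positivity) h2 n
  refine (hdiff.analyticAt (hU.mem_nhds hw)).congr ?_
  filter_upwards [hU.mem_nhds hw] with v hv
  exact ((hfl v hv f).2).symm

/-- compositions of flows of complex points depend holomorphically on the times -/
theorem unif_path_ana {ι : Type} [Finite ι] (d : ι → Derivation ℂ S S) (G : Finset S)
    (hG : Algebra.adjoin ℂ (G : Set S) = ⊤) (p : S →ₐ[ℂ] ℂ) (N : ℕ) :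
    ∃ ρ : ℝ, 0 < ρ ∧ ∀ U : Set ℂ, IsOpen U → ∀ (l : List ι), l.length = N →
      ∀ (a : ℂ → ι → ℂ) (γ : ℂ → S →ₐ[ℂ] ℂ),
      (∀ i, ∀ w ∈ U, AnalyticAt ℂ (fun w => a w i) w) → (∀ w ∈ U, ∀ i, ‖a w i‖ ≤ ρ) →
      (∀ w ∈ U, PathW d p (l.map fun i => (i, a w i)) (γ w)) →
      ∀ f, ∀ w ∈ U, AnalyticAt ℂ (fun w => γ w f) w := by
  induction N with
  | zero =>
    refine ⟨1, one_pos, ?_⟩
    intro U hU l hl a γ _ _ hp f w hw
    rw [List.length_eq_zero_iff] at hl
    subst hl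
    have h1 : ∀ w ∈ U, γ w = p := fun w hw => hp w hw
    refine (analyticAt_const (v := p f)).congr ?_
    filter_upwards [hU.mem_nhds hw] with v hv
    rw [h1 v hv]
  | succ N ih =>
    obtain ⟨ρ₁, hρ₁, h1⟩ := ih
    obtain ⟨ρ₂, hρ₂, L, hL, h2⟩ := unif_pathW d G hG (∑ g ∈ G, ‖p g‖) N
    obtain ⟨ρ₃, hρ₃, h3⟩ := unif_ana d G hG (∑ g ∈ G, ‖p g‖ + N)
    refine ⟨min ρ₁ (min ρ₂ ρ₃), lt_min hρ₁ (lt_min hρ₂ hρ₃), ?_⟩
    intro U hU l hl a γ ha hb hp
    obtain ⟨i, l, rfl⟩ : ∃ x l', l = x :: l' := by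
      cases l with
      | nil => simp at hl
      | cons x l => exact ⟨x, l, rfl⟩
    rw [List.length_cons] at hl
    have hex : ∀ w, ∃ q : S →ₐ[ℂ] ℂ, w ∈ U →
        PathW d p (l.map fun i => (i, a w i)) q ∧ IsFlowW (d i) q (a w i) (γ w) := by
      intro w
      by_cases hw : w ∈ U
      · obtain ⟨q, hq⟩ := hp w hw
        exact ⟨q, fun _ => hq⟩
      · exact ⟨p, fun h => absurd h hw⟩
    choose γ₁ hγ₁ using hex
    have hana := h1 U hU l (by omega) a γ₁ ha
      (fun w hw i => (hb w hw i).trans (min_le_left _ _)) (fun w hw => (hγ₁ w hw).1)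
    have hbd : ∀ w ∈ U, ∀ g ∈ G, ‖γ₁ w g‖ ≤ ∑ g ∈ G, ‖p g‖ + N := by
      intro w hw
      obtain ⟨q', hq', hb', -⟩ := h2 ℂ p
        (fun g hg => Finset.single_le_sum (f := fun g => ‖p g‖) (fun _ _ => norm_nonneg _) hg)
        (l.map fun i => (i, a w i)) (by rw [List.length_map]; omega) ρ₂ le_rfl (by
          intro x hx
          obtain ⟨j, -, rfl⟩ := List.mem_map.1 hx
          exact (hb w hw j).trans ((min_le_right _ _).trans (min_le_left _ _)))
      rw [(hγ₁ w hw).1.unique hq']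
      exact hb'
    exact h3 U hU γ₁ γ (fun w => a w i) i hana hbd (fun w hw => ha i w hw)
      (fun w hw => (hb w hw i).trans ((min_le_right _ _).trans (min_le_right _ _)))
      (fun w hw => (hγ₁ w hw).2)

/-! ## The family of points -/

section pt

variable {n : ℕ} {W : Type} [NormedCommRing W] [NormedAlgebra ℂ W]

/-- the complex point `p` as a `W`-valued point -/
noncomputable def ptW (W : Type) [NormedCommRing W] [NormedAlgebra ℂ W] (p : S →ₐ[ℂ] ℂ) :
    S →ₐ[ℂ] W := (Algebra.ofId ℂ W).comp p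

theorem ptW_apply (p : S →ₐ[ℂ] ℂ) (f : S) : ptW W p f = algebraMap ℂ W (p f) := rfl

theorem ptW_norm [NormOneClass W] (p : S →ₐ[ℂ] ℂ) (f : S) : ‖ptW W p f‖ = ‖p f‖ := by
  rw [ptW_apply, norm_algebraMap']

theorem ptW_self (p : S →ₐ[ℂ] ℂ) : ptW ℂ p = p := by
  ext f
  rfl

open scoped Classical in
/-- the point with coordinates `p + a`: composition of the flows of `d i` with times `a i` -/
noncomputable def ptE (d : Fin n → Derivation ℂ S S) (p : S →ₐ[ℂ] ℂ) (a : Fin n → W) : S →ₐ[ℂ] W :=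
  if h : ∃ q' : S →ₐ[ℂ] W, PathW d (ptW W p) ((List.finRange n).map fun i => (i, a i)) q' then
    h.choose else ptW W p

theorem ptE_eq {d : Fin n → Derivation ℂ S S} {p : S →ₐ[ℂ] ℂ} {a : Fin n → W} {q' : S →ₐ[ℂ] W}
    (h : PathW d (ptW W p) ((List.finRange n).map fun i => (i, a i)) q') : ptE d p a = q' := by
  have hex : ∃ q' : S →ₐ[ℂ] W, PathW d (ptW W p) ((List.finRange n).map fun i => (i, a i)) q' :=
    ⟨q', h⟩
  have h1 : ptE d p a = hex.choose := dif_pos hex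
  rw [h1]
  exact hex.choose_spec.unique h

/-- Existence, bounds and coordinates of the family of points. -/
theorem ptE_spec (d : Fin n → Derivation ℂ S S) (G : Finset S)
    (hG : Algebra.adjoin ℂ (G : Set S) = ⊤) (p : S →ₐ[ℂ] ℂ) :
    ∃ δ : ℝ, 0 < δ ∧ ∃ M : ℝ, ∃ L : S → ℝ, (∀ f, 0 ≤ L f) ∧
      ∀ (W : Type) [NormedCommRing W] [NormedAlgebra ℂ W] [NormOneClass W] [CompleteSpace W]
        (a : Fin n → W), ∀ r ≤ δ, (∀ i, ‖a i‖ ≤ r) →
        PathW d (ptW W p) ((List.finRange n).map fun i => (i, a i)) (ptE d p a) ∧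
        (∀ g ∈ G, ‖ptE d p a g‖ ≤ M) ∧
        ∀ f, ‖ptE d p a f - algebraMap ℂ W (p f)‖ ≤ L f * r := by
  obtain ⟨ρ, hρ, L, hL, h⟩ := unif_pathW d G hG (∑ g ∈ G, ‖p g‖) n
  refine ⟨ρ, hρ, ∑ g ∈ G, ‖p g‖ + n, L, hL, ?_⟩
  intro W _ _ _ _ a r hr ha
  obtain ⟨q', h1, h2, h3⟩ := h W (ptW W p)
    (fun g hg => by
      rw [ptW_norm]
      exact Finset.single_le_sum (f := fun g => ‖p g‖) (fun _ _ => norm_nonneg _) hg)
    ((List.finRange n).map fun i => (i, a i)) (by simp) r hr (by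
      intro x hx
      obtain ⟨j, -, rfl⟩ := List.mem_map.1 hx
      exact ha j)
  rw [ptE_eq h1]
  exact ⟨h1, h2, h3⟩

/-- coordinates -/
theorem ptE_coord {d : Fin n → Derivation ℂ S S} {y : Fin n → S}
    (hy : ∀ i j, d i (y j) = if i = j then 1 else 0) {p : S →ₐ[ℂ] ℂ} {a : Fin n → W}
    (h : PathW d (ptW W p) ((List.finRange n).map fun i => (i, a i)) (ptE d p a)) (j : Fin n) :
    ptE d p a (y j) = algebraMap ℂ W (p (y j)) + a j := by
  rw [pathW_coord hy h j, sum_coord a j (List.nodup_finRange n) (List.mem_finRange j)]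
  rfl

/-- naturality -/
theorem ptE_map [NormOneClass W] [CompleteSpace W] {W' : Type} [NormedCommRing W']
    [NormedAlgebra ℂ W'] [NormOneClass W'] [CompleteSpace W'] (φ : W →ₐ[ℂ] W')
    (hφ : ∀ x, ‖φ x‖ ≤ ‖x‖) {d : Fin n → Derivation ℂ S S} {p : S →ₐ[ℂ] ℂ} {a : Fin n → W}
    (h : PathW d (ptW W p) ((List.finRange n).map fun i => (i, a i)) (ptE d p a)) :
    ptE d p (fun i => φ (a i)) = φ.comp (ptE d p a) := by
  apply ptE_eq
  have h1 := h.map φ hφ
  rw [List.map_map] at h1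
  have h2 : φ.comp (ptW W p) = ptW W' p := by
    ext f
    exact φ.commutes (p f)
  rw [h2] at h1
  exact h1

/-- the centre -/
theorem ptE_zero (d : Fin n → Derivation ℂ S S) (G : Finset S)
    (hG : Algebra.adjoin ℂ (G : Set S) = ⊤) (p : S →ₐ[ℂ] ℂ) [NormOneClass W] [CompleteSpace W] :
    ptE d p (fun _ => (0 : W)) = ptW W p := by
  obtain ⟨δ, hδ, M, L, hL, h⟩ := ptE_spec d G hG p
  have h1 := (h W (fun _ => 0) 0 hδ.le (fun _ => by rw [norm_zero])).2.2
  ext f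
  have h2 := h1 f
  rw [mul_zero, norm_le_zero_iff, sub_eq_zero] at h2
  exact h2

/-- holomorphic dependence -/
theorem ptE_ana (d : Fin n → Derivation ℂ S S) (G : Finset S)
    (hG : Algebra.adjoin ℂ (G : Set S) = ⊤) (p : S →ₐ[ℂ] ℂ) :
    ∃ δ : ℝ, 0 < δ ∧ ∀ U : Set ℂ, IsOpen U → ∀ a : ℂ → Fin n → ℂ,
      (∀ i, ∀ w ∈ U, AnalyticAt ℂ (fun w => a w i) w) → (∀ w ∈ U, ∀ i, ‖a w i‖ ≤ δ) →
      ∀ f, ∀ w ∈ U, AnalyticAt ℂ (fun w => ptE d p (a w) f) w := by
  obtain ⟨δ, hδ, M, L, hL, h⟩ := ptE_spec d G hG p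
  obtain ⟨ρ, hρ, h'⟩ := unif_path_ana d G hG p n
  refine ⟨min δ ρ, lt_min hδ hρ, ?_⟩
  intro U hU a ha hb
  refine h' U hU (List.finRange n) (by simp) a (fun w => ptE d p (a w)) ha
    (fun w hw i => (hb w hw i).trans (min_le_right _ _)) ?_
  intro w hw
  have h1 := (h ℂ (a w) δ le_rfl (fun i => (hb w hw i).trans (min_le_left _ _))).1
  rw [ptW_self] at h1
  exact h1

end pt

end Pool.Agent.TubeN
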