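import Pool.Agent.Lib_MP_1209e6_nt.Tube
import Pool.Agent.Lib_MP_1209e6_nt.PtsE
import Pool.Agent.Lib_MP_1209e6_fl.D5

/-!
# The germ of the flow tube (MP_1209e6_ag, line N)

`Φ = m exp (b₁ E₁) … exp (b_n E_n) exp (w D)`, as a point with values in the Banach algebra of convergent
power series in `(b, w)`.
-/

set_option autoImplicit false

open Filter Topology Pool.Agent.CampanaFlow Pool.Agent.CampanaB

namespace Pool.Agent.TubeN

variable {S : Type} [CommRing S] [Algebra ℂ S]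

theorem fg_ps_eval {n N : ℕ} {B : Type} [NormedCommRing B] [NormedAlgebra ℂ B] [CompleteSpace B]
    [NormOneClass B] (b : Fin n → B) (w : B) (hb : ∀ i, ‖b i‖ ≤ rad N) (hw : ‖w‖ ≤ rad N) :
    ∃ e : PS n N →ₐ[ℂ] B, (∀ f, e f = evB b w f) ∧ (∀ f, ‖e f‖ ≤ ‖f‖) ∧ Continuous e ∧
      (∀ i, e (Xv n N i) = b i) ∧ e (Wv n N) = w := by
  have h0 : mn b w (0 : Gam n) = 1 := by
    unfold mn
    simp
  have ha : ∀ g g' : Gam n, mn b w (g + g') = mn b w g * mn b w g' := by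
    intro g g'
    unfold mn
    simp only [Prod.fst_add, Prod.snd_add, Pi.add_apply, pow_add, Finset.prod_mul_distrib]
    ring
  have h : ∀ g : Gam n, ‖mn b w g‖ ≤ (wP n N).w g := by
    intro g
    show ‖(∏ i, b i ^ g.1 i) * w ^ g.2‖ ≤ rad N ^ ((∑ i, g.1 i) + g.2)
    rw [pow_add, ← Finset.prod_pow_eq_pow_sum]
    refine (norm_mul_le _ _).trans (mul_le_mul ?_ ?_ (norm_nonneg _)
      (Finset.prod_nonneg fun _ _ => pow_nonneg (rad_pos N).le _))
    · refine (Finset.norm_prod_le _ _).trans ?_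
      refine Finset.prod_le_prod (fun _ _ => norm_nonneg _) fun i _ => ?_
      exact (norm_pow_le _ _).trans (pow_le_pow_left₀ (norm_nonneg _) (hb i) _)
    · exact (norm_pow_le _ _).trans (pow_le_pow_left₀ (norm_nonneg _) hw _)
  refine ⟨L1.hom (mn b w) h0 ha h, fun f => rfl, L1.norm_hom_le _ h0 ha h,
    L1.hom_continuous _ h0 ha h, fun i => ?_, ?_⟩
  · unfold Xv
    rw [L1.hom_mono, one_smul]
    unfold mn
    rw [pow_zero, mul_one]
    show ∏ j, b j ^ (Pi.single i 1 : Fin n → ℕ) j = b i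
    rw [Finset.prod_eq_single i]
    · rw [Pi.single_eq_same, pow_one]
    · intro j _ hj
      rw [Pi.single_eq_of_ne hj, pow_zero]
    · intro hi
      exact absurd (Finset.mem_univ i) hi
  · unfold Wv
    rw [L1.hom_mono, one_smul]
    unfold mn
    simp

theorem fg_norm_Xv (n N : ℕ) (i : Fin n) : ‖Xv n N i‖ = rad N := by
  unfold Xv
  rw [L1.norm_mono, norm_one, one_mul]
  show rad N ^ ((∑ j, (Pi.single i 1 : Fin n → ℕ) j) + 0) = rad N
  rw [Finset.sum_pi_single', if_pos (Finset.mem_univ i), add_zero, pow_one]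

theorem fg_norm_Wv (n N : ℕ) : ‖Wv n N‖ = rad N := by
  unfold Wv
  rw [L1.norm_mono, norm_one, one_mul]
  show rad N ^ ((∑ j : Fin n, (0 : Fin n → ℕ) j) + 1) = rad N
  simp

theorem fg_evB_zero {n N : ℕ} (f : PS n N) : evB (fun _ : Fin n => (0 : ℂ)) 0 f = f.co 0 := by
  unfold evB
  rw [tsum_eq_single 0]
  · unfold mn
    simp
  · intro g hg
    have h1 : mn (fun _ : Fin n => (0 : ℂ)) 0 g = 0 := by
      unfold mn
      by_cases h2 : g.2 = 0
      · have h3 : g.1 ≠ 0 := by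
          intro h3
          exact hg (Prod.ext h3 h2)
        obtain ⟨i, hi⟩ := Function.ne_iff.1 h3
        have h4 : ∏ i, (0 : ℂ) ^ g.1 i = 0 :=
          Finset.prod_eq_zero (Finset.mem_univ i) (zero_pow hi)
        rw [h4, zero_mul]
      · rw [zero_pow h2, mul_zero]
    rw [h1, smul_zero]

/-- the flow at time zero -/
theorem fg_eq_of_zero {W : Type} [NormedCommRing W] [NormedAlgebra ℂ W] {D : Derivation ℂ S S}
    {q q' : S →ₐ[ℂ] W} (h : IsFlowW D q 0 q') : q' = q := by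
  ext f
  rw [(h f).2]
  unfold evW
  rw [tsum_eq_single 0 (fun n hn => by rw [zero_pow hn, mul_zero]), tcW_zero, pow_zero, mul_one]

theorem fg_exists_rad (δ : ℝ) (hδ : 0 < δ) : ∃ N : ℕ, rad N ≤ δ := by
  obtain ⟨N, hN⟩ := exists_nat_gt (1 / δ)
  refine ⟨N, ?_⟩
  unfold rad
  rw [div_le_iff₀ (by positivity)]
  rw [div_lt_iff₀ hδ] at hN
  nlinarith

/-- FLOW-GERM -/
theorem flow_germ [Algebra.FiniteType ℂ S] {n : ℕ} (y : Fin n → S)
    (E : Fin n → Derivation ℂ S S) (hE : ∀ i j, E i (y j) = if i = j then 1 else 0)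
    (D : Derivation ℂ S S) (m : S →ₐ[ℂ] ℂ) :
    ∃ (N : ℕ) (Φ : S →ₐ[ℂ] PS n N), Nrm y m Φ ∧ (∀ f, (Φ f).co 0 = m f) ∧ GoodFor Φ D ∧
      ∀ b : Fin n → ℂ, (∀ i, ‖b i‖ < rad N) → ∃ q : S →ₐ[ℂ] ℂ, (∀ f, q f = evB b 0 (Φ f)) ∧
        ∀ w : ℂ, ‖w‖ < rad N → ∃ q' : S →ₐ[ℂ] ℂ, (∀ f, q' f = evB b w (Φ f)) ∧
          IsFlow D q w q' := by
  obtain ⟨G, hG⟩ := (inferInstance : Algebra.FiniteType ℂ S).out
  obtain ⟨δ, hδ, M, L, hL, hpt⟩ := ptE_spec E G hG m
  obtain ⟨ρ, hρ, L', hL', hfl⟩ := unif_flowW (fun _ : Unit => D) G hG M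
  obtain ⟨N, hN⟩ := fg_exists_rad (min δ ρ) (lt_min hδ hρ)
  have hr := rad_pos N
  obtain ⟨hp, hpM, -⟩ := hpt (PS n N) (Xv n N) (rad N) (hN.trans (min_le_left _ _))
    (fun i => (fg_norm_Xv n N i).le)
  obtain ⟨Φ, hΦ, -, -⟩ := hfl (PS n N) (ptE E m (Xv n N)) hpM () (Wv n N)
    ((fg_norm_Wv n N).le.trans (hN.trans (min_le_right _ _)))
  -- complex points
  have key : ∀ b : Fin n → ℂ, (∀ i, ‖b i‖ < rad N) → ∀ w : ℂ, ‖w‖ < rad N →
      ∃ q' : S →ₐ[ℂ] ℂ, (∀ f, q' f = evB b w (Φ f)) ∧ IsFlowW D (ptE E m b) w q' := by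
    intro b hb w hw
    obtain ⟨e, he, hen, -, heX, heW⟩ := fg_ps_eval (N := N) b w (fun i => (hb i).le) hw.le
    have h1 := hΦ.map e hen
    have h2 := ptE_map e hen hp
    rw [← h2, heW] at h1
    have h3 : (fun i => e (Xv n N i)) = b := funext heX
    rw [h3] at h1
    exact ⟨e.comp Φ, fun f => he (Φ f), h1⟩
  have key0 : ∀ b : Fin n → ℂ, (∀ i, ‖b i‖ < rad N) → ∀ f, ptE E m b f = evB b 0 (Φ f) := by
    intro b hb f
    obtain ⟨q', h1, h2⟩ := key b hb 0 (by rw [norm_zero]; exact hr)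
    rw [← h1 f, fg_eq_of_zero h2]
  refine ⟨N, Φ, ?_, ?_, ?_, ?_⟩
  · -- normalisation
    intro i
    have hc : Summable fun k : ℕ => ‖tcW D (ptE E m (Xv n N)) (y i) (k + 1)‖ * ‖Wv n N‖ ^ k := by
      have h1 := (summable_nat_add_iff 1).2 (hΦ (y i)).1
      have h2 := h1.mul_right (‖Wv n N‖)⁻¹
      refine h2.congr fun k => ?_
      have h3 : ‖Wv n N‖ ≠ 0 := by rw [fg_norm_Wv]; exact hr.ne'
      rw [pow_succ]
      field_simp
    have hs : Summable fun k : ℕ => tcW D (ptE E m (Xv n N)) (y i) (k + 1) * Wv n N ^ k := by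
      refine Summable.of_norm (Summable.of_nonneg_of_le (fun _ => norm_nonneg _) (fun k => ?_) hc)
      exact (norm_mul_le _ _).trans (mul_le_mul_of_nonneg_left (norm_pow_le _ _) (norm_nonneg _))
    refine ⟨∑' k : ℕ, tcW D (ptE E m (Xv n N)) (y i) (k + 1) * Wv n N ^ k, ?_⟩
    have h1 : Φ (y i) = ptE E m (Xv n N) (y i) +
        ∑' k : ℕ, tcW D (ptE E m (Xv n N)) (y i) (k + 1) * Wv n N ^ (k + 1) := by
      rw [(hΦ (y i)).2]
      unfold evW
      rw [(summ_norm (hΦ (y i)).1).of_norm.tsum_eq_zero_add, tcW_zero, pow_zero, mul_one]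
    rw [h1, ptE_coord hE hp i, ← hs.tsum_mul_left]
    congr 1
    refine tsum_congr fun k => ?_
    rw [pow_succ]
    ring
  · intro f
    rw [← fg_evB_zero (Φ f), ← key0 _ (fun _ => by rw [norm_zero]; exact hr) f,
      ptE_zero E G hG m, ptW_self]
  · intro b hb f hf w hw
    have h0 : ∀ k, tc D (ptE E m b) f k = 0 := by
      have hlt : ∀ k : ℕ, ‖((rad N / 2 / ((k : ℝ) + 1) : ℝ) : ℂ)‖ < rad N := by
        intro k
        rw [Complex.norm_real, Real.norm_of_nonneg (by positivity)]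
        have h1 : rad N / 2 / ((k : ℝ) + 1) ≤ rad N / 2 :=
          div_le_self (by positivity) (by linarith [(Nat.cast_nonneg k : (0 : ℝ) ≤ k)])
        linarith
      have hq : ∀ k : ℕ, ∃ q' : S →ₐ[ℂ] ℂ,
          (∀ f, q' f = evB b ((rad N / 2 / ((k : ℝ) + 1) : ℝ) : ℂ) (Φ f)) ∧
          IsFlow D (ptE E m b) ((rad N / 2 / ((k : ℝ) + 1) : ℝ) : ℂ) q' := by
        intro k
        obtain ⟨q', h1, h2⟩ := key b hb _ (hlt k)
        exact ⟨q', h1, h2.isFlow⟩
      refine tc_eq_zero (fun k : ℕ => ((rad N / 2 / ((k : ℝ) + 1) : ℝ) : ℂ)) ?_ ?_ ?_ ?_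
      · intro k
        have h1 : rad N / 2 / ((k : ℝ) + 1) ≠ 0 := by positivity
        exact_mod_cast h1
      · have h1 : Tendsto (fun k : ℕ => rad N / 2 / ((k : ℝ) + 1)) atTop (𝓝 0) := by
          have h3 := (tendsto_one_div_add_atTop_nhds_zero_nat (𝕜 := ℝ)).const_mul (rad N / 2)
          rw [mul_zero] at h3
          refine h3.congr fun k => ?_
          ring
        have h2 := (Complex.continuous_ofReal.tendsto 0).comp h1
        rw [Complex.ofReal_zero] at h2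
        exact h2
      · intro k
        obtain ⟨q', h1, h2⟩ := hq k
        exact (h2 f).1
      · intro k
        obtain ⟨q', h1, h2⟩ := hq k
        rw [← (h2 f).2, h1 f]
        exact hf _ (hlt k)
    obtain ⟨q', h1, h2⟩ := key b hb w hw
    rw [← h1 (D f), (h2.isFlow (D f)).2]
    unfold ev
    refine (tsum_congr fun k => ?_).trans tsum_zero
    have h3 : tc D (ptE E m b) (D f) k = 0 := by
      have h4 := h0 (k + 1)
      unfold tc at h4 ⊢
      rw [Function.iterate_succ_apply] at h4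
      rcases div_eq_zero_iff.1 h4 with h5 | h5
      · rw [h5, zero_div]
      · exact absurd h5 (Nat.cast_ne_zero.2 (Nat.factorial_ne_zero _))
    rw [h3, zero_mul]
  · intro b hb
    refine ⟨ptE E m b, key0 b hb, fun w hw => ?_⟩
    obtain ⟨q', h1, h2⟩ := key b hb w hw
    exact ⟨q', h1, h2.isFlow⟩

end Pool.Agent.TubeN
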