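import Mathlib

/-!
# The weighted `l^1` Banach algebra of a commutative monoid
-/

set_option autoImplicit false

open scoped BigOperators
open Filter Topology

noncomputable section

namespace Pool.Agent.TubeN

/-- A submultiplicative weight on a commutative monoid. -/
structure Wgt (G : Type) [AddCommMonoid G] where
  w : G → ℝ
  pos : ∀ g, 0 < w g
  zero : w 0 = 1
  add : ∀ a b, w (a + b) ≤ w a * w b

variable {G : Type} [AddCommMonoid G]

/-- The weighted `l^1` space of `G`.  The element stored at `g` is the coefficient times the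
weight. -/
@[nolint unusedArguments]
def L1 (_ω : Wgt G) : Type := lp (fun _ : G => ℂ) 1

variable {ω : Wgt G}

instance : NormedAddCommGroup (L1 ω) :=
  inferInstanceAs (NormedAddCommGroup (lp (fun _ : G => ℂ) 1))
instance : NormedSpace ℂ (L1 ω) :=
  inferInstanceAs (NormedSpace ℂ (lp (fun _ : G => ℂ) 1))
instance : CompleteSpace (L1 ω) :=
  inferInstanceAs (CompleteSpace (lp (fun _ : G => ℂ) 1))

namespace L1

/-- the coefficient at `g` -/
def co (f : L1 ω) (g : G) : ℂ := (f : lp (fun _ : G => ℂ) 1).1 g / (ω.w g : ℂ)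

theorem w_ne (ω : Wgt G) (g : G) : (ω.w g : ℂ) ≠ 0 := by
  exact_mod_cast (ω.pos g).ne'

theorem norm_w (ω : Wgt G) (g : G) : ‖(ω.w g : ℂ)‖ = ω.w g := by
  rw [Complex.norm_real, Real.norm_of_nonneg (ω.pos g).le]

theorem co_norm (f : L1 ω) (g : G) :
    ‖f.co g‖ * ω.w g = ‖(f : lp (fun _ : G => ℂ) 1).1 g‖ := by
  unfold co
  rw [norm_div, norm_w, div_mul_cancel₀ _ (ω.pos g).ne']

theorem summ (f : L1 ω) : Summable fun g => ‖f.co g‖ * ω.w g := by
  have h := (lp.memℓp (f : lp (fun _ : G => ℂ) 1)).summable (by norm_num)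
  refine h.congr fun g => ?_
  rw [co_norm]
  simp

theorem norm_eq (f : L1 ω) : ‖f‖ = ∑' g, ‖f.co g‖ * ω.w g := by
  have h := lp.norm_eq_tsum_rpow (p := 1) (by norm_num) (f : lp (fun _ : G => ℂ) 1)
  simp only [ENNReal.toReal_one, Real.rpow_one, div_one] at h
  refine Eq.trans h ?_
  refine tsum_congr fun g => ?_
  rw [co_norm]

theorem ext {f f' : L1 ω} (h : ∀ g, f.co g = f'.co g) : f = f' := by
  apply lp.ext
  funext g
  have := h g
  unfold co at this
  rw [div_left_inj' (w_ne ω g)] at this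
  exact this

/-- The element with given coefficients. -/
def ofSeq (a : G → ℂ) (h : Summable fun g => ‖a g‖ * ω.w g) : L1 ω :=
  (⟨fun g => a g * (ω.w g : ℂ), by
    apply memℓp_gen
    refine h.congr fun g => ?_
    rw [norm_mul, norm_w]
    simp⟩ : lp (fun _ : G => ℂ) 1)

@[simp] theorem co_ofSeq (a : G → ℂ) (h : Summable fun g => ‖a g‖ * ω.w g) (g : G) :
    (ofSeq a h).co g = a g := by
  show a g * (ω.w g : ℂ) / (ω.w g : ℂ) = a g
  rw [mul_div_assoc, div_self (w_ne ω g), mul_one]

@[simp] theorem co_add (f f' : L1 ω) (g : G) : (f + f').co g = f.co g + f'.co g := by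
  show ((f : lp (fun _ : G => ℂ) 1) + (f' : lp (fun _ : G => ℂ) 1)).1 g / _ = _
  unfold co
  rw [← add_div]
  rfl

@[simp] theorem co_sub (f f' : L1 ω) (g : G) : (f - f').co g = f.co g - f'.co g := by
  show ((f : lp (fun _ : G => ℂ) 1) - (f' : lp (fun _ : G => ℂ) 1)).1 g / _ = _
  unfold co
  rw [← sub_div]
  rfl

@[simp] theorem co_neg (f : L1 ω) (g : G) : (-f).co g = - f.co g := by
  show (-(f : lp (fun _ : G => ℂ) 1)).1 g / _ = _
  unfold co
  rw [← neg_div]
  rfl

@[simp] theorem co_zero (g : G) : (0 : L1 ω).co g = 0 := by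
  show (0 : lp (fun _ : G => ℂ) 1).1 g / _ = _
  exact zero_div _

@[simp] theorem co_smul (c : ℂ) (f : L1 ω) (g : G) : (c • f).co g = c * f.co g := by
  show (c • (f : lp (fun _ : G => ℂ) 1)).1 g / _ = _
  unfold co
  rw [← mul_div_assoc]
  rfl

theorem norm_co_le (f : L1 ω) (g : G) : ‖f.co g‖ * ω.w g ≤ ‖f‖ := by
  rw [norm_eq]
  exact f.summ.le_tsum g (fun j _ => mul_nonneg (norm_nonneg _) (ω.pos j).le)

/-- the coefficient at `g` as a continuous linear functional -/
def coL (ω : Wgt G) (g : G) : L1 ω →L[ℂ] ℂ :=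
  LinearMap.mkContinuous
    { toFun := fun f => f.co g
      map_add' := fun f f' => co_add f f' g
      map_smul' := fun c f => co_smul c f g } (ω.w g)⁻¹ fun f => by
    rw [inv_mul_eq_div, le_div_iff₀ (ω.pos g)]
    exact norm_co_le f g

@[simp] theorem coL_apply (g : G) (f : L1 ω) : coL ω g f = f.co g := rfl

theorem continuous_co (g : G) : Continuous fun f : L1 ω => f.co g := (coL ω g).continuous

/-! ### monomials -/

open scoped Classical in
/-- a monomial -/
def mono (ω : Wgt G) (g : G) (c : ℂ) : L1 ω :=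
  ofSeq (fun j => if j = g then c else 0) (by
    refine summable_of_ne_finset_zero (s := {g}) fun j hj => ?_
    rw [Finset.mem_singleton] at hj
    rw [if_neg hj, norm_zero, zero_mul])

open scoped Classical in
theorem co_mono (g : G) (c : ℂ) (j : G) : (mono ω g c).co j = if j = g then c else 0 :=
  co_ofSeq _ _ _

theorem co_mono_self (g : G) (c : ℂ) : (mono ω g c).co g = c := by
  classical
  rw [co_mono, if_pos rfl]

theorem co_mono_ne {g j : G} (h : j ≠ g) (c : ℂ) : (mono ω g c).co j = 0 := by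
  classical
  rw [co_mono, if_neg h]

theorem norm_mono (g : G) (c : ℂ) : ‖mono ω g c‖ = ‖c‖ * ω.w g := by
  rw [norm_eq, tsum_eq_single g, co_mono_self]
  intro j hj
  rw [co_mono_ne hj, norm_zero, zero_mul]

theorem mono_smul (g : G) (c d : ℂ) : mono ω g (c * d) = c • mono ω g d := by
  apply ext
  intro j
  by_cases h : j = g
  · subst h; rw [co_smul, co_mono_self, co_mono_self]
  · rw [co_smul, co_mono_ne h, co_mono_ne h, mul_zero]

theorem mono_eq (g : G) (c : ℂ) : mono ω g c = c • mono ω g 1 := by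
  rw [← mono_smul, mul_one]

theorem mono_add (g : G) (c d : ℂ) : mono ω g (c + d) = mono ω g c + mono ω g d := by
  rw [mono_eq, add_smul, ← mono_eq, ← mono_eq]

/-- every element is the sum of its monomials -/
theorem hasSum_mono (f : L1 ω) : HasSum (fun g => mono ω g (f.co g)) f := by
  have hs : Summable fun g => mono ω g (f.co g) := by
    refine Summable.of_norm ?_
    refine f.summ.congr fun g => ?_
    rw [norm_mono]
  have h := hs.hasSum
  have e : ∑' g, mono ω g (f.co g) = f := by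
    apply ext
    intro j
    rw [← coL_apply, (coL ω j).map_tsum hs]
    simp only [coL_apply]
    rw [tsum_eq_single j, co_mono_self]
    intro b hb
    rw [co_mono_ne (Ne.symm hb)]
  rwa [e] at h

/-! ### the universal property as a Banach space -/

section lin

variable {E : Type*} [NormedAddCommGroup E] [NormedSpace ℂ E]

/-- two continuous linear maps which agree on the monomials are equal -/
theorem ext1 {A B : L1 ω →L[ℂ] E} (h : ∀ g, A (mono ω g 1) = B (mono ω g 1)) : A = B := by
  ext f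
  have h1 := (hasSum_mono f).map A A.continuous
  have h2 := (hasSum_mono f).map B B.continuous
  refine h1.unique ?_
  have e : (A : L1 ω → E) ∘ (fun g => mono ω g (f.co g)) =
      (B : L1 ω → E) ∘ (fun g => mono ω g (f.co g)) := by
    funext g
    simp only [Function.comp_apply]
    rw [mono_eq, map_smul, map_smul, h]
  rw [e]
  exact h2

variable [CompleteSpace E]

theorem summ_lin {φ : G → E} {C : ℝ} (h : ∀ g, ‖φ g‖ ≤ C * ω.w g) (f : L1 ω) :
    Summable fun g => ‖f.co g • φ g‖ := by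
  refine Summable.of_nonneg_of_le (fun _ => norm_nonneg _) (fun g => ?_) (f.summ.mul_left C)
  rw [norm_smul]
  calc ‖f.co g‖ * ‖φ g‖ ≤ ‖f.co g‖ * (C * ω.w g) :=
        mul_le_mul_of_nonneg_left (h g) (norm_nonneg _)
    _ = C * (‖f.co g‖ * ω.w g) := by ring

/-- the continuous linear map with given values on the monomials -/
def lin (φ : G → E) (C : ℝ) (h : ∀ g, ‖φ g‖ ≤ C * ω.w g) : L1 ω →L[ℂ] E :=
  LinearMap.mkContinuous
    { toFun := fun f => ∑' g, f.co g • φ g
      map_add' := fun f f' => by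
        rw [← (summ_lin h f).of_norm.tsum_add (summ_lin h f').of_norm]
        refine tsum_congr fun g => ?_
        rw [co_add, add_smul]
      map_smul' := fun c f => by
        rw [RingHom.id_apply, ← (summ_lin h f).of_norm.tsum_const_smul c]
        refine tsum_congr fun g => ?_
        rw [co_smul, mul_smul] } C fun f => by
    show ‖∑' g, f.co g • φ g‖ ≤ C * ‖f‖
    refine (norm_tsum_le_tsum_norm (summ_lin h f)).trans ?_
    rw [norm_eq, ← tsum_mul_left]
    refine (summ_lin h f).tsum_le_tsum (fun g => ?_) (f.summ.mul_left C)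
    rw [norm_smul]
    calc ‖f.co g‖ * ‖φ g‖ ≤ ‖f.co g‖ * (C * ω.w g) :=
          mul_le_mul_of_nonneg_left (h g) (norm_nonneg _)
      _ = C * (‖f.co g‖ * ω.w g) := by ring

theorem lin_apply (φ : G → E) (C : ℝ) (h : ∀ g, ‖φ g‖ ≤ C * ω.w g) (f : L1 ω) :
    lin φ C h f = ∑' g, f.co g • φ g := rfl

theorem lin_mono (φ : G → E) (C : ℝ) (h : ∀ g, ‖φ g‖ ≤ C * ω.w g) (g : G) (c : ℂ) :
    lin φ C h (mono ω g c) = c • φ g := by
  rw [lin_apply, tsum_eq_single g, co_mono_self]
  intro j hj
  rw [co_mono_ne hj, zero_smul]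

theorem norm_lin_le {φ : G → E} {C : ℝ} (hC : 0 ≤ C) (h : ∀ g, ‖φ g‖ ≤ C * ω.w g) :
    ‖lin φ C h‖ ≤ C := LinearMap.mkContinuous_norm_le _ hC _

theorem norm_lin_apply_le {φ : G → E} {C : ℝ} (h : ∀ g, ‖φ g‖ ≤ C * ω.w g) (f : L1 ω) :
    ‖lin φ C h f‖ ≤ C * ‖f‖ := by
  rw [lin_apply]
  refine (norm_tsum_le_tsum_norm (summ_lin h f)).trans ?_
  rw [norm_eq, ← tsum_mul_left]
  refine (summ_lin h f).tsum_le_tsum (fun g => ?_) (f.summ.mul_left C)
  rw [norm_smul]
  calc ‖f.co g‖ * ‖φ g‖ ≤ ‖f.co g‖ * (C * ω.w g) :=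
        mul_le_mul_of_nonneg_left (h g) (norm_nonneg _)
    _ = C * (‖f.co g‖ * ω.w g) := by ring

end lin

/-! ### multiplication -/

/-- the product as a bilinear map -/
def mulL (ω : Wgt G) : L1 ω →L[ℂ] L1 ω →L[ℂ] L1 ω :=
  lin (fun a => lin (fun b => mono ω (a + b) 1) (ω.w a) fun b => by
    rw [norm_mono, norm_one, one_mul]; exact ω.add a b) 1 fun a => by
    rw [one_mul]
    exact norm_lin_le (ω.pos a).le _

theorem mulL_mono (a b : G) (c d : ℂ) :
    mulL ω (mono ω a c) (mono ω b d) = mono ω (a + b) (c * d) := by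
  unfold mulL
  rw [lin_mono, ContinuousLinearMap.smul_apply, lin_mono, smul_smul, ← mono_eq]

instance : Mul (L1 ω) := ⟨fun f f' => mulL ω f f'⟩

theorem mul_def (f f' : L1 ω) : f * f' = mulL ω f f' := rfl

@[simp] theorem mono_mul_mono (a b : G) (c d : ℂ) :
    mono ω a c * mono ω b d = mono ω (a + b) (c * d) := mulL_mono a b c d

theorem norm_mul_le' (f f' : L1 ω) : ‖f * f'‖ ≤ ‖f‖ * ‖f'‖ := by
  rw [mul_def]
  refine (ContinuousLinearMap.le_opNorm _ _).trans ?_
  refine mul_le_mul_of_nonneg_right ?_ (norm_nonneg _)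
  refine (norm_lin_apply_le _ f).trans ?_
  rw [one_mul]

theorem mul_comm' (f f' : L1 ω) : f * f' = f' * f := by
  have h : mulL ω = (mulL ω).flip := by
    refine ext1 fun a => ext1 fun b => ?_
    rw [ContinuousLinearMap.flip_apply, mulL_mono, mulL_mono, add_comm]
  rw [mul_def, mul_def, ← ContinuousLinearMap.flip_apply (mulL ω) f f', ← h]

theorem mul_assoc' (f f' f'' : L1 ω) : f * f' * f'' = f * (f' * f'') := by
  have h1 : ((mulL ω).flip f'').comp ((mulL ω).flip f') = (mulL ω).flip (f' * f'') := by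
    refine ext1 fun a => ?_
    have h2 : ((mulL ω).flip f'').comp (mulL ω (mono ω a 1)) =
        (mulL ω (mono ω a 1)).comp ((mulL ω).flip f'') := by
      refine ext1 fun b => ?_
      have h3 : mulL ω (mulL ω (mono ω a 1) (mono ω b 1)) =
          (mulL ω (mono ω a 1)).comp (mulL ω (mono ω b 1)) := by
        refine ext1 fun c => ?_
        rw [ContinuousLinearMap.comp_apply, mulL_mono, mulL_mono, mulL_mono, mulL_mono, add_assoc,
          mul_assoc]
      have h4 := congrArg (fun A : L1 ω →L[ℂ] L1 ω => A f'') h3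
      exact h4
    have h5 := congrArg (fun A : L1 ω →L[ℂ] L1 ω => A f') h2
    exact h5
  have h6 := congrArg (fun A : L1 ω →L[ℂ] L1 ω => A f) h1
  exact h6

instance : One (L1 ω) := ⟨mono ω 0 1⟩

theorem one_def : (1 : L1 ω) = mono ω 0 1 := rfl

theorem one_mul' (f : L1 ω) : 1 * f = f := by
  have h : mulL ω (mono ω 0 1) = ContinuousLinearMap.id ℂ (L1 ω) := by
    refine ext1 fun b => ?_
    rw [mulL_mono, zero_add, one_mul]
    rfl
  rw [one_def, mul_def, h]
  rfl

instance : CommRing (L1 ω) :=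
  { (inferInstance : AddCommGroup (L1 ω)), (inferInstance : Mul (L1 ω)),
    (inferInstance : One (L1 ω)) with
    mul_assoc := mul_assoc'
    one_mul := one_mul'
    mul_one := fun f => by rw [mul_comm', one_mul']
    left_distrib := fun f g h => by rw [mul_def, mul_def, mul_def, map_add]
    right_distrib := fun f g h => by
      rw [mul_def, mul_def, mul_def, map_add, ContinuousLinearMap.add_apply]
    zero_mul := fun f => by rw [mul_def, map_zero, ContinuousLinearMap.zero_apply]
    mul_zero := fun f => by rw [mul_def, map_zero]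
    mul_comm := mul_comm' }

instance : NormedCommRing (L1 ω) :=
  { (inferInstance : NormedAddCommGroup (L1 ω)), (inferInstance : CommRing (L1 ω)) with
    norm_mul_le := norm_mul_le' }

instance : Algebra ℂ (L1 ω) :=
  Algebra.ofModule (fun c f g => by rw [mul_def, mul_def, map_smul,
      ContinuousLinearMap.smul_apply])
    (fun c f g => by rw [mul_def, mul_def, map_smul])

instance : NormedAlgebra ℂ (L1 ω) :=
  { (inferInstance : Algebra ℂ (L1 ω)) with
    norm_smul_le := fun c f => norm_smul_le c f }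

instance : NormOneClass (L1 ω) := ⟨by
  rw [one_def, norm_mono, norm_one, ω.zero, one_mul]⟩

theorem algebraMap_eq (c : ℂ) : algebraMap ℂ (L1 ω) c = mono ω 0 c := by
  rw [Algebra.algebraMap_eq_smul_one, one_def, ← mono_eq]

/-- the coefficients of a product -/
theorem co_mul_hasSum (f f' : L1 ω) (g : G) :
    HasSum (fun p : G × G => (mono ω p.1 (f.co p.1) * mono ω p.2 (f'.co p.2)).co g)
      ((f * f').co g) := by
  have hs : Summable fun p : G × G => ‖mono ω p.1 (f.co p.1)‖ * ‖mono ω p.2 (f'.co p.2)‖ := by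
    refine Summable.mul_of_nonneg (f := fun a => ‖mono ω a (f.co a)‖)
      (g := fun b => ‖mono ω b (f'.co b)‖) ?_ ?_ (fun _ => norm_nonneg _) (fun _ => norm_nonneg _)
    · exact f.summ.congr fun g => by rw [norm_mono]
    · exact f'.summ.congr fun g => by rw [norm_mono]
  have hs2 : Summable fun p : G × G => mono ω p.1 (f.co p.1) * mono ω p.2 (f'.co p.2) :=
    Summable.of_norm (Summable.of_nonneg_of_le (fun _ => norm_nonneg _)
      (fun p => norm_mul_le _ _) hs)
  have h := HasSum.mul (hasSum_mono f) (hasSum_mono f') hs2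
  exact h.map (coL ω g) (coL ω g).continuous

/-! ### the universal property as a Banach algebra -/

section hom

variable {B : Type*} [NormedCommRing B] [NormedAlgebra ℂ B] [CompleteSpace B]

/-- the homomorphism to a Banach algebra with given values on the monomials -/
def hom (φ : G → B) (h0 : φ 0 = 1) (ha : ∀ a b, φ (a + b) = φ a * φ b)
    (h : ∀ g, ‖φ g‖ ≤ ω.w g) : L1 ω →ₐ[ℂ] B :=
  AlgHom.ofLinearMap (lin φ 1 fun g => by rw [one_mul]; exact h g : L1 ω →L[ℂ] B).toLinearMap
    (by
      show lin φ 1 _ (1 : L1 ω) = 1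
      rw [one_def, lin_mono, h0, one_smul])
    (by
      intro f f'
      show lin φ 1 _ (f * f') = lin φ 1 _ f * lin φ 1 _ f'
      set Φ : L1 ω →L[ℂ] B := lin φ 1 fun g => by rw [one_mul]; exact h g with hΦ
      have h1 : Φ.comp ((mulL ω).flip f') =
          ((ContinuousLinearMap.mul ℂ B).flip (Φ f')).comp Φ := by
        refine ext1 fun a => ?_
        have h2 : Φ.comp (mulL ω (mono ω a 1)) =
            (ContinuousLinearMap.mul ℂ B (Φ (mono ω a 1))).comp Φ := by
          refine ext1 fun b => ?_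
          show Φ (mulL ω (mono ω a 1) (mono ω b 1)) = Φ (mono ω a 1) * Φ (mono ω b 1)
          rw [mulL_mono, hΦ, lin_mono, lin_mono, lin_mono, ha, one_mul, one_smul, one_smul,
            one_smul]
        have h3 := congrArg (fun A : L1 ω →L[ℂ] B => A f') h2
        exact h3
      have h4 := congrArg (fun A : L1 ω →L[ℂ] B => A f) h1
      exact h4)

theorem hom_apply (φ : G → B) (h0 : φ 0 = 1) (ha : ∀ a b, φ (a + b) = φ a * φ b)
    (h : ∀ g, ‖φ g‖ ≤ ω.w g) (f : L1 ω) : hom φ h0 ha h f = ∑' g, f.co g • φ g := rfl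

theorem hom_mono (φ : G → B) (h0 : φ 0 = 1) (ha : ∀ a b, φ (a + b) = φ a * φ b)
    (h : ∀ g, ‖φ g‖ ≤ ω.w g) (g : G) (c : ℂ) : hom φ h0 ha h (mono ω g c) = c • φ g :=
  lin_mono φ 1 _ g c

theorem norm_hom_le (φ : G → B) (h0 : φ 0 = 1) (ha : ∀ a b, φ (a + b) = φ a * φ b)
    (h : ∀ g, ‖φ g‖ ≤ ω.w g) (f : L1 ω) : ‖hom φ h0 ha h f‖ ≤ ‖f‖ := by
  have := norm_lin_apply_le (ω := ω) (φ := φ) (C := 1) (fun g => by rw [one_mul]; exact h g) f
  rwa [one_mul] at this

theorem hom_continuous (φ : G → B) (h0 : φ 0 = 1) (ha : ∀ a b, φ (a + b) = φ a * φ b)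
    (h : ∀ g, ‖φ g‖ ≤ ω.w g) : Continuous (hom φ h0 ha h : L1 ω → B) :=
  (lin φ 1 (fun g => by rw [one_mul]; exact h g) : L1 ω →L[ℂ] B).continuous

theorem summ_hom {φ : G → B} (h : ∀ g, ‖φ g‖ ≤ ω.w g) (f : L1 ω) :
    Summable fun g => ‖f.co g • φ g‖ :=
  summ_lin (C := 1) (fun g => by rw [one_mul]; exact h g) f

end hom

/-- continuous homomorphisms which agree on the monomials are equal -/
theorem hom_ext {B : Type*} [NormedCommRing B] [NormedAlgebra ℂ B] {A A' : L1 ω →ₐ[ℂ] B}
    (hA : Continuous A) (hA' : Continuous A') (h : ∀ g, A (mono ω g 1) = A' (mono ω g 1)) :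
    A = A' := by
  have h1 : (⟨A.toLinearMap, hA⟩ : L1 ω →L[ℂ] B) = ⟨A'.toLinearMap, hA'⟩ := ext1 h
  ext f
  have h2 := congrArg (fun T : L1 ω →L[ℂ] B => T f) h1
  exact h2

/-! ### change of the monoid -/

/-- functoriality -/
def map {G' : Type} [AddCommMonoid G'] {ω' : Wgt G'} (ψ : G →+ G')
    (h : ∀ g, ω'.w (ψ g) ≤ ω.w g) : L1 ω →ₐ[ℂ] L1 ω' :=
  hom (fun g => mono ω' (ψ g) 1) (by rw [map_zero]; rfl)
    (fun a b => by rw [map_add, mono_mul_mono, one_mul]) fun g => by
      rw [norm_mono, norm_one, one_mul]; exact h g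

theorem map_mono {G' : Type} [AddCommMonoid G'] {ω' : Wgt G'} (ψ : G →+ G')
    (h : ∀ g, ω'.w (ψ g) ≤ ω.w g) (g : G) (c : ℂ) :
    map ψ h (mono ω g c) = mono ω' (ψ g) c := by
  unfold map
  rw [hom_mono, ← mono_eq]

theorem norm_map_le {G' : Type} [AddCommMonoid G'] {ω' : Wgt G'} (ψ : G →+ G')
    (h : ∀ g, ω'.w (ψ g) ≤ ω.w g) (f : L1 ω) : ‖map ψ h f‖ ≤ ‖f‖ := norm_hom_le _ _ _ _ f

theorem map_continuous {G' : Type} [AddCommMonoid G'] {ω' : Wgt G'} (ψ : G →+ G')
    (h : ∀ g, ω'.w (ψ g) ≤ ω.w g) : Continuous (map ψ h : L1 ω → L1 ω') :=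
  hom_continuous _ _ _ _

theorem co_map_inj {G' : Type} [AddCommMonoid G'] {ω' : Wgt G'} (ψ : G →+ G')
    (hψ : Function.Injective ψ) (h : ∀ g, ω'.w (ψ g) ≤ ω.w g) (f : L1 ω) (g : G) :
    (map ψ h f).co (ψ g) = f.co g := by
  have h1 := ((hasSum_mono f).map (map ψ h) (map_continuous ψ h)).map (coL ω' (ψ g))
    (coL ω' (ψ g)).continuous
  rw [← coL_apply, ← h1.tsum_eq, tsum_eq_single g]
  · simp only [Function.comp_apply, map_mono, coL_apply, co_mono_self]
  · intro j hj
    simp only [Function.comp_apply, map_mono, coL_apply]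
    exact co_mono_ne (fun e => hj (hψ e).symm) _

theorem co_map_notMem {G' : Type} [AddCommMonoid G'] {ω' : Wgt G'} (ψ : G →+ G')
    (h : ∀ g, ω'.w (ψ g) ≤ ω.w g) (f : L1 ω) {g' : G'} (hg : g' ∉ Set.range ψ) :
    (map ψ h f).co g' = 0 := by
  have h1 := ((hasSum_mono f).map (map ψ h) (map_continuous ψ h)).map (coL ω' g')
    (coL ω' g').continuous
  rw [← coL_apply, ← h1.tsum_eq]
  refine (tsum_congr fun j => ?_).trans tsum_zero
  simp only [Function.comp_apply, map_mono, coL_apply]
  exact co_mono_ne (fun e => hg ⟨j, e.symm⟩) _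

/-! ### supports and projections -/

/-- all exponents of `f` lie in `S` -/
def Supp (S : Set G) (f : L1 ω) : Prop := ∀ g, g ∉ S → f.co g = 0

theorem Supp.mono_set {S T : Set G} (h : S ⊆ T) {f : L1 ω} (hf : Supp S f) : Supp T f :=
  fun g hg => hf g fun hg' => hg (h hg')

theorem supp_univ (f : L1 ω) : Supp Set.univ f := fun g hg => absurd (Set.mem_univ g) hg

theorem Supp.add {S : Set G} {f f' : L1 ω} (hf : Supp S f) (hg : Supp S f') : Supp S (f + f') :=
  fun g h => by rw [co_add, hf g h, hg g h, add_zero]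

theorem Supp.sub {S : Set G} {f f' : L1 ω} (hf : Supp S f) (hg : Supp S f') : Supp S (f - f') :=
  fun g h => by rw [co_sub, hf g h, hg g h, sub_zero]

theorem Supp.neg {S : Set G} {f : L1 ω} (hf : Supp S f) : Supp S (-f) :=
  fun g h => by rw [co_neg, hf g h, neg_zero]

theorem Supp.smul {S : Set G} {f : L1 ω} (c : ℂ) (hf : Supp S f) : Supp S (c • f) :=
  fun g h => by rw [co_smul, hf g h, mul_zero]

theorem supp_zero (S : Set G) : Supp S (0 : L1 ω) := fun g _ => co_zero g

theorem supp_mono {S : Set G} {g : G} (hg : g ∈ S) (c : ℂ) : Supp S (mono ω g c) := by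
  intro j hj
  exact co_mono_ne (fun e => hj (by rw [e]; exact hg)) c

theorem supp_one {S : Set G} (h0 : (0 : G) ∈ S) : Supp S (1 : L1 ω) := supp_mono h0 1

theorem isClosed_supp (S : Set G) : IsClosed {f : L1 ω | Supp S f} := by
  have e : {f : L1 ω | Supp S f} = ⋂ g ∈ Sᶜ, {f : L1 ω | f.co g = 0} := by
    ext f
    simp only [Set.mem_ofPred_eq, Set.mem_iInter, Supp, Set.mem_compl_iff]
  rw [e]
  exact isClosed_biInter fun g _ => isClosed_eq (continuous_co g) continuous_const

theorem Supp.mul {S T U : Set G} (h : ∀ i ∈ S, ∀ j ∈ T, i + j ∈ U) {f f' : L1 ω}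
    (hf : Supp S f) (hf' : Supp T f') : Supp U (f * f') := by
  intro g hg
  rw [← (co_mul_hasSum f f' g).tsum_eq]
  refine (tsum_congr fun p => ?_).trans tsum_zero
  rw [mono_mul_mono]
  by_cases h1 : p.1 ∈ S
  · by_cases h2 : p.2 ∈ T
    · exact co_mono_ne (fun e => hg (by rw [e]; exact h _ h1 _ h2)) _
    · rw [hf' _ h2, mul_zero, mono_eq, zero_smul, co_zero]
  · rw [hf _ h1, zero_mul, mono_eq, zero_smul, co_zero]

open scoped Classical in
/-- the projection to the exponents in `S` -/
def proj (ω : Wgt G) (S : Set G) : L1 ω →L[ℂ] L1 ω :=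
  lin (fun g => if g ∈ S then mono ω g 1 else 0) 1 fun g => by
    rw [one_mul]
    split_ifs
    · rw [norm_mono, norm_one, one_mul]
    · rw [norm_zero]; exact (ω.pos g).le

open scoped Classical in
theorem co_proj (S : Set G) (f : L1 ω) (g : G) :
    (proj ω S f).co g = if g ∈ S then f.co g else 0 := by
  have h1 := (hasSum_mono f).map ((coL ω g).comp (proj ω S))
    ((coL ω g).comp (proj ω S)).continuous
  have h2 : (proj ω S f).co g = ((coL ω g).comp (proj ω S)) f := rfl
  rw [h2, ← h1.tsum_eq, tsum_eq_single g]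
  · simp only [Function.comp_apply, ContinuousLinearMap.comp_apply, coL_apply]
    unfold proj
    rw [lin_mono]
    split_ifs
    · rw [co_smul, co_mono_self, mul_one]
    · rw [smul_zero, co_zero]
  · intro j hj
    simp only [Function.comp_apply, ContinuousLinearMap.comp_apply, coL_apply]
    unfold proj
    rw [lin_mono]
    split_ifs
    · rw [co_smul, co_mono_ne (Ne.symm hj), mul_zero]
    · rw [smul_zero, co_zero]

theorem supp_proj (S : Set G) (f : L1 ω) : Supp S (proj ω S f) := by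
  classical
  intro g hg
  rw [co_proj, if_neg hg]

theorem proj_of_supp {S : Set G} {f : L1 ω} (hf : Supp S f) : proj ω S f = f := by
  classical
  apply ext
  intro g
  rw [co_proj]
  split_ifs with h
  · rfl
  · exact (hf g h).symm

theorem proj_add_compl (S : Set G) (f : L1 ω) : proj ω S f + proj ω Sᶜ f = f := by
  classical
  apply ext
  intro g
  rw [co_add, co_proj, co_proj]
  by_cases h : g ∈ S
  · rw [if_pos h, if_neg (by simpa using h), add_zero]
  · rw [if_neg h, if_pos (by simpa using h), zero_add]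

theorem norm_proj_le (S : Set G) (f : L1 ω) : ‖proj ω S f‖ ≤ ‖f‖ := by
  unfold proj
  refine (norm_lin_apply_le _ f).trans ?_
  rw [one_mul]

/-- restriction of the weight on a set of exponents (a linear map, multiplicative on elements
supported in a submonoid) -/
theorem summ_of_le {ω' : Wgt G} {S : Set G} (h : ∀ g ∈ S, ω'.w g ≤ ω.w g) {f : L1 ω}
    (hf : Supp S f) : Summable fun g => ‖f.co g‖ * ω'.w g := by
  refine Summable.of_nonneg_of_le (fun g => mul_nonneg (norm_nonneg _) (ω'.pos g).le)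
    (fun g => ?_) f.summ
  by_cases hg : g ∈ S
  · exact mul_le_mul_of_nonneg_left (h g hg) (norm_nonneg _)
  · rw [hf g hg, norm_zero, zero_mul, zero_mul]

end L1

end Pool.Agent.TubeN
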