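import Pool.Agent.Lib_MP_1209e6_fl.Defs
import Pool.Agent.Lib_MP_1209e6_nt.L1

/-!
# `MP_1209e6_ag`, line N: normalised tubes

`n` parameters `b` (the starting point, coordinates `y = y(m) + b`) and the time `w`.
-/

set_option autoImplicit false

open Filter Topology
open Pool.Agent.CampanaFlow

noncomputable section

namespace Pool.Agent.TubeN

/-- the radius of convergence number `N` -/
def rad (N : ℕ) : ℝ := 1 / ((N : ℝ) + 1)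

theorem rad_pos (N : ℕ) : 0 < rad N := by unfold rad; positivity

theorem rad_le_one (N : ℕ) : rad N ≤ 1 := by
  unfold rad
  rw [div_le_one (by positivity)]
  linarith [(Nat.cast_nonneg N : (0 : ℝ) ≤ N)]

/-- exponents of power series in the `n` variables `b` and one more variable -/
abbrev Gam (n : ℕ) : Type := (Fin n → ℕ) × ℕ

/-- the weight `rad N ^ (|ν| + k)` -/
def wP (n N : ℕ) : Wgt (Gam n) where
  w g := rad N ^ ((∑ i, g.1 i) + g.2)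
  pos g := pow_pos (rad_pos N) _
  zero := by simp
  add a b := by
    rw [← pow_add]
    refine le_of_eq ?_
    congr 1
    simp only [Prod.fst_add, Prod.snd_add, Pi.add_apply, Finset.sum_add_distrib]
    ring

/-- convergent power series in `(b, w)`, radius `rad N` -/
abbrev PS (n N : ℕ) : Type := L1 (wP n N)

/-- the variable `b_i` -/
def Xv (n N : ℕ) (i : Fin n) : PS n N := L1.mono _ (Pi.single i 1, 0) 1

/-- the variable `w` -/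
def Wv (n N : ℕ) : PS n N := L1.mono _ (0, 1) 1

/-- the monomial `b^ν w^k` -/
def mn {B : Type} [CommRing B] {n : ℕ} (b : Fin n → B) (w : B) (g : Gam n) : B :=
  (∏ i, b i ^ g.1 i) * w ^ g.2

/-- the value of the series at `(b, w)` -/
def evB {B : Type} [NormedCommRing B] [NormedAlgebra ℂ B] {n N : ℕ} (b : Fin n → B) (w : B)
    (f : PS n N) : B := ∑' g, f.co g • mn b w g

section

variable {R : Type} [CommRing R] [Algebra ℂ R]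

/-- value of a function at a possibly undefined point -/
def val (o : Option (R →ₐ[ℂ] ℂ)) (f : R) : ℂ :=
  match o with
  | some q => q f
  | none => 0

/-- a possibly undefined point depending on `t` is undefined near `t₀`, or meromorphic at `t₀` and
analytic near `t₀`. -/
def Dich (γ : ℂ → Option (R →ₐ[ℂ] ℂ)) (t₀ : ℂ) : Prop :=
  (∀ᶠ t in 𝓝[≠] t₀, γ t = none) ∨
    ((∀ᶠ t in 𝓝[≠] t₀, γ t ≠ none ∧ ∀ f, AnalyticAt ℂ (fun t' => val (γ t') f) t) ∧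
      ∀ f, MeromorphicAt (fun t' => val (γ t') f) t₀)

/-- the lifting property -/
def Lift {n : ℕ} (r : ℝ) (E : (Fin n → ℂ) → ℂ → Option (R →ₐ[ℂ] ℂ)) : Prop :=
  ∀ (t₀ : ℂ) (b : ℂ → Fin n → ℂ) (w : ℂ → ℂ), (∀ i, AnalyticAt ℂ (fun t => b t i) t₀) →
    AnalyticAt ℂ w t₀ → (∀ i, ‖b t₀ i‖ < r) → Dich (fun t => E (b t) (w t)) t₀

end

variable {S R : Type} [CommRing S] [Algebra ℂ S] [CommRing R] [Algebra ℂ R]

/-- at `w = 0` the point has the coordinates `y (m) + b` -/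
def Nrm {n N : ℕ} (y : Fin n → S) (m : S →ₐ[ℂ] ℂ) (Φ : S →ₐ[ℂ] PS n N) : Prop :=
  ∀ i, ∃ g : PS n N, Φ (y i) = algebraMap ℂ _ (m (y i)) + Xv n N i + Wv n N * g

/-- the ideals of the functions vanishing on the curves `w ↦ Φ (b, w)` are stable under `D` -/
def GoodFor {n N : ℕ} (Φ : S →ₐ[ℂ] PS n N) (D : Derivation ℂ S S) : Prop :=
  ∀ b : Fin n → ℂ, (∀ i, ‖b i‖ < rad N) → ∀ f : S, (∀ w, ‖w‖ < rad N → evB b w (Φ f) = 0) →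
    ∀ w, ‖w‖ < rad N → evB b w (Φ (D f)) = 0

/-- A normalised tube at the point `m` -/
structure Tube (n N : ℕ) (ρ : R →ₐ[ℂ] S) (y : Fin n → S) (m : S →ₐ[ℂ] ℂ) where
  Φ : S →ₐ[ℂ] PS n N
  nrm : Nrm y m Φ
  base : ∀ f, (Φ f).co 0 = m f
  E : (Fin n → ℂ) → ℂ → Option (R →ₐ[ℂ] ℂ)
  g0 : ∀ b w, (∀ i, ‖b i‖ < rad N) → ‖w‖ < rad N →
    ∃ q, E b w = some q ∧ ∀ f, q f = evB b w (Φ (ρ f))
  lift : Lift (rad N) E

/-- the time of the first tube -/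
def tau (η ζ : ℂ) : ℂ := η * (Complex.exp ζ - Complex.exp 1)

/-- Result of the gluing of two tubes at `ζ = exp w`, `1/2 < |ζ| < 2`. -/
structure GlueData {n N₁ N₂ : ℕ} {ρ : R →ₐ[ℂ] S} {y : Fin n → S} {m : S →ₐ[ℂ] ℂ}
    (T₁ : Tube n N₁ ρ y m) (T₂ : Tube n N₂ ρ y m) (N : ℕ) where
  one_le : 1 ≤ N
  η : ℂ
  hη : η ≠ 0
  Φ : S →ₐ[ℂ] PS n N
  nrm : Nrm y m Φ
  base : ∀ f, (Φ f).co 0 = m f
  σ₁ : (Fin n → ℂ) → ℂ → Fin n → ℂ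
  σ₂ : (Fin n → ℂ) → ℂ → Fin n → ℂ
  small₁ : ∀ b u, (∀ i, ‖b i‖ < rad N) → ‖u‖ < 2 → ∀ i, ‖σ₁ b u i‖ < rad N₁
  small₂ : ∀ b u, (∀ i, ‖b i‖ < rad N) → ‖u‖ < 2 → ∀ i, ‖σ₂ b u i‖ < rad N₂
  ana₁ : ∀ (t₀ : ℂ) (b : ℂ → Fin n → ℂ) (u : ℂ → ℂ), (∀ i, AnalyticAt ℂ (fun t => b t i) t₀) →
    AnalyticAt ℂ u t₀ → (∀ i, ‖b t₀ i‖ < rad N) → ‖u t₀‖ < 2 →
    ∀ i, AnalyticAt ℂ (fun t => σ₁ (b t) (u t) i) t₀
  ana₂ : ∀ (t₀ : ℂ) (b : ℂ → Fin n → ℂ) (u : ℂ → ℂ), (∀ i, AnalyticAt ℂ (fun t => b t i) t₀) →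
    AnalyticAt ℂ u t₀ → (∀ i, ‖b t₀ i‖ < rad N) → ‖u t₀‖ < 2 →
    ∀ i, AnalyticAt ℂ (fun t => σ₂ (b t) (u t) i) t₀
  time₁ : ∀ ζ : ℂ, ‖ζ‖ < 2 → ‖tau η ζ‖ < rad N₁
  time₂ : ∀ ζ : ℂ, ‖ζ‖ < 2 → ‖tau η ζ‖ < rad N₂
  agree : ∀ b ζ, (∀ i, ‖b i‖ < rad N) → ζ ≠ 0 → ‖ζ‖ < 2 → ‖ζ⁻¹‖ < 2 → ∀ f : S,
    evB (σ₁ b ζ⁻¹) (tau η ζ) (T₁.Φ f) = evB (σ₂ b ζ) (tau η ζ⁻¹) (T₂.Φ f)
  value : ∀ b w, (∀ i, ‖b i‖ < rad N) → ‖w‖ < rad N → ∀ f : S,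
    evB b w (Φ f) = evB (σ₁ b (Complex.exp (-w))) (tau η (Complex.exp w)) (T₁.Φ f)

/-- primes of `S` over `R` are incomparable -/
def Incomp (ρ : R →ₐ[ℂ] S) : Prop :=
  ∀ Q P : Ideal S, Q.IsPrime → P.IsPrime → Q ≤ P →
    P.comap (ρ : R →+* S) ≤ Q.comap (ρ : R →+* S) → Q = P

end Pool.Agent.TubeN
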