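import Pool.Agent.Lib_MP_1209e6_nt.FlowLiftB
import Pool.Agent.Lib_MP_1209e6_nt.Tube

/-! LINE N, FLOW-LIFT: intrinsic maximal flow. -/

set_option autoImplicit false

open Filter Topology Pool.Agent.CampanaFlow Pool.Agent.CampanaK

noncomputable section

namespace Pool.Agent.TubeN

variable {S : Type} [CommRing S] [Algebra ℂ S] {d : Derivation ℂ S S}

open Classical in
/-- the maximal flow -/
def Fl (d : Derivation ℂ S S) (q : S →ₐ[ℂ] ℂ) (t : ℂ) : Option (S →ₐ[ℂ] ℂ) :=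
  if h : ∃ q', Good d q t q' then some h.choose else none

theorem Fl_some {q q' : S →ₐ[ℂ] ℂ} {t : ℂ} (h : Good d q t q') : Fl d q t = some q' := by
  have hex : ∃ q', Good d q t q' := ⟨q', h⟩
  unfold Fl
  rw [dif_pos hex, hex.choose_spec.unique h]

theorem Fl_none {q : S →ₐ[ℂ] ℂ} {t : ℂ} (h : ¬ ∃ q', Good d q t q') : Fl d q t = none := by
  unfold Fl
  rw [dif_neg h]

/-- analytic families of points -/
def Fam (γ : ℂ → S →ₐ[ℂ] ℂ) (t₀ : ℂ) : Prop :=
  ∀ᶠ t in 𝓝 t₀, ∀ f, AnalyticAt ℂ (fun u => γ u f) t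

theorem Fam.of [Algebra.FiniteType ℂ S] {γ : ℂ → S →ₐ[ℂ] ℂ} {t₀ : ℂ}
    (h : ∀ f, AnalyticAt ℂ (fun t => γ t f) t₀) : Fam γ t₀ := by
  obtain ⟨G, hGf, hG⟩ := (Subalgebra.fg_def.1 (Algebra.FiniteType.out (R := ℂ) (A := S)))
  have h1 : ∀ᶠ t in 𝓝 t₀, ∀ g ∈ G, AnalyticAt ℂ (fun u => γ u g) t := by
    rw [hGf.eventually_all]
    intro g _
    exact (h g).eventually_analyticAt
  filter_upwards [h1] with t ht f
  have hf : f ∈ Algebra.adjoin ℂ G := by rw [hG]; trivial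
  induction hf using Algebra.adjoin_induction with
  | mem x hx => exact ht x hx
  | algebraMap r =>
    have e : (fun u => γ u (algebraMap ℂ S r)) = fun _ => r := by
      funext u
      exact AlgHomClass.commutes (γ u) r
    rw [e]
    exact analyticAt_const
  | add x y _ _ ihx ihy =>
    have e : (fun u => γ u (x + y)) = fun u => γ u x + γ u y := by
      funext u
      exact map_add _ _ _
    rw [e]
    exact ihx.add ihy
  | mul x y _ _ ihx ihy =>
    have e : (fun u => γ u (x * y)) = fun u => γ u x * γ u y := by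
      funext u
      exact map_mul _ _ _
    rw [e]
    exact ihx.mul ihy

theorem continuousAt_size (cd : ChartData d) {γ : ℂ → S →ₐ[ℂ] ℂ} {t₀ : ℂ}
    (h : ∀ f, AnalyticAt ℂ (fun t => γ t f) t₀) : ContinuousAt (fun t => cd.size (γ t)) t₀ := by
  unfold ChartData.size
  refine continuousAt_const.mul ?_
  refine tendsto_finsetSum _ fun j _ => tendsto_finsetSum _ fun l _ =>
    tendsto_finsetSum _ fun s _ => ?_
  refine tendsto_const_nhds.mul (Tendsto.mul ?_ tendsto_const_nhds)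
  refine tendsto_finsetProd _ fun a _ => ?_
  exact ((h (cd.c a)).continuousAt.norm).tendsto.pow _

/-- local description of a small step of a family -/
theorem step_family (cd : ChartData d) {g : ℂ → S →ₐ[ℂ] ℂ} {σ : ℂ → ℂ} {t₀ : ℂ} (hg : Fam g t₀)
    (hσ : AnalyticAt ℂ σ t₀) (hs : ∀ᶠ t in 𝓝 t₀, ‖σ t‖ * cd.size (g t) ≤ 1 / 4) :
    ∃ h : ℂ → ℂ, AnalyticAt ℂ h t₀ ∧
      (∀ᶠ t in 𝓝 t₀, ((∃ q', Step d (g t) (σ t) q') ↔ h t ≠ 0)) ∧
      ∀ f : S, ∃ (k : ℂ → ℂ) (m : ℕ), (∀ᶠ t in 𝓝 t₀, AnalyticAt ℂ k t) ∧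
        ∀ᶠ t in 𝓝 t₀, ∀ q', Step d (g t) (σ t) q' → q' f = k t / h t ^ m := by
  obtain ⟨j, hj⟩ := cd.exists_chart_nhds g t₀ (fun f => (hg.self_of_nhds f).continuousAt)
  have hσ' : ∀ᶠ t in 𝓝 t₀, AnalyticAt ℂ σ t := hσ.eventually_analyticAt
  have hall := hg.and (hσ'.and (hj.and hs))
  obtain ⟨V, hV, hVo, htV⟩ := eventually_nhds_iff.1 hall
  have hana : ∀ f ∈ Algebra.adjoin ℂ (Set.range (Sum.elim cd.c (cd.X j))), ∀ z ∈ V,
      AnalyticAt ℂ (fun w => ev d (g w) (σ w) f) z := fun f hf =>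
    cd.ana hVo g (fun f z hz => (hV z hz).1 f) σ (fun z hz => (hV z hz).2.1) j
      (fun z hz => (hV z hz).2.2.1) (fun z hz => (hV z hz).2.2.2) f hf
  refine ⟨fun w => ev d (g w) (σ w) (cd.β j), hana _ (cd.β_mem j) t₀ htV, ?_, ?_⟩
  · filter_upwards [hVo.mem_nhds htV] with t ht
    exact cd.step_iff (g t) j (hV t ht).2.2.1 (σ t) (hV t ht).2.2.2
  · intro f
    obtain ⟨m, hm⟩ := cd.β_loc j f
    refine ⟨fun w => ev d (g w) (σ w) (f * cd.β j ^ m), m, ?_, ?_⟩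
    · filter_upwards [hVo.mem_nhds htV] with t ht
      exact hana _ hm t ht
    · filter_upwards [hVo.mem_nhds htV] with t ht q' hq'
      have hβ := cd.conv (g t) j (hV t ht).2.2.1 (σ t) (hV t ht).2.2.2 _ (cd.β_mem j)
      exact hq'.eq_div hβ (hq'.ev_ne_zero (cd.β_unit j) hβ)
        (cd.conv (g t) j (hV t ht).2.2.1 (σ t) (hV t ht).2.2.2 _ hm)

/-- the family of the flows of `γ` at time `w` -/
def Pers (d : Derivation ℂ S S) (γ : ℂ → S →ₐ[ℂ] ℂ) (t₀ : ℂ) (w : ℂ) : Prop :=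
  ∃ g : ℂ → S →ₐ[ℂ] ℂ, Fam g t₀ ∧ ∀ᶠ t in 𝓝 t₀, Good d (γ t) w (g t)

theorem good_size (cd : ChartData d) {q q' : S →ₐ[ℂ] ℂ} {t : ℂ} (h : Good d q t q') :
    cd.size q' = cd.size q := by
  obtain ⟨c, B, hc, ht, rfl⟩ := h
  exact hc.size cd ht

variable [Algebra.FiniteType ℂ S]

theorem Pers.step (cd : ChartData d) {γ : ℂ → S →ₐ[ℂ] ℂ} {t₀ w s : ℂ} (h : Pers d γ t₀ w)
    {A : ℝ} (hA : ∀ᶠ t in 𝓝 t₀, cd.size (γ t) ≤ A) (hs : ‖s‖ * A < 1 / 4) {q' : S →ₐ[ℂ] ℂ}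
    (hq : Good d (γ t₀) (w + s) q') : Pers d γ t₀ (w + s) := by
  classical
  obtain ⟨g, hg, hgood⟩ := h
  have hsz : ∀ᶠ t in 𝓝 t₀, ‖s‖ * cd.size (γ t) < 1 / 4 := by
    filter_upwards [hA] with t ht
    exact lt_of_le_of_lt (mul_le_mul_of_nonneg_left ht (norm_nonneg s)) hs
  have hsz' : ∀ᶠ t in 𝓝 t₀, ‖s‖ * cd.size (g t) ≤ 1 / 4 := by
    filter_upwards [hsz, hgood] with t h1 h2
    rw [good_size cd h2]
    exact h1.le
  obtain ⟨h, hh, hiff, hval⟩ := step_family cd hg (σ := fun _ => s) analyticAt_const hsz'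
  have h0 : h t₀ ≠ 0 := hiff.self_of_nhds.1
    ⟨q', hgood.self_of_nhds.step_of cd hsz.self_of_nhds hq⟩
  have hne : ∀ᶠ t in 𝓝 t₀, h t ≠ 0 := hh.continuousAt.eventually_ne h0
  have hhe : ∀ᶠ t in 𝓝 t₀, AnalyticAt ℂ h t := hh.eventually_analyticAt
  let g' : ℂ → S →ₐ[ℂ] ℂ := fun t => if hq : ∃ q', Step d (g t) s q' then hq.choose else γ t
  have hg' : ∀ᶠ t in 𝓝 t₀, Step d (g t) s (g' t) := by
    filter_upwards [hiff, hne] with t h1 h2
    have h3 := h1.2 h2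
    have h4 : g' t = h3.choose := dif_pos h3
    rw [h4]
    exact h3.choose_spec
  refine ⟨g', Fam.of ?_, ?_⟩
  · intro f
    obtain ⟨k, m, hk, hkv⟩ := hval f
    have h5 : AnalyticAt ℂ (fun t => k t / h t ^ m) t₀ :=
      hk.self_of_nhds.div (hh.pow m) (pow_ne_zero m h0)
    refine h5.congr ?_
    filter_upwards [hkv, hg'] with t h6 h7
    exact (h6 _ h7).symm
  · filter_upwards [hgood, hsz, hg'] with t h1 h2 h3
    exact h1.step cd h2 h3

theorem pers_zero (cd : ChartData d) {γ : ℂ → S →ₐ[ℂ] ℂ} {t₀ : ℂ}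
    (h : ∀ f, AnalyticAt ℂ (fun t => γ t f) t₀) : Pers d γ t₀ 0 := by
  refine ⟨γ, Fam.of h, Eventually.of_forall fun t => ?_⟩
  obtain ⟨c, B, hc, -⟩ := rep_exists cd (γ t)
  refine ⟨c, B, hc, hc.zero, ?_⟩
  have h1 := hc.flow.self_of_nhds
  apply AlgHom.ext
  intro f
  rw [(h1 f).2]
  unfold ev
  rw [tsum_eq_single 0 (fun n hn => by rw [zero_pow hn, mul_zero]), pow_zero, mul_one]
  unfold tc
  simp

theorem pers_all (cd : ChartData d) {γ : ℂ → S →ₐ[ℂ] ℂ} {t₀ : ℂ}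
    (h : ∀ f, AnalyticAt ℂ (fun t => γ t f) t₀) {c : ℂ → S →ₐ[ℂ] ℂ} {B : Set ℂ}
    (hc : Rep d (γ t₀) c B) {w : ℂ} (hw : w ∉ B) : Pers d γ t₀ w := by
  obtain ⟨A, hA⟩ : ∃ A : ℝ, A = cd.size (γ t₀) + 1 := ⟨_, rfl⟩
  have hA0 : 0 < A := by
    have := cd.size_nonneg (γ t₀)
    linarith
  have hsz : ∀ᶠ t in 𝓝 t₀, cd.size (γ t) ≤ A := by
    have h1 := (continuousAt_size cd h).eventually_lt_const
      (show cd.size (γ t₀) < A by linarith)
    exact h1.mono fun t ht => ht.le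
  obtain ⟨δ, hδ0, hδ⟩ : ∃ δ : ℝ, 0 < δ ∧ δ * A < 1 / 4 := by
    refine ⟨1 / 5 / A, by positivity, ?_⟩
    rw [div_mul_cancel₀ _ hA0.ne']
    norm_num
  have hstep : ∀ w w' : ℂ, Pers d γ t₀ w → w' ∉ B → ‖w' - w‖ < δ → Pers d γ t₀ w' := by
    intro w w' hP hw' hd
    have h2 : ‖w' - w‖ * A < 1 / 4 :=
      lt_of_le_of_lt (mul_le_mul_of_nonneg_right hd.le hA0.le) hδ
    have h3 : Good d (γ t₀) (w + (w' - w)) (c w') := by
      rw [add_sub_cancel]
      exact ⟨c, B, hc, hw', rfl⟩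
    have h4 := hP.step cd hsz h2 h3
    rwa [add_sub_cancel] at h4
  have key : ∀ n : ℕ, ∀ w : ℂ, w ∉ B → ‖w‖ < ((n : ℝ) + 1) * δ → Pers d γ t₀ w := by
    intro n
    induction n with
    | zero =>
      intro w hw hn
      refine hstep 0 w (pers_zero cd h) hw ?_
      rw [sub_zero]
      simpa using hn
    | succ n ih =>
      intro w hw hn
      have hn1 : (0 : ℝ) < (n : ℝ) + 1 := by positivity
      have hn2 : (0 : ℝ) < (n : ℝ) + 1 + 1 := by positivity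
      push_cast at hn
      obtain ⟨θ, hθ⟩ : ∃ θ : ℝ, θ = ((n : ℝ) + 1) / ((n : ℝ) + 1 + 1) := ⟨_, rfl⟩
      have hθ0 : 0 ≤ θ := by rw [hθ]; positivity
      have hθ1 : 1 - θ = 1 / ((n : ℝ) + 1 + 1) := by
        rw [hθ]
        field_simp
        ring
      obtain ⟨p, hp⟩ : ∃ p : ℂ, p = (θ : ℂ) * w := ⟨_, rfl⟩
      have hp1 : ‖p‖ < ((n : ℝ) + 1) * δ := by
        rw [hp, norm_mul, Complex.norm_real, Real.norm_of_nonneg hθ0, hθ, div_mul_eq_mul_div,
          div_lt_iff₀ hn2]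
        calc ((n : ℝ) + 1) * ‖w‖ < ((n : ℝ) + 1) * (((n : ℝ) + 1 + 1) * δ) :=
              mul_lt_mul_of_pos_left hn hn1
          _ = _ := by ring
      have hp2 : ‖w - p‖ < δ := by
        have e1 : w - p = ((1 - θ : ℝ) : ℂ) * w := by
          rw [hp]
          push_cast
          ring
        rw [e1, hθ1, norm_mul, Complex.norm_real, Real.norm_of_nonneg (by positivity),
          one_div_mul_eq_div, div_lt_iff₀ hn2]
        linarith
      have h5 : ∀ᶠ z in 𝓝[≠] p, z ∉ B := hc.curve.disc p (Set.mem_univ p)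
      have h6 : ∀ᶠ z in 𝓝[≠] p, ‖z‖ < ((n : ℝ) + 1) * δ :=
        nhdsWithin_le_nhds (continuous_norm.continuousAt.eventually_lt_const hp1)
      have h7 : ∀ᶠ z in 𝓝[≠] p, ‖w - z‖ < δ :=
        nhdsWithin_le_nhds ((continuous_const.sub continuous_id).norm.continuousAt.eventually_lt_const
          hp2)
      obtain ⟨z, hz1, hz2, hz3⟩ := (h5.and (h6.and h7)).exists
      exact hstep z w (ih z hz1 hz2) hw hz3
  obtain ⟨n, hn⟩ := exists_nat_gt (‖w‖ / δ)
  refine key n w hw ?_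
  rw [div_lt_iff₀ hδ0] at hn
  nlinarith

/-- FLOW-LIFT (helper53 / helper16): intrinsic maximal flow on the points of `S'` -/
theorem flow_lift {S' : Type} [CommRing S'] [Algebra ℂ S'] [Algebra.FiniteType ℂ S']
    (d : Derivation ℂ S' S') (cd : ChartData d) :
    ∃ Fl : (S' →ₐ[ℂ] ℂ) → ℂ → Option (S' →ₐ[ℂ] ℂ),
      (∀ q t, ∀ r : ℝ, ‖t‖ < r → (∀ s : ℂ, ‖s‖ < r → ∃ q', IsFlow d q s q') →
        ∀ q', IsFlow d q t q' → Fl q t = some q') ∧
      ∀ (t₀ : ℂ) (γ : ℂ → S' →ₐ[ℂ] ℂ) (τ : ℂ → ℂ), (∀ f, AnalyticAt ℂ (fun t => γ t f) t₀) →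
        AnalyticAt ℂ τ t₀ → Dich (fun t => Fl (γ t) (τ t)) t₀ := by
  refine ⟨Fl d, ?_, ?_⟩
  · intro q t r _ _ q' hq'
    obtain ⟨c, B, hc, h1⟩ := rep_exists cd q
    exact Fl_some ⟨c, B, hc, (h1 t q' hq').1, (h1 t q' hq').2⟩
  · intro t₀ γ τ hγ hτ
    obtain ⟨c, B, hc, -⟩ := rep_exists cd (γ t₀)
    obtain ⟨A, hA⟩ : ∃ A : ℝ, A = cd.size (γ t₀) + 1 := ⟨_, rfl⟩
    have hA0 : 0 < A := by
      have := cd.size_nonneg (γ t₀)
      linarith
    have hsz : ∀ᶠ t in 𝓝 t₀, cd.size (γ t) ≤ A := by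
      have h1 := (continuousAt_size cd hγ).eventually_lt_const
        (show cd.size (γ t₀) < A by linarith)
      exact h1.mono fun t ht => ht.le
    obtain ⟨w, hwB, hw⟩ : ∃ w, w ∉ B ∧ ‖τ t₀ - w‖ * A < 1 / 4 := by
      have h5 : ∀ᶠ z in 𝓝[≠] (τ t₀), z ∉ B := hc.curve.disc _ (Set.mem_univ _)
      have h6 : ∀ᶠ z in 𝓝[≠] (τ t₀), ‖τ t₀ - z‖ * A < 1 / 4 := by
        refine nhdsWithin_le_nhds ?_
        have hcont : Continuous fun z => ‖τ t₀ - z‖ * A :=
          (continuous_const.sub continuous_id).norm.mul continuous_const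
        refine hcont.continuousAt.eventually_lt_const ?_
        show ‖τ t₀ - τ t₀‖ * A < 1 / 4
        rw [sub_self, norm_zero, zero_mul]
        norm_num
      exact (h5.and h6).exists
    obtain ⟨g, hg, hgood⟩ := pers_all cd hγ hc hwB
    have hσ : AnalyticAt ℂ (fun t => τ t - w) t₀ := hτ.sub analyticAt_const
    have hs1 : ∀ᶠ t in 𝓝 t₀, ‖τ t - w‖ * A < 1 / 4 :=
      (hσ.continuousAt.norm.mul continuousAt_const).eventually_lt_const hw
    have hs2 : ∀ᶠ t in 𝓝 t₀, ‖τ t - w‖ * cd.size (γ t) < 1 / 4 := by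
      filter_upwards [hs1, hsz] with t h1 h2
      exact lt_of_le_of_lt (mul_le_mul_of_nonneg_left h2 (norm_nonneg _)) h1
    have hs3 : ∀ᶠ t in 𝓝 t₀, ‖τ t - w‖ * cd.size (g t) ≤ 1 / 4 := by
      filter_upwards [hs2, hgood] with t h1 h2
      rw [good_size cd h2]
      exact h1.le
    obtain ⟨h, hh, hiff, hval⟩ := step_family cd hg hσ hs3
    -- the maximal flow is the step
    have hfl : ∀ᶠ t in 𝓝 t₀, ∀ q', Good d (γ t) (τ t) q' ↔ Step d (g t) (τ t - w) q' := by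
      filter_upwards [hgood, hs2] with t h1 h2 q'
      constructor
      · intro h3
        refine h1.step_of cd h2 ?_
        rw [add_sub_cancel]
        exact h3
      · intro h3
        have h4 := h1.step cd h2 h3
        rwa [add_sub_cancel] at h4
    rcases hh.eventually_eq_zero_or_eventually_ne_zero with h0 | h0
    · left
      filter_upwards [nhdsWithin_le_nhds h0, nhdsWithin_le_nhds hiff, nhdsWithin_le_nhds hfl]
        with t h1 h2 h3
      refine Fl_none ?_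
      rintro ⟨q', hq'⟩
      exact h2.1 ⟨q', (h3 q').1 hq'⟩ h1
    · right
      have hne : ∀ᶠ t in 𝓝[≠] t₀, ∃ q', Step d (g t) (τ t - w) q' ∧ Fl d (γ t) (τ t) = some q' := by
        filter_upwards [h0, nhdsWithin_le_nhds hiff, nhdsWithin_le_nhds hfl] with t h1 h2 h3
        obtain ⟨q', hq'⟩ := h2.2 h1
        exact ⟨q', hq', Fl_some ((h3 q').2 hq')⟩
      have hv : ∀ f : S', ∃ (k : ℂ → ℂ) (m : ℕ), (∀ᶠ t in 𝓝 t₀, AnalyticAt ℂ k t) ∧
          ∀ᶠ t in 𝓝[≠] t₀, val (Fl d (γ t) (τ t)) f = k t / h t ^ m := by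
        intro f
        obtain ⟨k, m, hk, hkv⟩ := hval f
        refine ⟨k, m, hk, ?_⟩
        filter_upwards [hne, nhdsWithin_le_nhds hkv] with t h1 h2
        obtain ⟨q', h3, h4⟩ := h1
        rw [h4]
        exact h2 q' h3
      have hmer : ∀ f, MeromorphicAt (fun t' => val (Fl d (γ t') (τ t')) f) t₀ := by
        intro f
        obtain ⟨k, m, hk, hkv⟩ := hv f
        refine (hk.self_of_nhds.meromorphicAt.div (hh.meromorphicAt.pow m)).congr ?_
        filter_upwards [hkv] with t ht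
        exact ht.symm
      refine ⟨?_, hmer⟩
      -- analyticity near `t₀`
      have hnn : ∀ᶠ t in 𝓝[≠] t₀, Fl d (γ t) (τ t) ≠ none := by
        filter_upwards [hne] with t ht
        obtain ⟨q', -, h4⟩ := ht
        rw [h4]
        exact Option.some_ne_none q'
      obtain ⟨G, hGf, hG⟩ := (Subalgebra.fg_def.1 (Algebra.FiniteType.out (R := ℂ) (A := S')))
      have hgen : ∀ᶠ t in 𝓝[≠] t₀, ∀ f ∈ G, AnalyticAt ℂ
          (fun t' => val (Fl d (γ t') (τ t')) f) t := by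
        rw [hGf.eventually_all]
        intro f _
        obtain ⟨k, m, hk, hkv⟩ := hv f
        have h7 := C4_punct hkv
        have h8 : ∀ᶠ t in 𝓝[≠] t₀, AnalyticAt ℂ h t :=
          nhdsWithin_le_nhds hh.eventually_analyticAt
        filter_upwards [h7, nhdsWithin_le_nhds hk, h8, h0] with t k1 k2 k3 k4
        refine (k2.div (k3.pow m) (pow_ne_zero m k4)).congr ?_
        filter_upwards [k1] with u hu
        exact hu.symm
      have hnn' := C4_punct hnn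
      filter_upwards [hnn, hgen, hnn'] with t h1 h2 h3
      refine ⟨h1, fun f => ?_⟩
      have hf : f ∈ Algebra.adjoin ℂ G := by rw [hG]; trivial
      have hsome : ∀ᶠ u in 𝓝 t, ∃ q' : S' →ₐ[ℂ] ℂ, Fl d (γ u) (τ u) = some q' := by
        filter_upwards [h3] with u hu
        exact Option.ne_none_iff_exists'.1 hu
      induction hf using Algebra.adjoin_induction with
      | mem x hx => exact h2 x hx
      | algebraMap r =>
        refine (analyticAt_const (v := r)).congr ?_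
        filter_upwards [hsome] with u hu
        obtain ⟨q', hq'⟩ := hu
        rw [hq']
        exact (AlgHomClass.commutes q' r).symm
      | add x y _ _ ihx ihy =>
        refine (ihx.add ihy).congr ?_
        filter_upwards [hsome] with u hu
        obtain ⟨q', hq'⟩ := hu
        show val (Fl d (γ u) (τ u)) x + val (Fl d (γ u) (τ u)) y = _
        rw [hq']
        exact (map_add q' x y).symm
      | mul x y _ _ ihx ihy =>
        refine (ihx.mul ihy).congr ?_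
        filter_upwards [hsome] with u hu
        obtain ⟨q', hq'⟩ := hu
        show val (Fl d (γ u) (τ u)) x * val (Fl d (γ u) (τ u)) y = _
        rw [hq']
        exact (map_mul q' x y).symm

end Pool.Agent.TubeN
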