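import Pool.Agent.Lib_MP_1209e6_kc.U3
import Pool.Agent.Lib_MP_1209e6_fl.F4

/-! LINE N, FLOW-LIFT, part A: maximal flow curves. -/

set_option autoImplicit false

open Filter Topology Pool.Agent.CampanaFlow Pool.Agent.CampanaK

namespace Pool.Agent.TubeN

variable {S : Type} [CommRing S] [Algebra ℂ S] {d : Derivation ℂ S S}

/-- `c` is a curve on the plane which is the flow of `q` near `0` -/
structure Rep (d : Derivation ℂ S S) (q : S →ₐ[ℂ] ℂ) (c : ℂ → S →ₐ[ℂ] ℂ) (B : Set ℂ) : Prop where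
  curve : IsCurve Set.univ c B
  zero : (0 : ℂ) ∉ B
  flow : ∀ᶠ w in 𝓝 (0 : ℂ), IsFlow d q w (c w)

/-- the point `q'` is reached from `q` by a maximal flow curve at time `t` -/
def Good (d : Derivation ℂ S S) (q : S →ₐ[ℂ] ℂ) (t : ℂ) (q' : S →ₐ[ℂ] ℂ) : Prop :=
  ∃ (c : ℂ → S →ₐ[ℂ] ℂ) (B : Set ℂ), Rep d q c B ∧ t ∉ B ∧ c t = q'

variable {q : S →ₐ[ℂ] ℂ} {c c' : ℂ → S →ₐ[ℂ] ℂ} {B B' : Set ℂ}

theorem Rep.eq (h : Rep d q c B) (h' : Rep d q c' B') {w : ℂ} (hw : w ∉ B) (hw' : w ∉ B') :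
    c w = c' w := by
  refine curve_eq isOpen_univ isPreconnected_univ h.curve h'.curve (Set.mem_univ 0) h.zero h'.zero
    ?_ w (Set.mem_univ w) hw hw'
  filter_upwards [h.flow, h'.flow] with z h1 h2
  exact h1.unique h2

theorem Good.unique {t : ℂ} {q₁ q₂ : S →ₐ[ℂ] ℂ} (h : Good d q t q₁) (h' : Good d q t q₂) :
    q₁ = q₂ := by
  obtain ⟨c, B, hc, ht, rfl⟩ := h
  obtain ⟨c', B', hc', ht', rfl⟩ := h'
  exact hc.eq hc' ht ht'

/-- change a maximal curve on an open set -/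
theorem Rep.glue (h : Rep d q c B) {V : Set ℂ} (hV : IsOpen V) {c₁ : ℂ → S →ₐ[ℂ] ℂ} {B₁ : Set ℂ}
    (h₁ : IsCurve V c₁ B₁) (he : ∀ z ∈ V, z ∉ B → z ∉ B₁ → c z = c₁ z) :
    ∃ (c' : ℂ → S →ₐ[ℂ] ℂ) (B' : Set ℂ), Rep d q c' B' ∧ (∀ z, z ∉ B → z ∉ B' ∧ c' z = c z) ∧
      ∀ z ∈ V, z ∉ B₁ → z ∉ B' ∧ c' z = c₁ z := by
  let U : Bool → Set ℂ := fun b => if b then Set.univ else V
  let g : Bool → ℂ → S →ₐ[ℂ] ℂ := fun b => if b then c else c₁
  let E : Bool → Set ℂ := fun b => if b then B else B₁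
  obtain ⟨c', B', h1, h2⟩ := glue_family U (by
      rintro (_ | _)
      · exact hV
      · exact isOpen_univ) g E (by
      rintro (_ | _)
      · exact h₁
      · exact h.curve) q (by
      rintro (_ | _) (_ | _) z hz hz' hE hE'
      · rfl
      · exact (he z hz hE' hE).symm
      · exact he z hz' hE hE'
      · rfl)
  have hun : ⋃ b, U b = Set.univ := Set.eq_univ_of_forall fun z => Set.mem_iUnion.2 ⟨true, trivial⟩
  rw [hun] at h1
  have hc : ∀ z, z ∉ B → z ∉ B' ∧ c' z = c z := fun z hz => h2 true z trivial hz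
  refine ⟨c', B', ⟨h1, (hc 0 h.zero).1, ?_⟩, hc, fun z hz hz' => h2 false z hz hz'⟩
  filter_upwards [h.flow, evt_not_mem h.curve (Set.mem_univ 0) h.zero] with w h3 h4
  rw [(hc w h4).2]
  exact h3

theorem coeff_scalars (a : ℕ → ℂ) (n : ℕ) :
    (FormalMultilinearSeries.ofScalars ℂ a).coeff n = a n := by
  exact FormalMultilinearSeries.coeff_ofScalars

/-- the coefficients of a flow give a power series expansion -/
theorem hasFPS {p : S →ₐ[ℂ] ℂ} {γ : ℂ → S →ₐ[ℂ] ℂ} {w : ℂ}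
    (h : ∀ᶠ s in 𝓝 (0 : ℂ), IsFlow d p s (γ (w + s))) (f : S) :
    HasFPowerSeriesAt (fun z => γ z f) (FormalMultilinearSeries.ofScalars ℂ (tc d p f)) w := by
  rw [hasFPowerSeriesAt_iff]
  filter_upwards [h] with s hs
  have h1 := (hs f).1
  have h2 : Summable fun n => tc d p f n * s ^ n := by
    apply Summable.of_norm
    refine h1.congr fun n => ?_
    rw [norm_mul, norm_pow]
  have h3 := h2.hasSum
  have h4 : (γ (w + s)) f = ∑' n, tc d p f n * s ^ n := (hs f).2
  rw [h4]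
  refine h3.congr_fun ?_
  intro n
  rw [coeff_scalars, smul_eq_mul, mul_comm]

theorem hasDerivAt_of_flow {p : S →ₐ[ℂ] ℂ} {γ : ℂ → S →ₐ[ℂ] ℂ} {w : ℂ}
    (h : ∀ᶠ s in 𝓝 (0 : ℂ), IsFlow d p s (γ (w + s))) (f : S) :
    HasDerivAt (fun z => γ z f) (p (d f)) w := by
  have h1 := (hasFPS h f).hasDerivAt
  have h2 : (FormalMultilinearSeries.ofScalars ℂ (tc d p f)) 1 (fun _ => 1) = p (d f) := by
    have h3 := coeff_scalars (tc d p f) 1
    unfold FormalMultilinearSeries.coeff at h3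
    have h4 : (1 : Fin 1 → ℂ) = fun _ => 1 := rfl
    rw [h4] at h3
    rw [h3]
    simp [tc]
  rw [h2] at h1
  exact h1

/-- the differential equation near `0` -/
theorem Rep.deriv_zero (h : Rep d q c B) :
    ∀ᶠ w in 𝓝 (0 : ℂ), ∀ f, HasDerivAt (fun z => c z f) (c w (d f)) w := by
  obtain ⟨r, hr, hball⟩ := Metric.eventually_nhds_iff_ball.1 h.flow
  filter_upwards [Metric.ball_mem_nhds (0 : ℂ) (half_pos hr)] with w hw f
  apply hasDerivAt_of_flow
  have hw' : ‖w‖ < r / 2 := mem_ball_zero_iff.1 hw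
  have ht : ((3 * r / 4 : ℝ) : ℂ) ∈ Metric.ball (0 : ℂ) r := by
    rw [mem_ball_zero_iff, Complex.norm_real, Real.norm_of_nonneg (by positivity)]
    linarith
  have h3 := hball _ ht
  filter_upwards [Metric.ball_mem_nhds (0 : ℂ) (by positivity : 0 < r / 4)] with s hs
  have hs' : ‖s‖ < r / 4 := mem_ball_zero_iff.1 hs
  obtain ⟨q₂, h4, h5⟩ := IsFlow.add (s₂ := s) (fun f => (h3 f).1)
    (hball w (Metric.ball_subset_ball (by linarith) hw)) (by
      rw [Complex.norm_real, Real.norm_of_nonneg (by positivity)]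
      linarith)
  have h6 : w + s ∈ Metric.ball (0 : ℂ) r := by
    rw [mem_ball_zero_iff]
    linarith [norm_add_le w s]
  rw [(hball _ h6).unique h5]
  exact h4

/-- the differential equation -/
theorem Rep.deriv (h : Rep d q c B) {w : ℂ} (hw : w ∉ B) (f : S) :
    HasDerivAt (fun z => c z f) (c w (d f)) w := by
  have ha : AnalyticOnNhd ℂ (_root_.deriv fun z => c z f) (Set.univ \ B) :=
    fun z hz => (h.curve.ana f z (Set.mem_univ z) hz.2).deriv
  have hb : AnalyticOnNhd ℂ (fun z => c z (d f)) (Set.univ \ B) :=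
    fun z hz => h.curve.ana (d f) z (Set.mem_univ z) hz.2
  have hev : (_root_.deriv fun z => c z f) =ᶠ[𝓝 0] fun z => c z (d f) := by
    filter_upwards [h.deriv_zero] with z hz
    exact (hz f).deriv
  have h1 := ha.eqOn_of_preconnected_of_eventuallyEq hb
    (preconnU isOpen_univ isPreconnected_univ B h.curve.disc) ⟨Set.mem_univ 0, h.zero⟩ hev
    ⟨Set.mem_univ w, hw⟩
  have h2 := (h.curve.ana f w (Set.mem_univ w) hw).differentiableAt.hasDerivAt
  rw [h1] at h2
  exact h2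

/-- the local flow at an ordinary point -/
theorem Rep.local (h : Rep d q c B) {w : ℂ} (hw : w ∉ B) :
    ∀ᶠ s in 𝓝 (0 : ℂ), IsFlow d (c w) s (c (w + s)) := by
  obtain ⟨r, hr, hball⟩ := Metric.eventually_nhds_iff_ball.1
    (evt_not_mem h.curve (Set.mem_univ w) hw)
  have hder : ∀ (n : ℕ) (f : S) (z : ℂ), z ∈ Metric.ball w r →
      iteratedDeriv n (fun z => c z f) z = c z (d^[n] f) := by
    intro n
    induction n with
    | zero => intro f z _; simp
    | succ n ih =>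
      intro f z hz
      rw [iteratedDeriv_succ]
      have h1 : iteratedDeriv n (fun z => c z f) =ᶠ[𝓝 z] fun z => c z (d^[n] f) := by
        filter_upwards [Metric.isOpen_ball.mem_nhds hz] with y hy
        exact ih f y hy
      rw [h1.deriv_eq, (h.deriv (hball z hz) _).deriv, Function.iterate_succ_apply']
  filter_upwards [Metric.ball_mem_nhds (0 : ℂ) hr] with s hs f
  have hs' : w + s ∈ Metric.ball w r := by
    rw [Metric.mem_ball, dist_eq_norm, add_sub_cancel_left]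
    exact mem_ball_zero_iff.1 hs
  have hdiff : DifferentiableOn ℂ (fun z => c z f) (Metric.ball w r) := fun z hz =>
    (h.deriv (hball z hz) f).differentiableAt.differentiableWithinAt
  have h1 := Complex.hasSum_taylorSeries_on_ball hdiff hs'
  have h2 : HasSum (fun n => tc d (c w) f n * s ^ n) (c (w + s) f) := by
    refine h1.congr_fun ?_
    intro n
    rw [hder n f w (Metric.mem_ball_self hr), add_sub_cancel_left]
    unfold tc
    simp only [smul_eq_mul]
    ring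
  constructor
  · refine h2.summable.norm.congr fun n => ?_
    rw [norm_mul, norm_pow]
  · exact h2.tsum_eq.symm

/-- the size is constant -/
theorem Rep.size (cd : ChartData d) (h : Rep d q c B) {w : ℂ} (hw : w ∉ B) :
    cd.size (c w) = cd.size q := by
  have h1 : ∀ a, c w (cd.c a) = q (cd.c a) := by
    intro a
    have ha : AnalyticOnNhd ℂ (fun z => c z (cd.c a)) (Set.univ \ B) :=
      fun z hz => h.curve.ana _ z (Set.mem_univ z) hz.2
    have hb : AnalyticOnNhd ℂ (fun _ : ℂ => q (cd.c a)) (Set.univ \ B) :=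
      fun z _ => analyticAt_const
    have hev : (fun z => c z (cd.c a)) =ᶠ[𝓝 0] fun _ : ℂ => q (cd.c a) := by
      filter_upwards [h.flow] with z hz
      rw [(hz (cd.c a)).2, ev_const (cd.Dc a)]
    exact ha.eqOn_of_preconnected_of_eventuallyEq hb
      (preconnU isOpen_univ isPreconnected_univ B h.curve.disc) ⟨Set.mem_univ 0, h.zero⟩ hev
      ⟨Set.mem_univ w, hw⟩
  unfold ChartData.size
  simp only [h1]

/-- existence of maximal curves -/
theorem rep_exists [Algebra.FiniteType ℂ S] (cd : ChartData d) (q : S →ₐ[ℂ] ℂ) :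
    ∃ (c : ℂ → S →ₐ[ℂ] ℂ) (B : Set ℂ), Rep d q c B ∧
      ∀ w q', IsFlow d q w q' → w ∉ B ∧ c w = q' := by
  obtain ⟨G, hG⟩ := (Subalgebra.fg_def.1 (Algebra.FiniteType.out (R := ℂ) (A := S)))
  obtain ⟨hGf, hG⟩ := hG
  obtain ⟨ρ, hρ, H⟩ := unif_radius d hGf.toFinset (by simpa using hG)
    (∑ g ∈ hGf.toFinset, ‖q g‖)
  have hfl : ∀ᶠ w in 𝓝 (0 : ℂ), ∃ q', IsFlow d q w q' := by
    filter_upwards [Metric.ball_mem_nhds (0 : ℂ) hρ] with w hw
    obtain ⟨q', h1, -⟩ := H q (fun g hg => Finset.single_le_sum (f := fun g => ‖q g‖)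
      (fun _ _ => norm_nonneg _) hg) w (mem_ball_zero_iff.1 hw).le
    exact ⟨q', h1⟩
  have hconst : IsCurve Set.univ (fun _ : ℂ => q) ∅ :=
    ⟨fun z _ => Eventually.of_forall fun w => Set.notMem_empty w, fun f z _ _ => analyticAt_const,
      fun f z _ => analyticAt_const.meromorphicAt⟩
  obtain ⟨c, B, hc, hcf⟩ := flow_on cd isOpen_univ convex_univ hconst (fun w => w)
    (fun z _ => analyticAt_id) (by
      intro R
      refine ⟨|R| * cd.size q, fun w _ hw _ => ?_⟩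
      exact mul_le_mul_of_nonneg_right (hw.le.trans (le_abs_self R)) (cd.size_nonneg q))
    (Set.mem_univ (0 : ℂ)) (Set.notMem_empty _) hfl
  have h1 : ∀ w q', IsFlow d q w q' → w ∉ B ∧ c w = q' := fun w q' hq =>
    hcf w (Set.mem_univ w) (Set.notMem_empty w) q' hq
  refine ⟨c, B, ⟨hc, ?_, ?_⟩, h1⟩
  · obtain ⟨q', hq'⟩ := hfl.self_of_nhds
    exact (h1 0 q' hq').1
  · filter_upwards [hfl] with w hw
    obtain ⟨q', hq'⟩ := hw
    rw [(h1 w q' hq').2]
    exact hq'

end Pool.Agent.TubeN
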