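import Pool.Agent.Lib_MP_1209e6_nt.FlowLiftA
import Pool.Agent.Lib_MP_1209e6_kc.U4

/-! LINE N, FLOW-LIFT, part B: one small step from a good time. -/

set_option autoImplicit false

open Filter Topology Pool.Agent.CampanaFlow Pool.Agent.CampanaK

namespace Pool.Agent.TubeN

variable {S : Type} [CommRing S] [Algebra ℂ S] {d : Derivation ℂ S S}

/-- translation of a curve -/
theorem curve_shift {V : Set ℂ} {c : ℂ → S →ₐ[ℂ] ℂ} {B : Set ℂ} (h : IsCurve V c B) (a : ℂ) :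
    IsCurve {z | z - a ∈ V} (fun z => c (z - a)) {z | z - a ∈ B} := by
  have ht : ∀ z : ℂ, Tendsto (fun w => w - a) (𝓝[≠] z) (𝓝[≠] (z - a)) := by
    intro z
    refine tendsto_nhdsWithin_iff.2 ⟨?_, ?_⟩
    · exact ((continuous_id.sub continuous_const).tendsto z).mono_left nhdsWithin_le_nhds
    · filter_upwards [self_mem_nhdsWithin] with w hw h1
      exact hw (sub_left_inj.1 h1)
  refine ⟨?_, ?_, ?_⟩
  · intro z hz
    exact (ht z).eventually (h.disc (z - a) hz)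
  · intro f z hz hzB
    exact (h.ana f (z - a) hz hzB).comp_of_eq (analyticAt_id.sub analyticAt_const) rfl
  · intro f z hz
    exact MeromorphicAt.comp_analyticAt (f := fun y => c y f) (g := fun y => y - a)
      (h.mer f (z - a) hz) (by fun_prop)

theorem Step.unique_small (cd : ChartData d) {p q' q'' : S →ₐ[ℂ] ℂ} {s : ℂ}
    (hs : ‖s‖ * cd.size p ≤ 1 / 4) (h : Step d p s q') (h' : Step d p s q'') : q' = q'' := by
  obtain ⟨j, hj⟩ := cd.exists_chart p
  have hj2 : ∀ l, ‖p (cd.X j l)‖ ≤ 2 := fun l => (hj l).trans (by norm_num)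
  have hβ := cd.conv p j hj2 s hs _ (cd.β_mem j)
  have hβ0 := h.ev_ne_zero (cd.β_unit j) hβ
  apply AlgHom.ext
  intro f
  obtain ⟨m, hm⟩ := cd.β_loc j f
  have hm' := cd.conv p j hj2 s hs _ hm
  rw [h.eq_div hβ hβ0 hm', h'.eq_div hβ hβ0 hm']

variable [Algebra.FiniteType ℂ S]

/-- the steps from a point for small times -/
theorem small_curve (cd : ChartData d) (p : S →ₐ[ℂ] ℂ) {r : ℝ} (hr : 0 < r)
    (hrs : r * cd.size p ≤ 1 / 4) :
    ∃ (c₁ : ℂ → S →ₐ[ℂ] ℂ) (B₁ : Set ℂ), IsCurve (Metric.ball 0 r) c₁ B₁ ∧ (0 : ℂ) ∉ B₁ ∧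
      (∀ z ∈ Metric.ball (0 : ℂ) r, z ∉ B₁ → Step d p z (c₁ z)) ∧
      ∀ z ∈ Metric.ball (0 : ℂ) r, (∃ q', Step d p z q') → z ∉ B₁ := by
  have hconst : IsCurve (Metric.ball 0 r) (fun _ : ℂ => p) ∅ :=
    ⟨fun z _ => Eventually.of_forall fun w => Set.notMem_empty w, fun f z _ _ => analyticAt_const,
      fun f z _ => analyticAt_const.meromorphicAt⟩
  obtain ⟨c, B, hc, -⟩ := rep_exists cd p
  have h0 : ∃ q', Step d p 0 q' := ⟨_, hc.flow.self_of_nhds.step⟩
  obtain ⟨c₁, B₁, h1, -, h2, h3⟩ := step_curveU Metric.isOpen_ball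
    (convex_ball (0 : ℂ) r).isPreconnected hconst cd (fun z => z) (fun z _ => analyticAt_id) (by
      intro z hz _
      refine le_trans ?_ hrs
      exact mul_le_mul_of_nonneg_right (mem_ball_zero_iff.1 hz).le (cd.size_nonneg p))
    0 (Metric.mem_ball_self hr) (Set.notMem_empty _) h0
  exact ⟨c₁, B₁, h1, h3 0 (Metric.mem_ball_self hr) (Set.notMem_empty _) h0, h2,
    fun z hz hq => h3 z hz (Set.notMem_empty _) hq⟩

theorem exists_radius {A x : ℝ} (hA : 0 ≤ A) (hx : 0 ≤ x) (h : x * A < 1 / 4) :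
    ∃ r : ℝ, 0 < r ∧ x < r ∧ r * A ≤ 1 / 4 := by
  rcases hA.eq_or_lt with h0 | h0
  · refine ⟨x + 1, by positivity, by linarith, ?_⟩
    rw [← h0]
    norm_num
  · refine ⟨1 / 4 / A, by positivity, ?_, ?_⟩
    · rw [lt_div_iff₀ h0]
      exact h
    · rw [div_mul_cancel₀ _ h0.ne']

omit [Algebra.FiniteType ℂ S] in
/-- the small curve agrees with the maximal curve -/
theorem small_agree {q : S →ₐ[ℂ] ℂ} {c : ℂ → S →ₐ[ℂ] ℂ} {B : Set ℂ}
    (hc : Rep d q c B) {w : ℂ} (hw : w ∉ B) {r : ℝ} (hr : 0 < r)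
    {c₁ : ℂ → S →ₐ[ℂ] ℂ} {B₁ : Set ℂ} (h₁ : IsCurve (Metric.ball 0 r) c₁ B₁) (h0 : (0 : ℂ) ∉ B₁)
    (hst : ∀ z ∈ Metric.ball (0 : ℂ) r, z ∉ B₁ → Step d (c w) z (c₁ z)) :
    ∀ z, z - w ∈ Metric.ball (0 : ℂ) r → z ∉ B → z - w ∉ B₁ → c z = c₁ (z - w) := by
  have hsh := curve_shift h₁ w
  have hV : {z | z - w ∈ Metric.ball (0 : ℂ) r} = Metric.ball w r := by
    ext z
    rw [Set.mem_ofPred_eq, mem_ball_zero_iff, Metric.mem_ball, dist_eq_norm]
  rw [hV] at hsh
  intro z hz hzB hzB₁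
  have hz' : z ∈ Metric.ball w r := by
    rw [← hV]
    exact hz
  refine curve_eq Metric.isOpen_ball (convex_ball w r).isPreconnected
    (IsCurve.mono (Set.subset_univ _) hc.curve) hsh (Metric.mem_ball_self hr) hw ?_ ?_ z hz' hzB
    hzB₁
  · show w - w ∉ B₁
    rw [sub_self]
    exact h0
  · have h1 : ∀ᶠ z in 𝓝 w, IsFlow d (c w) (z - w) (c (w + (z - w))) := by
      have h2 : Tendsto (fun z => z - w) (𝓝 w) (𝓝 0) := by
        have h3 : Tendsto (fun z : ℂ => z - w) (𝓝 w) (𝓝 (w - w)) :=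
          (continuous_id.sub continuous_const).tendsto w
        rwa [sub_self] at h3
      exact h2.eventually (hc.local hw)
    have h4 : ∀ᶠ z in 𝓝 w, z - w ∉ B₁ := by
      have h5 := evt_not_mem hsh (Metric.mem_ball_self hr) (by
        show w - w ∉ B₁
        rw [sub_self]
        exact h0)
      exact h5
    filter_upwards [h1, h4, Metric.ball_mem_nhds w hr] with y hy1 hy2 hy3
    rw [add_sub_cancel] at hy1
    have h6 : y - w ∈ Metric.ball (0 : ℂ) r := by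
      have : y ∈ {z | z - w ∈ Metric.ball (0 : ℂ) r} := by
        rw [hV]
        exact hy3
      exact this
    apply AlgHom.ext
    intro f
    rw [hst (y - w) h6 hy2 f (hy1 f).1, (hy1 f).2]

/-- forward: a small step from a good time -/
theorem Good.step (cd : ChartData d) {q q₁ q' : S →ₐ[ℂ] ℂ} {w s : ℂ} (h : Good d q w q₁)
    (hs : ‖s‖ * cd.size q < 1 / 4) (hst : Step d q₁ s q') : Good d q (w + s) q' := by
  obtain ⟨c, B, hc, hw, rfl⟩ := h
  have hsz : cd.size (c w) = cd.size q := hc.size cd hw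
  obtain ⟨r, hr, hsr, hrs⟩ := exists_radius (cd.size_nonneg q) (norm_nonneg s) hs
  obtain ⟨c₁, B₁, h1, h2, h3, h4⟩ := small_curve cd (c w) hr (by rw [hsz]; exact hrs)
  have hag := small_agree hc hw hr h1 h2 h3
  have hsh := curve_shift h1 w
  have hVo : IsOpen {z | z - w ∈ Metric.ball (0 : ℂ) r} :=
    Metric.isOpen_ball.preimage (continuous_id.sub continuous_const)
  obtain ⟨c', B', h5, h6, h7⟩ := hc.glue hVo hsh (fun z hz hzB hzB₁ => hag z hz hzB hzB₁)
  have hsb : s ∈ Metric.ball (0 : ℂ) r := mem_ball_zero_iff.2 hsr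
  have hsB : s ∉ B₁ := h4 s hsb ⟨q', hst⟩
  have h8 := h7 (w + s) (by
    show w + s - w ∈ Metric.ball (0 : ℂ) r
    rw [add_sub_cancel_left]
    exact hsb) (by
    show w + s - w ∉ B₁
    rw [add_sub_cancel_left]
    exact hsB)
  refine ⟨c', B', h5, h8.1, ?_⟩
  rw [h8.2]
  show c₁ (w + s - w) = q'
  rw [add_sub_cancel_left]
  refine Step.unique_small cd ?_ (h3 s hsb hsB) hst
  rw [hsz]
  exact hs.le

/-- backward: between good times at small distance there is a step -/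
theorem Good.step_of (cd : ChartData d) {q q₁ q' : S →ₐ[ℂ] ℂ} {w s : ℂ} (h : Good d q w q₁)
    (hs : ‖s‖ * cd.size q < 1 / 4) (h' : Good d q (w + s) q') : Step d q₁ s q' := by
  obtain ⟨c₀, B₀, hc₀, hw₀, rfl⟩ := h
  obtain ⟨c₂, B₂, hc₂, hw₂, rfl⟩ := h'
  obtain ⟨c, B, hc, k1, k2⟩ := hc₀.glue isOpen_univ hc₂.curve
    (fun z _ hz hz' => hc₀.eq hc₂ hz hz')
  have hw := k1 w hw₀
  have hws := k2 (w + s) (Set.mem_univ _) hw₂
  rw [← hw.2, ← hws.2]
  have hsz : cd.size (c w) = cd.size q := hc.size cd hw.1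
  obtain ⟨r, hr, hsr, hrs⟩ := exists_radius (cd.size_nonneg q) (norm_nonneg s) hs
  obtain ⟨c₁, B₁, h1, h2, h3, h4⟩ := small_curve cd (c w) hr (by rw [hsz]; exact hrs)
  have hag := small_agree hc hw.1 hr h1 h2 h3
  have hsb : s ∈ Metric.ball (0 : ℂ) r := mem_ball_zero_iff.2 hsr
  have hrs' : ∀ z ∈ Metric.ball (0 : ℂ) r, ‖z‖ * cd.size (c w) ≤ 1 / 4 := by
    intro z hz
    rw [hsz]
    refine le_trans ?_ hrs
    exact mul_le_mul_of_nonneg_right (mem_ball_zero_iff.1 hz).le (cd.size_nonneg q)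
  -- the step exists
  obtain ⟨j, hj⟩ := cd.exists_chart (c w)
  have hj2 : ∀ l, ‖c w (cd.X j l)‖ ≤ 2 := fun l => (hj l).trans (by norm_num)
  have hana := cd.ana (D := d) (V := Metric.ball (0 : ℂ) r) Metric.isOpen_ball (fun _ => c w)
    (fun f z _ => analyticAt_const) (fun z => z) (fun z _ => analyticAt_id) j
    (fun z _ => hj2) hrs' (cd.β j) (cd.β_mem j) s hsb
  have hcβ : AnalyticAt ℂ (fun z => c (w + z) (cd.β j)) s :=
    (hc.curve.ana (cd.β j) (w + s) (Set.mem_univ _) hws.1).comp_of_eq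
      (analyticAt_const.add analyticAt_id) rfl
  have hd1 : ∀ᶠ z in 𝓝[≠] s, z ∉ B₁ := h1.disc s hsb
  have hd2 : ∀ᶠ z in 𝓝 s, w + z ∉ B := by
    have h5 : Tendsto (fun z => w + z) (𝓝 s) (𝓝 (w + s)) :=
      (continuous_const.add continuous_id).tendsto s
    exact h5.eventually (evt_not_mem hc.curve (Set.mem_univ _) hws.1)
  have hev : (fun z => ev d (c w) z (cd.β j)) =ᶠ[𝓝[≠] s] fun z => c (w + z) (cd.β j) := by
    filter_upwards [hd1, nhdsWithin_le_nhds hd2,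
      nhdsWithin_le_nhds (Metric.isOpen_ball.mem_nhds hsb)] with z hz1 hz2 hz3
    have h6 := hag (w + z) (by rw [add_sub_cancel_left]; exact hz3) hz2
      (by rw [add_sub_cancel_left]; exact hz1)
    rw [add_sub_cancel_left] at h6
    rw [h6]
    exact (h3 z hz3 hz1 (cd.β j) (cd.conv (c w) j hj2 z (hrs' z hz3) _ (cd.β_mem j))).symm
  have hval : ev d (c w) s (cd.β j) = c (w + s) (cd.β j) := by
    refine tendsto_nhds_unique ?_ (hcβ.continuousAt.continuousWithinAt (s := {s}ᶜ)).tendsto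
    exact (hana.continuousAt.continuousWithinAt (s := {s}ᶜ)).tendsto.congr' hev
  have hne : ev d (c w) s (cd.β j) ≠ 0 := by
    rw [hval]
    exact ((cd.β_unit j).map (c (w + s))).ne_zero
  have hex : ∃ q', Step d (c w) s q' := (cd.step_iff (c w) j hj2 s (hrs' s hsb)).2 hne
  have hsB : s ∉ B₁ := h4 s hsb hex
  have h7 := hag (w + s) (by rw [add_sub_cancel_left]; exact hsb) hws.1
    (by rw [add_sub_cancel_left]; exact hsB)
  rw [add_sub_cancel_left] at h7
  rw [h7]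
  exact h3 s hsb hsB

end Pool.Agent.TubeN
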