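import Pool.Agent.Lib_MP_1209e6_nt.Tube

/-!
# `MP_1209e6_ag`, line N: the flow tube, assembly

The germ of the flow tube (`flow_germ`) and the maximal flow (`flow_lift`) give a normalised tube.
-/

set_option autoImplicit false

open Filter Topology
open Pool.Agent.CampanaFlow

noncomputable section

namespace Pool.Agent.TubeN

section Dich

variable {R S' : Type} [CommRing R] [Algebra ℂ R] [CommRing S'] [Algebra ℂ S']

theorem val_map (r : R →ₐ[ℂ] S') (o : Option (S' →ₐ[ℂ] ℂ)) (f : R) :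
    val (o.map fun q => q.comp r) f = val o (r f) := by
  cases o <;> rfl

/-- restriction to a subring -/
theorem Dich.map {γ : ℂ → Option (S' →ₐ[ℂ] ℂ)} {t₀ : ℂ} (h : Dich γ t₀) (r : R →ₐ[ℂ] S') :
    Dich (fun t => (γ t).map fun q => q.comp r) t₀ := by
  rcases h with h | ⟨h1, h2⟩
  · left
    filter_upwards [h] with t ht
    simp [ht]
  · right
    refine ⟨?_, fun f => ?_⟩
    · filter_upwards [h1] with t ht
      refine ⟨by simpa using ht.1, fun f => ?_⟩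
      simpa only [val_map] using ht.2 (r f)
    · simpa only [val_map] using h2 (r f)

/-- the dichotomy depends only on the values near the point -/
theorem Dich.congr {γ γ' : ℂ → Option (R →ₐ[ℂ] ℂ)} {t₀ : ℂ} (h : Dich γ t₀)
    (he : ∀ᶠ t in 𝓝[≠] t₀, γ t = γ' t) : Dich γ' t₀ := by
  rcases h with h | ⟨h1, h2⟩
  · left
    filter_upwards [h, he] with t ht hte
    rw [← hte, ht]
  · right
    have he' : ∀ᶠ t in 𝓝[≠] t₀, ∀ᶠ s in 𝓝 t, γ s = γ' s := by
      have h3 := eventually_eventually_nhdsWithin.2 he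
      filter_upwards [h3, self_mem_nhdsWithin] with t ht htn
      rwa [(isOpen_compl_singleton.nhdsWithin_eq htn)] at ht
    refine ⟨?_, fun f => ?_⟩
    · filter_upwards [h1, he, he'] with t ht hte hte'
      refine ⟨by rw [← hte]; exact ht.1, fun f => ?_⟩
      refine (ht.2 f).congr ?_
      filter_upwards [hte'] with s hs
      rw [hs]
    · refine (h2 f).congr ?_
      filter_upwards [he] with t ht
      rw [ht]

end Dich

section

variable {S S' R : Type} [CommRing S] [Algebra ℂ S] [CommRing S'] [Algebra ℂ S'] [CommRing R]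
  [Algebra ℂ R]

/-- flows restrict to subrings -/
theorem isFlow_comp {D : Derivation ℂ S S} {d : Derivation ℂ S' S'} {φ : S' →ₐ[ℂ] S}
    (hd : ∀ f, D (φ f) = φ (d f)) {q q' : S →ₐ[ℂ] ℂ} {t : ℂ} (h : IsFlow D q t q') :
    IsFlow d (q.comp φ) t (q'.comp φ) := by
  have key : ∀ (n : ℕ) (f : S'), φ (d^[n] f) = D^[n] (φ f) := by
    intro n
    induction n with
    | zero => intro f; rfl
    | succ n ih =>
      intro f
      rw [Function.iterate_succ_apply, Function.iterate_succ_apply, ih, hd]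
  have htc : ∀ (f : S') (n : ℕ), tc d (q.comp φ) f n = tc D q (φ f) n := by
    intro f n
    simp only [tc, AlgHom.comp_apply, key]
  intro f
  obtain ⟨h1, h2⟩ := h (φ f)
  refine ⟨?_, ?_⟩
  · simpa only [Conv, htc] using h1
  · rw [AlgHom.comp_apply, h2]
    simp only [ev, htc]

/-- FLOW-TUBE from the germ and the maximal flow -/
theorem flow_tube_of (ρ : R →ₐ[ℂ] S) (φ : S' →ₐ[ℂ] S)
    (r : R →ₐ[ℂ] S') (hr : ∀ f, φ (r f) = ρ f) {n : ℕ} (y : Fin n → S)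
    (D : Derivation ℂ S S) (d : Derivation ℂ S' S') (hd : ∀ f, D (φ f) = φ (d f))
    (m : S →ₐ[ℂ] ℂ)
    (ps_ana : ∀ {N : ℕ} (f : PS n N) (t₀ : ℂ) (b : ℂ → Fin n → ℂ) (w : ℂ → ℂ),
      (∀ i, AnalyticAt ℂ (fun t => b t i) t₀) → AnalyticAt ℂ w t₀ →
      (∀ i, ‖b t₀ i‖ < rad N) → ‖w t₀‖ < rad N → AnalyticAt ℂ (fun t => evB (b t) (w t) f) t₀)
    (hgerm : ∃ (N : ℕ) (Φ : S →ₐ[ℂ] PS n N), Nrm y m Φ ∧ (∀ f, (Φ f).co 0 = m f) ∧
      GoodFor Φ D ∧
      ∀ b : Fin n → ℂ, (∀ i, ‖b i‖ < rad N) → ∃ q : S →ₐ[ℂ] ℂ, (∀ f, q f = evB b 0 (Φ f)) ∧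
        ∀ w : ℂ, ‖w‖ < rad N → ∃ q' : S →ₐ[ℂ] ℂ, (∀ f, q' f = evB b w (Φ f)) ∧
          IsFlow D q w q')
    (hlift : ∃ Fl : (S' →ₐ[ℂ] ℂ) → ℂ → Option (S' →ₐ[ℂ] ℂ),
      (∀ q t, ∀ r : ℝ, ‖t‖ < r → (∀ s : ℂ, ‖s‖ < r → ∃ q', IsFlow d q s q') →
        ∀ q', IsFlow d q t q' → Fl q t = some q') ∧
      ∀ (t₀ : ℂ) (γ : ℂ → S' →ₐ[ℂ] ℂ) (τ : ℂ → ℂ), (∀ f, AnalyticAt ℂ (fun t => γ t f) t₀) →
        AnalyticAt ℂ τ t₀ → Dich (fun t => Fl (γ t) (τ t)) t₀) :
    ∃ (N : ℕ) (T : Tube n N ρ y m), GoodFor T.Φ D := by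
  classical
  obtain ⟨N, Φ, hnrm, hbase, hgood, hflow⟩ := hgerm
  obtain ⟨Fl, hFl, hdich⟩ := hlift
  have : Nonempty (S →ₐ[ℂ] ℂ) := ⟨m⟩
  choose! q hq hq' using hflow
  let E : (Fin n → ℂ) → ℂ → Option (R →ₐ[ℂ] ℂ) := fun b w =>
    (Fl ((q b).comp φ) w).map fun p => p.comp r
  refine ⟨N, ⟨Φ, hnrm, hbase, E, ?_, ?_⟩, hgood⟩
  · intro b w hb hw
    obtain ⟨q', h1, h2⟩ := hq' b hb w hw
    have h3 : Fl ((q b).comp φ) w = some (q'.comp φ) := by
      refine hFl _ _ (rad N) hw (fun s hs => ?_) _ (isFlow_comp hd h2)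
      obtain ⟨q'', -, h4⟩ := hq' b hb s hs
      exact ⟨_, isFlow_comp hd h4⟩
    refine ⟨(q'.comp φ).comp r, by simp only [E, h3, Option.map_some], fun f => ?_⟩
    rw [AlgHom.comp_apply, AlgHom.comp_apply, hr, h1]
  · intro t₀ b w hb hw hb0
    have hev : ∀ᶠ t in 𝓝 t₀, ∀ i, ‖b t i‖ < rad N := by
      rw [eventually_all]
      intro i
      exact ((hb i).continuousAt.norm).eventually_lt_const (hb0 i)
    refine (hdich t₀ (fun t => (q (b t)).comp φ) w (fun f => ?_) hw).map r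
    refine (ps_ana (Φ (φ f)) t₀ b (fun _ => 0) hb analyticAt_const hb0
      (by simpa using rad_pos N)).congr ?_
    filter_upwards [hev] with t ht
    rw [AlgHom.comp_apply, hq _ ht]

end

end Pool.Agent.TubeN
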