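import Pool.Agent.Lib_MP_1209e6_nt.Tube

/-!
# `MP_1209e6_ag`, line N: the Laurent algebra with parameters, characters, projections
-/

set_option autoImplicit false

open Filter Topology

noncomputable section

namespace Pool.Agent.TubeN

/-- exponents `(ν, k)`, `k ∈ ℤ` -/
abbrev GamL (n : ℕ) : Type := (Fin n → ℕ) × ℤ

/-- the weight `rad N ^ |ν| * 2 ^ |k|` -/
def wA (n N : ℕ) : Wgt (GamL n) where
  w g := rad N ^ (∑ i, g.1 i) * 2 ^ g.2.natAbs
  pos g := mul_pos (pow_pos (rad_pos N) _) (by positivity)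
  zero := by simp
  add a b := by
    have h : (a.2 + b.2).natAbs ≤ a.2.natAbs + b.2.natAbs := Int.natAbs_add_le _ _
    have h2 : (2 : ℝ) ^ (a.2 + b.2).natAbs ≤ 2 ^ (a.2.natAbs + b.2.natAbs) :=
      pow_le_pow_right₀ (by norm_num) h
    have e : (∑ i, (a + b).1 i) = (∑ i, a.1 i) + ∑ i, b.1 i := by
      simp only [Prod.fst_add, Pi.add_apply, Finset.sum_add_distrib]
    calc rad N ^ (∑ i, (a + b).1 i) * 2 ^ (a + b).2.natAbs
        ≤ rad N ^ (∑ i, (a + b).1 i) * 2 ^ (a.2.natAbs + b.2.natAbs) :=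
          mul_le_mul_of_nonneg_left h2 (pow_pos (rad_pos N) _).le
      _ = _ := by rw [e, pow_add, pow_add]; ring

/-- Laurent series in `ζ` with parameters `b` -/
abbrev AA (n N : ℕ) : Type := L1 (wA n N)

section characters

variable {B : Type} [NormedCommRing B] [NormedAlgebra ℂ B] [NormOneClass B] {n N : ℕ}

/-- the monomial `b^ν z^k` -/
def mz (b : Fin n → B) (z : Bˣ) (g : GamL n) : B :=
  (∏ i, b i ^ g.1 i) * ((z ^ g.2 : Bˣ) : B)

theorem mz_zero (b : Fin n → B) (z : Bˣ) : mz b z 0 = 1 := by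
  simp [mz]

theorem mz_add (b : Fin n → B) (z : Bˣ) (g g' : GamL n) :
    mz b z (g + g') = mz b z g * mz b z g' := by
  unfold mz
  have e : ∏ i, b i ^ (g + g').1 i = (∏ i, b i ^ g.1 i) * ∏ i, b i ^ g'.1 i := by
    rw [← Finset.prod_mul_distrib]
    refine Finset.prod_congr rfl fun i _ => ?_
    rw [Prod.fst_add, Pi.add_apply, pow_add]
  rw [e, Prod.snd_add, zpow_add, Units.val_mul]
  ring

theorem norm_prod_le (b : Fin n → B) (hb : ∀ i, ‖b i‖ ≤ rad N) (ν : Fin n → ℕ) :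
    ‖∏ i, b i ^ ν i‖ ≤ rad N ^ (∑ i, ν i) := by
  calc ‖∏ i, b i ^ ν i‖ ≤ ∏ i, ‖b i ^ ν i‖ := Finset.norm_prod_le _ _
    _ ≤ ∏ i, rad N ^ ν i := by
        refine Finset.prod_le_prod (fun i _ => norm_nonneg _) fun i _ => ?_
        exact (norm_pow_le _ _).trans (pow_le_pow_left₀ (norm_nonneg _) (hb i) _)
    _ = rad N ^ (∑ i, ν i) := by rw [Finset.prod_pow_eq_pow_sum]

theorem norm_zpow_le (z : Bˣ) (hz : ‖(z : B)‖ ≤ 2) (hz' : ‖((z⁻¹ : Bˣ) : B)‖ ≤ 2) (k : ℤ) :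
    ‖((z ^ k : Bˣ) : B)‖ ≤ 2 ^ k.natAbs := by
  rcases Int.natAbs_eq k with h | h
  · rw [h, zpow_natCast, Units.val_pow_eq_pow_val, Int.natAbs_natCast]
    exact (norm_pow_le _ _).trans (pow_le_pow_left₀ (norm_nonneg _) hz _)
  · rw [h, zpow_neg, zpow_natCast, ← inv_pow, Units.val_pow_eq_pow_val, Int.natAbs_neg,
      Int.natAbs_natCast]
    exact (norm_pow_le _ _).trans (pow_le_pow_left₀ (norm_nonneg _) hz' _)

theorem norm_mz_le (b : Fin n → B) (z : Bˣ) (hb : ∀ i, ‖b i‖ ≤ rad N) (hz : ‖(z : B)‖ ≤ 2)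
    (hz' : ‖((z⁻¹ : Bˣ) : B)‖ ≤ 2) (g : GamL n) : ‖mz b z g‖ ≤ (wA n N).w g := by
  unfold mz
  refine (norm_mul_le _ _).trans ?_
  exact mul_le_mul (norm_prod_le b hb _) (norm_zpow_le z hz hz' _) (norm_nonneg _)
    (pow_pos (rad_pos N) _).le

variable [CompleteSpace B]

/-- the character of the Laurent algebra -/
def chi (b : Fin n → B) (z : Bˣ) (hb : ∀ i, ‖b i‖ ≤ rad N) (hz : ‖(z : B)‖ ≤ 2)
    (hz' : ‖((z⁻¹ : Bˣ) : B)‖ ≤ 2) : AA n N →ₐ[ℂ] B :=
  L1.hom (mz b z) (mz_zero b z) (mz_add b z) (norm_mz_le b z hb hz hz')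

theorem chi_continuous (b : Fin n → B) (z : Bˣ) (hb : ∀ i, ‖b i‖ ≤ rad N) (hz : ‖(z : B)‖ ≤ 2)
    (hz' : ‖((z⁻¹ : Bˣ) : B)‖ ≤ 2) : Continuous (chi b z hb hz hz') := L1.hom_continuous _ _ _ _

theorem norm_chi_le (b : Fin n → B) (z : Bˣ) (hb : ∀ i, ‖b i‖ ≤ rad N) (hz : ‖(z : B)‖ ≤ 2)
    (hz' : ‖((z⁻¹ : Bˣ) : B)‖ ≤ 2) (f : AA n N) : ‖chi b z hb hz hz' f‖ ≤ ‖f‖ :=
  L1.norm_hom_le _ _ _ _ _

theorem chi_mono (b : Fin n → B) (z : Bˣ) (hb : ∀ i, ‖b i‖ ≤ rad N) (hz : ‖(z : B)‖ ≤ 2)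
    (hz' : ‖((z⁻¹ : Bˣ) : B)‖ ≤ 2) (g : GamL n) (c : ℂ) :
    chi b z hb hz hz' (L1.mono _ g c) = c • mz b z g := L1.hom_mono _ _ _ _ _ _

end characters

/-- the variable `b_i` in the Laurent algebra -/
def xA (n N : ℕ) (i : Fin n) : AA n N := L1.mono _ (Pi.single i 1, 0) 1

/-- the variable `ζ`, a unit -/
def zA (n N : ℕ) : (AA n N)ˣ where
  val := L1.mono _ (0, 1) 1
  inv := L1.mono _ (0, -1) 1
  val_inv := by rw [L1.mono_mul_mono, L1.one_def]; simp; rfl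
  inv_val := by rw [L1.mono_mul_mono, L1.one_def]; simp; rfl

theorem norm_xA (n N : ℕ) (i : Fin n) : ‖xA n N i‖ = rad N := by
  unfold xA
  rw [L1.norm_mono, norm_one, one_mul]
  show rad N ^ (∑ j, (Pi.single i 1 : Fin n → ℕ) j) * 2 ^ (0 : ℤ).natAbs = rad N
  simp

theorem norm_zA (n N : ℕ) : ‖((zA n N : (AA n N)ˣ) : AA n N)‖ ≤ 2 := by
  show ‖L1.mono (wA n N) (0, 1) 1‖ ≤ 2
  rw [L1.norm_mono, norm_one, one_mul]
  show rad N ^ (∑ j, (0 : Fin n → ℕ) j) * 2 ^ (1 : ℤ).natAbs ≤ 2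
  simp

theorem norm_zA_inv (n N : ℕ) : ‖((zA n N)⁻¹ : (AA n N)ˣ).val‖ ≤ 2 := by
  show ‖L1.mono (wA n N) (0, -1) 1‖ ≤ 2
  rw [L1.norm_mono, norm_one, one_mul]
  show rad N ^ (∑ j, (0 : Fin n → ℕ) j) * 2 ^ (-1 : ℤ).natAbs ≤ 2
  simp

section

variable {B : Type} [NormedCommRing B] [NormedAlgebra ℂ B] [NormOneClass B] [CompleteSpace B]
  {n N : ℕ} (b : Fin n → B) (z : Bˣ) (hb : ∀ i, ‖b i‖ ≤ rad N) (hz : ‖(z : B)‖ ≤ 2)
  (hz' : ‖((z⁻¹ : Bˣ) : B)‖ ≤ 2)

theorem chi_xA (i : Fin n) : chi b z hb hz hz' (xA n N i) = b i := by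
  unfold xA
  rw [chi_mono, one_smul, mz]
  simp only [zpow_zero, Units.val_one, mul_one]
  rw [Finset.prod_eq_single i]
  · simp
  · intro j _ hj
    rw [Pi.single_eq_of_ne hj, pow_zero]
  · intro h; exact absurd (Finset.mem_univ i) h

theorem chi_zA : chi b z hb hz hz' (zA n N : (AA n N)ˣ) = z := by
  show chi b z hb hz hz' (L1.mono _ (0, 1) 1) = z
  rw [chi_mono, one_smul, mz]
  simp

theorem chi_zA_inv : chi b z hb hz hz' ((zA n N)⁻¹ : (AA n N)ˣ).val = ((z⁻¹ : Bˣ) : B) := by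
  show chi b z hb hz hz' (L1.mono _ (0, -1) 1) = _
  rw [chi_mono, one_smul, mz]
  simp

end

/-! ### exponentials -/

section expo

variable {B B' : Type} [NormedCommRing B] [NormedAlgebra ℂ B] [CompleteSpace B]
  [NormedCommRing B'] [NormedAlgebra ℂ B'] [CompleteSpace B']

theorem hom_exp (e : B →ₐ[ℂ] B') (he : Continuous e) (x : B) :
    e (NormedSpace.exp x) = NormedSpace.exp (e x) := by
  letI : NormedAlgebra ℚ B := NormedAlgebra.restrictScalars ℚ ℂ B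
  letI : NormedAlgebra ℚ B' := NormedAlgebra.restrictScalars ℚ ℂ B'
  exact NormedSpace.map_exp e he x

theorem exp_add' (x y : B) : NormedSpace.exp (x + y) = NormedSpace.exp x * NormedSpace.exp y := by
  letI : NormedAlgebra ℚ B := NormedAlgebra.restrictScalars ℚ ℂ B
  exact NormedSpace.exp_add_of_commute (Commute.all x y)

theorem exp_mul_neg (x : B) : NormedSpace.exp x * NormedSpace.exp (-x) = 1 := by
  rw [← exp_add', add_neg_cancel, NormedSpace.exp_zero]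

/-- the unit `exp x` -/
def expU (x : B) : Bˣ where
  val := NormedSpace.exp x
  inv := NormedSpace.exp (-x)
  val_inv := exp_mul_neg x
  inv_val := by rw [mul_comm]; exact exp_mul_neg x

theorem norm_exp_le' [NormOneClass B] (x : B) : ‖NormedSpace.exp x‖ ≤ Real.exp ‖x‖ := by
  have h1 : HasSum (fun k : ℕ => ((k.factorial : ℂ)⁻¹) • x ^ k) (NormedSpace.exp x) :=
    NormedSpace.exp_series_hasSum_exp' (𝕂 := ℂ) x
  have h2 : HasSum (fun k : ℕ => ((k.factorial : ℝ)⁻¹) • ‖x‖ ^ k) (Real.exp ‖x‖) := by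
    rw [Real.exp_eq_exp_ℝ]
    exact NormedSpace.exp_series_hasSum_exp' (𝕂 := ℝ) ‖x‖
  rw [← h1.tsum_eq, ← h2.tsum_eq]
  have h3 : ∀ k : ℕ, ‖((k.factorial : ℂ)⁻¹) • x ^ k‖ ≤ ((k.factorial : ℝ)⁻¹) • ‖x‖ ^ k := by
    intro k
    rw [norm_smul, norm_inv, Complex.norm_natCast, smul_eq_mul]
    exact mul_le_mul_of_nonneg_left (norm_pow_le _ _) (by positivity)
  refine (norm_tsum_le_tsum_norm (Summable.of_nonneg_of_le (fun _ => norm_nonneg _) h3
    h2.summable)).trans ?_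
  exact (Summable.of_nonneg_of_le (fun _ => norm_nonneg _) h3 h2.summable).tsum_le_tsum h3
    h2.summable

theorem exp_half_le_two : Real.exp (1 / 2) ≤ 2 := by
  have h := Real.exp_one_lt_d9
  have h2 : Real.exp (1 / 2) ^ 2 = Real.exp 1 := by
    rw [← Real.exp_nat_mul]; norm_num
  nlinarith [Real.exp_pos (1 / 2 : ℝ)]

end expo

/-! ### the projections -/

section proj

variable {n N : ℕ}

/-- the value at `ζ = 1` -/
def ka (n N : ℕ) : AA n N →L[ℂ] AA n N :=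
  L1.lin (fun g => L1.mono (wA n N) (g.1, 0) 1) 1 fun g => by
    rw [L1.norm_mono, norm_one, one_mul, one_mul]
    show rad N ^ (∑ i, g.1 i) * 2 ^ (0 : ℤ).natAbs ≤ rad N ^ (∑ i, g.1 i) * 2 ^ g.2.natAbs
    refine mul_le_mul_of_nonneg_left ?_ (pow_pos (rad_pos N) _).le
    exact pow_le_pow_right₀ (by norm_num) (by simp)

theorem norm_ka_le (f : AA n N) : ‖ka n N f‖ ≤ ‖f‖ := by
  have := L1.norm_lin_apply_le (ω := wA n N) (C := 1)
    (φ := fun g => L1.mono (wA n N) (g.1, 0) 1) (by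
      intro g
      rw [L1.norm_mono, norm_one, one_mul, one_mul]
      show rad N ^ (∑ i, g.1 i) * 2 ^ (0 : ℤ).natAbs ≤ rad N ^ (∑ i, g.1 i) * 2 ^ g.2.natAbs
      refine mul_le_mul_of_nonneg_left ?_ (pow_pos (rad_pos N) _).le
      exact pow_le_pow_right₀ (by norm_num) (by simp)) f
  rw [one_mul] at this
  exact this

theorem ka_mono (g : GamL n) (c : ℂ) :
    ka n N (L1.mono _ g c) = c • L1.mono (wA n N) (g.1, 0) 1 := L1.lin_mono _ _ _ _ _

theorem ka_ka (f : AA n N) : ka n N (ka n N f) = ka n N f := by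
  have h : (ka n N).comp (ka n N) = ka n N := L1.ext1 fun g => by
    show ka n N (ka n N (L1.mono _ g 1)) = ka n N (L1.mono _ g 1)
    rw [ka_mono, one_smul, ka_mono, one_smul]
  exact congrArg (fun T : AA n N →L[ℂ] AA n N => T f) h

/-- exponents with `k < 0` -/
def negS (n : ℕ) : Set (GamL n) := {g | g.2 < 0}

/-- the part `k < 0`, normalised at `ζ = 1` -/
def Pm (n N : ℕ) (q : AA n N) : AA n N :=
  L1.proj (wA n N) (negS n) q - ka n N (L1.proj (wA n N) (negS n) q)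

theorem Pm_sub (q q' : AA n N) : Pm n N q - Pm n N q' = Pm n N (q - q') := by
  unfold Pm
  rw [map_sub, map_sub]
  abel

theorem norm_Pm_le (q : AA n N) : ‖Pm n N q‖ ≤ 2 * ‖q‖ := by
  unfold Pm
  have h1 := L1.norm_proj_le (ω := wA n N) (negS n) q
  have h2 := norm_ka_le (L1.proj (wA n N) (negS n) q)
  calc _ ≤ ‖L1.proj (wA n N) (negS n) q‖ + ‖ka n N (L1.proj (wA n N) (negS n) q)‖ :=
        norm_sub_le _ _
    _ ≤ 2 * ‖q‖ := by linarith

theorem ka_Pm (q : AA n N) : ka n N (Pm n N q) = 0 := by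
  unfold Pm
  rw [map_sub, ka_ka, sub_self]

theorem supp_ka (f : AA n N) : L1.Supp {g : GamL n | g.2 = 0} (ka n N f) := by
  have h := L1.isClosed_supp (ω := wA n N) {g : GamL n | g.2 = 0}
  have h2 := (L1.hasSum_mono f).map (ka n N) (ka n N).continuous
  refine h.mem_of_tendsto h2 (Eventually.of_forall fun s => ?_)
  show L1.Supp _ (∑ g ∈ s, ((ka n N) ∘ fun g => L1.mono (wA n N) g (f.co g)) g)
  classical
  induction s using Finset.induction_on with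
  | empty => simpa using L1.supp_zero _
  | insert g s hg ih =>
    rw [Finset.sum_insert hg]
    refine L1.Supp.add ?_ ih
    show L1.Supp _ (ka n N (L1.mono (wA n N) g (f.co g)))
    rw [ka_mono]
    exact (L1.supp_mono (by simp) 1).smul _

theorem supp_Pm (q : AA n N) : L1.Supp {g : GamL n | g.2 ≤ 0} (Pm n N q) := by
  unfold Pm
  refine L1.Supp.sub ?_ ?_
  · exact L1.Supp.mono_set (S := negS n) (T := {g : GamL n | g.2 ≤ 0})
      (fun g (hg : g.2 < 0) => show g.2 ≤ 0 from le_of_lt hg) (L1.supp_proj (negS n) q)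
  · exact L1.Supp.mono_set (S := {g : GamL n | g.2 = 0}) (T := {g : GamL n | g.2 ≤ 0})
      (fun g (hg : g.2 = 0) => show g.2 ≤ 0 from le_of_eq hg) (supp_ka _)

theorem supp_Pp (q : AA n N) : L1.Supp {g : GamL n | 0 ≤ g.2} (q - Pm n N q) := by
  have e : q - Pm n N q = L1.proj (wA n N) (negS n)ᶜ q +
      ka n N (L1.proj (wA n N) (negS n) q) := by
    unfold Pm
    conv_lhs => rw [← L1.proj_add_compl (ω := wA n N) (negS n) q]
    simp only [map_add]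
    have h1 : L1.proj (wA n N) (negS n) (L1.proj (wA n N) (negS n) q) =
        L1.proj (wA n N) (negS n) q := L1.proj_of_supp (L1.supp_proj _ _)
    have h2 : L1.proj (wA n N) (negS n) (L1.proj (wA n N) (negS n)ᶜ q) = 0 := by
      classical
      apply L1.ext
      intro g
      rw [L1.co_proj, L1.co_proj, L1.co_zero]
      by_cases hg : g ∈ negS n
      · rw [if_pos hg, if_neg (by simpa using hg)]
      · rw [if_neg hg]
    rw [h1, h2, map_zero]
    abel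
  rw [e]
  refine L1.Supp.add ?_ ?_
  · exact L1.Supp.mono_set (S := (negS n)ᶜ) (T := {g : GamL n | 0 ≤ g.2})
      (fun g (hg : ¬ g.2 < 0) => show 0 ≤ g.2 from not_lt.1 hg) (L1.supp_proj (negS n)ᶜ q)
  · exact L1.Supp.mono_set (S := {g : GamL n | g.2 = 0}) (T := {g : GamL n | 0 ≤ g.2})
      (fun g (hg : g.2 = 0) => show 0 ≤ g.2 from ge_of_eq hg) (supp_ka _)

theorem norm_Pp_le (q : AA n N) : ‖q - Pm n N q‖ ≤ 3 * ‖q‖ := by
  have := norm_Pm_le q
  calc _ ≤ ‖q‖ + ‖Pm n N q‖ := norm_sub_le _ _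
    _ ≤ 3 * ‖q‖ := by linarith

end proj

end Pool.Agent.TubeN
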