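import Pool.Agent.Lib_MP_1209e6_nt.GlueD0
import Pool.Agent.Lib_MP_1209e6_nt.Values
import Pool.Agent.Lib_MP_1209e6_k3.HomEq

/-!
# `MP_1209e6_ag`, line N: tools for GLUE-DATA

Evaluation of power series in Banach algebras as a natural homomorphism, the two times in the
algebra of Laurent series.
-/

set_option autoImplicit false

open Filter Topology
open Pool.Agent.NTW

noncomputable section

namespace Pool.Agent.TubeN.GD

/-! ### Evaluation -/

section evaluation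

variable {B : Type} [NormedCommRing B] [NormedAlgebra ℂ B] {n N : ℕ}

theorem gd_mn_zero (b : Fin n → B) (w : B) : mn b w 0 = 1 := by
  unfold mn
  simp

theorem gd_mn_add (b : Fin n → B) (w : B) (g g' : Gam n) :
    mn b w (g + g') = mn b w g * mn b w g' := by
  unfold mn
  simp only [Prod.fst_add, Prod.snd_add, Pi.add_apply, pow_add, Finset.prod_mul_distrib]
  ring

theorem gd_norm_mn_le [NormOneClass B] (b : Fin n → B) (w : B) (hb : ∀ i, ‖b i‖ ≤ rad N)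
    (hw : ‖w‖ ≤ rad N) (g : Gam n) : ‖mn b w g‖ ≤ (wP n N).w g := by
  show ‖(∏ i, b i ^ g.1 i) * w ^ g.2‖ ≤ rad N ^ ((∑ i, g.1 i) + g.2)
  have h0 := (rad_pos N).le
  have h1 : ‖∏ i, b i ^ g.1 i‖ ≤ rad N ^ (∑ i, g.1 i) := by
    refine (Finset.norm_prod_le _ _).trans ?_
    rw [← Finset.prod_pow_eq_pow_sum]
    refine Finset.prod_le_prod (fun _ _ => norm_nonneg _) fun i _ => ?_
    exact (norm_pow_le _ _).trans (pow_le_pow_left₀ (norm_nonneg _) (hb i) _)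
  have h2 : ‖w ^ g.2‖ ≤ rad N ^ g.2 :=
    (norm_pow_le _ _).trans (pow_le_pow_left₀ (norm_nonneg _) hw _)
  rw [pow_add]
  exact (norm_mul_le _ _).trans (mul_le_mul h1 h2 (norm_nonneg _) (by positivity))

variable [CompleteSpace B] [NormOneClass B]

/-- evaluation as a homomorphism -/
def eB (b : Fin n → B) (w : B) (hb : ∀ i, ‖b i‖ ≤ rad N) (hw : ‖w‖ ≤ rad N) : PS n N →ₐ[ℂ] B :=
  L1.hom (mn b w) (gd_mn_zero b w) (gd_mn_add b w) (gd_norm_mn_le b w hb hw)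

theorem eB_apply (b : Fin n → B) (w : B) (hb : ∀ i, ‖b i‖ ≤ rad N) (hw : ‖w‖ ≤ rad N)
    (f : PS n N) : eB b w hb hw f = evB b w f := rfl

theorem norm_eB_le (b : Fin n → B) (w : B) (hb : ∀ i, ‖b i‖ ≤ rad N) (hw : ‖w‖ ≤ rad N)
    (f : PS n N) : ‖eB b w hb hw f‖ ≤ ‖f‖ := L1.norm_hom_le _ _ _ _ f

theorem ctr_eB (b : Fin n → B) (w : B) (hb : ∀ i, ‖b i‖ ≤ rad N) (hw : ‖w‖ ≤ rad N) :
    WE.Ctr (eB b w hb hw) := ⟨norm_eB_le b w hb hw⟩

theorem eB_Xv (b : Fin n → B) (w : B) (hb : ∀ i, ‖b i‖ ≤ rad N) (hw : ‖w‖ ≤ rad N)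
    (i : Fin n) : eB b w hb hw (Xv n N i) = b i := by
  classical
  unfold eB Xv
  rw [L1.hom_mono, one_smul]
  unfold mn
  rw [Finset.prod_eq_single i]
  · simp
  · intro j _ hj
    simp [Pi.single_apply, hj]
  · intro h
    exact absurd (Finset.mem_univ i) h

theorem eB_Wv (b : Fin n → B) (w : B) (hb : ∀ i, ‖b i‖ ≤ rad N) (hw : ‖w‖ ≤ rad N) :
    eB b w hb hw (Wv n N) = w := by
  unfold eB Wv
  rw [L1.hom_mono, one_smul]
  unfold mn
  simp

/-- evaluation is natural -/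
theorem map_evB {B' : Type} [NormedCommRing B'] [NormedAlgebra ℂ B'] (θ : B →ₐ[ℂ] B')
    (hθ : Continuous θ) (b : Fin n → B) (w : B) (hb : ∀ i, ‖b i‖ ≤ rad N) (hw : ‖w‖ ≤ rad N)
    (f : PS n N) : θ (evB b w f) = evB (fun i => θ (b i)) (θ w) f := by
  unfold evB
  have hs : Summable fun g => f.co g • mn b w g :=
    (L1.summ_lin (φ := mn b w) (C := 1) (fun g => by
      rw [one_mul]; exact gd_norm_mn_le b w hb hw g) f).of_norm
  have h := hs.hasSum.map θ hθ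
  rw [← h.tsum_eq]
  refine tsum_congr fun g => ?_
  show θ (f.co g • mn b w g) = _
  rw [map_smul]
  congr 1
  unfold mn
  rw [map_mul, map_prod, map_pow]
  simp only [map_pow]

omit [CompleteSpace B] [NormOneClass B] in
theorem evB_zero (f : PS n N) : evB (0 : Fin n → B) 0 f = algebraMap ℂ B (f.co 0) := by
  classical
  unfold evB
  rw [tsum_eq_single 0]
  · rw [gd_mn_zero, Algebra.algebraMap_eq_smul_one]
  · intro g hg
    have : mn (0 : Fin n → B) 0 g = 0 := by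
      unfold mn
      by_cases h2 : g.2 = 0
      · have h1 : g.1 ≠ 0 := by
          intro h1
          exact hg (Prod.ext h1 h2)
        obtain ⟨i, hi⟩ : ∃ i, g.1 i ≠ 0 := by
          by_contra hcon
          push Not at hcon
          exact h1 (funext hcon)
        rw [Finset.prod_eq_zero (Finset.mem_univ i), zero_mul]
        rw [Pi.zero_apply, zero_pow hi]
      · rw [zero_pow h2, mul_zero]
    rw [this, smul_zero]

theorem norm_Xv (i : Fin n) : ‖Xv n N i‖ = rad N := by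
  classical
  unfold Xv
  rw [L1.norm_mono, norm_one, one_mul]
  show rad N ^ ((∑ j, (Pi.single i 1 : Fin n → ℕ) j) + 0) = rad N
  rw [Finset.sum_pi_single']
  simp

theorem norm_Wv : ‖Wv n N‖ = rad N := by
  unfold Wv
  rw [L1.norm_mono, norm_one, one_mul]
  show rad N ^ ((∑ j, (0 : Fin n → ℕ) j) + 1) = rad N
  simp

end evaluation

/-! ### The two times -/

section times

variable (E : Type) [NormedCommRing E] [NormedAlgebra ℂ E] [CompleteSpace E]

/-- `η (exp ζ - e)` -/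
def t1 (η : ℂ) : WE E w2 :=
  η • (ex ((WE.zt E w2 : (WE E w2)ˣ) : WE E w2) - algebraMap ℂ _ (Complex.exp 1))

/-- `η (exp (1 / ζ) - e)` -/
def t2 (η : ℂ) : WE E w2 :=
  η • (ex (((WE.zt E w2)⁻¹ : (WE E w2)ˣ) : WE E w2) - algebraMap ℂ _ (Complex.exp 1))

/-- the bound of the times -/
def tK : ℝ := Real.exp 2 + ‖Complex.exp 1‖

theorem tK_pos : 0 < tK := by
  unfold tK
  positivity

variable [NormOneClass E]

theorem norm_zt : ‖((WE.zt E w2 : (WE E w2)ˣ) : WE E w2)‖ = 2 := by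
  show ‖WE.mono w2 1 (1 : E)‖ = 2
  rw [WE.norm_mono, norm_one, one_mul, w2_apply]
  norm_num

theorem norm_zt_inv : ‖(((WE.zt E w2)⁻¹ : (WE E w2)ˣ) : WE E w2)‖ = 2 := by
  show ‖WE.mono w2 (-1) (1 : E)‖ = 2
  rw [WE.norm_mono, norm_one, one_mul, w2_apply]
  norm_num

theorem norm_t1_le (η : ℂ) : ‖t1 E η‖ ≤ ‖η‖ * tK := by
  unfold t1 tK
  refine (norm_smul_le _ _).trans (mul_le_mul_of_nonneg_left ?_ (norm_nonneg _))
  refine (norm_sub_le _ _).trans (add_le_add ?_ (norm_algebraMap' _ _).le)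
  refine (norm_ex_le _).trans ?_
  rw [norm_zt]

theorem norm_t2_le (η : ℂ) : ‖t2 E η‖ ≤ ‖η‖ * tK := by
  unfold t2 tK
  refine (norm_smul_le _ _).trans (mul_le_mul_of_nonneg_left ?_ (norm_nonneg _))
  refine (norm_sub_le _ _).trans (add_le_add ?_ (norm_algebraMap' _ _).le)
  refine (norm_ex_le _).trans ?_
  rw [norm_zt_inv]

variable {E} {E' : Type} [NormedCommRing E'] [NormedAlgebra ℂ E'] [CompleteSpace E']

omit [NormOneClass E] in
theorem map_t1 {φ : E →ₐ[ℂ] E'} (h : WE.Ctr φ) (η : ℂ) : WE.map h (t1 E η) = t1 E' η := by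
  unfold t1
  rw [map_smul, map_sub, AlgHom.commutes, map_ex (WE.ctr_map h).cont]
  congr 3
  show WE.map h (WE.mono w2 1 1) = WE.mono w2 1 1
  rw [WE.map_mono, map_one]

omit [NormOneClass E] in
theorem map_t2 {φ : E →ₐ[ℂ] E'} (h : WE.Ctr φ) (η : ℂ) : WE.map h (t2 E η) = t2 E' η := by
  unfold t2
  rw [map_smul, map_sub, AlgHom.commutes, map_ex (WE.ctr_map h).cont]
  congr 3
  show WE.map h (WE.mono w2 (-1) 1) = WE.mono w2 (-1) 1
  rw [WE.map_mono, map_one]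

omit [NormOneClass E] in
theorem val_t1 (t : Eˣ) (ht : ∀ k : ℤ, ‖((t ^ k : Eˣ) : E)‖ ≤ w2.w k) (η : ℂ) :
    WE.val t (t1 E η) = η • (ex (t : E) - algebraMap ℂ E (Complex.exp 1)) := by
  rw [← WE.ev_apply t ht]
  unfold t1
  rw [map_smul, map_sub, AlgHom.commutes, map_ex (WE.ctr_ev t ht).cont, WE.ev_apply, WE.val_zt]

omit [NormOneClass E] in
theorem val_t2 (t : Eˣ) (ht : ∀ k : ℤ, ‖((t ^ k : Eˣ) : E)‖ ≤ w2.w k) (η : ℂ) :
    WE.val t (t2 E η) = η • (ex ((t⁻¹ : Eˣ) : E) - algebraMap ℂ E (Complex.exp 1)) := by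
  rw [← WE.ev_apply t ht]
  unfold t2
  rw [map_smul, map_sub, AlgHom.commutes, map_ex (WE.ctr_ev t ht).cont, WE.ev_apply,
    WE.val_zt_inv]

theorem norm_tau_le (η ζ : ℂ) (h : ‖ζ‖ ≤ 2) : ‖tau η ζ‖ ≤ ‖η‖ * tK := by
  unfold tau tK
  rw [norm_mul]
  refine mul_le_mul_of_nonneg_left ?_ (norm_nonneg _)
  refine (norm_sub_le _ _).trans (add_le_add ?_ le_rfl)
  exact (Complex.norm_exp_le_exp_norm _).trans (Real.exp_le_exp.2 h)

theorem val_t1_complex (t : ℂˣ) (ht : ∀ k : ℤ, ‖((t ^ k : ℂˣ) : ℂ)‖ ≤ w2.w k) (η : ℂ) :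
    WE.val t (t1 ℂ η) = tau η t := by
  rw [val_t1 t ht, ex_complex]
  rfl

theorem val_t2_complex (t : ℂˣ) (ht : ∀ k : ℤ, ‖((t ^ k : ℂˣ) : ℂ)‖ ≤ w2.w k) (η : ℂ) :
    WE.val t (t2 ℂ η) = tau η ((t : ℂ)⁻¹) := by
  rw [val_t2 t ht, ex_complex, Units.val_inv_eq_inv_val]
  rfl

end times

end Pool.Agent.TubeN.GD
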