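import Pool.Agent.Lib_MP_1209e6_nt.GlueD1

/-!
# `MP_1209e6_ag`, line N: the node equation for two tubes
-/

set_option autoImplicit false

open Filter Topology
open Pool.Agent.NTW

noncomputable section

namespace Pool.Agent.TubeN.GD

theorem one_le_w2 (k : ℤ) : 1 ≤ w2.w k := one_le_pow₀ (by norm_num)

/-- the small constants of the node equation -/
structure NodeC (n N₁ N₂ : ℕ) (g₁ : Fin n → PS n N₁) (g₂ : Fin n → PS n N₂) (η : ℂ) (δ : ℝ) :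
    Prop where
  δ_pos : 0 < δ
  δ1 : δ ≤ rad N₁ / 2
  δ2 : δ ≤ rad N₂ / 2
  hη : ‖η‖ * tK ≤ δ
  b1 : ∀ i, (‖η‖ * tK) * ‖g₁ i‖ ≤ 1 / 8 * δ
  b2 : ∀ i, (‖η‖ * tK) * ‖g₂ i‖ ≤ 1 / 8 * δ
  l1 : ∀ i, ∀ {B : Type} [NormedCommRing B]
    [NormedAlgebra ℂ B] [CompleteSpace B] [NormOneClass B] (b b' : Fin n → B) (w : B),
    ‖b‖ ≤ δ → ‖b'‖ ≤ δ → ‖w‖ ≤ ‖η‖ * tK →
    ‖w * evB b w (g₁ i) - w * evB b' w (g₁ i)‖ ≤ 1 / 8 * ‖b - b'‖
  l2 : ∀ i, ∀ {B : Type} [NormedCommRing B]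
    [NormedAlgebra ℂ B] [CompleteSpace B] [NormOneClass B] (b b' : Fin n → B) (w : B),
    ‖b‖ ≤ δ → ‖b'‖ ≤ δ → ‖w‖ ≤ ‖η‖ * tK →
    ‖w * evB b w (g₂ i) - w * evB b' w (g₂ i)‖ ≤ 1 / 8 * ‖b - b'‖

/-- small `η` is good, for one series -/
theorem nodeC_aux {n N : ℕ} (f : PS n N) (δ : ℝ) (hδ : 0 < δ) (hδ1 : δ ≤ rad N / 2) :
    ∃ T : ℝ, 0 < T ∧ T ≤ δ ∧ T * ‖f‖ ≤ 1 / 8 * δ ∧ ∀ {B : Type} [NormedCommRing B]
    [NormedAlgebra ℂ B] [CompleteSpace B] [NormOneClass B] (b b' : Fin n → B) (w : B),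
    ‖b‖ ≤ δ → ‖b'‖ ≤ δ → ‖w‖ ≤ T →
    ‖w * evB b w f - w * evB b' w f‖ ≤ 1 / 8 * ‖b - b'‖ := by
  obtain ⟨C, hC, hlip⟩ := ps_lip f
  refine ⟨min δ (min (1 / 8 * δ / (‖f‖ + 1)) (1 / 8 / (C + 1))), ?_, min_le_left _ _, ?_, ?_⟩
  · have h1 := norm_nonneg f
    refine lt_min hδ (lt_min (by positivity) (by positivity))
  · have h1 : min δ (min (1 / 8 * δ / (‖f‖ + 1)) (1 / 8 / (C + 1))) ≤ 1 / 8 * δ / (‖f‖ + 1) :=
      (min_le_right _ _).trans (min_le_left _ _)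
    have h2 := norm_nonneg f
    calc _ ≤ 1 / 8 * δ / (‖f‖ + 1) * ‖f‖ := mul_le_mul_of_nonneg_right h1 h2
      _ ≤ 1 / 8 * δ / (‖f‖ + 1) * (‖f‖ + 1) :=
        mul_le_mul_of_nonneg_left (by linarith) (by positivity)
      _ = 1 / 8 * δ := div_mul_cancel₀ _ (by positivity)
  · intro B _ _ _ _ b b' w hb hb' hw
    have h1 : ‖w‖ ≤ δ := hw.trans (min_le_left _ _)
    have h2 : ‖w‖ ≤ 1 / 8 / (C + 1) := hw.trans ((min_le_right _ _).trans (min_le_right _ _))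
    have h3 := hlip b b' w w ‖b - b'‖ (fun i => (norm_le_pi_norm b i).trans (hb.trans hδ1))
      (fun i => (norm_le_pi_norm b' i).trans (hb'.trans hδ1)) (h1.trans hδ1) (h1.trans hδ1)
      (fun i => norm_le_pi_norm (b - b') i) (by rw [sub_self, norm_zero]; positivity)
    rw [← mul_sub]
    refine (norm_mul_le _ _).trans ?_
    have h4 : ‖w‖ * ‖evB b w f - evB b' w f‖ ≤ (1 / 8 / (C + 1)) * (C * ‖b - b'‖) :=
      mul_le_mul h2 h3 (norm_nonneg _) (by positivity)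
    refine h4.trans ?_
    have h5 : 1 / 8 / (C + 1) * (C * ‖b - b'‖) = (1 / 8 * ‖b - b'‖) * (C / (C + 1)) := by
      field_simp
    rw [h5]
    have h6 : C / (C + 1) ≤ 1 := by
      rw [div_le_one (by positivity)]; linarith
    exact mul_le_of_le_one_right (by positivity) h6

theorem exists_eta (T : ℝ) (hT : 0 < T) : ∃ η : ℂ, η ≠ 0 ∧ ‖η‖ * tK ≤ T := by
  refine ⟨((T / tK : ℝ) : ℂ), ?_, ?_⟩
  · have : T / tK ≠ 0 := (div_pos hT tK_pos).ne'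
    exact_mod_cast this
  · rw [Complex.norm_real, Real.norm_of_nonneg (div_pos hT tK_pos).le, div_mul_cancel₀]
    exact tK_pos.ne'

theorem exists_nodeC {n N₁ N₂ : ℕ} (g₁ : Fin n → PS n N₁) (g₂ : Fin n → PS n N₂) (δ : ℝ)
    (hδ : 0 < δ) (hδ1 : δ ≤ rad N₁ / 2) (hδ2 : δ ≤ rad N₂ / 2) :
    ∃ η : ℂ, η ≠ 0 ∧ NodeC n N₁ N₂ g₁ g₂ η δ := by
  choose T1 h1 h2 h3 h4 using fun i => nodeC_aux (g₁ i) δ hδ hδ1
  choose T2 k1 k2 k3 k4 using fun i => nodeC_aux (g₂ i) δ hδ hδ2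
  obtain ⟨T, hT0, hT⟩ : ∃ T : ℝ, 0 < T ∧ T ≤ δ ∧ (∀ i, T ≤ T1 i) ∧ ∀ i, T ≤ T2 i := by
    have hne : (insert δ (Finset.univ.image T1 ∪ Finset.univ.image T2)).Nonempty :=
      Finset.insert_nonempty _ _
    refine ⟨(insert δ (Finset.univ.image T1 ∪ Finset.univ.image T2)).min' hne, ?_, ?_, ?_, ?_⟩
    · rw [Finset.lt_min'_iff]
      intro x hx
      simp only [Finset.mem_insert, Finset.mem_union, Finset.mem_image, Finset.mem_univ,
        true_and] at hx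
      rcases hx with rfl | ⟨i, rfl⟩ | ⟨i, rfl⟩
      · exact hδ
      · exact h1 i
      · exact k1 i
    · exact Finset.min'_le _ _ (by simp)
    · intro i
      exact Finset.min'_le _ _ (by simp)
    · intro i
      exact Finset.min'_le _ _ (by simp)
  obtain ⟨η, hη0, hη⟩ := exists_eta T hT0
  refine ⟨η, hη0, hδ, hδ1, hδ2, hη.trans hT.1, ?_, ?_, ?_, ?_⟩
  · intro i
    exact (mul_le_mul_of_nonneg_right (hη.trans (hT.2.1 i)) (norm_nonneg _)).trans (h3 i)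
  · intro i
    exact (mul_le_mul_of_nonneg_right (hη.trans (hT.2.2 i)) (norm_nonneg _)).trans (k3 i)
  · intro i B _ _ _ _ b b' w hb hb' hw
    exact h4 i b b' w hb hb' (hw.trans (hη.trans (hT.2.1 i)))
  · intro i B _ _ _ _ b b' w hb hb' hw
    exact k4 i b b' w hb hb' (hw.trans (hη.trans (hT.2.2 i)))

section node

variable {n N₁ N₂ : ℕ} {g₁ : Fin n → PS n N₁} {g₂ : Fin n → PS n N₂} {η : ℂ} {δ : ℝ}

/-- the first displacement -/
def D1 (E : Type) [NormedCommRing E] [NormedAlgebra ℂ E] [CompleteSpace E]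
    (g₁ : Fin n → PS n N₁) (η : ℂ) (a : Fin n → WE E w2) (i : Fin n) : WE E w2 :=
  t1 E η * evB a (t1 E η) (g₁ i)

/-- the second displacement -/
def D2 (E : Type) [NormedCommRing E] [NormedAlgebra ℂ E] [CompleteSpace E]
    (g₂ : Fin n → PS n N₂) (η : ℂ) (a : Fin n → WE E w2) (i : Fin n) : WE E w2 :=
  t2 E η * evB a (t2 E η) (g₂ i)

theorem NodeC.lt1 (h : NodeC n N₁ N₂ g₁ g₂ η δ) : δ < rad N₁ := by
  have := rad_pos N₁
  have := h.δ1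
  linarith

theorem NodeC.lt2 (h : NodeC n N₁ N₂ g₁ g₂ η δ) : δ < rad N₂ := by
  have := rad_pos N₂
  have := h.δ2
  linarith

variable {E : Type} [NormedCommRing E] [NormedAlgebra ℂ E] [CompleteSpace E] [NormOneClass E]

theorem NodeC.n1 (h : NodeC n N₁ N₂ g₁ g₂ η δ) : ‖t1 E η‖ ≤ rad N₁ :=
  ((norm_t1_le E η).trans h.hη).trans h.lt1.le

theorem NodeC.n2 (h : NodeC n N₁ N₂ g₁ g₂ η δ) : ‖t2 E η‖ ≤ rad N₂ :=
  ((norm_t2_le E η).trans h.hη).trans h.lt2.le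

theorem NodeC.a1 (h : NodeC n N₁ N₂ g₁ g₂ η δ) {a : Fin n → WE E w2} (ha : ‖a‖ ≤ δ) (i : Fin n) :
    ‖a i‖ ≤ rad N₁ := (norm_le_pi_norm a i).trans (ha.trans h.lt1.le)

theorem NodeC.a2 (h : NodeC n N₁ N₂ g₁ g₂ η δ) {a : Fin n → WE E w2} (ha : ‖a‖ ≤ δ) (i : Fin n) :
    ‖a i‖ ≤ rad N₂ := (norm_le_pi_norm a i).trans (ha.trans h.lt2.le)

theorem NodeC.exists_sol (h : NodeC n N₁ N₂ g₁ g₂ η δ) (c : Fin n → E) (hc : ‖c‖ ≤ δ / 2) :
    ∃ r : Fin n → WE E w2, ‖r‖ ≤ 2 * (1 / 8) * δ ∧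
      D2 E g₂ η (bOf c r) - D1 E g₁ η (aOf c r) = r ∧
      ∀ r', ‖r'‖ ≤ 2 * (1 / 8) * δ → D2 E g₂ η (bOf c r') - D1 E g₁ η (aOf c r') = r' → r' = r := by
  have hδ := h.δ_pos
  have e1 := norm_t1_le E η
  have e2 := norm_t2_le E η
  have hK := tK_pos
  refine solve one_le_w2 hδ.le (by norm_num) le_rfl (D1 E g₁ η) (D2 E g₂ η) ?_ ?_ ?_ ?_ c hc
  · intro a ha
    refine (pi_norm_le_iff_of_nonneg (by positivity)).2 fun i => ?_
    refine (norm_mul_le _ _).trans (le_trans ?_ (h.b1 i))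
    refine mul_le_mul e1 ?_ (norm_nonneg _) (by positivity)
    rw [← eB_apply a (t1 E η) (h.a1 ha) h.n1]
    exact norm_eB_le _ _ _ _ _
  · intro a ha
    refine (pi_norm_le_iff_of_nonneg (by positivity)).2 fun i => ?_
    refine (norm_mul_le _ _).trans (le_trans ?_ (h.b2 i))
    refine mul_le_mul e2 ?_ (norm_nonneg _) (by positivity)
    rw [← eB_apply a (t2 E η) (h.a2 ha) h.n2]
    exact norm_eB_le _ _ _ _ _
  · intro a a' ha ha'
    refine (pi_norm_le_iff_of_nonneg (by positivity)).2 fun i => ?_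
    exact h.l1 i a a' (t1 E η) ha ha' e1
  · intro a a' ha ha'
    refine (pi_norm_le_iff_of_nonneg (by positivity)).2 fun i => ?_
    exact h.l2 i a a' (t2 E η) ha ha' e2

open Classical in
/-- the solution of the node equation -/
def NodeC.R (h : NodeC n N₁ N₂ g₁ g₂ η δ) (E : Type) [NormedCommRing E] [NormedAlgebra ℂ E]
    [NormOneClass E] [CompleteSpace E] (c : Fin n → E) : Fin n → WE E w2 :=
  if hc : ‖c‖ ≤ δ / 2 then (h.exists_sol c hc).choose else 0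

theorem NodeC.R_spec (h : NodeC n N₁ N₂ g₁ g₂ η δ) (c : Fin n → E) (hc : ‖c‖ ≤ δ / 2) :
    ‖h.R E c‖ ≤ 2 * (1 / 8) * δ ∧ D2 E g₂ η (bOf c (h.R E c)) - D1 E g₁ η (aOf c (h.R E c)) =
      h.R E c ∧ ∀ r', ‖r'‖ ≤ 2 * (1 / 8) * δ →
        D2 E g₂ η (bOf c r') - D1 E g₁ η (aOf c r') = r' → r' = h.R E c := by
  unfold NodeC.R
  rw [dif_pos hc]
  exact (h.exists_sol c hc).choose_spec

theorem NodeC.norm_a (h : NodeC n N₁ N₂ g₁ g₂ η δ) (c : Fin n → E) (hc : ‖c‖ ≤ δ / 2) :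
    ‖aOf c (h.R E c)‖ ≤ δ := by
  refine (norm_aOf_le one_le_w2 c _).trans ?_
  have := (h.R_spec c hc).1
  have := h.δ_pos
  linarith

theorem NodeC.norm_b (h : NodeC n N₁ N₂ g₁ g₂ η δ) (c : Fin n → E) (hc : ‖c‖ ≤ δ / 2) :
    ‖bOf c (h.R E c)‖ ≤ δ := by
  refine (norm_bOf_le one_le_w2 c _).trans ?_
  have := (h.R_spec c hc).1
  have := h.δ_pos
  linarith

/-- naturality -/
theorem NodeC.R_map (h : NodeC n N₁ N₂ g₁ g₂ η δ) {E' : Type} [NormedCommRing E']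
    [NormedAlgebra ℂ E'] [CompleteSpace E'] [NormOneClass E'] {φ : E →ₐ[ℂ] E'} (hφ : WE.Ctr φ)
    (c : Fin n → E) (hc : ‖c‖ ≤ δ / 2) :
    (fun j => WE.map hφ (h.R E c j)) = h.R E' fun j => φ (c j) := by
  have hδ := h.δ_pos
  have hc' : ‖fun j => φ (c j)‖ ≤ δ / 2 :=
    (pi_norm_le_iff_of_nonneg (by positivity)).2 fun i =>
      (hφ.le _).trans ((norm_le_pi_norm c i).trans hc)
  obtain ⟨h1, h2, -⟩ := h.R_spec c hc
  refine (h.R_spec _ hc').2.2 _ ?_ ?_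
  · refine (pi_norm_le_iff_of_nonneg (by positivity)).2 fun i => ?_
    exact (WE.norm_map_le hφ _).trans ((norm_le_pi_norm _ i).trans h1)
  · funext i
    have h3 : WE.map hφ (D2 E g₂ η (bOf c (h.R E c)) i) =
        D2 E' g₂ η (bOf (fun j => φ (c j)) fun j => WE.map hφ (h.R E c j)) i := by
      unfold D2
      rw [map_mul, map_t2, map_evB (WE.map hφ) (WE.ctr_map hφ).cont _ _
        (h.a2 (h.norm_b c hc)) h.n2, map_t2]
      simp only [bOf_map one_le_w2 hφ]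
    have h4 : WE.map hφ (D1 E g₁ η (aOf c (h.R E c)) i) =
        D1 E' g₁ η (aOf (fun j => φ (c j)) fun j => WE.map hφ (h.R E c j)) i := by
      unfold D1
      rw [map_mul, map_t1, map_evB (WE.map hφ) (WE.ctr_map hφ).cont _ _
        (h.a1 (h.norm_a c hc)) h.n1, map_t1]
      simp only [aOf_map one_le_w2 hφ]
    rw [Pi.sub_apply, ← h3, ← h4, ← map_sub]
    congr 1
    exact congrFun h2 i

theorem NodeC.natSol (h : NodeC n N₁ N₂ g₁ g₂ η δ) : NatSol n w2 (δ / 2) h.R where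
  nat E _ _ _ _ φ hφ c hc := h.R_map hφ c
    ((pi_norm_le_iff_of_nonneg (by have := h.δ_pos; positivity)).2 hc)

end node

end Pool.Agent.TubeN.GD
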