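import Pool.Agent.Lib_MP_1209e6_nt.GlueD2

/-!
# `MP_1209e6_ag`, line N: GLUE-DATA
-/

set_option autoImplicit false

open Filter Topology
open Pool.Agent.NTW

noncomputable section

namespace Pool.Agent.TubeN.GD

variable {S R : Type} [CommRing S] [Algebra ℂ S] [CommRing R] [Algebra ℂ R]

/-- small constants for the agreement -/
theorem exists_small {n N : ℕ} {ι : Type} [Fintype ι] (F : ι → PS n N) (ε : ℝ) (hε : 0 < ε) :
    ∃ T : ℝ, 0 < T ∧ ∀ i, ∀ {B : Type} [NormedCommRing B]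
    [NormedAlgebra ℂ B] [CompleteSpace B] [NormOneClass B] (b : Fin n → B) (w : B),
    ‖b‖ ≤ T → ‖w‖ ≤ T → ‖evB b w (F i) - algebraMap ℂ B ((F i).co 0)‖ ≤ ε := by
  choose C hC hlip using fun i => ps_lip (F i)
  have hr := rad_pos N
  have hs : 0 ≤ ∑ i, C i := Finset.sum_nonneg fun i _ => hC i
  refine ⟨min (rad N / 2) (ε / (∑ i, C i + 1)), lt_min (by positivity) (by positivity), ?_⟩
  intro i B _ _ _ _ b w hb hw
  have h1 : ‖b‖ ≤ rad N / 2 := hb.trans (min_le_left _ _)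
  have h2 : ‖w‖ ≤ rad N / 2 := hw.trans (min_le_left _ _)
  have h3 := hlip i b 0 w 0 (ε / (∑ i, C i + 1)) (fun j => (norm_le_pi_norm b j).trans h1)
    (fun j => by rw [Pi.zero_apply, norm_zero]; positivity) h2 (by rw [norm_zero]; positivity)
    (fun j => by
      rw [Pi.zero_apply, sub_zero]
      exact (norm_le_pi_norm b j).trans (hb.trans (min_le_right _ _)))
    (by rw [sub_zero]; exact hw.trans (min_le_right _ _))
  rw [evB_zero] at h3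
  refine h3.trans ?_
  have h4 : C i ≤ ∑ i, C i := Finset.single_le_sum (fun j _ => hC j) (Finset.mem_univ i)
  calc C i * (ε / (∑ i, C i + 1)) ≤ (∑ i, C i + 1) * (ε / (∑ i, C i + 1)) :=
        mul_le_mul_of_nonneg_right (by linarith) (by positivity)
    _ = ε := mul_div_cancel₀ _ (by positivity)

/-- a large `N` -/
theorem exists_N (T : ℝ) (hT : 0 < T) : ∃ N : ℕ, 1 ≤ N ∧ rad N ≤ T := by
  obtain ⟨N, hN⟩ := exists_nat_gt (1 / T)
  refine ⟨N + 1, by omega, ?_⟩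
  unfold rad
  rw [div_le_iff₀ (by positivity)]
  have h1 : 1 / T < ((N + 1 : ℕ) : ℝ) + 1 := by push_cast; linarith
  rw [div_lt_iff₀ hT] at h1
  linarith

theorem unit_weight (t : ℂˣ) (h1 : ‖(t : ℂ)‖ ≤ 2) (h2 : ‖(t : ℂ)⁻¹‖ ≤ 2) (k : ℤ) :
    ‖((t ^ k : ℂˣ) : ℂ)‖ ≤ w2.w k := by
  rw [w2_apply]
  rcases Int.eq_nat_or_neg k with ⟨m, rfl | rfl⟩
  · rw [zpow_natCast, Units.val_pow_eq_pow_val, norm_pow, Int.natAbs_natCast]
    exact pow_le_pow_left₀ (norm_nonneg _) h1 m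
  · rw [zpow_neg, zpow_natCast, ← inv_pow, Units.val_pow_eq_pow_val, norm_pow, Int.natAbs_neg,
      Int.natAbs_natCast, Units.val_inv_eq_inv_val]
    exact pow_le_pow_left₀ (norm_nonneg _) h2 m

section homs

variable {n N₁ N₂ : ℕ} {ρ : R →ₐ[ℂ] S} {y : Fin n → S} {m : S →ₐ[ℂ] ℂ}
  {T₁ : Tube n N₁ ρ y m} {T₂ : Tube n N₂ ρ y m}
  {g₁ : Fin n → PS n N₁} {g₂ : Fin n → PS n N₂} {η : ℂ} {δ : ℝ}

variable {E : Type} [NormedCommRing E] [NormedAlgebra ℂ E] [CompleteSpace E] [NormOneClass E]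

/-- the homomorphism of the first side -/
def NodeC.F1 (h : NodeC n N₁ N₂ g₁ g₂ η δ) (Φ : S →ₐ[ℂ] PS n N₁) (c : Fin n → E)
    (hc : ‖c‖ ≤ δ / 2) : S →ₐ[ℂ] WE E w2 :=
  (eB (aOf c (h.R E c)) (t1 E η) (h.a1 (h.norm_a c hc)) h.n1).comp Φ

/-- the homomorphism of the second side -/
def NodeC.F2 (h : NodeC n N₁ N₂ g₁ g₂ η δ) (Φ : S →ₐ[ℂ] PS n N₂) (c : Fin n → E)
    (hc : ‖c‖ ≤ δ / 2) : S →ₐ[ℂ] WE E w2 :=
  (eB (bOf c (h.R E c)) (t2 E η) (h.a2 (h.norm_b c hc)) h.n2).comp Φ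

theorem NodeC.F1_apply (h : NodeC n N₁ N₂ g₁ g₂ η δ) (Φ : S →ₐ[ℂ] PS n N₁) (c : Fin n → E)
    (hc : ‖c‖ ≤ δ / 2) (f : S) :
    h.F1 Φ c hc f = evB (aOf c (h.R E c)) (t1 E η) (Φ f) := rfl

theorem NodeC.F2_apply (h : NodeC n N₁ N₂ g₁ g₂ η δ) (Φ : S →ₐ[ℂ] PS n N₂) (c : Fin n → E)
    (hc : ‖c‖ ≤ δ / 2) (f : S) :
    h.F2 Φ c hc f = evB (bOf c (h.R E c)) (t2 E η) (Φ f) := rfl

theorem NodeC.F1_y (h : NodeC n N₁ N₂ g₁ g₂ η δ) (Φ : S →ₐ[ℂ] PS n N₁) (y : Fin n → S)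
    (m : S →ₐ[ℂ] ℂ)
    (hg : ∀ i, Φ (y i) = algebraMap ℂ _ (m (y i)) + Xv n N₁ i + Wv n N₁ * g₁ i)
    (c : Fin n → E) (hc : ‖c‖ ≤ δ / 2) (i : Fin n) :
    h.F1 Φ c hc (y i) = algebraMap ℂ _ (m (y i)) + aOf c (h.R E c) i +
      D1 E g₁ η (aOf c (h.R E c)) i := by
  show eB (aOf c (h.R E c)) (t1 E η) (h.a1 (h.norm_a c hc)) h.n1 (Φ (y i)) = _
  rw [hg, map_add, map_add, AlgHom.commutes, map_mul, eB_Xv, eB_Wv]
  rfl

theorem NodeC.F2_y (h : NodeC n N₁ N₂ g₁ g₂ η δ) (Φ : S →ₐ[ℂ] PS n N₂) (y : Fin n → S)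
    (m : S →ₐ[ℂ] ℂ)
    (hg : ∀ i, Φ (y i) = algebraMap ℂ _ (m (y i)) + Xv n N₂ i + Wv n N₂ * g₂ i)
    (c : Fin n → E) (hc : ‖c‖ ≤ δ / 2) (i : Fin n) :
    h.F2 Φ c hc (y i) = algebraMap ℂ _ (m (y i)) + bOf c (h.R E c) i +
      D2 E g₂ η (bOf c (h.R E c)) i := by
  show eB (bOf c (h.R E c)) (t2 E η) (h.a2 (h.norm_b c hc)) h.n2 (Φ (y i)) = _
  rw [hg, map_add, map_add, AlgHom.commutes, map_mul, eB_Xv, eB_Wv]
  rfl

theorem NodeC.F1_y_eq (h : NodeC n N₁ N₂ g₁ g₂ η δ) (Φ₁ : S →ₐ[ℂ] PS n N₁)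
    (Φ₂ : S →ₐ[ℂ] PS n N₂) (y : Fin n → S) (m : S →ₐ[ℂ] ℂ)
    (hg₁ : ∀ i, Φ₁ (y i) = algebraMap ℂ _ (m (y i)) + Xv n N₁ i + Wv n N₁ * g₁ i)
    (hg₂ : ∀ i, Φ₂ (y i) = algebraMap ℂ _ (m (y i)) + Xv n N₂ i + Wv n N₂ * g₂ i)
    (c : Fin n → E) (hc : ‖c‖ ≤ δ / 2) (i : Fin n) :
    h.F1 Φ₁ c hc (y i) = h.F2 Φ₂ c hc (y i) := by
  rw [h.F1_y Φ₁ y m hg₁ c hc, h.F2_y Φ₂ y m hg₂ c hc]
  have h1 := congrFun (h.R_spec c hc).2.1 i
  have h2 := aOf_sub_bOf c (h.R E c) i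
  rw [Pi.sub_apply, ← h2] at h1
  have h3 : D2 E g₂ η (bOf c (h.R E c)) i =
      D1 E g₁ η (aOf c (h.R E c)) i + (aOf c (h.R E c) i - bOf c (h.R E c) i) := by
    rw [← h1]; ring
  rw [h3]; ring

/-- naturality of the first homomorphism -/
theorem NodeC.F1_map (h : NodeC n N₁ N₂ g₁ g₂ η δ) (Φ : S →ₐ[ℂ] PS n N₁)
    {E' : Type} [NormedCommRing E'] [NormedAlgebra ℂ E'] [CompleteSpace E'] [NormOneClass E']
    {φ : E →ₐ[ℂ] E'} (hφ : WE.Ctr φ) (c : Fin n → E) (hc : ‖c‖ ≤ δ / 2) (f : S) :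
    WE.map hφ (h.F1 Φ c hc f) =
      evB (aOf (fun j => φ (c j)) (h.R E' fun j => φ (c j))) (t1 E' η) (Φ f) := by
  rw [h.F1_apply, map_evB (WE.map hφ) (WE.ctr_map hφ).cont _ _ (h.a1 (h.norm_a c hc)) h.n1,
    map_t1]
  congr 1
  funext i
  rw [aOf_map one_le_w2 hφ, h.R_map hφ c hc]

/-- value at a unit of the first homomorphism -/
theorem NodeC.F1_val (h : NodeC n N₁ N₂ g₁ g₂ η δ) (Φ : S →ₐ[ℂ] PS n N₁) (c : Fin n → E)
    (hc : ‖c‖ ≤ δ / 2) (t : Eˣ) (ht : ∀ k : ℤ, ‖((t ^ k : Eˣ) : E)‖ ≤ w2.w k) (f : S) :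
    WE.val t (evB (aOf c (h.R E c)) (t1 E η) (Φ f)) =
      evB (fun i => WE.val t (aOf c (h.R E c) i)) (WE.val t (t1 E η)) (Φ f) := by
  have := map_evB (WE.ev t ht) (WE.ctr_ev t ht).cont _ _ (h.a1 (h.norm_a c hc)) h.n1 (Φ f)
  exact this

theorem NodeC.F2_val (h : NodeC n N₁ N₂ g₁ g₂ η δ) (Φ : S →ₐ[ℂ] PS n N₂) (c : Fin n → E)
    (hc : ‖c‖ ≤ δ / 2) (t : Eˣ) (ht : ∀ k : ℤ, ‖((t ^ k : Eˣ) : E)‖ ≤ w2.w k) (f : S) :
    WE.val t (evB (bOf c (h.R E c)) (t2 E η) (Φ f)) =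
      evB (fun i => WE.val t (bOf c (h.R E c) i)) (WE.val t (t2 E η)) (Φ f) := by
  have := map_evB (WE.ev t ht) (WE.ctr_ev t ht).cont _ _ (h.a2 (h.norm_b c hc)) h.n2 (Φ f)
  exact this

end homs

/-- coefficients of the evaluation at `(X, 0)` -/
theorem co_evB_X (n N : ℕ) (f : PS n N) (ν : Fin n → ℕ) :
    (evB (fun i => Xv n N i) (0 : PS n N) f).co (ν, 0) = f.co (ν, 0) := by
  classical
  have hb : ∀ i, ‖(fun i => Xv n N i) i‖ ≤ rad N := fun i => (norm_Xv i).le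
  have hw : ‖(0 : PS n N)‖ ≤ rad N := by rw [norm_zero]; exact (rad_pos N).le
  have hmn : ∀ g : Gam n, mn (fun i => Xv n N i) (0 : PS n N) g =
      if g.2 = 0 then L1.mono (wP n N) g 1 else 0 := by
    intro g
    obtain ⟨ν, k⟩ := g
    have hprod : ∀ s : Finset (Fin n), (∏ i ∈ s, Xv n N i ^ ν i) =
        L1.mono (wP n N) (∑ i ∈ s, Pi.single i (ν i), 0) 1 := by
      have hpow : ∀ (i : Fin n) (k : ℕ), Xv n N i ^ k =
          L1.mono (wP n N) (Pi.single i k, 0) 1 := by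
        intro i k
        induction k with
        | zero => rw [pow_zero, Pi.single_zero]; rfl
        | succ k ih =>
          rw [pow_succ, ih]
          unfold Xv
          rw [L1.mono_mul_mono, one_mul]
          congr 1
          ext j
          · by_cases hj : j = i
            · subst hj; simp
            · simp [hj]
          · rfl
      intro s
      induction s using Finset.induction_on with
      | empty => simp; rfl
      | insert a s ha ih =>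
        rw [Finset.prod_insert ha, ih, hpow, L1.mono_mul_mono, one_mul, Finset.sum_insert ha]
        rfl
    have hsum : (∑ i, Pi.single i (ν i) : Fin n → ℕ) = ν := by
      funext j
      rw [Finset.sum_apply, Finset.sum_pi_single]
      simp
    show (∏ i, Xv n N i ^ ν i) * (0 : PS n N) ^ k = _
    rw [hprod, hsum]
    by_cases hk : k = 0
    · subst hk
      rw [pow_zero, mul_one, if_pos rfl]
    · rw [zero_pow hk, mul_zero, if_neg hk]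
  have hs : HasSum (fun g => f.co g • mn (fun i => Xv n N i) (0 : PS n N) g)
      (evB (fun i => Xv n N i) (0 : PS n N) f) :=
    ((L1.summ_lin (φ := mn (fun i => Xv n N i) (0 : PS n N)) (C := 1) (fun g => by
      rw [one_mul]; exact gd_norm_mn_le _ _ hb hw g) f).of_norm).hasSum
  have h1 := hs.map (L1.coL (wP n N) (ν, 0)) (L1.coL (wP n N) (ν, 0)).continuous
  have h2 : (evB (fun i => Xv n N i) (0 : PS n N) f).co (ν, 0) =
      ∑' g, (L1.coL (wP n N) (ν, 0)) (f.co g • mn (fun i => Xv n N i) (0 : PS n N) g) :=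
    h1.tsum_eq.symm
  rw [h2, tsum_eq_single (ν, 0)]
  · rw [map_smul, hmn]
    simp only [if_true]
    show f.co (ν, 0) • (L1.mono (wP n N) (ν, 0) 1).co (ν, 0) = _
    rw [L1.co_mono_self, smul_eq_mul, mul_one]
  · intro g hg
    rw [map_smul, hmn]
    split_ifs with h0
    · show f.co g • (L1.mono (wP n N) g 1).co (ν, 0) = 0
      rw [L1.co_mono_ne (Ne.symm hg), smul_zero]
    · rw [map_zero, smul_zero]

end Pool.Agent.TubeN.GD
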