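import Pool.Agent.Lib_MP_1209e6_nt.GlueD3

/-!
# `MP_1209e6_ag`, line N: GLUE-DATA
-/

set_option autoImplicit false

open Filter Topology
open Pool.Agent.NTW

noncomputable section

namespace Pool.Agent.TubeN

open Pool.Agent.TubeN.GD

variable {S R : Type} [CommRing S] [Algebra ℂ S] [CommRing R] [Algebra ℂ R]

theorem GD.ex_one (B : Type) [NormedCommRing B] [NormedAlgebra ℂ B] [CompleteSpace B]
    [NormOneClass B] : ex (1 : B) = algebraMap ℂ B (Complex.exp 1) := by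
  have h := map_ex (E := ℂ) (θ := Algebra.ofId ℂ B) (WE.ctr_ofId (E := B)).cont 1
  rw [map_one, ex_complex] at h
  exact h.symm

/-- GLUE-DATA -/
theorem glue_data {n N₁ N₂ : ℕ} {ρ : R →ₐ[ℂ] S} {y : Fin n → S} {m : S →ₐ[ℂ] ℂ} {ι : Type}
    [Fintype ι] (f : ι → S) (hf : Algebra.adjoin ℂ (Set.range f) = ⊤)
    (hunr : ∀ i, ∃ h : S, m h ≠ 0 ∧ h * (f i - algebraMap ℂ S (m (f i))) ∈
      Ideal.span (Set.range fun j => y j - algebraMap ℂ S (m (y j))))
    (T₁ : Tube n N₁ ρ y m) (T₂ : Tube n N₂ ρ y m) : ∃ N, Nonempty (GlueData T₁ T₂ N) := by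
  classical
  choose g₁ hg₁ using T₁.nrm
  choose g₂ hg₂ using T₂.nrm
  obtain ⟨ε, hε, hag⟩ := Pool.Agent.K3Node.hom_eq f hf y m hunr
  obtain ⟨Ta, hTa, hTa'⟩ := exists_small (fun i => T₁.Φ (f i)) ε hε
  obtain ⟨Tb, hTb, hTb'⟩ := exists_small (fun i => T₂.Φ (f i)) ε hε
  have hr1 := rad_pos N₁
  have hr2 := rad_pos N₂
  obtain ⟨δ, hδ, hδ1, hδ2, hδa, hδb⟩ : ∃ δ : ℝ, 0 < δ ∧ δ ≤ rad N₁ / 2 ∧ δ ≤ rad N₂ / 2 ∧
      δ ≤ Ta ∧ δ ≤ Tb :=
    ⟨min (min (rad N₁ / 2) (rad N₂ / 2)) (min Ta Tb),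
      lt_min (lt_min (by positivity) (by positivity)) (lt_min hTa hTb),
      (min_le_left _ _).trans (min_le_left _ _), (min_le_left _ _).trans (min_le_right _ _),
      (min_le_right _ _).trans (min_le_left _ _), (min_le_right _ _).trans (min_le_right _ _)⟩
  obtain ⟨η, hη, hC⟩ := exists_nodeC g₁ g₂ δ hδ hδ1 hδ2
  obtain ⟨N, hN1, hN⟩ := exists_N (min (δ / 2) (3 / 16)) (lt_min (by positivity) (by norm_num))
  have hNδ : rad N ≤ δ / 2 := hN.trans (min_le_left _ _)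
  have hN3 : rad N ≤ 3 / 16 := hN.trans (min_le_right _ _)
  have hrN := rad_pos N
  -- the agreement of the two homomorphisms
  have hF : ∀ (E : Type) [NormedCommRing E] [NormedAlgebra ℂ E] [CompleteSpace E]
      [NormOneClass E] (c : Fin n → E) (hc : ‖c‖ ≤ δ / 2),
      hC.F1 T₁.Φ c hc = hC.F2 T₂.Φ c hc := by
    intro E _ _ _ _ c hc
    refine hag (WE E w2) _ _ ?_ ?_ fun j => hC.F1_y_eq T₁.Φ T₂.Φ y m hg₁ hg₂ c hc j
    · intro i
      have h1 := hTa' i (aOf c (hC.R E c)) (t1 E η) ((hC.norm_a c hc).trans hδa)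
        ((norm_t1_le E η).trans (hC.hη.trans hδa))
      rwa [T₁.base] at h1
    · intro i
      have h1 := hTb' i (bOf c (hC.R E c)) (t2 E η) ((hC.norm_b c hc).trans hδb)
        ((norm_t2_le E η).trans (hC.hη.trans hδb))
      rwa [T₂.base] at h1
  -- complex centres
  have hcn : ∀ b : Fin n → ℂ, (∀ i, ‖b i‖ < rad N) → ‖b‖ ≤ δ / 2 := fun b hb =>
    (pi_norm_le_iff_of_nonneg (by positivity)).2 fun i => (hb i).le.trans hNδ
  -- the universal centre
  have hX : ‖fun i => Xv n N i‖ ≤ δ / 2 :=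
    (pi_norm_le_iff_of_nonneg (by positivity)).2 fun i => (norm_Xv i).le.trans hNδ
  have hWw : ∀ k : ℤ, ‖((eU (Wv n N) ^ k : (PS n N)ˣ) : PS n N)‖ ≤ w2.w k :=
    WE.eU_weight (fun _ => le_rfl) (by rw [norm_Wv]; exact hN3)
  let Φ : S →ₐ[ℂ] PS n N := (WE.ev (eU (Wv n N)) hWw).comp (hC.F1 T₁.Φ (fun i => Xv n N i) hX)
  have hΦ : ∀ s, Φ s = WE.val (eU (Wv n N))
      (evB (aOf (fun i => Xv n N i) (hC.R _ fun i => Xv n N i)) (t1 (PS n N) η) (T₁.Φ s)) :=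
    fun s => rfl
  -- naturality of `Φ`
  have hnat : ∀ (B : Type) [NormedCommRing B] [NormedAlgebra ℂ B] [CompleteSpace B]
      [NormOneClass B] (φ : PS n N →ₐ[ℂ] B) (hφ : WE.Ctr φ) (s : S),
      φ (Φ s) = WE.val (eU (φ (Wv n N))) (evB (aOf (fun i => φ (Xv n N i))
        (hC.R B fun i => φ (Xv n N i))) (t1 B η) (T₁.Φ s)) := by
    intro B _ _ _ _ φ hφ s
    rw [hΦ, ← hC.F1_apply T₁.Φ _ hX, ← WE.val_map hφ (S := Set.univ) (fun k _ => hWw k)
      (WE.supp_univ _), hC.F1_map T₁.Φ hφ _ hX, map_eU hφ]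
  have hval : ∀ (b : Fin n → ℂ) (w : ℂ), (∀ i, ‖b i‖ < rad N) → ‖w‖ < rad N → ∀ s : S,
      evB b w (Φ s) = evB (aV (Complex.exp (-w)) b (hC.R ℂ b)) (tau η (Complex.exp w))
        (T₁.Φ s) := by
    intro b w hb hw s
    have hb' : ∀ i, ‖b i‖ ≤ rad N := fun i => (hb i).le
    have h1 := hnat ℂ (eB b w hb' hw.le) (ctr_eB b w hb' hw.le) s
    rw [eB_apply] at h1
    simp only [eB_Xv, eB_Wv] at h1
    have ht : ∀ k : ℤ, ‖((eU w ^ k : ℂˣ) : ℂ)‖ ≤ w2.w k :=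
      WE.eU_weight (fun _ => le_rfl) (hw.le.trans hN3)
    rw [h1, hC.F1_val T₁.Φ b (hcn b hb) (eU w) ht, val_t1_complex (eU w) ht, coe_eU, ex_complex]
    congr 1
    funext i
    rw [← aV_inv, ← eU_neg, coe_eU, ex_complex]
  refine ⟨N, ⟨{ one_le := hN1, η := η, hη := hη, Φ := Φ, nrm := ?_, base := ?_
                σ₁ := fun b u => aV u b (hC.R ℂ b), σ₂ := fun b u => bV u b (hC.R ℂ b)
                small₁ := ?_, small₂ := ?_, ana₁ := ?_, ana₂ := ?_, time₁ := ?_, time₂ := ?_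
                agree := ?_, value := hval }⟩⟩
  · -- nrm
    intro i
    have h0 : ‖(0 : PS n N)‖ ≤ rad N := by rw [norm_zero]; exact hrN.le
    have hXi : ∀ i, ‖Xv n N i‖ ≤ rad N := fun i => (norm_Xv i).le
    have h1 := hnat (PS n N) (eB (fun i => Xv n N i) 0 hXi h0)
      (ctr_eB (fun i => Xv n N i) 0 hXi h0) (y i)
    simp only [eB_Xv, eB_Wv] at h1
    rw [← hC.F1_apply T₁.Φ _ hX, hC.F1_y T₁.Φ y m hg₁ _ hX, eU_zero] at h1
    have ht : ∀ k : ℤ, ‖(((1 : (PS n N)ˣ) ^ k : (PS n N)ˣ) : PS n N)‖ ≤ w2.w k :=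
      fun k => one_le_w one_le_w2 k
    rw [← WE.ev_apply 1 ht, map_add, map_add, AlgHom.commutes, WE.ev_apply, WE.ev_apply,
      val_aOf_one one_le_w2] at h1
    have h2 : WE.val 1 (D1 (PS n N) g₁ η (aOf (fun i => Xv n N i)
        (hC.R (PS n N) fun i => Xv n N i)) i) = 0 := by
      rw [← WE.ev_apply 1 ht]
      unfold D1
      rw [map_mul, WE.ev_apply, val_t1 1 ht, Units.val_one, ex_one, sub_self, smul_zero, zero_mul]
    rw [h2, add_zero] at h1
    obtain ⟨g, hg⟩ := ps_div (Φ (y i) - algebraMap ℂ _ (m (y i)) - Xv n N i) (by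
      intro ν
      rw [← co_evB_X]
      have h3 : eB (fun i => Xv n N i) 0 hXi h0
          (Φ (y i) - algebraMap ℂ _ (m (y i)) - Xv n N i) = 0 := by
        rw [map_sub, map_sub, h1, AlgHom.commutes, eB_Xv]
        ring
      rw [← eB_apply (fun i => Xv n N i) 0 hXi h0, h3, L1.co_zero])
    refine ⟨g, ?_⟩
    rw [← hg]; ring
  · -- base
    intro s
    have h1 := hval 0 0 (fun i => by rw [Pi.zero_apply, norm_zero]; exact hrN)
      (by rw [norm_zero]; exact hrN) s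
    have h2 : evB (0 : Fin n → ℂ) 0 (Φ s) = (Φ s).co 0 := evB_zero _
    have h3 : aV (Complex.exp (-0)) (0 : Fin n → ℂ) (hC.R ℂ 0) = 0 := by
      funext i
      have h4 : Complex.exp (-0) = (((1 : ℂˣ)⁻¹ : ℂˣ) : ℂ) := by simp
      rw [h4, aV_inv, val_aOf_one one_le_w2]
    have h5 : tau η (Complex.exp 0) = 0 := by
      unfold tau
      rw [Complex.exp_zero, sub_self, mul_zero]
    rw [h2, h3, h5] at h1
    rw [h1]
    have h6 : evB (0 : Fin n → ℂ) 0 (T₁.Φ s) = (T₁.Φ s).co 0 := evB_zero _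
    rw [h6, T₁.base]
  · -- small₁
    intro b u hb hu i
    refine lt_of_le_of_lt (norm_aV_le one_le_w2 (WE.bd_of_norm_le' hu.le) b (hC.R ℂ b) i)
      (lt_of_le_of_lt ?_ hC.lt1)
    have h1 := (hC.R_spec b (hcn b hb)).1
    have h2 := hcn b hb
    linarith
  · -- small₂
    intro b u hb hu i
    refine lt_of_le_of_lt (norm_bV_le one_le_w2 (WE.bd_of_norm_le' hu.le) b (hC.R ℂ b) i)
      (lt_of_le_of_lt ?_ hC.lt2)
    have h1 := (hC.R_spec b (hcn b hb)).1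
    have h2 := hcn b hb
    linarith
  · -- ana₁
    intro t₀ b u hb hu hbt hut i
    refine aV_analytic (fun _ => le_rfl) hC.natSol hb hu (fun j => ?_) ?_ i
    · filter_upwards [(hb j).continuousAt.norm.eventually_lt_const (hbt j)] with z hz
      exact hz.le.trans hNδ
    · filter_upwards [hu.continuousAt.norm.eventually_lt_const hut] with z hz
      exact hz.le
  · -- ana₂
    intro t₀ b u hb hu hbt hut i
    refine bV_analytic (fun _ => le_rfl) hC.natSol hb hu (fun j => ?_) ?_ i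
    · filter_upwards [(hb j).continuousAt.norm.eventually_lt_const (hbt j)] with z hz
      exact hz.le.trans hNδ
    · filter_upwards [hu.continuousAt.norm.eventually_lt_const hut] with z hz
      exact hz.le
  · intro ζ hζ
    exact lt_of_le_of_lt ((norm_tau_le η ζ hζ.le).trans hC.hη) hC.lt1
  · intro ζ hζ
    exact lt_of_le_of_lt ((norm_tau_le η ζ hζ.le).trans hC.hη) hC.lt2
  · -- agree
    intro b ζ hb hζ0 hζ hζ' s
    have hc := hcn b hb
    have ht : ∀ k : ℤ, ‖(((Units.mk0 ζ hζ0) ^ k : ℂˣ) : ℂ)‖ ≤ w2.w k :=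
      unit_weight (Units.mk0 ζ hζ0) hζ.le hζ'.le
    have h1 : hC.F1 T₁.Φ b hc s = hC.F2 T₂.Φ b hc s := by rw [hF ℂ b hc]
    rw [hC.F1_apply, hC.F2_apply] at h1
    have h2 := congrArg (WE.val (Units.mk0 ζ hζ0)) h1
    rw [hC.F1_val T₁.Φ b hc _ ht, hC.F2_val T₂.Φ b hc _ ht, val_t1_complex _ ht,
      val_t2_complex _ ht] at h2
    have h3 : aV ζ⁻¹ b (hC.R ℂ b) = fun i => WE.val (Units.mk0 ζ hζ0) (aOf b (hC.R ℂ b) i) := by
      funext i
      rw [← aV_inv]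
      rfl
    have h4 : bV ζ b (hC.R ℂ b) = fun i => WE.val (Units.mk0 ζ hζ0) (bOf b (hC.R ℂ b) i) := by
      funext i
      rw [← bV_unit]
      rfl
    rw [h3, h4]
    exact h2

end Pool.Agent.TubeN
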