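import Pool.Agent.Lib_MP_1209e6_nt.PSt
import Pool.Agent.Lib_MP_1209e6_nt.GlueAlg

/-!
# `MP_1209e6_ag`, line N: the contraction at the node
-/

set_option autoImplicit false

open Filter Topology

noncomputable section

namespace Pool.Agent.TubeN

/-- contraction on a ball of `E^n` -/
theorem fix_point {E : Type*} [NormedAddCommGroup E] [CompleteSpace E] {n : ℕ}
    (F : (Fin n → E) → (Fin n → E)) (r : ℝ) (hr : 0 ≤ r)
    (h1 : ∀ q, (∀ i, ‖q i‖ ≤ r) → ∀ i, ‖F q i‖ ≤ r)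
    (h2 : ∀ q q' d, 0 ≤ d → (∀ i, ‖q i‖ ≤ r) → (∀ i, ‖q' i‖ ≤ r) → (∀ i, ‖q i - q' i‖ ≤ d) →
      ∀ i, ‖F q i - F q' i‖ ≤ d / 2) : ∃ q, (∀ i, ‖q i‖ ≤ r) ∧ F q = q := by
  set s : Set (Fin n → E) := {q | ∀ i, ‖q i‖ ≤ r} with hs
  have hclosed : IsClosed s := by
    rw [hs, Set.setOf_forall]
    exact isClosed_iInter fun i => isClosed_le (continuous_norm.comp (continuous_apply i))
      continuous_const
  have hmaps : Set.MapsTo F s s := fun q hq => h1 q hq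
  have hcon : ContractingWith (1 / 2 : NNReal) (hmaps.restrict F s s) := by
    refine ⟨by norm_num, LipschitzWith.of_dist_le_mul fun q q' => ?_⟩
    show dist (F q.1) (F q'.1) ≤ ((1 / 2 : NNReal) : ℝ) * dist q.1 q'.1
    have hd : 0 ≤ dist q.1 q'.1 := dist_nonneg
    have h3 := h2 q.1 q'.1 (dist q.1 q'.1) hd q.2 q'.2 (fun i => by
      rw [← dist_eq_norm]; exact dist_le_pi_dist _ _ i)
    rw [dist_pi_le_iff (by positivity)]
    intro i
    rw [dist_eq_norm]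
    refine (h3 i).trans (le_of_eq ?_)
    push_cast
    ring
  obtain ⟨q, hq, hfix, -⟩ := hcon.exists_fixedPoint' hclosed.isComplete hmaps
    (x := (0 : Fin n → E)) (fun i => by simpa using hr) (edist_ne_top _ _)
  exact ⟨q, hq, hfix⟩

/-- evaluation as a homomorphism -/
def evH {n N : ℕ} {B : Type} [NormedCommRing B] [NormedAlgebra ℂ B] [CompleteSpace B]
    [NormOneClass B] (b : Fin n → B) (w : B) (hb : ∀ i, ‖b i‖ ≤ rad N) (hw : ‖w‖ ≤ rad N) :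
    PS n N →ₐ[ℂ] B := (ps_eval b w hb hw).choose

section

variable {n N : ℕ} {B : Type} [NormedCommRing B] [NormedAlgebra ℂ B] [CompleteSpace B]
    [NormOneClass B] (b : Fin n → B) (w : B) (hb : ∀ i, ‖b i‖ ≤ rad N) (hw : ‖w‖ ≤ rad N)

theorem evH_apply (f : PS n N) : evH b w hb hw f = evB b w f :=
  (ps_eval b w hb hw).choose_spec.1 f

theorem norm_evH_le (f : PS n N) : ‖evH b w hb hw f‖ ≤ ‖f‖ :=
  (ps_eval b w hb hw).choose_spec.2.1 f

theorem evH_cont : Continuous (evH b w hb hw) := (ps_eval b w hb hw).choose_spec.2.2.1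

theorem evH_X (i : Fin n) : evH b w hb hw (Xv n N i) = b i :=
  (ps_eval b w hb hw).choose_spec.2.2.2.1 i

theorem evH_W : evH b w hb hw (Wv n N) = w := (ps_eval b w hb hw).choose_spec.2.2.2.2

include hb hw in
theorem norm_evB_le (f : PS n N) : ‖evB b w f‖ ≤ ‖f‖ := by
  rw [← evH_apply b w hb hw]; exact norm_evH_le b w hb hw f

end

/-- the time `η (e^ζ - e)` -/
def Zt {B : Type} [NormedCommRing B] [NormedAlgebra ℂ B] (η : ℂ) (x : B) : B :=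
  η • (NormedSpace.exp x - algebraMap ℂ B (Complex.exp 1))

theorem norm_Zt_le {B : Type} [NormedCommRing B] [NormedAlgebra ℂ B] [CompleteSpace B]
    [NormOneClass B] (η : ℂ) (x : B) (hx : ‖x‖ ≤ 2) : ‖Zt η x‖ ≤ ‖η‖ * 12 := by
  unfold Zt
  rw [norm_smul]
  refine mul_le_mul_of_nonneg_left ?_ (norm_nonneg _)
  have h1 := norm_exp_le' x
  have h2 : Real.exp ‖x‖ ≤ Real.exp 2 := Real.exp_le_exp.2 hx
  have h3 : Real.exp 2 = Real.exp 1 ^ 2 := by rw [← Real.exp_nat_mul]; norm_num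
  have h4 := Real.exp_one_lt_d9
  have h5 := Real.exp_pos (1 : ℝ)
  have h6 : ‖algebraMap ℂ B (Complex.exp 1)‖ = Real.exp 1 := by
    rw [norm_algebraMap', Complex.norm_exp]; simp
  calc _ ≤ ‖NormedSpace.exp x‖ + ‖algebraMap ℂ B (Complex.exp 1)‖ := norm_sub_le _ _
    _ ≤ Real.exp 1 ^ 2 + Real.exp 1 := by rw [h6, ← h3]; linarith
    _ ≤ 12 := by nlinarith

theorem hom_Zt {B B' : Type} [NormedCommRing B] [NormedAlgebra ℂ B] [CompleteSpace B]
    [NormedCommRing B'] [NormedAlgebra ℂ B'] [CompleteSpace B'] (e : B →ₐ[ℂ] B')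
    (he : Continuous e) (η : ℂ) (x : B) : e (Zt η x) = Zt η (e x) := by
  unfold Zt
  rw [map_smul, map_sub, hom_exp e he, AlgHom.commutes]

theorem Zt_complex (η ζ : ℂ) : Zt η ζ = tau η ζ := by
  unfold Zt tau
  rw [← Complex.exp_eq_exp_ℂ, smul_eq_mul]
  rfl

/-- the solution of the node equation -/
theorem solve {n N₁ N₂ : ℕ} (g₁ : Fin n → PS n N₁) (g₂ : Fin n → PS n N₂) (ε : ℝ) (hε : 0 < ε)
    (h1 : ε ≤ rad N₁ / 2) (h2 : ε ≤ rad N₂ / 2) :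
    ∃ (N : ℕ) (η : ℂ) (s₁ s₂ : Fin n → AA n N), 1 ≤ N ∧ η ≠ 0 ∧ ‖η‖ * 12 ≤ ε ∧
      (∀ i, ‖s₁ i‖ ≤ ε) ∧ (∀ i, ‖s₂ i‖ ≤ ε) ∧
      (∀ i, s₁ i + Zt η (zA n N : AA n N) * evB s₁ (Zt η (zA n N : AA n N)) (g₁ i) =
        s₂ i + Zt η ((zA n N)⁻¹ : (AA n N)ˣ).val *
          evB s₂ (Zt η ((zA n N)⁻¹ : (AA n N)ˣ).val) (g₂ i)) ∧
      (∀ i, L1.Supp {g : GamL n | g.2 ≤ 0} (s₁ i)) ∧
      (∀ i, L1.Supp {g : GamL n | 0 ≤ g.2} (s₂ i)) ∧ ∀ i, ka n N (s₁ i) = xA n N i := by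
  choose C₁ hC₁ hL₁ using fun i => ps_lip (g₁ i)
  choose C₂ hC₂ hL₂ using fun i => ps_lip (g₂ i)
  obtain ⟨N₀, hN₀⟩ := exists_nat_one_div_lt (show (0 : ℝ) < ε / 4 by linarith)
  set N := N₀ + 1 with hN
  have hradN : rad N ≤ ε / 4 := by
    have : rad N ≤ 1 / ((N₀ : ℝ) + 1) := by
      unfold rad
      rw [hN]
      push_cast
      gcongr
      linarith
    linarith
  -- the constants
  set K : ℝ := (∑ i, (C₁ i + C₂ i)) + (∑ i, (‖g₁ i‖ + ‖g₂ i‖)) + 1 with hK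
  have hK1 : ∀ i, C₁ i ≤ K ∧ C₂ i ≤ K ∧ ‖g₁ i‖ ≤ K ∧ ‖g₂ i‖ ≤ K := by
    intro i
    have a1 : C₁ i + C₂ i ≤ ∑ j, (C₁ j + C₂ j) :=
      Finset.single_le_sum (f := fun j => C₁ j + C₂ j)
        (fun j _ => add_nonneg (hC₁ j) (hC₂ j)) (Finset.mem_univ i)
    have a2 : ‖g₁ i‖ + ‖g₂ i‖ ≤ ∑ j, (‖g₁ j‖ + ‖g₂ j‖) :=
      Finset.single_le_sum (f := fun j => ‖g₁ j‖ + ‖g₂ j‖)
        (fun j _ => add_nonneg (norm_nonneg _) (norm_nonneg _)) (Finset.mem_univ i)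
    have a3 := hC₁ i
    have a4 := hC₂ i
    have a5 := norm_nonneg (g₁ i)
    have a6 := norm_nonneg (g₂ i)
    refine ⟨?_, ?_, ?_, ?_⟩ <;> rw [hK] <;> linarith
  have hK0 : 1 ≤ K := by
    have a1 : 0 ≤ ∑ j, (C₁ j + C₂ j) :=
      Finset.sum_nonneg fun j _ => add_nonneg (hC₁ j) (hC₂ j)
    have a2 : 0 ≤ ∑ j, (‖g₁ j‖ + ‖g₂ j‖) :=
      Finset.sum_nonneg fun j _ => add_nonneg (norm_nonneg _) (norm_nonneg _)
    rw [hK]; linarith
  -- `η`
  set δ : ℝ := min (ε / (8 * K)) (1 / (10 * K)) with hδ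
  have hδ0 : 0 < δ := by rw [hδ]; exact lt_min (by positivity) (by positivity)
  have hδ1 : δ * K ≤ ε / 8 := by
    have : δ ≤ ε / (8 * K) := min_le_left _ _
    calc δ * K ≤ ε / (8 * K) * K := mul_le_mul_of_nonneg_right this (by linarith)
      _ = ε / 8 := by field_simp
  have hδ2 : δ * K ≤ 1 / 10 := by
    have : δ ≤ 1 / (10 * K) := min_le_right _ _
    calc δ * K ≤ 1 / (10 * K) * K := mul_le_mul_of_nonneg_right this (by linarith)
      _ = 1 / 10 := by field_simp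
  have hδ3 : δ ≤ ε := by
    have : δ ≤ δ * K := by nlinarith
    linarith
  set η : ℂ := ((δ / 12 : ℝ) : ℂ) with hη
  have hηn : ‖η‖ * 12 = δ := by
    rw [hη, Complex.norm_real, Real.norm_of_nonneg (by positivity)]; ring
  have hη0 : η ≠ 0 := by
    rw [hη]; exact_mod_cast (by positivity : (0 : ℝ) < δ / 12).ne'
  set Z₁ : AA n N := Zt η (zA n N : AA n N) with hZ₁
  set Z₂ : AA n N := Zt η ((zA n N)⁻¹ : (AA n N)ˣ).val with hZ₂
  have hZ₁n : ‖Z₁‖ ≤ δ := by rw [← hηn]; exact norm_Zt_le _ _ (norm_zA n N)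
  have hZ₂n : ‖Z₂‖ ≤ δ := by rw [← hηn]; exact norm_Zt_le _ _ (norm_zA_inv n N)
  set S₁ : (Fin n → AA n N) → Fin n → AA n N := fun q i => xA n N i + Pm n N (q i) with hS₁
  set S₂ : (Fin n → AA n N) → Fin n → AA n N := fun q i => xA n N i - (q i - Pm n N (q i))
    with hS₂
  set r : ℝ := ε / 4 with hr
  have hs1 : ∀ q : Fin n → AA n N, (∀ i, ‖q i‖ ≤ r) → ∀ i, ‖S₁ q i‖ ≤ ε := by
    intro q hq i
    have := norm_Pm_le (q i)
    have h3 := hq i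
    calc ‖S₁ q i‖ ≤ ‖xA n N i‖ + ‖Pm n N (q i)‖ := norm_add_le _ _
      _ ≤ ε := by rw [norm_xA]; linarith
  have hs2 : ∀ q : Fin n → AA n N, (∀ i, ‖q i‖ ≤ r) → ∀ i, ‖S₂ q i‖ ≤ ε := by
    intro q hq i
    have := norm_Pp_le (q i)
    have h3 := hq i
    calc ‖S₂ q i‖ ≤ ‖xA n N i‖ + ‖q i - Pm n N (q i)‖ := norm_sub_le _ _
      _ ≤ ε := by rw [norm_xA]; linarith
  set F : (Fin n → AA n N) → Fin n → AA n N := fun q i =>
    Z₂ * evB (S₂ q) Z₂ (g₂ i) - Z₁ * evB (S₁ q) Z₁ (g₁ i) with hF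
  have hr1 := rad_pos N₁
  have hr2 := rad_pos N₂
  obtain ⟨q, hq, hfix⟩ := fix_point F r (by rw [hr]; linarith) (by
    intro q hq i
    have e1 : ‖evB (S₁ q) Z₁ (g₁ i)‖ ≤ ‖g₁ i‖ :=
      norm_evB_le _ _ (fun j => (hs1 q hq j).trans (by linarith)) (by linarith) _
    have e2 : ‖evB (S₂ q) Z₂ (g₂ i)‖ ≤ ‖g₂ i‖ :=
      norm_evB_le _ _ (fun j => (hs2 q hq j).trans (by linarith)) (by linarith) _
    have e3 := (hK1 i).2.2
    calc ‖F q i‖ ≤ ‖Z₂ * evB (S₂ q) Z₂ (g₂ i)‖ + ‖Z₁ * evB (S₁ q) Z₁ (g₁ i)‖ :=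
          norm_sub_le _ _
      _ ≤ δ * K + δ * K := by
          refine add_le_add ?_ ?_
          · refine (norm_mul_le _ _).trans ?_
            exact mul_le_mul hZ₂n (e2.trans e3.2) (norm_nonneg _) hδ0.le
          · refine (norm_mul_le _ _).trans ?_
            exact mul_le_mul hZ₁n (e1.trans e3.1) (norm_nonneg _) hδ0.le
      _ ≤ r := by rw [hr]; linarith) (by
    intro q q' d hd hq hq' hqq i
    have d1 : ∀ j, ‖S₁ q j - S₁ q' j‖ ≤ 2 * d := by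
      intro j
      have : S₁ q j - S₁ q' j = Pm n N (q j - q' j) := by
        rw [← Pm_sub]; simp only [hS₁]; abel
      rw [this]
      refine (norm_Pm_le _).trans ?_
      linarith [hqq j]
    have d2 : ∀ j, ‖S₂ q j - S₂ q' j‖ ≤ 3 * d := by
      intro j
      have : S₂ q j - S₂ q' j = -((q j - q' j) - Pm n N (q j - q' j)) := by
        rw [← Pm_sub]; simp only [hS₂]; abel
      rw [this, norm_neg]
      refine (norm_Pp_le _).trans ?_
      linarith [hqq j]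
    have e1 : ‖evB (S₁ q) Z₁ (g₁ i) - evB (S₁ q') Z₁ (g₁ i)‖ ≤ K * (2 * d) := by
      refine (hL₁ i (S₁ q) (S₁ q') Z₁ Z₁ (2 * d) (fun j => (hs1 q hq j).trans h1)
        (fun j => (hs1 q' hq' j).trans h1) (by linarith) (by linarith) d1
        (by rw [sub_self, norm_zero]; linarith)).trans ?_
      exact mul_le_mul_of_nonneg_right (hK1 i).1 (by linarith)
    have e2 : ‖evB (S₂ q) Z₂ (g₂ i) - evB (S₂ q') Z₂ (g₂ i)‖ ≤ K * (3 * d) := by
      refine (hL₂ i (S₂ q) (S₂ q') Z₂ Z₂ (3 * d) (fun j => (hs2 q hq j).trans h2)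
        (fun j => (hs2 q' hq' j).trans h2) (by linarith) (by linarith) d2
        (by rw [sub_self, norm_zero]; linarith)).trans ?_
      exact mul_le_mul_of_nonneg_right (hK1 i).2.1 (by linarith)
    have e3 : F q i - F q' i = Z₂ * (evB (S₂ q) Z₂ (g₂ i) - evB (S₂ q') Z₂ (g₂ i)) -
        Z₁ * (evB (S₁ q) Z₁ (g₁ i) - evB (S₁ q') Z₁ (g₁ i)) := by
      simp only [hF]; ring
    rw [e3]
    calc _ ≤ ‖Z₂ * (evB (S₂ q) Z₂ (g₂ i) - evB (S₂ q') Z₂ (g₂ i))‖ +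
          ‖Z₁ * (evB (S₁ q) Z₁ (g₁ i) - evB (S₁ q') Z₁ (g₁ i))‖ := norm_sub_le _ _
      _ ≤ δ * (K * (3 * d)) + δ * (K * (2 * d)) := by
          refine add_le_add ?_ ?_
          · refine (norm_mul_le _ _).trans ?_
            exact mul_le_mul hZ₂n e2 (norm_nonneg _) hδ0.le
          · refine (norm_mul_le _ _).trans ?_
            exact mul_le_mul hZ₁n e1 (norm_nonneg _) hδ0.le
      _ = 5 * (δ * K) * d := by ring
      _ ≤ d / 2 := by nlinarith)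
  refine ⟨N, η, S₁ q, S₂ q, by rw [hN]; omega, hη0, by rw [hηn]; exact hδ3, hs1 q hq, hs2 q hq,
    ?_, ?_, ?_, ?_⟩
  · intro i
    have e := congrFun hfix i
    have e2 : S₁ q i - S₂ q i = q i := by simp only [hS₁, hS₂]; abel
    have e3 : Z₂ * evB (S₂ q) Z₂ (g₂ i) - Z₁ * evB (S₁ q) Z₁ (g₁ i) = S₁ q i - S₂ q i := by
      rw [e2]; exact e
    linear_combination (-1 : AA n N) * e3
  · intro i
    refine L1.Supp.add ?_ (supp_Pm _)
    exact L1.supp_mono (by simp) 1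
  · intro i
    refine L1.Supp.sub ?_ (supp_Pp _)
    exact L1.supp_mono (by simp) 1
  · intro i
    show ka n N (xA n N i + Pm n N (q i)) = xA n N i
    rw [map_add, ka_Pm, add_zero]
    unfold xA
    rw [ka_mono, one_smul]

end Pool.Agent.TubeN
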