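import Pool.Agent.Lib_MP_1209e6_nt.Tube

/-!
# `MP_1209e6_ag`, line N: the glued tube
-/

set_option autoImplicit false

open Filter Topology
open Pool.Agent.CampanaFlow

noncomputable section

namespace Pool.Agent.TubeN

variable {S R : Type} [CommRing S] [Algebra ℂ S] [CommRing R] [Algebra ℂ R]

omit S in
theorem Dich.congr {γ γ' : ℂ → Option (R →ₐ[ℂ] ℂ)} {t₀ : ℂ} (h : γ =ᶠ[𝓝 t₀] γ')
    (hγ : Dich γ' t₀) : Dich γ t₀ := by
  rcases hγ with h1 | ⟨h1, h2⟩
  · left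
    filter_upwards [h1, h.filter_mono nhdsWithin_le_nhds] with t ht1 ht2
    rw [ht2]
    exact ht1
  · right
    refine ⟨?_, fun f => ?_⟩
    · have h3 : ∀ᶠ t in 𝓝[≠] t₀, γ =ᶠ[𝓝 t] γ' :=
        (eventually_eventually_nhds.2 h).filter_mono nhdsWithin_le_nhds
      filter_upwards [h1, h3] with t ht1 ht3
      refine ⟨?_, fun f => ?_⟩
      · rw [ht3.self_of_nhds]
        exact ht1.1
      · refine (ht1.2 f).congr ?_
        filter_upwards [ht3] with t' ht'
        rw [ht']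
    · refine (h2 f).congr ?_
      filter_upwards [h.filter_mono nhdsWithin_le_nhds] with t ht
      rw [ht]

theorem rad_le_half {N : ℕ} (h : 1 ≤ N) : rad N ≤ 1 / 2 := by
  unfold rad
  have : (1 : ℝ) ≤ N := by exact_mod_cast h
  exact one_div_le_one_div_of_le (by norm_num) (by linarith)

theorem norm_exp_lt_two {w : ℂ} (h : ‖w‖ < 1 / 2) : ‖Complex.exp w‖ < 2 := by
  rw [Complex.norm_exp]
  have h1 : w.re < 1 / 2 := lt_of_le_of_lt ((le_abs_self _).trans (Complex.abs_re_le_norm w)) h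
  have h2 : Real.exp (1 / 2) ≤ 2 := by
    have h3 : Real.exp (1 / 2) * Real.exp (1 / 2) = Real.exp 1 := by
      rw [← Real.exp_add]; norm_num
    have h4 := Real.exp_one_lt_d9
    nlinarith [Real.exp_pos (1 / 2)]
  exact lt_of_lt_of_le (Real.exp_lt_exp.2 h1) h2

theorem glue_tube {n N₁ N₂ N : ℕ} {ρ : R →ₐ[ℂ] S} {y : Fin n → S} {m : S →ₐ[ℂ] ℂ}
    {T₁ : Tube n N₁ ρ y m} {T₂ : Tube n N₂ ρ y m} (G : GlueData T₁ T₂ N) :
    ∃ T : Tube n N ρ y m, T.Φ = G.Φ := by
  classical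
  -- the two sides
  let E₁ : (Fin n → ℂ) → ℂ → Option (R →ₐ[ℂ] ℂ) := fun b w =>
    T₁.E (G.σ₁ b (Complex.exp (-w))) (tau G.η (Complex.exp w))
  let E₂ : (Fin n → ℂ) → ℂ → Option (R →ₐ[ℂ] ℂ) := fun b w =>
    T₂.E (G.σ₂ b (Complex.exp w)) (tau G.η (Complex.exp (-w)))
  let E : (Fin n → ℂ) → ℂ → Option (R →ₐ[ℂ] ℂ) := fun b w =>
    if 0 ≤ w.re then E₁ b w else E₂ b w
  -- values where both are small
  have key₁ : ∀ b w, (∀ i, ‖b i‖ < rad N) → ‖Complex.exp w‖ < 2 → ‖Complex.exp (-w)‖ < 2 →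
      ∃ q, E₁ b w = some q ∧ ∀ f, q f =
        evB (G.σ₁ b (Complex.exp (-w))) (tau G.η (Complex.exp w)) (T₁.Φ (ρ f)) := by
    intro b w hb h1 h2
    exact T₁.g0 _ _ (G.small₁ b _ hb h2) (G.time₁ _ h1)
  have key₂ : ∀ b w, (∀ i, ‖b i‖ < rad N) → ‖Complex.exp w‖ < 2 → ‖Complex.exp (-w)‖ < 2 →
      ∃ q, E₂ b w = some q ∧ ∀ f, q f =
        evB (G.σ₁ b (Complex.exp (-w))) (tau G.η (Complex.exp w)) (T₁.Φ (ρ f)) := by
    intro b w hb h1 h2
    obtain ⟨q, hq1, hq2⟩ := T₂.g0 _ _ (G.small₂ b _ hb h1) (G.time₂ _ h2)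
    refine ⟨q, hq1, fun f => ?_⟩
    rw [hq2 f]
    have h : evB (G.σ₁ b (Complex.exp w)⁻¹) (tau G.η (Complex.exp w)) (T₁.Φ (ρ f)) =
        evB (G.σ₂ b (Complex.exp w)) (tau G.η (Complex.exp w)⁻¹) (T₂.Φ (ρ f)) := by
      have hz := Complex.exp_ne_zero w
      have h2' : ‖(Complex.exp w)⁻¹‖ < 2 := by rwa [← Complex.exp_neg]
      apply G.agree <;> assumption
    rw [← Complex.exp_neg] at h
    exact h.symm
  have hE12 : ∀ b w, (∀ i, ‖b i‖ < rad N) → ‖Complex.exp w‖ < 2 → ‖Complex.exp (-w)‖ < 2 →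
      E₁ b w = E₂ b w := by
    intro b w hb h1 h2
    obtain ⟨q, hq1, hq2⟩ := key₁ b w hb h1 h2
    obtain ⟨q', hq1', hq2'⟩ := key₂ b w hb h1 h2
    rw [hq1, hq1']
    have : q = q' := by
      ext f
      rw [hq2, hq2']
    rw [this]
  refine ⟨⟨G.Φ, G.nrm, G.base, E, ?_, ?_⟩, rfl⟩
  · intro b w hb hw
    have hw' : ‖w‖ < 1 / 2 := lt_of_lt_of_le hw (rad_le_half G.one_le)
    have h1 := norm_exp_lt_two hw'
    have h2 : ‖Complex.exp (-w)‖ < 2 := norm_exp_lt_two (by rwa [norm_neg])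
    obtain ⟨q, hq1, hq2⟩ := key₁ b w hb h1 h2
    refine ⟨q, ?_, fun f => ?_⟩
    · show (if 0 ≤ w.re then E₁ b w else E₂ b w) = some q
      split_ifs
      · exact hq1
      · rw [← hE12 b w hb h1 h2]
        exact hq1
    · rw [hq2 f, G.value b w hb hw]
  · intro t₀ b w hb hw hsm
    have hbc : ∀ᶠ t in 𝓝 t₀, ∀ i, ‖b t i‖ < rad N := by
      rw [eventually_all]
      intro i
      exact (hb i).continuousAt.norm.eventually (gt_mem_nhds (hsm i))
    have hwc : ContinuousAt w t₀ := hw.continuousAt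
    have hexp : AnalyticAt ℂ (fun t => Complex.exp (w t)) t₀ := hw.cexp
    have hexpn : AnalyticAt ℂ (fun t => Complex.exp (-w t)) t₀ := hw.neg.cexp
    have htau : ∀ u : ℂ → ℂ, AnalyticAt ℂ u t₀ → AnalyticAt ℂ (fun t => tau G.η (u t)) t₀ := by
      intro u hu
      unfold tau
      exact analyticAt_const.mul (hu.cexp.sub analyticAt_const)
    have hD₁ : ‖Complex.exp (-w t₀)‖ < 2 → Dich (fun t => E₁ (b t) (w t)) t₀ := by
      intro h
      exact T₁.lift t₀ (fun t => G.σ₁ (b t) (Complex.exp (-w t)))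
        (fun t => tau G.η (Complex.exp (w t)))
        (G.ana₁ t₀ b _ hb hexpn hsm h) (htau _ hexp) (G.small₁ _ _ hsm h)
    have hD₂ : ‖Complex.exp (w t₀)‖ < 2 → Dich (fun t => E₂ (b t) (w t)) t₀ := by
      intro h
      exact T₂.lift t₀ (fun t => G.σ₂ (b t) (Complex.exp (w t)))
        (fun t => tau G.η (Complex.exp (-w t)))
        (G.ana₂ t₀ b _ hb hexp hsm h) (htau _ hexpn) (G.small₂ _ _ hsm h)
    have hre : ContinuousAt (fun t => (w t).re) t₀ := Complex.continuous_re.continuousAt.comp hwc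
    have hn1 : ContinuousAt (fun t => ‖Complex.exp (w t)‖) t₀ := hexp.continuousAt.norm
    have hn2 : ContinuousAt (fun t => ‖Complex.exp (-w t)‖) t₀ := hexpn.continuousAt.norm
    rcases lt_trichotomy (w t₀).re 0 with h0 | h0 | h0
    · -- left side
      have hlt : ‖Complex.exp (w t₀)‖ < 2 := by
        rw [Complex.norm_exp]
        have := Real.exp_lt_exp.2 h0
        rw [Real.exp_zero] at this
        linarith
      refine Dich.congr ?_ (hD₂ hlt)
      filter_upwards [hre.eventually (gt_mem_nhds h0)] with t ht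
      show (if 0 ≤ (w t).re then E₁ (b t) (w t) else E₂ (b t) (w t)) = _
      rw [if_neg (not_le.2 ht)]
    · have h1 : ‖Complex.exp (w t₀)‖ < 2 := by
        rw [Complex.norm_exp, h0, Real.exp_zero]; norm_num
      have h2 : ‖Complex.exp (-w t₀)‖ < 2 := by
        rw [Complex.norm_exp, Complex.neg_re, h0, neg_zero, Real.exp_zero]; norm_num
      refine Dich.congr ?_ (hD₁ h2)
      filter_upwards [hn1.eventually (gt_mem_nhds h1), hn2.eventually (gt_mem_nhds h2), hbc]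
        with t ht1 ht2 ht3
      show (if 0 ≤ (w t).re then E₁ (b t) (w t) else E₂ (b t) (w t)) = _
      split_ifs
      · rfl
      · exact (hE12 _ _ ht3 ht1 ht2).symm
    · have hlt : ‖Complex.exp (-w t₀)‖ < 2 := by
        rw [Complex.norm_exp, Complex.neg_re]
        have := Real.exp_lt_exp.2 (neg_lt_zero.2 h0)
        rw [Real.exp_zero] at this
        linarith
      refine Dich.congr ?_ (hD₁ hlt)
      filter_upwards [hre.eventually (lt_mem_nhds h0)] with t ht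
      show (if 0 ≤ (w t).re then E₁ (b t) (w t) else E₂ (b t) (w t)) = _
      rw [if_pos ht.le]

end Pool.Agent.TubeN
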