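import Pool.Agent.Lib_MP_1209e6_fl.F3

/-!
# Growth of words of derivations (MP_1209e6_ag, line N)

`S` a finitely generated `ℂ`-algebra with finitely many derivations: growth of iterated derivatives,
uniform over bounded points.
-/

set_option autoImplicit false

open Filter Topology Pool.Agent.CampanaFlow

namespace Pool.Agent.TubeN

variable {S : Type} [CommRing S] [Algebra ℂ S]

/-! ## growth -/

/-- growth of words of polynomial derivations -/
theorem grow_word {ι σ : Type} [Fintype σ] [DecidableEq σ] (y : σ → S) (D : ι → Derivation ℂ S S)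
    (P : ι → σ → MvPolynomial σ ℂ) (hP : ∀ b i, D b (y i) = MvPolynomial.aeval y (P b i))
    (δ : ℕ) (hδ : ∀ b i, ∀ s ∈ (P b i).support, ∑ j, s j * 1 ≤ δ + 1)
    (w : σ → ℝ) (hw1 : ∀ i, 1 ≤ w i) (A : ℝ) (hA0 : 0 ≤ A)
    (hA : ∀ b i, f3nu w (P b i) ≤ A)
    (p : MvPolynomial σ ℂ) (d : ℕ) (hp : F3deg (fun _ => 1) p d) (l : List ι) :
    ∃ p' : MvPolynomial σ ℂ, word D l (MvPolynomial.aeval y p) = MvPolynomial.aeval y p' ∧
      F3deg (fun _ => 1) p' (d + l.length * δ) ∧
      f3nu w p' ≤ f3nu w p * (((l.length + d).factorial : ℝ) / d.factorial) *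
        ((1 + δ) * A) ^ l.length := by
  have hw0 : ∀ i, 0 ≤ w i := fun i => zero_le_one.trans (hw1 i)
  have hd0 : (0 : ℝ) < d.factorial := by positivity
  induction l with
  | nil =>
    refine ⟨p, rfl, ?_, ?_⟩
    · simpa using hp
    · simp [hd0.ne']
  | cons b l ih =>
    obtain ⟨p₁, h1, h2, h3⟩ := ih
    refine ⟨MvPolynomial.mkDerivation ℂ (P b) p₁, ?_, ?_, ?_⟩
    · show D b (word D l (MvPolynomial.aeval y p)) = _
      rw [h1, f3_aeval y (D b) (P b) (hP b)]
    · have h4 := f3deg_der (P b) (fun _ => 1) (fun i h => absurd h one_ne_zero) (fun _ => le_refl 1)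
        δ (hδ b) p₁ _ h2
      have h5 : d + l.length * δ + δ = d + (b :: l).length * δ := by
        rw [List.length_cons]
        ring
      rwa [h5] at h4
    · refine (f3nu_der (P b) (fun _ => 1) (fun i h => absurd h one_ne_zero) (fun _ => le_refl 1)
        w hw0 (fun i _ => hw1 i) A (hA b) p₁ _ h2 hA0).trans ?_
      have hν := f3nu_nonneg w hw0 p
      have h4 : ((d + l.length * δ : ℕ) : ℝ) ≤ (1 + δ) * (l.length + 1 + d) := by
        push_cast
        have h5 : (0 : ℝ) ≤ δ := Nat.cast_nonneg _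
        have h6 : (0 : ℝ) ≤ (l.length : ℝ) := Nat.cast_nonneg _
        have h7 : (0 : ℝ) ≤ (d : ℝ) := Nat.cast_nonneg _
        nlinarith [mul_nonneg h5 h7]
      have hf : (((b :: l).length + d).factorial : ℝ) =
          ((l.length : ℝ) + 1 + d) * ((l.length + d).factorial : ℝ) := by
        have h5 : (b :: l).length + d = (l.length + d) + 1 := by
          rw [List.length_cons]
          ring
        rw [h5, Nat.factorial_succ]
        push_cast
        ring
      calc ((d + l.length * δ : ℕ) : ℝ) * A * f3nu w p₁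
          ≤ ((1 + δ) * (l.length + 1 + d)) * A * (f3nu w p *
              (((l.length + d).factorial : ℝ) / d.factorial) * ((1 + δ) * A) ^ l.length) := by
            apply mul_le_mul (mul_le_mul_of_nonneg_right h4 hA0) h3 (f3nu_nonneg w hw0 _)
              (by positivity)
        _ = f3nu w p * ((((b :: l).length + d).factorial : ℝ) / d.factorial) *
              ((1 + δ) * A) ^ (b :: l).length := by
            rw [hf, List.length_cons, pow_succ]
            ring

theorem norm_aeval_le {σ : Type} [Fintype σ] (y : σ → S) (q : S →ₐ[ℂ] ℂ) (w : σ → ℝ)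
    (hw : ∀ i, ‖q (y i)‖ ≤ w i) (p : MvPolynomial σ ℂ) :
    ‖q (MvPolynomial.aeval y p)‖ ≤ f3nu w p := by
  have h4 : q (MvPolynomial.aeval y p) = ∑ s ∈ p.support, p.coeff s * ∏ j, q (y j) ^ s j := by
    rw [MvPolynomial.aeval_def, MvPolynomial.eval₂_eq', map_sum]
    refine Finset.sum_congr rfl fun s _ => ?_
    rw [map_mul, AlgHom.commutes, map_prod]
    simp
  rw [h4]
  refine (norm_sum_le _ _).trans ?_
  unfold f3nu
  refine Finset.sum_le_sum fun s _ => ?_
  rw [norm_mul, norm_prod]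
  apply mul_le_mul_of_nonneg_left _ (norm_nonneg _)
  refine Finset.prod_le_prod (fun j _ => norm_nonneg _) fun j _ => ?_
  rw [norm_pow]
  exact pow_le_pow_left₀ (norm_nonneg _) (hw j) _

theorem fac_bound (n d : ℕ) :
    ((n + d).factorial : ℝ) / d.factorial ≤ n.factorial * (2 ^ n * 2 ^ d) := by
  rw [div_le_iff₀ (by positivity)]
  have h5 : (n + d).factorial = (n + d).choose d * n.factorial * d.factorial :=
    (Nat.add_choose_mul_factorial_mul_factorial n d).symm
  have h6 : (n + d).choose d ≤ 2 ^ (n + d) := Nat.choose_le_two_pow _ _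
  have h7 : (((n + d).choose d : ℕ) : ℝ) ≤ 2 ^ n * 2 ^ d := by
    rw [← pow_add]
    exact_mod_cast h6
  rw [h5]
  push_cast
  calc (((n + d).choose d : ℕ) : ℝ) * n.factorial * d.factorial
      ≤ (2 ^ n * 2 ^ d) * n.factorial * d.factorial := by gcongr
    _ = n.factorial * (2 ^ n * 2 ^ d) * d.factorial := by ring

theorem grow_final {ν B : ℝ} (hν : 0 ≤ ν) (hB : 0 ≤ B) (n d : ℕ) :
    ν * (((n + d).factorial : ℝ) / d.factorial) * B ^ n ≤
      ν * 2 ^ d * n.factorial * (2 * B + 1) ^ n := by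
  calc ν * (((n + d).factorial : ℝ) / d.factorial) * B ^ n
      ≤ ν * (n.factorial * (2 ^ n * 2 ^ d)) * B ^ n := by
        gcongr
        exact fac_bound n d
    _ = ν * 2 ^ d * n.factorial * (2 * B) ^ n := by
        rw [mul_pow]
        ring
    _ ≤ ν * 2 ^ d * n.factorial * (2 * B + 1) ^ n := by
        gcongr
        linarith

theorem totalDegree_F3deg {σ : Type} [Fintype σ] (p : MvPolynomial σ ℂ) :
    F3deg (fun _ => 1) p p.totalDegree := by
  intro s hs
  have h1 := MvPolynomial.le_totalDegree hs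
  rw [Finsupp.sum_fintype _ _ (fun _ => rfl)] at h1
  simpa using h1

/-- Growth of iterated derivatives, uniformly over bounded points, for a finite family generating the
algebra. -/
theorem word_bound_aux {ι σ : Type} [Fintype ι] [Fintype σ] [DecidableEq σ] (y : σ → S)
    (D : ι → Derivation ℂ S S) (hy : ∀ f : S, ∃ p : MvPolynomial σ ℂ, f = MvPolynomial.aeval y p)
    (W : ℝ) (hW : 1 ≤ W) :
    ∃ K : ℝ, 0 < K ∧ ∀ f : S, ∃ C : ℝ, 0 ≤ C ∧ ∀ q : S →ₐ[ℂ] ℂ, (∀ i, ‖q (y i)‖ ≤ W) →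
      ∀ l : List ι, ‖q (word D l f)‖ ≤ C * l.length.factorial * K ^ l.length := by
  choose P hP using fun (b : ι) (i : σ) => hy (D b (y i))
  obtain ⟨w, hw⟩ : ∃ w : σ → ℝ, w = fun _ => W := ⟨_, rfl⟩
  have hw1 : ∀ i, 1 ≤ w i := fun i => by rw [hw]; exact hW
  have hw0 : ∀ i, 0 ≤ w i := fun i => zero_le_one.trans (hw1 i)
  have hpos : ∀ b i, 0 ≤ f3nu w (P b i) := fun b i => f3nu_nonneg _ hw0 _
  obtain ⟨A, hA0, hAle⟩ : ∃ A : ℝ, 0 ≤ A ∧ ∀ b i, f3nu w (P b i) ≤ A := by
    refine ⟨∑ b, ∑ i, f3nu w (P b i), Finset.sum_nonneg fun b _ => Finset.sum_nonneg fun i _ =>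
      hpos b i, fun b i => ?_⟩
    refine (Finset.single_le_sum (f := fun i => f3nu w (P b i))
      (fun i _ => hpos b i) (Finset.mem_univ i)).trans ?_
    exact Finset.single_le_sum (f := fun b => ∑ i, f3nu w (P b i))
      (fun b _ => Finset.sum_nonneg fun i _ => hpos b i) (Finset.mem_univ b)
  obtain ⟨δ, hδ⟩ : ∃ δ : ℕ, ∀ b i, ∀ s ∈ (P b i).support, ∑ j, s j * 1 ≤ δ + 1 := by
    refine ⟨∑ b, ∑ i, (P b i).totalDegree, fun b i s hs => ?_⟩
    have h1 := totalDegree_F3deg (P b i) s hs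
    have h2 : (P b i).totalDegree ≤ ∑ b, ∑ i, (P b i).totalDegree := by
      refine (Finset.single_le_sum (f := fun i => (P b i).totalDegree)
        (fun _ _ => Nat.zero_le _) (Finset.mem_univ i)).trans ?_
      exact Finset.single_le_sum (f := fun b => ∑ i, (P b i).totalDegree)
        (fun _ _ => Nat.zero_le _) (Finset.mem_univ b)
    exact h1.trans (h2.trans (Nat.le_succ _))
  obtain ⟨B, hB⟩ : ∃ B : ℝ, B = (1 + δ) * A := ⟨_, rfl⟩
  have hB0 : 0 ≤ B := hB ▸ mul_nonneg (by positivity) hA0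
  refine ⟨2 * B + 1, by linarith, fun f => ?_⟩
  obtain ⟨p, hp⟩ := hy f
  have hν : 0 ≤ f3nu w p := f3nu_nonneg w hw0 p
  refine ⟨f3nu w p * 2 ^ p.totalDegree, mul_nonneg hν (by positivity), fun q hq l => ?_⟩
  obtain ⟨p', h1, -, h3⟩ := grow_word y D P (fun b i => hP b i) δ hδ w hw1 A hA0 hAle p
    p.totalDegree (totalDegree_F3deg p) l
  rw [hp, h1]
  rw [← hB] at h3
  exact (norm_aeval_le y q w (fun i => by rw [hw]; exact hq i) p').trans
    (h3.trans (grow_final hν hB0 _ _))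

/-- Growth of iterated derivatives on a finitely generated algebra, uniformly over bounded points:
`‖q (D_{i₁} … D_{iₙ} f)‖ ≤ C n! K^n`. -/
theorem word_bound {ι : Type} [Finite ι] (D : ι → Derivation ℂ S S) (G : Finset S)
    (hG : Algebra.adjoin ℂ (G : Set S) = ⊤) (M : ℝ) :
    ∃ K : ℝ, 0 < K ∧ ∀ f : S, ∃ C : ℝ, 0 ≤ C ∧ ∀ q : S →ₐ[ℂ] ℂ, (∀ g ∈ G, ‖q g‖ ≤ M) →
      ∀ l : List ι, ‖q (word D l f)‖ ≤ C * l.length.factorial * K ^ l.length := by
  classical
  haveI := Fintype.ofFinite ι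
  have hrange : Set.range (Subtype.val : {x // x ∈ G} → S) = (G : Set S) := by
    ext x; simp
  have hexf : ∀ f : S, ∃ p : MvPolynomial {x // x ∈ G} ℂ,
      f = MvPolynomial.aeval (Subtype.val : {x // x ∈ G} → S) p := by
    intro f
    have h1 : f ∈ Algebra.adjoin ℂ (Set.range (Subtype.val : {x // x ∈ G} → S)) := by
      rw [hrange, hG]; trivial
    rw [Algebra.adjoin_range_eq_range_aeval] at h1
    obtain ⟨p, hp⟩ := h1
    exact ⟨p, hp.symm⟩
  obtain ⟨K, hK, h⟩ := word_bound_aux (Subtype.val : {x // x ∈ G} → S) D hexf (max M 1)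
    (le_max_right _ _)
  refine ⟨K, hK, fun f => ?_⟩
  obtain ⟨C, hC, h⟩ := h f
  exact ⟨C, hC, fun q hq l => h q (fun g => (hq g.1 g.2).trans (le_max_left _ _)) l⟩


end Pool.Agent.TubeN
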