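import Pool.Agent.Lib_MP_1209e6_nt.Tube

/-!
# `MP_1209e6_ag`, line N: incomparability for integral extensions
-/

set_option autoImplicit false

namespace Pool.Agent.TubeN

/-- integral extensions are incomparable -/
theorem incomp_of_integral {R S : Type} [CommRing R] [Algebra ℂ R] [CommRing S] [Algebra ℂ S]
    {ρ : R →ₐ[ℂ] S} (h : ρ.IsIntegral) : Incomp ρ := by
  intro Q P hQ hP hQP hle
  let _ : Algebra R S := (ρ : R →+* S).toAlgebra
  by_contra hne
  have hlt : ¬ P ≤ Q := fun h' => hne (le_antisymm hQP h')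
  obtain ⟨x, hxP, hxQ⟩ := SetLike.not_le_iff_exists.1 hlt
  have := hQ
  have hx : IsIntegral R x := h x
  have := Ideal.comap_lt_comap_of_integral_mem_sdiff (R := R) hQP (x := x) ⟨hxP, hxQ⟩ hx
  exact absurd hle (not_le_of_gt this)

end Pool.Agent.TubeN
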