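import Pool.Agent.Lib_MP_1209e6_nt.Tube

/-!
# `MP_1209e6_ag`, line N: frozen statements of the pieces (each piece in its own file with this
statement; this file is only the list and is never imported)
-/

set_option autoImplicit false

open Filter Topology
open Pool.Agent.CampanaFlow

noncomputable section

namespace Pool.Agent.TubeN.Stub

open Pool.Agent.TubeN

/-- PS1 (helper38, file PSn.lean): evaluation -/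
theorem ps_eval {n N : ℕ} {B : Type} [NormedCommRing B] [NormedAlgebra ℂ B] [CompleteSpace B]
    [NormOneClass B] (b : Fin n → B) (w : B) (hb : ∀ i, ‖b i‖ ≤ rad N) (hw : ‖w‖ ≤ rad N) :
    ∃ e : PS n N →ₐ[ℂ] B, (∀ f, e f = evB b w f) ∧ (∀ f, ‖e f‖ ≤ ‖f‖) ∧ Continuous e ∧
      (∀ i, e (Xv n N i) = b i) ∧ e (Wv n N) = w := sorry

/-- PS2 (helper38): Lipschitz -/
theorem ps_lip {n N : ℕ} (f : PS n N) : ∃ C : ℝ, 0 ≤ C ∧ ∀ {B : Type} [NormedCommRing B]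
    [NormedAlgebra ℂ B] [CompleteSpace B] [NormOneClass B] (b b' : Fin n → B) (w w' : B) (d : ℝ),
    (∀ i, ‖b i‖ ≤ rad N / 2) → (∀ i, ‖b' i‖ ≤ rad N / 2) → ‖w‖ ≤ rad N / 2 → ‖w'‖ ≤ rad N / 2 →
    (∀ i, ‖b i - b' i‖ ≤ d) → ‖w - w'‖ ≤ d → ‖evB b w f - evB b' w' f‖ ≤ C * d := sorry

/-- PS3 (helper38): divisibility by `w` -/
theorem ps_div {n N : ℕ} (f : PS n N) (h : ∀ ν : Fin n → ℕ, f.co (ν, 0) = 0) :
    ∃ g : PS n N, f = Wv n N * g := sorry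

/-- PS4 (helper38): analyticity -/
theorem ps_ana {n N : ℕ} (f : PS n N) (t₀ : ℂ) (b : ℂ → Fin n → ℂ) (w : ℂ → ℂ)
    (hb : ∀ i, AnalyticAt ℂ (fun t => b t i) t₀) (hw : AnalyticAt ℂ w t₀)
    (h1 : ∀ i, ‖b t₀ i‖ < rad N) (h2 : ‖w t₀‖ < rad N) :
    AnalyticAt ℂ (fun t => evB (b t) (w t) f) t₀ := sorry

/-- PS5: a series which vanishes at all small `(b, w)` is zero -/
theorem ps_eq_zero {n N : ℕ} (f : PS n N)
    (h : ∀ (b : Fin n → ℂ) (w : ℂ), (∀ i, ‖b i‖ < rad N) → ‖w‖ < rad N → evB b w f = 0) :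
    f = 0 := sorry

variable {S R : Type} [CommRing S] [Algebra ℂ S] [CommRing R] [Algebra ℂ R]

/-- GLUE-DATA (helper80). `hunr` = unramified over `y` at `m` (Rings.lean / k3 HomEq.lean) -/
theorem glue_data {n N₁ N₂ : ℕ} {ρ : R →ₐ[ℂ] S} {y : Fin n → S} {m : S →ₐ[ℂ] ℂ} {ι : Type}
    [Fintype ι] (f : ι → S) (hf : Algebra.adjoin ℂ (Set.range f) = ⊤)
    (hunr : ∀ i, ∃ h : S, m h ≠ 0 ∧ h * (f i - algebraMap ℂ S (m (f i))) ∈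
      Ideal.span (Set.range fun j => y j - algebraMap ℂ S (m (y j))))
    (T₁ : Tube n N₁ ρ y m) (T₂ : Tube n N₂ ρ y m) : ∃ N, Nonempty (GlueData T₁ T₂ N) := sorry

/-- GLUE-TUBE (helper90): `E b w = if 0 ≤ re w then T₁.E (σ₁ b (exp (-w))) (tau η (exp w)) else
T₂.E (σ₂ b (exp w)) (tau η (exp (-w)))` -/
theorem glue_tube {n N₁ N₂ N : ℕ} {ρ : R →ₐ[ℂ] S} {y : Fin n → S} {m : S →ₐ[ℂ] ℂ}
    {T₁ : Tube n N₁ ρ y m} {T₂ : Tube n N₂ ρ y m} (G : GlueData T₁ T₂ N) :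
    ∃ T : Tube n N ρ y m, T.Φ = G.Φ := sorry

/-- STAB-SIDE (helper29): `f` vanishes on the curve `ζ ↦ T (σ (1/ζ), tau η ζ)`, `1/2 < |ζ| < 2`;
then `D f` vanishes too, if `D` is good for `T`. -/
theorem stab_side {n N₁ : ℕ} {ρ : R →ₐ[ℂ] S} {y : Fin n → S} {m : S →ₐ[ℂ] ℂ}
    (T : Tube n N₁ ρ y m) (hinc : Incomp ρ) (η : ℂ) (hη : η ≠ 0) (σ : ℂ → Fin n → ℂ)
    (hσ : ∀ u, ‖u‖ < 2 → ∀ i, AnalyticAt ℂ (fun t => σ t i) u ∧ ‖σ u i‖ < rad N₁)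
    (hτ : ∀ ζ : ℂ, ‖ζ‖ < 2 → ‖tau η ζ‖ < rad N₁)
    (D : Derivation ℂ S S) (hD : GoodFor T.Φ D) (ε : ℝ) (hε : 0 < ε) (hε' : ε ≤ 1 / 2) (f : S)
    (hf : ∀ w : ℂ, ‖w‖ < ε →
      evB (σ (Complex.exp (-w))) (tau η (Complex.exp w)) (T.Φ f) = 0) :
    ∀ w : ℂ, ‖w‖ < ε →
      evB (σ (Complex.exp (-w))) (tau η (Complex.exp w)) (T.Φ (D f)) = 0 := sorry

/-- STAB-GLUE (from STAB-SIDE applied to both sides; on the side of `T₂` replace `w` by `-w`) -/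
theorem stab_glue {n N₁ N₂ N : ℕ} {ρ : R →ₐ[ℂ] S} {y : Fin n → S} {m : S →ₐ[ℂ] ℂ}
    {T₁ : Tube n N₁ ρ y m} {T₂ : Tube n N₂ ρ y m} (G : GlueData T₁ T₂ N) (hinc : Incomp ρ)
    (D : Derivation ℂ S S) (hD : GoodFor T₁.Φ D ∨ GoodFor T₂.Φ D) : GoodFor G.Φ D := sorry

/-- FLOW-GERM (helper53 / helper36): the germ of the flow tube `m exp(b₁E₁) … exp(b_nE_n) exp(wD)` -/
theorem flow_germ [Algebra.FiniteType ℂ S] {n : ℕ} (y : Fin n → S)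
    (E : Fin n → Derivation ℂ S S) (hE : ∀ i j, E i (y j) = if i = j then 1 else 0)
    (D : Derivation ℂ S S) (m : S →ₐ[ℂ] ℂ) :
    ∃ (N : ℕ) (Φ : S →ₐ[ℂ] PS n N), Nrm y m Φ ∧ (∀ f, (Φ f).co 0 = m f) ∧ GoodFor Φ D ∧
      ∀ b : Fin n → ℂ, (∀ i, ‖b i‖ < rad N) → ∃ q : S →ₐ[ℂ] ℂ, (∀ f, q f = evB b 0 (Φ f)) ∧
        ∀ w : ℂ, ‖w‖ < rad N → ∃ q' : S →ₐ[ℂ] ℂ, (∀ f, q' f = evB b w (Φ f)) ∧
          IsFlow D q w q' := sorry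

/-- FLOW-LIFT (helper53 / helper16): intrinsic maximal flow on the points of `S'` -/
theorem flow_lift {S' : Type} [CommRing S'] [Algebra ℂ S'] [Algebra.FiniteType ℂ S']
    (d : Derivation ℂ S' S') (cd : ChartData d) :
    ∃ Fl : (S' →ₐ[ℂ] ℂ) → ℂ → Option (S' →ₐ[ℂ] ℂ),
      (∀ q t, ∀ r : ℝ, ‖t‖ < r → (∀ s : ℂ, ‖s‖ < r → ∃ q', IsFlow d q s q') →
        ∀ q', IsFlow d q t q' → Fl q t = some q') ∧
      ∀ (t₀ : ℂ) (γ : ℂ → S' →ₐ[ℂ] ℂ) (τ : ℂ → ℂ), (∀ f, AnalyticAt ℂ (fun t => γ t f) t₀) →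
        AnalyticAt ℂ τ t₀ → Dich (fun t => Fl (γ t) (τ t)) t₀ := sorry

/-- FLOW-TUBE (assembly of FLOW-GERM and FLOW-LIFT) -/
theorem flow_tube {S' : Type} [CommRing S'] [Algebra ℂ S'] [Algebra.FiniteType ℂ S']
    [Algebra.FiniteType ℂ S] [Algebra.FiniteType ℂ R] (ρ : R →ₐ[ℂ] S) (φ : S' →ₐ[ℂ] S)
    (r : R →ₐ[ℂ] S') (hr : ∀ f, φ (r f) = ρ f) {n : ℕ} (y : Fin n → S)
    (E : Fin n → Derivation ℂ S S) (hE : ∀ i j, E i (y j) = if i = j then 1 else 0)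
    (D : Derivation ℂ S S) (d : Derivation ℂ S' S') (hd : ∀ f, D (φ f) = φ (d f))
    (cd : ChartData d) (m : S →ₐ[ℂ] ℂ) :
    ∃ (N : ℕ) (T : Tube n N ρ y m), GoodFor T.Φ D := sorry

/-- INDUCTION: one tube good for all the derivations -/
theorem all_tube {ρ : R →ₐ[ℂ] S} {n : ℕ} {y : Fin n → S} {m : S →ₐ[ℂ] ℂ} (hinc : Incomp ρ)
    {ι : Type} [Fintype ι] (f : ι → S) (hf : Algebra.adjoin ℂ (Set.range f) = ⊤)
    (hunr : ∀ i, ∃ h : S, m h ≠ 0 ∧ h * (f i - algebraMap ℂ S (m (f i))) ∈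
      Ideal.span (Set.range fun j => y j - algebraMap ℂ S (m (y j))))
    {s : ℕ} (hs : 0 < s) (D : Fin s → Derivation ℂ S S)
    (h : ∀ a, ∃ (N : ℕ) (T : Tube n N ρ y m), GoodFor T.Φ (D a)) :
    ∃ (N : ℕ) (T : Tube n N ρ y m), ∀ a, GoodFor T.Φ (D a) := sorry

/-- END (helper29): the curve `w ↦ T (0, w)` -/
theorem tube_end [Algebra.FiniteType ℂ R] {ρ : R →ₐ[ℂ] S} (hρ : Function.Injective ρ) {n : ℕ}
    {y : Fin n → S} {m : S →ₐ[ℂ] ℂ} {ι : Type} (D : ι → Derivation ℂ S S)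
    (hm : ∀ f : S, f ≠ 0 → ∃ l : List ι, m (word D l f) ≠ 0) {N : ℕ} (T : Tube n N ρ y m)
    (hT : ∀ i, GoodFor T.Φ (D i)) :
    ∃ (γ : ℂ → R →ₐ[ℂ] ℂ) (B : Set ℂ), IsCurve Set.univ γ B ∧
      ∀ f : R, (∀ z, z ∉ B → γ z f = 0) → f = 0 := sorry

end Pool.Agent.TubeN.Stub
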