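import Mathlib

/-! NATURAL ⟹ HOLOMORPHIC: a family of maps on all commutative Banach algebras which is natural under
contractive homomorphisms is holomorphic over `ℂ`. Proof: the disc algebra. -/

set_option autoImplicit false

open Filter Topology

namespace Pool.Agent.TubeN

/-- continuous functions on a closed disc which are holomorphic in the open disc -/
noncomputable def nhAlg (c : ℂ) (r : ℝ) : Subalgebra ℂ C(Metric.closedBall c r, ℂ) where
  carrier := {f | ∃ g : ℂ → ℂ, DifferentiableOn ℂ g (Metric.ball c r) ∧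
    ∀ x : Metric.closedBall c r, (x : ℂ) ∈ Metric.ball c r → f x = g x}
  mul_mem' := by
    rintro f₁ f₂ ⟨g₁, h₁, e₁⟩ ⟨g₂, h₂, e₂⟩
    exact ⟨g₁ * g₂, h₁.mul h₂, fun x hx => by
      rw [ContinuousMap.mul_apply, e₁ x hx, e₂ x hx, Pi.mul_apply]⟩
  add_mem' := by
    rintro f₁ f₂ ⟨g₁, h₁, e₁⟩ ⟨g₂, h₂, e₂⟩
    exact ⟨g₁ + g₂, h₁.add h₂, fun x hx => by
      rw [ContinuousMap.add_apply, e₁ x hx, e₂ x hx, Pi.add_apply]⟩
  algebraMap_mem' := fun a => ⟨fun _ => a, differentiableOn_const a, fun x _ => rfl⟩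

theorem nhAlg_closed (c : ℂ) (r : ℝ) :
    IsClosed (nhAlg c r : Set C(Metric.closedBall c r, ℂ)) := by
  refine isClosed_of_closure_subset fun f hf => ?_
  classical
  rw [mem_closure_iff_seq_limit] at hf
  obtain ⟨F, hF, hlim⟩ := hf
  choose G hG hGF using fun n => (hF n : ∃ g : ℂ → ℂ, DifferentiableOn ℂ g (Metric.ball c r) ∧
    ∀ x : Metric.closedBall c r, (x : ℂ) ∈ Metric.ball c r → F n x = g x)
  refine ⟨fun z => if h : z ∈ Metric.closedBall c r then f ⟨z, h⟩ else 0, ?_, fun x hx => ?_⟩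
  · have hunif : TendstoUniformlyOn G (fun z => if h : z ∈ Metric.closedBall c r then f ⟨z, h⟩ else 0)
        atTop (Metric.ball c r) := by
      rw [Metric.tendstoUniformlyOn_iff]
      intro ε hε
      rw [Metric.tendsto_atTop] at hlim
      obtain ⟨N, hN⟩ := hlim ε hε
      filter_upwards [eventually_ge_atTop N] with n hn z hz
      have hzc : z ∈ Metric.closedBall c r := Metric.ball_subset_closedBall hz
      have h1 := hGF n ⟨z, hzc⟩ hz
      have h2 : G n z = F n ⟨z, hzc⟩ := h1.symm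
      rw [h2]
      simp only [dif_pos hzc]
      rw [dist_comm]
      have h3 := ContinuousMap.dist_apply_le_dist (f := F n) (g := f)
        (⟨z, hzc⟩ : Metric.closedBall c r)
      exact lt_of_le_of_lt h3 (hN n hn)
    exact hunif.tendstoLocallyUniformlyOn.differentiableOn (Eventually.of_forall fun n => hG n)
      Metric.isOpen_ball
  · simp only [x.2, dif_pos]

/-- the evaluation at a point of the closed disc -/
noncomputable def nhEv (c : ℂ) (r : ℝ) (x : Metric.closedBall c r) : nhAlg c r →ₐ[ℂ] ℂ :=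
  (ContinuousMap.evalAlgHom ℂ ℂ x).comp (nhAlg c r).val

theorem nhEv_apply (c : ℂ) (r : ℝ) (x : Metric.closedBall c r) (f : nhAlg c r) :
    nhEv c r x f = (f : C(Metric.closedBall c r, ℂ)) x := rfl

theorem nhEv_le (c : ℂ) (r : ℝ) (x : Metric.closedBall c r) (f : nhAlg c r) :
    ‖nhEv c r x f‖ ≤ ‖f‖ :=
  ContinuousMap.norm_coe_le_norm (f : C(Metric.closedBall c r, ℂ)) x

/-- A family of maps on commutative Banach algebras, natural under contractive homomorphisms (for
arguments of norm less than `δ`). -/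
def IsNat {ι : Type} (δ : ℝ) (F : ∀ (E : Type) [NormedCommRing E] [NormedAlgebra ℂ E]
    [NormOneClass E] [CompleteSpace E], (ι → E) → E) : Prop :=
  ∀ (E E' : Type) [NormedCommRing E] [NormedAlgebra ℂ E] [NormOneClass E] [CompleteSpace E]
    [NormedCommRing E'] [NormedAlgebra ℂ E'] [NormOneClass E'] [CompleteSpace E']
    (φ : E →ₐ[ℂ] E'), (∀ x, ‖φ x‖ ≤ ‖x‖) → ∀ a : ι → E, (∀ i, ‖a i‖ < δ) →
      F E' (fun i => φ (a i)) = φ (F E a)

/-- Naturality implies holomorphy. -/
theorem nat_ana {ι : Type} [Finite ι] {δ : ℝ} (hδ : 0 < δ)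
    {F : ∀ (E : Type) [NormedCommRing E] [NormedAlgebra ℂ E] [NormOneClass E] [CompleteSpace E],
      (ι → E) → E} (hF : IsNat δ F) (v : ℂ → ι → ℂ) {x₀ : ℂ}
    (hv : ∀ i, AnalyticAt ℂ (fun x => v x i) x₀) (hb : ∀ i, ‖v x₀ i‖ < δ) :
    AnalyticAt ℂ (fun x => F ℂ (v x)) x₀ := by
  have h1 : ∀ᶠ x in 𝓝 x₀, ∀ i, AnalyticAt ℂ (fun x => v x i) x ∧ ‖v x i‖ < δ := by
    rw [eventually_all]
    intro i
    have h2 := (hv i).continuousAt.norm.eventually_lt_const (hb i)
    filter_upwards [(hv i).eventually_analyticAt, h2] with x hx1 hx2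
    exact ⟨hx1, hx2⟩
  obtain ⟨r, hr, hball⟩ := Metric.nhds_basis_closedBall.eventually_iff.1 h1
  have hcomp : CompactSpace (Metric.closedBall x₀ r) :=
    isCompact_iff_compactSpace.1 (isCompact_closedBall x₀ r)
  have hne : Nonempty (Metric.closedBall x₀ r) := ⟨⟨x₀, Metric.mem_closedBall_self hr.le⟩⟩
  have hone : NormOneClass (nhAlg x₀ r) := ⟨(norm_one : ‖(1 : C(Metric.closedBall x₀ r, ℂ))‖ = 1)⟩
  have hcs : CompleteSpace (nhAlg x₀ r) := (nhAlg_closed x₀ r).completeSpace_coe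
  let a : ι → nhAlg x₀ r := fun i =>
    ⟨⟨fun x => v x i, by
        rw [continuous_iff_continuousAt]
        intro x
        exact (hball x.2 i).1.continuousAt.comp continuous_subtype_val.continuousAt⟩,
      ⟨fun x => v x i, fun x hx =>
        (hball (Metric.ball_subset_closedBall hx) i).1.differentiableAt.differentiableWithinAt,
        fun x _ => rfl⟩⟩
  have ha : ∀ i, ‖a i‖ < δ := by
    intro i
    have h3 : ‖((a i : nhAlg x₀ r) : C(Metric.closedBall x₀ r, ℂ))‖ < δ :=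
      (ContinuousMap.norm_lt_iff _ hδ).2 fun x => (hball x.2 i).2
    exact h3
  obtain ⟨g, hg, hge⟩ := (F (nhAlg x₀ r) a).2
  have hval : ∀ x ∈ Metric.ball x₀ r, F ℂ (v x) = g x := by
    intro x hx
    have hxc := Metric.ball_subset_closedBall hx
    have h4 := hF (nhAlg x₀ r) ℂ (nhEv x₀ r ⟨x, hxc⟩) (nhEv_le x₀ r ⟨x, hxc⟩) a ha
    have h5 : (fun i => nhEv x₀ r ⟨x, hxc⟩ (a i)) = v x := by
      funext i
      rfl
    rw [h5] at h4
    rw [h4, nhEv_apply]
    exact hge ⟨x, hxc⟩ hx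
  have h6 : AnalyticAt ℂ g x₀ := hg.analyticAt (Metric.ball_mem_nhds x₀ hr)
  refine h6.congr ?_
  filter_upwards [Metric.ball_mem_nhds x₀ hr] with x hx
  exact (hval x hx).symm

end Pool.Agent.TubeN
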