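import Pool.Agent.Lib_MP_1209e6_kc.U4

/-!
# MP_1209e6_ag, line N: flows of curves over arbitrary open sets

The version of `flow_onU` (helper16) over an arbitrary open subset `U` of the plane, with one good
point in each component of `U`.
-/

set_option autoImplicit false

open Filter Topology Pool.Agent.CampanaFlow

namespace Pool.Agent.CampanaK

variable {S : Type} [CommRing S] [Algebra ℂ S] {D : Derivation ℂ S S}

/-- curves over the components of an open set give a curve over the open set -/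
theorem glue_comp {U : Set ℂ} (hU : IsOpen U) (γ₀ : S →ₐ[ℂ] ℂ) (Q : ℂ → (S →ₐ[ℂ] ℂ) → Prop)
    (h : ∀ z ∈ U, ∃ (γ' : ℂ → S →ₐ[ℂ] ℂ) (B' : Set ℂ),
      IsCurve (connectedComponentIn U z) γ' B' ∧
      ∀ w ∈ connectedComponentIn U z, ∀ q, Q w q → w ∉ B' ∧ γ' w = q) :
    ∃ (γ' : ℂ → S →ₐ[ℂ] ℂ) (B' : Set ℂ), IsCurve U γ' B' ∧
      ∀ w ∈ U, ∀ q, Q w q → w ∉ B' ∧ γ' w = q := by
  classical
  let ι : Type := {C : Set ℂ // ∃ z ∈ U, C = connectedComponentIn U z}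
  have hι : ∀ i : ι, ∃ (γ' : ℂ → S →ₐ[ℂ] ℂ) (B' : Set ℂ), IsCurve i.1 γ' B' ∧
      ∀ w ∈ i.1, ∀ q, Q w q → w ∉ B' ∧ γ' w = q := by
    rintro ⟨C, z, hz, rfl⟩
    exact h z hz
  choose γn Bn hcurve hflow using hι
  have hopen : ∀ i : ι, IsOpen i.1 := by
    rintro ⟨C, z, hz, rfl⟩
    exact hU.connectedComponentIn
  have hsame : ∀ i j : ι, ∀ z ∈ i.1, z ∈ j.1 → i = j := by
    rintro ⟨C, x, hx, rfl⟩ ⟨C', x', hx', rfl⟩ z hz hz'
    apply Subtype.ext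
    show connectedComponentIn U x = connectedComponentIn U x'
    rw [connectedComponentIn_eq hz, connectedComponentIn_eq hz']
  obtain ⟨γ', B', hc', hglue⟩ := glue_family (fun i : ι => i.1) hopen γn Bn hcurve γ₀ (by
    intro i j z hz hz' _ _
    rw [hsame i j z hz hz'])
  have hun : ⋃ i : ι, i.1 = U := by
    refine Set.Subset.antisymm (Set.iUnion_subset ?_) ?_
    · rintro ⟨C, z, hz, rfl⟩
      exact connectedComponentIn_subset U z
    · intro z hz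
      exact Set.mem_iUnion.2 ⟨⟨_, z, hz, rfl⟩, mem_connectedComponentIn hz⟩
  rw [hun] at hc'
  refine ⟨γ', B', hc', ?_⟩
  intro w hw q hq
  let i : ι := ⟨_, w, hw, rfl⟩
  have hwi : w ∈ i.1 := mem_connectedComponentIn hw
  obtain ⟨h1, h2⟩ := hflow i w hwi q hq
  obtain ⟨h3, h4⟩ := hglue i w hwi h1
  exact ⟨h3, h4.trans h2⟩

/-- the flow of a curve over an open set, during a locally bounded time, with one good point in
each component. -/
theorem flow_open (cd : ChartData D) {U : Set ℂ} (hU : IsOpen U)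
    {γ : ℂ → S →ₐ[ℂ] ℂ} {B : Set ℂ} (hγ : IsCurve U γ B) (τ : ℂ → ℂ)
    (hτ : ∀ z ∈ U, AnalyticAt ℂ τ z)
    (hb : ∀ z ∈ U, ∃ C : ℝ, ∀ᶠ w in 𝓝 z, w ∉ B → ‖τ w‖ * cd.size (γ w) ≤ C)
    (hg : ∀ z ∈ U, ∃ w₀ ∈ connectedComponentIn U z, w₀ ∉ B ∧
      ∀ᶠ w in 𝓝 w₀, ∃ q, IsFlow D (γ w) (τ w) q) :
    ∃ (γ' : ℂ → S →ₐ[ℂ] ℂ) (B' : Set ℂ), IsCurve U γ' B' ∧
      ∀ w ∈ U, w ∉ B → ∀ q, IsFlow D (γ w) (τ w) q → w ∉ B' ∧ γ' w = q := by
  obtain ⟨γ', B', h1, h2⟩ := glue_comp hU (γ 0)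
    (fun w q => w ∉ B ∧ IsFlow D (γ w) (τ w) q) (by
      intro z hz
      obtain ⟨w₀, hw₀, hw₀B, he⟩ := hg z hz
      have hsub : connectedComponentIn U z ⊆ U := connectedComponentIn_subset U z
      obtain ⟨γ', B', h1, h2⟩ := flow_onU cd hU.connectedComponentIn
        isPreconnected_connectedComponentIn (IsCurve.mono hsub hγ) τ
        (fun y hy => hτ y (hsub hy)) (fun y hy => hb y (hsub hy)) hw₀ hw₀B he
      exact ⟨γ', B', h1, fun w hw q hq => h2 w hw hq.1 q hq.2⟩)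
  exact ⟨γ', B', h1, fun w hw hwB q hq => h2 w hw q ⟨hwB, hq⟩⟩

end Pool.Agent.CampanaK
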