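import Pool.Agent.Lib_MP_1209e6_nt.Tube

/-!
# Convergent power series in `n + 1` variables as a Banach algebra
-/

set_option autoImplicit false
set_option linter.unusedSectionVars false

open scoped BigOperators
open Filter Topology

noncomputable section

namespace Pool.Agent.TubeN

/-- the total degree -/
def deg {n : ℕ} (g : Gam n) : ℕ := (∑ i, g.1 i) + g.2

theorem wP_w (n N : ℕ) (g : Gam n) : (wP n N).w g = rad N ^ deg g := rfl

section mn

variable {n : ℕ} {B : Type} [NormedCommRing B] [NormedAlgebra ℂ B]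

theorem mn_zero (b : Fin n → B) (w : B) : mn b w (0 : Gam n) = 1 := by
  simp [mn]

theorem mn_add (b : Fin n → B) (w : B) (g h : Gam n) :
    mn b w (g + h) = mn b w g * mn b w h := by
  simp only [mn, Prod.fst_add, Prod.snd_add, Pi.add_apply, pow_add, Finset.prod_mul_distrib]
  ring

theorem mn_smul (t : B) (b : Fin n → B) (w : B) (g : Gam n) :
    mn (fun i => t * b i) (t * w) g = t ^ deg g * mn b w g := by
  simp only [mn, deg, mul_pow, Finset.prod_mul_distrib, Finset.prod_pow_eq_pow_sum, pow_add]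
  ring

theorem norm_mn_le [NormOneClass B] {b : Fin n → B} {w : B} {r : ℝ} (hb : ∀ i, ‖b i‖ ≤ r)
    (hw : ‖w‖ ≤ r) (g : Gam n) : ‖mn b w g‖ ≤ r ^ deg g := by
  have hr : 0 ≤ r := (norm_nonneg w).trans hw
  unfold mn deg
  rw [pow_add, ← Finset.prod_pow_eq_pow_sum]
  refine (norm_mul_le _ _).trans (mul_le_mul ?_ ?_ (norm_nonneg _)
    (Finset.prod_nonneg fun i _ => pow_nonneg hr _))
  · refine (Finset.norm_prod_le _ _).trans (Finset.prod_le_prod (fun i _ => norm_nonneg _)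
      fun i _ => ?_)
    exact (norm_pow_le _ _).trans (pow_le_pow_left₀ (norm_nonneg _) (hb i) _)
  · exact (norm_pow_le _ _).trans (pow_le_pow_left₀ (norm_nonneg _) hw _)

/-- two elements of norm at most `ρ ^ k` with difference of the size of `k ρ ^ (k - 1) d` -/
def LipPair (ρ d : ℝ) (k : ℕ) (x y : B) : Prop :=
  ‖x‖ ≤ ρ ^ k ∧ ‖y‖ ≤ ρ ^ k ∧ ρ * ‖x - y‖ ≤ k * ρ ^ k * d

theorem LipPair.one [NormOneClass B] (ρ d : ℝ) : LipPair ρ d 0 (1 : B) 1 := by
  refine ⟨by simp, by simp, by simp⟩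

theorem LipPair.mul {ρ d : ℝ} (hρ : 0 ≤ ρ) (hd : 0 ≤ d) {k l : ℕ} {x y x' y' : B}
    (h : LipPair ρ d k x y) (h' : LipPair ρ d l x' y') : LipPair ρ d (k + l) (x * x') (y * y') := by
  obtain ⟨h1, h2, h3⟩ := h
  obtain ⟨h1', h2', h3'⟩ := h'
  refine ⟨?_, ?_, ?_⟩
  · rw [pow_add]
    exact (norm_mul_le _ _).trans (mul_le_mul h1 h1' (norm_nonneg _) (pow_nonneg hρ _))
  · rw [pow_add]
    exact (norm_mul_le _ _).trans (mul_le_mul h2 h2' (norm_nonneg _) (pow_nonneg hρ _))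
  · have e : x * x' - y * y' = (x - y) * x' + y * (x' - y') := by ring
    have h4 : ‖x * x' - y * y'‖ ≤ ‖x - y‖ * ‖x'‖ + ‖y‖ * ‖x' - y'‖ := by
      rw [e]
      exact (norm_add_le _ _).trans (add_le_add (norm_mul_le _ _) (norm_mul_le _ _))
    calc ρ * ‖x * x' - y * y'‖ ≤ ρ * (‖x - y‖ * ‖x'‖ + ‖y‖ * ‖x' - y'‖) :=
          mul_le_mul_of_nonneg_left h4 hρ
      _ = (ρ * ‖x - y‖) * ‖x'‖ + ‖y‖ * (ρ * ‖x' - y'‖) := by ring
      _ ≤ (k * ρ ^ k * d) * ρ ^ l + ρ ^ k * (l * ρ ^ l * d) := by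
          refine add_le_add (mul_le_mul h3 h1' (norm_nonneg _) (by positivity))
            (mul_le_mul h2 h3' (by positivity) (by positivity))
      _ = ((k + l : ℕ) : ℝ) * ρ ^ (k + l) * d := by push_cast; ring

theorem LipPair.pow [NormOneClass B] {ρ d : ℝ} (hρ : 0 ≤ ρ) (hd : 0 ≤ d) {x y : B}
    (h : LipPair ρ d 1 x y) (k : ℕ) : LipPair ρ d k (x ^ k) (y ^ k) := by
  induction k with
  | zero => rw [pow_zero, pow_zero]; exact LipPair.one ρ d
  | succ k ih => rw [pow_succ, pow_succ]; exact ih.mul hρ hd h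

theorem LipPair.prod [NormOneClass B] {ρ d : ℝ} (hρ : 0 ≤ ρ) (hd : 0 ≤ d) {ι : Type*}
    (s : Finset ι) (k : ι → ℕ) (x y : ι → B) (h : ∀ i ∈ s, LipPair ρ d (k i) (x i) (y i)) :
    LipPair ρ d (∑ i ∈ s, k i) (∏ i ∈ s, x i) (∏ i ∈ s, y i) := by
  classical
  induction s using Finset.induction_on with
  | empty => simpa using LipPair.one ρ d
  | insert a s ha ih =>
    rw [Finset.sum_insert ha, Finset.prod_insert ha, Finset.prod_insert ha]
    exact (h a (Finset.mem_insert_self a s)).mul hρ hd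
      (ih fun i hi => h i (Finset.mem_insert_of_mem hi))

theorem LipPair.base {ρ d : ℝ} (hρ : 0 ≤ ρ) {x y : B} (hx : ‖x‖ ≤ ρ) (hy : ‖y‖ ≤ ρ)
    (hxy : ‖x - y‖ ≤ d) : LipPair ρ d 1 x y :=
  ⟨by rwa [pow_one], by rwa [pow_one], by
    rw [pow_one, Nat.cast_one, one_mul]; exact mul_le_mul_of_nonneg_left hxy hρ⟩

theorem mn_sub_le [NormOneClass B] {b b' : Fin n → B} {w w' : B} {ρ d : ℝ} (hρ : 0 < ρ)
    (hb : ∀ i, ‖b i‖ ≤ ρ) (hb' : ∀ i, ‖b' i‖ ≤ ρ) (hw : ‖w‖ ≤ ρ) (hw' : ‖w'‖ ≤ ρ)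
    (hd : ∀ i, ‖b i - b' i‖ ≤ d) (hd' : ‖w - w'‖ ≤ d) (g : Gam n) :
    ‖mn b w g - mn b' w' g‖ ≤ ρ⁻¹ * (deg g * ρ ^ deg g * d) := by
  have hd0 : 0 ≤ d := (norm_nonneg _).trans hd'
  have h1 : LipPair ρ d (deg g) (mn b w g) (mn b' w' g) := by
    unfold mn deg
    refine LipPair.mul hρ.le hd0 (LipPair.prod hρ.le hd0 _ _ _ _ fun i _ => ?_) ?_
    · exact LipPair.pow hρ.le hd0 (LipPair.base hρ.le (hb i) (hb' i) (hd i)) _
    · exact LipPair.pow hρ.le hd0 (LipPair.base hρ.le hw hw' hd') _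
  have h2 := h1.2.2
  rw [inv_mul_eq_div, le_div_iff₀ hρ, mul_comm]
  exact h2

end mn

section ev

variable {n N : ℕ} {B : Type} [NormedCommRing B] [NormedAlgebra ℂ B]
variable [CompleteSpace B] [NormOneClass B]

/-- evaluation as an algebra homomorphism -/
def evHom (b : Fin n → B) (w : B) (hb : ∀ i, ‖b i‖ ≤ rad N) (hw : ‖w‖ ≤ rad N) : PS n N →ₐ[ℂ] B :=
  L1.hom (mn b w) (mn_zero b w) (mn_add b w) (fun g => norm_mn_le hb hw g)

theorem evHom_apply (b : Fin n → B) (w : B) (hb : ∀ i, ‖b i‖ ≤ rad N) (hw : ‖w‖ ≤ rad N)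
    (f : PS n N) : evHom b w hb hw f = evB b w f := rfl

theorem evHom_continuous (b : Fin n → B) (w : B) (hb : ∀ i, ‖b i‖ ≤ rad N) (hw : ‖w‖ ≤ rad N) :
    Continuous (evHom b w hb hw : PS n N → B) := L1.hom_continuous _ _ _ _

theorem summ_evB {b : Fin n → B} {w : B} (hb : ∀ i, ‖b i‖ ≤ rad N) (hw : ‖w‖ ≤ rad N)
    (f : PS n N) : Summable fun g => ‖f.co g • mn b w g‖ :=
  L1.summ_hom (ω := wP n N) (fun g => norm_mn_le hb hw g) f

theorem norm_evB_le {b : Fin n → B} {w : B} (hb : ∀ i, ‖b i‖ ≤ rad N) (hw : ‖w‖ ≤ rad N)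
    (f : PS n N) : ‖evB b w f‖ ≤ ‖f‖ := by
  rw [← evHom_apply b w hb hw]
  exact L1.norm_hom_le _ _ _ _ f

theorem evB_add {b : Fin n → B} {w : B} (hb : ∀ i, ‖b i‖ ≤ rad N) (hw : ‖w‖ ≤ rad N)
    (f f' : PS n N) : evB b w (f + f') = evB b w f + evB b w f' := by
  simp only [← evHom_apply b w hb hw, map_add]

theorem evB_sub {b : Fin n → B} {w : B} (hb : ∀ i, ‖b i‖ ≤ rad N) (hw : ‖w‖ ≤ rad N)
    (f f' : PS n N) : evB b w (f - f') = evB b w f - evB b w f' := by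
  simp only [← evHom_apply b w hb hw, map_sub]

theorem evB_mul {b : Fin n → B} {w : B} (hb : ∀ i, ‖b i‖ ≤ rad N) (hw : ‖w‖ ≤ rad N)
    (f f' : PS n N) : evB b w (f * f') = evB b w f * evB b w f' := by
  simp only [← evHom_apply b w hb hw, map_mul]

theorem evB_mono (b : Fin n → B) (w : B) (g : Gam n) (c : ℂ) :
    evB b w (L1.mono (wP n N) g c) = c • mn b w g := by
  unfold evB
  rw [tsum_eq_single g, L1.co_mono_self]
  intro j hj
  rw [L1.co_mono_ne hj, zero_smul]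

theorem mn_single (b : Fin n → B) (w : B) (i : Fin n) : mn b w (Pi.single i 1, 0) = b i := by
  unfold mn
  rw [pow_zero, mul_one, Finset.prod_eq_single i]
  · simp
  · intro j _ hj
    simp [Pi.single_eq_of_ne hj]
  · intro h
    exact absurd (Finset.mem_univ i) h

theorem evB_Xv (b : Fin n → B) (w : B) (i : Fin n) : evB b w (Xv n N i) = b i := by
  unfold Xv
  rw [evB_mono, one_smul, mn_single]

theorem evB_Wv (b : Fin n → B) (w : B) : evB b w (Wv n N) = w := by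
  unfold Wv
  rw [evB_mono, one_smul]
  simp [mn]

theorem evB_algebraMap (b : Fin n → B) (w : B) (c : ℂ) :
    evB b w (algebraMap ℂ (PS n N) c) = algebraMap ℂ B c := by
  rw [L1.algebraMap_eq, evB_mono, mn_zero, Algebra.algebraMap_eq_smul_one]

/-- PS1: evaluation -/
theorem ps_eval (b : Fin n → B) (w : B) (hb : ∀ i, ‖b i‖ ≤ rad N) (hw : ‖w‖ ≤ rad N) :
    ∃ e : PS n N →ₐ[ℂ] B, (∀ f, e f = evB b w f) ∧ (∀ f, ‖e f‖ ≤ ‖f‖) ∧ Continuous e ∧
      (∀ i, e (Xv n N i) = b i) ∧ e (Wv n N) = w :=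
  ⟨evHom b w hb hw, fun f => evHom_apply b w hb hw f, fun f => norm_evB_le hb hw f,
    evHom_continuous b w hb hw, fun i => evB_Xv b w i, evB_Wv b w⟩

/-- Lipschitz estimate on the half ball -/
theorem evB_lip {b b' : Fin n → B} {w w' : B} {d : ℝ} (hb : ∀ i, ‖b i‖ ≤ rad N / 2)
    (hb' : ∀ i, ‖b' i‖ ≤ rad N / 2) (hw : ‖w‖ ≤ rad N / 2) (hw' : ‖w'‖ ≤ rad N / 2)
    (hd : ∀ i, ‖b i - b' i‖ ≤ d) (hd' : ‖w - w'‖ ≤ d) (f : PS n N) :
    ‖evB b w f - evB b' w' f‖ ≤ 2 / rad N * d * ‖f‖ := by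
  have hr := rad_pos N
  have hd0 : 0 ≤ d := (norm_nonneg _).trans hd'
  have h : ∀ g : Gam n, ‖mn b w g - mn b' w' g‖ ≤ 2 / rad N * d * (wP n N).w g := by
    intro g
    refine (mn_sub_le (by positivity) hb hb' hw hw' hd hd' g).trans ?_
    rw [wP_w, div_pow]
    have h2 : (deg g : ℝ) ≤ 2 ^ deg g := by exact_mod_cast (Nat.lt_two_pow_self).le
    have h3 : (deg g : ℝ) * (rad N ^ deg g / 2 ^ deg g) ≤ rad N ^ deg g := by
      rw [← mul_div_assoc, div_le_iff₀ (by positivity), mul_comm]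
      exact mul_le_mul_of_nonneg_left h2 (by positivity)
    calc (rad N / 2)⁻¹ * ((deg g : ℝ) * (rad N ^ deg g / 2 ^ deg g) * d)
        ≤ (rad N / 2)⁻¹ * (rad N ^ deg g * d) := by
          refine mul_le_mul_of_nonneg_left (mul_le_mul_of_nonneg_right h3 hd0) (by positivity)
      _ = 2 / rad N * d * rad N ^ deg g := by rw [inv_div]; ring
  have h1 := L1.norm_lin_apply_le (ω := wP n N) (φ := fun g => mn b w g - mn b' w' g) h f
  rw [L1.lin_apply] at h1
  have hh : rad N / 2 ≤ rad N := by linarith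
  have e : ∑' g, f.co g • (mn b w g - mn b' w' g) = evB b w f - evB b' w' f := by
    unfold evB
    rw [← (summ_evB (fun i => (hb i).trans hh) (hw.trans hh) f).of_norm.tsum_sub
      (summ_evB (fun i => (hb' i).trans hh) (hw'.trans hh) f).of_norm]
    exact tsum_congr fun g => by rw [smul_sub]
  rw [e] at h1
  exact h1

/-- naturality -/
theorem map_evB {B' : Type} [NormedCommRing B'] [NormedAlgebra ℂ B'] (Θ : B →ₐ[ℂ] B')
    (hΘ : Continuous Θ) {b : Fin n → B} {w : B} (hb : ∀ i, ‖b i‖ ≤ rad N) (hw : ‖w‖ ≤ rad N)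
    (f : PS n N) : Θ (evB b w f) = evB (fun i => Θ (b i)) (Θ w) f := by
  have h1 := (summ_evB hb hw f).of_norm.hasSum
  have h2 := h1.map Θ.toLinearMap.toAddMonoidHom hΘ
  unfold evB
  rw [← (show _ = Θ (∑' g, f.co g • mn b w g) from h2.tsum_eq)]
  refine tsum_congr fun g => ?_
  change Θ (f.co g • mn b w g) = _
  rw [map_smul]
  congr 1
  unfold mn
  rw [map_mul, map_prod, map_pow]
  simp only [map_pow]

/-- substitution -/
theorem evB_evB {n' N' : ℕ} {b : Fin n' → B} {w : B} (hb : ∀ i, ‖b i‖ ≤ rad N')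
    (hw : ‖w‖ ≤ rad N') {u : Fin n → PS n' N'} {v : PS n' N'} (hu : ∀ i, ‖u i‖ ≤ rad N)
    (hv : ‖v‖ ≤ rad N) (f : PS n N) :
    evB b w (evB u v f) = evB (fun i => evB b w (u i)) (evB b w v) f :=
  map_evB (evHom b w hb hw) (evHom_continuous b w hb hw) hu hv f

end ev

/-- PS2: Lipschitz -/
theorem ps_lip {n N : ℕ} (f : PS n N) : ∃ C : ℝ, 0 ≤ C ∧ ∀ {B : Type} [NormedCommRing B]
    [NormedAlgebra ℂ B] [CompleteSpace B] [NormOneClass B] (b b' : Fin n → B) (w w' : B) (d : ℝ),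
    (∀ i, ‖b i‖ ≤ rad N / 2) → (∀ i, ‖b' i‖ ≤ rad N / 2) → ‖w‖ ≤ rad N / 2 → ‖w'‖ ≤ rad N / 2 →
    (∀ i, ‖b i - b' i‖ ≤ d) → ‖w - w'‖ ≤ d → ‖evB b w f - evB b' w' f‖ ≤ C * d := by
  have hr := rad_pos N
  refine ⟨2 / rad N * ‖f‖, by positivity, ?_⟩
  intro B _ _ _ _ b b' w w' d hb hb' hw hw' hd hd'
  refine (evB_lip hb hb' hw hw' hd hd' f).trans (le_of_eq ?_)
  ring

section div

variable {n N : ℕ}

/-- a power series which vanishes for `w = 0` is divisible by `w` -/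
theorem exists_div (f : PS n N) (h : ∀ ν : Fin n → ℕ, f.co (ν, 0) = 0) :
    ∃ g : PS n N, f = Wv n N * g ∧ ‖g‖ ≤ (rad N)⁻¹ * ‖f‖ ∧
      ∀ γ : Gam n, g.co γ = f.co (γ.1, γ.2 + 1) := by
  have hr := rad_pos N
  let ψ : Gam n → Gam n := fun γ => (γ.1, γ.2 + 1)
  have hψ : Function.Injective ψ := by
    intro a b hab
    have h1 := Prod.ext_iff.1 hab
    exact Prod.ext h1.1 (Nat.succ_injective h1.2)
  have hw : ∀ γ : Gam n, (wP n N).w γ = (rad N)⁻¹ * (wP n N).w (ψ γ) := by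
    intro γ
    have e : deg (ψ γ) = deg γ + 1 := by simp only [deg, ψ]; ring
    rw [wP_w, wP_w, e, pow_succ, mul_comm (rad N ^ deg γ), ← mul_assoc, inv_mul_cancel₀ hr.ne',
      one_mul]
  have hs : Summable fun γ : Gam n => ‖f.co (ψ γ)‖ * (wP n N).w γ := by
    have h1 : Summable fun γ : Gam n => ‖f.co (ψ γ)‖ * (wP n N).w (ψ γ) :=
      f.summ.comp_injective hψ
    refine (h1.mul_left (rad N)⁻¹).congr fun γ => ?_
    rw [hw γ]; ring
  let g : PS n N := L1.ofSeq (fun γ => f.co (ψ γ)) hs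
  have hg : ∀ γ, g.co γ = f.co (ψ γ) := fun γ => L1.co_ofSeq _ _ _
  refine ⟨g, ?_, ?_, fun γ => hg γ⟩
  · have h1 : HasSum (fun γ => Wv n N * L1.mono (wP n N) γ (g.co γ)) (Wv n N * g) :=
      (L1.hasSum_mono g).mul_left (Wv n N)
    have h2 : HasSum (fun δ => L1.mono (wP n N) δ (f.co δ)) f := L1.hasSum_mono f
    have h3 : HasSum ((fun δ => L1.mono (wP n N) δ (f.co δ)) ∘ ψ) f := by
      rw [hψ.hasSum_iff]
      · exact h2
      · intro δ hδ
        have h4 : δ.2 = 0 := by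
          by_contra h5
          apply hδ
          refine ⟨(δ.1, δ.2 - 1), ?_⟩
          simp only [ψ]
          exact Prod.ext rfl (Nat.succ_pred_eq_of_ne_zero h5)
        have h5 : f.co δ = 0 := by
          have : δ = (δ.1, 0) := Prod.ext rfl h4
          rw [this]; exact h δ.1
        rw [h5, L1.mono_eq, zero_smul]
    have e : ((fun δ => L1.mono (wP n N) δ (f.co δ)) ∘ ψ) =
        fun γ => Wv n N * L1.mono (wP n N) γ (g.co γ) := by
      funext γ
      simp only [Function.comp_apply, Wv]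
      rw [L1.mono_mul_mono, one_mul, hg]
      congr 1
      simp only [ψ]
      refine Prod.ext ?_ ?_
      · simp
      · simp [add_comm]
    rw [e] at h3
    exact h3.unique h1
  · rw [L1.norm_eq, L1.norm_eq, ← tsum_mul_left]
    have h1 : Summable fun δ : Gam n => (rad N)⁻¹ * (‖f.co δ‖ * (wP n N).w δ) :=
      f.summ.mul_left _
    have h2 : ∀ γ, ‖g.co γ‖ * (wP n N).w γ =
        (fun δ : Gam n => (rad N)⁻¹ * (‖f.co δ‖ * (wP n N).w δ)) (ψ γ) := by
      intro γ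
      simp only
      rw [hg, hw γ]; ring
    rw [tsum_congr h2]
    exact tsum_comp_le_tsum_of_inj h1
      (fun δ => mul_nonneg (by positivity) (mul_nonneg (norm_nonneg _) ((wP n N).pos δ).le)) hψ

/-- PS3: divisibility by `w` -/
theorem ps_div (f : PS n N) (h : ∀ ν : Fin n → ℕ, f.co (ν, 0) = 0) :
    ∃ g : PS n N, f = Wv n N * g := by
  obtain ⟨g, hg, _⟩ := exists_div f h
  exact ⟨g, hg⟩

variable {B : Type} [NormedCommRing B] [NormedAlgebra ℂ B] [CompleteSpace B] [NormOneClass B]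

/-- values of a power series which vanishes for `w = 0` -/
theorem norm_evB_le_of_zero {f : PS n N} (h : ∀ ν : Fin n → ℕ, f.co (ν, 0) = 0) {b : Fin n → B}
    {w : B} (hb : ∀ i, ‖b i‖ ≤ rad N) (hw : ‖w‖ ≤ rad N) :
    ‖evB b w f‖ ≤ ‖w‖ * ((rad N)⁻¹ * ‖f‖) := by
  obtain ⟨g, hg, hn, _⟩ := exists_div f h
  have e : evB b w f = w * evB b w g := by
    conv_lhs => rw [hg]
    rw [evB_mul hb hw, evB_Wv]
  rw [e]
  exact (norm_mul_le _ _).trans (mul_le_mul_of_nonneg_left ((norm_evB_le hb hw g).trans hn)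
    (norm_nonneg _))

/-- Lipschitz estimate for a power series which vanishes for `w = 0` -/
theorem evB_lip_of_zero {f : PS n N} (h : ∀ ν : Fin n → ℕ, f.co (ν, 0) = 0) {b b' : Fin n → B}
    {w : B} {d : ℝ} (hb : ∀ i, ‖b i‖ ≤ rad N / 2) (hb' : ∀ i, ‖b' i‖ ≤ rad N / 2)
    (hw : ‖w‖ ≤ rad N / 2) (hd0 : 0 ≤ d) (hd : ∀ i, ‖b i - b' i‖ ≤ d) :
    ‖evB b w f - evB b' w f‖ ≤ ‖w‖ * (2 / rad N * d * ((rad N)⁻¹ * ‖f‖)) := by
  have hr := rad_pos N
  have hh : rad N / 2 ≤ rad N := by linarith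
  obtain ⟨g, hg, hn, _⟩ := exists_div f h
  have e : ∀ b : Fin n → B, (∀ i, ‖b i‖ ≤ rad N / 2) → evB b w f = w * evB b w g := by
    intro b hb
    conv_lhs => rw [hg]
    rw [evB_mul (fun i => (hb i).trans hh) (hw.trans hh), evB_Wv]
  rw [e b hb, e b' hb', ← mul_sub]
  refine (norm_mul_le _ _).trans (mul_le_mul_of_nonneg_left ?_ (norm_nonneg _))
  refine (evB_lip hb hb' hw hw hd (by rw [sub_self, norm_zero]; exact hd0) g).trans ?_
  exact mul_le_mul_of_nonneg_left hn (by positivity)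

end div

/-- PS4: analyticity -/
theorem ps_ana {n N : ℕ} (f : PS n N) (t₀ : ℂ) (b : ℂ → Fin n → ℂ) (w : ℂ → ℂ)
    (hb : ∀ i, AnalyticAt ℂ (fun t => b t i) t₀) (hw : AnalyticAt ℂ w t₀)
    (h1 : ∀ i, ‖b t₀ i‖ < rad N) (h2 : ‖w t₀‖ < rad N) :
    AnalyticAt ℂ (fun t => evB (b t) (w t) f) t₀ := by
  have e1 : ∀ᶠ t in 𝓝 t₀, ∀ i, AnalyticAt ℂ (fun t => b t i) t :=
    Filter.eventually_all.2 fun i => (hb i).eventually_analyticAt
  have e2 : ∀ᶠ t in 𝓝 t₀, AnalyticAt ℂ w t := hw.eventually_analyticAt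
  have e3 : ∀ᶠ t in 𝓝 t₀, ∀ i, ‖b t i‖ < rad N :=
    Filter.eventually_all.2 fun i => (hb i).continuousAt.norm.eventually_lt_const (h1 i)
  have e4 : ∀ᶠ t in 𝓝 t₀, ‖w t‖ < rad N := hw.continuousAt.norm.eventually_lt_const h2
  obtain ⟨U, hU, hUo, ht⟩ := eventually_nhds_iff.1 (((e1.and e2).and e3).and e4)
  have hd : DifferentiableOn ℂ (fun t => ∑' g, f.co g • mn (b t) (w t) g) U := by
    refine Complex.differentiableOn_tsum_of_summable_norm (u := fun g => ‖f.co g‖ * (wP n N).w g) f.summ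
      (fun g => ?_) hUo (fun g t htU => ?_)
    · intro t htU
      refine DifferentiableAt.differentiableWithinAt ?_
      have ha : AnalyticAt ℂ (fun t => mn (b t) (w t) g) t := by
        unfold mn
        refine AnalyticAt.mul ?_ ((hU t htU).1.1.2.pow _)
        exact Finset.analyticAt_fun_prod _ fun i _ => ((hU t htU).1.1.1 i).pow _
      exact ha.differentiableAt.const_smul (f.co g : ℂ)
    · rw [norm_smul, wP_w]
      exact mul_le_mul_of_nonneg_left (norm_mn_le (fun i => ((hU t htU).1.2 i).le)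
        (hU t htU).2.le g) (norm_nonneg _)
  exact hd.analyticAt (hUo.mem_nhds ht)

end Pool.Agent.TubeN
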