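import Pool.Agent.Lib_MP_1209e6_fl.D7
import Pool.Agent.Lib_MP_1209e6_ag.Der
import Pool.Agent.Lib_MP_1209e6_k3.Unram

/-!
# Line N of MP_1209e6_ag: the rings

`R ⊆ K`, the rings `SL a ⊆ L a` of the models and the common ring `S ⊆ M`, stable under all derivations,
integral over `R` up to powers of a unit.
-/

set_option autoImplicit false

namespace Pool.Agent.CampanaNT

open Pool.Agent.Campana Pool.Agent.CampanaFlow

/-- incomparability of primes, the ring above being integral up to powers of a unit from below -/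
theorem incomparable_of_unit {R S : Type} [CommRing R] [CommRing S] (i : R →+* S) (b : R)
    (hb : IsUnit (i b)) (hint : ∀ f : S, ∃ m : ℕ, i.IsIntegralElem (i b ^ m * f))
    (Q P : Ideal S) (hQ : Q.IsPrime) (_hP : P.IsPrime) (hQP : Q ≤ P)
    (htr : P.comap i ≤ Q.comap i) : Q = P := by
  by_contra hne
  let _ := i.toAlgebra
  obtain ⟨x, hxP, hxQ⟩ := Set.not_subset.1 (fun h => hne (le_antisymm hQP h) : ¬ ((P : Set S) ⊆ Q))
  obtain ⟨m, hm⟩ := hint x
  have h1 : i b ^ m * x ∈ P := P.mul_mem_left _ hxP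
  have h2 : i b ^ m * x ∉ Q := by
    intro h
    rcases hQ.mem_or_mem h with h3 | h3
    · exact hQ.ne_top (Ideal.eq_top_of_isUnit_mem _ h3 (hb.pow m))
    · exact hxQ h3
  have h4 : Q.comap (algebraMap R S) < P.comap (algebraMap R S) :=
    Ideal.comap_lt_comap_of_integral_mem_sdiff hQP ⟨h1, h2⟩ hm
  exact absurd htr (not_le_of_gt h4)

section ring

variable {K M : Type} [Field K] [Field M] [Algebra ℂ K] [Algebra ℂ M] [Algebra K M]
  [IsScalarTower ℂ K M]

/-- a common denominator in `R` for an element of a finite extension -/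
theorem denom_mem [FiniteDimensional K M] (R : Subalgebra ℂ K)
    (hfrac : ∀ u : K, ∃ r ∈ R, ∃ s ∈ R, s ≠ 0 ∧ u = r / s) (S₀ : Subalgebra ℂ M)
    (hR : ∀ r ∈ R, algebraMap K M r ∈ S₀) {κ : Type} (B : Module.Basis κ K M)
    (hB : ∀ i, B i ∈ S₀) (u : M) :
    ∃ r ∈ R, r ≠ 0 ∧ algebraMap K M r * u ∈ S₀ := by
  have hu : u ∈ Submodule.span K (Set.range B) := by
    rw [B.span_eq]
    trivial
  induction hu using Submodule.span_induction with
  | mem x hx =>
    obtain ⟨i, rfl⟩ := hx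
    exact ⟨1, R.one_mem, one_ne_zero, by rw [map_one, one_mul]; exact hB i⟩
  | zero => exact ⟨1, R.one_mem, one_ne_zero, by rw [mul_zero]; exact S₀.zero_mem⟩
  | add x y _ _ hx hy =>
    obtain ⟨r, hr, hr0, h1⟩ := hx
    obtain ⟨s, hs, hs0, h2⟩ := hy
    refine ⟨r * s, R.mul_mem hr hs, mul_ne_zero hr0 hs0, ?_⟩
    have e : algebraMap K M (r * s) * (x + y) =
        algebraMap K M s * (algebraMap K M r * x) + algebraMap K M r * (algebraMap K M s * y) := by
      rw [map_mul]; ring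
    rw [e]
    exact S₀.add_mem (S₀.mul_mem (hR s hs) h1) (S₀.mul_mem (hR r hr) h2)
  | smul c x _ hx =>
    obtain ⟨r, hr, hr0, h1⟩ := hx
    obtain ⟨a, ha, s, hs, hs0, hc⟩ := hfrac c
    refine ⟨r * s, R.mul_mem hr hs, mul_ne_zero hr0 hs0, ?_⟩
    have hs' : algebraMap K M s ≠ 0 := (map_ne_zero _).2 hs0
    have e : algebraMap K M (r * s) * (c • x) =
        algebraMap K M a * (algebraMap K M r * x) := by
      rw [Algebra.smul_def, hc, map_mul, map_div₀]
      field_simp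
    rw [e]
    exact S₀.mul_mem (hR a ha) h1

/-- an integral multiple of an element of a finite extension -/
theorem denom_int [FiniteDimensional K M] (R : Subalgebra ℂ K)
    (hfrac : ∀ u : K, ∃ r ∈ R, ∃ s ∈ R, s ≠ 0 ∧ u = r / s) (u : M) :
    ∃ r ∈ R, r ≠ 0 ∧ IsIntegral R (algebraMap K M r * u) := by
  have hfr : IsFractionRing R K := by
    refine IsFractionRing.of_field R K fun z => ?_
    obtain ⟨r, hr, s, hs, hs0, h⟩ := hfrac z
    exact ⟨⟨r, hr⟩, ⟨s, hs⟩, h⟩
  have h1 : IsAlgebraic K u := (Algebra.IsAlgebraic.of_finite K M).isAlgebraic u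
  have h2 : IsAlgebraic R u := (IsFractionRing.isAlgebraic_iff R K M).2 h1
  obtain ⟨y, hy, h3⟩ := h2.exists_integral_multiple
  refine ⟨y, y.2, fun h => hy (Subtype.ext h), ?_⟩
  rw [Algebra.smul_def] at h3
  exact h3

/-- the elements a multiple of which by a power of `b` is integral form a subalgebra -/
theorem int_adjoin (R : Subalgebra ℂ K) (b : R) (G : Set M)
    (hG : ∀ g ∈ G, ∃ m : ℕ, IsIntegral R (algebraMap R M b ^ m * g)) :
    ∀ f ∈ Algebra.adjoin ℂ G, ∃ m : ℕ, IsIntegral R (algebraMap R M b ^ m * f) := by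
  have hb : IsIntegral R (algebraMap R M b) := isIntegral_algebraMap
  intro f hf
  induction hf using Algebra.adjoin_induction with
  | mem x hx => exact hG x hx
  | algebraMap c =>
    refine ⟨0, ?_⟩
    rw [pow_zero, one_mul]
    have e : algebraMap ℂ M c = algebraMap R M (algebraMap ℂ R c) := by
      rw [← IsScalarTower.algebraMap_apply]
    rw [e]
    exact isIntegral_algebraMap
  | add x y _ _ hx hy =>
    obtain ⟨m, hm⟩ := hx
    obtain ⟨n, hn⟩ := hy
    refine ⟨m + n, ?_⟩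
    have e : algebraMap R M b ^ (m + n) * (x + y) =
        algebraMap R M b ^ n * (algebraMap R M b ^ m * x) +
        algebraMap R M b ^ m * (algebraMap R M b ^ n * y) := by ring
    rw [e]
    exact ((hb.pow n).mul hm).add ((hb.pow m).mul hn)
  | mul x y _ _ hx hy =>
    obtain ⟨m, hm⟩ := hx
    obtain ⟨n, hn⟩ := hy
    refine ⟨m + n, ?_⟩
    have e : algebraMap R M b ^ (m + n) * (x * y) =
        (algebraMap R M b ^ m * x) * (algebraMap R M b ^ n * y) := by ring
    rw [e]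
    exact hm.mul hn

/-- **The stable ring.** -/
theorem exists_stable_ring [FiniteDimensional K M] (R : Subalgebra ℂ K) (hRfg : R.FG)
    (hfrac : ∀ u : K, ∃ r ∈ R, ∃ s ∈ R, s ≠ 0 ∧ u = r / s) (G : Finset M) {ι : Type} [Finite ι]
    (E : ι → Derivation ℂ M M) :
    ∃ (S : Subalgebra ℂ M) (b : R), b ≠ 0 ∧ S.FG ∧ (G : Set M) ⊆ S ∧
      (∀ r ∈ R, algebraMap K M r ∈ S) ∧ (algebraMap K M b)⁻¹ ∈ S ∧ (∀ i, ∀ f ∈ S, E i f ∈ S) ∧
      ∀ f ∈ S, ∃ m : ℕ, IsIntegral R (algebraMap K M b ^ m * f) := by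
  classical
  haveI : Fintype ι := Fintype.ofFinite ι
  obtain ⟨GR, hGR⟩ := hRfg
  let B := Module.finBasis K M
  let G₀ : Finset M := G ∪ Finset.univ.image B ∪ GR.image (algebraMap K M)
  let S₀ : Subalgebra ℂ M := Algebra.adjoin ℂ (G₀ : Set M)
  have hG₀S : ∀ g ∈ G₀, g ∈ S₀ := fun g hg => Algebra.subset_adjoin (Finset.mem_coe.2 hg)
  have hRS₀ : ∀ r ∈ R, algebraMap K M r ∈ S₀ := by
    intro r hr
    rw [← hGR] at hr
    induction hr using Algebra.adjoin_induction with
    | mem x hx =>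
      exact hG₀S _ (Finset.mem_union_right _ (Finset.mem_image_of_mem _ hx))
    | algebraMap c =>
      rw [← IsScalarTower.algebraMap_apply]
      exact S₀.algebraMap_mem c
    | add x y _ _ hx hy => rw [map_add]; exact S₀.add_mem hx hy
    | mul x y _ _ hx hy => rw [map_mul]; exact S₀.mul_mem hx hy
  have hB : ∀ i, B i ∈ S₀ := fun i => hG₀S _ (Finset.mem_union_left _
    (Finset.mem_union_right _ (Finset.mem_image_of_mem _ (Finset.mem_univ i))))
  have hden := denom_mem R hfrac S₀ hRS₀ B hB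
  choose r hrR hr0 hrS using hden
  choose c hcR hc0 hcI using fun u : M => denom_int R hfrac u
  let b : K := (∏ g ∈ G₀, c g) * ∏ i, ∏ g ∈ G₀, r (E i g)
  have hbR : b ∈ R := R.mul_mem (Subalgebra.prod_mem _ fun g _ => hcR g)
    (Subalgebra.prod_mem _ fun i _ => Subalgebra.prod_mem _ fun g _ => hrR _)
  have hb0 : b ≠ 0 := mul_ne_zero (Finset.prod_ne_zero_iff.2 fun g _ => hc0 g)
    (Finset.prod_ne_zero_iff.2 fun i _ => Finset.prod_ne_zero_iff.2 fun g _ => hr0 _)
  have hbM : algebraMap K M b ≠ 0 := (map_ne_zero _).2 hb0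
  -- the cofactors
  have hcof1 : ∀ g ∈ G₀, ∃ t ∈ R, b = c g * t := by
    intro g hg
    refine ⟨(∏ g' ∈ G₀.erase g, c g') * ∏ i, ∏ g ∈ G₀, r (E i g),
      R.mul_mem (Subalgebra.prod_mem _ fun g _ => hcR g)
        (Subalgebra.prod_mem _ fun i _ => Subalgebra.prod_mem _ fun g _ => hrR _), ?_⟩
    rw [← mul_assoc, Finset.mul_prod_erase G₀ c hg]
  have hcof2 : ∀ i, ∀ g ∈ G₀, ∃ t ∈ R, b = r (E i g) * t := by
    intro i g hg
    refine ⟨(∏ g ∈ G₀, c g) * ((∏ g' ∈ G₀.erase g, r (E i g')) *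
      ∏ i' ∈ Finset.univ.erase i, ∏ g ∈ G₀, r (E i' g)),
      R.mul_mem (Subalgebra.prod_mem _ fun g _ => hcR g)
        (R.mul_mem (Subalgebra.prod_mem _ fun g _ => hrR _)
          (Subalgebra.prod_mem _ fun i _ => Subalgebra.prod_mem _ fun g _ => hrR _)), ?_⟩
    have h1 : ∏ i, ∏ g ∈ G₀, r (E i g) = (r (E i g) * ∏ g' ∈ G₀.erase g, r (E i g')) *
        ∏ i' ∈ Finset.univ.erase i, ∏ g ∈ G₀, r (E i' g) := by
      rw [Finset.mul_prod_erase G₀ (fun g => r (E i g)) hg,
        Finset.mul_prod_erase Finset.univ (fun i => ∏ g ∈ G₀, r (E i g)) (Finset.mem_univ i)]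
    show (∏ g ∈ G₀, c g) * ∏ i, ∏ g ∈ G₀, r (E i g) = _
    rw [h1]
    ring
  let S : Subalgebra ℂ M := Algebra.adjoin ℂ ((insert (algebraMap K M b)⁻¹ G₀ : Finset M) : Set M)
  have hle : S₀ ≤ S := Algebra.adjoin_mono fun x hx =>
    Finset.mem_coe.2 (Finset.mem_insert_of_mem (Finset.mem_coe.1 hx))
  have hbi : (algebraMap K M b)⁻¹ ∈ S :=
    Algebra.subset_adjoin (Finset.mem_coe.2 (Finset.mem_insert_self _ _))
  have hES : ∀ i, ∀ g ∈ G₀, E i g ∈ S := by
    intro i g hg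
    obtain ⟨t, ht, hbt⟩ := hcof2 i g hg
    have h1 : algebraMap K M (r (E i g)) ≠ 0 := (map_ne_zero _).2 (hr0 _)
    have e : E i g = (algebraMap K M b)⁻¹ * (algebraMap K M t *
        (algebraMap K M (r (E i g)) * E i g)) := by
      rw [eq_inv_mul_iff_mul_eq₀ hbM]
      conv_lhs => rw [hbt, map_mul]
      ring
    rw [e]
    exact S.mul_mem hbi (S.mul_mem (hle (hRS₀ t ht)) (hle (hrS _)))
  have hES₀ : ∀ i, ∀ f ∈ S₀, E i f ∈ S := fun i => D7_pres (E i) S (G₀ : Set M) hle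
    fun g hg => hES i g (Finset.mem_coe.1 hg)
  refine ⟨S, ⟨b, hbR⟩, fun h => hb0 (congrArg Subtype.val h),
    ⟨insert (algebraMap K M b)⁻¹ G₀, rfl⟩, ?_, fun s hs => hle (hRS₀ s hs), hbi, ?_, ?_⟩
  · intro x hx
    exact hle (hG₀S x (Finset.mem_union_left _ (Finset.mem_union_left _ (Finset.mem_coe.1 hx))))
  · intro i
    refine D7_pres (E i) S _ (le_refl _) ?_
    intro y hy
    rcases Finset.mem_insert.1 (Finset.mem_coe.1 hy) with h | h
    · rw [h, Derivation.leibniz_inv, smul_eq_mul]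
      refine S.mul_mem (S.neg_mem ?_) (hES₀ i _ (hRS₀ b hbR))
      exact S.pow_mem hbi 2
    · exact hES i y h
  · refine int_adjoin R ⟨b, hbR⟩ _ ?_
    intro g hg
    refine ⟨1, ?_⟩
    rw [pow_one]
    rcases Finset.mem_insert.1 (Finset.mem_coe.1 hg) with h | h
    · rw [h]
      have e : algebraMap R M ⟨b, hbR⟩ * (algebraMap K M b)⁻¹ = 1 := mul_inv_cancel₀ hbM
      rw [e]
      exact isIntegral_one
    · obtain ⟨t, ht, hbt⟩ := hcof1 g h
      have e : algebraMap R M ⟨b, hbR⟩ * g = algebraMap R M ⟨t, ht⟩ * (algebraMap K M (c g) * g) := by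
        show algebraMap K M b * g = algebraMap K M t * (algebraMap K M (c g) * g)
        conv_lhs => rw [hbt, map_mul]
        ring
      rw [e]
      exact (isIntegral_algebraMap).mul (hcI g)

end ring

end Pool.Agent.CampanaNT
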