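import Pool.Agent.Lib_MP_1209e6_nt.Rings
import Pool.Agent.Lib_MP_1209e6_fl.D3

/-!
# Line N of MP_1209e6_ag: localisation of chart data, very general points, unramified points
-/

set_option autoImplicit false

namespace Pool.Agent.CampanaNT

open Pool.Agent.Campana Pool.Agent.CampanaFlow

/-- inverting an element in a ring with chart data -/
theorem chart_localize {L : Type} [Field L] [Algebra ℂ L] (D : Derivation ℂ L L)
    (S : Subalgebra ℂ L) (d : Derivation ℂ S S) (hd : ∀ f : S, ((d f : S) : L) = D f)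
    (cd : ChartData d) (hS : S.FG) (b : L) (hb : b ∈ S) (hb0 : b ≠ 0) :
    ∃ (S' : Subalgebra ℂ L) (d' : Derivation ℂ S' S'), S'.FG ∧ S ≤ S' ∧ b⁻¹ ∈ S' ∧
      (∀ f ∈ S', ∃ m : ℕ, f * b ^ m ∈ S) ∧ (∀ f : S', ((d' f : S') : L) = D f) ∧
      Nonempty (ChartData d') := by
  classical
  obtain ⟨G, hG⟩ := hS
  let S' : Subalgebra ℂ L := Algebra.adjoin ℂ ((insert b⁻¹ G : Finset L) : Set L)
  have hle : S ≤ S' := by
    rw [← hG]
    exact Algebra.adjoin_mono fun x hx =>
      Finset.mem_coe.2 (Finset.mem_insert_of_mem (Finset.mem_coe.1 hx))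
  have hbi : b⁻¹ ∈ S' := Algebra.subset_adjoin (Finset.mem_coe.2 (Finset.mem_insert_self _ _))
  have hGS : ∀ g ∈ G, g ∈ S := by
    intro g hg
    rw [← hG]
    exact Algebra.subset_adjoin (Finset.mem_coe.2 hg)
  have hloc : ∀ f ∈ S', ∃ m : ℕ, f * b ^ m ∈ S := by
    intro f hf
    induction hf using Algebra.adjoin_induction with
    | mem x hx =>
      rcases Finset.mem_insert.1 (Finset.mem_coe.1 hx) with h | h
      · refine ⟨1, ?_⟩
        rw [h, pow_one, inv_mul_cancel₀ hb0]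
        exact S.one_mem
      · refine ⟨0, ?_⟩
        rw [pow_zero, mul_one]
        exact hGS x h
    | algebraMap c => exact ⟨0, by rw [pow_zero, mul_one]; exact S.algebraMap_mem c⟩
    | add x y _ _ hx hy =>
      obtain ⟨m, hm⟩ := hx
      obtain ⟨n, hn⟩ := hy
      refine ⟨m + n, ?_⟩
      have e : (x + y) * b ^ (m + n) = x * b ^ m * b ^ n + y * b ^ n * b ^ m := by ring
      rw [e]
      exact S.add_mem (S.mul_mem hm (S.pow_mem hb n)) (S.mul_mem hn (S.pow_mem hb m))
    | mul x y _ _ hx hy =>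
      obtain ⟨m, hm⟩ := hx
      obtain ⟨n, hn⟩ := hy
      refine ⟨m + n, ?_⟩
      have e : (x * y) * b ^ (m + n) = (x * b ^ m) * (y * b ^ n) := by ring
      rw [e]
      exact S.mul_mem hm hn
  have hDS0 : ∀ f ∈ S, D f ∈ S := fun f hf => by
    have h1 := hd ⟨f, hf⟩
    have h2 : ((d ⟨f, hf⟩ : S) : L) = D f := h1
    rw [← h2]
    exact (d ⟨f, hf⟩).2
  have hDS : ∀ f ∈ S', D f ∈ S' := by
    refine D7_pres D S' _ (le_refl _) ?_
    intro y hy
    rcases Finset.mem_insert.1 (Finset.mem_coe.1 hy) with h | h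
    · rw [h, Derivation.leibniz_inv, smul_eq_mul]
      refine S'.mul_mem (S'.neg_mem ?_) (hle (hDS0 b hb))
      exact S'.pow_mem hbi 2
    · exact hle (hDS0 y (hGS y h))
  let d' : Derivation ℂ S' S' := Derivation.mk'
    (LinearMap.codRestrict (Subalgebra.toSubmodule S')
      (D.toLinearMap.comp S'.val.toLinearMap) (fun f => hDS f f.2)) (by
        intro a b
        apply Subtype.ext
        show D ((a : L) * b) = (a : L) * D b + (b : L) * D a
        rw [Derivation.leibniz]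
        rfl)
  have hd' : ∀ f : S', ((d' f : S') : L) = D f := fun f => rfl
  refine ⟨S', d', ⟨insert b⁻¹ G, rfl⟩, hle, hbi, hloc, hd', ?_⟩
  let ι : S →ₐ[ℂ] S' := Subalgebra.inclusion hle
  have hι : ∀ f : S, ((ι f : S') : L) = f := fun f => rfl
  have hdι : ∀ f : S, d' (ι f) = ι (d f) := by
    intro f
    apply Subtype.ext
    rw [hd', hι, hι, hd]
  let bS : S := ⟨b, hb⟩
  choose m hm using fun j => cd.β_loc j bS
  have helim : ∀ j, (Sum.elim (fun a => ι (cd.c a)) fun l => ι (cd.X j l)) =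
      fun a => ι (Sum.elim cd.c (cd.X j) a) := by
    intro j
    funext a
    rcases a with a | l <;> rfl
  have hadj : ∀ j, ∀ f ∈ Algebra.adjoin ℂ (Set.range (Sum.elim cd.c (cd.X j))),
      ι f ∈ Algebra.adjoin ℂ (Set.range (Sum.elim (fun a => ι (cd.c a)) fun l => ι (cd.X j l))) := by
    intro j f hf
    rw [helim j]
    rw [Algebra.adjoin_range_eq_range_aeval] at hf ⊢
    obtain ⟨P, rfl⟩ := hf
    refine ⟨P, ?_⟩
    exact (DFunLike.congr_fun (MvPolynomial.comp_aeval (R := ℂ) (Sum.elim cd.c (cd.X j)) ι) P).symm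
  refine ⟨⟨cd.N, cd.e, fun j l => ι (cd.X j l), ?_, ?_, fun a => ι (cd.c a), ?_, cd.P, ?_,
    fun j => ι (cd.β j * (bS * cd.β j ^ m j)), ?_, ?_, ?_⟩⟩
  · intro j
    rw [cd.X_self, map_one]
  · intro j l i
    rw [← map_mul, cd.X_mul]
  · intro a
    rw [hdι, cd.Dc, map_zero]
  · intro j l
    rw [hdι, cd.DX, helim j]
    exact DFunLike.congr_fun (MvPolynomial.comp_aeval (R := ℂ) (Sum.elim cd.c (cd.X j)) ι) (cd.P j l)
  · intro j
    exact hadj j _ (Subalgebra.mul_mem _ (cd.β_mem j) (hm j))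
  · intro j
    rw [map_mul, map_mul, map_pow]
    have h1 : IsUnit (ι (cd.β j)) := (cd.β_unit j).map ι
    have h2 : IsUnit (ι bS) := by
      refine IsUnit.of_mul_eq_one (⟨b⁻¹, hbi⟩ : S') ?_
      apply Subtype.ext
      exact mul_inv_cancel₀ hb0
    exact h1.mul (h2.mul (h1.pow _))
  · intro j f
    obtain ⟨k, hk⟩ := hloc f f.2
    obtain ⟨m', hm'⟩ := cd.β_loc j ⟨(f : L) * b ^ k, hk⟩
    refine ⟨k + m', ?_⟩
    have e : f * ι (cd.β j * (bS * cd.β j ^ m j)) ^ (k + m') =
        ι (((⟨(f : L) * b ^ k, hk⟩ : S) * cd.β j ^ m') * ((bS * cd.β j ^ m j) ^ m' *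
          cd.β j ^ (k + m j * k))) := by
      apply Subtype.ext
      show (f : L) * ((cd.β j : L) * (b * (cd.β j : L) ^ m j)) ^ (k + m') =
        (((f : L) * b ^ k) * (cd.β j : L) ^ m') * ((b * (cd.β j : L) ^ m j) ^ m' *
          (cd.β j : L) ^ (k + m j * k))
      ring
    rw [e]
    refine hadj j _ (Subalgebra.mul_mem _ hm' (Subalgebra.mul_mem _ (Subalgebra.pow_mem _ (hm j) _)
      (Subalgebra.pow_mem _ (cd.β_mem j) _)))

/-- a polynomial with simple root -/
theorem exists_sep_poly {A M : Type} [CommRing A] [IsDomain A] [CharZero A] [Field M]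
    (φ : A →+* M) (hφ : Function.Injective φ) (g : M) : ∀ (N : ℕ) (P : Polynomial A),
    P.natDegree ≤ N → P ≠ 0 → P.eval₂ φ g = 0 →
    ∃ Q : Polynomial A, Q.eval₂ φ g = 0 ∧ (Polynomial.derivative Q).eval₂ φ g ≠ 0 := by
  intro N
  induction N with
  | zero =>
    intro P hN hP0 hP
    exfalso
    rw [Polynomial.eq_C_of_natDegree_le_zero hN, Polynomial.eval₂_C] at hP
    apply hP0
    rw [Polynomial.eq_C_of_natDegree_le_zero hN, hφ (hP.trans (map_zero φ).symm), map_zero]
  | succ N ih =>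
    intro P hN hP0 hP
    by_cases h : (Polynomial.derivative P).eval₂ φ g = 0
    · by_cases h0 : P.natDegree = 0
      · exact ih P (by omega) hP0 hP
      · refine ih (Polynomial.derivative P) ?_ ?_ h
        · have := Polynomial.natDegree_derivative_lt h0
          omega
        · intro h1
          exact h0 (Polynomial.natDegree_eq_zero_of_derivative_eq_zero h1)
    · exact ⟨P, hP, h⟩

/-- the condition of unramifiedness passes from generators to all elements -/
theorem unram_all {S : Type} [CommRing S] [Algebra ℂ S] (p : S →ₐ[ℂ] ℂ) (I : Ideal S) (G : Set S)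
    (hG : ∀ g ∈ G, ∃ h : S, p h ≠ 0 ∧ h * (g - algebraMap ℂ S (p g)) ∈ I) :
    ∀ f ∈ Algebra.adjoin ℂ G, ∃ h : S, p h ≠ 0 ∧ h * (f - algebraMap ℂ S (p f)) ∈ I := by
  intro f hf
  induction hf using Algebra.adjoin_induction with
  | mem x hx => exact hG x hx
  | algebraMap c =>
    refine ⟨1, by rw [map_one]; exact one_ne_zero, ?_⟩
    rw [AlgHom.commutes]
    simp
  | add x y _ _ hx hy =>
    obtain ⟨h, hh, h1⟩ := hx
    obtain ⟨k, hk, h2⟩ := hy
    refine ⟨h * k, by rw [map_mul]; exact mul_ne_zero hh hk, ?_⟩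
    have e : h * k * (x + y - algebraMap ℂ S (p (x + y))) =
        k * (h * (x - algebraMap ℂ S (p x))) + h * (k * (y - algebraMap ℂ S (p y))) := by
      rw [map_add, map_add]; ring
    rw [e]
    exact I.add_mem (I.mul_mem_left _ h1) (I.mul_mem_left _ h2)
  | mul x y _ _ hx hy =>
    obtain ⟨h, hh, h1⟩ := hx
    obtain ⟨k, hk, h2⟩ := hy
    refine ⟨h * k, by rw [map_mul]; exact mul_ne_zero hh hk, ?_⟩
    have e : h * k * (x * y - algebraMap ℂ S (p (x * y))) =
        (k * y) * (h * (x - algebraMap ℂ S (p x))) +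
        (h * algebraMap ℂ S (p x)) * (k * (y - algebraMap ℂ S (p y))) := by
      rw [map_mul, map_mul]; ring
    rw [e]
    exact I.add_mem (I.mul_mem_left _ h1) (I.mul_mem_left _ h2)

/-- a very general point outside of the zeros of one function -/
theorem very_general_avoid {K ι : Type} [Field K] [Algebra ℂ K] (S : Subalgebra ℂ K)
    [Algebra.FiniteType ℂ S] (D : ι → Derivation ℂ K K) (d : ι → Derivation ℂ S S)
    (hd : ∀ i (f : S), ((d i f : S) : K) = D i f)
    (hc : ∀ u, (∀ i, D i u = 0) → ∃ c : ℂ, u = algebraMap ℂ K c) (H : S) (hH : H ≠ 0) :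
    ∃ p : S →ₐ[ℂ] ℂ, p H ≠ 0 ∧ ∀ f : S, f ≠ 0 → ∃ w : List ι, p (word d w f) ≠ 0 := by
  classical
  obtain ⟨k, π, hπ⟩ := Algebra.FiniteType.iff_quotient_mvPolynomial''.1
    (inferInstance : Algebra.FiniteType ℂ S)
  let V : Finset (Fin k →₀ ℕ) → Submodule ℂ S := fun t =>
    Submodule.span ℂ (((t.image fun m => π (MvPolynomial.monomial m 1)) : Finset S) : Set S)
  have hV : ∀ t, FiniteDimensional ℂ (V t) := fun t =>
    FiniteDimensional.span_of_finite ℂ (Finset.finite_toSet _)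
  have h1 := fun t => @very_general_fin K ι _ _ S D d hd hc (V t) (hV t)
  choose W hW0 hW using h1
  obtain ⟨e, he⟩ := exists_surjective_nat (Finset (Fin k →₀ ℕ))
  obtain ⟨p, hp⟩ := avoid (fun n => H * W (e n)) (fun n => mul_ne_zero hH (hW0 _))
  have hp' : ∀ n, p H ≠ 0 ∧ p (W (e n)) ≠ 0 := by
    intro n
    have h := hp n
    rw [map_mul] at h
    exact ⟨left_ne_zero_of_mul h, right_ne_zero_of_mul h⟩
  refine ⟨p, (hp' 0).1, fun f hf => ?_⟩
  obtain ⟨q, rfl⟩ := hπ f
  obtain ⟨n, hn⟩ := he q.support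
  refine hW q.support p (by rw [← hn]; exact (hp' n).2) _ ?_ hf
  have h2 : π q = ∑ m ∈ q.support, q.coeff m • π (MvPolynomial.monomial m 1) := by
    conv_lhs => rw [q.as_sum, map_sum]
    refine Finset.sum_congr rfl fun m _ => ?_
    rw [← map_smul, MvPolynomial.smul_monomial, smul_eq_mul, mul_one]
  rw [h2]
  refine Submodule.sum_mem _ fun m hm => Submodule.smul_mem _ _ (Submodule.subset_span ?_)
  rw [Finset.mem_coe, Finset.mem_image]
  exact ⟨m, hm, rfl⟩

end Pool.Agent.CampanaNT
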