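import Pool.Agent.Lib_MP_1209e6_nt.RingsB

/-!
# Line N of MP_1209e6_ag: transcendence bases and unramified points
-/

set_option autoImplicit false

namespace Pool.Agent.CampanaNT

open Pool.Agent.Campana Pool.Agent.CampanaFlow

/-- fractions over a subring containing generators of the field -/
theorem frac_of_gen {K : Type} [Field K] [Algebra ℂ K] (T₀ : Finset K)
    (hT₀ : IntermediateField.adjoin ℂ (T₀ : Set K) = ⊤) (R : Subalgebra ℂ K)
    (hR : (T₀ : Set K) ⊆ R) (u : K) : ∃ r ∈ R, ∃ s ∈ R, s ≠ 0 ∧ u = r / s := by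
  have hle : Algebra.adjoin ℂ (T₀ : Set K) ≤ R := Algebra.adjoin_le hR
  have hu : u ∈ IntermediateField.adjoin ℂ (T₀ : Set K) := by rw [hT₀]; trivial
  rw [IntermediateField.mem_adjoin_iff_div] at hu
  obtain ⟨r, hr, s, hs, h⟩ := hu
  by_cases hs0 : s = 0
  · refine ⟨0, R.zero_mem, 1, R.one_mem, one_ne_zero, ?_⟩
    rw [h, hs0, div_zero, zero_div]
  · exact ⟨r, hle hr, s, hle hs, hs0, h⟩

/-- a finite transcendence basis -/
theorem exists_basis_fin {K : Type} [Field K] [Algebra ℂ K]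
    (hfg : ∃ T : Finset K, IntermediateField.adjoin ℂ (T : Set K) = ⊤) :
    ∃ (n : ℕ) (y : Fin n → K), IsTranscendenceBasis ℂ y := by
  classical
  obtain ⟨T₀, hT₀⟩ := hfg
  have hfr : IsFractionRing (Algebra.adjoin ℂ (T₀ : Set K)) K := by
    refine IsFractionRing.of_field _ K fun z => ?_
    obtain ⟨r, hr, s, hs, hs0, h⟩ := frac_of_gen T₀ hT₀ (Algebra.adjoin ℂ (T₀ : Set K))
      Algebra.subset_adjoin z
    exact ⟨⟨r, hr⟩, ⟨s, hs⟩, h⟩
  have halg : Algebra.IsAlgebraic (Algebra.adjoin ℂ (T₀ : Set K)) K :=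
    ⟨fun u => (IsFractionRing.isAlgebraic_iff (Algebra.adjoin ℂ (T₀ : Set K)) K K).2
      (isAlgebraic_algebraMap (R := K) (A := K) u)⟩
  obtain ⟨t, ht, hB⟩ := exists_isTranscendenceBasis_subset (R := ℂ) (T₀ : Set K)
  have : Fintype t := ((Finset.finite_toSet T₀).subset ht).fintype
  refine ⟨Fintype.card t, fun i => ((Fintype.equivFin t).symm i : K), ?_⟩
  exact (isTranscendenceBasis_equiv (Fintype.equivFin t).symm).2 hB

/-- every element of a finite extension is a root of a nonzero polynomial over `ℂ[y]` -/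
theorem exists_poly_root {K M : Type} [Field K] [Field M] [Algebra ℂ K] [Algebra ℂ M] [Algebra K M]
    [IsScalarTower ℂ K M] [FiniteDimensional K M] {n : ℕ} (y : Fin n → K)
    (hy : IsTranscendenceBasis ℂ y) (u : M) :
    ∃ P : Polynomial (MvPolynomial (Fin n) ℂ), P ≠ 0 ∧
      P.eval₂ ((MvPolynomial.aeval fun l => algebraMap K M (y l) :
        MvPolynomial (Fin n) ℂ →ₐ[ℂ] M) : MvPolynomial (Fin n) ℂ →+* M) u = 0 := by
  have h1 : Algebra.IsAlgebraic (Algebra.adjoin ℂ (Set.range y)) K := hy.isAlgebraic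
  have h2 : Algebra.IsAlgebraic K M := Algebra.IsAlgebraic.of_finite K M
  have h3 : Algebra.IsAlgebraic (Algebra.adjoin ℂ (Set.range y)) M :=
    Algebra.IsAlgebraic.trans (Algebra.adjoin ℂ (Set.range y)) K M
  obtain ⟨Q, hQ0, hQ⟩ := h3.isAlgebraic u
  let e := hy.1.aevalEquiv
  refine ⟨Q.map (e.symm : Algebra.adjoin ℂ (Set.range y) →+* MvPolynomial (Fin n) ℂ), ?_, ?_⟩
  · intro h
    apply hQ0
    have hinj : Function.Injective
        ((e.symm : Algebra.adjoin ℂ (Set.range y) →+* MvPolynomial (Fin n) ℂ)) := e.symm.injective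
    exact (Polynomial.map_eq_zero_iff hinj).1 h
  · rw [Polynomial.eval₂_map]
    have e1 : (((MvPolynomial.aeval fun l => algebraMap K M (y l) :
        MvPolynomial (Fin n) ℂ →ₐ[ℂ] M) : MvPolynomial (Fin n) ℂ →+* M).comp
        (e.symm : Algebra.adjoin ℂ (Set.range y) →+* MvPolynomial (Fin n) ℂ)) =
        algebraMap (Algebra.adjoin ℂ (Set.range y)) M := by
      apply RingHom.ext
      intro r
      obtain ⟨q, rfl⟩ := e.surjective r
      show MvPolynomial.aeval (fun l => algebraMap K M (y l)) (e.symm (e q)) =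
        algebraMap K M ((e q : Algebra.adjoin ℂ (Set.range y)) : K)
      rw [AlgEquiv.symm_apply_apply]
      have h4 : ((e q : Algebra.adjoin ℂ (Set.range y)) : K) = MvPolynomial.aeval y q :=
        hy.1.algebraMap_aevalEquiv q
      rw [h4]
      exact (DFunLike.congr_fun (MvPolynomial.comp_aeval (R := ℂ) y
        (IsScalarTower.toAlgHom ℂ K M)) q).symm
    rw [e1]
    exact hQ

/-- the points outside of the zeros of `H` are unramified over `ℂ[y]` -/
theorem exists_unram_fun {M : Type} [Field M] [Algebra ℂ M] (S : Subalgebra ℂ M) (hS : S.FG)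
    {n : ℕ} (y : Fin n → S) (hy : AlgebraicIndependent ℂ fun l => (y l : M))
    (halg : ∀ u : M, ∃ P : Polynomial (MvPolynomial (Fin n) ℂ), P ≠ 0 ∧
      P.eval₂ ((MvPolynomial.aeval fun l => (y l : M) :
        MvPolynomial (Fin n) ℂ →ₐ[ℂ] M) : MvPolynomial (Fin n) ℂ →+* M) u = 0) :
    ∃ H : S, H ≠ 0 ∧ ∀ p : S →ₐ[ℂ] ℂ, p H ≠ 0 → ∀ f : S, ∃ h : S, p h ≠ 0 ∧
      h * (f - algebraMap ℂ S (p f)) ∈
        Ideal.span (Set.range fun l => y l - algebraMap ℂ S (p (y l))) := by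
  classical
  obtain ⟨G, hG⟩ := (Subalgebra.fg_iff_finiteType S).1 hS
  have hval : ∀ (g : S) (Q : Polynomial (MvPolynomial (Fin n) ℂ)),
      ((Q.eval₂ ((MvPolynomial.aeval y : MvPolynomial (Fin n) ℂ →ₐ[ℂ] S) :
        MvPolynomial (Fin n) ℂ →+* S) g : S) : M) =
      Q.eval₂ ((MvPolynomial.aeval fun l => (y l : M) :
        MvPolynomial (Fin n) ℂ →ₐ[ℂ] M) : MvPolynomial (Fin n) ℂ →+* M) (g : M) := by
    intro g Q
    have h1 := Polynomial.hom_eval₂ Q ((MvPolynomial.aeval y : MvPolynomial (Fin n) ℂ →ₐ[ℂ] S) :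
        MvPolynomial (Fin n) ℂ →+* S) (S.val : S →+* M) g
    refine h1.trans ?_
    have e1 : (S.val : S →+* M).comp ((MvPolynomial.aeval y : MvPolynomial (Fin n) ℂ →ₐ[ℂ] S) :
        MvPolynomial (Fin n) ℂ →+* S) = ((MvPolynomial.aeval fun l => (y l : M) :
        MvPolynomial (Fin n) ℂ →ₐ[ℂ] M) : MvPolynomial (Fin n) ℂ →+* M) := by
      apply RingHom.ext
      intro q
      exact DFunLike.congr_fun (MvPolynomial.comp_aeval (R := ℂ) y S.val) q
    rw [e1]
    rfl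
  have hinj : Function.Injective ((MvPolynomial.aeval fun l => (y l : M) :
        MvPolynomial (Fin n) ℂ →ₐ[ℂ] M) : MvPolynomial (Fin n) ℂ →+* M) := hy
  have hsep : ∀ g : S, ∃ Q : Polynomial (MvPolynomial (Fin n) ℂ),
      Q.eval₂ ((MvPolynomial.aeval y : MvPolynomial (Fin n) ℂ →ₐ[ℂ] S) :
        MvPolynomial (Fin n) ℂ →+* S) g = 0 ∧
      (Polynomial.derivative Q).eval₂ ((MvPolynomial.aeval y : MvPolynomial (Fin n) ℂ →ₐ[ℂ] S) :
        MvPolynomial (Fin n) ℂ →+* S) g ≠ 0 := by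
    intro g
    obtain ⟨P, hP0, hP⟩ := halg g
    obtain ⟨Q, hQ, hQ'⟩ := exists_sep_poly _ hinj (g : M) P.natDegree P le_rfl hP0 hP
    refine ⟨Q, Subtype.ext ?_, fun h => hQ' ?_⟩
    · rw [hval, hQ]
      rfl
    · rw [← hval, h]
      rfl
  choose Q hQ hQ' using hsep
  refine ⟨∏ g ∈ G, (Polynomial.derivative (Q g)).eval₂
    ((MvPolynomial.aeval y : MvPolynomial (Fin n) ℂ →ₐ[ℂ] S) : MvPolynomial (Fin n) ℂ →+* S) g,
    Finset.prod_ne_zero_iff.2 fun g _ => hQ' g, fun p hp f => ?_⟩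
  rw [map_prod, Finset.prod_ne_zero_iff] at hp
  refine unram_all p _ (G : Set S) ?_ f (by rw [hG]; trivial)
  intro g hg
  exact Pool.Agent.K3Node.unram y p g (Q g) (hQ g) (hp g (Finset.mem_coe.1 hg))

end Pool.Agent.CampanaNT
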