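import Pool.Agent.Lib_MP_1209e6_nt.Setup
import Pool.Agent.Lib_MP_1209e6_nt.Rings
import Pool.Agent.Lib_MP_1209e6_nt.RingsB
import Pool.Agent.Lib_MP_1209e6_nt.RingsC

/-!
# Lines N and S of MP_1209e6_ag: the rings in the form of `TubeSetup` (from helper13's Rings files)
-/

set_option autoImplicit false

open Filter Topology Pool.Agent.Campana Pool.Agent.CampanaFlow

namespace Pool.Agent.CampanaNT

/-- restriction of a derivation to a stable subalgebra -/
noncomputable def restrD {M : Type} [Field M] [Algebra ℂ M] (S : Subalgebra ℂ M)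
    (E : Derivation ℂ M M) (h : ∀ f ∈ S, E f ∈ S) : Derivation ℂ S S :=
  Derivation.mk'
    { toFun := fun f => ⟨E f, h f f.2⟩
      map_add' := fun f g => Subtype.ext (map_add E _ _)
      map_smul' := fun c f => Subtype.ext (E.map_smul c (f : M)) }
    (fun f g => Subtype.ext (by
      show E ((f : M) * (g : M)) = _
      rw [Derivation.leibniz]
      rfl))

theorem restrD_apply {M : Type} [Field M] [Algebra ℂ M] (S : Subalgebra ℂ M)
    (E : Derivation ℂ M M) (h : ∀ f ∈ S, E f ∈ S) (f : S) :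
    ((restrD S E h f : S) : M) = E f := rfl

/-- the subalgebra `R[1/b]` -/
theorem mem_adjoin_inv {K : Type} [Field K] [Algebra ℂ K] (R : Subalgebra ℂ K) (b : K)
    (u : K) (hu : u ∈ Algebra.adjoin ℂ ((R : Set K) ∪ {b⁻¹})) (P : K → Prop)
    (h1 : ∀ r ∈ R, P r) (h2 : P b⁻¹) (h3 : ∀ x y, P x → P y → P (x + y))
    (h4 : ∀ x y, P x → P y → P (x * y)) : P u := by
  induction hu using Algebra.adjoin_induction with
  | mem x hx =>
    rcases hx with hx | hx
    · exact h1 x hx
    · rw [Set.mem_singleton_iff.1 hx]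
      exact h2
  | algebraMap c => exact h1 _ (R.algebraMap_mem c)
  | add x y _ _ hx hy => exact h3 x y hx hy
  | mul x y _ _ hx hy => exact h4 x y hx hy

theorem exists_setup {K : Type} [Field K] [Algebra ℂ K]
    (hfg : ∃ T : Finset K, IntermediateField.adjoin ℂ (T : Set K) = ⊤)
    {M : Type} [Field M] [Algebra ℂ M] [Algebra K M] [IsScalarTower ℂ K M] [FiniteDimensional K M]
    {s : ℕ} (L : Fin s → Type) [∀ a, Field (L a)] [∀ a, Algebra ℂ (L a)] [∀ a, Algebra K (L a)]
    [∀ a, IsScalarTower ℂ K (L a)] [∀ a, FiniteDimensional K (L a)]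
    (j : ∀ a, L a →ₐ[ℂ] M) (hj : ∀ a, ∀ u : K, j a (algebraMap K (L a) u) = algebraMap K M u)
    (D : ∀ a, Derivation ℂ (L a) (L a)) (E : Fin s → Derivation ℂ M M)
    (hD : ∀ a, ∃ (k : IntermediateField ℂ (L a)) (N : ℕ) (x : Fin (N + 1) → L a), (∀ l, x l ≠ 0) ∧
      IntermediateField.adjoin ℂ ((k : Set (L a)) ∪ Set.range fun l => x l / x 0) = ⊤ ∧
      GlobalField k x (D a))
    (hE : ∀ a, ∀ f, E a (j a f) = j a (D a f))
    (hc : ∀ u : M, (∀ a, E a u = 0) → ∃ c : ℂ, u = algebraMap ℂ M c) (T₀ : Finset K) :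
    ∃ (n : ℕ) (T : TubeSetup n s) (R : Subalgebra ℂ K), (T₀ : Set K) ⊆ R ∧
      Nonempty (R ≃ₐ[ℂ] T.R) := by
  classical
  -- a transcendence basis
  obtain ⟨n, y, hy⟩ := exists_basis_fin hfg
  have hyM : AlgebraicIndependent ℂ (fun l => algebraMap K M (y l)) :=
    hy.1.map' (f := IsScalarTower.toAlgHom ℂ K M) (algebraMap K M).injective
  have hdel : ∀ i : Fin n, ∃ F : Derivation ℂ M M, ∀ l : Fin n,
      F (algebraMap K M (y l)) = if i = l then 1 else 0 := fun i => exists_derivation _ hyM _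
  choose F hF using hdel
  obtain ⟨TK, hTK⟩ := hfg
  have hess : Algebra.EssFiniteType ℂ K := IntermediateField.fg_top_iff.1 ⟨TK, hTK⟩
  have hfgL : ∀ a, ∃ T : Finset (L a), IntermediateField.adjoin ℂ (T : Set (L a)) = ⊤ := fun a => by
    have : Algebra.EssFiniteType ℂ (L a) := Algebra.EssFiniteType.comp ℂ K (L a)
    exact IntermediateField.fg_top_iff.2 this
  -- the ring `R₀`
  let G₀ : Finset K := TK ∪ T₀ ∪ Finset.univ.image y
  let R₀ : Subalgebra ℂ K := Algebra.adjoin ℂ (G₀ : Set K)
  have hG₀ : ∀ g ∈ G₀, g ∈ R₀ := fun g hg => Algebra.subset_adjoin (Finset.mem_coe.2 hg)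
  have hfrac := frac_of_gen TK hTK R₀ (fun g hg => hG₀ g (by
    simp only [G₀, Finset.mem_union]
    exact Or.inl (Or.inl hg)))
  -- the rings of the models
  have hSL : ∀ a, ∃ (S : Subalgebra ℂ (L a)) (d : Derivation ℂ S S), S.FG ∧
      (∀ r ∈ R₀, algebraMap K (L a) r ∈ S) ∧ (∀ f : S, ((d f : S) : L a) = D a f) ∧
      Nonempty (ChartData d) := by
    intro a
    obtain ⟨S, d, hS, hT, hd, hcd⟩ := exists_ring (hfgL a) (fun _ : Fin 1 => D a)
      (fun _ => hD a) (G₀.image (algebraMap K (L a)))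
    refine ⟨S, d 0, (Subalgebra.fg_iff_finiteType S).2 hS, fun r hr => ?_, hd 0, hcd 0⟩
    induction hr using Algebra.adjoin_induction with
    | mem x hx =>
      apply hT
      rw [Finset.coe_image]
      exact ⟨x, hx, rfl⟩
    | algebraMap c =>
      rw [← IsScalarTower.algebraMap_apply ℂ K (L a)]
      exact S.algebraMap_mem c
    | add x y _ _ hx hy =>
      rw [map_add]
      exact S.add_mem hx hy
    | mul x y _ _ hx hy =>
      rw [map_mul]
      exact S.mul_mem hx hy
  choose SA dA hSAfg hSAR hdA hcdA using hSL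
  have hgen : ∀ a, ∃ G : Finset (L a), Algebra.adjoin ℂ (G : Set (L a)) = SA a := fun a => hSAfg a
  choose GA hGA using hgen
  -- the big ring
  obtain ⟨S, b, hb0, hSfg, hGS, hRS, hbS, hstab, hint⟩ := exists_stable_ring (M := M) R₀
    ⟨G₀, rfl⟩ hfrac (Finset.univ.biUnion fun a => (GA a).image (j a))
    (Sum.elim E F)
  have hSAS : ∀ a, ∀ f ∈ SA a, j a f ∈ S := by
    intro a f hf
    rw [← hGA a] at hf
    induction hf using Algebra.adjoin_induction with
    | mem x hx =>
      apply hGS
      rw [Finset.mem_coe, Finset.mem_biUnion]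
      exact ⟨a, Finset.mem_univ a, Finset.mem_image_of_mem _ hx⟩
    | algebraMap c =>
      rw [AlgHom.commutes]
      exact S.algebraMap_mem c
    | add x y _ _ hx hy =>
      rw [map_add]
      exact S.add_mem hx hy
    | mul x y _ _ hx hy =>
      rw [map_mul]
      exact S.mul_mem hx hy
  have hbK : (b : K) ≠ 0 := fun h => hb0 (Subtype.ext h)
  -- localisation of the rings of the models
  have hloc := fun a => chart_localize (D a) (SA a) (dA a) (hdA a) (hcdA a).some (hSAfg a)
    (algebraMap K (L a) b) (hSAR a b b.2) ((map_ne_zero _).2 hbK)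
  choose SB dB hSBfg hle hbinv hpow hdB hcdB using hloc
  have hSBS : ∀ a, ∀ f ∈ SB a, j a f ∈ S := by
    intro a f hf
    obtain ⟨m, hm⟩ := hpow a f hf
    have h1 := hSAS a _ hm
    rw [map_mul, map_pow, hj] at h1
    have h2 : j a f = j a f * algebraMap K M b ^ m * (algebraMap K M b)⁻¹ ^ m := by
      have h3 : algebraMap K M (b : K) ≠ 0 := (map_ne_zero _).2 hbK
      rw [mul_assoc, ← mul_pow, mul_inv_cancel₀ h3, one_pow, mul_one]
    rw [h2]
    exact S.mul_mem h1 (S.pow_mem hbS m)
  -- the ring `R`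
  let R : Subalgebra ℂ K := Algebra.adjoin ℂ ((R₀ : Set K) ∪ {(b : K)⁻¹})
  have hR₀R : ∀ r ∈ R₀, r ∈ R := fun r hr => Algebra.subset_adjoin (Or.inl hr)
  have hbR : (b : K)⁻¹ ∈ R := Algebra.subset_adjoin (Or.inr rfl)
  have hRfg : R.FG := by
    refine ⟨insert ((b : K)⁻¹) G₀, le_antisymm ?_ ?_⟩
    · refine Algebra.adjoin_le fun x hx => ?_
      rw [Finset.coe_insert] at hx
      rcases hx with rfl | hx
      · exact hbR
      · exact hR₀R x (hG₀ x hx)
    · refine Algebra.adjoin_le fun x hx => ?_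
      rcases hx with hx | hx
      · exact (Algebra.adjoin_mono (R := ℂ) (by
          rw [Finset.coe_insert]
          exact Set.subset_insert _ _) : R₀ ≤ _) hx
      · rw [Set.mem_singleton_iff.1 hx]
        exact Algebra.subset_adjoin (by
          rw [Finset.coe_insert]
          exact Set.mem_insert _ _)
  have hRSB : ∀ a, ∀ r ∈ R, algebraMap K (L a) r ∈ SB a := by
    intro a r hr
    refine mem_adjoin_inv R₀ b r hr (fun r => algebraMap K (L a) r ∈ SB a) ?_ ?_ ?_ ?_
    · exact fun r hr => hle a (hSAR a r hr)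
    · show algebraMap K (L a) (b : K)⁻¹ ∈ SB a
      rw [map_inv₀]
      exact hbinv a
    · intro x y hx hy
      show algebraMap K (L a) (x + y) ∈ SB a
      rw [map_add]
      exact (SB a).add_mem hx hy
    · intro x y hx hy
      show algebraMap K (L a) (x * y) ∈ SB a
      rw [map_mul]
      exact (SB a).mul_mem hx hy
  have hRS' : ∀ r ∈ R, algebraMap K M r ∈ S := by
    intro r hr
    refine mem_adjoin_inv R₀ b r hr (fun r => algebraMap K M r ∈ S) ?_ ?_ ?_ ?_
    · exact fun r hr => hRS r hr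
    · show algebraMap K M (b : K)⁻¹ ∈ S
      rw [map_inv₀]
      exact hbS
    · intro x y hx hy
      show algebraMap K M (x + y) ∈ S
      rw [map_add]
      exact S.add_mem hx hy
    · intro x y hx hy
      show algebraMap K M (x * y) ∈ S
      rw [map_mul]
      exact S.mul_mem hx hy
  let ρ : R →ₐ[ℂ] S := ((IsScalarTower.toAlgHom ℂ K M).comp R.val).codRestrict S
    fun r => hRS' r r.2
  have hρ : ∀ r : R, ((ρ r : S) : M) = algebraMap K M (r : K) := fun r => rfl
  have hρint : ρ.IsIntegral := by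
    intro f
    obtain ⟨m, hm⟩ := hint f f.2
    obtain ⟨P, hP, hP0⟩ := hm
    let ι₀ : R₀ →+* R := (Subalgebra.inclusion (fun r hr => hR₀R r hr : R₀ ≤ R)).toRingHom
    have h3 : algebraMap K M (b : K) ≠ 0 := (map_ne_zero _).2 hbK
    -- the element `b ^ m f` of `S` is integral over `R`
    have hbS' : algebraMap K M (b : K) ∈ S := hRS _ b.2
    have h4 : (ρ : R →+* S).IsIntegralElem (⟨algebraMap K M b, hbS'⟩ ^ m * f) := by
      refine ⟨P.map ι₀, hP.map _, ?_⟩
      apply Subtype.ext
      rw [Polynomial.eval₂_map]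
      have h5 := Polynomial.hom_eval₂ P ((ρ : R →+* S).comp ι₀) (S.val : S →+* M)
        (⟨algebraMap K M b, hbS'⟩ ^ m * f)
      refine Eq.trans h5 ?_
      exact hP0
    have h6 : (ρ : R →+* S).IsIntegralElem (ρ ⟨(b : K)⁻¹, hbR⟩ ^ m) := by
      rw [← map_pow]
      exact (ρ : R →+* S).isIntegralElem_map
    have h7 := RingHom.IsIntegralElem.mul (ρ : R →+* S) h6 h4
    have h8 : ρ ⟨(b : K)⁻¹, hbR⟩ ^ m * (⟨algebraMap K M b, hbS'⟩ ^ m * f) = f := by
      apply Subtype.ext
      show algebraMap K M (b : K)⁻¹ ^ m * (algebraMap K M b ^ m * (f : M)) = f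
      rw [map_inv₀, ← mul_assoc, ← mul_pow, inv_mul_cancel₀ h3, one_pow, one_mul]
    rw [h8] at h7
    exact h7
  have hyR : ∀ l, y l ∈ R := fun l => hR₀R _ (hG₀ _ (by
    simp only [G₀, Finset.mem_union, Finset.mem_image]
    exact Or.inr ⟨l, Finset.mem_univ l, rfl⟩))
  have hSft : Algebra.FiniteType ℂ S := (Subalgebra.fg_iff_finiteType S).1 hSfg
  obtain ⟨H, hH0, hH⟩ := exists_unram_fun S hSfg (fun l => ρ ⟨y l, hyR l⟩) hyM
    (fun u => exists_poly_root y hy u)
  obtain ⟨p, hpH, hp⟩ := very_general_avoid S E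
    (fun a => restrD S (E a) (hstab (Sum.inl a))) (fun a f => rfl) hc H hH0
  refine ⟨n,
    { R := R
      S := S
      SL := fun a => SB a
      fR := (Subalgebra.fg_iff_finiteType R).1 hRfg
      fS := hSft
      fL := fun a => (Subalgebra.fg_iff_finiteType (SB a)).1 (hSBfg a)
      rho := ρ
      rhoL := fun a => ((IsScalarTower.toAlgHom ℂ K (L a)).comp R.val).codRestrict (SB a)
        fun r => hRSB a r r.2
      sig := fun a => ((j a).comp (SB a).val).codRestrict S fun f => hSBS a f f.2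
      comp := fun a f => Subtype.ext (hj a f)
      rho_inj := fun x y h => Subtype.ext ((algebraMap K M).injective (congrArg Subtype.val h))
      sig_inj := fun a x y h => Subtype.ext ((j a).injective (congrArg Subtype.val h))
      d := dB
      e := fun a => restrD S (E a) (hstab (Sum.inl a))
      sig_d := fun a f => Subtype.ext (by
        show j a ((dB a f : SB a) : L a) = E a (j a (f : L a))
        rw [hdB, hE])
      cd := fun a => (hcdB a).some
      int := hρint
      y := fun l => ⟨y l, hyR l⟩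
      del := fun i => restrD S (F i) (hstab (Sum.inr i))
      del_y := fun i l => Subtype.ext (by
        show F i (algebraMap K M (y l)) = _
        rw [hF]
        split_ifs <;> rfl)
      p := p
      general := hp
      unram := fun f => hH p hpH f }, R, fun g hg => hR₀R g (hG₀ g (by
        simp only [G₀, Finset.mem_union]
        exact Or.inl (Or.inr hg))), ⟨AlgEquiv.refl⟩⟩

end Pool.Agent.CampanaNT
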