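import Mathlib
import Pool.Agent.Lib_MP_1209e6_nt.Solve0

/-!
# The node equation for natural families: solution in every Banach algebra, naturality
-/

set_option autoImplicit false

open scoped BigOperators
noncomputable section
namespace Pool.Agent.NTW

set_option linter.unusedSectionVars false

open Pool.Agent.Lib_MP_1858fb_w (Wt)

/-- families of functions of a point `a` and a time `t`, defined for all Banach algebras -/
abbrev Fam (n : ℕ) : Type 1 :=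
  ∀ (E : Type) [NormedCommRing E] [NormedAlgebra ℂ E] [NormOneClass E] [CompleteSpace E],
    (Fin n → E) → E → Fin n → E

theorem solve_nat {n : ℕ} {ω : Wt} (hω : ∀ k, 1 ≤ ω.w k) (g1 g2 : Fam n) {δ L T : ℝ}
    (hδ : 0 < δ) (hL : 0 ≤ L) (hTδ : T ≤ δ) (hLT : L * T ≤ 1 / 8) (hLT' : L * T ≤ δ / 8)
    (nat1 : ∀ (E E' : Type) [NormedCommRing E] [NormedAlgebra ℂ E] [NormOneClass E]
      [CompleteSpace E] [NormedCommRing E'] [NormedAlgebra ℂ E'] [NormOneClass E']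
      [CompleteSpace E'] (φ : E →ₐ[ℂ] E'), (∀ x, ‖φ x‖ ≤ ‖x‖) → ∀ (a : Fin n → E) (t : E),
      (∀ i, ‖a i‖ ≤ δ) → ‖t‖ ≤ δ → ∀ i, φ (g1 E a t i) = g1 E' (fun j => φ (a j)) (φ t) i)
    (nat2 : ∀ (E E' : Type) [NormedCommRing E] [NormedAlgebra ℂ E] [NormOneClass E]
      [CompleteSpace E] [NormedCommRing E'] [NormedAlgebra ℂ E'] [NormOneClass E']
      [CompleteSpace E'] (φ : E →ₐ[ℂ] E'), (∀ x, ‖φ x‖ ≤ ‖x‖) → ∀ (a : Fin n → E) (t : E),
      (∀ i, ‖a i‖ ≤ δ) → ‖t‖ ≤ δ → ∀ i, φ (g2 E a t i) = g2 E' (fun j => φ (a j)) (φ t) i)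
    (bd1 : ∀ (E : Type) [NormedCommRing E] [NormedAlgebra ℂ E] [NormOneClass E]
      [CompleteSpace E] (a : Fin n → E) (t : E), (∀ i, ‖a i‖ ≤ δ) → ‖t‖ ≤ δ →
      ∀ i, ‖g1 E a t i‖ ≤ L * ‖t‖)
    (bd2 : ∀ (E : Type) [NormedCommRing E] [NormedAlgebra ℂ E] [NormOneClass E]
      [CompleteSpace E] (a : Fin n → E) (t : E), (∀ i, ‖a i‖ ≤ δ) → ‖t‖ ≤ δ →
      ∀ i, ‖g2 E a t i‖ ≤ L * ‖t‖)
    (lip1 : ∀ (E : Type) [NormedCommRing E] [NormedAlgebra ℂ E] [NormOneClass E]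
      [CompleteSpace E] (a a' : Fin n → E) (t : E), (∀ i, ‖a i‖ ≤ δ) → (∀ i, ‖a' i‖ ≤ δ) →
      ‖t‖ ≤ δ → ∀ i, ‖g1 E a t i - g1 E a' t i‖ ≤ L * ‖t‖ * ‖a - a'‖)
    (lip2 : ∀ (E : Type) [NormedCommRing E] [NormedAlgebra ℂ E] [NormOneClass E]
      [CompleteSpace E] (a a' : Fin n → E) (t : E), (∀ i, ‖a i‖ ≤ δ) → (∀ i, ‖a' i‖ ≤ δ) →
      ‖t‖ ≤ δ → ∀ i, ‖g2 E a t i - g2 E a' t i‖ ≤ L * ‖t‖ * ‖a - a'‖)
    (τ1 τ2 : ∀ (E : Type) [NormedCommRing E] [NormedAlgebra ℂ E] [NormOneClass E]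
      [CompleteSpace E], WE E ω)
    (hτ1 : ∀ (E : Type) [NormedCommRing E] [NormedAlgebra ℂ E] [NormOneClass E]
      [CompleteSpace E], ‖τ1 E‖ ≤ T)
    (hτ2 : ∀ (E : Type) [NormedCommRing E] [NormedAlgebra ℂ E] [NormOneClass E]
      [CompleteSpace E], ‖τ2 E‖ ≤ T)
    (nτ1 : ∀ (E E' : Type) [NormedCommRing E] [NormedAlgebra ℂ E] [NormOneClass E]
      [CompleteSpace E] [NormedCommRing E'] [NormedAlgebra ℂ E'] [NormOneClass E']
      [CompleteSpace E'] (φ : E →ₐ[ℂ] E') (h : WE.Ctr φ), WE.map h (τ1 E) = τ1 E')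
    (nτ2 : ∀ (E E' : Type) [NormedCommRing E] [NormedAlgebra ℂ E] [NormOneClass E]
      [CompleteSpace E] [NormedCommRing E'] [NormedAlgebra ℂ E'] [NormOneClass E']
      [CompleteSpace E'] (φ : E →ₐ[ℂ] E') (h : WE.Ctr φ), WE.map h (τ2 E) = τ2 E') :
    ∃ R : ∀ (E : Type) [NormedCommRing E] [NormedAlgebra ℂ E] [NormOneClass E]
      [CompleteSpace E], (Fin n → E) → Fin n → WE E ω,
      (∀ (E : Type) [NormedCommRing E] [NormedAlgebra ℂ E] [NormOneClass E]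
        [CompleteSpace E] (c : Fin n → E), ‖c‖ ≤ δ / 2 → ‖R E c‖ ≤ δ / 4 ∧
          ‖aOf c (R E c)‖ ≤ δ ∧ ‖bOf c (R E c)‖ ≤ δ ∧
          ∀ i, g2 (WE E ω) (bOf c (R E c)) (τ2 E) i - g1 (WE E ω) (aOf c (R E c)) (τ1 E) i =
            R E c i) ∧
      (∀ (E E' : Type) [NormedCommRing E] [NormedAlgebra ℂ E] [NormOneClass E]
        [CompleteSpace E] [NormedCommRing E'] [NormedAlgebra ℂ E'] [NormOneClass E']
        [CompleteSpace E'] (φ : E →ₐ[ℂ] E') (h : WE.Ctr φ) (c : Fin n → E), ‖c‖ ≤ δ / 2 →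
        (fun j => WE.map h (R E c j)) = R E' fun j => φ (c j)) := by
  have hkey : ∀ (E : Type) [NormedCommRing E] [NormedAlgebra ℂ E] [NormOneClass E]
      [CompleteSpace E] (c : Fin n → E), ‖c‖ ≤ δ / 2 → ∃ r : Fin n → WE E ω,
      ‖r‖ ≤ 2 * (1 / 8) * δ ∧ g2 (WE E ω) (bOf c r) (τ2 E) - g1 (WE E ω) (aOf c r) (τ1 E) = r ∧
      ∀ r', ‖r'‖ ≤ 2 * (1 / 8) * δ →
        g2 (WE E ω) (bOf c r') (τ2 E) - g1 (WE E ω) (aOf c r') (τ1 E) = r' → r' = r := by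
    intro E _ _ _ _ c hc
    have hcomp : ∀ {a : Fin n → WE E ω}, ‖a‖ ≤ δ → ∀ i, ‖a i‖ ≤ δ := fun ha i =>
      (norm_le_pi_norm _ i).trans ha
    refine solve hω hδ.le (by norm_num) le_rfl (fun a => g1 (WE E ω) a (τ1 E))
      (fun a => g2 (WE E ω) a (τ2 E)) ?_ ?_ ?_ ?_ c hc
    · intro a ha
      refine (pi_norm_le_iff_of_nonneg (by positivity)).2 fun i => ?_
      refine (bd1 (WE E ω) a (τ1 E) (hcomp ha) ((hτ1 E).trans hTδ) i).trans ?_
      have := mul_le_mul_of_nonneg_left (hτ1 E) hL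
      linarith
    · intro a ha
      refine (pi_norm_le_iff_of_nonneg (by positivity)).2 fun i => ?_
      refine (bd2 (WE E ω) a (τ2 E) (hcomp ha) ((hτ2 E).trans hTδ) i).trans ?_
      have := mul_le_mul_of_nonneg_left (hτ2 E) hL
      linarith
    · intro a a' ha ha'
      refine (pi_norm_le_iff_of_nonneg (by positivity)).2 fun i => ?_
      refine (lip1 (WE E ω) a a' (τ1 E) (hcomp ha) (hcomp ha') ((hτ1 E).trans hTδ) i).trans ?_
      have h1 := mul_le_mul_of_nonneg_left (hτ1 E) hL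
      exact mul_le_mul_of_nonneg_right (h1.trans hLT) (norm_nonneg _)
    · intro a a' ha ha'
      refine (pi_norm_le_iff_of_nonneg (by positivity)).2 fun i => ?_
      refine (lip2 (WE E ω) a a' (τ2 E) (hcomp ha) (hcomp ha') ((hτ2 E).trans hTδ) i).trans ?_
      have h1 := mul_le_mul_of_nonneg_left (hτ2 E) hL
      exact mul_le_mul_of_nonneg_right (h1.trans hLT) (norm_nonneg _)
  classical
  let R : ∀ (E : Type) [NormedCommRing E] [NormedAlgebra ℂ E] [NormOneClass E]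
      [CompleteSpace E], (Fin n → E) → Fin n → WE E ω := fun E _ _ _ _ c =>
    if h : ‖c‖ ≤ δ / 2 then (hkey E c h).choose else 0
  have hR : ∀ (E : Type) [NormedCommRing E] [NormedAlgebra ℂ E] [NormOneClass E]
      [CompleteSpace E] (c : Fin n → E), ‖c‖ ≤ δ / 2 → ‖R E c‖ ≤ 2 * (1 / 8) * δ ∧
      g2 (WE E ω) (bOf c (R E c)) (τ2 E) - g1 (WE E ω) (aOf c (R E c)) (τ1 E) = R E c ∧
      ∀ r', ‖r'‖ ≤ 2 * (1 / 8) * δ →
        g2 (WE E ω) (bOf c r') (τ2 E) - g1 (WE E ω) (aOf c r') (τ1 E) = r' → r' = R E c := by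
    intro E _ _ _ _ c hc
    have h1 : R E c = (hkey E c hc).choose := dif_pos hc
    rw [h1]
    exact (hkey E c hc).choose_spec
  have hab : ∀ (E : Type) [NormedCommRing E] [NormedAlgebra ℂ E] [NormOneClass E]
      [CompleteSpace E] (c : Fin n → E), ‖c‖ ≤ δ / 2 →
      ‖aOf c (R E c)‖ ≤ δ ∧ ‖bOf c (R E c)‖ ≤ δ := by
    intro E _ _ _ _ c hc
    have h1 := (hR E c hc).1
    exact ⟨(norm_aOf_le hω c _).trans (by linarith), (norm_bOf_le hω c _).trans (by linarith)⟩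
  refine ⟨R, ?_, ?_⟩
  · intro E _ _ _ _ c hc
    obtain ⟨h1, h2, -⟩ := hR E c hc
    obtain ⟨ha, hb⟩ := hab E c hc
    exact ⟨by linarith, ha, hb, fun i => congrFun h2 i⟩
  · intro E E' _ _ _ _ _ _ _ _ φ h c hc
    have hc' : ‖fun j => φ (c j)‖ ≤ δ / 2 := by
      refine (pi_norm_le_iff_of_nonneg (by positivity)).2 fun i => ?_
      exact (h.le _).trans ((norm_le_pi_norm c i).trans hc)
    obtain ⟨h1, h2, -⟩ := hR E c hc
    obtain ⟨ha, hb⟩ := hab E c hc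
    obtain ⟨-, -, h5⟩ := hR E' (fun j => φ (c j)) hc'
    refine h5 _ ?_ ?_
    · refine (pi_norm_le_iff_of_nonneg (by positivity)).2 fun i => ?_
      exact (WE.norm_map_le h _).trans ((norm_le_pi_norm _ i).trans h1)
    · funext i
      have e1 := nat2 (WE E ω) (WE E' ω) (WE.map h) (WE.norm_map_le h) (bOf c (R E c)) (τ2 E)
        (fun i => (norm_le_pi_norm _ i).trans hb) ((hτ2 E).trans hTδ) i
      have e2 := nat1 (WE E ω) (WE E' ω) (WE.map h) (WE.norm_map_le h) (aOf c (R E c)) (τ1 E)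
        (fun i => (norm_le_pi_norm _ i).trans ha) ((hτ1 E).trans hTδ) i
      have e3 : (fun j => WE.map h (bOf c (R E c) j)) =
          bOf (fun j => φ (c j)) fun j => WE.map h (R E c j) :=
        funext fun j => bOf_map hω h c (R E c) j
      have e4 : (fun j => WE.map h (aOf c (R E c) j)) =
          aOf (fun j => φ (c j)) fun j => WE.map h (R E c j) :=
        funext fun j => aOf_map hω h c (R E c) j
      rw [e3, nτ2 E E' φ h] at e1
      rw [e4, nτ1 E E' φ h] at e2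
      show g2 (WE E' ω) _ _ i - g1 (WE E' ω) _ _ i = WE.map h (R E c i)
      rw [← e1, ← e2, ← map_sub]
      congr 1
      exact congrFun h2 i

end Pool.Agent.NTW
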