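import Pool.Agent.Lib_MP_1209e6_nt.WA2

/-!
# The splitting problem of the gluing lemma (MP_1209e6_ag, line N)

For a contractive `G` on pairs of small elements of `W(A)^n` and a small `c` in `A^n` there are
unique small `a`, `b` in `W(A)^n` with `a - b = G a b`, `a` in powers `<= 0`, `b` in powers `>= 0`
and `a(1) = c`. Lipschitz dependence on `c`, naturality.
-/

set_option autoImplicit false

open scoped BigOperators
noncomputable section
namespace Pool.Agent.WienerA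

open Pool.Agent.Lib_MP_1858fb_w (Wt)

/-- fixed point of a contraction of a closed ball -/
theorem fix_ball {E : Type*} [NormedAddCommGroup E] [CompleteSpace E] (T : E → E) (R : ℝ)
    (hR : 0 ≤ R) (hT : ∀ x, ‖x‖ ≤ R → ‖T x‖ ≤ R)
    (hL : ∀ x y, ‖x‖ ≤ R → ‖y‖ ≤ R → ‖T x - T y‖ ≤ 1 / 2 * ‖x - y‖) :
    ∃ x, ‖x‖ ≤ R ∧ T x = x := by
  classical
  let K : Set E := Metric.closedBall 0 R
  have hK : ∀ x : E, x ∈ K ↔ ‖x‖ ≤ R := by
    intro x
    simp only [K, Metric.mem_closedBall, dist_zero_right]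
  have hmap : Set.MapsTo T K K := by
    intro x hx
    rw [hK] at hx ⊢
    exact hT x hx
  have hcomplete : IsComplete K := Metric.isClosed_closedBall.isComplete
  have hctr : ContractingWith (1 / 2 : NNReal) (hmap.restrict T K K) := by
    refine ⟨by norm_num, LipschitzWith.of_dist_le_mul fun x y => ?_⟩
    have h1 := hL x y ((hK _).1 x.2) ((hK _).1 y.2)
    have h2 : ((1 / 2 : NNReal) : ℝ) = 1 / 2 := by norm_num
    rw [h2, Subtype.dist_eq, Subtype.dist_eq, dist_eq_norm, dist_eq_norm]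
    exact h1
  have h0 : (0 : E) ∈ K := by rw [hK, norm_zero]; exact hR
  obtain ⟨x, hxK, hx, -⟩ := hctr.exists_fixedPoint' hcomplete hmap h0 (edist_ne_top _ _)
  exact ⟨x, (hK x).1 hxK, hx⟩

variable {A : Type} [NormedCommRing A] [NormedAlgebra ℂ A] [CompleteSpace A] [NormOneClass A]
  {ω : Wt}

namespace WA

/-- the left part: constant term fixed by the value at `1` -/
def Lc (c : A) (r : WA A ω) : WA A ω := cst (c - ev (Nn r) 1) + Nn r

/-- the right part -/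
def Rc (c : A) (r : WA A ω) : WA A ω := cst (c - ev (Nn r) 1) - Pp r

theorem Lc_sub_Rc (c : A) (r : WA A ω) : Lc c r - Rc c r = r := by
  unfold Lc Rc
  have h := Nn_add_Pp r
  calc cst (c - ev (Nn r) 1) + Nn r - (cst (c - ev (Nn r) 1) - Pp r) = Nn r + Pp r := by abel
    _ = r := h

variable (hω : ∀ k, 1 ≤ ω.w k)

include hω in
theorem one_le' (S : Set ℤ) : ∀ k ∈ S, ‖(1 : ℂ)‖ ^ k ≤ ω.w k := fun k _ => by
  rw [norm_one, one_zpow]; exact hω k

include hω in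
theorem norm_ev_Nn_le (r : WA A ω) : ‖ev (Nn r) 1‖ ≤ ‖r‖ :=
  (norm_ev_le (supp_Nn r) (one_le' hω _)).trans (norm_Nn_le r)

include hω in
theorem norm_Lc_sub (c c' : A) (r r' : WA A ω) : ‖Lc c r - Lc c' r'‖ ≤ ‖c - c'‖ + 2 * ‖r - r'‖ := by
  have h1 : Lc c r - Lc c' r' = cst (c - c') - cst (ev (Nn (r - r')) 1) + Nn (r - r') := by
    unfold Lc
    rw [map_sub Nn, ev_sub (supp_Nn r) (supp_Nn r') (one_le' hω _)]
    simp only [map_sub]
    abel
  have h2 := norm_ev_Nn_le hω (r - r')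
  have h3 := norm_Nn_le (r - r')
  rw [h1]
  calc _ ≤ ‖(cst (c - c') : WA A ω) - cst (ev (Nn (r - r')) 1)‖ + ‖Nn (r - r')‖ := norm_add_le _ _
    _ ≤ ‖(cst (c - c') : WA A ω)‖ + ‖(cst (ev (Nn (r - r')) 1) : WA A ω)‖ + ‖Nn (r - r')‖ := by
        gcongr; exact norm_sub_le _ _
    _ ≤ _ := by rw [norm_cst, norm_cst]; linarith

include hω in
theorem norm_Rc_sub (c c' : A) (r r' : WA A ω) : ‖Rc c r - Rc c' r'‖ ≤ ‖c - c'‖ + 2 * ‖r - r'‖ := by
  have h1 : Rc c r - Rc c' r' = cst (c - c') - cst (ev (Nn (r - r')) 1) - Pp (r - r') := by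
    unfold Rc
    rw [map_sub Nn, ev_sub (supp_Nn r) (supp_Nn r') (one_le' hω _)]
    simp only [map_sub]
    abel
  have h2 := norm_ev_Nn_le hω (r - r')
  have h3 := norm_Pp_le (r - r')
  rw [h1]
  calc _ ≤ ‖(cst (c - c') : WA A ω) - cst (ev (Nn (r - r')) 1)‖ + ‖Pp (r - r')‖ := norm_sub_le _ _
    _ ≤ ‖(cst (c - c') : WA A ω)‖ + ‖(cst (ev (Nn (r - r')) 1) : WA A ω)‖ + ‖Pp (r - r')‖ := by
        gcongr; exact norm_sub_le _ _
    _ ≤ _ := by rw [norm_cst, norm_cst]; linarith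

theorem Lc_zero : Lc (0 : A) (0 : WA A ω) = 0 := by
  unfold Lc
  rw [map_zero, ev_zero, sub_zero, map_zero, add_zero]

theorem Rc_zero : Rc (0 : A) (0 : WA A ω) = 0 := by
  unfold Rc
  rw [map_zero, ev_zero, sub_zero, map_zero, map_zero, sub_zero]

theorem supp_cst (S : Set ℤ) (h0 : (0 : ℤ) ∈ S) (c : A) : Supp S (cst c : WA A ω) := by
  intro k hk
  rw [co_cst, if_neg]
  rintro rfl
  exact hk h0

theorem supp_Lc (c : A) (r : WA A ω) : Supp {k | k ≤ 0} (Lc c r) :=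
  (supp_cst {k : ℤ | k ≤ 0} (show (0 : ℤ) ≤ 0 from le_refl _) _).add
    (Supp.mono_set (S := {k : ℤ | k < 0}) (T := {k : ℤ | k ≤ 0})
      (fun k (hk : k < 0) => (le_of_lt hk : k ≤ 0)) (supp_Nn r))

theorem supp_Rc (c : A) (r : WA A ω) : Supp {k | 0 ≤ k} (Rc c r) :=
  (supp_cst {k : ℤ | 0 ≤ k} (show (0 : ℤ) ≤ 0 from le_refl _) _).sub (supp_Pp r)

include hω in
theorem ev_Lc (c : A) (r : WA A ω) : ev (Lc c r) 1 = c := by
  unfold Lc
  rw [ev_add (supp_univ _) (supp_univ _) (one_le' hω _), ev_cst]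
  abel

include hω in
/-- the parts are determined by the difference and the value at `1`. -/
theorem eq_Lc_Rc {a b : WA A ω} {c : A} (sa : Supp {k | k ≤ 0} a) (sb : Supp {k | 0 ≤ k} b)
    (h1 : ev a 1 = c) : a = Lc c (a - b) ∧ b = Rc c (a - b) := by
  have hN : Nn (a - b) = Nn a := by
    apply ext
    intro k
    unfold Nn
    rw [co_proj, co_proj]
    by_cases hk : k ∈ {k : ℤ | k < 0}
    · rw [Set.indicator_of_mem hk, Set.indicator_of_mem hk, co_sub,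
        sb k (fun h : (0 : ℤ) ≤ k => absurd (hk : k < 0) (not_lt.2 h)), sub_zero]
    · rw [Set.indicator_of_notMem hk, Set.indicator_of_notMem hk]
  have hPa : Pp a = cst (a.co 0) := by
    apply ext
    intro k
    unfold Pp
    rw [co_proj, co_cst]
    by_cases hk : k ∈ {k : ℤ | 0 ≤ k}
    · rw [Set.indicator_of_mem hk]
      by_cases h0 : k = 0
      · rw [if_pos h0, h0]
      · rw [if_neg h0]
        exact sa k (fun h : k ≤ 0 => h0 (le_antisymm h hk))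
    · rw [Set.indicator_of_notMem hk, if_neg]
      rintro rfl
      exact hk (le_refl (0 : ℤ))
  have ha : a = Nn a + cst (a.co 0) := by
    rw [← hPa]; exact (Nn_add_Pp a).symm
  have h2 : ev (Nn a) 1 + a.co 0 = c := by
    rw [← h1]
    conv_rhs => rw [ha]
    rw [ev_add (supp_univ _) (supp_univ _) (one_le' hω _), ev_cst]
  have h3 : a = Lc c (a - b) := by
    unfold Lc
    rw [hN, ← h2, add_sub_cancel_left, add_comm]
    exact ha
  refine ⟨h3, ?_⟩
  have h4 := Lc_sub_Rc c (a - b)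
  rw [← h3] at h4
  have h5 : b = a - (a - b) := by abel
  calc b = a - (a - b) := h5
    _ = a - (a - Rc c (a - b)) := by rw [h4]
    _ = Rc c (a - b) := by abel

end WA

open WA

/-- `(a, b)` solves the splitting problem with value `c` at `1`. -/
structure IsSplit {n : ℕ} (ρ : ℝ) (G : (Fin n → WA A ω) → (Fin n → WA A ω) → (Fin n → WA A ω))
    (c : Fin n → A) (a b : Fin n → WA A ω) : Prop where
  na : ‖a‖ ≤ ρ
  nb : ‖b‖ ≤ ρ
  eq : a - b = G a b
  sa : ∀ i, Supp {k | k ≤ 0} (a i)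
  sb : ∀ i, Supp {k | 0 ≤ k} (b i)
  one : ∀ i, ev (a i) 1 = c i

/-- the hypothesis on the right side -/
structure SmallG {n : ℕ} (ρ : ℝ) (G : (Fin n → WA A ω) → (Fin n → WA A ω) → (Fin n → WA A ω)) :
    Prop where
  small : ∀ a b, ‖a‖ ≤ ρ → ‖b‖ ≤ ρ → ‖G a b‖ ≤ ρ / 4
  lip : ∀ a b a' b', ‖a‖ ≤ ρ → ‖b‖ ≤ ρ → ‖a'‖ ≤ ρ → ‖b'‖ ≤ ρ →
    ‖G a b - G a' b'‖ ≤ 1 / 4 * max ‖a - a'‖ ‖b - b'‖

variable {n : ℕ} {ρ : ℝ} {G : (Fin n → WA A ω) → (Fin n → WA A ω) → (Fin n → WA A ω)}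

theorem norm_LcV_sub (hω : ∀ k, 1 ≤ ω.w k) (c c' : Fin n → A) (r r' : Fin n → WA A ω) :
    ‖(fun i => Lc (c i) (r i)) - (fun i => Lc (c' i) (r' i))‖ ≤ ‖c - c'‖ + 2 * ‖r - r'‖ := by
  rw [pi_norm_le_iff_of_nonneg (by positivity)]
  intro i
  refine (norm_Lc_sub hω _ _ _ _).trans ?_
  have h1 := norm_le_pi_norm (c - c') i
  have h2 := norm_le_pi_norm (r - r') i
  simp only [Pi.sub_apply] at h1 h2
  linarith

theorem norm_RcV_sub (hω : ∀ k, 1 ≤ ω.w k) (c c' : Fin n → A) (r r' : Fin n → WA A ω) :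
    ‖(fun i => Rc (c i) (r i)) - (fun i => Rc (c' i) (r' i))‖ ≤ ‖c - c'‖ + 2 * ‖r - r'‖ := by
  rw [pi_norm_le_iff_of_nonneg (by positivity)]
  intro i
  refine (norm_Rc_sub hω _ _ _ _).trans ?_
  have h1 := norm_le_pi_norm (c - c') i
  have h2 := norm_le_pi_norm (r - r') i
  simp only [Pi.sub_apply] at h1 h2
  linarith

theorem norm_LcV (hω : ∀ k, 1 ≤ ω.w k) (c : Fin n → A) (r : Fin n → WA A ω) :
    ‖(fun i => Lc (c i) (r i))‖ ≤ ‖c‖ + 2 * ‖r‖ := by
  have h := norm_LcV_sub hω c 0 r 0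
  have h0 : (fun i : Fin n => Lc ((0 : Fin n → A) i) ((0 : Fin n → WA A ω) i)) = 0 := by
    funext i
    exact Lc_zero
  rw [h0, sub_zero, sub_zero, sub_zero] at h
  exact h

theorem norm_RcV (hω : ∀ k, 1 ≤ ω.w k) (c : Fin n → A) (r : Fin n → WA A ω) :
    ‖(fun i => Rc (c i) (r i))‖ ≤ ‖c‖ + 2 * ‖r‖ := by
  have h := norm_RcV_sub hω c 0 r 0
  have h0 : (fun i : Fin n => Rc ((0 : Fin n → A) i) ((0 : Fin n → WA A ω) i)) = 0 := by
    funext i
    exact Rc_zero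
  rw [h0, sub_zero, sub_zero, sub_zero] at h
  exact h

/-- existence -/
theorem exists_isSplit (hω : ∀ k, 1 ≤ ω.w k) (hρ : 0 ≤ ρ) (hG : SmallG ρ G) (c : Fin n → A)
    (hc : ‖c‖ ≤ ρ / 2) : ∃ a b, IsSplit ρ G c a b := by
  have hLn : ∀ r : Fin n → WA A ω, ‖r‖ ≤ ρ / 4 → ‖(fun i => Lc (c i) (r i))‖ ≤ ρ := fun r hr =>
    (norm_LcV hω c r).trans (by linarith)
  have hRn : ∀ r : Fin n → WA A ω, ‖r‖ ≤ ρ / 4 → ‖(fun i => Rc (c i) (r i))‖ ≤ ρ := fun r hr =>
    (norm_RcV hω c r).trans (by linarith)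
  obtain ⟨r, hr, hfix⟩ := fix_ball
    (fun r : Fin n → WA A ω => G (fun i => Lc (c i) (r i)) (fun i => Rc (c i) (r i))) (ρ / 4)
    (by linarith) (fun r hr => hG.small _ _ (hLn r hr) (hRn r hr)) (by
      intro x y hx hy
      refine (hG.lip _ _ _ _ (hLn x hx) (hRn x hx) (hLn y hy) (hRn y hy)).trans ?_
      have h1 := norm_LcV_sub hω c c x y
      have h2 := norm_RcV_sub hω c c x y
      rw [sub_self, norm_zero, zero_add] at h1 h2
      have h3 := max_le h1 h2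
      linarith)
  refine ⟨fun i => Lc (c i) (r i), fun i => Rc (c i) (r i), hLn r hr, hRn r hr, ?_,
    fun i => supp_Lc _ _, fun i => supp_Rc _ _, fun i => ev_Lc hω _ _⟩
  have h1 : (fun i => Lc (c i) (r i)) - (fun i => Rc (c i) (r i)) = r := by
    funext i
    exact Lc_sub_Rc (c i) (r i)
  rw [h1]
  exact hfix.symm

namespace IsSplit

/-- Lipschitz dependence on the value at `1` (hence uniqueness). -/
theorem lip (hω : ∀ k, 1 ≤ ω.w k) (hG : SmallG ρ G) {c c' : Fin n → A}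
    {a b a' b' : Fin n → WA A ω} (h : IsSplit ρ G c a b) (h' : IsSplit ρ G c' a' b') :
    ‖a - a'‖ ≤ 2 * ‖c - c'‖ ∧ ‖b - b'‖ ≤ 2 * ‖c - c'‖ := by
  have ha : a = fun i => Lc (c i) ((a - b) i) := by
    funext i
    exact (eq_Lc_Rc hω (h.sa i) (h.sb i) (h.one i)).1
  have hb : b = fun i => Rc (c i) ((a - b) i) := by
    funext i
    exact (eq_Lc_Rc hω (h.sa i) (h.sb i) (h.one i)).2
  have ha' : a' = fun i => Lc (c' i) ((a' - b') i) := by
    funext i
    exact (eq_Lc_Rc hω (h'.sa i) (h'.sb i) (h'.one i)).1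
  have hb' : b' = fun i => Rc (c' i) ((a' - b') i) := by
    funext i
    exact (eq_Lc_Rc hω (h'.sa i) (h'.sb i) (h'.one i)).2
  have h1 := norm_LcV_sub hω c c' (a - b) (a' - b')
  have h2 := norm_RcV_sub hω c c' (a - b) (a' - b')
  rw [← ha, ← ha'] at h1
  rw [← hb, ← hb'] at h2
  have h3 := hG.lip a b a' b' h.na h.nb h'.na h'.nb
  rw [← h.eq, ← h'.eq] at h3
  rcases le_total ‖a - a'‖ ‖b - b'‖ with hm | hm
  · rw [max_eq_right hm] at h3
    constructor <;> linarith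
  · rw [max_eq_left hm] at h3
    constructor <;> linarith

theorem unique (hω : ∀ k, 1 ≤ ω.w k) (hG : SmallG ρ G) {c : Fin n → A}
    {a b a' b' : Fin n → WA A ω} (h : IsSplit ρ G c a b) (h' : IsSplit ρ G c a' b') :
    a = a' ∧ b = b' := by
  have h1 := h.lip hω hG h'
  rw [sub_self, norm_zero, mul_zero] at h1
  exact ⟨sub_eq_zero.1 (norm_le_zero_iff.1 h1.1), sub_eq_zero.1 (norm_le_zero_iff.1 h1.2)⟩

/-- naturality -/
theorem map {A' : Type} [NormedCommRing A'] [NormedAlgebra ℂ A'] [CompleteSpace A']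
    [NormOneClass A'] (hω : ∀ k, 1 ≤ ω.w k)
    {G' : (Fin n → WA A' ω) → (Fin n → WA A' ω) → (Fin n → WA A' ω)}
    (φ : A →ₐ[ℂ] A') (hφ : ∀ a, ‖φ a‖ ≤ ‖a‖) {c : Fin n → A} {a b : Fin n → WA A ω}
    (h : IsSplit ρ G c a b)
    (hGG : G' (fun i => WA.map φ hφ (a i)) (fun i => WA.map φ hφ (b i)) =
      fun i => WA.map φ hφ (G a b i)) :
    IsSplit ρ G' (fun i => φ (c i)) (fun i => WA.map φ hφ (a i)) (fun i => WA.map φ hφ (b i)) := by
  have hρ : 0 ≤ ρ := (norm_nonneg _).trans h.na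
  refine ⟨?_, ?_, ?_, ?_, ?_, ?_⟩
  · rw [pi_norm_le_iff_of_nonneg hρ]
    exact fun i => (norm_map_le φ hφ _).trans ((norm_le_pi_norm a i).trans h.na)
  · rw [pi_norm_le_iff_of_nonneg hρ]
    exact fun i => (norm_map_le φ hφ _).trans ((norm_le_pi_norm b i).trans h.nb)
  · rw [hGG, ← h.eq]
    funext i
    simp only [Pi.sub_apply, map_sub]
  · exact fun i => (h.sa i).map φ hφ
  · exact fun i => (h.sb i).map φ hφ
  · intro i
    rw [ev_map φ hφ (h.sa i) (one_le' hω _), h.one]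

end IsSplit

end Pool.Agent.WienerA
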