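import Mathlib

/-! Line N of `MP_1209e6_ag`, algebra of the stability step. -/

set_option autoImplicit false

namespace Pool.Agent.TubeN

variable {S : Type} [CommRing S] [Algebra ℂ S]

/-- a minimal prime of a radical ideal stable under a derivation is stable (Noetherian ring) -/
theorem minimal_stable [IsNoetherianRing S] (D : Derivation ℂ S S) (J : Ideal S)
    (hJr : J.IsRadical) (hJD : ∀ f ∈ J, D f ∈ J) (Q : Ideal S) (hQ : Q ∈ J.minimalPrimes) :
    ∀ f ∈ Q, D f ∈ Q := by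
  classical
  have hQp : Q.IsPrime := hQ.1.1
  have hfin : J.minimalPrimes.Finite := Ideal.finite_minimalPrimes_of_isNoetherianRing S J
  have hy : ∃ y, y ∉ Q ∧ ∀ Q' ∈ J.minimalPrimes, Q' ≠ Q → y ∈ Q' := by
    by_contra hcon
    push Not at hcon
    have hle : (hfin.toFinset.erase Q).inf id ≤ Q := by
      intro y hy
      by_contra hyQ
      obtain ⟨Q', hQ', hne, hyQ'⟩ := hcon y hyQ
      refine hyQ' ?_
      have h1 : Q' ∈ hfin.toFinset.erase Q :=
        Finset.mem_erase.2 ⟨hne, hfin.mem_toFinset.2 hQ'⟩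
      exact (Finset.inf_le (f := id) h1) hy
    obtain ⟨Q', hQ', hle'⟩ := hQp.inf_le'.1 hle
    obtain ⟨hne, hmem⟩ := Finset.mem_erase.1 hQ'
    have hmem' := hfin.mem_toFinset.1 hmem
    exact hne (le_antisymm hle' (hQ.2 hmem'.1 hle'))
  obtain ⟨y, hyQ, hy⟩ := hy
  intro f hf
  have hfy : f * y ∈ J := by
    have h1 : J = sInf J.minimalPrimes := by rw [Ideal.sInf_minimalPrimes, hJr.radical]
    rw [h1, Submodule.mem_sInf]
    intro Q' hQ'
    by_cases h : Q' = Q
    · rw [h]; exact Q.mul_mem_right _ hf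
    · exact Ideal.mul_mem_left Q' _ (hy Q' hQ' h)
  have h2 : D (f * y) ∈ Q := hQ.1.2 (hJD _ hfy)
  rw [Derivation.leibniz, smul_eq_mul, smul_eq_mul] at h2
  have h3 : y * D f ∈ Q := by
    have h4 : f * D y ∈ Q := Q.mul_mem_right _ hf
    exact (Ideal.add_mem_iff_right Q h4).1 h2
  exact (hQp.mem_or_mem h3).resolve_left hyQ

/-- Line N, stability of the glued tube: `S` integral over `R`, `J ≤ P` a radical `D`-stable ideal with
the same trace on `R` as the prime `P`: then `P` is `D`-stable. -/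
theorem stab_of_sandwich [IsNoetherianRing S] (R : Subalgebra ℂ S) [Algebra.IsIntegral R S]
    (D : Derivation ℂ S S) (P : Ideal S) [P.IsPrime] (J : Ideal S) (hJr : J.IsRadical)
    (hJD : ∀ f ∈ J, D f ∈ J) (hJP : J ≤ P) (hR : ∀ f : S, f ∈ R → f ∈ P → f ∈ J) :
    ∀ f ∈ P, D f ∈ P := by
  obtain ⟨Q, hQ, hQP⟩ := Ideal.exists_minimalPrimes_le hJP
  have hQp : Q.IsPrime := hQ.1.1
  have hPQ : P = Q := by
    by_contra hne
    have hlt : Q < P := lt_of_le_of_ne hQP (fun h => hne h.symm)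
    obtain ⟨x, hxP, hxQ⟩ := SetLike.exists_of_lt hlt
    have h1 := Ideal.comap_lt_comap_of_integral_mem_sdiff (R := R) hQP ⟨hxP, hxQ⟩
      (Algebra.IsIntegral.isIntegral (R := R) x)
    obtain ⟨y, hyP, hyQ⟩ := SetLike.exists_of_lt h1
    exact hyQ (hQ.1.2 (hR _ y.2 hyP))
  rw [hPQ]
  exact minimal_stable D J hJr hJD Q hQ

/-- the same with a family of stable primes (or radical stable ideals) `I ζ` instead of `J` -/
theorem stab_of_family [IsNoetherianRing S] (R : Subalgebra ℂ S) [Algebra.IsIntegral R S]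
    (D : Derivation ℂ S S) (P : Ideal S) [P.IsPrime] {ι : Type} (I : ι → Ideal S)
    (hIr : ∀ i, (I i).IsRadical) (hID : ∀ i, ∀ f ∈ I i, D f ∈ I i)
    (hJP : ∀ f, (∀ i, f ∈ I i) → f ∈ P) (hR : ∀ f : S, f ∈ R → f ∈ P → ∀ i, f ∈ I i) :
    ∀ f ∈ P, D f ∈ P := by
  have hmem : ∀ f, f ∈ (⨅ i, I i) ↔ ∀ i, f ∈ I i := fun f => by simp [Submodule.mem_iInf]
  refine stab_of_sandwich R D P (⨅ i, I i) ?_ ?_ ?_ ?_
  · intro f hf
    obtain ⟨n, hn⟩ := hf
    exact (hmem f).2 fun i => hIr i ⟨n, (hmem _).1 hn i⟩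
  · intro f hf
    exact (hmem _).2 fun i => hID i f ((hmem f).1 hf i)
  · intro f hf
    exact hJP f ((hmem f).1 hf)
  · intro f hf hfP
    exact (hmem f).2 (hR f hf hfP)

end Pool.Agent.TubeN
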