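import Pool.Agent.Lib_MP_1209e6_nt.Tube
import Pool.Agent.Lib_MP_1209e6_nt.Stab
import Pool.Agent.Lib_MP_1209e6_nt.TraceAux

/-!
# `MP_1209e6_ag`, line N: stability of the ideal of a glued curve (one side)
-/

set_option autoImplicit false

open Filter Topology
open Pool.Agent.CampanaFlow

noncomputable section

namespace Pool.Agent.TubeN

namespace SS

/-! ### evaluation at complex points -/

theorem mn_zero {n : ℕ} (b : Fin n → ℂ) (w : ℂ) : mn b w (0 : Gam n) = 1 := by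
  simp [mn]

theorem mn_add {n : ℕ} (b : Fin n → ℂ) (w : ℂ) (g h : Gam n) :
    mn b w (g + h) = mn b w g * mn b w h := by
  unfold mn
  simp only [Prod.fst_add, Prod.snd_add, Pi.add_apply, pow_add, Finset.prod_mul_distrib]
  ring

theorem norm_mn_le {n N : ℕ} {b : Fin n → ℂ} {w : ℂ} (hb : ∀ i, ‖b i‖ ≤ rad N)
    (hw : ‖w‖ ≤ rad N) (g : Gam n) : ‖mn b w g‖ ≤ (wP n N).w g := by
  show ‖(∏ i, b i ^ g.1 i) * w ^ g.2‖ ≤ rad N ^ ((∑ i, g.1 i) + g.2)
  rw [norm_mul, norm_prod, norm_pow, pow_add, ← Finset.prod_pow_eq_pow_sum]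
  have h0 := (rad_pos N).le
  refine mul_le_mul ?_ (pow_le_pow_left₀ (norm_nonneg _) hw _) (by positivity) (by positivity)
  refine Finset.prod_le_prod (fun i _ => norm_nonneg _) fun i _ => ?_
  rw [norm_pow]
  exact pow_le_pow_left₀ (norm_nonneg _) (hb i) _

/-- evaluation as a homomorphism -/
def evh {n N : ℕ} (b : Fin n → ℂ) (w : ℂ) (hb : ∀ i, ‖b i‖ ≤ rad N) (hw : ‖w‖ ≤ rad N) :
    PS n N →ₐ[ℂ] ℂ :=
  L1.hom (mn b w) (mn_zero b w) (mn_add b w) (norm_mn_le hb hw)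

theorem evh_apply {n N : ℕ} (b : Fin n → ℂ) (w : ℂ) (hb : ∀ i, ‖b i‖ ≤ rad N) (hw : ‖w‖ ≤ rad N)
    (f : PS n N) : evh b w hb hw f = evB b w f := rfl

theorem evB_ana {n N : ℕ} (f : PS n N) (t₀ : ℂ) (b : ℂ → Fin n → ℂ) (w : ℂ → ℂ)
    (hb : ∀ i, AnalyticAt ℂ (fun t => b t i) t₀) (hw : AnalyticAt ℂ w t₀)
    (h1 : ∀ i, ‖b t₀ i‖ < rad N) (h2 : ‖w t₀‖ < rad N) :
    AnalyticAt ℂ (fun t => evB (b t) (w t) f) t₀ := by
  have e1 : ∀ᶠ t in 𝓝 t₀, ∀ i, AnalyticAt ℂ (fun t => b t i) t :=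
    Filter.eventually_all.2 fun i => (hb i).eventually_analyticAt
  have e2 : ∀ᶠ t in 𝓝 t₀, AnalyticAt ℂ w t := hw.eventually_analyticAt
  have e3 : ∀ᶠ t in 𝓝 t₀, ∀ i, ‖b t i‖ < rad N :=
    Filter.eventually_all.2 fun i => ((hb i).continuousAt.norm).eventually_lt continuousAt_const (h1 i)
  have e4 : ∀ᶠ t in 𝓝 t₀, ‖w t‖ < rad N :=
    (hw.continuousAt.norm).eventually_lt continuousAt_const h2
  obtain ⟨V, hV, hVo, hV0⟩ := eventually_nhds_iff.1 (e1.and (e2.and (e3.and e4)))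
  have hd : DifferentiableOn ℂ (fun t => ∑' g, f.co g • mn (b t) (w t) g) V := by
    refine Complex.differentiableOn_tsum_of_summable_norm (u := fun g => ‖f.co g‖ * (wP n N).w g)
      f.summ (fun g => ?_) hVo (fun g t ht => ?_)
    · intro t ht
      have hbt := (hV t ht).1
      have hwt := (hV t ht).2.1
      refine DifferentiableAt.differentiableWithinAt ?_
      have h5 : DifferentiableAt ℂ (fun t => mn (b t) (w t) g) t := by
        unfold mn
        refine DifferentiableAt.mul ?_ (hwt.differentiableAt.pow _)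
        exact DifferentiableAt.fun_finsetProd fun i _ => (hbt i).differentiableAt.pow _
      exact h5.const_smul (f.co g)
    · rw [norm_smul]
      exact mul_le_mul_of_nonneg_left
        (norm_mn_le (fun i => ((hV t ht).2.2.1 i).le) (hV t ht).2.2.2.le g) (norm_nonneg _)
  exact hd.analyticAt (hVo.mem_nhds hV0)

/-! ### a dichotomy on a connected set -/

theorem dich_conn {H : Set ℂ} (_hH : IsOpen H) (hHc : IsPreconnected H) {P : ℂ → Prop}
    (hd : ∀ t₀ ∈ H, (∀ᶠ t in 𝓝[≠] t₀, P t) ∨ ∀ᶠ t in 𝓝[≠] t₀, ¬ P t) {t₁ : ℂ} (ht₁ : t₁ ∈ H)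
    (h : ∀ᶠ t in 𝓝[≠] t₁, P t) : ∀ t₀ ∈ H, ∀ᶠ t in 𝓝[≠] t₀, P t := by
  have hop : ∀ Q : ℂ → Prop, IsOpen {t₀ : ℂ | ∀ᶠ t in 𝓝[≠] t₀, Q t} := by
    intro Q
    rw [isOpen_iff_mem_nhds]
    intro t₀ ht₀
    have h1 : ∀ᶠ t in 𝓝[≠] t₀, Q t := ht₀
    have h2 := eventually_eventually_nhdsWithin.2 h1
    have h3 : ∀ᶠ t in 𝓝[≠] t₀, ∀ᶠ s in 𝓝[≠] t, Q s := by
      filter_upwards [h2, self_mem_nhdsWithin] with t ht htne
      have : 𝓝[≠] t₀ = 𝓝[≠] t₀ := rfl
      have h4 : 𝓝[{t₀}ᶜ] t = 𝓝 t := isOpen_compl_singleton.nhdsWithin_eq htne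
      rw [h4] at ht
      exact ht.filter_mono nhdsWithin_le_nhds
    rw [eventually_nhdsWithin_iff] at h3
    filter_upwards [h3] with t ht
    by_cases htt : t = t₀
    · rw [htt]; exact h1
    · exact ht htt
  intro t₀ ht₀
  by_contra hno
  have h5 : ∀ᶠ t in 𝓝[≠] t₀, ¬ P t := (hd t₀ ht₀).resolve_left hno
  have hsub : H ⊆ {t₀ : ℂ | ∀ᶠ t in 𝓝[≠] t₀, P t} ∪ {t₀ : ℂ | ∀ᶠ t in 𝓝[≠] t₀, ¬ P t} :=
    fun t ht => hd t ht
  obtain ⟨t, htH, hta, htb⟩ := hHc _ _ (hop P) (hop fun t => ¬ P t) hsub ⟨t₁, ht₁, h⟩ ⟨t₀, ht₀, h5⟩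
  have ha : ∀ᶠ s in 𝓝[≠] t, P s := hta
  have hb : ∀ᶠ s in 𝓝[≠] t, ¬ P s := htb
  obtain ⟨s, hs1, hs2⟩ := (ha.and hb).exists
  exact hs2 hs1

/-- two functions which agree in a punctured neighbourhood and are continuous agree -/
theorem eq_zero_of_punct {F : ℂ → ℂ} {t₀ : ℂ} (hF : ContinuousAt F t₀)
    (h : ∀ᶠ t in 𝓝[≠] t₀, F t = 0) : F t₀ = 0 := by
  have h1 : Tendsto F (𝓝[≠] t₀) (𝓝 (F t₀)) := hF.tendsto.mono_left nhdsWithin_le_nhds
  have h2 : Tendsto F (𝓝[≠] t₀) (𝓝 0) :=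
    tendsto_const_nhds.congr' (h.mono fun t ht => ht.symm)
  exact tendsto_nhds_unique h1 h2

end SS

open SS

variable {S R : Type} [CommRing S] [Algebra ℂ S] [CommRing R] [Algebra ℂ R]

/-- the half plane `|exp (-t)| < 2` -/
def Hp : Set ℂ := {t : ℂ | ‖Complex.exp (-t)‖ < 2}

theorem Hp_open : IsOpen Hp :=
  isOpen_lt (Complex.continuous_exp.comp continuous_neg).norm continuous_const

theorem Hp_eq : Hp = {t : ℂ | -Real.log 2 < t.re} := by
  ext t
  show ‖Complex.exp (-t)‖ < 2 ↔ -Real.log 2 < t.re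
  rw [Complex.norm_exp, Complex.neg_re, ← Real.lt_log_iff_exp_lt (by norm_num)]
  constructor <;> intro h <;> linarith

theorem Hp_conn : IsPreconnected Hp := by
  rw [Hp_eq]
  exact (convex_halfSpace_re_gt _).isPreconnected

theorem norm_exp_lt_two {w : ℂ} (hw : ‖w‖ < 1 / 2) : ‖Complex.exp w‖ < 2 := by
  have h1 : ‖Complex.exp w‖ ≤ Real.exp ‖w‖ := Complex.norm_exp_le_exp_norm w
  have h2 : Real.exp ‖w‖ < Real.exp (Real.log 2) := by
    apply Real.exp_lt_exp.2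
    have := Real.log_two_gt_d9
    linarith
  rw [Real.exp_log (by norm_num)] at h2
  linarith

/-- the trace on `R`: a function of `R` which vanishes on the curve vanishes on all fibres -/
theorem side_trace {n N₁ : ℕ} {ρ : R →ₐ[ℂ] S} {y : Fin n → S} {m : S →ₐ[ℂ] ℂ}
    (T : Tube n N₁ ρ y m) (η : ℂ) (hη : η ≠ 0) (σ : ℂ → Fin n → ℂ)
    (hσ : ∀ u, ‖u‖ < 2 → ∀ i, AnalyticAt ℂ (fun t => σ t i) u ∧ ‖σ u i‖ < rad N₁)
    (hτ : ∀ ζ : ℂ, ‖ζ‖ < 2 → ‖tau η ζ‖ < rad N₁)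
    (ε : ℝ) (hε : 0 < ε) (hε' : ε ≤ 1 / 2) (g : R)
    (hg : ∀ w : ℂ, ‖w‖ < ε →
      evB (σ (Complex.exp (-w))) (tau η (Complex.exp w)) (T.Φ (ρ g)) = 0) :
    ∀ u : ℂ, ‖u‖ < 2 → ∀ w : ℂ, ‖w‖ < rad N₁ → evB (σ u) w (T.Φ (ρ g)) = 0 := by
  classical
  have hexpana : ∀ t : ℂ, AnalyticAt ℂ (fun t => Complex.exp (-t)) t := fun t =>
    (analyticAt_id.neg).cexp
  have htauana : ∀ t : ℂ, AnalyticAt ℂ (fun t => tau η (Complex.exp t)) t := by
    intro t
    unfold tau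
    exact analyticAt_const.mul (((analyticAt_id.cexp).cexp).sub analyticAt_const)
  have hσana : ∀ t ∈ Hp, ∀ i, AnalyticAt ℂ (fun t => σ (Complex.exp (-t)) i) t := by
    intro t ht i
    exact AnalyticAt.fun_comp (g := fun t => σ t i) (f := fun t => Complex.exp (-t))
      (hσ _ ht i).1 (hexpana t)
  set Ecur : ℂ → Option (R →ₐ[ℂ] ℂ) := fun t => T.E (σ (Complex.exp (-t))) (tau η (Complex.exp t))
    with hE
  have hD : ∀ t₀ ∈ Hp, Dich Ecur t₀ := fun t₀ ht₀ =>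
    T.lift t₀ (fun t => σ (Complex.exp (-t))) (fun t => tau η (Complex.exp t)) (hσana t₀ ht₀)
      (htauana t₀) (fun i => (hσ _ ht₀ i).2)
  -- where the time is small
  have hsmall : ∀ t ∈ Hp, ‖tau η (Complex.exp t)‖ < rad N₁ →
      Ecur t ≠ none ∧ val (Ecur t) g =
        evB (σ (Complex.exp (-t))) (tau η (Complex.exp t)) (T.Φ (ρ g)) := by
    intro t ht hlt
    obtain ⟨q, hq, hqf⟩ := T.g0 (σ (Complex.exp (-t))) (tau η (Complex.exp t))
      (fun i => (hσ _ ht i).2) hlt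
    have h1 : Ecur t = some q := hq
    rw [h1]
    exact ⟨by simp, hqf g⟩
  have hdich : ∀ t₀ ∈ Hp, (∀ᶠ t in 𝓝[≠] t₀, Ecur t ≠ none ∧ val (Ecur t) g = 0) ∨
      ∀ᶠ t in 𝓝[≠] t₀, ¬ (Ecur t ≠ none ∧ val (Ecur t) g = 0) := by
    intro t₀ ht₀
    rcases hD t₀ ht₀ with h | ⟨h, hm⟩
    · right
      exact h.mono fun t ht h2 => h2.1 ht
    · rcases (hm g).eventually_eq_zero_or_eventually_ne_zero with h3 | h3
      · left
        filter_upwards [h, h3] with t ht1 ht2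
        exact ⟨ht1.1, ht2⟩
      · right
        exact h3.mono fun t ht h4 => ht h4.2
  have h0Hp : (0 : ℂ) ∈ Hp := by
    show ‖Complex.exp (-0)‖ < 2
    rw [neg_zero, Complex.exp_zero, norm_one]
    norm_num
  have hstart : ∀ᶠ t in 𝓝[≠] (0 : ℂ), Ecur t ≠ none ∧ val (Ecur t) g = 0 := by
    have h1 : ∀ᶠ t in 𝓝 (0 : ℂ), ‖t‖ < ε := by
      have := Metric.ball_mem_nhds (0 : ℂ) hε
      filter_upwards [this] with t ht
      rwa [mem_ball_zero_iff] at ht
    refine (h1.filter_mono nhdsWithin_le_nhds).mono fun t ht => ?_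
    have ht2 : ‖t‖ < 1 / 2 := lt_of_lt_of_le ht hε'
    have htH : t ∈ Hp := norm_exp_lt_two (by rw [norm_neg]; exact ht2)
    have h3 := hsmall t htH (hτ _ (norm_exp_lt_two ht2))
    exact ⟨h3.1, by rw [h3.2]; exact hg t ht⟩
  have hall := dich_conn Hp_open Hp_conn hdich h0Hp hstart
  have hpt : ∀ t ∈ Hp, ‖tau η (Complex.exp t)‖ < rad N₁ →
      evB (σ (Complex.exp (-t))) (tau η (Complex.exp t)) (T.Φ (ρ g)) = 0 := by
    intro t ht hlt
    have hA : AnalyticAt ℂ (fun t => evB (σ (Complex.exp (-t))) (tau η (Complex.exp t))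
        (T.Φ (ρ g))) t :=
      evB_ana _ t _ _ (hσana t ht) (htauana t) (fun i => (hσ _ ht i).2) hlt
    refine eq_zero_of_punct (F := fun t => evB (σ (Complex.exp (-t))) (tau η (Complex.exp t))
      (T.Φ (ρ g))) hA.continuousAt ?_
    have e1 : ∀ᶠ s in 𝓝 t, s ∈ Hp := Hp_open.mem_nhds ht
    have e2 : ∀ᶠ s in 𝓝 t, ‖tau η (Complex.exp s)‖ < rad N₁ :=
      ((htauana t).continuousAt.norm).eventually_lt continuousAt_const hlt
    filter_upwards [hall t ht, e1.filter_mono nhdsWithin_le_nhds,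
      e2.filter_mono nhdsWithin_le_nhds] with s hs1 hs2 hs3
    rw [← (hsmall s hs2 hs3).2]
    exact hs1.2
  -- the points `ζ_k`
  have hkey : ∀ w : ℂ, ‖w‖ < rad N₁ → Complex.exp 1 + w / η ≠ 0 → ∀ u : ℂ, ‖u‖ < 2 →
      evB (σ u) w (T.Φ (ρ g)) = 0 := by
    intro w hw hwe u hu
    obtain ⟨z, hz1, hz2, hz3, hz4⟩ := tr_zeta hη hwe (1 / 2)
    refine tr_disc (r := 2) (by norm_num) (h := fun u => evB (σ u) w (T.Φ (ρ g))) ?_
      (fun k => (z k)⁻¹) (fun k => inv_ne_zero (hz2 k)) hz4 (fun k => ?_) u (by simpa using hu)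
    · intro v hv
      have hv' : ‖v‖ < 2 := by simpa using hv
      exact evB_ana _ v _ _ (fun i => (hσ v hv' i).1) analyticAt_const (fun i => (hσ v hv' i).2) hw
    · have hexp : Complex.exp (Complex.log (z k)) = z k := Complex.exp_log (hz2 k)
      have hexpn : Complex.exp (-Complex.log (z k)) = (z k)⁻¹ := by
        rw [Complex.exp_neg, hexp]
      have hmem : Complex.log (z k) ∈ Hp := by
        show ‖Complex.exp (-Complex.log (z k))‖ < 2
        rw [hexpn, norm_inv]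
        have := hz1 k
        rw [inv_lt_comm₀ (by linarith) (by norm_num)]
        linarith
      have htk : tau η (Complex.exp (Complex.log (z k))) = w := by
        rw [hexp]
        exact hz3 k
      have h5 := hpt (Complex.log (z k)) hmem (by rw [htk]; exact hw)
      rw [htk, hexpn] at h5
      exact h5
  intro u hu w hw
  by_cases hwe : Complex.exp 1 + w / η = 0
  · have hA : AnalyticAt ℂ (fun w => evB (σ u) w (T.Φ (ρ g))) w :=
      evB_ana _ w _ _ (fun i => analyticAt_const) analyticAt_id (fun i => (hσ u hu i).2) hw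
    refine eq_zero_of_punct (F := fun w => evB (σ u) w (T.Φ (ρ g))) hA.continuousAt ?_
    have e1 : ∀ᶠ v in 𝓝 w, ‖v‖ < rad N₁ :=
      (continuousAt_id.norm).eventually_lt continuousAt_const hw
    filter_upwards [e1.filter_mono nhdsWithin_le_nhds, self_mem_nhdsWithin] with v hv1 hv2
    refine hkey v hv1 (fun h => hv2 ?_) u hu
    have h6 : v / η = w / η := by
      have := h.trans hwe.symm
      exact add_left_cancel this
    exact (div_left_inj' hη).1 h6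
  · exact hkey w hw hwe u hu

theorem stab_side {n N₁ : ℕ} {ρ : R →ₐ[ℂ] S} {y : Fin n → S} {m : S →ₐ[ℂ] ℂ}
    (T : Tube n N₁ ρ y m) (hinc : Incomp ρ) (η : ℂ) (hη : η ≠ 0) (σ : ℂ → Fin n → ℂ)
    (hσ : ∀ u, ‖u‖ < 2 → ∀ i, AnalyticAt ℂ (fun t => σ t i) u ∧ ‖σ u i‖ < rad N₁)
    (hτ : ∀ ζ : ℂ, ‖ζ‖ < 2 → ‖tau η ζ‖ < rad N₁)
    (D : Derivation ℂ S S) (hD : GoodFor T.Φ D) (ε : ℝ) (hε : 0 < ε) (hε' : ε ≤ 1 / 2) (f : S)
    (hf : ∀ w : ℂ, ‖w‖ < ε →
      evB (σ (Complex.exp (-w))) (tau η (Complex.exp w)) (T.Φ f) = 0) :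
    ∀ w : ℂ, ‖w‖ < ε →
      evB (σ (Complex.exp (-w))) (tau η (Complex.exp w)) (T.Φ (D f)) = 0 := by
  -- membership facts
  have hHp : ∀ w : ℂ, ‖w‖ < ε → w ∈ Hp := fun w hw =>
    norm_exp_lt_two (by rw [norm_neg]; exact lt_of_lt_of_le hw hε')
  have htw : ∀ w : ℂ, ‖w‖ < ε → ‖tau η (Complex.exp w)‖ < rad N₁ := fun w hw =>
    hτ _ (norm_exp_lt_two (lt_of_lt_of_le hw hε'))
  -- the points of the curve
  let q : ∀ w : ℂ, ‖w‖ < ε → (S →ₐ[ℂ] ℂ) := fun w hw =>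
    (evh (N := N₁) (σ (Complex.exp (-w))) (tau η (Complex.exp w))
      (fun i => (hσ _ (hHp w hw) i).2.le) (htw w hw).le).comp T.Φ
  have hq : ∀ w hw f, q w hw f = evB (σ (Complex.exp (-w))) (tau η (Complex.exp w)) (T.Φ f) :=
    fun w hw f => rfl
  -- the points of the tubes
  let p : ∀ u : ℂ, ‖u‖ < 2 → ∀ w : ℂ, ‖w‖ < rad N₁ → (S →ₐ[ℂ] ℂ) := fun u hu w hw =>
    (evh (N := N₁) (σ u) w (fun i => (hσ u hu i).2.le) hw.le).comp T.Φ
  have hp : ∀ u hu w hw f, p u hu w hw f = evB (σ u) w (T.Φ f) := fun u hu w hw f => rfl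
  let P : Ideal S :=
    { carrier := {f | ∀ w (hw : ‖w‖ < ε), q w hw f = 0}
      add_mem' := fun {a b} ha hb w hw => by rw [map_add, ha w hw, hb w hw, add_zero]
      zero_mem' := fun w hw => map_zero _
      smul_mem' := fun a b hb w hw => by rw [smul_eq_mul, map_mul, hb w hw, mul_zero] }
  let J : Ideal S :=
    { carrier := {f | ∀ u (hu : ‖u‖ < 2) w (hw : ‖w‖ < rad N₁), p u hu w hw f = 0}
      add_mem' := fun {a b} ha hb u hu w hw => by
        rw [map_add, ha u hu w hw, hb u hu w hw, add_zero]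
      zero_mem' := fun u hu w hw => map_zero _
      smul_mem' := fun a b hb u hu w hw => by
        rw [smul_eq_mul, map_mul, hb u hu w hw, mul_zero] }
  have hPana : ∀ f : S, AnalyticOnNhd ℂ
      (fun w => evB (σ (Complex.exp (-w))) (tau η (Complex.exp w)) (T.Φ f))
      (Metric.ball 0 ε) := by
    intro f w hw
    have hw' : ‖w‖ < ε := by simpa using hw
    refine evB_ana _ w _ _ (fun i => ?_) ?_ (fun i => (hσ _ (hHp w hw') i).2) (htw w hw')
    · exact AnalyticAt.fun_comp (g := fun t => σ t i) (f := fun t => Complex.exp (-t))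
        (hσ _ (hHp w hw') i).1 (analyticAt_id.neg).cexp
    · unfold tau
      exact analyticAt_const.mul (((analyticAt_id.cexp).cexp).sub analyticAt_const)
  have hPprime : P.IsPrime := by
    refine Ideal.isPrime_iff.2 ⟨?_, ?_⟩
    · intro h
      have h1 : (1 : S) ∈ P := h ▸ Submodule.mem_top
      have h2 := h1 0 (by rw [norm_zero]; exact hε)
      rw [map_one] at h2
      exact one_ne_zero h2
    · intro a b hab
      by_contra hcon
      rw [not_or] at hcon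
      obtain ⟨ha, hb⟩ := hcon
      have hzero : ∀ f : S, f ∉ P → ∀ᶠ w in 𝓝[≠] (0 : ℂ),
          evB (σ (Complex.exp (-w))) (tau η (Complex.exp w)) (T.Φ f) ≠ 0 := by
        intro f hfP
        have h0 : (0 : ℂ) ∈ Metric.ball (0 : ℂ) ε := Metric.mem_ball_self hε
        rcases (hPana f 0 h0).eventually_eq_zero_or_eventually_ne_zero with h | h
        · exfalso
          apply hfP
          intro w hw
          have := (hPana f).eqOn_zero_of_preconnected_of_eventuallyEq_zero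
            (convex_ball 0 ε).isPreconnected h0 h
          exact this (by simpa using hw)
        · exact h
      have hball : ∀ᶠ w in 𝓝[≠] (0 : ℂ), ‖w‖ < ε := by
        refine Filter.Eventually.filter_mono nhdsWithin_le_nhds ?_
        filter_upwards [Metric.ball_mem_nhds (0 : ℂ) hε] with t ht
        rwa [mem_ball_zero_iff] at ht
      obtain ⟨w, hw1, hw2, hw3⟩ := ((hzero a ha).and ((hzero b hb).and hball)).exists
      have h3 := hab w hw3
      rw [map_mul] at h3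
      rcases mul_eq_zero.1 h3 with h4 | h4
      · exact hw1 h4
      · exact hw2 h4
  have hJP : J ≤ P := by
    intro f hfJ w hw
    exact hfJ _ (hHp w hw) _ (htw w hw)
  have hJD : ∀ f ∈ J, D f ∈ J := by
    intro f hfJ u hu w hw
    exact hD (σ u) (fun i => (hσ u hu i).2) f (fun w hw => hfJ u hu w hw) w hw
  have htr : P.comap (ρ : R →+* S) ≤ J.comap (ρ : R →+* S) := by
    intro g hg u hu w hw
    exact side_trace T η hη σ hσ hτ ε hε hε' g (fun w hw => hg w hw) u hu w hw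
  have hfP : f ∈ P := fun w hw => hf w hw
  have := stable_of_trace (ρ : R →+* S) D hinc hPprime hJD hJP htr f hfP
  exact fun w hw => this w hw

end Pool.Agent.TubeN
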