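import Pool.Agent.Lib_MP_1209e6_nt.Tube

/-!
# Line N: the curve `w ↦ T (0, w)` of a tube which is good for all derivations is dense
-/

set_option autoImplicit false

open Filter Topology
open Pool.Agent.CampanaFlow

noncomputable section

namespace Pool.Agent.TubeN

theorem tend_mn {n : ℕ} (w : ℂ) (g : Gam n) :
    mn (0 : Fin n → ℂ) w g = if g.1 = 0 then w ^ g.2 else 0 := by
  unfold mn
  split_ifs with h
  · rw [h]
    simp
  · have h1 : ∃ i, g.1 i ≠ 0 := by
      by_contra h2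
      push Not at h2
      exact h (funext h2)
    obtain ⟨i, hi⟩ := h1
    rw [Finset.prod_eq_zero (Finset.mem_univ i) (by
      show (0 : ℂ) ^ g.1 i = 0
      exact zero_pow hi), zero_mul]

theorem tend_zero {n N : ℕ} (f : PS n N) : evB (0 : Fin n → ℂ) (0 : ℂ) f = f.co 0 := by
  unfold evB
  rw [tsum_eq_single (0 : Gam n)]
  · rw [tend_mn]
    simp
  · intro g hg
    rw [tend_mn]
    split_ifs with h
    · have h2 : g.2 ≠ 0 := by
        intro h3
        exact hg (Prod.ext h h3)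
      rw [zero_pow h2, smul_zero]
    · rw [smul_zero]

theorem tend_diff {n N : ℕ} (f : PS n N) :
    DifferentiableOn ℂ (fun w => evB (0 : Fin n → ℂ) w f) (Metric.ball 0 (rad N)) := by
  unfold evB
  refine Complex.differentiableOn_tsum_of_summable_norm f.summ ?_ Metric.isOpen_ball ?_
  · intro g
    have h1 : (fun w => f.co g • mn (0 : Fin n → ℂ) w g) =
        fun w : ℂ => f.co g • (if g.1 = 0 then w ^ g.2 else 0) := by
      funext w
      rw [tend_mn]
    rw [h1]
    split_ifs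
    · fun_prop
    · fun_prop
  · intro g w hw
    rw [mem_ball_zero_iff] at hw
    rw [tend_mn, norm_smul]
    refine mul_le_mul_of_nonneg_left ?_ (norm_nonneg _)
    show _ ≤ rad N ^ ((∑ i, g.1 i) + g.2)
    split_ifs with h
    · rw [h, norm_pow]
      have e1 : (∑ i, (0 : Fin n → ℕ) i) + g.2 = g.2 := by simp
      rw [e1]
      exact pow_le_pow_left₀ (norm_nonneg _) hw.le _
    · rw [norm_zero]
      exact pow_nonneg (rad_pos N).le _

variable {S R : Type} [CommRing S] [Algebra ℂ S] [CommRing R] [Algebra ℂ R]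

/-- END (helper29): the curve `w ↦ T (0, w)` -/
theorem tube_end [Algebra.FiniteType ℂ R] {ρ : R →ₐ[ℂ] S} (hρ : Function.Injective ρ) {n : ℕ}
    {y : Fin n → S} {m : S →ₐ[ℂ] ℂ} {ι : Type} (D : ι → Derivation ℂ S S)
    (hm : ∀ f : S, f ≠ 0 → ∃ l : List ι, m (word D l f) ≠ 0) {N : ℕ} (T : Tube n N ρ y m)
    (hT : ∀ i, GoodFor T.Φ (D i)) :
    ∃ (γ : ℂ → R →ₐ[ℂ] ℂ) (B : Set ℂ), IsCurve Set.univ γ B ∧
      ∀ f : R, (∀ z, z ∉ B → γ z f = 0) → f = 0 := by
  classical
  have hr : 0 < rad N := rad_pos N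
  have h00 : ∀ i, ‖(0 : Fin n → ℂ) i‖ < rad N := fun i => by
    show ‖(0 : ℂ)‖ < rad N
    rw [norm_zero]
    exact hr
  obtain ⟨E, hE⟩ : ∃ E : ℂ → Option (R →ₐ[ℂ] ℂ), E = fun t => T.E (0 : Fin n → ℂ) t := ⟨_, rfl⟩
  have hdich : ∀ t₀, Dich E t₀ := by
    intro t₀
    rw [hE]
    exact T.lift t₀ (fun _ => 0) (fun t => t) (fun i => analyticAt_const) analyticAt_id h00
  have hloc : ∀ w : ℂ, ‖w‖ < rad N → ∃ q, E w = some q ∧
      ∀ f, q f = evB (0 : Fin n → ℂ) w (T.Φ (ρ f)) := by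
    intro w hw
    rw [hE]
    exact T.g0 0 w h00 hw
  -- the second alternative holds everywhere
  have hu : IsOpen {x : ℂ | ∀ᶠ t in 𝓝[≠] x, E t = none} := by
    rw [isOpen_iff_mem_nhds]
    intro x hx
    have h1 : ∀ᶠ t in 𝓝[≠] x, ∀ᶠ u in 𝓝 t, E u = none := by
      have h2 := eventually_eventually_nhdsWithin.2 hx
      have h3 : ∀ᶠ w in 𝓝[≠] x, w ∈ ({x}ᶜ : Set ℂ) := eventually_mem_nhdsWithin
      filter_upwards [h2, h3] with w hw1 hw2
      rwa [isOpen_compl_singleton.nhdsWithin_eq hw2] at hw1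
    rw [eventually_nhdsWithin_iff] at h1
    filter_upwards [h1] with w hw
    by_cases hwx : w = x
    · rw [hwx]
      exact hx
    · exact (hw hwx).filter_mono nhdsWithin_le_nhds
  set P : ℂ → Prop := fun t => E t ≠ none ∧ ∀ f, AnalyticAt ℂ (fun t' => val (E t') f) t with hP
  have hv : IsOpen {x : ℂ | ∀ᶠ t in 𝓝[≠] x, P t} := by
    rw [isOpen_iff_mem_nhds]
    intro x hx
    have h1 : ∀ᶠ t in 𝓝[≠] x, ∀ᶠ u in 𝓝 t, P u := by
      have h2 := eventually_eventually_nhdsWithin.2 hx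
      have h3 : ∀ᶠ w in 𝓝[≠] x, w ∈ ({x}ᶜ : Set ℂ) := eventually_mem_nhdsWithin
      filter_upwards [h2, h3] with w hw1 hw2
      rwa [isOpen_compl_singleton.nhdsWithin_eq hw2] at hw1
    rw [eventually_nhdsWithin_iff] at h1
    filter_upwards [h1] with w hw
    by_cases hwx : w = x
    · rw [hwx]
      exact hx
    · exact (hw hwx).filter_mono nhdsWithin_le_nhds
  have hball : ∀ᶠ t in 𝓝 (0 : ℂ), ‖t‖ < rad N := by
    filter_upwards [Metric.ball_mem_nhds (0 : ℂ) hr] with t ht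
    rwa [mem_ball_zero_iff] at ht
  have h0 : ¬ ∀ᶠ t in 𝓝[≠] (0 : ℂ), E t = none := by
    intro h
    have h1 : ∀ᶠ t in 𝓝[≠] (0 : ℂ), ‖t‖ < rad N := hball.filter_mono nhdsWithin_le_nhds
    obtain ⟨t, ht1, ht2⟩ := (h.and h1).exists
    obtain ⟨q, hq, -⟩ := hloc t ht2
    rw [hq] at ht1
    exact absurd ht1 (by simp)
  have hall : ∀ t₀, (∀ᶠ t in 𝓝[≠] t₀, P t) ∧ ∀ f, MeromorphicAt (fun t' => val (E t') f) t₀ := by
    intro t₀
    rcases hdich t₀ with h | h
    · exfalso
      have hcov : (Set.univ : Set ℂ) ⊆ {x : ℂ | ∀ᶠ t in 𝓝[≠] x, E t = none} ∪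
          {x : ℂ | ∀ᶠ t in 𝓝[≠] x, P t} := by
        intro x _
        rcases hdich x with h1 | h1
        · exact Or.inl h1
        · exact Or.inr h1.1
      have h0' : (0 : ℂ) ∈ {x : ℂ | ∀ᶠ t in 𝓝[≠] x, P t} := by
        rcases hdich 0 with h1 | h1
        · exact absurd h1 h0
        · exact h1.1
      obtain ⟨x, -, hx1, hx2⟩ := (isPreconnected_univ (α := ℂ)) _ _ hu hv hcov
        ⟨t₀, Set.mem_univ _, h⟩ ⟨0, Set.mem_univ _, h0'⟩
      have hx1' : ∀ᶠ t in 𝓝[≠] x, E t = none := hx1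
      have hx2' : ∀ᶠ t in 𝓝[≠] x, P t := hx2
      obtain ⟨t, ht1, ht2⟩ := (hx1'.and hx2').exists
      exact ht2.1 ht1
    · exact h
  -- the curve
  refine ⟨fun t => (E t).getD (m.comp ρ), {t | ¬ P t}, ⟨?_, ?_, ?_⟩, ?_⟩
  · intro z _
    filter_upwards [(hall z).1] with w hw
    exact fun h => h hw
  · intro f z _ hz
    have hz' : P z := not_not.1 hz
    have h1 : ∀ᶠ t in 𝓝 z, E t ≠ none := by
      have h2 := (hall z).1
      rw [eventually_nhdsWithin_iff] at h2
      filter_upwards [h2] with w hw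
      by_cases hwz : w = z
      · rw [hwz]
        exact hz'.1
      · exact (hw hwz).1
    refine (hz'.2 f).congr ?_
    filter_upwards [h1] with t ht
    obtain ⟨q, hq⟩ := Option.ne_none_iff_exists'.1 ht
    rw [hq]
    rfl
  · intro f z _
    refine ((hall z).2 f).congr ?_
    filter_upwards [(hall z).1] with t ht
    obtain ⟨q, hq⟩ := Option.ne_none_iff_exists'.1 ht.1
    rw [hq]
    rfl
  · intro f hf
    -- `f` vanishes on the germ
    have hev : ∀ w : ℂ, ‖w‖ < rad N → P w := by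
      intro w hw
      obtain ⟨q, hq, -⟩ := hloc w hw
      refine ⟨by rw [hq]; simp, fun g => ?_⟩
      have h1 : AnalyticAt ℂ (fun t => evB (0 : Fin n → ℂ) t (T.Φ (ρ g))) w :=
        (tend_diff (T.Φ (ρ g))).analyticAt
          (Metric.isOpen_ball.mem_nhds (by rw [mem_ball_zero_iff]; exact hw))
      refine h1.congr ?_
      have h2 : ∀ᶠ t in 𝓝 w, ‖t‖ < rad N :=
        (continuous_norm.tendsto w).eventually (Iio_mem_nhds hw)
      filter_upwards [h2] with t ht
      obtain ⟨q', hq', hq2⟩ := hloc t ht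
      rw [hq']
      exact (hq2 g).symm
    have hvan : ∀ w : ℂ, ‖w‖ < rad N → evB (0 : Fin n → ℂ) w (T.Φ (ρ f)) = 0 := by
      intro w hw
      obtain ⟨q, hq, hq2⟩ := hloc w hw
      have h1 : ((E w).getD (m.comp ρ)) f = 0 := hf w (fun h => h (hev w hw))
      rw [hq] at h1
      rw [← hq2 f]
      exact h1
    have hword : ∀ l : List ι, ∀ w : ℂ, ‖w‖ < rad N →
        evB (0 : Fin n → ℂ) w (T.Φ (word D l (ρ f))) = 0 := by
      intro l
      induction l with
      | nil => exact hvan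
      | cons i l ih => exact hT i 0 h00 (word D l (ρ f)) ih
    have h3 : ρ f = 0 := by
      by_contra h4
      obtain ⟨l, hl⟩ := hm _ h4
      apply hl
      have h5 := hword l 0 (by rw [norm_zero]; exact hr)
      rwa [tend_zero, T.base] at h5
    exact hρ (by rw [h3, map_zero])

end Pool.Agent.TubeN
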