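import Pool.Agent.Lib_MP_1858fb_w.Wiener

/-!
# Weighted l^1 algebras of Laurent series with coefficients in a commutative Banach algebra
-/

set_option autoImplicit false

open scoped BigOperators
noncomputable section
namespace Pool.Agent.WienerA

open Pool.Agent.Lib_MP_1858fb_w (Wt)

/-- The weighted l^1 space of two sided sequences in `A`. The element stored at `k` is
the coefficient times the weight. -/
@[nolint unusedArguments]
def WA (A : Type) [NormedCommRing A] (_ω : Wt) : Type := lp (fun _ : ℤ => A) 1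

variable {A : Type} [NormedCommRing A] [NormedAlgebra ℂ A] [CompleteSpace A] [NormOneClass A]
  {ω : Wt}

instance : NormedAddCommGroup (WA A ω) :=
  inferInstanceAs (NormedAddCommGroup (lp (fun _ : ℤ => A) 1))
instance : NormedSpace ℂ (WA A ω) :=
  inferInstanceAs (NormedSpace ℂ (lp (fun _ : ℤ => A) 1))
instance : CompleteSpace (WA A ω) :=
  inferInstanceAs (CompleteSpace (lp (fun _ : ℤ => A) 1))

namespace WA

theorem w_ne (ω : Wt) (k : ℤ) : (ω.w k : ℂ) ≠ 0 := by
  exact_mod_cast (ω.pos k).ne'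

theorem norm_w (ω : Wt) (k : ℤ) : ‖(ω.w k : ℂ)‖ = ω.w k := by
  rw [Complex.norm_real, Real.norm_of_nonneg (ω.pos k).le]

/-- the coefficient at `k`, as a function. -/
def co (f : WA A ω) (k : ℤ) : A := (ω.w k : ℂ)⁻¹ • (f : lp (fun _ : ℤ => A) 1).1 k

omit [CompleteSpace A] [NormOneClass A] in
theorem co_norm (f : WA A ω) (k : ℤ) :
    ‖f.co k‖ * ω.w k = ‖(f : lp (fun _ : ℤ => A) 1).1 k‖ := by
  unfold co
  rw [norm_smul, norm_inv, norm_w, mul_comm, ← mul_assoc, mul_inv_cancel₀ (ω.pos k).ne', one_mul]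

omit [CompleteSpace A] [NormOneClass A] in
theorem summ (f : WA A ω) : Summable fun k => ‖f.co k‖ * ω.w k := by
  have h := (lp.memℓp (f : lp (fun _ : ℤ => A) 1)).summable (by norm_num)
  refine h.congr fun k => ?_
  rw [co_norm]
  simp

omit [CompleteSpace A] [NormOneClass A] in
theorem norm_eq (f : WA A ω) : ‖f‖ = ∑' k, ‖f.co k‖ * ω.w k := by
  have h := lp.norm_eq_tsum_rpow (p := 1) (by norm_num) (f : lp (fun _ : ℤ => A) 1)
  simp only [ENNReal.toReal_one, Real.rpow_one, div_one] at h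
  refine Eq.trans h ?_
  refine tsum_congr fun k => ?_
  rw [co_norm]

omit [CompleteSpace A] [NormOneClass A] in
theorem ext {f g : WA A ω} (h : ∀ k, f.co k = g.co k) : f = g := by
  apply lp.ext
  funext k
  have h1 := congrArg (fun a => (ω.w k : ℂ) • a) (h k)
  simp only [co, smul_smul, mul_inv_cancel₀ (w_ne ω k), one_smul] at h1
  exact h1

/-- The element with given coefficients. -/
def ofSeq (a : ℤ → A) (h : Summable fun k => ‖a k‖ * ω.w k) : WA A ω :=
  (⟨fun k => (ω.w k : ℂ) • a k, by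
    apply memℓp_gen
    refine h.congr fun k => ?_
    rw [norm_smul, norm_w, mul_comm]
    simp⟩ : lp (fun _ : ℤ => A) 1)

omit [CompleteSpace A] [NormOneClass A] in
@[simp] theorem co_ofSeq (a : ℤ → A) (h : Summable fun k => ‖a k‖ * ω.w k) (k : ℤ) :
    (ofSeq a h).co k = a k := by
  show (ω.w k : ℂ)⁻¹ • ((ω.w k : ℂ) • a k) = a k
  rw [smul_smul, inv_mul_cancel₀ (w_ne ω k), one_smul]

omit [CompleteSpace A] [NormOneClass A] in
@[simp] theorem co_add (f g : WA A ω) (k : ℤ) : (f + g).co k = f.co k + g.co k := by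
  show (ω.w k : ℂ)⁻¹ • ((f : lp (fun _ : ℤ => A) 1) + (g : lp (fun _ : ℤ => A) 1)).1 k = _
  unfold co
  rw [← smul_add]
  rfl

omit [CompleteSpace A] [NormOneClass A] in
@[simp] theorem co_sub (f g : WA A ω) (k : ℤ) : (f - g).co k = f.co k - g.co k := by
  show (ω.w k : ℂ)⁻¹ • ((f : lp (fun _ : ℤ => A) 1) - (g : lp (fun _ : ℤ => A) 1)).1 k = _
  unfold co
  rw [← smul_sub]
  rfl

omit [CompleteSpace A] [NormOneClass A] in
@[simp] theorem co_neg (f : WA A ω) (k : ℤ) : (-f).co k = - f.co k := by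
  show (ω.w k : ℂ)⁻¹ • (-(f : lp (fun _ : ℤ => A) 1)).1 k = _
  unfold co
  rw [← smul_neg]
  rfl

omit [CompleteSpace A] [NormOneClass A] in
@[simp] theorem co_zero (k : ℤ) : (0 : WA A ω).co k = 0 := by
  show (ω.w k : ℂ)⁻¹ • (0 : lp (fun _ : ℤ => A) 1).1 k = _
  exact smul_zero _

omit [CompleteSpace A] [NormOneClass A] in
@[simp] theorem co_smul (c : ℂ) (f : WA A ω) (k : ℤ) : (c • f).co k = c • f.co k := by
  show (ω.w k : ℂ)⁻¹ • (c • (f : lp (fun _ : ℤ => A) 1)).1 k = _
  unfold co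
  rw [smul_comm]
  rfl

omit [CompleteSpace A] [NormOneClass A] in
theorem norm_co_le (f : WA A ω) (k : ℤ) : ‖f.co k‖ * ω.w k ≤ ‖f‖ := by
  rw [norm_eq]
  exact f.summ.le_tsum k (fun j _ => mul_nonneg (norm_nonneg _) (ω.pos j).le)

omit [CompleteSpace A] [NormOneClass A] in
theorem norm_le_of {f : WA A ω} {C : ℝ} (h : ∑' k, ‖f.co k‖ * ω.w k ≤ C) : ‖f‖ ≤ C := by
  rw [norm_eq]; exact h

/-! ### Multiplication -/

omit [CompleteSpace A] [NormOneClass A] in
theorem summ_prod (f g : WA A ω) :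
    Summable fun p : ℤ × ℤ => (‖f.co p.1‖ * ω.w p.1) * (‖g.co p.2‖ * ω.w p.2) :=
  f.summ.mul_of_nonneg g.summ (fun j => mul_nonneg (norm_nonneg _) (ω.pos j).le)
    (fun j => mul_nonneg (norm_nonneg _) (ω.pos j).le)

/-- shear of the plane. -/
def shear : ℤ × ℤ ≃ ℤ × ℤ where
  toFun p := (p.2, p.1 - p.2)
  invFun p := (p.1 + p.2, p.1)
  left_inv p := by ext <;> simp
  right_inv p := by ext <;> simp

omit [CompleteSpace A] [NormOneClass A] in
theorem conv_le (f g : WA A ω) (p : ℤ × ℤ) : ‖f.co p.2 * g.co (p.1 - p.2)‖ * ω.w p.1 ≤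
    (‖f.co p.2‖ * ω.w p.2) * (‖g.co (p.1 - p.2)‖ * ω.w (p.1 - p.2)) := by
  have h3 : ω.w p.1 ≤ ω.w p.2 * ω.w (p.1 - p.2) := by
    have := ω.sub p.2 (p.1 - p.2)
    rwa [add_sub_cancel] at this
  calc ‖f.co p.2 * g.co (p.1 - p.2)‖ * ω.w p.1
      ≤ (‖f.co p.2‖ * ‖g.co (p.1 - p.2)‖) * ω.w p.1 :=
        mul_le_mul_of_nonneg_right (norm_mul_le _ _) (ω.pos _).le
    _ ≤ ‖f.co p.2‖ * ‖g.co (p.1 - p.2)‖ * (ω.w p.2 * ω.w (p.1 - p.2)) :=
        mul_le_mul_of_nonneg_left h3 (by positivity)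
    _ = _ := by ring

omit [CompleteSpace A] [NormOneClass A] in
theorem summ_conv (f g : WA A ω) :
    Summable fun p : ℤ × ℤ => ‖f.co p.2 * g.co (p.1 - p.2)‖ * ω.w p.1 := by
  have h := (Equiv.summable_iff shear).2 (summ_prod f g)
  exact Summable.of_nonneg_of_le (fun p => mul_nonneg (norm_nonneg _) (ω.pos _).le)
    (fun p => conv_le f g p) h

omit [CompleteSpace A] [NormOneClass A] in
theorem summ_conv' (f g : WA A ω) (n : ℤ) :
    Summable fun i => ‖f.co i * g.co (n - i)‖ := by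
  have h := (summ_conv f g).prod_factor n
  have h2 := h.mul_right (ω.w n)⁻¹
  refine h2.congr fun i => ?_
  rw [mul_assoc, mul_inv_cancel₀ (ω.pos n).ne', mul_one]

/-- coefficients of the product. -/
def conv (f g : WA A ω) (n : ℤ) : A := ∑' i, f.co i * g.co (n - i)

omit [CompleteSpace A] [NormOneClass A] in
theorem norm_conv_le (f g : WA A ω) (n : ℤ) :
    ‖conv f g n‖ * ω.w n ≤ ∑' i, ‖f.co i * g.co (n - i)‖ * ω.w n := by
  rw [tsum_mul_right]
  exact mul_le_mul_of_nonneg_right (norm_tsum_le_tsum_norm (summ_conv' f g n)) (ω.pos n).le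

omit [CompleteSpace A] [NormOneClass A] in
theorem summ_mul (f g : WA A ω) : Summable fun n => ‖conv f g n‖ * ω.w n :=
  Summable.of_nonneg_of_le (fun n => mul_nonneg (norm_nonneg _) (ω.pos _).le)
    (norm_conv_le f g) (summ_conv f g).prod

instance : Mul (WA A ω) := ⟨fun f g => ofSeq (conv f g) (summ_mul f g)⟩

omit [CompleteSpace A] [NormOneClass A] in
theorem co_mul (f g : WA A ω) (n : ℤ) : (f * g).co n = ∑' i, f.co i * g.co (n - i) :=
  co_ofSeq _ _ _

omit [CompleteSpace A] [NormOneClass A] in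
theorem norm_mul_le' (f g : WA A ω) : ‖f * g‖ ≤ ‖f‖ * ‖g‖ := by
  have h1 : ‖f * g‖ ≤ ∑' n, ∑' i, ‖f.co i * g.co (n - i)‖ * ω.w n := by
    rw [norm_eq]
    refine (f * g).summ.tsum_le_tsum (fun n => ?_) (summ_conv f g).prod
    rw [co_mul]
    exact norm_conv_le f g n
  refine h1.trans ?_
  have h4 := Equiv.tsum_eq shear
    (fun p : ℤ × ℤ => (‖f.co p.1‖ * ω.w p.1) * (‖g.co p.2‖ * ω.w p.2))
  rw [← Summable.tsum_prod (summ_conv f g), norm_eq f, norm_eq g,
    f.summ.tsum_mul_tsum g.summ (summ_prod f g), ← h4]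
  exact (summ_conv f g).tsum_le_tsum (fun p => conv_le f g p)
    ((Equiv.summable_iff shear).2 (summ_prod f g))

omit [CompleteSpace A] [NormOneClass A] in
theorem mul_comm' (f g : WA A ω) : f * g = g * f := by
  apply ext
  intro n
  rw [co_mul, co_mul, ← Equiv.tsum_eq (Equiv.subLeft n)]
  refine tsum_congr fun i => ?_
  simp only [Equiv.subLeft_apply, sub_sub_cancel]
  ring

omit [NormOneClass A] in
theorem summ_conv1 (f g : WA A ω) (n : ℤ) : Summable fun i => f.co i * g.co (n - i) :=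
  (summ_conv' f g n).of_norm

omit [NormOneClass A] in
theorem add_mul' (f g h : WA A ω) : (f + g) * h = f * h + g * h := by
  apply ext
  intro n
  rw [co_add, co_mul, co_mul, co_mul, ← (summ_conv1 f h n).tsum_add (summ_conv1 g h n)]
  refine tsum_congr fun i => ?_
  rw [co_add]; ring

omit [NormOneClass A] in
theorem smul_mul' (c : ℂ) (f h : WA A ω) : (c • f) * h = c • (f * h) := by
  apply ext
  intro n
  rw [co_smul, co_mul, co_mul, ← (summ_conv1 f h n).tsum_const_smul]
  refine tsum_congr fun i => ?_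
  rw [co_smul, smul_mul_assoc]

/-- a monomial. -/
def mono (ω : Wt) (k : ℤ) (c : A) : WA A ω :=
  ofSeq (Pi.single k c) (by
    refine summable_of_ne_finset_zero (s := {k}) fun j hj => ?_
    rw [Finset.mem_singleton] at hj
    rw [Pi.single_eq_of_ne hj, norm_zero, zero_mul])

omit [CompleteSpace A] [NormOneClass A] in
theorem co_mono (k : ℤ) (c : A) (j : ℤ) : (mono ω k c).co j = if j = k then c else 0 := by
  unfold mono
  rw [co_ofSeq, Pi.single_apply]

omit [CompleteSpace A] [NormOneClass A] in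
theorem norm_mono (k : ℤ) (c : A) : ‖mono ω k c‖ = ‖c‖ * ω.w k := by
  rw [norm_eq, tsum_eq_single k]
  · rw [co_mono, if_pos rfl]
  · intro j hj
    rw [co_mono, if_neg hj, norm_zero, zero_mul]

instance : One (WA A ω) := ⟨mono ω 0 1⟩

omit [CompleteSpace A] [NormOneClass A] in
theorem one_def : (1 : WA A ω) = mono ω 0 1 := rfl

omit [CompleteSpace A] [NormOneClass A] in
theorem co_one (k : ℤ) : (1 : WA A ω).co k = if k = 0 then 1 else 0 := co_mono 0 1 k

omit [CompleteSpace A] [NormOneClass A] in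
theorem co_mono_mul (k : ℤ) (c : A) (f : WA A ω) (n : ℤ) :
    (mono ω k c * f).co n = c * f.co (n - k) := by
  rw [co_mul, tsum_eq_single k]
  · rw [co_mono, if_pos rfl]
  · intro j hj
    rw [co_mono, if_neg hj, zero_mul]

omit [CompleteSpace A] [NormOneClass A] in
theorem one_mul' (f : WA A ω) : 1 * f = f := by
  apply ext
  intro n
  rw [one_def, co_mono_mul, one_mul, sub_zero]

omit [NormOneClass A] in
theorem mul_assoc' (f g h : WA A ω) : f * g * h = f * (g * h) := by
  apply ext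
  intro n
  have hs : Summable fun p : ℤ × ℤ => f.co p.1 * g.co p.2 * h.co (n - p.1 - p.2) := by
    apply Summable.of_norm
    refine Summable.of_nonneg_of_le (fun p => norm_nonneg _) (fun p => ?_)
      ((summ_prod f g).mul_left (‖h‖ / ω.w n))
    have h1 := norm_co_le h (n - p.1 - p.2)
    have h2 : ω.w n ≤ ω.w p.1 * ω.w p.2 * ω.w (n - p.1 - p.2) := by
      have e1 := ω.sub (p.1 + p.2) (n - p.1 - p.2)
      have e2 : p.1 + p.2 + (n - p.1 - p.2) = n := by ring
      rw [e2] at e1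
      exact e1.trans (mul_le_mul_of_nonneg_right (ω.sub _ _) (ω.pos _).le)
    rw [div_mul_eq_mul_div, le_div_iff₀ (ω.pos n)]
    have h3 : ‖f.co p.1 * g.co p.2 * h.co (n - p.1 - p.2)‖ ≤
        ‖f.co p.1‖ * ‖g.co p.2‖ * ‖h.co (n - p.1 - p.2)‖ :=
      (norm_mul_le _ _).trans (mul_le_mul_of_nonneg_right (norm_mul_le _ _) (norm_nonneg _))
    calc ‖f.co p.1 * g.co p.2 * h.co (n - p.1 - p.2)‖ * ω.w n
        ≤ ‖f.co p.1‖ * ‖g.co p.2‖ * ‖h.co (n - p.1 - p.2)‖ * ω.w n :=
          mul_le_mul_of_nonneg_right h3 (ω.pos n).le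
      _ ≤ ‖f.co p.1‖ * ‖g.co p.2‖ * ‖h.co (n - p.1 - p.2)‖ *
          (ω.w p.1 * ω.w p.2 * ω.w (n - p.1 - p.2)) :=
          mul_le_mul_of_nonneg_left h2 (by positivity)
      _ = (‖h.co (n - p.1 - p.2)‖ * ω.w (n - p.1 - p.2)) *
          ((‖f.co p.1‖ * ω.w p.1) * (‖g.co p.2‖ * ω.w p.2)) := by ring
      _ ≤ ‖h‖ * ((‖f.co p.1‖ * ω.w p.1) * (‖g.co p.2‖ * ω.w p.2)) :=
          mul_le_mul_of_nonneg_right h1
            (mul_nonneg (mul_nonneg (norm_nonneg _) (ω.pos _).le)
              (mul_nonneg (norm_nonneg _) (ω.pos _).le))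
  have hs2 := (Equiv.summable_iff shear).2 hs
  have e1 : (f * g * h).co n =
      ∑' p : ℤ × ℤ, f.co p.1 * g.co p.2 * h.co (n - p.1 - p.2) := by
    rw [← Equiv.tsum_eq shear]
    refine Eq.trans ?_ (Summable.tsum_prod hs2).symm
    rw [co_mul]
    refine tsum_congr fun i => ?_
    rw [co_mul, ← (summ_conv1 f g i).tsum_mul_right]
    refine tsum_congr fun j => ?_
    show f.co j * g.co (i - j) * h.co (n - i) = f.co j * g.co (i - j) * h.co (n - j - (i - j))
    congr 2
    ring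
  have e2 : (f * (g * h)).co n =
      ∑' p : ℤ × ℤ, f.co p.1 * g.co p.2 * h.co (n - p.1 - p.2) := by
    rw [Summable.tsum_prod hs, co_mul]
    refine tsum_congr fun i => ?_
    rw [co_mul, ← (summ_conv1 g h (n - i)).tsum_mul_left]
    refine tsum_congr fun j => ?_
    ring
  rw [e1, e2]

instance : CommRing (WA A ω) :=
  { (inferInstance : AddCommGroup (WA A ω)) with
    mul := (· * ·)
    one := 1
    mul_assoc := mul_assoc'
    one_mul := one_mul'
    mul_one := fun f => by rw [mul_comm', one_mul']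
    left_distrib := fun f g h => by rw [mul_comm' f, add_mul', mul_comm' g, mul_comm' h]
    right_distrib := add_mul'
    mul_comm := mul_comm'
    zero_mul := fun f => by
      apply ext; intro n; rw [co_mul]; simp
    mul_zero := fun f => by
      apply ext; intro n; rw [co_mul]; simp }

instance : NormedCommRing (WA A ω) :=
  { (inferInstance : NormedAddCommGroup (WA A ω)), (inferInstance : CommRing (WA A ω)) with
    norm_mul_le := norm_mul_le' }

instance : Algebra ℂ (WA A ω) :=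
  Algebra.ofModule smul_mul' (fun c f g => by
    rw [mul_comm' f, smul_mul', mul_comm' g])

instance : NormedAlgebra ℂ (WA A ω) :=
  { (inferInstance : Algebra ℂ (WA A ω)) with
    norm_smul_le := fun c f => norm_smul_le c f }

instance : NormOneClass (WA A ω) := ⟨by
  rw [one_def, norm_mono, norm_one, ω.zero, one_mul]⟩

end WA

end Pool.Agent.WienerA
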