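import Pool.Agent.Lib_MP_1209e6_nt.WA

/-!
# Weighted l^1 algebras of Laurent series over a Banach algebra: projections, evaluation,
functoriality
-/

set_option autoImplicit false

open scoped BigOperators
noncomputable section
namespace Pool.Agent.WienerA

open Pool.Agent.Lib_MP_1858fb_w (Wt)

variable {A : Type} [NormedCommRing A] [NormedAlgebra ℂ A] [CompleteSpace A] [NormOneClass A]
  {ω : Wt}

namespace WA

/-! ### Supports -/

/-- all exponents of `f` lie in `S`. -/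
def Supp (S : Set ℤ) (f : WA A ω) : Prop := ∀ k, k ∉ S → f.co k = 0

theorem Supp.mono_set {S T : Set ℤ} (h : S ⊆ T) {f : WA A ω} (hf : Supp S f) : Supp T f :=
  fun k hk => hf k (fun h2 => hk (h h2))

theorem supp_univ (f : WA A ω) : Supp Set.univ f := fun k hk => absurd (Set.mem_univ k) hk

theorem Supp.add {S : Set ℤ} {f g : WA A ω} (hf : Supp S f) (hg : Supp S g) : Supp S (f + g) :=
  fun k hk => by rw [co_add, hf k hk, hg k hk, add_zero]

theorem Supp.sub {S : Set ℤ} {f g : WA A ω} (hf : Supp S f) (hg : Supp S g) : Supp S (f - g) :=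
  fun k hk => by rw [co_sub, hf k hk, hg k hk, sub_zero]

theorem Supp.neg {S : Set ℤ} {f : WA A ω} (hf : Supp S f) : Supp S (-f) :=
  fun k hk => by rw [co_neg, hf k hk, neg_zero]

theorem Supp.smul {S : Set ℤ} {f : WA A ω} (c : ℂ) (hf : Supp S f) : Supp S (c • f) :=
  fun k hk => by rw [co_smul, hf k hk, smul_zero]

theorem supp_zero (S : Set ℤ) : Supp S (0 : WA A ω) := fun k _ => co_zero k

theorem supp_mono {S : Set ℤ} {k : ℤ} (hk : k ∈ S) (c : A) : Supp S (mono ω k c) := by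
  intro j hj
  rw [co_mono, if_neg]
  rintro rfl
  exact hj hk

/-! ### Projections -/

theorem summ_ind (S : Set ℤ) (f : WA A ω) :
    Summable fun k => ‖S.indicator f.co k‖ * ω.w k := by
  refine Summable.of_nonneg_of_le (fun k => mul_nonneg (norm_nonneg _) (ω.pos k).le)
    (fun k => ?_) f.summ
  by_cases hk : k ∈ S
  · rw [Set.indicator_of_mem hk]
  · rw [Set.indicator_of_notMem hk, norm_zero, zero_mul]
    exact mul_nonneg (norm_nonneg _) (ω.pos k).le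

/-- The part of `f` with exponents in `S`. -/
def proj (S : Set ℤ) : WA A ω →L[ℂ] WA A ω :=
  LinearMap.mkContinuous
    { toFun := fun f => ofSeq (S.indicator f.co) (summ_ind S f)
      map_add' := fun f g => by
        apply ext; intro k
        rw [co_ofSeq, co_add, co_ofSeq, co_ofSeq]
        by_cases hk : k ∈ S
        · simp [Set.indicator_of_mem hk]
        · simp [Set.indicator_of_notMem hk]
      map_smul' := fun c f => by
        apply ext; intro k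
        rw [co_ofSeq, RingHom.id_apply, co_smul, co_ofSeq]
        by_cases hk : k ∈ S
        · simp [Set.indicator_of_mem hk]
        · simp [Set.indicator_of_notMem hk] } 1 (fun f => by
    rw [one_mul, norm_eq, norm_eq]
    refine Summable.tsum_le_tsum (fun k => ?_) (WA.summ _) f.summ
    show ‖(ofSeq (S.indicator f.co) (summ_ind S f)).co k‖ * _ ≤ _
    rw [co_ofSeq]
    by_cases hk : k ∈ S
    · rw [Set.indicator_of_mem hk]
    · rw [Set.indicator_of_notMem hk, norm_zero, zero_mul]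
      exact mul_nonneg (norm_nonneg _) (ω.pos k).le)

theorem co_proj (S : Set ℤ) (f : WA A ω) (k : ℤ) : (proj S f).co k = S.indicator f.co k :=
  co_ofSeq _ (summ_ind S f) _

theorem norm_proj_le (S : Set ℤ) (f : WA A ω) : ‖proj S f‖ ≤ ‖f‖ := by
  have h := (proj (A := A) (ω := ω) S).le_of_opNorm_le
    (LinearMap.mkContinuous_norm_le _ zero_le_one _) f
  rwa [one_mul] at h

theorem supp_proj (S : Set ℤ) (f : WA A ω) : Supp S (proj S f) := by
  intro k hk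
  rw [co_proj, Set.indicator_of_notMem hk]

/-- the part with negative exponents -/
def Nn : WA A ω →L[ℂ] WA A ω := proj {k | k < 0}

/-- the part with nonnegative exponents -/
def Pp : WA A ω →L[ℂ] WA A ω := proj {k | 0 ≤ k}

theorem Nn_add_Pp (f : WA A ω) : Nn f + Pp f = f := by
  apply ext
  intro k
  unfold Nn Pp
  rw [co_add, co_proj, co_proj]
  rcases lt_or_ge k 0 with hk | hk
  · rw [Set.indicator_of_mem (show k ∈ {k : ℤ | k < 0} from hk),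
      Set.indicator_of_notMem (fun h : k ∈ {k : ℤ | 0 ≤ k} => absurd hk (not_lt.2 h)), add_zero]
  · rw [Set.indicator_of_notMem (fun h : k ∈ {k : ℤ | k < 0} => absurd hk (not_le.2 h)),
      Set.indicator_of_mem (show k ∈ {k : ℤ | 0 ≤ k} from hk), zero_add]

theorem norm_Nn_le (f : WA A ω) : ‖Nn f‖ ≤ ‖f‖ := norm_proj_le _ f

theorem norm_Pp_le (f : WA A ω) : ‖Pp f‖ ≤ ‖f‖ := norm_proj_le _ f

theorem supp_Nn (f : WA A ω) : Supp {k | k < 0} (Nn f) := supp_proj _ f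

theorem supp_Pp (f : WA A ω) : Supp {k | 0 ≤ k} (Pp f) := supp_proj _ f

/-! ### Evaluation -/

/-- the value at `ζ` -/
def ev (f : WA A ω) (ζ : ℂ) : A := ∑' k : ℤ, ζ ^ k • f.co k

theorem ev_bound {S : Set ℤ} {f : WA A ω} (hf : Supp S f) {ζ : ℂ}
    (h : ∀ k ∈ S, ‖ζ‖ ^ k ≤ ω.w k) (k : ℤ) : ‖ζ ^ k • f.co k‖ ≤ ‖f.co k‖ * ω.w k := by
  by_cases hk : k ∈ S
  · rw [norm_smul, norm_zpow, mul_comm]
    exact mul_le_mul_of_nonneg_left (h k hk) (norm_nonneg _)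
  · rw [hf k hk, smul_zero, norm_zero, zero_mul]

theorem ev_summ_norm {S : Set ℤ} {f : WA A ω} (hf : Supp S f) {ζ : ℂ}
    (h : ∀ k ∈ S, ‖ζ‖ ^ k ≤ ω.w k) : Summable fun k : ℤ => ‖ζ ^ k • f.co k‖ :=
  Summable.of_nonneg_of_le (fun _ => norm_nonneg _) (ev_bound hf h) f.summ

theorem ev_summ {S : Set ℤ} {f : WA A ω} (hf : Supp S f) {ζ : ℂ}
    (h : ∀ k ∈ S, ‖ζ‖ ^ k ≤ ω.w k) : Summable fun k : ℤ => ζ ^ k • f.co k :=
  (ev_summ_norm hf h).of_norm

theorem norm_ev_le {S : Set ℤ} {f : WA A ω} (hf : Supp S f) {ζ : ℂ}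
    (h : ∀ k ∈ S, ‖ζ‖ ^ k ≤ ω.w k) : ‖ev f ζ‖ ≤ ‖f‖ := by
  rw [norm_eq]
  exact (norm_tsum_le_tsum_norm (ev_summ_norm hf h)).trans
    ((ev_summ_norm hf h).tsum_le_tsum (ev_bound hf h) f.summ)

theorem ev_add {S : Set ℤ} {f g : WA A ω} (hf : Supp S f) (hg : Supp S g) {ζ : ℂ}
    (h : ∀ k ∈ S, ‖ζ‖ ^ k ≤ ω.w k) : ev (f + g) ζ = ev f ζ + ev g ζ := by
  unfold ev
  rw [← (ev_summ hf h).tsum_add (ev_summ hg h)]
  exact tsum_congr fun k => by rw [co_add, smul_add]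

theorem ev_sub {S : Set ℤ} {f g : WA A ω} (hf : Supp S f) (hg : Supp S g) {ζ : ℂ}
    (h : ∀ k ∈ S, ‖ζ‖ ^ k ≤ ω.w k) : ev (f - g) ζ = ev f ζ - ev g ζ := by
  unfold ev
  rw [← (ev_summ hf h).tsum_sub (ev_summ hg h)]
  exact tsum_congr fun k => by rw [co_sub, smul_sub]

theorem ev_zero (ζ : ℂ) : ev (0 : WA A ω) ζ = 0 := by
  unfold ev
  simp

theorem ev_neg (f : WA A ω) (ζ : ℂ) : ev (-f) ζ = - ev f ζ := by
  unfold ev
  rw [← tsum_neg]
  exact tsum_congr fun k => by rw [co_neg, smul_neg]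

theorem ev_smul {S : Set ℤ} {f : WA A ω} (hf : Supp S f) {ζ : ℂ}
    (h : ∀ k ∈ S, ‖ζ‖ ^ k ≤ ω.w k) (c : ℂ) : ev (c • f) ζ = c • ev f ζ := by
  unfold ev
  rw [← (ev_summ hf h).tsum_const_smul]
  exact tsum_congr fun k => by rw [co_smul, smul_comm]

theorem ev_mono (k : ℤ) (c : A) (ζ : ℂ) : ev (mono ω k c) ζ = ζ ^ k • c := by
  unfold ev
  rw [tsum_eq_single k]
  · rw [co_mono, if_pos rfl]
  · intro j hj
    rw [co_mono, if_neg hj, smul_zero]

theorem ev_mul {S T : Set ℤ} {f g : WA A ω} (hf : Supp S f) (hg : Supp T g) {ζ : ℂ}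
    (h0 : ζ ≠ 0) (hS : ∀ k ∈ S, ‖ζ‖ ^ k ≤ ω.w k) (hT : ∀ k ∈ T, ‖ζ‖ ^ k ≤ ω.w k) :
    ev (f * g) ζ = ev f ζ * ev g ζ := by
  have h1 := ev_summ_norm hf hS
  have h2 := ev_summ_norm hg hT
  have h3 : Summable fun p : ℤ × ℤ => (ζ ^ p.1 • f.co p.1) * (ζ ^ p.2 • g.co p.2) :=
    summable_mul_of_summable_norm h1 h2
  have h4 := (Equiv.summable_iff shear).2 h3
  unfold ev
  rw [tsum_mul_tsum_of_summable_norm h1 h2, ← Equiv.tsum_eq shear]
  refine Eq.trans ?_ (Summable.tsum_prod h4).symm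
  refine tsum_congr fun n => ?_
  rw [co_mul, ← (summ_conv1 f g n).tsum_const_smul]
  refine tsum_congr fun i => ?_
  show ζ ^ n • (f.co i * g.co (n - i)) = (ζ ^ i • f.co i) * (ζ ^ (n - i) • g.co (n - i))
  rw [smul_mul_smul_comm, ← zpow_add₀ h0]
  congr 2
  ring

/-- the value at `ζ`, as an algebra homomorphism -/
def evHom (ζ : ℂ) (h0 : ζ ≠ 0) (h : ∀ k, ‖ζ‖ ^ k ≤ ω.w k) : WA A ω →ₐ[ℂ] A where
  toFun f := ev f ζ
  map_one' := by
    show ev (1 : WA A ω) ζ = 1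
    rw [one_def, ev_mono, zpow_zero, one_smul]
  map_mul' f g := ev_mul (supp_univ f) (supp_univ g) h0 (fun k _ => h k) (fun k _ => h k)
  map_zero' := ev_zero ζ
  map_add' f g := ev_add (supp_univ f) (supp_univ g) (fun k _ => h k)
  commutes' c := by
    show ev (algebraMap ℂ (WA A ω) c) ζ = _
    rw [Algebra.algebraMap_eq_smul_one, ev_smul (supp_univ _) (fun k _ => h k), one_def, ev_mono,
      zpow_zero, one_smul, Algebra.algebraMap_eq_smul_one]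

theorem evHom_apply (ζ : ℂ) (h0 : ζ ≠ 0) (h : ∀ k, ‖ζ‖ ^ k ≤ ω.w k) (f : WA A ω) :
    evHom ζ h0 h f = ev f ζ := rfl

theorem norm_evHom_le (ζ : ℂ) (h0 : ζ ≠ 0) (h : ∀ k, ‖ζ‖ ^ k ≤ ω.w k) (f : WA A ω) :
    ‖evHom ζ h0 h f‖ ≤ ‖f‖ := norm_ev_le (supp_univ f) (fun k _ => h k)

/-- the value depends holomorphically on the point -/
theorem differentiableOn_ev {S : Set ℤ} {f : WA A ω} (hf : Supp S f) {U : Set ℂ} (hU : IsOpen U)
    (h0 : ∀ ζ ∈ U, ζ ≠ 0) (h : ∀ ζ ∈ U, ∀ k ∈ S, ‖ζ‖ ^ k ≤ ω.w k) :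
    DifferentiableOn ℂ (fun ζ => ev f ζ) U := by
  unfold ev
  refine Complex.differentiableOn_tsum_of_summable_norm f.summ (fun k => ?_) hU
    (fun k ζ hζ => ev_bound hf (h ζ hζ) k)
  intro ζ hζ
  exact ((differentiableAt_zpow.2 (Or.inl (h0 ζ hζ))).smul_const _).differentiableWithinAt

/-! ### Constants -/

/-- constant series -/
def cst : A →ₐ[ℂ] WA A ω where
  toFun a := mono ω 0 a
  map_one' := rfl
  map_mul' a b := by
    apply ext; intro n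
    rw [co_mono_mul, co_mono, co_mono, sub_zero]
    split_ifs <;> simp
  map_zero' := by
    apply ext; intro n
    rw [co_mono, co_zero]; simp
  map_add' a b := by
    apply ext; intro n
    rw [co_add, co_mono, co_mono, co_mono]
    split_ifs <;> simp
  commutes' c := by
    apply ext; intro n
    show (mono ω 0 (algebraMap ℂ A c)).co n = _
    rw [Algebra.algebraMap_eq_smul_one, Algebra.algebraMap_eq_smul_one, co_smul, one_def, co_mono,
      co_mono]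
    split_ifs <;> simp

theorem co_cst (a : A) (k : ℤ) : (cst a : WA A ω).co k = if k = 0 then a else 0 := co_mono 0 a k

theorem norm_cst (a : A) : ‖(cst a : WA A ω)‖ = ‖a‖ := by
  have h : ‖(cst a : WA A ω)‖ = ‖a‖ * ω.w 0 := norm_mono 0 a
  rw [h, ω.zero, mul_one]

theorem ev_cst (a : A) (ζ : ℂ) : ev (cst a : WA A ω) ζ = a := by
  have h : ev (cst a : WA A ω) ζ = ζ ^ (0 : ℤ) • a := ev_mono 0 a ζ
  rw [h, zpow_zero, one_smul]

/-! ### Functoriality -/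

section map

variable {A' : Type} [NormedCommRing A'] [NormedAlgebra ℂ A'] [CompleteSpace A'] [NormOneClass A']

theorem map_summ (φ : A →ₐ[ℂ] A') (hφ : ∀ a, ‖φ a‖ ≤ ‖a‖) (f : WA A ω) :
    Summable fun k => ‖φ (f.co k)‖ * ω.w k :=
  Summable.of_nonneg_of_le (fun k => mul_nonneg (norm_nonneg _) (ω.pos k).le)
    (fun k => mul_le_mul_of_nonneg_right (hφ _) (ω.pos k).le) f.summ

theorem continuous_of_le (φ : A →ₐ[ℂ] A') (hφ : ∀ a, ‖φ a‖ ≤ ‖a‖) : Continuous φ :=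
  AddMonoidHomClass.continuous_of_bound φ 1 fun a => by rw [one_mul]; exact hφ a

/-- the map induced by a homomorphism of the coefficients -/
def map (φ : A →ₐ[ℂ] A') (hφ : ∀ a, ‖φ a‖ ≤ ‖a‖) : WA A ω →ₐ[ℂ] WA A' ω where
  toFun f := ofSeq (fun k => φ (f.co k)) (map_summ φ hφ f)
  map_one' := by
    apply ext; intro n
    rw [co_ofSeq, co_one, co_one]
    split_ifs <;> simp
  map_mul' f g := by
    apply ext; intro n
    rw [co_ofSeq, co_mul, co_mul,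
      (summ_conv1 f g n).map_tsum φ (continuous_of_le φ hφ)]
    refine tsum_congr fun i => ?_
    rw [co_ofSeq, co_ofSeq, map_mul]
  map_zero' := by
    apply ext; intro n
    rw [co_ofSeq, co_zero, co_zero, map_zero]
  map_add' f g := by
    apply ext; intro n
    rw [co_add, co_ofSeq, co_ofSeq, co_ofSeq, co_add, map_add]
  commutes' c := by
    apply ext; intro n
    rw [co_ofSeq, Algebra.algebraMap_eq_smul_one, Algebra.algebraMap_eq_smul_one, co_smul,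
      co_smul, co_one, co_one, map_smul]
    split_ifs <;> simp

theorem co_map (φ : A →ₐ[ℂ] A') (hφ : ∀ a, ‖φ a‖ ≤ ‖a‖) (f : WA A ω) (k : ℤ) :
    (map φ hφ f).co k = φ (f.co k) := co_ofSeq _ (map_summ φ hφ f) k

theorem norm_map_le (φ : A →ₐ[ℂ] A') (hφ : ∀ a, ‖φ a‖ ≤ ‖a‖) (f : WA A ω) :
    ‖map φ hφ f‖ ≤ ‖f‖ := by
  rw [norm_eq, norm_eq]
  refine (WA.summ _).tsum_le_tsum (fun k => ?_) f.summ
  rw [co_map]
  exact mul_le_mul_of_nonneg_right (hφ _) (ω.pos k).le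

theorem map_proj (φ : A →ₐ[ℂ] A') (hφ : ∀ a, ‖φ a‖ ≤ ‖a‖) (S : Set ℤ) (f : WA A ω) :
    map φ hφ (proj S f) = proj S (map φ hφ f) := by
  apply ext; intro k
  rw [co_map, co_proj, co_proj]
  by_cases hk : k ∈ S
  · rw [Set.indicator_of_mem hk, Set.indicator_of_mem hk, co_map]
  · rw [Set.indicator_of_notMem hk, Set.indicator_of_notMem hk, map_zero]

theorem map_Nn (φ : A →ₐ[ℂ] A') (hφ : ∀ a, ‖φ a‖ ≤ ‖a‖) (f : WA A ω) :
    map φ hφ (Nn f) = Nn (map φ hφ f) := map_proj φ hφ _ f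

theorem map_Pp (φ : A →ₐ[ℂ] A') (hφ : ∀ a, ‖φ a‖ ≤ ‖a‖) (f : WA A ω) :
    map φ hφ (Pp f) = Pp (map φ hφ f) := map_proj φ hφ _ f

theorem map_cst (φ : A →ₐ[ℂ] A') (hφ : ∀ a, ‖φ a‖ ≤ ‖a‖) (a : A) :
    map φ hφ (cst a : WA A ω) = cst (φ a) := by
  apply ext; intro k
  rw [co_map, co_cst, co_cst]
  split_ifs <;> simp

theorem map_mono (φ : A →ₐ[ℂ] A') (hφ : ∀ a, ‖φ a‖ ≤ ‖a‖) (j : ℤ) (a : A) :
    map φ hφ (mono ω j a) = mono ω j (φ a) := by
  apply ext; intro k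
  rw [co_map, co_mono, co_mono]
  split_ifs <;> simp

theorem Supp.map {S : Set ℤ} {f : WA A ω} (hf : Supp S f) (φ : A →ₐ[ℂ] A')
    (hφ : ∀ a, ‖φ a‖ ≤ ‖a‖) : Supp S (map φ hφ f) := by
  intro k hk
  rw [co_map, hf k hk, map_zero]

theorem ev_map (φ : A →ₐ[ℂ] A') (hφ : ∀ a, ‖φ a‖ ≤ ‖a‖) {S : Set ℤ} {f : WA A ω}
    (hf : Supp S f) {ζ : ℂ} (h : ∀ k ∈ S, ‖ζ‖ ^ k ≤ ω.w k) :
    ev (map φ hφ f) ζ = φ (ev f ζ) := by
  unfold ev
  rw [(ev_summ hf h).map_tsum φ (continuous_of_le φ hφ)]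
  refine tsum_congr fun k => ?_
  rw [co_map, map_smul]

theorem continuous_map (φ : A →ₐ[ℂ] A') (hφ : ∀ a, ‖φ a‖ ≤ ‖a‖) :
    Continuous (map φ hφ : WA A ω → WA A' ω) :=
  continuous_of_le _ (norm_map_le φ hφ)

end map

/-! ### The exponential function -/

theorem map_exp' {B C : Type} [NormedCommRing B] [NormedAlgebra ℂ B] [CompleteSpace B]
    [NormedCommRing C] [NormedAlgebra ℂ C] (f : B →ₐ[ℂ] C) (hf : Continuous f) (x : B) :
    f (NormedSpace.exp x) = NormedSpace.exp (f x) :=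
  NormedSpace.map_exp_of_mem_ball (𝕂 := ℂ) f hf x
    ((NormedSpace.expSeries_radius_eq_top ℂ B).symm ▸ edist_lt_top _ _)

/-- the series `exp (c ζ)` -/
def expS (ω : Wt) (A : Type) [NormedCommRing A] [NormedAlgebra ℂ A] [CompleteSpace A]
    [NormOneClass A] (c : ℂ) : WA A ω := NormedSpace.exp (mono ω 1 (algebraMap ℂ A c))

theorem ev_expS (c ζ : ℂ) (h0 : ζ ≠ 0) (h : ∀ k, ‖ζ‖ ^ k ≤ ω.w k) :
    ev (expS ω A c) ζ = algebraMap ℂ A (Complex.exp (c * ζ)) := by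
  have hc : Continuous (evHom (A := A) (ω := ω) ζ h0 h) :=
    continuous_of_le _ (norm_evHom_le ζ h0 h)
  have h1 : evHom ζ h0 h (expS ω A c) = NormedSpace.exp (evHom ζ h0 h (mono ω 1 (algebraMap ℂ A c))) :=
    map_exp' _ hc _
  have h2 : evHom ζ h0 h (mono ω 1 (algebraMap ℂ A c)) = algebraMap ℂ A (c * ζ) := by
    rw [evHom_apply, ev_mono, zpow_one, map_mul, mul_comm (algebraMap ℂ A c),
      ← Algebra.smul_def]
  rw [← evHom_apply ζ h0 h, h1, h2, Complex.exp_eq_exp_ℂ]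
  exact (NormedSpace.algebraMap_exp_comm (𝕂 := ℂ) (𝔸 := A) _).symm

theorem map_expS {A' : Type} [NormedCommRing A'] [NormedAlgebra ℂ A'] [CompleteSpace A']
    [NormOneClass A'] (φ : A →ₐ[ℂ] A') (hφ : ∀ a, ‖φ a‖ ≤ ‖a‖) (c : ℂ) :
    map φ hφ (expS ω A c) = expS ω A' c := by
  unfold expS
  rw [map_exp' _ (continuous_map φ hφ), map_mono, AlgHom.commutes]

end WA

/-! ### The weight of an annulus -/

/-- `w k = max (r₁ ^ k) (r₂ ^ k)` -/
def annW (r₁ r₂ : ℝ) (h₁ : 0 < r₁) (h₂ : 0 < r₂) : Wt where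
  w k := max (r₁ ^ k) (r₂ ^ k)
  pos k := lt_max_of_lt_left (zpow_pos h₁ k)
  zero := by simp
  sub i j := by
    rw [zpow_add₀ h₁.ne', zpow_add₀ h₂.ne']
    refine max_le ?_ ?_
    · exact mul_le_mul (le_max_left _ _) (le_max_left _ _) (zpow_pos h₁ j).le
        (le_max_of_le_left (zpow_pos h₁ i).le)
    · exact mul_le_mul (le_max_right _ _) (le_max_right _ _) (zpow_pos h₂ j).le
        (le_max_of_le_left (zpow_pos h₁ i).le)

theorem zpow_le_zpow_of_neg {a b : ℝ} (ha : 0 < a) (hab : a ≤ b) {k : ℤ} (hk : k ≤ 0) :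
    b ^ k ≤ a ^ k := by
  obtain ⟨n, rfl⟩ : ∃ n : ℕ, k = -(n : ℤ) := ⟨k.natAbs, by omega⟩
  rw [zpow_neg, zpow_neg, zpow_natCast, zpow_natCast]
  exact inv_anti₀ (pow_pos ha n) (pow_le_pow_left₀ ha.le hab n)

theorem zpow_le_zpow_of_nonneg {a b : ℝ} (ha : 0 ≤ a) (hab : a ≤ b) {k : ℤ} (hk : 0 ≤ k) :
    a ^ k ≤ b ^ k := by
  lift k to ℕ using hk
  rw [zpow_natCast, zpow_natCast]
  exact pow_le_pow_left₀ ha hab k

theorem annW_neg {r₁ r₂ : ℝ} (h₁ : 0 < r₁) (h₂ : 0 < r₂) {t : ℝ} (ht : r₁ ≤ t) {k : ℤ}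
    (hk : k ≤ 0) : t ^ k ≤ (annW r₁ r₂ h₁ h₂).w k :=
  (zpow_le_zpow_of_neg h₁ ht hk).trans (le_max_left _ _)

theorem annW_nonneg {r₁ r₂ : ℝ} (h₁ : 0 < r₁) (h₂ : 0 < r₂) {t : ℝ} (h0 : 0 ≤ t) (ht : t ≤ r₂)
    {k : ℤ} (hk : 0 ≤ k) : t ^ k ≤ (annW r₁ r₂ h₁ h₂).w k :=
  (zpow_le_zpow_of_nonneg h0 ht hk).trans (le_max_right _ _)

theorem annW_all {r₁ r₂ : ℝ} (h₁ : 0 < r₁) (h₂ : 0 < r₂) {t : ℝ} (ht : r₁ ≤ t) (ht' : t ≤ r₂)
    (k : ℤ) : t ^ k ≤ (annW r₁ r₂ h₁ h₂).w k := by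
  rcases le_total k 0 with hk | hk
  · exact annW_neg h₁ h₂ ht hk
  · exact annW_nonneg h₁ h₂ (h₁.le.trans ht) ht' hk

end Pool.Agent.WienerA
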